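import Pool.Agent.Lib.MP_6e5bed_ag_NS.WA

set_option autoImplicit false
set_option linter.unusedVariables false

/-!
# MP_6e5bed_ag, NC SURFACES: sheaves as presheaves of complexes in degree zero
-/

noncomputable section

namespace Pool.Agent.MP_6e5bed_ag_NS

open Pool.Agent.MP_6e5bed_ag_NC

universe u

variable {k : Type u} [Field k]

theorem conc_map {V W : Type u} [AddCommGroup V] [Module k V] [AddCommGroup W] [Module k W]
    (f : V →ₗ[k] W) {i : ℤ} {v : V} (h : (Dg.conc k V).IsDeg i v) :
    (Dg.conc k W).IsDeg i (f v) := by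
  rcases Dg.conc_cases h with rfl | rfl
  · exact Dg.conc_deg _
  · rw [map_zero]
    exact Dg.IsDeg.zero _

/-- a linear map as a morphism of complexes in degree zero -/
def concH {V W : Type u} [AddCommGroup V] [Module k V] [AddCommGroup W] [Module k W]
    (f : V →ₗ[k] W) : CHom (Cx.conc k V) (Cx.conc k W) where
  f := f
  deg := conc_map f
  d := fun x => (map_zero f).symm

/-- the presheaf of complexes of a sheaf -/
def Shf.pc (M : Shf k) : PC k where
  X := fun c => Cx.conc k (M.M c)
  ρ := fun h => concH (M.res h)
  ρ_id := fun h x => M.res_id h x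
  ρ_ρ := fun h h' x => M.res_res h h' x

/-- the sections of a sheaf of algebras on a chart, as a ring -/
def ASh.R (A : ASh k) (c : Ch k) : Type u := A.M c

instance (A : ASh k) (c : Ch k) : AddCommGroup (A.R c) := inferInstanceAs (AddCommGroup (A.M c))

instance (A : ASh k) (c : Ch k) : Module k (A.R c) := inferInstanceAs (Module k (A.M c))

instance (A : ASh k) (c : Ch k) : Ring (A.R c) :=
  { (inferInstance : AddCommGroup (A.R c)) with
    mul := fun a b => A.mul c a b
    one := A.one c
    left_distrib := fun a b e => map_add (A.mul c a) b e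
    right_distrib := fun a b e => LinearMap.map_add₂ (A.mul c) a b e
    zero_mul := fun a => LinearMap.map_zero₂ (A.mul c) a
    mul_zero := fun a => map_zero (A.mul c a)
    mul_assoc := A.mul_assoc c
    one_mul := A.one_mul c
    mul_one := A.mul_one c }

instance (A : ASh k) (c : Ch k) : Algebra k (A.R c) :=
  Algebra.ofModule (fun r x y => LinearMap.map_smul₂ (A.mul c) r x y)
    (fun r x y => map_smul (A.mul c x) r y)

/-- the restriction maps -/
def ASh.rr (A : ASh k) {c d : Ch k} (h : c ≤ d) : A.R c →ₐ[k] A.R d :=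
  AlgHom.ofLinearMap (A.res h) (A.res_one h) (A.res_mul h)

theorem ASh.rr_apply (A : ASh k) {c d : Ch k} (h : c ≤ d) (a : A.R c) :
    A.rr h a = A.res h a := rfl

/-- a morphism of algebras as a morphism of dg algebras -/
def ringH {R R' : Type u} [Ring R] [Algebra k R] [Ring R'] [Algebra k R'] (f : R →ₐ[k] R') :
    DHom (ring k R) (ring k R') where
  f := f.toLinearMap
  deg := conc_map f.toLinearMap
  d := fun x => (map_zero f).symm
  one := map_one f
  mul := map_mul f

/-- the presheaf of dg algebras of a sheaf of algebras -/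
def ASh.pa (A : ASh k) : PA k where
  A := fun c => ring k (A.R c)
  r := fun h => ringH (A.rr h)
  r_id := fun h x => A.res_id h x
  r_r := fun h h' x => A.res_res h h' x

variable {A B : ASh k}

/-- the bimodule of sections on a chart -/
def BSh.kbi (M : BSh A B) (c : Ch k) : KBi k (A.R c) (B.R c) where
  M := M.M c
  l := M.l c
  r := M.r c
  l_one := M.l_one c
  r_one := M.r_one c
  l_mul := M.l_mul c
  r_mul := M.r_mul c
  l_r := M.l_r c

/-- the presheaf of dg bimodules of a sheaf of bimodules -/
def BSh.pb (M : BSh A B) : PB A.pa B.pa where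
  M := fun c => (M.kbi c).bim
  ρ := fun {c d} h =>
    { f := M.res h
      deg := fun {i x} hx => by
        rw [add_zero]
        exact conc_map (M.res h) hx
      map_l := fun a x => by
        rw [Dg.sp_zero]
        exact M.res_l h a x
      map_r := fun b x => M.res_r h b x }
  dd := fun {c d} h => by
    refine LinearMap.ext fun x => ?_
    rw [GMap.dd_apply, sg_zero, one_smul, LinearMap.zero_apply, sub_eq_zero]
    exact (map_zero (M.res h)).symm
  ρ_id := fun h x => M.res_id h x
  ρ_ρ := fun h h' x => M.res_res h h' x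

theorem BSh.pb_pc (M : BSh A B) : M.pb.pc = M.toShf.pc := rfl

/-- Morphisms of sheaves. -/
structure ShH (M N : Shf k) where
  f : ∀ c, M.M c →ₗ[k] N.M c
  smul : ∀ c (r : RR k c) x, f c (r • x) = r • f c x
  nat : ∀ {c d : Ch k} (h : c ≤ d) x, N.res h (f c x) = f d (M.res h x)

/-- the morphism of presheaves of complexes -/
def ShH.pch {M N : Shf k} (f : ShH M N) : PCH M.pc N.pc where
  f := fun c => concH (f.f c)
  nat := f.nat

/-- Morphisms of sheaves of bimodules. -/
structure BSH (M N : BSh A B) extends ShH M.toShf N.toShf where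
  l : ∀ c a x, f c (M.l c a x) = N.l c a (f c x)
  r : ∀ c b x, f c (M.r c b x) = N.r c b (f c x)

/-- the morphism of presheaves of dg bimodules -/
def BSH.pbh {M N : BSh A B} (f : BSH M N) : PBH M.pb N.pb where
  f := fun c =>
    { f := f.f c
      deg := fun {i x} hx => by
        rw [add_zero]
        exact conc_map (f.f c) hx
      map_l := fun a x => by
        rw [Dg.sp_zero]
        exact f.l c a x
      map_r := fun b x => f.r c b x }
  dd := fun c => by
    refine LinearMap.ext fun x => ?_
    rw [GMap.dd_apply, sg_zero, one_smul, LinearMap.zero_apply, sub_eq_zero]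
    exact (map_zero (f.f c)).symm
  nat := f.nat

/-- exact sequences of sheaves -/
def ShEx {M' M M'' : Shf k} (i : ShH M' M) (p : ShH M M'') : Prop :=
  ∀ c, Function.Injective (i.f c) ∧ Function.Surjective (p.f c) ∧
    ∀ x, p.f c x = 0 ↔ ∃ y, i.f c y = x

/-- the three coordinates -/
def FF (k : Type u) [Field k] : List (LF k) := [xx k 2, xx k 1, xx k 0]

/-- The Čech dg algebra `RΓ(P², A)`. -/
def TT (A : ASh k) : DGA k := cA A.pa (FF k) (FS.e k)

/-- The Čech dg bimodule `RΓ(P², M)`. -/
def BB (M : BSh A B) : Bim (TT A) (TT B) := cB M.pb (FF k) (FS.e k)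

/-- The Čech complex of a sheaf. -/
def CC (M : Shf k) : Cx k := (cC M.pc (FF k)).X (FS.e k)

theorem BB_dg (M : BSh A B) : bcx (BB M) = CC M.toShf := rfl

end Pool.Agent.MP_6e5bed_ag_NS
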