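import Pool.Agent.Lib.MP_6e5bed_ag_CV.TorsA
import Pool.Agent.Lib.MP_6e5bed_ag_CV.ClsTors

set_option autoImplicit false

/-!
# Torsion bimodules over cospans, relative version (MP_6e5bed_ag, NC SURFACES)
-/

namespace Pool.Agent.MP_6e5bed_ag_NS

open Pool.Agent.MP_6e5bed_ag_NC

universe u

variable {k : Type u} [Field k] {S T : Cosp k} {A B : DGA k}

/-- The classes of torsion bimodules are sums of classes of finite-dimensional bimodules. This is
`Tri.Tors.mem` of TorsA relatively to dg maps `α`, `β` (same proof: `Tri.ses0`, `IsSes.res`,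
`IsSes.mid`, `IsSes.rcls`, `rcls_qiso`). -/
theorem rtors_mem {M : Tri S T} (hM : M.Tors) (α : DHom A S.cech) (β : DHom B T.cech)
    (J : Submodule ℚ (K0Q A B))
    (h0 : ∀ U : KBi k S.A0 T.A0, Module.Finite k U.M →
      ∃ h : HasRes (res (α.comp S.proj0) (β.comp T.proj0) U.bim), rcls _ h ∈ J)
    (h1 : ∀ U : KBi k S.A1 T.A1, Module.Finite k U.M →
      ∃ h : HasRes (res (α.comp S.proj1) (β.comp T.proj1) U.bim), rcls _ h ∈ J) :
    ∃ h : HasRes (res α β M.bim), rcls _ h ∈ J := by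
  obtain ⟨U, i, Z, hi, hs, q, hq⟩ := M.ses0 hM.2.2.2.2
  have hU : Module.Finite k U.M := by
    have := hM.2.1
    exact Module.Finite.of_injective i hi
  obtain ⟨hU1, hU2⟩ := h1 U hU
  obtain ⟨hM1, hM2⟩ := h0 M.M0 hM.1
  have hs' := hs.res α β
  have hq' : QIso (GMap.res α β q) := hq
  have hZ : HasRes (res α β Z) := HasRes.of_qiso hU1 (GMap.res α β q) hq'
  have hZ' : rcls _ hZ ∈ J := by
    rw [← rcls_qiso hU1 hZ (GMap.res α β q) hq']
    exact hU2
  have hM' : HasRes (res α β M.bim) := hs'.mid hZ hM1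
  refine ⟨hM', ?_⟩
  rw [hs'.rcls hZ hM' hM1]
  exact J.add_mem hZ' hM2

end Pool.Agent.MP_6e5bed_ag_NS
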