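import Pool.Agent.Lib.MP_6e5bed_ag_CV.LFin
import Pool.Agent.Lib.MP_6e5bed_ag_CV.LSub
import Pool.Agent.Lib.MP_6e5bed_ag_CV.LLe
import Pool.Agent.Lib.MP_6e5bed_ag_NS.RTors

set_option autoImplicit false
set_option linter.unusedSectionVars false

/-!
# Classes of bimodules over the generic point, modulo torsion classes, relative version
(MP_6e5bed_ag, NC SURFACES; the proofs are those of GCls.lean)

Everything is relative to dg maps `α : A → S.cech`, `β : B → T.cech`.
-/

namespace Pool.Agent.MP_6e5bed_ag_NS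

open Pool.Agent.MP_6e5bed_ag_NC
open RatFunc LP

universe u

variable {k : Type u} [Field k] {S T : Cosp k} {A B : DGA k}

/-- The classes of all torsion bimodules are in `J`. -/
def TorsIn (α : DHom A S.cech) (β : DHom B T.cech) (J : Submodule ℚ (K0Q A B)) : Prop :=
  ∀ τ : Tri S T, τ.Tors → ∃ h : HasRes (res α β τ.bim), rcls _ h ∈ J

/-- Over an algebraically closed field, the classes of torsion bimodules factor through `k`. -/
theorem torsIn_JS [IsAlgClosed k] {Good : DGA k → Prop} (hG : Good (base k))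
    (hA : Smooth A) (α : DHom A S.cech) (α' : DHom A T.cech) : TorsIn α α' (JS Good A) := by
  intro τ hτ
  exact rtors_mem hτ _ _ _ (fun U hU => KBi.cls_mem hG hA (α.comp S.proj0) (α'.comp T.proj0) U hU)
    (fun U hU => KBi.cls_mem hG hA (α.comp S.proj1) (α'.comp T.proj1) U hU)

variable {α : DHom A S.cech} {β : DHom B T.cech}

theorem rgcls_le {J : Submodule ℚ (K0Q A B)} (hJ : TorsIn α β J)
    {G : GBi k S.A01 T.A01} {N N' : LP k G.E} (h : Stable G N) (h' : Stable G N')
    (hle : Le N' N) (hN : HasRes (res α β (tri h).bim)) :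
    ∃ hN' : HasRes (res α β (tri h').bim), rcls _ hN - rcls _ hN' ∈ J := by
  obtain ⟨τ, hτ, hs0⟩ := ses_le h' h hle
  have hs := hs0.res α β
  obtain ⟨hr, hm⟩ := hJ τ hτ
  have hN' : HasRes (res α β (tri h').bim) := hs.left hN hr
  refine ⟨hN', ?_⟩
  rw [hs.rcls hN' hN hr, add_sub_cancel_left]
  exact hm

/-- Lattice pairs in the same bimodule have the same class modulo `J`. -/
theorem rcls_congr {J : Submodule ℚ (K0Q A B)} (hJ : TorsIn α β J)
    {G : GBi k S.A01 T.A01} {N N' : LP k G.E} (h : Stable G N) (h' : Stable G N')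
    (hN : HasRes (res α β (tri h).bim)) (hN' : HasRes (res α β (tri h').bim)) :
    rcls _ hN - rcls _ hN' ∈ J := by
  obtain ⟨N'', h'', hle, hle'⟩ := exists_inf h h'
  obtain ⟨r1, m1⟩ := rgcls_le hJ h h'' hle hN
  obtain ⟨r2, m2⟩ := rgcls_le hJ h' h'' hle' hN'
  have h3 := J.sub_mem m1 m2
  rwa [sub_sub_sub_cancel_right] at h3

/-- `c` is the class of `G` modulo `J`: of all stable lattice pairs with a resolution; there is
one. -/
def IsG (α : DHom A S.cech) (β : DHom B T.cech) (J : Submodule ℚ (K0Q A B))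
    (G : GBi k S.A01 T.A01) (c : K0Q A B) : Prop :=
  ∃ (N : LP k G.E) (h : Stable G N) (hN : HasRes (res α β (tri h).bim)), rcls _ hN - c ∈ J

theorem IsG.eq {J : Submodule ℚ (K0Q A B)} (hJ : TorsIn α β J) {G : GBi k S.A01 T.A01}
    {c : K0Q A B} (hc : IsG α β J G c) {N : LP k G.E} (h : Stable G N)
    (hN : HasRes (res α β (tri h).bim)) : rcls _ hN - c ∈ J := by
  obtain ⟨N', h', hN', hc'⟩ := hc
  have h3 := J.add_mem (rcls_congr hJ h h' hN hN') hc'
  rwa [sub_add_sub_cancel] at h3

theorem IsG.congr {J : Submodule ℚ (K0Q A B)} {G : GBi k S.A01 T.A01}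
    {c c' : K0Q A B} (hc : IsG α β J G c) (h : c - c' ∈ J) : IsG α β J G c' := by
  obtain ⟨N, hs, hN, hm⟩ := hc
  refine ⟨N, hs, hN, ?_⟩
  have h3 := J.add_mem hm h
  rwa [sub_add_sub_cancel] at h3

/-- Restriction of isomorphisms. -/
theorem biso_res {A A' B B' : DGA k} (α : DHom A A') (β : DHom B B') {M N : Bim A' B'}
    (h : BIso M N) : BIso (res α β M) (res α β N) := by
  obtain ⟨φ, ψ, h0, h1, h2⟩ := h
  exact ⟨GMap.res α β φ, GMap.res α β ψ, h0, h1, h2⟩

theorem IsG.iso {J : Submodule ℚ (K0Q A B)} {G G' : GBi k S.A01 T.A01}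
    {c : K0Q A B} (hc : IsG α β J G c) (h : GBi.Iso G G') : IsG α β J G' c := by
  obtain ⟨N, hs, hN, hm⟩ := hc
  obtain ⟨N', hs', hb0⟩ := exists_iso h hs
  have hb := biso_res α β hb0
  have hN' : HasRes (res α β (tri hs').bim) := hN.iso hb
  refine ⟨N', hs', hN', ?_⟩
  rwa [← rcls_iso hb hN hN']

theorem IsG.zero {J : Submodule ℚ (K0Q A B)} {G : GBi k S.A01 T.A01}
    (hG : Subsingleton G.E) : IsG α β J G 0 := by
  have h0 : ∀ x : G.E, x = 0 := fun x => Subsingleton.elim _ _
  obtain ⟨N⟩ : Nonempty (LP k G.E) := ⟨{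
    N0 := ⊥
    N1 := ⊥
    fg0 := Submodule.fg_bot
    fg1 := Submodule.fg_bot
    sp0 := by
      rw [eq_top_iff]
      intro x _
      rw [h0 x]
      exact Submodule.zero_mem _
    sp1 := by
      rw [eq_top_iff]
      intro x _
      rw [h0 x]
      exact Submodule.zero_mem _
    loc01 := fun v _ => ⟨0, by
      rw [h0 v, smul_zero]
      exact Submodule.zero_mem _⟩
    loc10 := fun v _ => ⟨0, by
      rw [h0 v, smul_zero]
      exact Submodule.zero_mem _⟩ }⟩
  have hs : Stable G N :=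
    { l0 := fun a v _ => by
        rw [h0 (G.l (S.r0 a) v)]
        exact Submodule.zero_mem _
      r0 := fun b v _ => by
        rw [h0 (G.r (T.r0 b) v)]
        exact Submodule.zero_mem _
      l1 := fun a v _ => by
        rw [h0 (G.l (S.r1 a) v)]
        exact Submodule.zero_mem _
      r1 := fun b v _ => by
        rw [h0 (G.r (T.r1 b) v)]
        exact Submodule.zero_mem _
      l01 := fun a v _ => by
        rw [h0 (G.l a v)]
        exact Submodule.zero_mem _
      r01 := fun b v _ => by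
        rw [h0 (G.r b v)]
        exact Submodule.zero_mem _ }
  have hM : ∀ x y : (tri hs).bim.M, x = y := by
    intro x y
    have h1 : ∀ u v : (N.N0 × N.N1) × N.N01, u = v := by
      rintro ⟨⟨u1, u2⟩, u3⟩ ⟨⟨v1, v2⟩, v3⟩
      have e1 : u1 = v1 := Subtype.ext (Subsingleton.elim _ _)
      have e2 : u2 = v2 := Subtype.ext (Subsingleton.elim _ _)
      have e3 : u3 = v3 := Subtype.ext (Subsingleton.elim _ _)
      rw [e1, e2, e3]
    exact h1 x y
  have ha : Acyc (res α β (tri hs).bim) := fun x _ => ⟨x, hM _ _⟩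
  refine ⟨N, hs, HasRes.of_acyc ha, ?_⟩
  rw [rcls_acyc ha, sub_zero]
  exact J.zero_mem

/-- All stable lattice pairs have resolutions over smooth dg algebras. -/
theorem hasRes_tri (hA : Smooth A) (hB : Smooth B) {G : GBi k S.A01 T.A01} {N : LP k G.E}
    (hN : Stable G N) : HasRes (res α β (tri hN).bim) :=
  HasRes.of_finCoh hA hB _ (LP.finCoh hN)

/-- The class is additive; all stable lattice pairs have resolutions if `A` and `B` are
smooth. -/
theorem IsG.add {J : Submodule ℚ (K0Q A B)} (hJ : TorsIn α β J) (hA : Smooth A)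
    (hB : Smooth B) {G : GBi k S.A01 T.A01} (U : Submodule (RatFunc k) G.E)
    (hU : G.Stab U) {N : LP k G.E} (hN : Stable G N) {c c' : K0Q A B}
    (hc : IsG α β J (G.sub U hU) c) (hc' : IsG α β J (G.quot U hU) c') :
    IsG α β J G (c + c') := by
  obtain ⟨N', h', N'', h'', hses0⟩ := ses_sub hN U hU
  have hses := hses0.res α β
  have r' : HasRes (res α β (tri h').bim) := hasRes_tri hA hB h'
  have r'' : HasRes (res α β (tri h'').bim) := hasRes_tri hA hB h''
  have r : HasRes (res α β (tri hN).bim) := hasRes_tri hA hB hN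
  refine ⟨N, hN, r, ?_⟩
  rw [hses.rcls r' r r'', add_sub_add_comm]
  exact J.add_mem (hc.eq hJ h' r') (hc'.eq hJ h'' r'')

/-- The class of a bimodule with a filtration with `n` subquotients isomorphic to `G₀`. -/
theorem IsG.ser {J : Submodule ℚ (K0Q A B)} (hJ : TorsIn α β J) (hA : Smooth A)
    (hB : Smooth B) {G₀ G : GBi k S.A01 T.A01} {n : ℕ} (h : GBi.Ser G₀ G n)
    {N : LP k G.E} (hN : Stable G N) {c : K0Q A B} (hc : IsG α β J G₀ c) :
    IsG α β J G ((n : ℚ) • c) := by
  induction h with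
  | zero hG =>
    rw [Nat.cast_zero, zero_smul]
    exact IsG.zero hG
  | step U hU _ hi ih =>
    obtain ⟨N', h', N'', h'', hses⟩ := ses_sub hN U hU
    have h1 := ih h'
    have h2 : GBi.Iso G₀ (GBi.quot _ U hU) := by
      obtain ⟨f, fl, fr⟩ := hi
      refine ⟨f.symm, fun a x => ?_, fun b x => ?_⟩
      · rw [LinearEquiv.symm_apply_eq, fl, LinearEquiv.apply_symm_apply]
      · rw [LinearEquiv.symm_apply_eq, fr, LinearEquiv.apply_symm_apply]
    have h3 := IsG.add hJ hA hB U hU hN h1 (hc.iso h2)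
    rw [Nat.cast_add, Nat.cast_one, add_smul, one_smul]
    exact h3

end Pool.Agent.MP_6e5bed_ag_NS
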