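import Pool.Agent.Lib.MP_6e5bed_ag_CV.MStepA
import Pool.Agent.Lib.MP_6e5bed_ag_NC.ResIso
import Pool.Agent.Lib.MP_6e5bed_ag_NS.RGCls

set_option autoImplicit false
set_option linter.unusedSectionVars false

/-!
# The classes of lattice pairs factor through curves, relative version
(MP_6e5bed_ag, NC SURFACES; the proofs are those of MStepA.lean)
-/

namespace Pool.Agent.MP_6e5bed_ag_NS

open Pool.Agent.MP_6e5bed_ag_NC
open RatFunc LP
open scoped TensorProduct

universe u

variable {k : Type u} [Field k]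

/-- Restriction on the outer sides keeps flatness. -/
theorem rflat_res {C A W : DGA k} (α : DHom C A) {X : Bim A W} (hX : RFlat X) :
    RFlat (res α (DHom.id W) X) := by
  intro B Y hY
  have h1 : Acyc (res α (DHom.id B) (tb X Y)) := fun x hx => hX B Y hY x hx
  have h2 := res_tb α (DHom.id B) X Y
  exact h1.iso h2

/-- The class of a corner factors through the ambient dg algebra. -/
theorem rcls_pull {Good : DGA k → Prop} {C A W : DGA k} (hC : Smooth C) (α : DHom C A)
    (hW : Smooth W) (hp : Proper W) (hG : Good W) (φ : NHom A W) {Y : Bim W A}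
    (hY : Y.dg.FinCoh) {Z : Bim A A} (hZ : BIso (pull φ Y) Z) :
    ∃ h : HasRes (res α α Z), rcls _ h ∈ JS Good C := by
  have hX : HasRes (res α (DHom.id W) (pull φ (MP_6e5bed_ag_NC.diag W))) :=
    HasRes.of_finCoh hC hW _ (finCoh_pull φ _ ((proper_iff W).1 hp))
  have hYr : HasRes (res (DHom.id W) α Y) := HasRes.of_finCoh hW hC _ hY
  have hfl : RFlat (res α (DHom.id W) (pull φ (MP_6e5bed_ag_NC.diag W))) :=
    rflat_res α (rflat_pull φ)
  have ht : HasRes (tb (res α (DHom.id W) (pull φ (MP_6e5bed_ag_NC.diag W)))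
      (res (DHom.id W) α Y)) := HasRes.tb hp hX hYr hfl
  have hbi : BIso (tb (res α (DHom.id W) (pull φ (MP_6e5bed_ag_NC.diag W)))
      (res (DHom.id W) α Y)) (res α α Z) :=
    (res_tb α α _ _).symm.trans (biso_res α α ((pull_tb φ Y).trans hZ))
  refine ⟨ht.iso hbi, ?_⟩
  rw [← rcls_iso hbi ht (ht.iso hbi)]
  exact JS.tb hp hG hX hYr hfl ht

/-- The class of the corner factors through the curve algebra. -/
theorem rcls_corner {Good : DGA k → Prop} {C : DGA k} (hC : Smooth C) {A : Cosp k}
    (α : DHom C A.cech) {D : FExt k}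
    {E : LSp D} {r : RAct A.A01 E} {N : LP k E.F}
    (hr : r.St N) (hs : Smooth (endCosp N.plus).cech) (hG : Good (endCosp N.plus).cech)
    (φ : NCosp A (endCosp N.plus)) :
    IsG α α (JS Good C) ((tensG (endL N.plus) r).corner φ.f01 φ.mul01) 0 := by
  have hY : LP.Stable (S := endCosp N.plus) (T := A) (tensG (endL N.plus) r) (N.plus.tens N) :=
    stable_tens (endL_st N.plus) hr
  obtain ⟨N', h', hiso⟩ := exists_corner φ (tensG (endL N.plus) r) hY
  obtain ⟨h, hm⟩ := rcls_pull hC α hs (proper_end N.plus) hG φ.nhom (LP.finCoh hY) hiso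
  refine ⟨N', h', h, ?_⟩
  rw [sub_zero]
  exact hm

end Pool.Agent.MP_6e5bed_ag_NS
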