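import Pool.Agent.Lib.MP_6e5bed_ag_NS.LamR

set_option autoImplicit false

/-!
# MP_6e5bed_ag, NC SURFACES: the annihilator of a torsion sheaf (section 3a)
-/

noncomputable section

namespace Pool.Agent.MP_6e5bed_ag_NS

universe u

variable {k : Type u} [Field k]

/-- the homogeneous polynomial `P` of degree `e`, as a function `P(1, u, v)` -/
def ev (P : MvPolynomial (Fin 3) k) : KK k := MvPolynomial.aeval (uu k) P

private theorem TorA_single (i : Fin 3) : lam k (Pi.single i 1) = uu k i := by
  unfold lam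
  rw [Finset.sum_eq_single i]
  · rw [Pi.single_eq_same, one_smul]
  · intro j _ hj
    rw [Pi.single_eq_of_ne hj, zero_smul]
  · intro h
    exact absurd (Finset.mem_univ i) h

private theorem TorA_xx (i : Fin 3) : lam k (xx k i).1 = uu k i := TorA_single i

private theorem TorA_uu (i : Fin 3) : uu k i ≠ 0 := by
  rw [← TorA_xx]
  exact lam_ne_zero _

private theorem TorA_deg {P : MvPolynomial (Fin 3) k} {e : ℕ} (hP : P.IsHomogeneous e)
    {d : Fin 3 →₀ ℕ} (hd : d ∈ P.support) : ∑ i, d i = e := by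
  have h1 := hP (MvPolynomial.mem_support_iff.1 hd)
  rw [← h1, Finsupp.weight_apply, Finsupp.sum_fintype]
  · simp
  · intro i
    simp

private theorem TorA_hom {S : Type u} [CommRing S] [Algebra k S] {P : MvPolynomial (Fin 3) k}
    {e : ℕ} (hP : P.IsHomogeneous e) (x : Fin 3 → S) (w : S) :
    MvPolynomial.aeval (fun i => x i * w) P = MvPolynomial.aeval x P * w ^ e := by
  rw [MvPolynomial.aeval_def, MvPolynomial.aeval_def, MvPolynomial.eval₂_eq',
    MvPolynomial.eval₂_eq', Finset.sum_mul]
  refine Finset.sum_congr rfl fun d hd => ?_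
  rw [← TorA_deg hP hd, ← Finset.prod_pow_eq_pow_sum, mul_assoc, ← Finset.prod_mul_distrib]
  simp only [mul_pow]

/-- the function `P / g ^ e` is regular on the charts contained in `g ≠ 0` -/
theorem ev_mem {P : MvPolynomial (Fin 3) k} {e : ℕ} (hP : P.IsHomogeneous e) {c : Ch k}
    {g : LF k} (hg : g ∈ c.1) : ev P / lam k g.1 ^ e ∈ RR k c := by
  have h1 := TorA_hom hP (uu k) (lam k g.1)⁻¹
  rw [inv_pow, ← div_eq_mul_inv] at h1
  unfold ev
  rw [← h1, MvPolynomial.aeval_def, MvPolynomial.eval₂_eq']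
  refine Subalgebra.sum_mem _ fun d _ => Subalgebra.mul_mem _ ?_ ?_
  · exact (RR k c).algebraMap_mem _
  · refine Subalgebra.prod_mem _ fun i _ => Subalgebra.pow_mem _ ?_ _
    have h2 := lam_mem (c := c) (Pi.single i (1 : k)) hg
    rwa [TorA_single, div_eq_mul_inv] at h2

/-- the functions on the chart `x_i ≠ 0` are the quotients `P / x_i ^ e` -/
theorem exists_ev (i : Fin 3) {r : KK k} (hr : r ∈ RR k (Ch.sgl (xx k i))) :
    ∃ (e : ℕ) (P : MvPolynomial (Fin 3) k), P.IsHomogeneous e ∧ r = ev P / uu k i ^ e := by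
  have hu := TorA_uu (k := k) i
  have evX : ∀ e : ℕ, ev (MvPolynomial.X i ^ e : MvPolynomial (Fin 3) k) = uu k i ^ e := by
    intro e
    unfold ev
    rw [map_pow, MvPolynomial.aeval_X]
  have evmul : ∀ P Q : MvPolynomial (Fin 3) k, ev (P * Q) = ev P * ev Q := by
    intro P Q
    unfold ev
    rw [map_mul]
  have evadd : ∀ P Q : MvPolynomial (Fin 3) k, ev (P + Q) = ev P + ev Q := by
    intro P Q
    unfold ev
    rw [map_add]
  induction hr using Algebra.adjoin_induction with
  | mem x hx =>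
    obtain ⟨ℓ, g, hg, rfl⟩ := hx
    have hg' : g = xx k i := hg
    refine ⟨1, ∑ j, MvPolynomial.C (ℓ j) * MvPolynomial.X j, ?_, ?_⟩
    · refine MvPolynomial.IsHomogeneous.sum _ _ _ fun j _ => ?_
      have h1 := (MvPolynomial.isHomogeneous_C (Fin 3) (ℓ j)).mul
        (MvPolynomial.isHomogeneous_X k j)
      rwa [zero_add] at h1
    · rw [hg', TorA_xx, pow_one]
      congr 1
      unfold ev lam
      rw [map_sum]
      refine Finset.sum_congr rfl fun j _ => ?_
      rw [map_mul, MvPolynomial.aeval_C, MvPolynomial.aeval_X, Algebra.smul_def]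
  | algebraMap a =>
    refine ⟨0, MvPolynomial.C a, MvPolynomial.isHomogeneous_C _ _, ?_⟩
    unfold ev
    rw [MvPolynomial.aeval_C, pow_zero, div_one]
  | add x y _ _ hx hy =>
    obtain ⟨e, P, hP, rfl⟩ := hx
    obtain ⟨e', Q, hQ, rfl⟩ := hy
    refine ⟨e + e', P * MvPolynomial.X i ^ e' + Q * MvPolynomial.X i ^ e, ?_, ?_⟩
    · have hX : ∀ n : ℕ, (MvPolynomial.X i ^ n : MvPolynomial (Fin 3) k).IsHomogeneous n := by
        intro n
        have h1 := (MvPolynomial.isHomogeneous_X k i).pow n
        rwa [one_mul] at h1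
      refine (hP.mul (hX e')).add ?_
      have h2 := hQ.mul (hX e)
      rwa [add_comm e' e] at h2
    · rw [evadd, evmul, evmul, evX, evX, pow_add]
      field_simp
  | mul x y _ _ hx hy =>
    obtain ⟨e, P, hP, rfl⟩ := hx
    obtain ⟨e', Q, hQ, rfl⟩ := hy
    refine ⟨e + e', P * Q, hP.mul hQ, ?_⟩
    rw [evmul, pow_add]
    field_simp

theorem ev_ne_zero {P : MvPolynomial (Fin 3) k} {e : ℕ} (hP : P.IsHomogeneous e)
    (h0 : P ≠ 0) : ev P ≠ 0 := by
  intro h
  -- the dehomogenisation vanishes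
  have h1 : MvPolynomial.aeval (![1, MvPolynomial.X 0, MvPolynomial.X 1] :
      Fin 3 → MvPolynomial (Fin 2) k) P = 0 := by
    apply IsFractionRing.injective (MvPolynomial (Fin 2) k) (KK k)
    rw [map_zero, ← h]
    have h2 := (MvPolynomial.map_aeval (![1, MvPolynomial.X 0, MvPolynomial.X 1] :
      Fin 3 → MvPolynomial (Fin 2) k) (algebraMap (MvPolynomial (Fin 2) k) (KK k)) P)
    rw [h2]
    unfold ev
    rw [MvPolynomial.aeval_def]
    change MvPolynomial.eval₂ _ _ P = _
    congr 1
    · funext i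
      fin_cases i
      · exact map_one _
      · rfl
      · rfl
  -- the field of fractions
  let L := FractionRing (MvPolynomial (Fin 3) k)
  let X : Fin 3 → L := fun i => algebraMap (MvPolynomial (Fin 3) k) L (MvPolynomial.X i)
  have hX0 : X 0 ≠ 0 := by
    intro h2
    have h3 : (MvPolynomial.X 0 : MvPolynomial (Fin 3) k) = 0 :=
      IsFractionRing.injective (MvPolynomial (Fin 3) k) L (by rw [map_zero]; exact h2)
    exact MvPolynomial.X_ne_zero 0 h3
  have h4 : MvPolynomial.aeval (![1, X 1 / X 0, X 2 / X 0] : Fin 3 → L) P = 0 := by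
    have h5 := congrArg (MvPolynomial.aeval (![X 1 / X 0, X 2 / X 0] : Fin 2 → L)) h1
    rw [map_zero, MvPolynomial.comp_aeval_apply] at h5
    rw [← h5]
    congr 2
    funext i
    fin_cases i
    · simp
    · simp
    · simp
  have h6 := TorA_hom hP (![1, X 1 / X 0, X 2 / X 0] : Fin 3 → L) (X 0)
  rw [h4, zero_mul] at h6
  have h7 : (fun i => (![1, X 1 / X 0, X 2 / X 0] : Fin 3 → L) i * X 0) =
      fun i => algebraMap (MvPolynomial (Fin 3) k) L (MvPolynomial.X i) := by
    funext i
    fin_cases i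
    · simp [X]
    · change X 1 / X 0 * X 0 = X 1
      exact div_mul_cancel₀ _ hX0
    · change X 2 / X 0 * X 0 = X 2
      exact div_mul_cancel₀ _ hX0
  rw [h7] at h6
  have h8 : MvPolynomial.aeval
      (fun i => algebraMap (MvPolynomial (Fin 3) k) L (MvPolynomial.X i)) P =
      algebraMap (MvPolynomial (Fin 3) k) L P := by
    have h9 := MvPolynomial.aeval_unique
      (IsScalarTower.toAlgHom k (MvPolynomial (Fin 3) k) L)
    have h10 := congrArg (fun φ : MvPolynomial (Fin 3) k →ₐ[k] L => φ P) h9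
    exact h10.symm
  rw [h8] at h6
  exact h0 (IsFractionRing.injective (MvPolynomial (Fin 3) k) L (by rw [map_zero]; exact h6))

/-- `P / g ^ e` kills `M` on every chart. -/
def Kills (M : Shf k) (e : ℕ) (P : MvPolynomial (Fin 3) k) : Prop :=
  ∀ (c : Ch k) (g : LF k) (_ : g ∈ c.1) (s : RR k c), (s : KK k) = ev P / lam k g.1 ^ e →
    ∀ m : M.M c, s • m = 0

/-- a finitely generated torsion module over a domain is killed by a nonzero element -/
private theorem TorA_kill {R N : Type u} [CommRing R] [IsDomain R] [AddCommGroup N] [Module R N]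
    [Module.Finite R N] (h : ∀ m : N, ∃ r : R, r ≠ 0 ∧ r • m = 0) :
    ∃ s : R, s ≠ 0 ∧ ∀ m : N, s • m = 0 := by
  classical
  obtain ⟨S, hS⟩ := (Module.Finite.fg_top : (⊤ : Submodule R N).FG)
  choose r hr0 hr using h
  refine ⟨∏ x ∈ S, r x, Finset.prod_ne_zero_iff.2 fun x _ => hr0 x, fun m => ?_⟩
  have hm : m ∈ Submodule.span R (S : Set N) := by
    rw [hS]
    exact Submodule.mem_top
  induction hm using Submodule.span_induction with
  | mem x hx =>
    rw [← Finset.prod_erase_mul S r (Finset.mem_coe.1 hx), mul_smul, hr, smul_zero]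
  | zero => rw [smul_zero]
  | add x y _ _ hx hy => rw [smul_add, hx, hy, add_zero]
  | smul a x _ hx => rw [smul_comm, hx, smul_zero]

/-- a section on a smaller chart is up to a unit the restriction of a section on `b` -/
private theorem TorA_surj (M : Shf k) (b : Ch k) {g : LF k} (hg : g ∈ b.1) (C : Set (LF k))
    (hC : C.Finite) : ∀ (d : Ch k) (h : b ≤ d), d.1 ⊆ b.1 ∪ C → ∀ m : M.M d,
      ∃ u : RR k d, IsUnit u ∧ ∃ m' : M.M b, M.res h m' = u • m := by
  induction C, hC using Set.Finite.induction_on with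
  | empty =>
    intro d h hd m
    have hdb : d ≤ b := by
      intro x hx
      rcases hd hx with h1 | h1
      · exact h1
      · exact absurd h1 (Set.notMem_empty x)
    refine ⟨1, isUnit_one, M.res hdb m, ?_⟩
    rw [M.res_res, M.res_id, one_smul]
  | @insert ℓ C' _ hC' ih =>
    intro d h hd m
    by_cases hℓ : ℓ ∈ d.1
    · -- remove `ℓ`
      let d' : Ch k := ⟨b.1 ∪ (d.1 \ {ℓ}), b.2.1.mono Set.subset_union_left,
        b.2.2.union (d.2.2.subset Set.sdiff_subset)⟩
      have hbd' : b ≤ d' := fun x hx => Or.inl hx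
      have hd'd : d' ≤ d := by
        intro x hx
        rcases hx with h1 | h1
        · exact h h1
        · exact h1.1
      have hins : d ≤ d'.ins ℓ := by
        intro x hx
        by_cases hx' : x = ℓ
        · exact Or.inl hx'
        · exact Or.inr (Or.inr ⟨hx, hx'⟩)
      have hsub : d'.1 ⊆ b.1 ∪ C' := by
        intro x hx
        rcases hx with h1 | h1
        · exact Or.inl h1
        · rcases hd h1.1 with h2 | h2
          · exact Or.inl h2
          · rcases h2 with h3 | h3
            · exact absurd h3 h1.2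
            · exact Or.inr h3
      obtain ⟨n, m₁, hm₁⟩ := M.surj hd'd (hbd' hg) ℓ hins m
      obtain ⟨u₁, hu₁, m', hm'⟩ := ih d' hbd' hsub m₁
      refine ⟨rinc hd'd u₁ * quo ℓ.1 (hd'd (hbd' hg)) ^ n, ?_, m', ?_⟩
      · refine (hu₁.map (rinc hd'd)).mul (IsUnit.pow n ?_)
        exact IsUnit.of_mul_eq_one _ (quo_mul_quo hℓ (hd'd (hbd' hg)))
      · rw [mul_smul, ← hm₁, ← M.res_smul, ← hm', M.res_res]
    · refine ih d h (fun x hx => ?_) m
      rcases hd hx with h2 | h2
      · exact Or.inl h2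
      · rcases h2 with h3 | h3
        · rw [h3] at hx
          exact absurd hx hℓ
        · exact Or.inr h3

/-- A coherent torsion sheaf is killed by a nonzero homogeneous polynomial. PROOF. On the chart
`x_i ≠ 0` it is finitely generated and torsion, so it is killed by some `s_i = P_i / x_i ^ e_i`,
not zero. `P = P_0 P_1 P_2`. Let `m ∈ M c`, `g ∈ c`. The intersection with the chart `x_i ≠ 0` (for
`i = 0, 1, 2`): the restriction of `m` to `c ∪ x_i` is, up to a unit of `R_{c ∪ x_i}`, the
restriction of a section on the chart `x_i ≠ 0` (`M.surj` for the elements of `c` one after the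
other), so it is killed by `P / x_i ^ e` and `P / g ^ e`. By `M.inj` a power of `x_i / g` kills
`(P / g ^ e) m`; these powers generate the unit ideal (`span_coord`). -/
theorem exists_ann (M : Shf k) (hc : M.Coh) (ht : M.Tors) :
    ∃ (e : ℕ) (P : MvPolynomial (Fin 3) k), P.IsHomogeneous e ∧ P ≠ 0 ∧ Kills M e P := by
  classical
  have hs : ∀ i : Fin 3, ∃ s : RR k (Ch.sgl (xx k i)), s ≠ 0 ∧
      ∀ m : M.M (Ch.sgl (xx k i)), s • m = 0 := by
    intro i
    have := hc (Ch.sgl (xx k i))
    exact TorA_kill (ht (Ch.sgl (xx k i)))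
  choose s hs0 hs using hs
  have hP : ∀ i : Fin 3, ∃ (e : ℕ) (P : MvPolynomial (Fin 3) k), P.IsHomogeneous e ∧
      (s i : KK k) = ev P / uu k i ^ e := fun i => exists_ev i (s i).2
  choose e P hPh hPs using hP
  have hP0 : ∀ i, P i ≠ 0 := by
    intro i h0
    apply hs0 i
    apply Subtype.ext
    rw [hPs, h0]
    unfold ev
    rw [map_zero, zero_div]
    rfl
  have evmul : ∀ P Q : MvPolynomial (Fin 3) k, ev (P * Q) = ev P * ev Q := by
    intro P Q
    unfold ev
    rw [map_mul]
  refine ⟨∑ i, e i, ∏ i, P i, MvPolynomial.IsHomogeneous.prod _ _ _ fun i _ => hPh i,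
    Finset.prod_ne_zero_iff.2 fun i _ => hP0 i, ?_⟩
  intro c g hg t htv m
  -- a power of every coordinate kills `t • m`
  have key : ∀ i : Fin 3, ∃ n : ℕ, quo (xx k i).1 hg ^ n • (t • m) = 0 := by
    intro i
    have hcd : c ≤ c.ins (xx k i) := fun x hx => Or.inr hx
    have hbd : Ch.sgl (xx k i) ≤ c.ins (xx k i) := by
      intro x hx
      exact Or.inl hx
    refine M.inj hcd hg (xx k i) le_rfl (t • m) ?_
    rw [M.res_smul]
    obtain ⟨w, hw, m', hm'⟩ := TorA_surj M (Ch.sgl (xx k i)) (Set.mem_singleton _) c.1 c.2.2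
      (c.ins (xx k i)) hbd (by
        intro x hx
        rcases hx with h1 | h1
        · exact Or.inl h1
        · exact Or.inr h1) (M.res hcd m)
    have h1 : rinc hbd (s i) • M.res hcd m = 0 := by
      have h2 : M.res hbd (s i • m') = 0 := by rw [hs i m', map_zero]
      rw [M.res_smul, hm', smul_comm] at h2
      obtain ⟨w', hw'⟩ := hw
      rw [← hw'] at h2
      have h3 := congrArg (fun y => ((w'⁻¹ : (RR k (c.ins (xx k i)))ˣ) :
        RR k (c.ins (xx k i))) • y) h2
      simpa [smul_smul] using h3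
    -- the quotient
    have hQ : (∏ j ∈ Finset.univ.erase i, P j).IsHomogeneous (∑ j ∈ Finset.univ.erase i, e j) :=
      MvPolynomial.IsHomogeneous.prod _ _ _ fun j _ => hPh j
    have hgd : g ∈ (c.ins (xx k i)).1 := hcd hg
    have hmem : (uu k i / lam k g.1) ^ e i * (ev (∏ j ∈ Finset.univ.erase i, P j) /
        lam k g.1 ^ (∑ j ∈ Finset.univ.erase i, e j)) ∈ RR k (c.ins (xx k i)) := by
      refine (RR k _).mul_mem ((RR k _).pow_mem ?_ _) (ev_mem hQ hgd)
      rw [← TorA_xx]
      exact lam_mem _ hgd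
    have h4 : rinc hcd t = ⟨_, hmem⟩ * rinc hbd (s i) := by
      apply Subtype.ext
      rw [rinc_coe, MulMemClass.coe_mul, rinc_coe, htv, hPs]
      change _ = (uu k i / lam k g.1) ^ e i * (ev (∏ j ∈ Finset.univ.erase i, P j) /
        lam k g.1 ^ (∑ j ∈ Finset.univ.erase i, e j)) * _
      rw [← Finset.mul_prod_erase Finset.univ P (Finset.mem_univ i),
        ← Finset.add_sum_erase Finset.univ e (Finset.mem_univ i), evmul, pow_add, div_pow]
      have hu := TorA_uu (k := k) i
      have hl := lam_ne_zero g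
      field_simp
    rw [h4, mul_smul, h1, smul_zero]
  choose n hn using key
  -- the unit ideal
  set y : M.M c := t • m with hy
  set N : ℕ := ∑ i, n i with hN
  have hkill : ∀ i, quo (xx k i).1 hg ^ N • y = 0 := by
    intro i
    have h1 : N = (N - n i) + n i := by
      have : n i ≤ N := Finset.single_le_sum (f := n) (fun _ _ => Nat.zero_le _)
        (Finset.mem_univ i)
      omega
    rw [h1, pow_add, mul_smul, hn i, smul_zero]
  have hspan := span_coord [xx k 0, xx k 1, xx k 2] (by
    intro i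
    fin_cases i <;> simp) c hg
  have hpow := Ideal.span_pow_eq_top _ hspan N
  have hle : Ideal.span ((fun x => x ^ N) ''
      {r : RR k c | ∃ l ∈ [xx k 0, xx k 1, xx k 2], r = quo l.1 hg}) ≤
      LinearMap.ker (LinearMap.toSpanSingleton (RR k c) (M.M c) y) := by
    rw [Ideal.span_le]
    rintro _ ⟨r, ⟨l, hl, rfl⟩, rfl⟩
    rw [SetLike.mem_coe, LinearMap.mem_ker, LinearMap.toSpanSingleton_apply]
    simp only [List.mem_cons, List.not_mem_nil, or_false] at hl
    rcases hl with rfl | rfl | rfl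
    · exact hkill 0
    · exact hkill 1
    · exact hkill 2
  rw [hpow] at hle
  have h1 : (1 : RR k c) ∈ LinearMap.ker (LinearMap.toSpanSingleton (RR k c) (M.M c) y) :=
    hle Submodule.mem_top
  rw [LinearMap.mem_ker, LinearMap.toSpanSingleton_apply, one_smul] at h1
  exact h1

/-- `P = a ℓ ^ e + ` combination of the monomials of degree `e` in `g, h, ℓ` other than `ℓ ^ e`,
`a` not zero. -/
def PRel (e : ℕ) (P : MvPolynomial (Fin 3) k) (g h ℓ : LF k) : Prop :=
  LinearIndependent k ![g.1, h.1, ℓ.1] ∧ ∃ a : k, a ≠ 0 ∧ ev P - a • lam k ℓ.1 ^ e ∈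
    Submodule.span k {x | ∃ i i' j : ℕ, i + i' + j = e ∧ j < e ∧
      x = lam k g.1 ^ i * lam k h.1 ^ i' * lam k ℓ.1 ^ j}

end Pool.Agent.MP_6e5bed_ag_NS
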