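import Pool.Agent.Lib.MP_6e5bed_ag_NS.CenA
import Pool.Agent.Lib.MP_6e5bed_ag_NS.TorA

set_option autoImplicit false

/-!
# MP_6e5bed_ag, NC SURFACES: the centre of simple generic bimodules
-/

noncomputable section

namespace Pool.Agent.MP_6e5bed_ag_NS

open Pool.Agent.MP_6e5bed_ag_NC

universe u

variable {k : Type u} [Field k]

/-- The simple quotients of the generic algebra have centre `K`: for every surjection (over `K`)
of the sections on `x_0 ≠ 0` to a finite-dimensional simple `K`-algebra `Q`, linear over the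
functions, the centre of `Q` is `K`. -/
def ASh.Cen (A : ASh k) : Prop :=
  ∀ (Q : Type u) [Ring Q] [Algebra (KK k) Q] [FiniteDimensional (KK k) Q] [IsSimpleRing Q]
    (π : A.R (Ch.sgl (xx k 0)) →+* Q),
    (∀ (s : RR k (Ch.sgl (xx k 0))) (a : A.M (Ch.sgl (xx k 0))),
      π (s • a : A.M (Ch.sgl (xx k 0))) = (s : KK k) • π a) →
    Submodule.span (KK k) (Set.range π) = ⊤ →
    ∀ z : Q, (∀ x, z * x = x * z) → ∃ s : KK k, z = s • 1

/-- a section on a smaller chart is up to a unit the restriction of a section on `b` -/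
private theorem CenB_surj (M : Shf k) (b : Ch k) {g : LF k} (hg : g ∈ b.1) (C : Set (LF k))
    (hC : C.Finite) : ∀ (d : Ch k) (h : b ≤ d), d.1 ⊆ b.1 ∪ C → ∀ m : M.M d,
      ∃ u : RR k d, IsUnit u ∧ ∃ m' : M.M b, M.res h m' = u • m := by
  induction C, hC using Set.Finite.induction_on with
  | empty =>
    intro d h hd m
    have hdb : d ≤ b := by
      intro x hx
      rcases hd hx with h1 | h1
      · exact h1
      · exact absurd h1 (Set.notMem_empty x)
    refine ⟨1, isUnit_one, M.res hdb m, ?_⟩
    rw [M.res_res, M.res_id, one_smul]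
  | @insert ℓ C' _ hC' ih =>
    intro d h hd m
    by_cases hℓ : ℓ ∈ d.1
    · let d' : Ch k := ⟨b.1 ∪ (d.1 \ {ℓ}), b.2.1.mono Set.subset_union_left,
        b.2.2.union (d.2.2.subset Set.sdiff_subset)⟩
      have hbd' : b ≤ d' := fun x hx => Or.inl hx
      have hd'd : d' ≤ d := by
        intro x hx
        rcases hx with h1 | h1
        · exact h h1
        · exact h1.1
      have hins : d ≤ d'.ins ℓ := by
        intro x hx
        by_cases hx' : x = ℓ
        · exact Or.inl hx'
        · exact Or.inr (Or.inr ⟨hx, hx'⟩)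
      have hsub : d'.1 ⊆ b.1 ∪ C' := by
        intro x hx
        rcases hx with h1 | h1
        · exact Or.inl h1
        · rcases hd h1.1 with h2 | h2
          · exact Or.inl h2
          · rcases h2 with h3 | h3
            · exact absurd h3 h1.2
            · exact Or.inr h3
      obtain ⟨n, m₁, hm₁⟩ := M.surj hd'd (hbd' hg) ℓ hins m
      obtain ⟨u₁, hu₁, m', hm'⟩ := ih d' hbd' hsub m₁
      refine ⟨rinc hd'd u₁ * quo ℓ.1 (hd'd (hbd' hg)) ^ n, ?_, m', ?_⟩
      · refine (hu₁.map (rinc hd'd)).mul (IsUnit.pow n ?_)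
        exact IsUnit.of_mul_eq_one _ (quo_mul_quo hℓ (hd'd (hbd' hg)))
      · rw [mul_smul, ← hm₁, ← M.res_smul, ← hm', M.res_res]
    · refine ih d h (fun x hx => ?_) m
      rcases hd hx with h2 | h2
      · exact Or.inl h2
      · rcases h2 with h3 | h3
        · rw [h3] at hx
          exact absurd hx hℓ
        · exact Or.inr h3

/-- a section on `c` is, up to a unit of `K`, a section on `x_0 ≠ 0` -/
private theorem CenB_mult (M : Shf k) {V : Type u} [AddCommGroup V] [Module (KK k) V]
    (f : ∀ c, M.M c → V) (fs : ∀ c (s : RR k c) (a : M.M c), f c (s • a) = (s : KK k) • f c a)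
    (fr : ∀ {c d : Ch k} (h : c ≤ d) (a : M.M c), f d (M.res h a) = f c a) (c : Ch k)
    (a : M.M c) : ∃ (s : KK k) (a' : M.M (Ch.sgl (xx k 0))),
      f c a = s • f (Ch.sgl (xx k 0)) a' := by
  let d : Ch k := (Ch.sgl (xx k 0)).sup c
  have h1 : Ch.sgl (xx k 0) ≤ d := fun x hx => Or.inl hx
  have h2 : c ≤ d := fun x hx => Or.inr hx
  obtain ⟨u, hu, m', hm'⟩ := CenB_surj M (Ch.sgl (xx k 0)) (g := xx k 0) rfl c.1 c.2.2 d h1
    (fun x hx => hx) (M.res h2 a)
  have h3 : f (Ch.sgl (xx k 0)) m' = (u : KK k) • f c a := by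
    rw [← fr h1, hm', fs, fr h2]
  have hu' : (u : KK k) ≠ 0 := by
    intro h0
    exact hu.ne_zero (Subtype.ext h0)
  refine ⟨(u : KK k)⁻¹, m', ?_⟩
  rw [h3, smul_smul, inv_mul_cancel₀ hu', one_smul]

/-- The left multiplications on all charts are `K`-multiples of the left multiplications by the
sections on `x_0 ≠ 0` (restrict to `c ∪ x_0`; by `A.surj` for the elements of `c` one after the
other, a unit of `K` times the section comes from a section on `x_0 ≠ 0`). -/
theorem gen_l {A B : ASh k} (G : Gen A B) (c : Ch k) (a : A.M c) :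
    ∃ (s : KK k) (a' : A.M (Ch.sgl (xx k 0))), G.l c a = s • G.l (Ch.sgl (xx k 0)) a' := by
  refine CenB_mult A.toShf (fun c a => G.l c a) (fun c s a => ?_) (fun h a => ?_) c a
  · exact LinearMap.ext fun x => G.smul_l c s a x
  · exact LinearMap.ext fun x => G.res_l h a x

theorem gen_r {A B : ASh k} (G : Gen A B) (c : Ch k) (b : B.M c) :
    ∃ (s : KK k) (b' : B.M (Ch.sgl (xx k 0))), G.r c b = s • G.r (Ch.sgl (xx k 0)) b' := by
  refine CenB_mult B.toShf (fun c b => G.r c b) (fun c s a => ?_) (fun h a => ?_) c b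
  · exact LinearMap.ext fun x => G.smul_r c s a x
  · exact LinearMap.ext fun x => G.res_r h a x

private theorem CenB_span {K : Type u} [Field K] {R : Type u} [Ring R] [Algebra K R]
    (S T : Set R) (h1 : (1 : R) ∈ T) (hm : ∀ x ∈ T, ∀ y ∈ T, x * y ∈ T)
    (hS : ∀ x ∈ S, ∃ (s : K), ∃ y ∈ T, x = s • y) {x : R} (hx : x ∈ Algebra.adjoin K S) :
    x ∈ Submodule.span K T := by
  induction hx using Algebra.adjoin_induction with
  | mem x hx =>
    obtain ⟨s, y, hy, rfl⟩ := hS x hx
    exact Submodule.smul_mem _ s (Submodule.subset_span hy)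
  | algebraMap s =>
    rw [Algebra.algebraMap_eq_smul_one]
    exact Submodule.smul_mem _ s (Submodule.subset_span h1)
  | add x y _ _ hx hy => exact Submodule.add_mem _ hx hy
  | mul x y _ _ hx hy =>
    have h2 : x * y ∈ Submodule.span K T * Submodule.span K T := Submodule.mul_mem_mul hx hy
    rw [Submodule.span_mul_span] at h2
    refine Submodule.span_mono ?_ h2
    rintro _ ⟨a, ha, b, hb, rfl⟩
    exact hm a ha b hb

/-- From `cen_alg` with the algebras of left and of right multiplications: they are spanned over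
`K` by the multiplications with the sections on `x_0 ≠ 0`, so they are quotients of the generic
algebra and of its opposite (apply the hypothesis to `Qᵐᵒᵖ` for the right multiplications). -/
theorem gen_central {A : ASh k} (hA : A.Cen) (G : Gen A A) (hG : G.Simple) : G.Central := by
  let P : Subalgebra (KK k) (Module.End (KK k) G.E) :=
    Algebra.adjoin (KK k) {f | ∃ c a, f = G.l c a}
  let Q : Subalgebra (KK k) (Module.End (KK k) G.E) :=
    Algebra.adjoin (KK k) {f | ∃ c b, f = G.r c b}
  have hPm : ∀ c a, (G.l c a : Module.End (KK k) G.E) ∈ P :=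
    fun c a => Algebra.subset_adjoin ⟨c, a, rfl⟩
  have hQm : ∀ c a, (G.r c a : Module.End (KK k) G.E) ∈ Q :=
    fun c a => Algebra.subset_adjoin ⟨c, a, rfl⟩
  have hl : ∀ c a a', (G.l c (A.mul c a a') : Module.End (KK k) G.E) = G.l c a * G.l c a' :=
    fun c a a' => LinearMap.ext fun x => G.l_mul c a a' x
  have hr : ∀ c a a', (G.r c (A.mul c a a') : Module.End (KK k) G.E) = G.r c a' * G.r c a :=
    fun c a a' => LinearMap.ext fun x => G.r_mul c a a' x
  have hl1 : ∀ c, (G.l c (A.one c) : Module.End (KK k) G.E) = 1 :=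
    fun c => LinearMap.ext fun x => G.l_one c x
  have hr1 : ∀ c, (G.r c (A.one c) : Module.End (KK k) G.E) = 1 :=
    fun c => LinearMap.ext fun x => G.r_one c x
  have hls : ∀ c (s : RR k c) a, (G.l c (s • a) : Module.End (KK k) G.E) =
      (s : KK k) • G.l c a := fun c s a => LinearMap.ext fun x => G.smul_l c s a x
  have hrs : ∀ c (s : RR k c) a, (G.r c (s • a) : Module.End (KK k) G.E) =
      (s : KK k) • G.r c a := fun c s a => LinearMap.ext fun x => G.smul_r c s a x
  have hc1 : ∀ c a d b, (G.l c a : Module.End (KK k) G.E) * G.r d b = G.r d b * G.l c a := by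
    intro c a d b
    refine LinearMap.ext fun x => ?_
    let e : Ch k := c.sup d
    have h1 : c ≤ e := fun x hx => Or.inl hx
    have h2 : d ≤ e := fun x hx => Or.inr hx
    have h3 := G.l_r e (A.res h1 a) (A.res h2 b) x
    rw [G.res_l, G.res_r, G.res_r, G.res_l] at h3
    exact h3
  have hc : ∀ p ∈ P, ∀ q ∈ Q, p * q = q * p := by
    intro p hp q hq
    induction hp using Algebra.adjoin_induction with
    | mem p hp =>
      obtain ⟨c, a, rfl⟩ := hp
      induction hq using Algebra.adjoin_induction with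
      | mem q hq =>
        obtain ⟨d, b, rfl⟩ := hq
        exact hc1 c a d b
      | algebraMap s => exact (Algebra.commutes s _).symm
      | add x y _ _ hx hy => rw [mul_add, add_mul, hx, hy]
      | mul x y _ _ hx hy => rw [← mul_assoc, hx, mul_assoc, hy, mul_assoc]
    | algebraMap s => exact Algebra.commutes s _
    | add x y _ _ hx hy => rw [mul_add, add_mul, hx, hy]
    | mul x y _ _ hx hy => rw [mul_assoc, hy, ← mul_assoc, hx, mul_assoc]
  have hPfd : FiniteDimensional (KK k) P := FiniteDimensional.finiteDimensional_subalgebra P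
  have hQfd : FiniteDimensional (KK k) Q := FiniteDimensional.finiteDimensional_subalgebra Q
  -- the left multiplications
  have hPz : IsSimpleRing P → ∀ z : P, (∀ p, z * p = p * z) → ∃ s : KK k, z = s • 1 := by
    intro hsim z hz
    let π : A.R (Ch.sgl (xx k 0)) →+* P :=
      { toFun := fun a => ⟨G.l (Ch.sgl (xx k 0)) a, hPm _ _⟩
        map_one' := Subtype.ext (hl1 _)
        map_mul' := fun a b => Subtype.ext (hl _ a b)
        map_zero' := Subtype.ext (map_zero (G.l (Ch.sgl (xx k 0))))
        map_add' := fun a b => Subtype.ext (map_add (G.l (Ch.sgl (xx k 0))) a b) }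
    refine hA P π (fun s a => Subtype.ext (hls _ s a)) ?_ z hz
    rw [eq_top_iff]
    intro p _
    have h1 : p.1 ∈ Submodule.span (KK k)
        (Set.range fun a => (G.l (Ch.sgl (xx k 0)) a : Module.End (KK k) G.E)) := by
      refine CenB_span {f | ∃ c a, f = G.l c a} (Set.range fun a =>
        (G.l (Ch.sgl (xx k 0)) a : Module.End (KK k) G.E)) ⟨A.one _, hl1 _⟩ ?_ ?_ p.2
      · rintro _ ⟨a, rfl⟩ _ ⟨b, rfl⟩
        exact ⟨A.mul _ a b, hl _ a b⟩
      · rintro _ ⟨c, a, rfl⟩
        obtain ⟨s, a', h⟩ := gen_l G c a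
        exact ⟨s, _, ⟨a', rfl⟩, h⟩
    have h2 : (Set.range fun a => (G.l (Ch.sgl (xx k 0)) a : Module.End (KK k) G.E)) =
        (Subalgebra.toSubmodule P).subtype '' Set.range π := by
      rw [← Set.range_comp]
      rfl
    rw [h2, Submodule.span_image] at h1
    obtain ⟨q, hq, hq'⟩ := h1
    have h3 : q = p := Subtype.ext hq'
    rw [← h3]
    exact hq
  -- the right multiplications
  have hQz : IsSimpleRing Q → ∀ z : Q, (∀ p, z * p = p * z) → ∃ s : KK k, z = s • 1 := by
    intro hsim z hz
    let π : A.R (Ch.sgl (xx k 0)) →+* Qᵐᵒᵖ :=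
      { toFun := fun a => MulOpposite.op ⟨G.r (Ch.sgl (xx k 0)) a, hQm _ _⟩
        map_one' := congrArg MulOpposite.op (Subtype.ext (hr1 _))
        map_mul' := fun a b => congrArg MulOpposite.op (Subtype.ext (hr _ a b))
        map_zero' := congrArg MulOpposite.op
          (Subtype.ext (map_zero (G.r (Ch.sgl (xx k 0)))))
        map_add' := fun a b => congrArg MulOpposite.op
          (Subtype.ext (map_add (G.r (Ch.sgl (xx k 0))) a b)) }
    have h0 : ∃ s : KK k, MulOpposite.op z = s • 1 := by
      refine hA Qᵐᵒᵖ π (fun s a => congrArg MulOpposite.op (Subtype.ext (hrs _ s a))) ?_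
        (MulOpposite.op z) (fun x => ?_)
      · rw [eq_top_iff]
        intro p _
        have h1 : p.unop.1 ∈ Submodule.span (KK k)
            (Set.range fun a => (G.r (Ch.sgl (xx k 0)) a : Module.End (KK k) G.E)) := by
          refine CenB_span {f | ∃ c a, f = G.r c a} (Set.range fun a =>
            (G.r (Ch.sgl (xx k 0)) a : Module.End (KK k) G.E)) ⟨A.one _, hr1 _⟩ ?_ ?_ p.unop.2
          · rintro _ ⟨a, rfl⟩ _ ⟨b, rfl⟩
            exact ⟨A.mul _ b a, hr _ b a⟩
          · rintro _ ⟨c, a, rfl⟩
            obtain ⟨s, a', h⟩ := gen_r G c a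
            exact ⟨s, _, ⟨a', rfl⟩, h⟩
        let ψ : Qᵐᵒᵖ →ₗ[KK k] Module.End (KK k) G.E :=
          (Subalgebra.toSubmodule Q).subtype ∘ₗ
            (MulOpposite.opLinearEquiv (KK k) (M := Q)).symm.toLinearMap
        have h2 : (Set.range fun a => (G.r (Ch.sgl (xx k 0)) a : Module.End (KK k) G.E)) =
            ψ '' Set.range π := by
          rw [← Set.range_comp]
          rfl
        rw [h2, Submodule.span_image] at h1
        obtain ⟨q, hq, hq'⟩ := h1
        have h3 : q = p := MulOpposite.unop_injective (Subtype.ext hq')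
        rw [← h3]
        exact hq
      · exact MulOpposite.unop_injective (hz x.unop).symm
    obtain ⟨s, hs⟩ := h0
    exact ⟨s, congrArg MulOpposite.unop hs⟩
  have key := cen_alg (KK k) G.E P Q hc hG.1 (fun U h1 h2 => hG.2 U
    ⟨fun c a x hx => h1 _ (hPm c a) x hx, fun c b x hx => h2 _ (hQm c b) x hx⟩) hPz hQz
  intro f hf h1 h2
  refine key f ?_ ?_ ?_
  · have h3 : G.Lm = P ⊔ Q := Algebra.adjoin_union _ _
    rw [← h3]
    exact hf
  · intro p hp
    induction hp using Algebra.adjoin_induction with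
    | mem p hp =>
      obtain ⟨c, a, rfl⟩ := hp
      exact h1 c a
    | algebraMap s => exact (Algebra.commutes s _).symm
    | add x y _ _ hx hy => rw [mul_add, add_mul, hx, hy]
    | mul x y _ _ hx hy => rw [← mul_assoc, hx, mul_assoc, hy, mul_assoc]
  · intro p hp
    induction hp using Algebra.adjoin_induction with
    | mem p hp =>
      obtain ⟨c, a, rfl⟩ := hp
      exact h2 c a
    | algebraMap s => exact (Algebra.commutes s _).symm
    | add x y _ _ hx hy => rw [mul_add, add_mul, hx, hy]
    | mul x y _ _ hx hy => rw [← mul_assoc, hx, mul_assoc, hy, mul_assoc]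

end Pool.Agent.MP_6e5bed_ag_NS
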