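import Pool.Agent.Lib.MP_6e5bed_ag_NS.GrB

set_option autoImplicit false

/-!
# MP_6e5bed_ag, NC SURFACES: the sheaf of algebras of a graded algebra is coherent
-/

noncomputable section

namespace Pool.Agent.MP_6e5bed_ag_NS

open MvPolynomial

universe u

variable {k : Type u} [Field k]
  {Γ : Type u} [Ring Γ] [Algebra k Γ] [Algebra (MvPolynomial (Fin 3) k) Γ]
  [IsScalarTower k (MvPolynomial (Fin 3) k) Γ] {𝒢 : ℕ → Submodule k Γ}

private theorem GrC_gens (h : IsGrAlg 𝒢) : ∃ s : Finset Γ, (∀ x ∈ s, ∃ n, x ∈ 𝒢 n) ∧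
    Submodule.span (MvPolynomial (Fin 3) k) (s : Set Γ) = ⊤ := by
  have h1 : Submodule.span (MvPolynomial (Fin 3) k) {x : Γ | ∃ n, x ∈ 𝒢 n} = ⊤ := by
    rw [eq_top_iff]
    intro x _
    have h2 : (⨆ n, 𝒢 n) ≤ (Submodule.span (MvPolynomial (Fin 3) k)
        {x : Γ | ∃ n, x ∈ 𝒢 n}).restrictScalars k := by
      refine iSup_le fun n => ?_
      intro y hy
      rw [Submodule.restrictScalars_mem]
      exact Submodule.subset_span ⟨n, hy⟩
    have h3 : x ∈ (⨆ n, 𝒢 n) := by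
      rw [h.int.submodule_iSup_eq_top]
      trivial
    exact h2 h3
  have h2 : (Submodule.span (MvPolynomial (Fin 3) k) {x : Γ | ∃ n, x ∈ 𝒢 n}).FG := by
    rw [h1]
    exact h.fin.fg_top
  obtain ⟨s, hs, he⟩ := (Submodule.fg_span_iff_fg_span_finset_subset _).1 h2
  exact ⟨s, fun x hx => hs hx, by rw [← he, h1]⟩

private theorem GrC_pi (h : IsGrAlg 𝒢) (n : ℕ) : ∃ π : Γ →+ Γ, (∀ x ∈ 𝒢 n, π x = x) ∧
    ∀ m, m ≠ n → ∀ x ∈ 𝒢 m, π x = 0 := by
  letI := h.int.chooseDecomposition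
  refine ⟨AddMonoidHom.mk' (fun x => (DirectSum.decompose 𝒢 x n : Γ)) ?_, ?_, ?_⟩
  · intro x y
    rw [DirectSum.decompose_add]
    rfl
  · intro x hx
    exact DirectSum.decompose_of_mem_same 𝒢 hx
  · intro m hm x hx
    exact DirectSum.decompose_of_mem_ne 𝒢 hx hm

private theorem GrC_proj (h : IsGrAlg 𝒢) {n : ℕ} {π : Γ →+ Γ} (h1 : ∀ x ∈ 𝒢 n, π x = x)
    (h2 : ∀ m, m ≠ n → ∀ x ∈ 𝒢 m, π x = 0) {d : ℕ} {x : Γ} (hx : x ∈ 𝒢 d)
    (q : MvPolynomial (Fin 3) k) : ∃ p : MvPolynomial (Fin 3) k,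
      (∀ e, e + d = n → p.IsHomogeneous e) ∧ (n < d → p = 0) ∧ π (q • x) = p • x := by
  induction q using MvPolynomial.induction_on' with
  | monomial u a =>
    have h3 : (monomial u a : MvPolynomial (Fin 3) k).IsHomogeneous u.degree :=
      isHomogeneous_monomial a rfl
    have h4 := h.smul h3 hx
    by_cases hd : u.degree + d = n
    · refine ⟨monomial u a, fun e he => ?_, fun hn => ?_, ?_⟩
      · have h5 : e = u.degree := by omega
        rw [h5]
        exact h3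
      · omega
      · rw [hd] at h4
        exact h1 _ h4
    · refine ⟨0, fun e _ => isHomogeneous_zero _ _ e, fun _ => rfl, ?_⟩
      rw [zero_smul]
      exact h2 _ hd _ h4
  | add p q hp hq =>
    obtain ⟨p', hp1, hp2, hp3⟩ := hp
    obtain ⟨q', hq1, hq2, hq3⟩ := hq
    refine ⟨p' + q', fun e he => (hp1 e he).add (hq1 e he), fun hn => ?_, ?_⟩
    · rw [hp2 hn, hq2 hn, add_zero]
    · rw [add_smul, map_add, hp3, hq3, add_smul]

private theorem GrC_expr (h : IsGrAlg 𝒢) {s : Finset Γ} {d : Γ → ℕ}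
    (hd : ∀ x ∈ s, x ∈ 𝒢 (d x))
    (hs : Submodule.span (MvPolynomial (Fin 3) k) (s : Set Γ) = ⊤) {n : ℕ} {a : Γ}
    (ha : a ∈ 𝒢 n) : ∃ p : Γ → MvPolynomial (Fin 3) k,
      (∀ x ∈ s, (p x * 1).IsHomogeneous (n - d x) ∧ (n < d x → p x = 0)) ∧
        a = ∑ x ∈ s, p x • x := by
  obtain ⟨π, h1, h2⟩ := GrC_pi h n
  have h3 : a ∈ Submodule.span (MvPolynomial (Fin 3) k) (s : Set Γ) := by
    rw [hs]
    trivial
  obtain ⟨q, -, hq⟩ := Submodule.mem_span_finset.1 h3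
  have h4 : ∀ x : Γ, ∃ p : MvPolynomial (Fin 3) k, x ∈ s →
      ((∀ e, e + d x = n → p.IsHomogeneous e) ∧ (n < d x → p = 0) ∧ π (q x • x) = p • x) := by
    intro x
    by_cases hx : x ∈ s
    · obtain ⟨p, hp⟩ := GrC_proj h h1 h2 (hd x hx) (q x)
      exact ⟨p, fun _ => hp⟩
    · exact ⟨0, fun hx' => absurd hx' hx⟩
  choose p hp using h4
  refine ⟨p, fun x hx => ⟨?_, (hp x hx).2.1⟩, ?_⟩
  · rw [mul_one]
    by_cases hn : n < d x
    · rw [(hp x hx).2.1 hn]
      exact isHomogeneous_zero _ _ _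
    · exact (hp x hx).1 _ (by omega)
  · rw [← h1 a ha, ← hq, map_sum]
    exact Finset.sum_congr rfl fun x hx => (hp x hx).2.2

private theorem GrC_mk_add {s : Submonoid (MvPolynomial (Fin 3) k)} (a b : Γ) (t : s) :
    LocalizedModule.mk (a + b) t = LocalizedModule.mk a t + LocalizedModule.mk b t := by
  rw [LocalizedModule.mk_add_mk, ← smul_add, LocalizedModule.mk_cancel_common_left]

private theorem GrC_mk_sum {s : Submonoid (MvPolynomial (Fin 3) k)} (t : s) {ι : Type u}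
    (I : Finset ι) (f : ι → Γ) :
    LocalizedModule.mk (∑ i ∈ I, f i) t = ∑ i ∈ I, LocalizedModule.mk (f i) t := by
  classical
  induction I using Finset.induction_on with
  | empty =>
    rw [Finset.sum_empty, Finset.sum_empty, LocalizedModule.zero_mk]
  | insert i I hi ih =>
    rw [Finset.sum_insert hi, Finset.sum_insert hi, GrC_mk_add, ih]

/-- the inclusion into the localisation -/
private def GrC_val (h : IsGrAlg 𝒢) (c : Ch k) : GS h c →ₐ[k] Lz Γ (linS c) :=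
  (Dz h (linS c)).val

private theorem GrC_val_inj (h : IsGrAlg 𝒢) (c : Ch k) :
    Function.Injective (GrC_val h c) := Subtype.val_injective

private theorem GrC_val_smul (h : IsGrAlg 𝒢) (c : Ch k) (r : RR k c) (z : GS h c) :
    GrC_val h c (r • z) = (th h c r : Lz Γ (linS c)) * GrC_val h c z := by
  rw [GS.smul_def, map_mul]
  rfl

private theorem GrC_val_ex (h : IsGrAlg 𝒢) (c : Ch k) (z : GS h c) :
    ∃ (n : ℕ) (a : Γ) (t : Submonoid.closure (linS c)), a ∈ 𝒢 n ∧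
    (t : MvPolynomial (Fin 3) k).IsHomogeneous n ∧
      GrC_val h c z = LocalizedModule.mk a t := z.2

private theorem GrC_ex (h : IsGrAlg 𝒢) (c : Ch k) {n : ℕ} {a : Γ} (ha : a ∈ 𝒢 n)
    (t : Submonoid.closure (linS c)) (ht : (t : MvPolynomial (Fin 3) k).IsHomogeneous n) :
    ∃ z : GS h c, GrC_val h c z = LocalizedModule.mk a t :=
  ⟨⟨LocalizedModule.mk a t, ⟨n, a, t, ha, ht, rfl⟩⟩, rfl⟩

/-- The sheaf is coherent: `Γ` is generated over `k[x_0, x_1, x_2]` by finitely many homogeneous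
elements `γ_j` of degree `d_j` (`h.int`, `h.fin`); an element `a` of degree `n` is `∑ p_j γ_j` with
`p_j` homogeneous of degree `n - d_j` (zero if `n < d_j`), and
`a / t = ∑ (p_j g ^ d_j / t) (γ_j / g ^ d_j)`, `g ∈ c`. -/
theorem gsh_coh (h : IsGrAlg 𝒢) : (gsh h).toShf.Coh := by
  intro c
  change Module.Finite (RR k c) (GS h c)
  obtain ⟨s, hs, hspan⟩ := GrC_gens h
  obtain ⟨g, hg⟩ := c.2.1
  have hd' : ∀ x : Γ, ∃ d : ℕ, x ∈ s → x ∈ 𝒢 d := by
    intro x
    by_cases hx : x ∈ s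
    · obtain ⟨d, hd⟩ := hs x hx
      exact ⟨d, fun _ => hd⟩
    · exact ⟨0, fun hx' => absurd hx' hx⟩
  choose d hd using hd'
  have hlin : lin g.1 ∈ Submonoid.closure (linS c) := Submonoid.subset_closure ⟨g, hg, rfl⟩
  have hlinp : ∀ e : ℕ, (lin g.1 ^ e).IsHomogeneous e := by
    intro e
    have h1 := (lin_hom g.1).pow e
    rwa [one_mul] at h1
  have hw : ∀ x : Γ, ∃ w : GS h c, x ∈ s →
      GrC_val h c w = LocalizedModule.mk x ⟨lin g.1 ^ d x, pow_mem hlin _⟩ := by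
    intro x
    by_cases hx : x ∈ s
    · obtain ⟨w, hw⟩ := GrC_ex h c (hd x hx) ⟨lin g.1 ^ d x, pow_mem hlin _⟩ (hlinp _)
      exact ⟨w, fun _ => hw⟩
    · exact ⟨0, fun hx' => absurd hx' hx⟩
  choose w hw using hw
  refine ⟨Submodule.fg_def.2 ⟨w '' (s : Set Γ), s.finite_toSet.image w, ?_⟩⟩
  rw [eq_top_iff]
  intro z _
  obtain ⟨n, a, t, ha, ht, hz⟩ := GrC_val_ex h c z
  obtain ⟨p, hp, hap⟩ := GrC_expr h hd hspan ha
  have hP : ∀ x ∈ s, (p x * lin g.1 ^ d x).IsHomogeneous n := by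
    intro x hx
    by_cases hn : n < d x
    · rw [(hp x hx).2 hn, zero_mul]
      exact isHomogeneous_zero _ _ _
    · have h1 := (hp x hx).1
      rw [mul_one] at h1
      have h2 := h1.mul (hlinp (d x))
      rwa [Nat.sub_add_cancel (not_lt.1 hn)] at h2
  have hr : ∀ x : Γ, ∃ r : RR k c, x ∈ s → (r : KK k) = ev (p x * lin g.1 ^ d x) / ev t.1 := by
    intro x
    by_cases hx : x ∈ s
    · exact ⟨⟨_, frac_mem (hP x hx) ht t.2⟩, fun _ => rfl⟩
    · exact ⟨0, fun hx' => absurd hx' hx⟩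
  choose r hr using hr
  have key : z = ∑ x ∈ s, r x • w x := by
    apply GrC_val_inj h c
    rw [map_sum, hz, hap, GrC_mk_sum]
    refine Finset.sum_congr rfl fun x hx => ?_
    rw [GrC_val_smul, th_spec h c (r x) n _ _ (hP x hx) ht t.2 (hr x hx), hw x hx,
      LocalizedModule.mk_mul_mk, ← Algebra.smul_def, mul_comm (p x), mul_smul]
    exact (LocalizedModule.mk_cancel_common_right t
      (⟨lin g.1 ^ d x, pow_mem hlin _⟩ : Submonoid.closure (linS c)) (p x • x)).symm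
  rw [key]
  exact Submodule.sum_mem _ fun x hx => Submodule.smul_mem _ _
    (Submodule.subset_span ⟨x, hx, rfl⟩)

end Pool.Agent.MP_6e5bed_ag_NS
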