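import Pool.Agent.Lib.MP_6e5bed_ag_NS.GrB
import Pool.Agent.Lib.MP_6e5bed_ag_NS.CenB

set_option autoImplicit false
set_option linter.unusedSectionVars false

/-!
# MP_6e5bed_ag, NC SURFACES: the generic algebra of a graded algebra
-/

noncomputable section

namespace Pool.Agent.MP_6e5bed_ag_NS

open MvPolynomial

universe u

variable {k : Type u} [Field k]

/-- Every simple quotient of the generic algebra `Γ ⊗ k(u, v)` (`x_0 ↦ 1, x_1 ↦ u, x_2 ↦ v`) has
centre `k(u, v)`. -/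
def CenG (k Γ : Type u) [Field k] [Ring Γ] [Algebra (MvPolynomial (Fin 3) k) Γ] : Prop :=
  ∀ (Q : Type u) [Ring Q] [Algebra (KK k) Q] [FiniteDimensional (KK k) Q] [IsSimpleRing Q]
    (π : Γ →+* Q),
    (∀ p : MvPolynomial (Fin 3) k, π (algebraMap _ Γ p) = algebraMap (KK k) Q (ev p)) →
    Submodule.span (KK k) (Set.range π) = ⊤ →
    ∀ z : Q, (∀ x, z * x = x * z) → ∃ s : KK k, z = s • 1

variable {Γ : Type u} [Ring Γ] [Algebra k Γ] [Algebra (MvPolynomial (Fin 3) k) Γ]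
  [IsScalarTower k (MvPolynomial (Fin 3) k) Γ] {𝒢 : ℕ → Submodule k Γ}

private theorem GrF_X : (X 0 : MvPolynomial (Fin 3) k) ∈ linS (Ch.sgl (xx k 0)) :=
  ⟨xx k 0, rfl, (lin_xx 0).symm⟩

/-- the denominators -/
private def GrF_d (k : Type u) [Field k] (n : ℕ) :
    Submonoid.closure (linS (Ch.sgl (xx k 0))) :=
  ⟨X 0 ^ n, pow_mem (Submonoid.subset_closure GrF_X) n⟩

private theorem GrF_d_zero : GrF_d k 0 = 1 := Subtype.ext (pow_zero _)

private theorem GrF_d_add (m n : ℕ) : GrF_d k (m + n) = GrF_d k m * GrF_d k n :=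
  Subtype.ext (pow_add _ _ _)

private theorem GrF_d_hom (n : ℕ) :
    ((GrF_d k n : Submonoid.closure (linS (Ch.sgl (xx k 0)))) :
      MvPolynomial (Fin 3) k).IsHomogeneous n := by
  have := (isHomogeneous_X k (0 : Fin 3)).pow n
  rwa [one_mul] at this

private theorem GrF_cl (t : Submonoid.closure (linS (Ch.sgl (xx k 0)))) :
    ∃ j, t = GrF_d k j := by
  have h1 : linS (Ch.sgl (xx k 0)) ⊆ {(X 0 : MvPolynomial (Fin 3) k)} := by
    rintro p ⟨ℓ, hℓ, rfl⟩
    have h2 : ℓ = xx k 0 := hℓ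
    rw [h2]
    exact lin_xx 0
  have h2 := Submonoid.closure_mono h1 t.2
  obtain ⟨j, hj⟩ := Submonoid.mem_closure_singleton.1 h2
  exact ⟨j, Subtype.ext hj.symm⟩

/-- `a ↦ a / x_0 ^ n` -/
private def GrF_q (h : IsGrAlg 𝒢) (n : ℕ) : 𝒢 n →ₗ[k] Dz h (linS (Ch.sgl (xx k 0))) where
  toFun a := ⟨LocalizedModule.mk a.1 (GrF_d k n), n, a.1, GrF_d k n, a.2, GrF_d_hom n, rfl⟩
  map_add' a b := by
    refine Subtype.ext ?_
    change (LocalizedModule.mk (a.1 + b.1) (GrF_d k n) : Lz Γ _) =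
      LocalizedModule.mk a.1 (GrF_d k n) + LocalizedModule.mk b.1 (GrF_d k n)
    rw [LocalizedModule.mk_add_mk, LocalizedModule.mk_eq]
    refine ⟨1, ?_⟩
    rw [one_smul, one_smul, mul_smul, smul_add (GrF_d k n) a.1 b.1]
  map_smul' r a := by
    refine Subtype.ext ?_
    change (LocalizedModule.mk (r • a.1) (GrF_d k n) : Lz Γ _) =
      r • LocalizedModule.mk a.1 (GrF_d k n)
    rw [LocalizedModule.smul'_mk]

/-- the linear map -/
private def GrF_l (h : IsGrAlg 𝒢) : Γ →ₗ[k] Dz h (linS (Ch.sgl (xx k 0))) :=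
  (DirectSum.toModule k ℕ (Dz h (linS (Ch.sgl (xx k 0)))) (GrF_q h)) ∘ₗ
    (LinearEquiv.ofBijective (DirectSum.coeLinearMap 𝒢) h.int).symm.toLinearMap

private theorem GrF_l_spec (h : IsGrAlg 𝒢) {n : ℕ} {a : Γ} (ha : a ∈ 𝒢 n) :
    (GrF_l h a).1 = LocalizedModule.mk a (GrF_d k n) := by
  have h1 : (LinearEquiv.ofBijective (DirectSum.coeLinearMap 𝒢) h.int).symm a =
      DirectSum.lof k ℕ (fun i => 𝒢 i) n ⟨a, ha⟩ := by
    rw [LinearEquiv.symm_apply_eq, LinearEquiv.ofBijective_apply, DirectSum.coeLinearMap_lof]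
  have h2 : GrF_l h a = DirectSum.toModule k ℕ (Dz h (linS (Ch.sgl (xx k 0)))) (GrF_q h)
      ((LinearEquiv.ofBijective (DirectSum.coeLinearMap 𝒢) h.int).symm a) := rfl
  rw [h2, h1, DirectSum.toModule_lof]
  rfl

private theorem GrF_ind (h : IsGrAlg 𝒢) {P : Γ → Prop} (h0 : P 0)
    (hadd : ∀ x y, P x → P y → P (x + y)) (hm : ∀ n a, a ∈ 𝒢 n → P a) (a : Γ) : P a := by
  have h1 : a ∈ iSup 𝒢 := by
    rw [h.int.submodule_iSup_eq_top]
    exact Submodule.mem_top
  exact Submodule.iSup_induction 𝒢 (motive := P) h1 hm h0 hadd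

private theorem GrF_l_one (h : IsGrAlg 𝒢) : GrF_l h 1 = 1 := by
  refine Subtype.ext ?_
  rw [GrF_l_spec h h.one, GrF_d_zero]
  exact OreLocalization.one_def.symm

private theorem GrF_l_mul (h : IsGrAlg 𝒢) (a b : Γ) : GrF_l h (a * b) = GrF_l h a * GrF_l h b := by
  refine GrF_ind h (P := fun a => GrF_l h (a * b) = GrF_l h a * GrF_l h b) ?_ ?_ ?_ a
  · rw [zero_mul, map_zero, zero_mul]
  · intro x y hx hy
    rw [add_mul, map_add, map_add, add_mul, hx, hy]
  · intro m a ha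
    refine GrF_ind h (P := fun b => GrF_l h (a * b) = GrF_l h a * GrF_l h b) ?_ ?_ ?_ b
    · rw [mul_zero, map_zero, mul_zero]
    · intro x y hx hy
      rw [mul_add, map_add, map_add, mul_add, hx, hy]
    · intro n b hb
      refine Subtype.ext ?_
      rw [Subalgebra.coe_mul, GrF_l_spec h (h.mul ha hb), GrF_l_spec h ha, GrF_l_spec h hb,
        LocalizedModule.mk_mul_mk, GrF_d_add]

/-- dehomogenisation -/
private def GrF_δ (h : IsGrAlg 𝒢) : Γ →+* GS h (Ch.sgl (xx k 0)) where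
  toFun := fun a => GrF_l h a
  map_one' := GrF_l_one h
  map_mul' := GrF_l_mul h
  map_zero' := map_zero (GrF_l h)
  map_add' := map_add (GrF_l h)

private theorem GrF_surj (h : IsGrAlg 𝒢) : Function.Surjective (GrF_δ h) := by
  rintro ⟨z, n, a, t, ha, ht, hz⟩
  obtain ⟨j, rfl⟩ := GrF_cl t
  have h1 : j = n := by
    refine IsHomogeneous.inj_right (GrF_d_hom j) ht ?_
    exact pow_ne_zero _ (X_ne_zero 0)
  subst h1
  exact ⟨a, Subtype.ext ((GrF_l_spec h ha).trans hz.symm)⟩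

/-- the functions on `x_0 ≠ 0` given by polynomials -/
private def GrF_θ (k : Type u) [Field k] :
    MvPolynomial (Fin 3) k →ₐ[k] RR k (Ch.sgl (xx k 0)) :=
  aeval (fun i => quo (xx k i).1 (g := xx k 0) (c := Ch.sgl (xx k 0)) rfl)

private theorem GrF_xx (i : Fin 3) : lam k (xx k i).1 = uu k i := by
  rw [← ev_lin, lin_xx]
  unfold ev
  rw [aeval_X]

private theorem GrF_θ_coe (p : MvPolynomial (Fin 3) k) : ((GrF_θ k p : RR k _) : KK k) = ev p := by
  have h1 : (RR k (Ch.sgl (xx k 0))).val.comp (GrF_θ k) = aeval (uu k) := by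
    refine MvPolynomial.algHom_ext fun i => ?_
    rw [AlgHom.comp_apply, aeval_X]
    unfold GrF_θ
    rw [aeval_X]
    change lam k (xx k i).1 / lam k (xx k 0).1 = uu k i
    rw [GrF_xx, GrF_xx]
    have h2 : uu k 0 = 1 := rfl
    rw [h2, div_one]
  exact DFunLike.congr_fun h1 p

private theorem GrF_th (h : IsGrAlg 𝒢) (p : MvPolynomial (Fin 3) k) :
    GrF_δ h (algebraMap _ Γ p) = GS.th h _ (GrF_θ k p) := by
  have h1 : (GrF_δ h).comp (algebraMap (MvPolynomial (Fin 3) k) Γ) =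
      (GS.th h (Ch.sgl (xx k 0))).toRingHom.comp (GrF_θ k).toRingHom := by
    refine MvPolynomial.ringHom_ext (fun r => ?_) (fun i => ?_)
    · change GrF_l h (algebraMap _ Γ (C r)) = GS.th h (Ch.sgl (xx k 0)) (GrF_θ k (C r))
      have h2 : (C r : MvPolynomial (Fin 3) k) = algebraMap k _ r := rfl
      rw [h2, AlgHom.commutes, AlgHom.commutes, ← IsScalarTower.algebraMap_apply,
        Algebra.algebraMap_eq_smul_one, map_smul, GrF_l_one]
      exact (Algebra.algebraMap_eq_smul_one r).symm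
    · refine Subtype.ext ?_
      change (GrF_l h (algebraMap _ Γ (X i))).1 =
        (Pool.Agent.MP_6e5bed_ag_NS.th h (Ch.sgl (xx k 0)) (GrF_θ k (X i))).1
      have h3 := th_spec h (Ch.sgl (xx k 0)) (GrF_θ k (X i)) 1 (X i) (X 0) (isHomogeneous_X k i)
        (isHomogeneous_X k 0) (Submonoid.subset_closure GrF_X) (by
          rw [GrF_θ_coe]
          have h4 : ev (X 0 : MvPolynomial (Fin 3) k) = 1 := by
            unfold ev
            rw [aeval_X]
            rfl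
          rw [h4, div_one])
      rw [h3, GrF_l_spec h (h.var i)]
      congr 1
      exact Subtype.ext (pow_one _)
  exact DFunLike.congr_fun h1 p

/-- Dehomogenisation: `∑ a_n ↦ ∑ a_n / x_0 ^ n` is a surjective ring homomorphism to the sections
on `x_0 ≠ 0`, it maps `p` to the function `ev p`. -/
theorem exists_deh (h : IsGrAlg 𝒢) : ∃ δ : Γ →+* GS h (Ch.sgl (xx k 0)),
    Function.Surjective δ ∧ ∀ (p : MvPolynomial (Fin 3) k) (s : RR k (Ch.sgl (xx k 0))),
      (s : KK k) = ev p → δ (algebraMap _ Γ p) = GS.th h _ s := by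
  refine ⟨GrF_δ h, GrF_surj h, fun p s hs => ?_⟩
  rw [GrF_th]
  congr 1
  exact Subtype.ext ((GrF_θ_coe p).trans hs.symm)

/-- the sections of the sheaf are the degree zero part of the localisation -/
private def GrF_R (h : IsGrAlg 𝒢) (c : Ch k) : GS h c →+* (gsh h).R c where
  toFun := fun a => a
  map_one' := rfl
  map_mul' := fun _ _ => rfl
  map_zero' := rfl
  map_add' := fun _ _ => rfl

theorem cen_gsh (h : IsGrAlg 𝒢) (hc : CenG k Γ) : (gsh h).Cen := by
  intro Q _ _ _ _ π hπ hs z hz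
  refine hc Q (π.comp ((GrF_R h (Ch.sgl (xx k 0))).comp (GrF_δ h))) ?_ ?_ z hz
  · intro p
    have h1 : (GrF_R h (Ch.sgl (xx k 0))) ((GrF_δ h) (algebraMap _ Γ p)) =
        ((GrF_θ k p • (1 : GS h (Ch.sgl (xx k 0))) : GS h (Ch.sgl (xx k 0))) :) := by
      rw [GrF_th, GS.smul_def, mul_one]
      rfl
    have h2 := hπ (GrF_θ k p) (1 : GS h (Ch.sgl (xx k 0)))
    change π ((GrF_R h (Ch.sgl (xx k 0))) ((GrF_δ h) (algebraMap _ Γ p))) = _
    rw [h1]
    refine h2.trans ?_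
    rw [GrF_θ_coe, Algebra.algebraMap_eq_smul_one]
    congr 1
    exact map_one π
  · have h1 : Set.range (π.comp ((GrF_R h (Ch.sgl (xx k 0))).comp (GrF_δ h))) =
        Set.range π := by
      refine Set.Subset.antisymm ?_ ?_
      · rintro _ ⟨x, rfl⟩
        exact ⟨_, rfl⟩
      · rintro _ ⟨x, rfl⟩
        obtain ⟨y, hy⟩ := GrF_surj h x
        exact ⟨y, congrArg π hy⟩
    rw [h1]
    exact hs

end Pool.Agent.MP_6e5bed_ag_NS
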