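import Pool.Agent.Lib.MP_6e5bed_ag_NS.GrI

set_option autoImplicit false

/-!
# MP_6e5bed_ag, NC SURFACES: base change of the degree zero parts of localisations
-/

noncomputable section

namespace Pool.Agent.MP_6e5bed_ag_NS

open MvPolynomial
open scoped TensorProduct

universe u

variable {k : Type u} [Field k] (K : Type u) [Field K] [Algebra k K]
  {Γ : Type u} [Ring Γ] [Algebra k Γ] [Algebra (MvPolynomial (Fin 3) k) Γ]
  [IsScalarTower k (MvPolynomial (Fin 3) k) Γ] {𝒢 : ℕ → Submodule k Γ}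

theorem GrJ_mem {I : Set (Fin 3)} {t : MvPolynomial (Fin 3) k}
    (ht : t ∈ Submonoid.closure ((X : Fin 3 → MvPolynomial (Fin 3) k) '' I)) :
    MvPolynomial.map (algebraMap k K) t ∈
      Submonoid.closure ((X : Fin 3 → MvPolynomial (Fin 3) K) '' I) := by
  induction ht using Submonoid.closure_induction with
  | mem p hp =>
    obtain ⟨i, hi, rfl⟩ := hp
    rw [map_X]
    exact Submonoid.subset_closure ⟨i, hi, rfl⟩
  | one =>
    rw [map_one]
    exact Submonoid.one_mem _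
  | mul p q _ _ hp hq =>
    rw [map_mul]
    exact Submonoid.mul_mem _ hp hq

theorem GrJ_lift {I : Set (Fin 3)} {t : MvPolynomial (Fin 3) K}
    (ht : t ∈ Submonoid.closure ((X : Fin 3 → MvPolynomial (Fin 3) K) '' I)) :
    ∃ s ∈ Submonoid.closure ((X : Fin 3 → MvPolynomial (Fin 3) k) '' I),
      MvPolynomial.map (algebraMap k K) s = t := by
  induction ht using Submonoid.closure_induction with
  | mem p hp =>
    obtain ⟨i, hi, rfl⟩ := hp
    exact ⟨X i, Submonoid.subset_closure ⟨i, hi, rfl⟩, map_X _ _⟩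
  | one => exact ⟨1, Submonoid.one_mem _, map_one _⟩
  | mul p q _ _ hp hq =>
    obtain ⟨p', hp', rfl⟩ := hp
    obtain ⟨q', hq', rfl⟩ := hq
    exact ⟨p' * q', Submonoid.mul_mem _ hp' hq', map_mul _ _ _⟩

theorem GrJ_ne {I : Set (Fin 3)} {t : MvPolynomial (Fin 3) K}
    (ht : t ∈ Submonoid.closure ((X : Fin 3 → MvPolynomial (Fin 3) K) '' I)) : t ≠ 0 := by
  induction ht using Submonoid.closure_induction with
  | mem p hp =>
    obtain ⟨i, hi, rfl⟩ := hp
    exact X_ne_zero i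
  | one => exact one_ne_zero
  | mul p q _ _ hp hq => exact mul_ne_zero hp hq

/-- the denominators -/
def GrJ_T {I : Set (Fin 3)}
    (t : Submonoid.closure ((X : Fin 3 → MvPolynomial (Fin 3) k) '' I)) :
    Submonoid.closure ((X : Fin 3 → MvPolynomial (Fin 3) K) '' I) :=
  ⟨MvPolynomial.map (algebraMap k K) t.1, GrJ_mem K t.2⟩

theorem GrJ_T_one {I : Set (Fin 3)} :
    GrJ_T K (1 : Submonoid.closure ((X : Fin 3 → MvPolynomial (Fin 3) k) '' I)) = 1 :=
  Subtype.ext (map_one _)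

theorem GrJ_T_mul {I : Set (Fin 3)}
    (t u : Submonoid.closure ((X : Fin 3 → MvPolynomial (Fin 3) k) '' I)) :
    GrJ_T K (t * u) = GrJ_T K t * GrJ_T K u :=
  Subtype.ext (map_mul _ _ _)

/-- the inclusion, with its type fixed -/
abbrev GrJ_i (k : Type u) [Field k] (K : Type u) [Field K] [Algebra k K] {Γ : Type u} [Ring Γ]
    [Algebra k Γ] (a : Γ) : GK k K Γ := GK.inc K Γ a

theorem GrJ_inc_smul (p : MvPolynomial (Fin 3) k) (a : Γ) :
    GrJ_i k K (p • a) = MvPolynomial.map (algebraMap k K) p • GrJ_i k K a := by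
  rw [Algebra.smul_def, Algebra.smul_def, GrJ_i, map_mul, GK.algebraMap_map]

theorem GrJ_T_smul {I : Set (Fin 3)}
    (t : Submonoid.closure ((X : Fin 3 → MvPolynomial (Fin 3) k) '' I)) (a : Γ) :
    GrJ_i k K (t • a) = GrJ_T K t • GrJ_i k K a :=
  GrJ_inc_smul K t.1 a

theorem GrJ_wd (I : Set (Fin 3)) :
    ∀ p p' : Γ × Submonoid.closure ((X : Fin 3 → MvPolynomial (Fin 3) k) '' I), p ≈ p' →
      (LocalizedModule.mk (GrJ_i k K p.1) (GrJ_T K p.2) :
        Lz (GK k K Γ) ((X : Fin 3 → MvPolynomial (Fin 3) K) '' I)) =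
        LocalizedModule.mk (GrJ_i k K p'.1) (GrJ_T K p'.2) := by
  rintro ⟨m, p⟩ ⟨m', p'⟩ ⟨u, hu⟩
  rw [LocalizedModule.mk_eq]
  refine ⟨GrJ_T K u, ?_⟩
  have h1 := congrArg (GrJ_i k K) hu
  dsimp only at h1 ⊢
  rw [GrJ_T_smul, GrJ_T_smul, GrJ_T_smul, GrJ_T_smul] at h1
  exact h1

/-- the map of localisations `a / t ↦ (1 ⊗ a) / t` -/
def GrJ_phi (I : Set (Fin 3)) : Lz Γ ((X : Fin 3 → MvPolynomial (Fin 3) k) '' I) →ₐ[k]
    Lz (GK k K Γ) ((X : Fin 3 → MvPolynomial (Fin 3) K) '' I) where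
  toFun := fun z => LocalizedModule.liftOn z (fun p => LocalizedModule.mk (GrJ_i k K p.1)
    (GrJ_T K p.2)) (GrJ_wd K I)
  map_one' := by
    rw [OreLocalization.one_def]
    refine (LocalizedModule.liftOn_mk (GrJ_wd K (Γ := Γ) I) 1 1).trans ?_
    rw [OreLocalization.one_def, GrJ_i, map_one, GrJ_T_one]
  map_mul' := by
    intro x y
    induction x, y using LocalizedModule.induction_on₂ with
    | h m m' p p' =>
      rw [LocalizedModule.mk_mul_mk, LocalizedModule.liftOn_mk, LocalizedModule.liftOn_mk,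
        LocalizedModule.liftOn_mk, LocalizedModule.mk_mul_mk, GrJ_i, map_mul, GrJ_T_mul]
  map_zero' := by
    rw [← LocalizedModule.zero_mk (R := MvPolynomial (Fin 3) k)
      (S := Submonoid.closure ((X : Fin 3 → MvPolynomial (Fin 3) k) '' I))
      (M := Γ) 1, LocalizedModule.liftOn_mk, GrJ_i, map_zero, LocalizedModule.zero_mk]
  map_add' := by
    intro x y
    induction x, y using LocalizedModule.induction_on₂ with
    | h m m' p p' =>
      rw [LocalizedModule.mk_add_mk, LocalizedModule.liftOn_mk, LocalizedModule.liftOn_mk,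
        LocalizedModule.liftOn_mk, LocalizedModule.mk_add_mk, GrJ_T_mul, ← GrJ_T_smul,
        ← GrJ_T_smul]
      dsimp only [GrJ_i]
      rw [← map_add]
  commutes' := by
    intro r
    have h0 : algebraMap k (Lz (GK k K Γ) ((X : Fin 3 → MvPolynomial (Fin 3) K) '' I)) r =
      algebraMap K (Lz (GK k K Γ) ((X : Fin 3 → MvPolynomial (Fin 3) K) '' I))
        (algebraMap k K r) := rfl
    rw [h0, Algebra.algebraMap_eq_smul_one, Algebra.algebraMap_eq_smul_one,
      OreLocalization.one_def, OreLocalization.one_def]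
    have h1 := LocalizedModule.smul'_mk r (1 : Γ)
      (1 : Submonoid.closure ((X : Fin 3 → MvPolynomial (Fin 3) k) '' I))
    have h2 := LocalizedModule.smul'_mk (algebraMap k K r) (1 : GK k K Γ)
      (1 : Submonoid.closure ((X : Fin 3 → MvPolynomial (Fin 3) K) '' I))
    rw [LocalizedModule.mk] at h1 h2
    rw [h1, h2]
    refine (LocalizedModule.liftOn_mk (GrJ_wd K (Γ := Γ) I) _ _).trans ?_
    dsimp only
    rw [GrJ_T_one, GrJ_i, map_smul, map_one, algebraMap_smul]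

theorem GrJ_phi_mk (I : Set (Fin 3)) (a : Γ)
    (t : Submonoid.closure ((X : Fin 3 → MvPolynomial (Fin 3) k) '' I)) :
    GrJ_phi K I (LocalizedModule.mk a t) =
      LocalizedModule.mk (GrJ_i k K a) (GrJ_T K t) := by
  show LocalizedModule.liftOn (LocalizedModule.mk a t) (fun p => LocalizedModule.mk
    (GrJ_i k K p.1) (GrJ_T K p.2)) (GrJ_wd K I) = _
  rw [LocalizedModule.liftOn_mk]

theorem GrJ_mk_add {R : Type u} [CommRing R] {S : Submonoid R} {M : Type u} [AddCommGroup M]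
    [Module R M] (a b : M) (t : S) :
    (LocalizedModule.mk (a + b) t : LocalizedModule S M) =
      LocalizedModule.mk a t + LocalizedModule.mk b t := by
  rw [LocalizedModule.mk_add_mk, LocalizedModule.mk_eq]
  refine ⟨1, ?_⟩
  simp only [smul_add, smul_smul, one_mul]

/-- the fractions with denominator `t` -/
def GrJ_del (s : Set (MvPolynomial (Fin 3) k)) (t : Submonoid.closure s) : Γ →ₗ[k] Lz Γ s where
  toFun := fun a => LocalizedModule.mk a t
  map_add' := fun a b => GrJ_mk_add a b t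
  map_smul' := fun c a => (LocalizedModule.smul'_mk c a t).symm

/-- multiplication by a polynomial -/
def GrJ_mul (p : MvPolynomial (Fin 3) k) : Γ →ₗ[k] Γ where
  toFun := fun a => p • a
  map_add' := fun a b => smul_add p a b
  map_smul' := fun c a => (smul_comm p c a)

/-- the linear extension of `GrJ_phi` -/
def GrJ_ext (I : Set (Fin 3)) : K ⊗[k] Lz Γ ((X : Fin 3 → MvPolynomial (Fin 3) k) '' I) →ₗ[k]
    Lz (GK k K Γ) ((X : Fin 3 → MvPolynomial (Fin 3) K) '' I) :=
  TensorProduct.lift ((((Algebra.linearMap K <| Module.End K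
    (Lz Γ ((X : Fin 3 → MvPolynomial (Fin 3) k) '' I) →ₗ[k]
      Lz (GK k K Γ) ((X : Fin 3 → MvPolynomial (Fin 3) K) '' I))).flip
        (GrJ_phi K I).toLinearMap).restrictScalars k))

theorem GrJ_ext_tmul (I : Set (Fin 3)) (c : K)
    (z : Lz Γ ((X : Fin 3 → MvPolynomial (Fin 3) k) '' I)) :
    GrJ_ext K I (c ⊗ₜ z) = c • GrJ_phi K I z := rfl

/-- the identity `K ⊗ Γ = GK` -/
def GrJ_of (k : Type u) [Field k] (K : Type u) [Field K] [Algebra k K] (Γ : Type u) [Ring Γ]
    [Algebra k Γ] : K ⊗[k] Γ →ₗ[K] GK k K Γ where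
  toFun := fun x => x
  map_add' := fun _ _ => rfl
  map_smul' := fun _ _ => rfl

omit [Algebra (MvPolynomial (Fin 3) k) Γ] [IsScalarTower k (MvPolynomial (Fin 3) k) Γ] in
theorem GrJ_of_tmul (c : K) (a : Γ) : GrJ_of k K Γ (c ⊗ₜ a) = c • GrJ_i k K a := by
  have h1 : (c ⊗ₜ[k] a : K ⊗[k] Γ) = c • (1 : K) ⊗ₜ[k] a := by
    rw [TensorProduct.smul_tmul', smul_eq_mul, mul_one]
  rw [h1, map_smul]
  rfl

theorem GrJ_map_smul (p : MvPolynomial (Fin 3) k) (x : K ⊗[k] Γ) :
    MvPolynomial.map (algebraMap k K) p • GrJ_of k K Γ x =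
      GrJ_of k K Γ (LinearMap.lTensor K (GrJ_mul p) x) := by
  induction x with
  | zero => rw [map_zero, map_zero, map_zero, smul_zero]
  | add x y hx hy => rw [map_add, map_add, map_add, smul_add, hx, hy]
  | tmul c a =>
    rw [LinearMap.lTensor_tmul, GrJ_of_tmul, GrJ_of_tmul]
    have h2 : GrJ_i k K (GrJ_mul p a) = MvPolynomial.map (algebraMap k K) p • GrJ_i k K a :=
      GrJ_inc_smul K p a
    rw [h2]
    exact smul_comm _ _ _

theorem GrJ_ext_del (I : Set (Fin 3))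
    (t : Submonoid.closure ((X : Fin 3 → MvPolynomial (Fin 3) k) '' I)) (x : K ⊗[k] Γ) :
    GrJ_ext K I (LinearMap.lTensor K (GrJ_del _ t) x) =
      LocalizedModule.mk (GrJ_of k K Γ x) (GrJ_T K t) := by
  induction x with
  | zero => rw [map_zero, map_zero, map_zero, LocalizedModule.zero_mk]
  | add x y hx hy => rw [map_add, map_add, map_add, hx, hy, GrJ_mk_add]
  | tmul c a =>
    rw [LinearMap.lTensor_tmul, GrJ_ext_tmul, GrJ_of_tmul]
    have h2 : GrJ_phi K I (GrJ_del _ t a) = LocalizedModule.mk (GrJ_i k K a) (GrJ_T K t) :=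
      GrJ_phi_mk K I a t
    rw [h2]
    exact LocalizedModule.smul'_mk c _ _

theorem GrJ_denom (I : Set (Fin 3))
    (w : K ⊗[k] Lz Γ ((X : Fin 3 → MvPolynomial (Fin 3) k) '' I)) :
    ∃ (t : Submonoid.closure ((X : Fin 3 → MvPolynomial (Fin 3) k) '' I)) (x : K ⊗[k] Γ),
      w = LinearMap.lTensor K (GrJ_del _ t) x := by
  have hcan : ∀ (t u : Submonoid.closure ((X : Fin 3 → MvPolynomial (Fin 3) k) '' I))
      (x : K ⊗[k] Γ), LinearMap.lTensor K (GrJ_del _ t) x =
        LinearMap.lTensor K (GrJ_del _ (t * u)) (LinearMap.lTensor K (GrJ_mul u.1) x) := by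
    intro t u x
    rw [← LinearMap.comp_apply, ← LinearMap.lTensor_comp]
    congr 2
    ext a
    exact (LocalizedModule.mk_cancel_common_right t u a).symm
  induction w with
  | zero => exact ⟨1, 0, (map_zero _).symm⟩
  | tmul c y =>
    induction y using LocalizedModule.induction_on with
    | h a t => exact ⟨t, c ⊗ₜ a, by rw [LinearMap.lTensor_tmul]; rfl⟩
  | add w₁ w₂ h₁ h₂ =>
    obtain ⟨t, x, rfl⟩ := h₁
    obtain ⟨u, y, rfl⟩ := h₂
    refine ⟨t * u, LinearMap.lTensor K (GrJ_mul u.1) x + LinearMap.lTensor K (GrJ_mul t.1) y, ?_⟩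
    rw [map_add, ← hcan, mul_comm t u, ← hcan]

theorem GrJ_inj (I : Set (Fin 3)) : Function.Injective (GrJ_ext (Γ := Γ) (k := k) K I) := by
  rw [injective_iff_map_eq_zero]
  intro w hw
  obtain ⟨t, x, rfl⟩ := GrJ_denom K I w
  rw [GrJ_ext_del, ← LocalizedModule.zero_mk (GrJ_T K t), LocalizedModule.mk_eq] at hw
  obtain ⟨u', hu'⟩ := hw
  obtain ⟨u, hu, hu2⟩ := GrJ_lift (k := k) K (u' * GrJ_T K t).2
  have h1 : GrJ_of k K Γ (LinearMap.lTensor K (GrJ_mul u) x) = 0 := by
    rw [← GrJ_map_smul, hu2]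
    rw [smul_smul] at hu'
    have h2 : (u' * GrJ_T K t).1 • GrJ_of k K Γ x = (u' * GrJ_T K t) • GrJ_of k K Γ x := rfl
    rw [h2, hu', smul_zero, smul_zero]
  have h3 : LinearMap.lTensor K (GrJ_mul (Γ := Γ) u) x = 0 := h1
  have h4 := Module.Flat.lTensor_exact K (LinearMap.exact_subtype_ker_map (GrJ_mul (Γ := Γ) u))
  obtain ⟨y, rfl⟩ := (h4 x).1 h3
  rw [← LinearMap.comp_apply, ← LinearMap.lTensor_comp]
  have h5 : GrJ_del _ t ∘ₗ (LinearMap.ker (GrJ_mul (Γ := Γ) u)).subtype = 0 := by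
    ext ⟨a, ha⟩
    show LocalizedModule.mk a t = 0
    rw [← LocalizedModule.zero_mk t, LocalizedModule.mk_eq]
    refine ⟨⟨u, hu⟩, ?_⟩
    have h6 : u • a = 0 := ha
    rw [smul_zero, smul_zero, smul_smul, mul_comm, mul_smul]
    have h7 : (⟨u, hu⟩ : Submonoid.closure ((X : Fin 3 → MvPolynomial (Fin 3) k) '' I)) • a = 0 :=
      h6
    rw [h7, smul_zero]
  rw [h5, LinearMap.lTensor_zero, LinearMap.zero_apply]

/-- the map of degree zero parts -/
def GrJ_j (h : IsGrAlg 𝒢) (I : Set (Fin 3)) : Dz h (X '' I) →ₐ[k] Dz (GK.isGr K h) (X '' I) :=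
  AlgHom.ofLinearMap
    { toFun := fun b => ⟨GrJ_phi K I b.1, by
        obtain ⟨_, n, a, t, ha, ht, rfl⟩ := b
        refine ⟨n, GrJ_i k K a, GrJ_T K t, Submodule.tmul_mem_baseChange_of_mem _ ha,
          ht.map _, GrJ_phi_mk K I a t⟩⟩
      map_add' := fun a b => Subtype.ext (map_add (GrJ_phi K I) a.1 b.1)
      map_smul' := fun c a => Subtype.ext (map_smul (GrJ_phi K I) c a.1) }
    (Subtype.ext (map_one (GrJ_phi K I)))
    (fun a b => Subtype.ext (map_mul (GrJ_phi K I) a.1 b.1))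

theorem GrJ_val (h : IsGrAlg 𝒢) (I : Set (Fin 3))
    (w : K ⊗[k] Dz h ((X : Fin 3 → MvPolynomial (Fin 3) k) '' I)) :
    (TensorProduct.lift ((((Algebra.linearMap K <| Module.End K
      (Dz h (X '' I) →ₗ[k] Dz (GK.isGr K h) (X '' I))).flip
        (GrJ_j K h I).toLinearMap).restrictScalars k)) w).1 =
      GrJ_ext K I (LinearMap.lTensor K (Dz h (X '' I)).val.toLinearMap w) := by
  induction w with
  | zero => rw [map_zero, map_zero, map_zero]; rfl
  | add x y hx hy =>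
    rw [map_add, map_add, map_add, ← hx, ← hy]
    rfl
  | tmul c b => rfl

/-- The elements of degree `n` over a denominator of degree `n`. -/
def GrJ_dn (h : IsGrAlg 𝒢) (s : Set (MvPolynomial (Fin 3) k)) (n : ℕ) (t : Submonoid.closure s)
    (ht : (t : MvPolynomial (Fin 3) k).IsHomogeneous n) : 𝒢 n →ₗ[k] Dz h s where
  toFun := fun a => ⟨LocalizedModule.mk a.1 t, n, a.1, t, a.2, ht, rfl⟩
  map_add' := fun a b => Subtype.ext (GrJ_mk_add a.1 b.1 t)
  map_smul' := fun c a => Subtype.ext (LocalizedModule.smul'_mk c a.1 t).symm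

/-- The degree zero parts of the localisations at the variables `x_i`, `i ∈ I`: the map
`a / t ↦ (1 ⊗ a) / t` is a base change, compatible with the restriction maps. PROOF. The
multiplicative sets consist of the monomials in the `x_i`, `i ∈ I`, over `k` and over `K`.
Surjectivity of `K ⊗ Dz → Dz`: `(∑ c_i ⊗ a_i) / t = ∑ c_i (a_i / t)`. Injectivity: write an
element of the kernel as `∑ c_i ⊗ (a_i / t)` with a common denominator and linearly independent
`c_i`; a monomial `u` kills `∑ c_i ⊗ a_i`, so `u a_i = 0` for all `i`. -/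
theorem GK.dz_bc (h : IsGrAlg 𝒢) :
    ∃ j : ∀ I : Set (Fin 3), Dz h (X '' I) →ₐ[k] Dz (GK.isGr K h) (X '' I),
      (∀ I, IsBaseChange K (j I).toLinearMap) ∧
      ∀ {I J : Set (Fin 3)} (hI : I ⊆ J) b,
        Dz.map (GK.isGr K h) (Set.image_mono hI) (j I b) = j J (Dz.map h (Set.image_mono hI) b) := by
  refine ⟨GrJ_j K h, fun I => ⟨?_, ?_⟩, ?_⟩
  · intro w₁ w₂ hw
    have h1 := congrArg Subtype.val hw
    rw [GrJ_val, GrJ_val] at h1
    have h2 := GrJ_inj K I h1
    exact Module.Flat.lTensor_preserves_injective_linearMap (M := K) _ Subtype.val_injective h2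
  · rintro ⟨_, n, a', t', ha', ht', rfl⟩
    obtain ⟨t, ht, hte⟩ := GrJ_lift (k := k) K t'.2
    have hs : ∀ p ∈ ((X : Fin 3 → MvPolynomial (Fin 3) k) '' I), p.IsHomogeneous 1 := by
      rintro _ ⟨i, _, rfl⟩
      exact isHomogeneous_X _ _
    obtain ⟨m, hm⟩ := closure_hom hs ht
    have hm' : (t' : MvPolynomial (Fin 3) K).IsHomogeneous m := by
      rw [← hte]
      exact hm.map _
    have hmn : n = m := ht'.inj_right hm' (GrJ_ne K t'.2)
    subst hmn
    have hT : GrJ_T K ⟨t, ht⟩ = t' := Subtype.ext hte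
    obtain ⟨y, rfl⟩ := ha'
    refine ⟨LinearMap.lTensor K (GrJ_dn h _ n ⟨t, ht⟩ hm) y, Subtype.ext ?_⟩
    have h3 : (Dz h (X '' I)).val.toLinearMap ∘ₗ GrJ_dn h _ n ⟨t, ht⟩ hm =
        GrJ_del _ ⟨t, ht⟩ ∘ₗ (𝒢 n).subtype := rfl
    have h4 : LinearMap.lTensor K (Dz h (X '' I)).val.toLinearMap
        (LinearMap.lTensor K (GrJ_dn h _ n ⟨t, ht⟩ hm) y) =
        LinearMap.lTensor K (GrJ_del _ ⟨t, ht⟩) (LinearMap.lTensor K (𝒢 n).subtype y) := by
      rw [← LinearMap.lTensor_comp_apply, h3, LinearMap.lTensor_comp_apply]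
    refine (GrJ_val K h I _).trans ?_
    rw [h4, GrJ_ext_del, hT]
    rfl
  · intro I J hI b
    obtain ⟨_, n, a, t, ha, ht, rfl⟩ := b
    refine Subtype.ext ?_
    show Lz.map (Set.image_mono hI) (GrJ_phi K I (LocalizedModule.mk a t)) =
      GrJ_phi K J (Lz.map (Set.image_mono hI) (LocalizedModule.mk a t))
    rw [GrJ_phi_mk, Lz.map_mk, Lz.map_mk, GrJ_phi_mk]
    rfl

end Pool.Agent.MP_6e5bed_ag_NS
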