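import Pool.Agent.Lib.MP_6e5bed_ag_NS.LemS

set_option autoImplicit false

/-!
# MP_6e5bed_ag, NC SURFACES: central simple quotients and base change (algebra part)
-/

noncomputable section

namespace Pool.Agent.MP_6e5bed_ag_NS

open Pool.Agent.MP_6e5bed_ag_NC
open scoped TensorProduct

universe u

/-- A simple ring is prime. -/
private theorem cenE_prime {Q : Type u} [Ring Q] [IsSimpleRing Q] {x y : Q}
    (h : ∀ q, x * q * y = 0) : x = 0 ∨ y = 0 := by
  by_cases hx : x = 0
  · exact Or.inl hx
  right
  let I : TwoSidedIdeal Q := TwoSidedIdeal.mk' {z | ∀ q, z * q * y = 0}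
    (fun q => by rw [zero_mul, zero_mul])
    (fun {a b} ha hb q => by rw [add_mul, add_mul, ha q, hb q, add_zero])
    (fun {a} ha q => by rw [neg_mul, neg_mul, ha q, neg_zero])
    (fun {a b} hb q => by rw [mul_assoc, mul_assoc, ← mul_assoc b, hb q, mul_zero])
    (fun {a b} ha q => by rw [mul_assoc a b q, ha (b * q)])
  have hm : x ∈ I := by
    rw [TwoSidedIdeal.mem_mk']
    exact h
  have h1 := IsSimpleRing.one_mem_of_ne_zero_mem I hx hm
  rw [TwoSidedIdeal.mem_mk'] at h1
  have h2 := h1 1
  rwa [one_mul, one_mul] at h2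

/-- A prime Artinian ring is simple. -/
private theorem cenE_simple {P : Type u} [Ring P] [Nontrivial P] [IsArtinianRing P]
    (hp : ∀ x y : P, (∀ p, x * p * y = 0) → x = 0 ∨ y = 0) : IsSimpleRing P := by
  have key : ∀ (J : Ideal P), J.IsTwoSided → ∀ n : ℕ, J ^ n = ⊥ → J = ⊥ := by
    intro J hJ n
    induction n with
    | zero =>
      intro h
      rw [J.pow_zero, Ideal.one_eq_top] at h
      exact absurd h (bot_ne_top (α := Ideal P)).symm
    | succ n ih =>
      intro h
      by_cases hn : J ^ n = ⊥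
      · exact ih hn
      rw [eq_bot_iff]
      intro x hx
      obtain ⟨y, hy, hy0⟩ := Submodule.exists_mem_ne_zero_of_ne_bot hn
      rw [Submodule.mem_bot]
      refine (hp x y fun p => ?_).resolve_right hy0
      have h1 : x * p ∈ J := Ideal.mul_mem_right p J hx
      have h2 : x * p * y ∈ J * J ^ n := Ideal.mul_mem_mul h1 hy
      rw [← Ideal.IsTwoSided.pow_succ, h] at h2
      exact (Submodule.mem_bot P).1 h2
  have hjac : Ring.jacobson P = ⊥ := by
    obtain ⟨n, hn⟩ := IsSemiprimaryRing.isNilpotent (R := P)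
    exact key _ inferInstance n hn
  have hss : IsSemisimpleRing P := IsArtinianRing.isSemisimpleRing_iff_jacobson.2 hjac
  rw [isSimpleRing_iff_isTwoSided_imp]
  refine ⟨inferInstance, fun I hI => ?_⟩
  obtain ⟨e, he, rfl⟩ := IsSemisimpleRing.ideal_eq_span_idempotent I
  have h1 : ∀ p, e * p * (1 - e) = 0 := by
    intro p
    have h2 : e * p ∈ Ideal.span {e} := Ideal.mul_mem_right p _ (Ideal.mem_span_singleton_self e)
    obtain ⟨s, hs⟩ := Ideal.mem_span_singleton'.1 h2
    rw [← hs, mul_assoc, mul_sub, mul_one, he.eq, sub_self, mul_zero]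
  rcases hp _ _ h1 with h | h
  · left
    rw [h]
    exact Ideal.span_singleton_eq_bot.2 rfl
  · right
    rw [sub_eq_zero] at h
    rw [← h]
    exact Ideal.span_singleton_one

/-- Base change: `K'` a field extension of `K`, `Q` a finite-dimensional simple `K'`-algebra,
`P` a finite-dimensional `K`-subalgebra which spans `Q` over `K'`. If `P` has centre `K` as soon as
it is simple, then `Q` has centre `K'`. PROOF. `P` is semisimple (`K' J` is a nilpotent two-sided
ideal of `Q` if `J` is a nilpotent ideal of `P`), a central idempotent of `P` is central in `Q`, so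
it is `0` or `1`, and `P` is simple. So `K' ⊗_K P` is simple with centre `K'` and the surjection to
`Q` is an isomorphism. -/
theorem cen_ext (K K' : Type u) [Field K] [Field K'] [Algebra K K'] (Q : Type u) [Ring Q]
    [Algebra K Q] [Algebra K' Q] [IsScalarTower K K' Q] [FiniteDimensional K' Q] [IsSimpleRing Q]
    (P : Subalgebra K Q) (hf : FiniteDimensional K P)
    (hsp : Submodule.span K' (P : Set Q) = ⊤)
    (hP : IsSimpleRing P → ∀ z : P, (∀ p, z * p = p * z) → ∃ s : K, z = s • 1) :
    ∀ z : Q, (∀ x, z * x = x * z) → ∃ s : K', z = s • 1 := by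
  -- `P` is prime
  have hprime : ∀ x y : P, (∀ p, x * p * y = 0) → x = 0 ∨ y = 0 := by
    intro x y h
    have h1 : ∀ q : Q, (x : Q) * q * (y : Q) = 0 := by
      intro q
      have hq : q ∈ Submodule.span K' (P : Set Q) := by
        rw [hsp]
        exact Submodule.mem_top
      induction hq using Submodule.span_induction with
      | mem q hq =>
        have := congrArg (Subtype.val) (h ⟨q, hq⟩)
        exact this
      | zero => rw [mul_zero, zero_mul]
      | add a b _ _ ha hb => rw [mul_add, add_mul, ha, hb, add_zero]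
      | smul s a _ ha => rw [mul_smul_comm, smul_mul_assoc, ha, smul_zero]
    rcases cenE_prime h1 with h2 | h2
    · exact Or.inl (Subtype.ext h2)
    · exact Or.inr (Subtype.ext h2)
  have hart : IsArtinianRing P := IsArtinianRing.of_finite K P
  have hnt : Nontrivial P := ⟨⟨0, 1, fun h => zero_ne_one (α := Q) (congrArg Subtype.val h)⟩⟩
  have hsim : IsSimpleRing P := cenE_simple hprime
  have hcen : Subalgebra.center K P = ⊥ := by
    rw [eq_bot_iff]
    intro z hz
    rw [Subalgebra.mem_center_iff] at hz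
    obtain ⟨s, hs⟩ := hP hsim z fun p => (hz p).symm
    rw [hs, Algebra.mem_bot]
    exact ⟨s, Algebra.algebraMap_eq_smul_one s⟩
  have hten : IsSimpleRing (P ⊗[K] K') := simple_tensor K P K' hcen
  let φ : P ⊗[K] K' →ₐ[K] Q := Algebra.TensorProduct.lift P.val (IsScalarTower.toAlgHom K K' Q)
    (fun x y => by
      rw [IsScalarTower.coe_toAlgHom']
      exact (Algebra.commutes y (P.val x)).symm)
  have hφ : ∀ (p : P) (s : K'), φ (p ⊗ₜ s) = (p : Q) * algebraMap K' Q s := fun p s => by
    simp [φ]
  have hinj : Function.Injective φ := RingHom.injective (φ : P ⊗[K] K' →+* Q)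
  have hsurj : ∀ q : Q, ∃ t, φ t = q := by
    intro q
    have hq : q ∈ Submodule.span K' (P : Set Q) := by
      rw [hsp]
      exact Submodule.mem_top
    induction hq using Submodule.span_induction with
    | mem q hq =>
      refine ⟨(⟨q, hq⟩ : P) ⊗ₜ 1, ?_⟩
      rw [hφ, map_one, mul_one]
    | zero => exact ⟨0, map_zero _⟩
    | add a b _ _ ha hb =>
      obtain ⟨t, rfl⟩ := ha
      obtain ⟨t', rfl⟩ := hb
      exact ⟨t + t', map_add _ _ _⟩
    | smul s a _ ha =>
      obtain ⟨t, rfl⟩ := ha
      refine ⟨(1 ⊗ₜ s) * t, ?_⟩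
      rw [map_mul, hφ, Subalgebra.coe_one, one_mul, Algebra.smul_def]
  intro z hz
  obtain ⟨t, rfl⟩ := hsurj z
  have ht : t ∈ Subalgebra.centralizer K
      ((Algebra.TensorProduct.includeLeft : P →ₐ[K] P ⊗[K] K').range : Set (P ⊗[K] K')) := by
    rw [Subalgebra.mem_centralizer_iff]
    intro w _
    apply hinj
    rw [map_mul, map_mul]
    exact (hz (φ w)).symm
  rw [Subalgebra.centralizer_coe_range_includeLeft_eq_center_tensorProduct] at ht
  obtain ⟨w, hw⟩ := ht
  have hw' : ∀ w : Subalgebra.center K P ⊗[K] K', ∃ s : K',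
      φ (Algebra.TensorProduct.map (Subalgebra.center K P).val (AlgHom.id K K') w) = s • 1 := by
    intro w
    induction w using TensorProduct.induction_on with
    | zero => exact ⟨0, by rw [map_zero, map_zero, zero_smul]⟩
    | add a b ha hb =>
      obtain ⟨s, hs⟩ := ha
      obtain ⟨s', hs'⟩ := hb
      exact ⟨s + s', by rw [map_add, map_add, hs, hs', add_smul]⟩
    | tmul c s =>
      obtain ⟨c, hc⟩ := c
      rw [hcen, Algebra.mem_bot] at hc
      obtain ⟨r, rfl⟩ := hc
      refine ⟨algebraMap K K' r * s, ?_⟩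
      rw [Algebra.TensorProduct.map_tmul, hφ, ← Algebra.algebraMap_eq_smul_one, map_mul,
        ← IsScalarTower.algebraMap_apply]
      rfl
  obtain ⟨s, hs⟩ := hw' w
  refine ⟨s, ?_⟩
  rw [← hs]
  exact congrArg φ hw.symm

end Pool.Agent.MP_6e5bed_ag_NS
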