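import Pool.Agent.Lib.MP_6e5bed_ag_NS.GrE

set_option autoImplicit false

/-!
# MP_6e5bed_ag, NC SURFACES: the base change of a graded algebra is a graded algebra
-/

noncomputable section

namespace Pool.Agent.MP_6e5bed_ag_NS

open MvPolynomial
open scoped TensorProduct

universe u

variable {k : Type u} [Field k] (K : Type u) [Field K] [Algebra k K]
  {Γ : Type u} [Ring Γ] [Algebra k Γ] [Algebra (MvPolynomial (Fin 3) k) Γ]
  [IsScalarTower k (MvPolynomial (Fin 3) k) Γ] {𝒢 : ℕ → Submodule k Γ}

omit [Algebra (MvPolynomial (Fin 3) k) Γ] [IsScalarTower k (MvPolynomial (Fin 3) k) Γ] in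
/-- The pieces of the base change of the grading are spanned by the elements `1 ⊗ a`. -/
private theorem GrI_span (n : ℕ) :
    GK.gr K 𝒢 n = Submodule.span K (GK.inc K Γ '' (𝒢 n : Set Γ)) :=
  Submodule.baseChange_eq_span (A := K) (𝒢 n)

omit [Algebra (MvPolynomial (Fin 3) k) Γ] [IsScalarTower k (MvPolynomial (Fin 3) k) Γ] in
private theorem GrI_inc {n : ℕ} {a : Γ} (ha : a ∈ 𝒢 n) : GK.inc K Γ a ∈ GK.gr K 𝒢 n := by
  rw [GrI_span]
  exact Submodule.subset_span ⟨a, ha, rfl⟩

omit [IsScalarTower k (MvPolynomial (Fin 3) k) Γ] in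
private theorem GrI_mul (h : IsGrAlg 𝒢) {m n : ℕ} {a b : GK k K Γ} (ha : a ∈ GK.gr K 𝒢 m)
    (hb : b ∈ GK.gr K 𝒢 n) : a * b ∈ GK.gr K 𝒢 (m + n) := by
  rw [GrI_span] at ha hb
  induction ha using Submodule.span_induction with
  | mem x hx =>
    obtain ⟨a, ha, rfl⟩ := hx
    induction hb using Submodule.span_induction with
    | mem y hy =>
      obtain ⟨b, hb, rfl⟩ := hy
      rw [← map_mul]
      exact GrI_inc K (h.mul ha hb)
    | zero => rw [mul_zero]; exact Submodule.zero_mem _
    | add y z _ _ hy hz => rw [mul_add]; exact Submodule.add_mem _ hy hz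
    | smul c y _ hy => rw [mul_smul_comm]; exact Submodule.smul_mem _ c hy
  | zero => rw [zero_mul]; exact Submodule.zero_mem _
  | add y z _ _ hy hz => rw [add_mul]; exact Submodule.add_mem _ hy hz
  | smul c y _ hy => rw [smul_mul_assoc]; exact Submodule.smul_mem _ c hy

omit [Algebra (MvPolynomial (Fin 3) k) Γ] [IsScalarTower k (MvPolynomial (Fin 3) k) Γ] in
/-- Every element of `K ⊗ Γ` is in the `K`-span of the elements `1 ⊗ a`. -/
private theorem GrI_top : Submodule.span K (Set.range (GK.inc (k := k) K Γ)) = ⊤ := by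
  have h1 := Submodule.baseChange_eq_span (A := K) (⊤ : Submodule k Γ)
  rw [Submodule.baseChange_top] at h1
  have h2 : (Submodule.map (TensorProduct.mk k K Γ 1) ⊤ : Set (K ⊗[k] Γ)) =
      Set.range (GK.inc (k := k) K Γ) := by
    ext z
    constructor
    · rintro ⟨a, -, rfl⟩
      exact ⟨a, rfl⟩
    · rintro ⟨a, rfl⟩
      exact ⟨a, trivial, rfl⟩
  rw [h2] at h1
  exact h1.symm

private theorem GrI_fin (h : IsGrAlg 𝒢) :
    Module.Finite (MvPolynomial (Fin 3) K) (GK k K Γ) := by
  classical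
  obtain ⟨S, hS⟩ := h.fin
  refine ⟨S.image (GK.inc K Γ), ?_⟩
  have h1 : ∀ a : Γ, GK.inc K Γ a ∈ Submodule.span (MvPolynomial (Fin 3) K)
      ((S.image (GK.inc K Γ) : Finset (GK k K Γ)) : Set (GK k K Γ)) := by
    intro a
    have ha : a ∈ Submodule.span (MvPolynomial (Fin 3) k) (S : Set Γ) := by
      rw [hS]; trivial
    induction ha using Submodule.span_induction with
    | mem x hx =>
      refine Submodule.subset_span ?_
      rw [Finset.coe_image]
      exact ⟨x, hx, rfl⟩
    | zero => rw [map_zero]; exact Submodule.zero_mem _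
    | add y z _ _ hy hz => rw [map_add]; exact Submodule.add_mem _ hy hz
    | smul p y _ hy =>
      rw [Algebra.smul_def, map_mul, ← GK.algebraMap_map, ← Algebra.smul_def]
      exact Submodule.smul_mem _ _ hy
  rw [eq_top_iff]
  intro z _
  have hz : z ∈ Submodule.span K (Set.range (GK.inc (k := k) K Γ)) := by
    rw [GrI_top]; trivial
  induction hz using Submodule.span_induction with
  | mem x hx =>
    obtain ⟨a, rfl⟩ := hx
    exact h1 a
  | zero => exact Submodule.zero_mem _
  | add y z _ _ hy hz => exact Submodule.add_mem _ (hy trivial) (hz trivial)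
  | smul c y _ hy =>
    rw [← algebraMap_smul (MvPolynomial (Fin 3) K) c y]
    exact Submodule.smul_mem _ _ (hy trivial)

theorem GK.isGr (h : IsGrAlg 𝒢) : IsGrAlg (GK.gr K 𝒢) where
  int := DirectSum.IsInternal.baseChange 𝒢 h.int
  one := by
    rw [← map_one (GK.inc (k := k) K Γ)]
    exact GrI_inc K h.one
  mul ha hb := GrI_mul K h ha hb
  var i := by
    rw [GK.algebraMap_X]
    exact GrI_inc K (h.var i)
  fin := GrI_fin K h

end Pool.Agent.MP_6e5bed_ag_NS
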