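import Pool.Agent.Lib.MP_6e5bed_ag_NS.GrF
import Pool.Agent.Lib.MP_6e5bed_ag_NS.GrI
import Pool.Agent.Lib.MP_6e5bed_ag_NS.CenE

set_option autoImplicit false

/-!
# MP_6e5bed_ag, NC SURFACES: base change of the condition on the generic algebra
-/

noncomputable section

namespace Pool.Agent.MP_6e5bed_ag_NS

open MvPolynomial
open scoped TensorProduct

universe u

variable {k : Type u} [Field k] (K : Type u) [Field K] [Algebra k K]
  {Γ : Type u} [Ring Γ] [Algebra k Γ] [Algebra (MvPolynomial (Fin 3) k) Γ]
  [IsScalarTower k (MvPolynomial (Fin 3) k) Γ]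

/-- the inclusion `k(u, v) → K(u, v)` -/
private def GrK_i (k : Type u) [Field k] (K : Type u) [Field K] [Algebra k K] : KK k →+* KK K :=
  IsFractionRing.lift (A := MvPolynomial (Fin 2) k)
    (g := (algebraMap (MvPolynomial (Fin 2) K) (KK K)).comp (MvPolynomial.map (algebraMap k K)))
    (fun _ _ h => MvPolynomial.map_injective _ (algebraMap k K).injective
      (IsFractionRing.injective (MvPolynomial (Fin 2) K) (KK K) h))

private theorem GrK_i_alg (p : MvPolynomial (Fin 2) k) :
    GrK_i k K (algebraMap _ _ p) = algebraMap _ _ (MvPolynomial.map (algebraMap k K) p) :=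
  IsFractionRing.lift_algebraMap _ _

private theorem GrK_uu (i : Fin 3) : GrK_i k K (uu k i) = uu K i := by
  have h0 : uu k 0 = 1 := rfl
  have h1 : uu k 1 = algebraMap (MvPolynomial (Fin 2) k) (KK k) (X 0) := rfl
  have h2 : uu k 2 = algebraMap (MvPolynomial (Fin 2) k) (KK k) (X 1) := rfl
  have h0' : uu K 0 = 1 := rfl
  have h1' : uu K 1 = algebraMap (MvPolynomial (Fin 2) K) (KK K) (X 0) := rfl
  have h2' : uu K 2 = algebraMap (MvPolynomial (Fin 2) K) (KK K) (X 1) := rfl
  fin_cases i
  · change GrK_i k K (uu k 0) = uu K 0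
    rw [h0, h0', map_one]
  · change GrK_i k K (uu k 1) = uu K 1
    rw [h1, h1', GrK_i_alg, MvPolynomial.map_X]
  · change GrK_i k K (uu k 2) = uu K 2
    rw [h2, h2', GrK_i_alg, MvPolynomial.map_X]

private theorem GrK_ev (p : MvPolynomial (Fin 3) k) :
    GrK_i k K (ev p) = ev (MvPolynomial.map (algebraMap k K) p) := by
  unfold ev
  induction p using MvPolynomial.induction_on with
  | C a =>
    rw [MvPolynomial.map_C, MvPolynomial.aeval_C, MvPolynomial.aeval_C,
      IsScalarTower.algebraMap_apply k (MvPolynomial (Fin 2) k) (KK k),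
      IsScalarTower.algebraMap_apply K (MvPolynomial (Fin 2) K) (KK K), GrK_i_alg,
      MvPolynomial.algebraMap_eq, MvPolynomial.algebraMap_eq, MvPolynomial.map_C]
  | add p q hp hq => rw [map_add, map_add, map_add, map_add, hp, hq]
  | mul_X p i hp =>
    rw [map_mul, map_mul, map_mul, map_mul, hp, MvPolynomial.aeval_X, MvPolynomial.map_X,
      MvPolynomial.aeval_X, GrK_uu]

private theorem GrK_aux (hf : Module.Finite (MvPolynomial (Fin 3) k) Γ) (hc : CenG k Γ)
    (Q : Type u) [Ring Q] [Algebra (KK K) Q] [FiniteDimensional (KK K) Q] [IsSimpleRing Q]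
    [Algebra (KK k) (KK K)] [Algebra (KK k) Q] [IsScalarTower (KK k) (KK K) Q]
    (hι : ∀ p : MvPolynomial (Fin 3) k, algebraMap (KK k) (KK K) (ev p) =
      ev (MvPolynomial.map (algebraMap k K) p))
    (π : GK k K Γ →+* Q)
    (hπ : ∀ p : MvPolynomial (Fin 3) K, π (algebraMap _ _ p) = algebraMap (KK K) Q (ev p))
    (hs : Submodule.span (KK K) (Set.range π) = ⊤) :
    ∀ z : Q, (∀ x, z * x = x * z) → ∃ s : KK K, z = s • 1 := by
  let f : Γ →+* Q := π.comp (GK.inc K Γ).toRingHom
  have hfa : ∀ a, f a = π (GK.inc K Γ a) := fun a => rfl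
  have hfp : ∀ p : MvPolynomial (Fin 3) k, f (algebraMap _ Γ p) = algebraMap (KK k) Q (ev p) := by
    intro p
    rw [hfa, ← GK.algebraMap_map, hπ, ← hι, ← IsScalarTower.algebraMap_apply]
  have hmul : ∀ x y, x ∈ Submodule.span (KK k) (Set.range f) →
      y ∈ Submodule.span (KK k) (Set.range f) → x * y ∈ Submodule.span (KK k) (Set.range f) := by
    intro x y hx hy
    have h1 : x * y ∈ Submodule.span (KK k) (Set.range f) * Submodule.span (KK k) (Set.range f) :=
      Submodule.mul_mem_mul hx hy
    rw [Submodule.span_mul_span] at h1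
    refine Submodule.span_mono ?_ h1
    rintro _ ⟨_, ⟨a, rfl⟩, _, ⟨b, rfl⟩, rfl⟩
    exact ⟨a * b, map_mul f a b⟩
  let P : Subalgebra (KK k) Q := (Submodule.span (KK k) (Set.range f)).toSubalgebra
    (Submodule.subset_span ⟨1, map_one f⟩) hmul
  have hPm : ∀ x, x ∈ P ↔ x ∈ Submodule.span (KK k) (Set.range f) := fun x => Iff.rfl
  have hfin : FiniteDimensional (KK k) P := by
    obtain ⟨S, hS⟩ := hf.fg_top
    have h1 : Submodule.span (KK k) (Set.range f) ≤
        Submodule.span (KK k) (f '' (S : Set Γ)) := by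
      rw [Submodule.span_le]
      rintro _ ⟨a, rfl⟩
      have ha : a ∈ Submodule.span (MvPolynomial (Fin 3) k) (S : Set Γ) := by
        rw [hS]
        exact Submodule.mem_top
      induction ha using Submodule.span_induction with
      | mem a ha => exact Submodule.subset_span ⟨a, ha, rfl⟩
      | zero => rw [map_zero]; exact Submodule.zero_mem _
      | add a b _ _ ha hb => rw [map_add]; exact Submodule.add_mem _ ha hb
      | smul p a _ ha =>
        rw [Algebra.smul_def, map_mul, hfp, ← Algebra.smul_def]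
        exact Submodule.smul_mem _ _ ha
    have h2 : FiniteDimensional (KK k) (Submodule.span (KK k) (f '' (S : Set Γ))) :=
      FiniteDimensional.span_of_finite _ (S.finite_toSet.image f)
    have h3 : FiniteDimensional (KK k) (Submodule.span (KK k) (Set.range f)) :=
      Submodule.finiteDimensional_of_le h1
    exact (Subalgebra.finiteDimensional_toSubmodule (S := P)).1 h3
  have hsp : Submodule.span (KK K) (P : Set Q) = ⊤ := by
    rw [eq_top_iff, ← hs, Submodule.span_le]
    rintro _ ⟨z, rfl⟩
    change π z ∈ Submodule.span (KK K) (P : Set Q)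
    have key : ∀ z : K ⊗[k] Γ, π (z : GK k K Γ) ∈ Submodule.span (KK K) (P : Set Q) := by
      intro z
      induction z using TensorProduct.induction_on with
      | zero =>
        have h1 : π ((0 : K ⊗[k] Γ) : GK k K Γ) = 0 := map_zero π
        rw [h1]
        exact Submodule.zero_mem _
      | add x y hx hy =>
        have h1 : π ((x + y : K ⊗[k] Γ) : GK k K Γ) = π (x : GK k K Γ) + π (y : GK k K Γ) :=
          map_add π _ _
        rw [h1]
        exact Submodule.add_mem _ hx hy
      | tmul c a =>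
        have h1 : ((c ⊗ₜ[k] a : K ⊗[k] Γ) : GK k K Γ) =
            algebraMap (MvPolynomial (Fin 3) K) (GK k K Γ) (C c) * GK.inc K Γ a := by
          have h2 : algebraMap (MvPolynomial (Fin 3) K) (GK k K Γ) (C c) =
              algebraMap K (GK k K Γ) c := by
            rw [← MvPolynomial.algebraMap_eq, ← IsScalarTower.algebraMap_apply]
          rw [h2]
          change (c ⊗ₜ[k] a : K ⊗[k] Γ) = (c ⊗ₜ[k] (1 : Γ)) * ((1 : K) ⊗ₜ[k] a)
          rw [Algebra.TensorProduct.tmul_mul_tmul, mul_one, one_mul]
        have h3 : π ((c ⊗ₜ[k] a : K ⊗[k] Γ) : GK k K Γ) =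
            algebraMap (KK K) Q (ev (C c)) * f a := by
          have h4 : π ((c ⊗ₜ[k] a : K ⊗[k] Γ) : GK k K Γ) =
              π (algebraMap (MvPolynomial (Fin 3) K) (GK k K Γ) (C c) * GK.inc K Γ a) :=
            congrArg π h1
          refine h4.trans ((map_mul π _ _).trans ?_)
          rw [hπ, hfa]
        rw [h3, ← Algebra.smul_def]
        exact Submodule.smul_mem _ _ (Submodule.subset_span
          ((hPm _).2 (Submodule.subset_span ⟨a, rfl⟩)))
    exact key z
  refine cen_ext (KK k) (KK K) Q P hfin hsp ?_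
  intro hsim
  let g : Γ →+* P := f.codRestrict P fun a => (hPm _).2 (Submodule.subset_span ⟨a, rfl⟩)
  refine hc P g ?_ ?_
  · intro p
    exact Subtype.ext (hfp p)
  · rw [eq_top_iff]
    rintro ⟨x, hx⟩ -
    have key : ∀ (x : Q) (hx : x ∈ Submodule.span (KK k) (Set.range f)),
        (⟨x, (hPm x).2 hx⟩ : P) ∈ Submodule.span (KK k) (Set.range g) := by
      intro x hx
      induction hx using Submodule.span_induction with
      | mem x hx =>
        obtain ⟨a, rfl⟩ := hx
        exact Submodule.subset_span ⟨a, rfl⟩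
      | zero => exact Submodule.zero_mem _
      | add x y hx hy ihx ihy => exact Submodule.add_mem _ ihx ihy
      | smul s x hx ih => exact Submodule.smul_mem _ s ih
    exact key x ((hPm x).1 hx)

/-- PROOF. Let `π' : K ⊗ Γ → Q` be given. `k(u, v) → K(u, v)` (`IsFractionRing.map` or `lift` of
`MvPolynomial.map (algebraMap k K)`, injective) makes `Q` an algebra over `F = k(u, v)`. Let `P` be
the `F`-span of `π' (1 ⊗ Γ)`: a subalgebra, finite-dimensional because `Γ` is finitely generated
over `k[x_0, x_1, x_2]` and these act through `F` (`GK.algebraMap_map`); it spans `Q` over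
`K(u, v)`. Apply `cen_ext`, with the hypothesis for the homomorphism `Γ → P`. -/
theorem CenG.ext (hf : Module.Finite (MvPolynomial (Fin 3) k) Γ) (hc : CenG k Γ) :
    CenG K (GK k K Γ) := by
  intro Q _ _ _ _ π hπ hs
  let _ : Algebra (KK k) (KK K) := (GrK_i k K).toAlgebra
  let _ : Algebra (KK k) Q := ((algebraMap (KK K) Q).comp (GrK_i k K)).toAlgebra'
    (fun c x => Algebra.commutes (GrK_i k K c) x)
  have _ : IsScalarTower (KK k) (KK K) Q := IsScalarTower.of_algebraMap_eq (fun _ => rfl)
  exact GrK_aux K hf hc Q (fun p => GrK_ev K p) π hπ hs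

end Pool.Agent.MP_6e5bed_ag_NS
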