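import Pool.Agent.Lib.MP_6e5bed_ag_NS.StB
import Pool.Agent.Lib.MP_6e5bed_ag_SP.RepA

set_option autoImplicit false

/-!
# MP_6e5bed_ag, NC SURFACES: comparison of the two descriptions of Čech dg algebras
-/

noncomputable section

namespace Pool.Agent.MP_6e5bed_ag_NS

open Pool.Agent.MP_6e5bed_ag_NC Pool.Agent.MP_6e5bed_ag_SP

universe u

variable {k : Type u} [Field k] {B : Set (Fin 3) → Type u} [∀ I, Ring (B I)]
  [∀ I, Algebra k (B I)] {r : ∀ {I J : Set (Fin 3)}, I ⊆ J → B I →ₐ[k] B J}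

private theorem StC_ne {V : Type u} [AddCommGroup V] [Module k V]
    (X : Pool.Agent.MP_6e5bed_ag_SP.Cx k V) {n : ℤ} (h0 : n ≠ 0) (h1 : n ≠ 1) (h2 : n ≠ 2)
    {v v0 v1 v2 : V} (hv : v ∈ X.gr n)
    (hv0 : v0 ∈ X.gr 0) (hv1 : v1 ∈ X.gr 1) (hv2 : v2 ∈ X.gr 2) (h : v = v0 + v1 + v2) :
    v = 0 := by
  have e : X.toDg.ρ v = Finsupp.single n v := ((Cx.toDg_rep X).mem n v).1 hv
  have e0 : X.toDg.ρ v0 = Finsupp.single 0 v0 := ((Cx.toDg_rep X).mem 0 v0).1 hv0
  have e1 : X.toDg.ρ v1 = Finsupp.single 1 v1 := ((Cx.toDg_rep X).mem 1 v1).1 hv1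
  have e2 : X.toDg.ρ v2 = Finsupp.single 2 v2 := ((Cx.toDg_rep X).mem 2 v2).1 hv2
  have h3 : X.toDg.ρ v = X.toDg.ρ v0 + X.toDg.ρ v1 + X.toDg.ρ v2 := by
    rw [← map_add, ← map_add, ← h]
  rw [e, e0, e1, e2] at h3
  have h4 := DFunLike.congr_fun h3 n
  rw [Finsupp.add_apply, Finsupp.add_apply, Finsupp.single_eq_same,
    Finsupp.single_eq_of_ne h0, Finsupp.single_eq_of_ne h1, Finsupp.single_eq_of_ne h2,
    add_zero, add_zero] at h4
  exact h4

/-- As in StRep.lean of the curve library (`IsCech.exists_rep`). -/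
theorem cech3_rep {T : Type u} [Ring T] [Algebra k T] {X : DG k T} {e : T ≃ₗ[k] CoT B}
    (h : IsCech3 r X e) {T' : DGA k} {E : T'.A ≃ₗ[k] CoT B} (h' : IsCechD r T' E) :
    Nonempty (Rep X T') := by
  have he : ∀ v : T, E (e.trans E.symm v) = e v := fun v => E.apply_symm_apply (e v)
  have hd0 : ∀ v : T, e.symm (((e v).1.1, 0), 0) ∈ X.gr 0 := fun v => by
    rw [h.gr0, e.apply_symm_apply]
    exact ⟨rfl, rfl⟩
  have hd1 : ∀ v : T, e.symm ((0, (e v).1.2), 0) ∈ X.gr 1 := fun v => by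
    rw [h.gr1, e.apply_symm_apply]
    exact ⟨rfl, rfl⟩
  have hd2 : ∀ v : T, e.symm ((0, 0), (e v).2) ∈ X.gr 2 := fun v => by
    rw [h.gr2, e.apply_symm_apply]
    exact ⟨rfl, rfl⟩
  have hsum : ∀ v : T, v = e.symm (((e v).1.1, 0), 0) + e.symm ((0, (e v).1.2), 0) +
      e.symm ((0, 0), (e v).2) := fun v => by
    rw [← map_add, ← map_add]
    apply e.injective
    rw [e.apply_symm_apply]
    refine Prod.ext (Prod.ext ?_ ?_) ?_
    · change (e v).1.1 = (e v).1.1 + 0 + 0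
      rw [add_zero, add_zero]
    · change (e v).1.2 = 0 + (e v).1.2 + 0
      rw [add_zero, zero_add]
    · change (e v).2 = 0 + 0 + (e v).2
      rw [add_zero, zero_add]
  refine ⟨⟨e.trans E.symm, ?_, fun a b => ?_, ⟨fun n v => ?_, fun v => ?_⟩⟩⟩
  · apply E.injective
    rw [he, h.one, h'.one]
  · apply E.injective
    rw [he, h.mul, h'.mul, he, he]
  · by_cases h0 : n = 0
    · subst h0
      rw [h'.gr0, he]
      exact h.gr0 v
    by_cases h1 : n = 1
    · subst h1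
      rw [h'.gr1, he]
      exact h.gr1 v
    by_cases h2 : n = 2
    · subst h2
      rw [h'.gr2, he]
      exact h.gr2 v
    constructor
    · intro hv
      have h3 := StC_ne X.toCx h0 h1 h2 hv (hd0 v) (hd1 v) (hd2 v) (hsum v)
      rw [h3, map_zero]
      exact Dg.IsDeg.zero _
    · intro hv
      have h3 := h'.gr n _ h0 h1 h2 hv
      have h4 : v = 0 := by
        apply (e.trans E.symm).injective
        rw [h3, map_zero]
      rw [h4]
      exact Submodule.zero_mem _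
  · apply E.injective
    rw [he, h'.d, he]
    exact h.d v

theorem cech3_of {T' : DGA k} {E : T'.A ≃ₗ[k] CoT B} (h' : IsCechD r T' E) :
    ∃ e : RA T' ≃ₗ[k] CoT B, IsCech3 r (DG.of T') e := by
  refine ⟨(repOf T').e.trans E, ?_, fun a b => ?_, fun a => ?_, fun a => ?_, fun a => ?_,
    fun a => ?_⟩
  · change E ((repOf T').e 1) = _
    rw [(repOf T').one, h'.one]
  · change E ((repOf T').e (a * b)) = _
    rw [(repOf T').mul, h'.mul]
    rfl
  · exact ((repOf T').rep.mem 0 a).trans (h'.gr0 _)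
  · exact ((repOf T').rep.mem 1 a).trans (h'.gr1 _)
  · exact ((repOf T').rep.mem 2 a).trans (h'.gr2 _)
  · change E ((repOf T').e ((DG.of T').d a)) = _
    have h1 := (repOf T').rep.d a
    refine (congrArg E h1).trans ?_
    rw [h'.d]
    rfl

end Pool.Agent.MP_6e5bed_ag_NS
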