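import Pool.Agent.Lib.MP_6e5bed_ag_NS.StA

set_option autoImplicit false
set_option linter.unusedSectionVars false

/-!
# MP_6e5bed_ag, NC SURFACES: base change of Čech dg algebras
-/

noncomputable section

namespace Pool.Agent.MP_6e5bed_ag_SP

universe u

variable {k K T T' : Type u} [Field k] [Field K] [Algebra k K] [Ring T] [Algebra k T] [Ring T']
  [Algebra K T'] [Algebra k T'] [IsScalarTower k K T'] {B B' : Set (Fin 3) → Type u}
  [∀ I, Ring (B I)] [∀ I, Algebra k (B I)] [∀ I, Ring (B' I)] [∀ I, Algebra K (B' I)]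
  [∀ I, Algebra k (B' I)] [∀ I, IsScalarTower k K (B' I)]
  {r : ∀ {I J : Set (Fin 3)}, I ⊆ J → B I →ₐ[k] B J}
  {r' : ∀ {I J : Set (Fin 3)}, I ⊆ J → B' I →ₐ[K] B' J}

/-- The map of the Čech cochains. -/
private def StD_m (j : ∀ I, B I →ₐ[k] B' I) : CoT B →ₗ[k] CoT B' :=
  (((j {0}).toLinearMap.prodMap ((j {1}).toLinearMap.prodMap (j {2}).toLinearMap)).prodMap
    ((j {0, 1}).toLinearMap.prodMap ((j {0, 2}).toLinearMap.prodMap
      (j {1, 2}).toLinearMap))).prodMap (j Set.univ).toLinearMap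

private theorem StD_apply (j : ∀ I, B I →ₐ[k] B' I) (x : CoT B) : StD_m j x =
    (((j {0} x.1.1.1, j {1} x.1.1.2.1, j {2} x.1.1.2.2),
      (j {0, 1} x.1.2.1, j {0, 2} x.1.2.2.1, j {1, 2} x.1.2.2.2)), j Set.univ x.2) := rfl

private theorem StD_bc (j : ∀ I, B I →ₐ[k] B' I)
    (hj : ∀ I : Set (Fin 3), I.Nonempty → IsBaseChange K (j I).toLinearMap) :
    IsBaseChange K (StD_m j) := by
  have h0 := hj {0} (Set.singleton_nonempty _)
  have h1 := hj {1} (Set.singleton_nonempty _)
  have h2 := hj {2} (Set.singleton_nonempty _)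
  have h01 := hj {0, 1} (Set.insert_nonempty _ _)
  have h02 := hj {0, 2} (Set.insert_nonempty _ _)
  have h12 := hj {1, 2} (Set.insert_nonempty _ _)
  have h012 := hj Set.univ Set.univ_nonempty
  exact (((h0.prodMap _ _ (h1.prodMap _ _ h2)).prodMap _ _
    (h01.prodMap _ _ (h02.prodMap _ _ h12))).prodMap _ _ h012)

private theorem StD_cup (j : ∀ I, B I →ₐ[k] B' I)
    (hr : ∀ {I J : Set (Fin 3)} (hI : I ⊆ J) b, r' hI (j I b) = j J (r hI b)) (x y : CoT B) :
    StD_m j (cup3 r x y) = cup3 r' (StD_m j x) (StD_m j y) := by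
  rw [StD_apply, StD_apply, StD_apply]
  unfold cup3
  simp only [map_mul, map_add, hr]

private theorem StD_dif (j : ∀ I, B I →ₐ[k] B' I)
    (hr : ∀ {I J : Set (Fin 3)} (hI : I ⊆ J) b, r' hI (j I b) = j J (r hI b)) (x : CoT B) :
    StD_m j (dif3 r x) = dif3 r' (StD_m j x) := by
  rw [StD_apply, StD_apply]
  unfold dif3
  simp only [map_sub, map_add, map_zero, hr]

/-- The homogeneous elements of the other degrees are zero. -/
private theorem StD_zero {X : DG k T} {e : T ≃ₗ[k] CoT B} (h : IsCech3 r X e) {n : ℤ}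
    (h0 : 0 ≠ n) (h1 : 1 ≠ n) (h2 : 2 ≠ n) {a : T} (ha : a ∈ X.gr n) : a = 0 := by
  have hd := X.internal.submodule_iSupIndep n
  rw [Submodule.disjoint_def] at hd
  refine hd a ha ?_
  have e0 : e.symm (((e a).1.1, 0), 0) ∈ X.gr 0 := by
    rw [h.gr0, LinearEquiv.apply_symm_apply]
    exact ⟨rfl, rfl⟩
  have e1 : e.symm ((0, (e a).1.2), 0) ∈ X.gr 1 := by
    rw [h.gr1, LinearEquiv.apply_symm_apply]
    exact ⟨rfl, rfl⟩
  have e2 : e.symm ((0, 0), (e a).2) ∈ X.gr 2 := by
    rw [h.gr2, LinearEquiv.apply_symm_apply]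
    exact ⟨rfl, rfl⟩
  have ea : a = e.symm (((e a).1.1, 0), 0) + e.symm ((0, (e a).1.2), 0) +
      e.symm ((0, 0), (e a).2) := by
    apply e.injective
    rw [map_add, map_add, LinearEquiv.apply_symm_apply, LinearEquiv.apply_symm_apply,
      LinearEquiv.apply_symm_apply]
    refine Prod.ext (Prod.ext ?_ ?_) ?_
    · change (e a).1.1 = (e a).1.1 + 0 + 0
      rw [add_zero, add_zero]
    · change (e a).1.2 = 0 + (e a).1.2 + 0
      rw [add_zero, zero_add]
    · change (e a).2 = 0 + 0 + (e a).2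
      rw [zero_add, zero_add]
  rw [ea]
  have hm : ∀ {j : ℤ} {b : T}, j ≠ n → b ∈ X.gr j → b ∈ ⨆ i, ⨆ (_ : i ≠ n), X.gr i :=
    fun {j b} hjn hb => Submodule.mem_iSup_of_mem j (Submodule.mem_iSup_of_mem hjn hb)
  exact Submodule.add_mem _ (Submodule.add_mem _ (hm h0 e0) (hm h1 e1)) (hm h2 e2)

/-- If the sheaf `B'` over `K` is the base change of the sheaf `B` over `k`, then the Čech dg
algebra of `B'` is the base change of the Čech dg algebra of `B`. PROOF. `i = e'⁻¹ (j × ... × j) e`.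
`IsBaseChange` for products (`IsBaseChange.prodMap` or by hand) and equivalences
(`IsBaseChange.comp`, `IsBaseChange.ofEquiv`); homogeneous elements of the degrees other than
`0, 1, 2` are zero (`X.internal`: decompose into the components of degree `0, 1, 2`). -/
theorem cech3_bc {X : DG k T} {e : T ≃ₗ[k] CoT B} (h : IsCech3 r X e) {X' : DG K T'}
    {e' : T' ≃ₗ[K] CoT B'} (h' : IsCech3 r' X' e') (j : ∀ I, B I →ₐ[k] B' I)
    (hj : ∀ I : Set (Fin 3), I.Nonempty → IsBaseChange K (j I).toLinearMap)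
    (hr : ∀ {I J : Set (Fin 3)} (hI : I ⊆ J) b, r' hI (j I b) = j J (r hI b)) :
    ∃ i : T →ₐ[k] T', IsBc X X' i := by
  let f : T →ₗ[k] T' := (e'.symm.restrictScalars k).toLinearMap ∘ₗ StD_m j ∘ₗ e.toLinearMap
  have hf : ∀ a, e' (f a) = StD_m j (e a) := fun a => by
    change e' (e'.symm (StD_m j (e a))) = _
    rw [LinearEquiv.apply_symm_apply]
  have hone : f 1 = 1 := by
    apply e'.injective
    rw [hf, h.one, h'.one, StD_apply]
    simp only [map_one, map_zero]
  have hmul : ∀ a b, f (a * b) = f a * f b := fun a b => by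
    apply e'.injective
    rw [hf, h.mul, h'.mul, hf, hf, StD_cup j hr]
  refine ⟨AlgHom.ofLinearMap f hone hmul, ?_, ?_, ?_⟩
  · have h1 : (AlgHom.ofLinearMap f hone hmul).toLinearMap = f := rfl
    rw [h1]
    refine (IsBaseChange.iff_of_equiv_comm (f := StD_m j) (f' := f) e.symm e'.symm ?_).1
      (StD_bc j hj)
    refine LinearMap.ext fun x => ?_
    change e'.symm (StD_m j (e (e.symm x))) = e'.symm (StD_m j x)
    rw [LinearEquiv.apply_symm_apply]
  · intro n a ha
    change f a ∈ X'.gr n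
    by_cases h0 : 0 = n
    · subst h0
      rw [h.gr0] at ha
      rw [h'.gr0, hf, StD_apply]
      obtain ⟨h1, h2⟩ := ha
      rw [h1, h2]
      simp only [Prod.fst_zero, Prod.snd_zero, map_zero, Prod.mk_zero_zero, and_self]
    · by_cases h1 : 1 = n
      · subst h1
        rw [h.gr1] at ha
        rw [h'.gr1, hf, StD_apply]
        obtain ⟨h1, h2⟩ := ha
        rw [h1, h2]
        simp only [Prod.fst_zero, Prod.snd_zero, map_zero, Prod.mk_zero_zero, and_self]
      · by_cases h2 : 2 = n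
        · subst h2
          rw [h.gr2] at ha
          rw [h'.gr2, hf, StD_apply]
          obtain ⟨h1, h2⟩ := ha
          rw [h1, h2]
          simp only [Prod.fst_zero, Prod.snd_zero, map_zero, Prod.mk_zero_zero, and_self]
        · rw [StD_zero h h0 h1 h2 ha, map_zero]
          exact Submodule.zero_mem _
  · intro a
    change X'.d (f a) = f (X.d a)
    apply e'.injective
    rw [h'.d, hf, hf, h.d, StD_dif j hr]

end Pool.Agent.MP_6e5bed_ag_SP
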