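import Pool.Agent.Lib.MP_6e5bed_ag_NS.GrT

set_option autoImplicit false

/-!
# MP_6e5bed_ag, NC SURFACES: the coherent sheaf of algebras of a graded algebra
-/

noncomputable section

namespace Pool.Agent.MP_6e5bed_ag_NS

open MvPolynomial

universe u

variable {k : Type u} [Field k]
  {Γ : Type u} [Ring Γ] [Algebra k Γ] [Algebra (MvPolynomial (Fin 3) k) Γ]
  [IsScalarTower k (MvPolynomial (Fin 3) k) Γ] {𝒢 : ℕ → Submodule k Γ}

/-- The sections of `Γ~` on a chart: the degree zero part of the localisation. -/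
def GS (h : IsGrAlg 𝒢) (c : Ch k) : Type u := Dz h (linS c)

instance (h : IsGrAlg 𝒢) (c : Ch k) : Ring (GS h c) := inferInstanceAs (Ring (Dz h (linS c)))

instance (h : IsGrAlg 𝒢) (c : Ch k) : Algebra k (GS h c) :=
  inferInstanceAs (Algebra k (Dz h (linS c)))

/-- functions -/
def GS.th (h : IsGrAlg 𝒢) (c : Ch k) : RR k c →ₐ[k] GS h c :=
  Pool.Agent.MP_6e5bed_ag_NS.th h c

instance (h : IsGrAlg 𝒢) (c : Ch k) : Module (RR k c) (GS h c) :=
  Module.compHom (GS h c) (GS.th h c).toRingHom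

theorem GS.smul_def (h : IsGrAlg 𝒢) (c : Ch k) (r : RR k c) (z : GS h c) :
    r • z = GS.th h c r * z := rfl

instance (h : IsGrAlg 𝒢) (c : Ch k) : IsScalarTower k (RR k c) (GS h c) :=
  ⟨fun s r z => by
    rw [GS.smul_def, GS.smul_def, map_smul, smul_mul_assoc]⟩

/-- restriction -/
def GS.res (h : IsGrAlg 𝒢) {c d : Ch k} (hcd : c ≤ d) : GS h c →ₐ[k] GS h d :=
  Dz.map h (linS_mono hcd)

theorem GS.comm (h : IsGrAlg 𝒢) (c : Ch k) (r : RR k c) (z : GS h c) :
    GS.th h c r * z = z * GS.th h c r := th_comm h c r z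

private theorem GrB_pow {c : Ch k} {g : LF k} (hg : g ∈ c.1) (n : ℕ) :
    (lin g.1) ^ n ∈ Submonoid.closure (linS c) :=
  pow_mem (Submonoid.subset_closure (s := linS c) ⟨g, hg, rfl⟩) n

private theorem GrB_ext (h : IsGrAlg 𝒢) {c : Ch k} {z w : GS h c}
    (e : (show Dz h (linS c) from z).1 = (show Dz h (linS c) from w).1) : z = w := Subtype.ext e

private theorem GrB_res (h : IsGrAlg 𝒢) {c d : Ch k} (hcd : c ≤ d) (z : Dz h (linS c)) :
    (Dz.map h (linS_mono hcd) z).1 = Lz.map (linS_mono hcd) z.1 := rfl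

private theorem GrB_mk (h : IsGrAlg 𝒢) {c : Ch k} (z : GS h c) :
    ∃ (n : ℕ) (a : Γ) (t : Submonoid.closure (linS c)), a ∈ 𝒢 n ∧
      (t : MvPolynomial (Fin 3) k).IsHomogeneous n ∧
      (show Dz h (linS c) from z).1 = LocalizedModule.mk a t :=
  (show Dz h (linS c) from z).2

private theorem GrB_res_mk (h : IsGrAlg 𝒢) {c d : Ch k} (hcd : c ≤ d) (z : GS h c) {a : Γ}
    {t : Submonoid.closure (linS c)}
    (e : (show Dz h (linS c) from z).1 = LocalizedModule.mk a t) :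
    (show Dz h (linS d) from GS.res h hcd z).1 =
      LocalizedModule.mk a ⟨t.1, Submonoid.closure_mono (linS_mono hcd) t.2⟩ := by
  have h1 : (show Dz h (linS d) from GS.res h hcd z).1 =
      Lz.map (linS_mono hcd) (show Dz h (linS c) from z).1 := rfl
  rw [h1, e, Lz.map_mk]

private theorem GrB_quo (h : IsGrAlg 𝒢) {c : Ch k} {g : LF k} (hg : g ∈ c.1) (ℓ : LF k) (n : ℕ)
    (z : GS h c) {a : Γ} {t : Submonoid.closure (linS c)}
    (e : (show Dz h (linS c) from z).1 = LocalizedModule.mk a t) :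
    (show Dz h (linS c) from quo ℓ.1 hg ^ n • z).1 =
      LocalizedModule.mk ((lin ℓ.1) ^ n • a)
        (⟨(lin g.1) ^ n, GrB_pow hg n⟩ * t) := by
  have h1 : (show Dz h (linS c) from quo ℓ.1 hg ^ n • z) =
      Pool.Agent.MP_6e5bed_ag_NS.th h c (quo ℓ.1 hg ^ n) * (show Dz h (linS c) from z) := rfl
  have hl : ((lin ℓ.1 : MvPolynomial (Fin 3) k) ^ n).IsHomogeneous n := by
    have := (lin_hom ℓ.1).pow n
    rwa [one_mul] at this
  have hg' : ((lin g.1 : MvPolynomial (Fin 3) k) ^ n).IsHomogeneous n := by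
    have := (lin_hom g.1).pow n
    rwa [one_mul] at this
  have h2 : ((quo ℓ.1 hg ^ n : RR k c) : KK k) =
      ev ((lin ℓ.1 : MvPolynomial (Fin 3) k) ^ n) / ev ((lin g.1) ^ n) := by
    unfold ev
    rw [map_pow, map_pow]
    have h3 := ev_lin ℓ.1
    have h4 := ev_lin g.1
    unfold ev at h3 h4
    rw [h3, h4, ← div_pow]
    rfl
  have h3 := th_spec h c (quo ℓ.1 hg ^ n) n _ _ hl hg'
    (GrB_pow hg n) h2
  rw [h1, Subalgebra.coe_mul, h3, e, LocalizedModule.mk_mul_mk, Algebra.smul_def]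

private theorem GrB_split {c d : Ch k} {ℓ : LF k} (hd : d ≤ c.ins ℓ) {t : MvPolynomial (Fin 3) k}
    (ht : t ∈ Submonoid.closure (linS d)) :
    ∃ t' ∈ Submonoid.closure (linS c), ∃ n : ℕ, t = t' * (lin ℓ.1) ^ n := by
  have h1 : linS d ⊆ linS c ∪ {lin ℓ.1} := by
    rintro p ⟨m, hm, rfl⟩
    rcases hd hm with h | h
    · right
      rw [h]
      rfl
    · exact Or.inl ⟨m, h, rfl⟩
  have h2 := Submonoid.closure_mono h1 ht
  rw [Submonoid.closure_union, Submonoid.mem_sup] at h2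
  obtain ⟨y, hy, z, hz, hyz⟩ := h2
  obtain ⟨n, rfl⟩ := Submonoid.mem_closure_singleton.1 hz
  exact ⟨y, hy, n, hyz.symm⟩

theorem GS.res_th (h : IsGrAlg 𝒢) {c d : Ch k} (hcd : c ≤ d) (r : RR k c) :
    GS.res h hcd (GS.th h c r) = GS.th h d (rinc hcd r) := by
  obtain ⟨n, P, t, hP, ht, hc, hr⟩ := exists_frac r.2
  have h1 := th_spec h c r n P t hP ht hc hr
  have h2 := th_spec h d (rinc hcd r) n P t hP ht
    (Submonoid.closure_mono (linS_mono hcd) hc) (by rw [rinc_coe]; exact hr)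
  refine GrB_ext h ?_
  exact (GrB_res_mk h hcd (GS.th h c r) h1).trans h2.symm

theorem GS.res_id (h : IsGrAlg 𝒢) {c : Ch k} (hc : c ≤ c) (z : GS h c) :
    GS.res h hc z = z := by
  obtain ⟨n, a, t, ha, ht, e⟩ := GrB_mk h z
  refine GrB_ext h ?_
  exact (GrB_res_mk h hc z e).trans e.symm

theorem GS.res_res (h : IsGrAlg 𝒢) {c d e : Ch k} (hc : c ≤ d) (hd : d ≤ e) (z : GS h c) :
    GS.res h hd (GS.res h hc z) = GS.res h (hc.trans hd) z := by
  obtain ⟨n, a, t, ha, ht, e⟩ := GrB_mk h z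
  refine GrB_ext h ?_
  have h1 := GrB_res_mk h hc z e
  exact (GrB_res_mk h hd (GS.res h hc z) h1).trans (GrB_res_mk h (hc.trans hd) z e).symm

/-- A fraction `a / t`, `t` in the multiplicative set of `c ∪ ℓ`, `t = t' ℓ ^ n`: multiplied with
`(ℓ / g) ^ n` it is the restriction of `a / (t' g ^ n)`. -/
theorem GS.surj (h : IsGrAlg 𝒢) {c d : Ch k} (hc : c ≤ d) {g : LF k} (hg : g ∈ c.1) (ℓ : LF k)
    (hd : d ≤ c.ins ℓ) (z : GS h d) :
    ∃ (n : ℕ) (z' : GS h c), GS.res h hc z' = quo ℓ.1 (hc hg) ^ n • z := by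
  obtain ⟨m, a, t, ha, ht, e⟩ := GrB_mk h z
  obtain ⟨t', ht', n, htn⟩ := GrB_split hd t.2
  have hl : ((lin ℓ.1 : MvPolynomial (Fin 3) k) ^ n).IsHomogeneous n := by
    have := (lin_hom ℓ.1).pow n
    rwa [one_mul] at this
  have hg' : ((lin g.1 : MvPolynomial (Fin 3) k) ^ n).IsHomogeneous n := by
    have := (lin_hom g.1).pow n
    rwa [one_mul] at this
  obtain ⟨m', hm'⟩ := closure_hom (s := linS c)
    (by rintro p ⟨q, hq, rfl⟩; exact lin_hom _) ht'
  have ht0 : (t : MvPolynomial (Fin 3) k) ≠ 0 := by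
    intro h0
    refine linS_ne t.2 ?_
    rw [h0]
    unfold ev
    rw [map_zero]
  have hmm : m = m' + n := by
    have h1 : (t : MvPolynomial (Fin 3) k).IsHomogeneous (m' + n) := by
      rw [htn]
      exact hm'.mul hl
    exact ht.inj_right h1 ht0
  have hmem : t' * (lin g.1) ^ n ∈ Submonoid.closure (linS c) :=
    mul_mem ht' (GrB_pow hg n)
  have hhom : (t' * (lin g.1) ^ n : MvPolynomial (Fin 3) k).IsHomogeneous m := by
    rw [hmm]
    exact hm'.mul hg'
  refine ⟨n, (⟨LocalizedModule.mk a ⟨t' * (lin g.1) ^ n, hmem⟩,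
    m, a, ⟨t' * (lin g.1) ^ n, hmem⟩, ha, hhom, rfl⟩ : Dz h (linS c)), GrB_ext h ?_⟩
  refine (GrB_res_mk h hc _ rfl).trans ((GrB_quo h (hc hg) ℓ n z e).trans ?_).symm
  rw [LocalizedModule.mk_eq]
  refine ⟨1, ?_⟩
  rw [one_smul, one_smul]
  change (t' * (lin g.1) ^ n) • (lin ℓ.1) ^ n • a =
    ((lin g.1) ^ n * (t : MvPolynomial (Fin 3) k)) • a
  rw [smul_smul, htn]
  congr 1
  ring

/-- If `a / s` vanishes in the localisation for `d` then `t' ℓ ^ n a = 0` with `t'` in the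
multiplicative set of `c`, so `(ℓ / g) ^ n (a / s) = 0`. -/
theorem GS.inj (h : IsGrAlg 𝒢) {c d : Ch k} (hc : c ≤ d) {g : LF k} (hg : g ∈ c.1) (ℓ : LF k)
    (hd : d ≤ c.ins ℓ) (z : GS h c) (hz : GS.res h hc z = 0) : ∃ n : ℕ, quo ℓ.1 hg ^ n • z = 0 := by
  obtain ⟨m, a, t, ha, ht, e⟩ := GrB_mk h z
  have h1 := GrB_res_mk h hc z e
  rw [hz] at h1
  have h2 : (LocalizedModule.mk a ⟨t.1, Submonoid.closure_mono (linS_mono hc) t.2⟩ :
      Lz Γ (linS d)) = 0 := h1.symm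
  rw [← LocalizedModule.zero_mk 1, LocalizedModule.mk_eq] at h2
  obtain ⟨v, hv⟩ := h2
  rw [smul_zero, smul_zero, one_smul] at hv
  obtain ⟨t', ht', n, htn⟩ := GrB_split hd v.2
  refine ⟨n, GrB_ext h ?_⟩
  refine (GrB_quo h hg ℓ n z e).trans ?_
  change LocalizedModule.mk _ _ = (0 : Lz Γ (linS c))
  rw [← LocalizedModule.zero_mk 1, LocalizedModule.mk_eq]
  refine ⟨⟨t', ht'⟩, ?_⟩
  rw [smul_zero, smul_zero, one_smul]
  change t' • (lin ℓ.1) ^ n • a = 0
  have hv' : (v : MvPolynomial (Fin 3) k) • a = 0 := hv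
  rw [smul_smul, ← htn]
  exact hv'

/-- The sheaf of algebras `Γ~`. -/
def gsh (h : IsGrAlg 𝒢) : ASh k where
  M := GS h
  res := fun hcd => (GS.res h hcd).toLinearMap
  res_smul := fun hcd r m => by
    change GS.res h hcd (GS.th h _ r * m) = GS.th h _ (rinc hcd r) * GS.res h hcd m
    rw [map_mul, GS.res_th]
  res_id := fun hc m => GS.res_id h hc m
  res_res := fun hc hd m => GS.res_res h hc hd m
  surj := fun {_ _} hc {_} hg ℓ hd m => GS.surj h hc hg ℓ hd m
  inj := fun {_ _} hc {_} hg ℓ hd m hm => GS.inj h hc hg ℓ hd m hm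
  mul := fun c => LinearMap.mul k (GS h c)
  one := fun c => 1
  one_mul := fun c a => one_mul a
  mul_one := fun c a => mul_one a
  mul_assoc := fun c a b e => mul_assoc a b e
  smul_mul := fun c r a b => by
    change GS.th h c r * a * b = GS.th h c r * (a * b)
    rw [mul_assoc]
  mul_smul := fun c r a b => by
    change a * (GS.th h c r * b) = GS.th h c r * (a * b)
    rw [← mul_assoc, ← GS.comm, mul_assoc]
  res_one := fun hcd => map_one (GS.res h hcd)
  res_mul := fun hcd a b => map_mul (GS.res h hcd) a b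

end Pool.Agent.MP_6e5bed_ag_NS
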