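import Pool.Agent.Lib.MP_6e5bed_ag_NS.StB
import Pool.Agent.Lib.MP_6e5bed_ag_NS.GrB

set_option autoImplicit false

/-!
# MP_6e5bed_ag, NC SURFACES: the Čech dg algebra of a graded algebra
-/

noncomputable section

namespace Pool.Agent.MP_6e5bed_ag_NS

open MvPolynomial Pool.Agent.MP_6e5bed_ag_NC Pool.Agent.MP_6e5bed_ag_SP

universe u

variable {k : Type u} [Field k] {Γ : Type u} [Ring Γ] [Algebra k Γ]
  [Algebra (MvPolynomial (Fin 3) k) Γ] [IsScalarTower k (MvPolynomial (Fin 3) k) Γ]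
  {𝒢 : ℕ → Submodule k Γ}

/-- the sections of `Γ~` on the intersection of the charts `x_i ≠ 0`, `i ∈ I` -/
abbrev GB (h : IsGrAlg 𝒢) (I : Set (Fin 3)) : Type u := Dz h (X '' I)

/-- the restrictions -/
def grR (h : IsGrAlg 𝒢) {I J : Set (Fin 3)} (hI : I ⊆ J) : GB h I →ₐ[k] GB h J :=
  Dz.map h (Set.image_mono hI)

theorem linS_co {I : Set (Fin 3)} (hI : I.Nonempty) :
    linS (Ch.co I hI : Ch k) = X '' I := by
  ext p
  constructor
  · rintro ⟨ℓ, ⟨i, hi, rfl⟩, rfl⟩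
    exact ⟨i, hi, (lin_xx i).symm⟩
  · rintro ⟨i, hi, rfl⟩
    exact ⟨xx k i, ⟨i, hi, rfl⟩, (lin_xx i).symm⟩

theorem Dz.map_map (h : IsGrAlg 𝒢) {s t u : Set (MvPolynomial (Fin 3) k)} (hs : s ⊆ t)
    (ht : t ⊆ u) (z : Dz h s) : Dz.map h ht (Dz.map h hs z) = Dz.map h (hs.trans ht) z := by
  obtain ⟨z, n, a, p, ha, hp, rfl⟩ := z
  refine Subtype.ext ?_
  change Lz.map ht (Lz.map hs (LocalizedModule.mk a p)) =
    Lz.map (hs.trans ht) (LocalizedModule.mk a p)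
  rw [Lz.map_mk, Lz.map_mk, Lz.map_mk]

theorem Dz.map_self (h : IsGrAlg 𝒢) {s : Set (MvPolynomial (Fin 3) k)} (hs : s ⊆ s)
    (z : Dz h s) : Dz.map h hs z = z := by
  obtain ⟨z, n, a, p, ha, hp, rfl⟩ := z
  refine Subtype.ext ?_
  change Lz.map hs (LocalizedModule.mk a p) = LocalizedModule.mk a p
  rw [Lz.map_mk]

/-- the comparison on charts -/
def grφ (h : IsGrAlg 𝒢) (I : Set (Fin 3)) (hI : I.Nonempty) :
    GB h I ≃ₐ[k] (gsh h).R (Ch.co I hI) where
  toFun := fun z => (Dz.map h (linS_co hI).ge z : Dz h (linS (Ch.co I hI)))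
  invFun := fun z => Dz.map h (linS_co hI).le (z : Dz h (linS (Ch.co I hI)))
  left_inv := fun z => (Dz.map_map h _ _ z).trans (Dz.map_self h _ z)
  right_inv := fun z => (Dz.map_map h _ _ (z : Dz h (linS (Ch.co I hI)))).trans
    (Dz.map_self h _ z)
  map_mul' := fun x y => map_mul (Dz.map h (linS_co hI).ge) x y
  map_add' := fun x y => map_add (Dz.map h (linS_co hI).ge) x y
  commutes' := fun s => by
    have h1 := (Dz.map h (linS_co hI).ge : GB h I →ₐ[k] Dz h (linS (Ch.co I hI))).commutes s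
    refine h1.trans ?_
    rw [Algebra.algebraMap_eq_smul_one, Algebra.algebraMap_eq_smul_one]
    rfl

theorem grφ_apply (h : IsGrAlg 𝒢) (I : Set (Fin 3)) (hI : I.Nonempty) (z : GB h I) :
    grφ h I hI z = (Dz.map h (linS_co hI).ge z : Dz h (linS (Ch.co I hI))) := rfl

/-- The Čech dg algebra of `Γ~` in components. -/
theorem gr_cech (h : IsGrAlg 𝒢) :
    ∃ E : (TT (gsh h)).A ≃ₗ[k] CoT (GB h), IsCechD (grR h) (TT (gsh h)) E := by
  refine tt_cech (gsh h) (grR h) (grφ h) fun I J hI hJ hIJ b => ?_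
  have h1 := Dz.map_map h (Set.image_mono hIJ) (linS_co hJ).ge b
  have h2 := Dz.map_map h (linS_co hI).ge (linS_mono (co_mono hI hJ hIJ)) b
  exact h1.trans h2.symm

end Pool.Agent.MP_6e5bed_ag_NS
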