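import Pool.Agent.Lib.MP_6e5bed_ag_NS.MainA
import Pool.Agent.Lib.MP_6e5bed_ag_NS.CenB
import Pool.Agent.Lib.MP_6e5bed_ag_NS.GrC
import Pool.Agent.Lib.MP_6e5bed_ag_NS.GrF
import Pool.Agent.Lib.MP_6e5bed_ag_NS.GrJ
import Pool.Agent.Lib.MP_6e5bed_ag_NS.GrK
import Pool.Agent.Lib.MP_6e5bed_ag_NS.StC
import Pool.Agent.Lib.MP_6e5bed_ag_NS.StD
import Pool.Agent.Lib.MP_6e5bed_ag_NS.StE
import Pool.Agent.Lib.MP_6e5bed_ag_CV.StFinal
import Pool.Agent.Lib.MP_6e5bed_ag_SP.ModelC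

set_option autoImplicit false
set_option linter.unusedSectionVars false

/-!
# MP_6e5bed_ag, NC SURFACES: the final theorems
-/

noncomputable section

namespace Pool.Agent.MP_6e5bed_ag_NS

open CategoryTheory MonoidalCategory Pool.Agent.MP_6e5bed_ag Pool.Agent.MP_6e5bed_ag_NC
  Pool.Agent.MP_6e5bed_ag_SP

universe u

variable {k : Type u} [Field k]

/-- Theorem A for surfaces: the identity factors through `k` and curves. -/
theorem thmSA [IsAlgClosed k] (A : ASh k) (hA : A.toShf.Coh) (hc : A.Cen) (T : SP k)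
    (hT : T.alg = TT A) : ∃ (n : ℕ) (X : Fin n → SP k),
      (∀ i, (X i).alg = base k ∨ IsCurve (X i).alg) ∧ ∃ (f : ∀ i, T ⟶ X i) (g : ∀ i, X i ⟶ T),
        𝟙 T = ∑ i, f i ≫ g i := by
  obtain ⟨T, hs, hp⟩ := T
  obtain rfl : T = TT A := hT
  refine JS.exists_sum (Good := fun X => X = base k ∨ IsCurve X) ?_ ⟨TT A, hs, hp⟩ ?_
  · rintro X (rfl | hX)
    · exact smooth_base
    · exact smooth_curve X hX
  · exact one_mem_surf (Or.inl rfl) (fun W hW => ⟨smooth_curve W hW, Or.inr hW⟩) A hA hs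
      (fun G hG => gen_central hc G hG)

/-- Theorem B for surfaces over an algebraically closed field. -/
theorem thmSB_closed [IsAlgClosed k] (A : ASh k) (hA : A.toShf.Coh) (hc : A.Cen) (T : SP k)
    (hT : T.alg = TT A) (hC : ∀ W : SP k, IsCurve W.alg → KimuraFinite (U W)) :
    KimuraFinite (U T) := by
  obtain ⟨n, X, hX, f, g, hfg⟩ := thmSA A hA hc T hT
  refine kf_of_sum T X f g hfg fun i => ?_
  rcases hX i with h0 | h0
  · exact kf_base _ h0
  · exact hC _ h0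

variable {Γ : Type u} [Ring Γ] [Algebra k Γ] [Algebra (MvPolynomial (Fin 3) k) Γ]
  [IsScalarTower k (MvPolynomial (Fin 3) k) Γ] {𝒢 : ℕ → Submodule k Γ}

section

variable {T : Type u} [Ring T] [Algebra k T] {X : DG k T}
  {C : Type (u + 1)} [Category.{u + 1} C] [MonoidalCategory C]
  [SymmetricCategory C] [Preadditive C] [MonoidalPreadditive C] [Linear ℚ C] (H : NCMot k C)

/-- The smooth and proper dg algebra `RΓ(P², Γ~)`. -/
def spGr (h : IsGrAlg 𝒢) {e : T ≃ₗ[k] CoT (GB h)} (hX : IsCech3 (grR h) X e) (hs : SmPr X) :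
    SP k :=
  ⟨TT (gsh h), hs.smooth (cech3_rep hX (gr_cech h).choose_spec).some,
    hs.proper (cech3_rep hX (gr_cech h).choose_spec).some⟩

/-- Theorem A in all models. -/
theorem stSA [IsAlgClosed k] (h : IsGrAlg 𝒢) (hc : CenG k Γ) {e : T ≃ₗ[k] CoT (GB h)}
    (hX : IsCech3 (grR h) X e) (hs : SmPr X) :
    ∃ (n : ℕ) (W : Fin n → Type u) (_ : ∀ i, Ring (W i)) (_ : ∀ i, Algebra k (W i))
      (Y : ∀ i, DG k (W i)) (hY : ∀ i, SmPr (Y i)),
      (∀ i, Function.Bijective (algebraMap k (W i)) ∨ IsCurveDG (Y i)) ∧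
      ∃ (f : ∀ i, H.U X hs ⟶ H.U (Y i) (hY i)) (g : ∀ i, H.U (Y i) (hY i) ⟶ H.U X hs),
        𝟙 (H.U X hs) = ∑ i, f i ≫ g i := by
  obtain ⟨φ⟩ := H.exists_iso hs (B := spGr h hX hs)
    (cech3_rep hX (gr_cech h).choose_spec).some
  obtain ⟨n, S, hS, f, g, hfg⟩ := thmSA (gsh h) (gsh_coh h) (cen_gsh h hc) (spGr h hX hs) rfl
  refine ⟨n, fun i => RA (S i).alg, fun i => inferInstance, fun i => inferInstance,
    fun i => DG.of (S i).alg, fun i => smPr_of (S i), fun i => ?_,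
    fun i => φ.hom ≫ H.F.map (f i), fun i => H.F.map (g i) ≫ φ.inv, ?_⟩
  · rcases hS i with h0 | h0
    · exact Or.inl (bij_base _ h0)
    · exact Or.inr (isCurveDG_of _ h0)
  · have h1 : H.F.map (𝟙 (spGr h hX hs)) = ∑ i, H.F.map (f i) ≫ H.F.map (g i) := by
      rw [hfg, Functor.map_sum]
      refine Finset.sum_congr rfl fun i _ => ?_
      rw [Functor.map_comp]
    rw [H.F.map_id] at h1
    exact sum_of_iso (B := H.F.obj (spGr h hX hs)) φ (fun i => H.F.map (f i))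
      (fun i => H.F.map (g i)) h1

end

/-- Theorem B over an arbitrary field, in all models. -/
theorem stSB (h : IsGrAlg 𝒢) (hc : CenG k Γ) {T : Type u} [Ring T] [Algebra k T] {X : DG k T}
    {e : T ≃ₗ[k] CoT (GB h)} (hX : IsCech3 (grR h) X e) (hs : SmPr X)
    {C : Type (u + 1)} [Category.{u + 1} C] [MonoidalCategory C]
    [SymmetricCategory C] [Preadditive C] [MonoidalPreadditive C] [Linear ℚ C] (H : NCMot k C)
    (K : Type u) [Field K] [Algebra k K] [IsAlgClosed K]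
    (hC : ∀ W : SP K, IsCurve W.alg → KimuraFinite (U W)) :
    KimuraFinite (H.U X hs) := by
  obtain ⟨j, hj, hr⟩ := GK.dz_bc K h
  obtain ⟨E', hE'⟩ := gr_cech (GK.isGr K h)
  obtain ⟨e', he'⟩ := cech3_of hE'
  let _ : Algebra k (RA (TT (gsh (GK.isGr K h)))) := Algebra.compHom _ (algebraMap k K)
  have _ : IsScalarTower k K (RA (TT (gsh (GK.isGr K h)))) :=
    IsScalarTower.of_algebraMap_eq (fun _ => rfl)
  obtain ⟨i, hi⟩ := cech3_bc hX he' j (fun I _ => hj I) hr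
  have hs' := hi.smPr hs
  rw [← kimuraFinite_bc H (nchowMot K) hs hs' hi,
    (nchowMot K).kimuraFinite_iff hs' (spOf _ hs') (repOf _)]
  exact thmSB_closed (gsh (GK.isGr K h)) (gsh_coh _) (cen_gsh _ (CenG.ext K h.fin hc)) _ rfl hC

end Pool.Agent.MP_6e5bed_ag_NS
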