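import Pool.Agent.Lib.MP_6e5bed_ag_NS.Qi

set_option autoImplicit false

/-!
# MP_6e5bed_ag, NC SURFACES: quasi-isomorphisms of Čech complexes
-/

noncomputable section

namespace Pool.Agent.MP_6e5bed_ag_NS

open Pool.Agent.MP_6e5bed_ag_NC

universe u

variable {k : Type u} [Field k]

/-- Proof: five lemma for `0 → X01[-1] → co → X0 × X1 → 0`, or directly: a cycle
`(x0, x1, ξ)` whose image is the boundary of `(y0, y1, υ)`: `x0 = d z0`, `x1 = d z1`; subtract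
`d (z0, z1, 0)`; the new `y0, y1` are cycles, so they are images of cycles up to boundaries; subtract
these too; then `y0 = y1 = 0` without loss of generality, and `ξ` is a cycle whose image is a
boundary. Surjectivity is similar. -/
theorem co_map_qi {X0 X1 X01 Y0 Y1 Y01 : Cx k} {r0 : CHom X0 X01} {r1 : CHom X1 X01}
    {s0 : CHom Y0 Y01} {s1 : CHom Y1 Y01} {f0 : CHom X0 Y0} {f1 : CHom X1 Y1}
    {f01 : CHom X01 Y01} (h0 : ∀ x, s0.f (f0.f x) = f01.f (r0.f x))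
    (h1 : ∀ x, s1.f (f1.f x) = f01.f (r1.f x)) (q0 : f0.QI) (q1 : f1.QI) (q01 : f01.QI) :
    (co.map r0 r1 s0 s1 f0 f1 f01 h0 h1).QI := by
  constructor
  · rintro ⟨⟨x0, x1⟩, ξ⟩ hx ⟨⟨⟨y0, y1⟩, υ⟩, hy⟩
    have ex := (co_d (r0 := r0) (r1 := r1) x0 x1 ξ).symm.trans hx
    have ey := (co_d (r0 := s0) (r1 := s1) y0 y1 υ).symm.trans hy
    have ex0 : X0.dg.d x0 = 0 := congrArg (fun z => z.1.1) ex
    have ex1 : X1.dg.d x1 = 0 := congrArg (fun z => z.1.2) ex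
    have exx : r1.f x1 - r0.f x0 - X01.dg.d ξ = 0 := congrArg (fun z => z.2) ex
    have ey0 : Y0.dg.d y0 = f0.f x0 := congrArg (fun z => z.1.1) ey
    have ey1 : Y1.dg.d y1 = f1.f x1 := congrArg (fun z => z.1.2) ey
    have eyy : s1.f y1 - s0.f y0 - Y01.dg.d υ = f01.f ξ := congrArg (fun z => z.2) ey
    obtain ⟨z0, hz0⟩ := q0.1 x0 ex0 ⟨y0, ey0⟩
    obtain ⟨z1, hz1⟩ := q1.1 x1 ex1 ⟨y1, ey1⟩
    obtain ⟨a0, ha0, b0, hb0⟩ := q0.2 (y0 - f0.f z0) (by
      rw [map_sub, ey0, f0.d, hz0, sub_self])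
    obtain ⟨a1, ha1, b1, hb1⟩ := q1.2 (y1 - f1.f z1) (by
      rw [map_sub, ey1, f1.d, hz1, sub_self])
    have e0 : f0.f (z0 + a0) = y0 - Y0.dg.d b0 := by
      rw [hb0, map_add]
      abel
    have e1 : f1.f (z1 + a1) = y1 - Y1.dg.d b1 := by
      rw [hb1, map_add]
      abel
    have hd0 : X0.dg.d (z0 + a0) = x0 := by rw [map_add, hz0, ha0, add_zero]
    have hd1 : X1.dg.d (z1 + a1) = x1 := by rw [map_add, hz1, ha1, add_zero]
    obtain ⟨ζ, hζ⟩ := q01.1 (ξ - (r1.f (z1 + a1) - r0.f (z0 + a0)))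
      (by
        rw [map_sub, map_sub, r1.d, r0.d, hd0, hd1]
        have := sub_eq_zero.1 exx
        rw [← this, sub_self])
      ⟨- υ + s1.f b1 - s0.f b0, by
        rw [map_sub, map_add, map_neg, s1.d, s0.d, map_sub, map_sub, ← h1, ← h0, e0, e1, ← eyy,
          map_sub, map_sub]
        abel⟩
    refine ⟨((z0 + a0, z1 + a1), -ζ), (co_d (r0 := r0) (r1 := r1) _ _ _).trans ?_⟩
    refine Prod.ext (Prod.ext hd0 hd1) ?_
    change r1.f (z1 + a1) - r0.f (z0 + a0) - X01.dg.d (-ζ) = ξ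
    rw [map_neg, hζ]
    abel
  · rintro ⟨⟨y0, y1⟩, υ⟩ hy
    have ey := (co_d (r0 := s0) (r1 := s1) y0 y1 υ).symm.trans hy
    have ey0 : Y0.dg.d y0 = 0 := congrArg (fun z => z.1.1) ey
    have ey1 : Y1.dg.d y1 = 0 := congrArg (fun z => z.1.2) ey
    have eyy : s1.f y1 - s0.f y0 - Y01.dg.d υ = 0 := congrArg (fun z => z.2) ey
    obtain ⟨a0, ha0, b0, hb0⟩ := q0.2 y0 ey0
    obtain ⟨a1, ha1, b1, hb1⟩ := q1.2 y1 ey1
    have e0 : f0.f a0 = y0 - Y0.dg.d b0 := by rw [hb0]; abel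
    have e1 : f1.f a1 = y1 - Y1.dg.d b1 := by rw [hb1]; abel
    obtain ⟨ξ, hξ⟩ := q01.1 (r1.f a1 - r0.f a0)
      (by rw [map_sub, r1.d, r0.d, ha0, ha1, map_zero, map_zero, sub_self])
      ⟨υ - s1.f b1 + s0.f b0, by
        rw [map_add, map_sub, s1.d, s0.d, map_sub, ← h1, ← h0, e0, e1, map_sub, map_sub,
          ← sub_eq_zero.1 eyy]
        abel⟩
    obtain ⟨α, hα, β, hβ⟩ := q01.2 (υ - f01.f ξ - s1.f b1 + s0.f b0) (by
      rw [map_add, map_sub, map_sub, f01.d, hξ, s1.d, s0.d, map_sub, ← h1, ← h0, e0, e1,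
        map_sub, map_sub, ← sub_eq_zero.1 eyy]
      abel)
    refine ⟨((a0, a1), ξ + α), ?_, ((b0, b1), -β), ?_⟩
    · refine (co_d (r0 := r0) (r1 := r1) _ _ _).trans ?_
      refine Prod.ext (Prod.ext ha0 ha1) ?_
      change r1.f a1 - r0.f a0 - X01.dg.d (ξ + α) = 0
      rw [map_add, hξ, hα]
      abel
    · refine (co_d (r0 := s0) (r1 := s1) _ _ _).trans ?_
      refine Prod.ext (Prod.ext hb0 hb1) ?_
      change s1.f b1 - s0.f b0 - Y01.dg.d (-β) = υ - f01.f (ξ + α)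
      rw [map_neg, hβ, map_add]
      abel

/-- If `X1 → X01` is a quasi-isomorphism, so is the projection to `X0` (its kernel is
`(0, x1, ξ)`, the cone of `X1 → X01`). -/
theorem co_pr0_qi {X0 X1 X01 : Cx k} (r0 : CHom X0 X01) {r1 : CHom X1 X01} (h : r1.QI) :
    (co.pr0 r0 r1).QI := by
  constructor
  · rintro ⟨⟨x0, x1⟩, ξ⟩ hx ⟨z0, hz0⟩
    have ex := (co_d (r0 := r0) (r1 := r1) x0 x1 ξ).symm.trans hx
    have ex1 : X1.dg.d x1 = 0 := congrArg (fun z => z.1.2) ex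
    have exx : r1.f x1 - r0.f x0 - X01.dg.d ξ = 0 := congrArg (fun z => z.2) ex
    have hz0' : X0.dg.d z0 = x0 := hz0
    obtain ⟨z1, hz1⟩ := h.1 x1 ex1 ⟨ξ + r0.f z0, by
      rw [map_add, r0.d, hz0', ← sub_eq_zero.1 exx]
      abel⟩
    obtain ⟨a1, ha1, β, hβ⟩ := h.2 (ξ + r0.f z0 - r1.f z1) (by
      rw [map_sub, map_add, r0.d, r1.d, hz0', hz1, ← sub_eq_zero.1 exx]
      abel)
    refine ⟨((z0, z1 + a1), -β), (co_d (r0 := r0) (r1 := r1) _ _ _).trans ?_⟩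
    refine Prod.ext (Prod.ext hz0' ?_) ?_
    · change X1.dg.d (z1 + a1) = x1
      rw [map_add, hz1, ha1, add_zero]
    · change r1.f (z1 + a1) - r0.f z0 - X01.dg.d (-β) = ξ
      rw [map_neg, hβ, map_add]
      abel
  · intro x0 hx0
    obtain ⟨x1, hx1, β, hβ⟩ := h.2 (r0.f x0) (by rw [r0.d, hx0, map_zero])
    refine ⟨((x0, x1), -β), (co_d (r0 := r0) (r1 := r1) _ _ _).trans ?_, 0, ?_⟩
    · refine Prod.ext (Prod.ext hx0 hx1) ?_
      change r1.f x1 - r0.f x0 - X01.dg.d (-β) = 0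
      rw [map_neg, hβ]
      abel
    · change X0.dg.d 0 = x0 - x0
      rw [map_zero, sub_self]

/-- The Čech complexes preserve quasi-isomorphisms. -/
theorem cH_qi {V V' : PC k} (f : PCH V V') (h : ∀ c, (f.f c).QI) (L : List (LF k)) (c : FS k) :
    ((cH f L).g c).QI := by
  induction L generalizing c with
  | nil =>
    exact ⟨fun x _ _ => ⟨0, rfl⟩, fun y _ => ⟨0, rfl, 0, rfl⟩⟩
  | cons l L ih =>
    exact co_map_qi (fun x => (cH f L).nat _ x) (fun x => ((cH f L).a _ x).symm)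
      (ih c) (h (c.ins l)) (ih (c.ins l).fs)

/-- a morphism of complexes is a quasi-isomorphism if it is one as a map of dg bimodules -/
theorem qiso_iff {A B A' B' : DGA k} {M : Bim A B} {N : Bim A' B'} {α : DHom A A'}
    {β : DHom B B'} (f : GMap 0 M (res α β N)) (h : f.dd = 0) : QIso f ↔ (gch f h).QI :=
  ⟨fun q => q.2, fun q => ⟨h, q⟩⟩

/-- The bimodule maps which forget the head of the list. -/
theorem cB_pr_qiso {A B : PA k} (M : PB A B) (l : LF k) (L : List (LF k)) (c : FS k)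
    (h : ((cC M.pc L).a (c.ins l)).QI) : QIso (cB.pr M l L c) :=
  ⟨cB.pr_dd M l L c, co_pr0_qi ((cC M.pc L).ρ (le_ins c l)) h⟩

end Pool.Agent.MP_6e5bed_ag_NS
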