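import Pool.Agent.Lib.MP_6e5bed_ag_NS.Qi
import Pool.Agent.Lib.MP_6e5bed_ag_NS.QiB

set_option autoImplicit false

/-!
# MP_6e5bed_ag, NC SURFACES: acyclic Čech complexes (section 4e)
-/

noncomputable section

namespace Pool.Agent.MP_6e5bed_ag_NS

open Pool.Agent.MP_6e5bed_ag_NC

universe u

variable {k : Type u} [Field k]

/-- acyclic -/
def Cx.Acyc (X : Cx k) : Prop := ∀ x, X.dg.d x = 0 → ∃ y, X.dg.d y = x

theorem Cx.Acyc.finCoh {X : Cx k} (h : X.Acyc) : X.dg.FinCoh := by
  rw [Dg.finCoh_iff]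
  refine ⟨∅, by simp, fun x hx => ?_⟩
  obtain ⟨y, hy⟩ := h x hx
  exact ⟨0, Submodule.zero_mem _, y, by rw [hy, zero_add]⟩

private theorem AcA_V {V : PC k} {l : LF k}
    (hρ : ∀ c : Ch k, Function.Bijective (V.ρ (le_ins' c l)).f) {c d : Ch k} (h : c ≤ d)
    (hd : d = c.fs.ins l) : Function.Bijective (V.ρ h).f := by
  subst hd
  exact hρ c

private theorem AcA_a {V : PC k} {l : LF k}
    (hρ : ∀ c : Ch k, Function.Bijective (V.ρ (le_ins' c l)).f) : ∀ (L : List (LF k))
    (c d : FS k) (h : c ≤ d), d = (c.ins l).fs → Function.Bijective ((cC V L).ρ h).f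
  | [], c, d, h, hd => Function.bijective_id
  | l' :: L, c, d, h, hd => by
    have e1 : d.ins l' = (c.ins l').fs.ins l := by
      subst hd
      exact Subtype.ext (Set.insert_comm l' l c.1)
    have h0 := AcA_a hρ L c d h hd
    have h1 := AcA_V hρ (ins_mono h l') e1
    have h2 := AcA_a hρ L (c.ins l').fs (d.ins l').fs (fs_mono (ins_mono h l'))
      (congrArg Ch.fs e1)
    exact (h0.prodMap h1).prodMap h2

private theorem AcA_aug {B X0 X1 X01 : Cx k} {r0 : CHom X0 X01} {r1 : CHom X1 X01}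
    {b0 : CHom B X0} {b1 : CHom B X1} (h : ∀ x, r0.f (b0.f x) = r1.f (b1.f x))
    (hr : Function.Bijective r0.f) (hb : Function.Bijective b1.f) :
    (co.aug r0 r1 b0 b1 h).QI := by
  constructor
  · rintro b hbd ⟨⟨⟨x0, x1⟩, ξ⟩, hx⟩
    have ex := (co_d (r0 := r0) (r1 := r1) x0 x1 ξ).symm.trans hx
    have ex1 : X1.dg.d x1 = b1.f b := congrArg (fun z => z.1.2) ex
    obtain ⟨b', rfl⟩ := hb.2 x1
    exact ⟨b', hb.1 (by rw [← b1.d, ex1])⟩
  · rintro ⟨⟨x0, x1⟩, ξ⟩ hx
    have ex := (co_d (r0 := r0) (r1 := r1) x0 x1 ξ).symm.trans hx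
    have ex1 : X1.dg.d x1 = 0 := congrArg (fun z => z.1.2) ex
    have exx : r1.f x1 - r0.f x0 - X01.dg.d ξ = 0 := congrArg (fun z => z.2) ex
    obtain ⟨b, rfl⟩ := hb.2 x1
    obtain ⟨z0, hz0⟩ := hr.2 (-ξ)
    have hbd : B.dg.d b = 0 := hb.1 (by rw [← b1.d, ex1, map_zero])
    have hd0 : X0.dg.d z0 = x0 - b0.f b := by
      apply hr.1
      rw [← r0.d, hz0, map_neg, map_sub, h, ← sub_eq_zero.1 exx]
      abel
    refine ⟨b, hbd, ((z0, 0), 0), (co_d (r0 := r0) (r1 := r1) _ _ _).trans ?_⟩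
    refine Prod.ext (Prod.ext hd0 ?_) ?_
    · change X1.dg.d 0 = b1.f b - b1.f b
      rw [map_zero, sub_self]
    · change r1.f 0 - r0.f z0 - X01.dg.d 0 = ξ - 0
      rw [map_zero, map_zero, hz0]
      abel

private theorem AcA_b {V : PC k} {l : LF k}
    (hρ : ∀ c : Ch k, Function.Bijective (V.ρ (le_ins' c l)).f) : ∀ (L : List (LF k)),
    l ∈ L → ∀ c : Ch k, ((cC V L).a c).QI
  | [], hl, c => absurd hl List.not_mem_nil
  | l' :: L, hl, c => by
    by_cases hl' : l' = l
    · subst hl'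
      exact AcA_aug (fun x => (cC V L).a_ρ (le_ins' c l') x)
        (AcA_a hρ L c.fs (c.fs.ins l').fs (le_ins c.fs l') rfl) (hρ c)
    · have hL : l ∈ L := by
        rcases List.mem_cons.1 hl with h | h
        · exact absurd h.symm hl'
        · exact h
      exact CHom.QI.of_right (f := (cC V (l' :: L)).a c)
        (g := co.pr0 ((cC V L).ρ (le_ins c.fs l')) ((cC V L).a (c.fs.ins l')))
        (h := (cC V L).a c) (fun x => rfl)
        (co_pr0_qi _ (AcA_b hρ L hL (c.fs.ins l'))) (AcA_b hρ L hL c)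

/-- Let `V` not change under the restrictions `c → c ∪ l` and vanish on the chart `l ≠ 0`; then its
Čech complex with respect to a list which contains `l` is acyclic. PROOF. (a) `(cC V L).ρ` from `c`
to `c ∪ l` is bijective for all `L` and `c` (induction on `L`). (b) For `l ∈ L` the augmentation
`V c → (cC V L).X c` is a quasi-isomorphism for all charts `c`: induction; for `L = l :: L'` the
projection of the cone to `V (c ∪ l)` is a quasi-isomorphism by (a), and `V c → V (c ∪ l)` is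
bijective; for `L = l' :: L'`, `l ∈ L'`: `co_pr0_qi` and `CHom.QI.of_right`. (c) The claim by
induction on `L`: for `L = l :: L'` the complex is the cone of
`(cC V L').X ∅ → (cC V L').X l ← V l` with a bijective map and `V l = 0`; for `L = l' :: L'` use (b)
for the chart `l' ≠ 0` and the induction hypothesis (`co_pr0_qi`). -/
theorem cone_acyc (V : PC k) (l : LF k)
    (hρ : ∀ c : Ch k, Function.Bijective (V.ρ (le_ins' c l)).f)
    (h0 : Subsingleton (V.X ((FS.e k).ins l)).V) (L : List (LF k)) (hl : l ∈ L) :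
    ((cC V L).X (FS.e k)).Acyc := by
  induction L with
  | nil => exact absurd hl List.not_mem_nil
  | cons l' L ih =>
    by_cases hl' : l' = l
    · subst hl'
      have hr := AcA_a hρ L (FS.e k) ((FS.e k).ins l').fs (le_ins (FS.e k) l') rfl
      rintro ⟨⟨x0, x1⟩, ξ⟩ hx
      have hx1 : x1 = 0 := h0.elim x1 0
      subst hx1
      have ex := (co_d (r0 := (cC V L).ρ (le_ins (FS.e k) l'))
        (r1 := (cC V L).a ((FS.e k).ins l')) x0 0 ξ).symm.trans hx
      have exx : ((cC V L).a ((FS.e k).ins l')).f 0 -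
          ((cC V L).ρ (le_ins (FS.e k) l')).f x0 -
          ((cC V L).X ((FS.e k).ins l').fs).dg.d ξ = 0 := congrArg (fun z => z.2) ex
      rw [map_zero, zero_sub] at exx
      obtain ⟨z0, hz0⟩ := hr.2 (-ξ)
      have hd0 : ((cC V L).X (FS.e k)).dg.d z0 = x0 := by
        apply hr.1
        rw [← ((cC V L).ρ (le_ins (FS.e k) l')).d, hz0, map_neg, ← sub_eq_zero.1 exx, neg_neg]
      refine ⟨((z0, 0), 0), (co_d (r0 := (cC V L).ρ (le_ins (FS.e k) l'))
        (r1 := (cC V L).a ((FS.e k).ins l')) _ _ _).trans ?_⟩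
      refine Prod.ext (Prod.ext hd0 (map_zero _)) ?_
      change ((cC V L).a ((FS.e k).ins l')).f 0 - ((cC V L).ρ (le_ins (FS.e k) l')).f z0 -
          ((cC V L).X ((FS.e k).ins l').fs).dg.d 0 = ξ
      rw [map_zero, map_zero, hz0]
      abel
    · have hL : l ∈ L := by
        rcases List.mem_cons.1 hl with h | h
        · exact absurd h.symm hl'
        · exact h
      have hq := co_pr0_qi ((cC V L).ρ (le_ins (FS.e k) l')) (AcA_b hρ L hL ((FS.e k).ins l'))
      intro x hx
      exact hq.1 x hx (ih hL _ (((co.pr0 ((cC V L).ρ (le_ins (FS.e k) l'))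
        ((cC V L).a ((FS.e k).ins l'))).d x).trans ((congrArg _ hx).trans (map_zero _))))

/-- Morphisms which are bijective on the charts in `S`. -/
theorem cH_bij {V V' : PC k} (f : PCH V V') (S : Set (LF k))
    (h : ∀ c : Ch k, c.1 ⊆ S → Function.Bijective (f.f c).f) (L : List (LF k))
    (hL : ∀ l ∈ L, l ∈ S) (c : FS k) (hc : c.1 ⊆ S) :
    Function.Bijective ((cH f L).g c).f := by
  induction L generalizing c with
  | nil => exact ⟨fun _ _ _ => rfl, fun _ => ⟨0, rfl⟩⟩
  | cons l L ih =>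
    have hc' : (c.ins l).1 ⊆ S := Set.insert_subset (hL l List.mem_cons_self) hc
    have hL' : ∀ l ∈ L, l ∈ S := fun l' hl' => hL l' (List.mem_cons_of_mem l hl')
    exact ((ih hL' c hc).prodMap (h (c.ins l) hc')).prodMap (ih hL' (c.ins l).fs hc')

/-- Decompositions of the identity. -/
theorem cH_dec {V : PC k} {I : Type} [Fintype I] (V' : I → PC k) (p : ∀ i, PCH V (V' i))
    (e : ∀ i, PCH (V' i) V) (h : ∀ c x, ∑ i, ((e i).f c).f (((p i).f c).f x) = x)
    (L : List (LF k)) (c : FS k) (x : ((cC V L).X c).V) :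
    ∑ i, ((cH (e i) L).g c).f (((cH (p i) L).g c).f x) = x := by
  induction L generalizing c with
  | nil => rfl
  | cons l L ih =>
    obtain ⟨⟨x0, x1⟩, ξ⟩ := x
    refine Prod.ext (Prod.ext ?_ ?_) ?_
    · refine Eq.trans ?_ (ih c x0)
      exact (congrArg Prod.fst Prod.fst_sum).trans Prod.fst_sum
    · refine Eq.trans ?_ (h (c.ins l) x1)
      exact (congrArg Prod.snd Prod.fst_sum).trans Prod.snd_sum
    · refine Eq.trans ?_ (ih (c.ins l).fs ξ)
      exact Prod.snd_sum

end Pool.Agent.MP_6e5bed_ag_NS
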