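import Pool.Agent.Lib.MP_6e5bed_ag_NS.Defs

/-!
# MP_6e5bed_ag, NC SURFACES: the Hilbert-Burch complex (section 5 of the text)
-/

set_option autoImplicit false

noncomputable section

namespace Pool.Agent.MP_6e5bed_ag_NS

open scoped TensorProduct

universe u

variable {k : Type u} [Field k]

/-- `X_2 → X_1 → X_0` with the three commuting maps `x_0, x_1, x_2` -/
structure Tw (k : Type u) [Field k] where
  X0 : Type u
  X1 : Type u
  X2 : Type u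
  [g0 : AddCommGroup X0]
  [g1 : AddCommGroup X1]
  [g2 : AddCommGroup X2]
  [m0 : Module k X0]
  [m1 : Module k X1]
  [m2 : Module k X2]
  x1 : Fin 3 → X1 →ₗ[k] X0
  x2 : Fin 3 → X2 →ₗ[k] X1
  comm : ∀ i j x, x1 i (x2 j x) = x1 j (x2 i x)

attribute [instance] Tw.g0 Tw.g1 Tw.g2 Tw.m0 Tw.m1 Tw.m2

/-- `(α, β) ↦ (x_j α + y_j β)_j` -/
def hb2 (X Y : Tw k) :
    (X.X2 ⊗[k] Y.X1) × (X.X1 ⊗[k] Y.X2) →ₗ[k] (Fin 3 → X.X1 ⊗[k] Y.X1) :=
  LinearMap.pi fun j =>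
    LinearMap.coprod (LinearMap.rTensor Y.X1 (X.x2 j)) (LinearMap.lTensor X.X1 (Y.x2 j))

/-- the minor `x_i y_j - x_j y_i` -/
def mnr (X Y : Tw k) (i j : Fin 3) : X.X1 ⊗[k] Y.X1 →ₗ[k] X.X0 ⊗[k] Y.X0 :=
  TensorProduct.map (X.x1 i) (Y.x1 j) - TensorProduct.map (X.x1 j) (Y.x1 i)

/-- the determinant with the rows `c, x, y` -/
def hb1 (X Y : Tw k) : (Fin 3 → X.X1 ⊗[k] Y.X1) →ₗ[k] X.X0 ⊗[k] Y.X0 :=
  mnr X Y 1 2 ∘ₗ LinearMap.proj 0 - mnr X Y 0 2 ∘ₗ LinearMap.proj 1 +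
    mnr X Y 0 1 ∘ₗ LinearMap.proj 2

/-- exactness of the Hilbert-Burch complex in its two left places -/
def EX (X Y : Tw k) : Prop :=
  Function.Injective (hb2 X Y) ∧ ∀ c, hb1 X Y c = 0 → ∃ z, hb2 X Y z = c

theorem hb2_apply (X Y : Tw k) (α : X.X2 ⊗[k] Y.X1) (β : X.X1 ⊗[k] Y.X2) (j : Fin 3) :
    hb2 X Y (α, β) j = LinearMap.rTensor Y.X1 (X.x2 j) α + LinearMap.lTensor X.X1 (Y.x2 j) β :=
  rfl

theorem hb1_apply (X Y : Tw k) (c : Fin 3 → X.X1 ⊗[k] Y.X1) :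
    hb1 X Y c = mnr X Y 1 2 (c 0) - mnr X Y 0 2 (c 1) + mnr X Y 0 1 (c 2) := rfl

/-- a morphism -/
structure TwHom (X Y : Tw k) where
  f0 : X.X0 →ₗ[k] Y.X0
  f1 : X.X1 →ₗ[k] Y.X1
  f2 : X.X2 →ₗ[k] Y.X2
  h1 : ∀ j x, f0 (X.x1 j x) = Y.x1 j (f1 x)
  h2 : ∀ j x, f1 (X.x2 j x) = Y.x2 j (f2 x)

/-- an isomorphism -/
structure TwIso (X Y : Tw k) where
  f0 : X.X0 ≃ₗ[k] Y.X0
  f1 : X.X1 ≃ₗ[k] Y.X1
  f2 : X.X2 ≃ₗ[k] Y.X2
  h1 : ∀ j x, f0 (X.x1 j x) = Y.x1 j (f1 x)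
  h2 : ∀ j x, f1 (X.x2 j x) = Y.x2 j (f2 x)

/-- three commuting operators -/
def Tw.con {X : Type u} [AddCommGroup X] [Module k X] (w : Fin 3 → X →ₗ[k] X)
    (hw : ∀ i j x, w i (w j x) = w j (w i x)) : Tw k where
  X0 := X
  X1 := X
  X2 := X
  x1 := w
  x2 := w
  comm := hw

/-- the exponents of degree `d` which are nonnegative outside of `b` -/
def Exb (b : Set (Fin 3)) (d : ℤ) : Type := {e : Fin 3 → ℤ // ∑ i, e i = d ∧ ∀ i, i ∉ b → 0 ≤ e i}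

/-- multiplication of monomials by the variable `j` -/
def Exb.sh {b : Set (Fin 3)} {d d' : ℤ} (h : d + 1 = d') (j : Fin 3) (e : Exb b d) : Exb b d' :=
  ⟨fun i => e.1 i + if i = j then 1 else 0, by
    rw [Finset.sum_add_distrib, e.2.1, Finset.sum_ite_eq' Finset.univ j, if_pos (Finset.mem_univ j),
      h], fun i hi => by
    have h1 := e.2.2 i hi
    change 0 ≤ e.1 i + if i = j then 1 else 0
    split_ifs <;> omega⟩

/-- the polynomials in three variables, localised at the variables in `b`, in the degrees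
`0, -1, -2` -/
def Tw.pol (k : Type u) [Field k] (b : Set (Fin 3)) : Tw k where
  X0 := Exb b 0 →₀ k
  X1 := Exb b (-1) →₀ k
  X2 := Exb b (-2) →₀ k
  x1 := fun j => Finsupp.lmapDomain k k (Exb.sh (by norm_num) j)
  x2 := fun j => Finsupp.lmapDomain k k (Exb.sh (by norm_num) j)
  comm := fun i j x => by
    simp only [Finsupp.lmapDomain_apply, ← Finsupp.mapDomain_comp]
    congr 1
    funext e
    refine Subtype.ext ?_
    funext l
    simp only [Function.comp_apply, Exb.sh]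
    ring

end Pool.Agent.MP_6e5bed_ag_NS
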