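import Pool.Agent.Lib.MP_6e5bed_ag_NS.Gen
import Pool.Agent.Lib.MP_6e5bed_ag_NS.Tw

set_option autoImplicit false

/-!
# MP_6e5bed_ag, NC SURFACES: the structure sheaf, its twists, and their monomial bases
(section 4e)
-/

noncomputable section

namespace Pool.Agent.MP_6e5bed_ag_NS

open Pool.Agent.MP_6e5bed_ag_NC

universe u

variable (k : Type u) [Field k]

/-- The structure sheaf as a lattice in `K`. -/
def OL : Lat k (KK k) where
  N := fun c =>
    { carrier := {x | x ∈ RR k c}
      add_mem' := fun hx hy => (RR k c).add_mem hx hy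
      zero_mem' := (RR k c).zero_mem
      smul_mem' := fun r x hx => by
        rw [Subalgebra.smul_def]
        exact (RR k c).mul_mem r.2 hx }
  mono := fun h _ hx => RR_mono h hx
  loc := fun h _ hg ℓ hd _ hx => RR_loc h hg ℓ hd hx
  fg := by
    intro c
    refine ⟨{1}, le_antisymm ?_ ?_⟩
    · rw [Submodule.span_le]
      intro x hx
      rw [Finset.coe_singleton, Set.mem_singleton_iff] at hx
      rw [hx]
      exact (RR k c).one_mem
    · intro x hx
      have h1 : x = (⟨x, hx⟩ : RR k c) • (1 : KK k) := by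
        rw [Subalgebra.smul_def, smul_eq_mul, mul_one]
      rw [h1]
      exact Submodule.smul_mem _ _ (Submodule.subset_span (by simp))
  span := by
    intro c
    rw [eq_top_iff]
    intro x _
    have h1 : x = x • (1 : KK k) := by rw [smul_eq_mul, mul_one]
    rw [h1]
    exact Submodule.smul_mem _ _ (Submodule.subset_span (RR k c).one_mem)

/-- The structure sheaf as a sheaf of algebras. -/
def OSh : ASh k where
  M := fun c => RR k c
  res := fun h => (rinc h).toLinearMap
  res_smul := by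
    intro c d h r m
    exact map_mul (rinc h) r m
  res_id := by
    intro c h m
    exact Subtype.ext (rinc_coe h m)
  res_res := by
    intro c d e h h' m
    refine Subtype.ext ?_
    change ((rinc h' (rinc h m) : RR k e) : KK k) = ((rinc (h.trans h') m : RR k e) : KK k)
    rw [rinc_coe, rinc_coe, rinc_coe]
  surj := by
    intro c d h g hg ℓ hd m
    obtain ⟨n, hn⟩ := RR_loc h hg ℓ hd m.2
    refine ⟨n, ⟨_, hn⟩, Subtype.ext ?_⟩
    change ((rinc h (⟨_, hn⟩ : RR k c) : RR k d) : KK k) =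
      ((quo ℓ.1 (h hg) ^ n * m : RR k d) : KK k)
    rw [rinc_coe, MulMemClass.coe_mul, SubmonoidClass.coe_pow]
    rfl
  inj := by
    intro c d h g hg ℓ hd m hm
    refine ⟨0, ?_⟩
    have h1 : ((rinc h m : RR k d) : KK k) = 0 := by
      have h2 : rinc h m = 0 := hm
      rw [h2]
      rfl
    rw [rinc_coe] at h1
    have h3 : m = 0 := Subtype.ext h1
    rw [h3, smul_zero]
  mul := fun c => LinearMap.mul k (RR k c)
  one := fun c => 1
  one_mul := fun c a => one_mul a
  mul_one := fun c a => mul_one a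
  mul_assoc := fun c a b e => mul_assoc a b e
  smul_mul := fun c r a b => smul_mul_assoc r a b
  mul_smul := fun c r a b => mul_smul_comm r a b
  res_one := fun h => map_one (rinc h)
  res_mul := fun h a b => map_mul (rinc h) a b

variable {k}

/-- A vector space over `K` as a generic bimodule over the structure sheaf. -/
def Gen.ofE (E : Type u) [AddCommGroup E] [Module k E] [Module (KK k) E]
    [IsScalarTower k (KK k) E] [FiniteDimensional (KK k) E] : Gen (OSh k) (OSh k) where
  E := E
  l := fun c => LinearMap.mk₂' k (KK k) (fun (a : RR k c) (x : E) => (a : KK k) • x)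
    (fun a a' x => by
      exact add_smul (Subtype.val (p := (· ∈ RR k c)) a) (Subtype.val (p := (· ∈ RR k c)) a')
        x) (fun s a x => by
      exact smul_assoc s (Subtype.val (p := (· ∈ RR k c)) a) x)
    (fun a x x' => by
      exact smul_add _ _ _) (fun s a x => by
      exact smul_comm _ _ _)
  r := fun c => LinearMap.mk₂' k (KK k) (fun (a : RR k c) (x : E) => (a : KK k) • x)
    (fun a a' x => by
      exact add_smul (Subtype.val (p := (· ∈ RR k c)) a) (Subtype.val (p := (· ∈ RR k c)) a')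
        x) (fun s a x => by
      exact smul_assoc s (Subtype.val (p := (· ∈ RR k c)) a) x)
    (fun a x x' => by
      exact smul_add _ _ _) (fun s a x => by
      exact smul_comm _ _ _)
  l_one := by
    intro c x
    exact one_smul (KK k) x
  r_one := by
    intro c x
    exact one_smul (KK k) x
  l_mul := by
    intro c a a' x
    exact mul_smul (Subtype.val (p := (· ∈ RR k c)) a) (Subtype.val (p := (· ∈ RR k c)) a') x
  r_mul := by
    intro c b b' x
    exact (congrArg (fun y : KK k => y • x) (mul_comm (Subtype.val (p := (· ∈ RR k c)) b)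
      (Subtype.val (p := (· ∈ RR k c)) b'))).trans
      (mul_smul (Subtype.val (p := (· ∈ RR k c)) b') (Subtype.val (p := (· ∈ RR k c)) b) x)
  l_r := by
    intro c a b x
    exact smul_comm (Subtype.val (p := (· ∈ RR k c)) a) (Subtype.val (p := (· ∈ RR k c)) b) x
  smul_l := by
    intro c s a x
    exact mul_smul (s : KK k) (Subtype.val (p := (· ∈ RR k c)) a) x
  smul_r := by
    intro c s a x
    exact mul_smul (s : KK k) (Subtype.val (p := (· ∈ RR k c)) a) x
  res_l := by
    intro c d h a x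
    exact congrArg (fun y : KK k => y • x) (rinc_coe h a)
  res_r := by
    intro c d h a x
    exact congrArg (fun y : KK k => y • x) (rinc_coe h a)

theorem Gen.ofE_st (E : Type u) [AddCommGroup E] [Module k E] [Module (KK k) E]
    [IsScalarTower k (KK k) E] [FiniteDimensional (KK k) E] (N : Lat k E) :
    (Gen.ofE (k := k) E).St N := by
  constructor
  · intro c a x hx
    exact (N.N c).smul_mem (a : RR k c) hx
  · intro c a x hx
    exact (N.N c).smul_mem (a : RR k c) hx

/-! ### Monomials -/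

/-- the coordinates which are inverted on a chart -/
def cset (c : Ch k) : Set (Fin 3) := {i | xx k i ∈ c.1}

/-- the inclusion of exponents -/
def Exb.inc {a b : Set (Fin 3)} (h : a ⊆ b) {d : ℤ} (e : Exb a d) : Exb b d :=
  ⟨e.1, e.2.1, fun i hi => e.2.2 i (fun hi' => hi (h hi'))⟩

/-- the monomial `x ^ e / x_0 ^ d`, that is `u ^ e_1 v ^ e_2` -/
def mon (e : Fin 3 → ℤ) : KK k := ∏ i, uu k i ^ e i

/-- The presheaf of monomials of degree `d`. -/
def monP (k : Type u) [Field k] (d : ℤ) : PC k where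
  X := fun c => Cx.conc k (Exb (cset c) d →₀ k)
  ρ := fun {c e} h => concH (Finsupp.lmapDomain k k (Exb.inc (fun i hi => h hi)))
  ρ_id := by
    intro c h x
    exact Finsupp.mapDomain_id (v := (x : Exb (cset c) d →₀ k))
  ρ_ρ := by
    intro c d' e h h' x
    exact (Finsupp.mapDomain_comp (v := (x : Exb (cset c) d →₀ k))).symm

private theorem OO_lam_xx (i : Fin 3) : lam k (xx k i).1 = uu k i := by
  unfold lam xx
  rw [Finset.sum_eq_single i]
  · change (Pi.single i 1 : Fin 3 → k) i • uu k i = uu k i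
    rw [Pi.single_eq_same, one_smul]
  · intro j _ hj
    change (Pi.single i 1 : Fin 3 → k) j • uu k j = 0
    rw [Pi.single_eq_of_ne hj, zero_smul]
  · intro h
    exact absurd (Finset.mem_univ i) h

private theorem OO_uu_ne (i : Fin 3) : uu k i ≠ 0 := by
  rw [← OO_lam_xx]
  exact lam_ne_zero _

private theorem OO_zpow {c : Ch k} {g g' : LF k} (hg : g ∈ c.1) (hg' : g' ∈ c.1) (e : ℤ) :
    (lam k g'.1 / lam k g.1) ^ e ∈ RR k c := by
  rcases Int.eq_nat_or_neg e with ⟨n, rfl | rfl⟩
  · rw [zpow_natCast]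
    exact (RR k c).pow_mem (lam_mem _ hg) n
  · rw [zpow_neg, zpow_natCast, ← inv_pow, inv_div]
    exact (RR k c).pow_mem (lam_mem _ hg') n

theorem mon_mem {c : Ch k} {d : ℤ} (e : Exb (cset c) d) : mon e.1 ∈ ((OL k).tw d).N c := by
  obtain ⟨g, hg⟩ := c.2.1
  have h0 := lam_ne_zero g
  rw [(OL k).mem_tw d hg]
  have h1 : lam k g.1 ^ (-d) • mon e.1 = ∏ i, (lam k (xx k i).1 / lam k g.1) ^ e.1 i := by
    unfold mon
    have h2 : lam k g.1 ^ (-d) = ∏ i, lam k g.1 ^ (-(e.1 i)) := by
      have h3 : -d = -(e.1 0) + -(e.1 1) + -(e.1 2) := by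
        have h4 := e.2.1
        rw [Fin.sum_univ_three] at h4
        omega
      rw [h3, Fin.prod_univ_three, zpow_add₀ h0, zpow_add₀ h0]
    rw [h2, smul_eq_mul, ← Finset.prod_mul_distrib]
    refine Finset.prod_congr rfl fun i _ => ?_
    rw [OO_lam_xx, div_zpow, zpow_neg, div_eq_mul_inv, mul_comm]
  rw [h1]
  change _ ∈ RR k c
  refine Subalgebra.prod_mem _ fun i _ => ?_
  by_cases hi : xx k i ∈ c.1
  · exact OO_zpow hg hi _
  · have h3 : 0 ≤ e.1 i := e.2.2 i hi
    obtain ⟨n, hn⟩ := Int.eq_ofNat_of_zero_le h3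
    rw [hn]
    change (lam k (xx k i).1 / lam k g.1) ^ ((n : ℕ) : ℤ) ∈ RR k c
    rw [zpow_natCast]
    exact (RR k c).pow_mem (lam_mem _ hg) n

private theorem OO_lift_coe {d : ℤ} {c : Ch k} (x : Exb (cset c) d →₀ k) :
    ((Finsupp.lift (((OL k).tw d).N c) k (Exb (cset c) d)
      (fun e => ⟨mon e.1, mon_mem e⟩) x : ((OL k).tw d).N c) : KK k) =
      x.sum fun e r => r • mon e.1 := by
  rw [Finsupp.lift_apply, Finsupp.sum, AddSubmonoidClass.coe_finsetSum]
  rfl

private theorem OO_sum {a b : Set (Fin 3)} {d : ℤ} (h : a ⊆ b) (x : Exb a d →₀ k) :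
    (Finsupp.mapDomain (Exb.inc h) x).sum (fun e r => r • (mon e.1 : KK k)) =
      x.sum fun e r => r • (mon e.1 : KK k) :=
  Finsupp.sum_mapDomain_index (h := fun (e : Exb b d) (r : k) => r • (mon e.1 : KK k))
    (fun _ => zero_smul _ _) (fun _ _ _ => add_smul _ _ _)

/-- The monomials as sections of `O(d)`. -/
def monH (d : ℤ) : PCH (monP k d) ((OL k).tw d).sh.pc where
  f := fun c => concH (Finsupp.lift (((OL k).tw d).N c) k (Exb (cset c) d)
    (fun e => ⟨mon e.1, mon_mem e⟩))
  nat := by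
    intro c c' h x
    refine Subtype.ext ?_
    have h1 := OO_lift_coe (k := k) (d := d) (c := c) x
    have h2 := OO_lift_coe (k := k) (d := d) (c := c')
      (Finsupp.mapDomain (Exb.inc (fun i hi => h hi)) x)
    exact h1.trans ((OO_sum (fun i hi => h hi) x).symm.trans h2.symm)

/-- the monomials as elements of `K` -/
private def OO_L (k : Type u) [Field k] (b : Set (Fin 3)) (d : ℤ) :
    (Exb b d →₀ k) →ₗ[k] KK k :=
  Finsupp.linearCombination k (fun e : Exb b d => (mon e.1 : KK k))

private theorem OO_L_apply {b : Set (Fin 3)} {d : ℤ} (x : Exb b d →₀ k) :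
    OO_L k b d x = x.sum fun e r => r • (mon e.1 : KK k) := rfl

private theorem OO_L_single {b : Set (Fin 3)} {d : ℤ} (e : Exb b d) :
    OO_L k b d (Finsupp.single e 1) = (mon e.1 : KK k) := by
  rw [OO_L, Finsupp.linearCombination_single, one_smul]

private theorem OO_mon_eq (e : Fin 3 → ℤ) :
    (mon e : KK k) = uu k 1 ^ e 1 * uu k 2 ^ e 2 := by
  unfold mon
  rw [Fin.prod_univ_three]
  have h1 : uu k 0 = 1 := rfl
  rw [h1, one_zpow, one_mul]

private theorem OO_mon_mul (e e' : Fin 3 → ℤ) :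
    (mon (e + e') : KK k) = mon e * mon e' := by
  rw [OO_mon_eq, OO_mon_eq, OO_mon_eq, Pi.add_apply, Pi.add_apply,
    zpow_add₀ (OO_uu_ne 1), zpow_add₀ (OO_uu_ne 2)]
  ring

private theorem OO_mon_single (i : Fin 3) (d : ℤ) :
    (mon (Pi.single i d) : KK k) = uu k i ^ d := by
  unfold mon
  rw [Finset.prod_eq_single i]
  · rw [Pi.single_eq_same]
  · intro j _ hj
    rw [Pi.single_eq_of_ne hj, zpow_zero]
  · intro h
    exact absurd (Finset.mem_univ i) h

private theorem OO_map_monomial (s : Fin 2 →₀ ℕ) (r : k) :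
    algebraMap (MvPolynomial (Fin 2) k) (KK k) (MvPolynomial.monomial s r) =
      r • (uu k 1 ^ s 0 * uu k 2 ^ s 1) := by
  rw [MvPolynomial.monomial_eq, Finsupp.prod_fintype _ _ (fun i => pow_zero _),
    Fin.prod_univ_two, map_mul, map_mul, map_pow, map_pow, Algebra.smul_def,
    IsScalarTower.algebraMap_apply k (MvPolynomial (Fin 2) k) (KK k)]
  rfl

private theorem OO_inj (b : Set (Fin 3)) (d : ℤ) : Function.Injective (OO_L k b d) := by
  classical
  rw [injective_iff_map_eq_zero]
  intro l hl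
  set n : ℕ := ∑ e ∈ l.support, ((e.1 1).natAbs + (e.1 2).natAbs) with hn
  have hle : ∀ e ∈ l.support, 0 ≤ e.1 1 + n ∧ 0 ≤ e.1 2 + n := by
    intro e he
    have h1 : (e.1 1).natAbs + (e.1 2).natAbs ≤ n :=
      Finset.single_le_sum (f := fun e : Exb b d => (e.1 1).natAbs + (e.1 2).natAbs)
        (fun _ _ => Nat.zero_le _) he
    omega
  set φ : Exb b d → (Fin 2 →₀ ℕ) := fun e => Finsupp.equivFunOnFinite.symm
    ![(e.1 1 + n).toNat, (e.1 2 + n).toNat] with hφ
  have hφ0 : ∀ e, φ e 0 = (e.1 1 + n).toNat := fun e => rfl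
  have hφ1 : ∀ e, φ e 1 = (e.1 2 + n).toNat := fun e => rfl
  have hinj : ∀ e ∈ l.support, ∀ e' ∈ l.support, φ e = φ e' → e = e' := by
    intro e he e' he' h
    have h0 := congrArg (fun s : Fin 2 →₀ ℕ => s 0) h
    have h1 := congrArg (fun s : Fin 2 →₀ ℕ => s 1) h
    change φ e 0 = φ e' 0 at h0
    change φ e 1 = φ e' 1 at h1
    rw [hφ0, hφ0] at h0
    rw [hφ1, hφ1] at h1
    have h2 := hle e he
    have h3 := hle e' he'
    have h4 := e.2.1
    have h5 := e'.2.1
    rw [Fin.sum_univ_three] at h4 h5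
    refine Subtype.ext (funext fun i => ?_)
    fin_cases i
    · change e.1 0 = e'.1 0
      omega
    · change e.1 1 = e'.1 1
      omega
    · change e.1 2 = e'.1 2
      omega
  have hmon : ∀ e ∈ l.support, uu k 1 ^ φ e 0 * uu k 2 ^ φ e 1 =
      (mon e.1 : KK k) * (uu k 1 * uu k 2) ^ n := by
    intro e he
    have h2 := hle e he
    rw [OO_mon_eq, mul_pow, hφ0, hφ1, ← zpow_natCast, ← zpow_natCast (uu k 2) (e.1 2 + n).toNat,
      Int.toNat_of_nonneg h2.1, Int.toNat_of_nonneg h2.2, zpow_add₀ (OO_uu_ne 1),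
      zpow_add₀ (OO_uu_ne 2), zpow_natCast, zpow_natCast]
    ring
  set p : MvPolynomial (Fin 2) k := ∑ e ∈ l.support, MvPolynomial.monomial (φ e) (l e) with hp
  have hp0 : p = 0 := by
    apply IsFractionRing.injective (MvPolynomial (Fin 2) k) (KK k)
    rw [hp, map_sum, map_zero]
    have h1 : ∀ e ∈ l.support, algebraMap (MvPolynomial (Fin 2) k) (KK k)
        (MvPolynomial.monomial (φ e) (l e)) =
        (l e • (mon e.1 : KK k)) * (uu k 1 * uu k 2) ^ n := by
      intro e he
      rw [OO_map_monomial, hmon e he, smul_mul_assoc]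
    rw [Finset.sum_congr rfl h1, ← Finset.sum_mul]
    have h2 : ∑ e ∈ l.support, l e • (mon e.1 : KK k) = 0 := hl
    rw [h2, zero_mul]
  ext e0
  by_contra h0
  have h0' : e0 ∈ l.support := Finsupp.mem_support_iff.2 h0
  have h1 : MvPolynomial.coeff (φ e0) p = l e0 := by
    rw [hp, MvPolynomial.coeff_sum, Finset.sum_eq_single e0]
    · rw [MvPolynomial.coeff_monomial, if_pos rfl]
    · intro e he hne
      rw [MvPolynomial.coeff_monomial, if_neg]
      intro h
      exact hne (hinj e he e0 h0' h)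
    · intro h
      exact absurd h0' h
  rw [hp0, MvPolynomial.coeff_zero] at h1
  exact h0 h1.symm

/-- the monomials of degree zero -/
private def OO_S (k : Type u) [Field k] (b : Set (Fin 3)) : Submonoid (KK k) where
  carrier := {x | ∃ e : Exb b 0, (mon e.1 : KK k) = x}
  one_mem' := by
    refine ⟨⟨0, by simp, fun i _ => le_rfl⟩, ?_⟩
    change (mon 0 : KK k) = 1
    rw [OO_mon_eq, Pi.zero_apply, Pi.zero_apply, zpow_zero, zpow_zero, mul_one]
  mul_mem' := by
    rintro x y ⟨e, rfl⟩ ⟨e', rfl⟩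
    refine ⟨⟨e.1 + e'.1, ?_, ?_⟩, OO_mon_mul e.1 e'.1⟩
    · have h1 := e.2.1
      have h2 := e'.2.1
      change ∑ i, (e.1 i + e'.1 i) = 0
      rw [Finset.sum_add_distrib, h1, h2, add_zero]
    · intro i hi
      exact add_nonneg (e.2.2 i hi) (e'.2.2 i hi)

private theorem OO_quo {c : Ch k} {j : Fin 3} (hj : xx k j ∈ c.1) (i : Fin 3) :
    uu k i / uu k j ∈ OO_S k (cset c) := by
  refine ⟨⟨Pi.single i 1 + Pi.single j (-1), ?_, ?_⟩, ?_⟩
  · change ∑ l, ((Pi.single i 1 : Fin 3 → ℤ) l + (Pi.single j (-1) : Fin 3 → ℤ) l) = 0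
    rw [Finset.sum_add_distrib, Finset.sum_pi_single', Finset.sum_pi_single']
    simp
  · intro l hl
    change 0 ≤ (Pi.single i 1 : Fin 3 → ℤ) l + (Pi.single j (-1) : Fin 3 → ℤ) l
    have h1 : l ≠ j := by
      rintro rfl
      exact hl hj
    rw [Pi.single_eq_of_ne h1, add_zero]
    by_cases h2 : l = i
    · rw [h2, Pi.single_eq_same]
      exact zero_le_one
    · rw [Pi.single_eq_of_ne h2]
  · change (mon (Pi.single i 1 + Pi.single j (-1)) : KK k) = uu k i / uu k j
    rw [OO_mon_mul, OO_mon_single, OO_mon_single, zpow_one, zpow_neg_one, div_eq_mul_inv]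

private theorem OO_RR {c : Ch k} (hc : c.1 ⊆ Set.range (xx k)) {r : KK k} (hr : r ∈ RR k c) :
    r ∈ Submodule.span k (OO_S k (cset c) : Set (KK k)) := by
  have h1 : RR k c ≤ Algebra.adjoin k (OO_S k (cset c) : Set (KK k)) := by
    refine Algebra.adjoin_le ?_
    rintro _ ⟨ℓ, g, hg, rfl⟩
    obtain ⟨j, rfl⟩ := hc hg
    unfold lam
    rw [Finset.sum_div]
    refine Subalgebra.sum_mem _ fun i _ => ?_
    have h2 : (∑ l, (xx k j).1 l • uu k l) = uu k j := OO_lam_xx j
    rw [h2, smul_div_assoc]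
    exact Subalgebra.smul_mem _ (Algebra.subset_adjoin (OO_quo hg i)) _
  have h3 : r ∈ Subalgebra.toSubmodule (Algebra.adjoin k (OO_S k (cset c) : Set (KK k))) :=
    h1 hr
  rw [Algebra.adjoin_eq_span, Submonoid.closure_eq] at h3
  exact h3

private theorem OO_sh {b : Set (Fin 3)} {j : Fin 3} (hj : j ∈ b) {d : ℤ} (e : Exb b 0) :
    ∃ e' : Exb b d, (mon e'.1 : KK k) = mon e.1 * uu k j ^ d := by
  obtain ⟨f, hf0, hf1, hf2⟩ : ∃ f : Fin 3 → ℤ, ∑ i, f i = d ∧ (∀ i, i ∉ b → f i = 0) ∧
      (mon f : KK k) = uu k j ^ d := by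
    refine ⟨Pi.single j d, ?_, fun i hi => ?_, OO_mon_single j d⟩
    · rw [Finset.sum_pi_single']
      simp
    · have h1 : i ≠ j := by
        rintro rfl
        exact hi hj
      exact Pi.single_eq_of_ne (M := fun _ => ℤ) h1 d
  obtain ⟨e, he0, he1⟩ := e
  have h0 : ∑ i, (e + f) i = d := by
    simp only [Pi.add_apply]
    rw [Finset.sum_add_distrib, he0, hf0, zero_add]
  have h1 : ∀ i, i ∉ b → 0 ≤ (e + f) i := by
    intro i hi
    rw [Pi.add_apply, hf1 i hi, add_zero]
    exact he1 i hi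
  refine ⟨⟨e + f, h0, h1⟩, ?_⟩
  rw [← hf2, ← OO_mon_mul]

private theorem OO_surj {c : Ch k} (hc : c.1 ⊆ Set.range (xx k)) {d : ℤ} {y : KK k}
    (hy : y ∈ ((OL k).tw d).N c) : ∃ x, OO_L k (cset c) d x = y := by
  obtain ⟨g, hg⟩ := c.2.1
  obtain ⟨j, rfl⟩ := hc hg
  rw [(OL k).mem_tw d hg] at hy
  have h1 := OO_RR hc (show lam k (xx k j).1 ^ (-d) • y ∈ RR k c from hy)
  have h2 : ∀ r ∈ Submodule.span k (OO_S k (cset c) : Set (KK k)),
      r * uu k j ^ d ∈ LinearMap.range (OO_L k (cset c) d) := by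
    intro r hr
    induction hr using Submodule.span_induction with
    | mem x hx =>
      obtain ⟨e, rfl⟩ := hx
      obtain ⟨e', he'⟩ := OO_sh (k := k) (d := d) (show j ∈ cset c from hg) e
      rw [← he']
      exact ⟨_, OO_L_single e'⟩
    | zero =>
      rw [zero_mul]
      exact Submodule.zero_mem _
    | add x y _ _ hx hy =>
      rw [add_mul]
      exact Submodule.add_mem _ hx hy
    | smul a x _ hx =>
      rw [smul_mul_assoc]
      exact Submodule.smul_mem _ _ hx
  obtain ⟨x, hx⟩ := h2 _ h1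
  refine ⟨x, hx.trans ?_⟩
  rw [OO_lam_xx, smul_eq_mul, zpow_neg]
  have h3 : uu k j ^ d ≠ 0 := zpow_ne_zero d (OO_uu_ne j)
  field_simp

/-- On the intersections of coordinate charts the monomials are a basis of the sections of
`O(d)`. PROOF. `u, v` are algebraically independent, so the Laurent monomials `u ^ a v ^ b` are
linearly independent. `R_c` is spanned by the products of the quotients `x_i / x_j`, `j ∈ c`, these
are the monomials of degree `0` with exponents `≥ 0` outside of `c`; multiply with `x_j ^ d`. -/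
theorem monH_bij (d : ℤ) (c : Ch k) (hc : c.1 ⊆ Set.range (xx k)) :
    Function.Bijective ((monH (k := k) d).f c).f := by
  have hco : ∀ x : Exb (cset c) d →₀ k,
      ((show ((OL k).tw d).N c from ((monH (k := k) d).f c).f x) : KK k) =
        OO_L k (cset c) d x := fun x => OO_lift_coe x
  constructor
  · intro x y hxy
    refine OO_inj (cset c) d ?_
    rw [← hco x, ← hco y]
    exact congrArg (fun z : ((OL k).tw d).N c => (z : KK k)) hxy
  · intro y
    obtain ⟨x, hx⟩ := OO_surj hc (show ((OL k).tw d).N c from y).2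
    exact ⟨x, Subtype.ext ((hco x).trans hx)⟩

end Pool.Agent.MP_6e5bed_ag_NS
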