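import Pool.Agent.Lib.MP_6e5bed_ag_NS.AcA
import Pool.Agent.Lib.MP_6e5bed_ag_NS.OO

set_option autoImplicit false

/-!
# MP_6e5bed_ag, NC SURFACES: the cohomology of `O(-1)` vanishes (section 4e)
-/

noncomputable section

namespace Pool.Agent.MP_6e5bed_ag_NS

open Pool.Agent.MP_6e5bed_ag_NC

universe u

variable (k : Type u) [Field k]

/-- the exponents -/
private def AcB_v {b : Set (Fin 3)} {d : ℤ} (e : Exb b d) : Fin 3 → ℤ := e.1

/-- exponents with a property -/
private abbrev AcB_T (P : (Fin 3 → ℤ) → Prop) (b : Set (Fin 3)) (d : ℤ) : Type :=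
  {e : Exb b d // P (AcB_v e)}

private def AcB_inc (P : (Fin 3 → ℤ) → Prop) {a b : Set (Fin 3)} (h : a ⊆ b) {d : ℤ}
    (e : AcB_T P a d) : AcB_T P b d := ⟨Exb.inc h e.1, e.2⟩

/-- the presheaf of the exponents with a property -/
private def AcB_V (P : (Fin 3 → ℤ) → Prop) (d : ℤ) : PC k where
  X := fun c => Cx.conc k (AcB_T P (cset c) d →₀ k)
  ρ := fun {c e} h => concH (Finsupp.lmapDomain k k (AcB_inc P (fun i hi => h hi)))
  ρ_id := by
    intro c h x
    exact Finsupp.mapDomain_id (v := (x : AcB_T P (cset c) d →₀ k))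
  ρ_ρ := by
    intro c d' e h h' x
    exact (Finsupp.mapDomain_comp (v := (x : AcB_T P (cset c) d →₀ k))).symm

open Classical in
private def AcB_pf (P : (Fin 3 → ℤ) → Prop) (b : Set (Fin 3)) (d : ℤ) :
    (Exb b d →₀ k) →ₗ[k] (AcB_T P b d →₀ k) :=
  Finsupp.linearCombination k (fun e => if h : P (AcB_v e) then Finsupp.single ⟨e, h⟩ 1 else 0)

private def AcB_ef (P : (Fin 3 → ℤ) → Prop) (b : Set (Fin 3)) (d : ℤ) :
    (AcB_T P b d →₀ k) →ₗ[k] (Exb b d →₀ k) :=
  Finsupp.lmapDomain k k (fun e : AcB_T P b d => e.1)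

private theorem AcB_pf_pos {P : (Fin 3 → ℤ) → Prop} {b : Set (Fin 3)} {d : ℤ} (e : Exb b d)
    (h : P (AcB_v e)) (r : k) :
    AcB_pf k P b d (Finsupp.single e r) = Finsupp.single (⟨e, h⟩ : AcB_T P b d) r := by
  unfold AcB_pf
  rw [Finsupp.linearCombination_single, dif_pos h, Finsupp.smul_single, smul_eq_mul, mul_one]

private theorem AcB_pf_neg {P : (Fin 3 → ℤ) → Prop} {b : Set (Fin 3)} {d : ℤ} (e : Exb b d)
    (h : ¬ P (AcB_v e)) (r : k) :
    AcB_pf k P b d (Finsupp.single e r) = 0 := by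
  unfold AcB_pf
  rw [Finsupp.linearCombination_single, dif_neg h, smul_zero]

private theorem AcB_pnat (P : (Fin 3 → ℤ) → Prop) {a b : Set (Fin 3)} (h : a ⊆ b) {d : ℤ}
    (x : Exb a d →₀ k) :
    Finsupp.lmapDomain k k (AcB_inc P h) (AcB_pf k P a d x) =
      AcB_pf k P b d (Finsupp.lmapDomain k k (Exb.inc h) x) := by
  have h1 : (Finsupp.lmapDomain k k (AcB_inc P h)).comp (AcB_pf k P a d) =
      (AcB_pf k P b d).comp (Finsupp.lmapDomain k k (Exb.inc h)) := by
    refine Finsupp.lhom_ext fun e r => ?_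
    rw [LinearMap.comp_apply, LinearMap.comp_apply, Finsupp.lmapDomain_apply,
      Finsupp.lmapDomain_apply, Finsupp.mapDomain_single]
    by_cases hP : P (AcB_v e)
    · rw [AcB_pf_pos k e hP, AcB_pf_pos k (Exb.inc h e) hP, Finsupp.mapDomain_single]
      rfl
    · rw [AcB_pf_neg k e hP, AcB_pf_neg k (Exb.inc h e) hP, Finsupp.mapDomain_zero]
  exact LinearMap.congr_fun h1 x

private def AcB_p (P : (Fin 3 → ℤ) → Prop) (d : ℤ) : PCH (monP k d) (AcB_V k P d) where
  f := fun c => concH (AcB_pf k P (cset c) d)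
  nat := fun {c _} h x => AcB_pnat k P (fun _ hi => h hi) (x : Exb (cset c) d →₀ k)

private def AcB_e (P : (Fin 3 → ℤ) → Prop) (d : ℤ) : PCH (AcB_V k P d) (monP k d) where
  f := fun c => concH (AcB_ef k P (cset c) d)
  nat := fun {c c'} h x => by
    have h1 : (Exb.inc (fun i hi => h hi : cset c ⊆ cset c') (d := d)) ∘
        (fun e : AcB_T P (cset c) d => e.1) =
        (fun e : AcB_T P (cset c') d => e.1) ∘ (AcB_inc P (fun i hi => h hi)) := rfl
    have h2 := Finsupp.mapDomain_comp (v := (x : AcB_T P (cset c) d →₀ k))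
      (f := fun e : AcB_T P (cset c) d => e.1)
      (g := Exb.inc (fun i hi => h hi : cset c ⊆ cset c') (d := d))
    have h3 := Finsupp.mapDomain_comp (v := (x : AcB_T P (cset c) d →₀ k))
      (f := AcB_inc P (fun i hi => h hi : cset c ⊆ cset c') (d := d))
      (g := fun e : AcB_T P (cset c') d => e.1)
    exact h2.symm.trans ((congrArg (fun f => Finsupp.mapDomain f _) h1).trans h3)

/-- `i` is the first index with `e i ≥ 0` -/
private def AcB_P (i : Fin 3) (e : Fin 3 → ℤ) : Prop := 0 ≤ e i ∧ ∀ j, j < i → e j < 0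

private theorem AcB_uniq {i j : Fin 3} {e : Fin 3 → ℤ} (hi : AcB_P i e) (hj : AcB_P j e) :
    i = j := by
  rcases lt_trichotomy i j with h | h | h
  · exact absurd (hj.2 i h) (not_lt.2 hi.1)
  · exact h
  · exact absurd (hi.2 j h) (not_lt.2 hj.1)

private theorem AcB_ex {e : Fin 3 → ℤ} (h : ∑ i, e i = -1) : ∃ i, AcB_P i e := by
  rw [Fin.sum_univ_three] at h
  by_cases h0 : 0 ≤ e 0
  · exact ⟨0, h0, fun j hj => absurd hj (Fin.not_lt_zero j)⟩
  · by_cases h1 : 0 ≤ e 1
    · refine ⟨1, h1, fun j hj => ?_⟩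
      have h2 : j = 0 := by
        fin_cases j
        · rfl
        · exact absurd hj (lt_irrefl _)
        · exact absurd hj (by decide)
      rw [h2]
      exact not_le.1 h0
    · refine ⟨2, by omega, fun j hj => ?_⟩
      fin_cases j
      · exact not_le.1 h0
      · exact not_le.1 h1
      · exact absurd hj (lt_irrefl _)

private theorem AcB_dec {b : Set (Fin 3)} (x : Exb b (-1) →₀ k) :
    ∑ i, AcB_ef k (AcB_P i) b (-1) (AcB_pf k (AcB_P i) b (-1) x) = x := by
  have h1 : ∑ i, (AcB_ef k (AcB_P i) b (-1)).comp (AcB_pf k (AcB_P i) b (-1)) =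
      LinearMap.id := by
    refine Finsupp.lhom_ext fun e r => ?_
    rw [LinearMap.sum_apply, LinearMap.id_apply]
    obtain ⟨i, hi⟩ := AcB_ex (e := AcB_v e) e.2.1
    rw [Finset.sum_eq_single i]
    · rw [LinearMap.comp_apply, AcB_pf_pos k e hi]
      unfold AcB_ef
      rw [Finsupp.lmapDomain_apply, Finsupp.mapDomain_single]
    · intro j _ hj
      rw [LinearMap.comp_apply, AcB_pf_neg k e (fun h => hj (AcB_uniq h hi)), map_zero]
    · intro h
      exact absurd (Finset.mem_univ i) h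
  have h2 := LinearMap.congr_fun h1 x
  rw [LinearMap.sum_apply] at h2
  exact h2

private theorem AcB_xx {i j : Fin 3} (h : xx k i = xx k j) : i = j := by
  by_contra hne
  have h1 := congrFun (congrArg Subtype.val h) i
  change (Pi.single i 1 : Fin 3 → k) i = (Pi.single j 1 : Fin 3 → k) i at h1
  rw [Pi.single_eq_same, Pi.single_eq_of_ne hne] at h1
  exact one_ne_zero h1

private theorem AcB_one (i : Fin 3) :
    ((cC (AcB_V k (AcB_P i) (-1)) (FF k)).X (FS.e k)).Acyc := by
  refine cone_acyc _ (xx k i) ?_ ?_ _ ?_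
  · intro c
    have hb : Function.Bijective (AcB_inc (AcB_P i)
        (fun j hj => le_ins' c (xx k i) hj : cset c ⊆ cset (c.fs.ins (xx k i))) (d := -1)) := by
      constructor
      · rintro ⟨⟨e, he⟩, he'⟩ ⟨⟨f, hf⟩, hf'⟩ h
        have h1 : e = f := congrArg (fun z : AcB_T (AcB_P i) (cset (c.fs.ins (xx k i))) (-1) =>
          z.1.1) h
        subst h1
        rfl
      · rintro ⟨⟨e, he1, he2⟩, he3⟩
        refine ⟨⟨⟨e, he1, fun j hj => ?_⟩, he3⟩, rfl⟩
        by_cases hji : j = i
        · rw [hji]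
          exact he3.1
        · refine he2 j fun h => ?_
          rcases h with h | h
          · exact hji (AcB_xx k h)
          · exact hj h
    have h2 : Function.Bijective (Finsupp.lmapDomain k k (AcB_inc (AcB_P i)
        (fun j hj => le_ins' c (xx k i) hj : cset c ⊆ cset (c.fs.ins (xx k i))) (d := -1))) :=
      ⟨Finsupp.mapDomain_injective hb.1, Finsupp.mapDomain_surjective hb.2⟩
    exact h2
  · have h1 : IsEmpty (AcB_T (AcB_P i) (cset ((FS.e k).ins (xx k i))) (-1)) := by
      refine ⟨fun ⟨⟨e, he1, he2⟩, he3⟩ => ?_⟩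
      have h2 : ∀ j, 0 ≤ e j := by
        intro j
        by_cases hji : j = i
        · rw [hji]
          exact he3.1
        · refine he2 j fun h => ?_
          rcases h with h | h
          · exact hji (AcB_xx k h)
          · exact h
      have h3 : 0 ≤ ∑ j, e j := Finset.sum_nonneg fun j _ => h2 j
      omega
    exact (inferInstance : Subsingleton
      (AcB_T (AcB_P i) (cset ((FS.e k).ins (xx k i))) (-1) →₀ k))
  · unfold FF
    fin_cases i <;> simp

/-- PROOF. For `e ∈ Exb b (-1)` let `i` be the smallest index with `e_i ≥ 0` (it exists: otherwise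
the sum would be at most `-3`); it does not depend on `b`. `monP k (-1)` is the direct sum of the
presheaves `V_i`, `i = 0, 1, 2`, of the exponents with this index (`cH_dec` with
`V' i c = {e : Exb (cset c) (-1) // index e = i} →₀ k`, `Finsupp.subtypeDomain`,
`Finsupp.embDomain`). `V_i` does not change under `c → c ∪ x_i`: the new exponents would have
`e_i < 0`. On the chart `x_i ≠ 0` the exponents in `V_i` are all `≥ 0`, but their sum is `-1`. So
`cone_acyc` applies to `V_i` and `l = x_i ∈ FF k`. -/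
theorem acyc_mon : ((cC (monP k (-1)) (FF k)).X (FS.e k)).Acyc := by
  intro x hx
  have h1 := cH_dec (V := monP k (-1)) (fun i : Fin 3 => AcB_V k (AcB_P i) (-1))
    (fun i => AcB_p k (AcB_P i) (-1)) (fun i => AcB_e k (AcB_P i) (-1))
    (fun c x => AcB_dec k (b := cset c) x) (FF k) (FS.e k) x
  have h2 : ∀ i : Fin 3, ∃ y, ((cC (AcB_V k (AcB_P i) (-1)) (FF k)).X (FS.e k)).dg.d y =
      ((cH (AcB_p k (AcB_P i) (-1)) (FF k)).g (FS.e k)).f x := by
    intro i
    refine AcB_one k i _ ?_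
    rw [CHom.d, hx, map_zero]
  choose y hy using h2
  refine ⟨∑ i, ((cH (AcB_e k (AcB_P i) (-1)) (FF k)).g (FS.e k)).f (y i), ?_⟩
  rw [map_sum]
  refine Eq.trans (Finset.sum_congr rfl fun i _ => ?_) h1
  rw [CHom.d, hy]

/-- With `monH_bij` and `cH_bij`. -/
theorem acyc_O : (CC ((OL k).tw (-1)).sh).Acyc := by
  intro x hx
  have hb := cH_bij (monH (k := k) (-1)) (Set.range (xx k)) (fun c hc => monH_bij (-1) c hc)
    (FF k) (fun l hl => by
      unfold FF at hl
      simp only [List.mem_cons, List.not_mem_nil, or_false] at hl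
      rcases hl with h | h | h
      · exact ⟨2, h.symm⟩
      · exact ⟨1, h.symm⟩
      · exact ⟨0, h.symm⟩) (FS.e k) (Set.empty_subset _)
  obtain ⟨y, hy⟩ := hb.2 x
  have h1 : ((cC (monP k (-1)) (FF k)).X (FS.e k)).dg.d y = 0 := by
    apply hb.1
    rw [← CHom.d, hy, map_zero]
    exact hx
  obtain ⟨z, hz⟩ := acyc_mon k y h1
  refine ⟨((cH (monH (k := k) (-1)) (FF k)).g (FS.e k)).f z, ?_⟩
  have h2 := ((cH (monH (k := k) (-1)) (FF k)).g (FS.e k)).d z
  rw [hz, hy] at h2
  exact h2

end Pool.Agent.MP_6e5bed_ag_NS
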