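import Pool.Agent.Lib.MP_6e5bed_ag_CV.Ses
import Pool.Agent.Lib.MP_6e5bed_ag_CV.Tele
import Pool.Agent.Lib.MP_6e5bed_ag_CV.JSpan
import Pool.Agent.Lib.MP_6e5bed_ag_CV.FCRes
import Pool.Agent.Lib.MP_6e5bed_ag_CV.CorPerf
import Pool.Agent.Lib.MP_6e5bed_ag_NC.ResIso

set_option autoImplicit false

/-!
# MP_6e5bed_ag, NC SURFACES: base change along quasi-isomorphisms of dg algebras (R3)
-/

noncomputable section

namespace Pool.Agent.MP_6e5bed_ag_NS

open Pool.Agent.MP_6e5bed_ag_NC

open scoped TensorProduct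

universe u

variable {k : Type u} [Field k] {T T' : DGA k}

/-- a quasi-isomorphism of dg algebras -/
def DQI (r : DHom T' T) : Prop :=
  (∀ x, T'.dg.d x = 0 → (∃ y, T.dg.d y = r.f x) → ∃ z, T'.dg.d z = x) ∧
    ∀ y, T.dg.d y = 0 → ∃ x, T'.dg.d x = 0 ∧ ∃ z, T.dg.d z = y - r.f x

/-! ### General facts -/

private theorem bcQ_of_bij {A B : DGA k} {M N : Bim A B} {φ : GMap 0 M N} (h0 : φ.dd = 0)
    (hb : Function.Bijective φ.f) : QIso φ := by
  refine ⟨h0, ?_, ?_⟩
  · rintro x hx ⟨y, hy⟩
    obtain ⟨z, hz⟩ := hb.2 y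
    exact ⟨z, hb.1 (by rw [← GMap.d_f_zero h0, hz, hy])⟩
  · intro y hy
    obtain ⟨x, hx⟩ := hb.2 y
    exact ⟨x, hb.1 (by rw [← GMap.d_f_zero h0, hx, hy, map_zero]), 0, by
      rw [map_zero, hx, sub_self]⟩

private theorem bcHtpy {A B : DGA k} {M N : Bim A B} {f : GMap 0 M N} (hf : QIso f)
    (hM : ∀ Y : Bim A B, Acyc Y → NullTo M Y) (hN : ∀ Y : Bim A B, Acyc Y → NullTo N Y) :
    HtpyEq f := by
  have hC := isCone_cone f hf.1
  have hA : Acyc (cone f hf.1) := (hC.qiso_iff hf.1).1 hf
  have h1 : IsExt M (cone (GMap.id M) (LinearMap.ext GMap.dd_id)) (M.shift 1) :=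
    (isCone_cone (GMap.id M) (LinearMap.ext GMap.dd_id)).isExt
  have h2 : NullTo (M.shift 1) (cone f hf.1) :=
    NullTo.right h1 (hM _ hA) (NullTo.of_contr (contr_cone_id M) _)
  have h3 : NullTo (cone f hf.1) (cone f hf.1) := NullTo.mid hC.isExt (hN _ hA) h2
  exact hC.htpyEq hf.1 (contr_of_nullTo h3)

private theorem bc_map_sub {A B A' B' : DGA k} (F : DGFun A B A' B') {M N P : Bim A B}
    (g : GMap 0 M N) (ρ : GMap 0 N P) (β : GMap 0 M P) (s : GMap (-1) M P)
    (hs : ∀ x, s.dd x = β.f x - ρ.f (g.f x)) (x : (F.obj M).M) :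
    (F.map s).dd x = (F.map β).f x - (F.map ρ).f ((F.map g).f x) := by
  have e1 : s.D (neg_add_cancel 1) + g.comp ρ (add_zero 0) = β := GMap.ext (fun x => by
    rw [GMap.add_f, GMap.D_f, GMap.comp_f, hs, sub_add_cancel])
  have h3 := F.map_add (s.D (neg_add_cancel 1)) (g.comp ρ (add_zero 0)) x
  rw [e1, F.map_D, F.map_comp] at h3
  rw [eq_sub_iff_add_eq]
  exact h3.symm

/-- The morphism `r`, as a map of bimodules. -/
private def bcMap {A B : DGA k} (r : DHom T' T) (φ : DHom A T') (ψ : DHom B T')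
    (φ' : DHom A T) (ψ' : DHom B T) (h1 : ∀ a, r.f (φ.f a) = φ'.f a)
    (h2 : ∀ b, r.f (ψ.f b) = ψ'.f b) :
    GMap 0 (res φ ψ (diag T')) (res φ' ψ' (diag T)) where
  f := r.f
  deg := fun {i m} hm => by
    rw [add_zero]
    exact r.deg hm
  map_l := fun a m => by
    rw [Dg.sp_zero]
    refine (r.mul (φ.f a) m).trans ?_
    rw [h1]
    rfl
  map_r := fun b m => by
    refine (r.mul m (ψ.f b)).trans ?_
    rw [h2]
    rfl

private theorem bcMap_qiso {A B : DGA k} (r : DHom T' T) (hr : DQI r) (φ : DHom A T')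
    (ψ : DHom B T') (φ' : DHom A T) (ψ' : DHom B T) (h1 : ∀ a, r.f (φ.f a) = φ'.f a)
    (h2 : ∀ b, r.f (ψ.f b) = ψ'.f b) : QIso (bcMap r φ ψ φ' ψ' h1 h2) := by
  refine ⟨LinearMap.ext fun x => ?_, hr.1, hr.2⟩
  rw [GMap.dd_apply, sg_zero, one_smul, LinearMap.zero_apply, sub_eq_zero]
  exact r.d x

private theorem bc_unit (r : DHom T' T) (c : (base k).A) :
    r.f ((DHom.unit T').f c) = (DHom.unit T).f c := by
  change r.f ((show k from c) • T'.one) = (show k from c) • T.one
  rw [map_smul, r.one]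

private theorem bc_fgR_free (W : DGA k) : BIso (fgR (diag W)) (free W (base k)) := by
  refine BIso.of_bij (M := fgR (diag W)) (N := free W (base k))
    { f := TbUnitA.ι W
      deg := fun {i m} hm => by
        rw [add_zero]
        exact TbUnitA.ι_deg W hm
      map_l := fun a m => by
        rw [Dg.sp_even Even.zero]
        rfl
      map_r := fun (c : k) m => by
        rw [base_r (fgR (diag W)) c m, base_r (free W (base k)) c]
        exact map_smul (TbUnitA.ι W) c m } ?_ ?_
  · refine LinearMap.ext (fun z => ?_)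
    rw [GMap.dd_apply, sg_zero, one_smul, LinearMap.zero_apply, sub_eq_zero]
    exact TbUnitA.ι_d W z
  · have h2 := (TensorProduct.rid k W.A).symm.bijective
    exact h2

private theorem bc_fgL_free (W : DGA k) : BIso (fgL (diag W)) (free (base k) W) := by
  have hd : ∀ z : W.A, (free (base k) W).dg.d ((base k).one ⊗ₜ[k] z) =
      (base k).one ⊗ₜ[k] W.dg.d z := by
    intro z
    refine (Dg.tensor_d (X := (base k).dg) (Y := W.dg) (base k).one z).trans ?_
    rw [(base k).d_one, (base k).s_one, TensorProduct.zero_tmul, zero_add]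
  refine BIso.of_bij (M := fgL (diag W)) (N := free (base k) W)
    { f := TensorProduct.mk k k W.A (1 : k)
      deg := fun {i m} hm => by
        have h1 : ((base k).dg.tensor W.dg).IsDeg (0 + i) ((base k).one ⊗ₜ[k] m) :=
          Dg.tensor_deg (base k).one_deg hm
        rw [zero_add] at h1
        rw [add_zero]
        exact h1
      map_l := fun (c : k) m => by
        have h1 : (base k).dg.sp 0 c = c := Dg.sp_even Even.zero c
        rw [h1, base_l (fgL (diag W)) c m, base_l (free (base k) W) c]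
        exact map_smul (TensorProduct.mk k k W.A (1 : k)) c m
      map_r := fun b m => rfl } ?_ ?_
  · refine LinearMap.ext (fun z => ?_)
    rw [GMap.dd_apply, sg_zero, one_smul, LinearMap.zero_apply, sub_eq_zero]
    exact hd z
  · have h2 := (TensorProduct.lid k W.A).symm.bijective
    exact h2

/-! ### The restriction of perfect bimodules -/

private theorem bc_freeL (r : DHom T' T) (hr : DQI r) :
    HasRes (res r (DHom.id (base k)) (free T (base k))) := by
  have h1 : HasRes (fgR (diag T')) := (perf_fgR_diag T').hasRes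
  have h2 : HasRes (res r (DHom.id (base k)) (fgR (diag T))) :=
    h1.of_qiso (N := res r (DHom.id (base k)) (fgR (diag T)))
      (bcMap r (DHom.id T') (DHom.unit T') r (DHom.unit T) (fun _ => rfl) (bc_unit r))
      (bcMap_qiso r hr _ _ _ _ _ _)
  exact h2.iso ((resF r (DHom.id (base k))).biso (bc_fgR_free T))

private theorem bc_freeR (r : DHom T' T) (hr : DQI r) :
    HasRes (res (DHom.id (base k)) r (free (base k) T)) := by
  have h1 : HasRes (fgL (diag T')) := (perf_fgL_diag T').hasRes
  have h2 : HasRes (res (DHom.id (base k)) r (fgL (diag T))) :=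
    h1.of_qiso (N := res (DHom.id (base k)) r (fgL (diag T)))
      (bcMap r (DHom.unit T') (DHom.id T') (DHom.unit T) r (bc_unit r) (fun _ => rfl))
      (bcMap_qiso r hr _ _ _ _ _ _)
  exact h2.iso ((resF (DHom.id (base k)) r).biso (bc_fgL_free T))

private theorem bc_free (r : DHom T' T) (hr : DQI r) : HasRes (res r r (free T T)) := by
  have h1 : HasRes (tb (res r (DHom.id (base k)) (free T (base k)))
      (res (DHom.id (base k)) r (free (base k) T))) :=
    (bc_freeL r hr).tb base_proper (bc_freeR r hr) (rflat_base _)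
  have h2 := res_tb r r (free T (base k)) (free (base k) T)
  have h3 : BIso (res r r (tb (free T (base k)) (free (base k) T))) (res r r (free T T)) :=
    (resF r r).biso (tb_free_free T T)
  exact (h1.iso h2.symm).iso h3

private theorem bc_perf (r : DHom T' T) (hr : DQI r) {P : Bim T T} (h : Perf P) :
    HasRes (res r r P) := by
  induction h with
  | free => exact bc_free r hr
  | contr h => exact HasRes.of_acyc ((resF r r).contr h).acyc
  | mid h _ _ h1 h2 => exact (h.isSes.res r r).mid h1 h2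
  | left h _ _ h1 h2 => exact (h.isSes.res r r).left h1 h2
  | right h _ _ h1 h2 => exact (h.isSes.res r r).right h1 h2
  | summand h _ h1 => exact h1.summand ((resF r r).isSummand h)

private theorem bc_res (r : DHom T' T) (hr : DQI r) {M : Bim T T} (h : HasRes M) :
    HasRes (res r r M) := by
  obtain ⟨P, φ, hP, hφ⟩ := h
  exact (bc_perf r hr hP).of_qiso (φ.res r r) hφ

private theorem bc_sm (r : DHom T' T) (hr : DQI r) (hT : Smooth T) : Smooth T' :=
  smooth_of_hasRes ((bc_res r hr hT.hasRes_diag).of_qiso' (N := res r r (diag T))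
    (M := diag T')
    (bcMap r (DHom.id T') (DHom.id T') r r (fun _ => rfl) (fun _ => rfl))
    (bcMap_qiso r hr _ _ _ _ _ _))

/-! ### The action maps -/

private def bcALf {A B : DGA k} (r : DHom T' T) (φ : DHom A T) (N : Bim T B) :
    (tb (res φ r (diag T)) (res r (DHom.id B) N)).M →ₗ[k] N.M :=
  tlift (M := res φ r (diag T)) (N := res r (DHom.id B) N) (U := N.M) N.l
    (fun m b n => N.l_mul m (r.f b) n)

private theorem bcALf_tm {A B : DGA k} (r : DHom T' T) (φ : DHom A T) (N : Bim T B)
    (x : T.A) (n : N.M) :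
    bcALf r φ N (tm (M := res φ r (diag T)) (N := res r (DHom.id B) N) x n) = N.l x n :=
  tlift_tm (M := res φ r (diag T)) (N := res r (DHom.id B) N) (U := N.M) N.l
    (fun m b n => N.l_mul m (r.f b) n) x n

private theorem bcALf_l {A B : DGA k} (r : DHom T' T) (φ : DHom A T) (N : Bim T B) (a : A.A)
    (x : (tb (res φ r (diag T)) (res r (DHom.id B) N)).M) :
    bcALf r φ N ((tb (res φ r (diag T)) (res r (DHom.id B) N)).l a x) =
      N.l (φ.f a) (bcALf r φ N x) := by
  have h : (bcALf r φ N).comp ((tb (res φ r (diag T)) (res r (DHom.id B) N)).l a) =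
      (N.l (φ.f a)).comp (bcALf r φ N) := by
    refine tb_hom_ext (M := res φ r (diag T)) (N := res r (DHom.id B) N) (fun m n => ?_)
    rw [LinearMap.comp_apply, LinearMap.comp_apply, tb_l]
    refine (bcALf_tm r φ N _ n).trans ?_
    refine Eq.trans ?_ (congrArg (N.l (φ.f a)) (bcALf_tm r φ N m n).symm)
    exact N.l_mul (φ.f a) m n
  exact LinearMap.congr_fun h x

private theorem bcALf_r {A B : DGA k} (r : DHom T' T) (φ : DHom A T) (N : Bim T B) (c : B.A)
    (x : (tb (res φ r (diag T)) (res r (DHom.id B) N)).M) :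
    bcALf r φ N ((tb (res φ r (diag T)) (res r (DHom.id B) N)).r c x) =
      N.r c (bcALf r φ N x) := by
  have h : (bcALf r φ N).comp ((tb (res φ r (diag T)) (res r (DHom.id B) N)).r c) =
      (N.r c).comp (bcALf r φ N) := by
    refine tb_hom_ext (M := res φ r (diag T)) (N := res r (DHom.id B) N) (fun m n => ?_)
    rw [LinearMap.comp_apply, LinearMap.comp_apply, tb_r]
    refine (bcALf_tm r φ N m _).trans ?_
    refine Eq.trans ?_ (congrArg (N.r c) (bcALf_tm r φ N m n).symm)
    exact N.l_r m c n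
  exact LinearMap.congr_fun h x

private theorem bcALf_d {A B : DGA k} (r : DHom T' T) (φ : DHom A T) (N : Bim T B)
    (x : (tb (res φ r (diag T)) (res r (DHom.id B) N)).M) :
    N.dg.d (bcALf r φ N x) =
      bcALf r φ N ((tb (res φ r (diag T)) (res r (DHom.id B) N)).dg.d x) := by
  have h : (N.dg.d).comp (bcALf r φ N) =
      (bcALf r φ N).comp ((tb (res φ r (diag T)) (res r (DHom.id B) N)).dg.d) := by
    refine tb_hom_ext (M := res φ r (diag T)) (N := res r (DHom.id B) N) (fun m n => ?_)
    rw [LinearMap.comp_apply, LinearMap.comp_apply, tb_d, map_add]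
    refine (congrArg N.dg.d (bcALf_tm r φ N m n)).trans ?_
    refine (N.d_l m n).trans ?_
    exact congrArg₂ (· + ·) (bcALf_tm r φ N _ _).symm (bcALf_tm r φ N _ _).symm
  exact LinearMap.congr_fun h x

/-- `x ⊗ n ↦ x n` -/
private def bcAL {A B : DGA k} (r : DHom T' T) (φ : DHom A T) (N : Bim T B) :
    GMap 0 (tb (res φ r (diag T)) (res r (DHom.id B) N)) (res φ (DHom.id B) N) where
  f := bcALf r φ N
  deg := fun {i x} hx => by
    refine tb_degMap (M := res φ r (diag T)) (N := res r (DHom.id B) N)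
      (Z := (res φ (DHom.id B) N).dg) (n := 0) (bcALf r φ N)
      (fun {p q a m} ha hm => ?_) hx
    have h1 : N.dg.IsDeg (p + q) (N.l a m) := N.l_deg ha hm
    have h2 := bcALf_tm r φ N a m
    rw [add_zero]
    rw [← h2] at h1
    exact h1
  map_l := fun a x => by
    rw [Dg.sp_zero]
    exact bcALf_l r φ N a x
  map_r := fun c x => bcALf_r r φ N c x

private theorem bcAL_tm {A B : DGA k} (r : DHom T' T) (φ : DHom A T) (N : Bim T B)
    (x : T.A) (n : N.M) :
    (bcAL r φ N).f (tm (M := res φ r (diag T)) (N := res r (DHom.id B) N) x n) = N.l x n :=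
  bcALf_tm r φ N x n

private theorem bcAL_dd {A B : DGA k} (r : DHom T' T) (φ : DHom A T) (N : Bim T B) :
    (bcAL r φ N).dd = 0 := by
  refine LinearMap.ext fun x => ?_
  rw [GMap.dd_apply, sg_zero, one_smul, LinearMap.zero_apply, sub_eq_zero]
  exact bcALf_d r φ N x

private def bcARf {A B : DGA k} (r : DHom T' T) (φ : DHom A T) (N : Bim B T) :
    (tb (res (DHom.id B) r N) (res r φ (diag T))).M →ₗ[k] N.M :=
  tlift (M := res (DHom.id B) r N) (N := res r φ (diag T)) (U := N.M) N.r.flip
    (fun m b n => (N.r_mul (r.f b) n m).symm)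

private theorem bcARf_tm {A B : DGA k} (r : DHom T' T) (φ : DHom A T) (N : Bim B T)
    (n : N.M) (x : T.A) :
    bcARf r φ N (tm (M := res (DHom.id B) r N) (N := res r φ (diag T)) n x) = N.r x n :=
  tlift_tm (M := res (DHom.id B) r N) (N := res r φ (diag T)) (U := N.M) N.r.flip
    (fun m b n => (N.r_mul (r.f b) n m).symm) n x

private theorem bcARf_l {A B : DGA k} (r : DHom T' T) (φ : DHom A T) (N : Bim B T) (b : B.A)
    (x : (tb (res (DHom.id B) r N) (res r φ (diag T))).M) :
    bcARf r φ N ((tb (res (DHom.id B) r N) (res r φ (diag T))).l b x) =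
      N.l b (bcARf r φ N x) := by
  have h : (bcARf r φ N).comp ((tb (res (DHom.id B) r N) (res r φ (diag T))).l b) =
      (N.l b).comp (bcARf r φ N) := by
    refine tb_hom_ext (M := res (DHom.id B) r N) (N := res r φ (diag T)) (fun m n => ?_)
    rw [LinearMap.comp_apply, LinearMap.comp_apply, tb_l]
    refine (bcARf_tm r φ N _ n).trans ?_
    refine Eq.trans ?_ (congrArg (N.l b) (bcARf_tm r φ N m n).symm)
    exact (N.l_r b n m).symm
  exact LinearMap.congr_fun h x

private theorem bcARf_r {A B : DGA k} (r : DHom T' T) (φ : DHom A T) (N : Bim B T) (c : A.A)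
    (x : (tb (res (DHom.id B) r N) (res r φ (diag T))).M) :
    bcARf r φ N ((tb (res (DHom.id B) r N) (res r φ (diag T))).r c x) =
      N.r (φ.f c) (bcARf r φ N x) := by
  have h : (bcARf r φ N).comp ((tb (res (DHom.id B) r N) (res r φ (diag T))).r c) =
      (N.r (φ.f c)).comp (bcARf r φ N) := by
    refine tb_hom_ext (M := res (DHom.id B) r N) (N := res r φ (diag T)) (fun m n => ?_)
    rw [LinearMap.comp_apply, LinearMap.comp_apply, tb_r]
    refine (bcARf_tm r φ N m _).trans ?_
    refine Eq.trans ?_ (congrArg (N.r (φ.f c)) (bcARf_tm r φ N m n).symm)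
    exact N.r_mul n (φ.f c) m
  exact LinearMap.congr_fun h x

private theorem bcARf_d {A B : DGA k} (r : DHom T' T) (φ : DHom A T) (N : Bim B T)
    (x : (tb (res (DHom.id B) r N) (res r φ (diag T))).M) :
    N.dg.d (bcARf r φ N x) =
      bcARf r φ N ((tb (res (DHom.id B) r N) (res r φ (diag T))).dg.d x) := by
  have h : (N.dg.d).comp (bcARf r φ N) =
      (bcARf r φ N).comp ((tb (res (DHom.id B) r N) (res r φ (diag T))).dg.d) := by
    refine tb_hom_ext (M := res (DHom.id B) r N) (N := res r φ (diag T)) (fun m n => ?_)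
    rw [LinearMap.comp_apply, LinearMap.comp_apply, tb_d, map_add]
    refine (congrArg N.dg.d (bcARf_tm r φ N m n)).trans ?_
    refine (N.d_r n m).trans ?_
    exact congrArg₂ (· + ·) (bcARf_tm r φ N _ _).symm (bcARf_tm r φ N _ _).symm
  exact LinearMap.congr_fun h x

/-- `n ⊗ x ↦ n x` -/
private def bcAR {A B : DGA k} (r : DHom T' T) (φ : DHom A T) (N : Bim B T) :
    GMap 0 (tb (res (DHom.id B) r N) (res r φ (diag T))) (res (DHom.id B) φ N) where
  f := bcARf r φ N
  deg := fun {i x} hx => by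
    refine tb_degMap (M := res (DHom.id B) r N) (N := res r φ (diag T))
      (Z := (res (DHom.id B) φ N).dg) (n := 0) (bcARf r φ N)
      (fun {p q a m} ha hm => ?_) hx
    have h1 : N.dg.IsDeg (p + q) (N.r m a) := N.r_deg ha hm
    have h2 := bcARf_tm r φ N a m
    rw [add_zero]
    rw [← h2] at h1
    exact h1
  map_l := fun a x => by
    rw [Dg.sp_zero]
    exact bcARf_l r φ N a x
  map_r := fun c x => bcARf_r r φ N c x

private theorem bcAR_tm {A B : DGA k} (r : DHom T' T) (φ : DHom A T) (N : Bim B T)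
    (n : N.M) (x : T.A) :
    (bcAR r φ N).f (tm (M := res (DHom.id B) r N) (N := res r φ (diag T)) n x) = N.r x n :=
  bcARf_tm r φ N n x

private theorem bcAR_dd {A B : DGA k} (r : DHom T' T) (φ : DHom A T) (N : Bim B T) :
    (bcAR r φ N).dd = 0 := by
  refine LinearMap.ext fun x => ?_
  rw [GMap.dd_apply, sg_zero, one_smul, LinearMap.zero_apply, sub_eq_zero]
  exact bcARf_d r φ N x

/-! ### The action maps are quasi-isomorphisms -/

/-- the core of the argument, for right modules -/
private theorem bcL_core {B : DGA k} (r : DHom T' T) (hr : DQI r) {R : Bim (base k) T'}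
    (hR : ∀ Y : Bim (base k) T', Acyc Y → NullTo R Y)
    (ρ : GMap 0 R (res (DHom.unit T) r (diag T))) (hρ : QIso ρ) (N : Bim T B) :
    QIso ((ρ.tbR (res r (DHom.id B) N)).comp (bcAL r (DHom.unit T) N) (add_zero 0)) := by
  obtain ⟨β, hβf, hβ⟩ : ∃ β : GMap 0 (fgL (diag T')) (res (DHom.unit T) r (diag T)),
      (∀ x, β.f x = r.f x) ∧ QIso β :=
    ⟨bcMap r (DHom.unit T') (DHom.id T') (DHom.unit T) r (bc_unit r) (fun _ => rfl),
      fun _ => rfl, bcMap_qiso r hr _ _ _ _ _ _⟩
  obtain ⟨g, s, hg, hs⟩ := HProj.lift (perf_fgL_diag T').hproj ρ hρ β hβ.1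
  have hgq : QIso g := QIso.of_comp_right hg hρ (QIso.of_htpy hβ (by
    ext x
    rw [GMap.dd_comp, hg, hρ.1]
    simp) (-s) (fun x => by
      rw [GMap.dd_neg, hs, GMap.comp_f]
      abel))
  have hgh : HtpyEq g := bcHtpy hgq (fun Y hY => (perf_fgL_diag T').hproj Y hY) hR
  have h1 : QIso (g.tbR (res r (DHom.id B) N)) :=
    (hgh.map (tbR (base k) (res r (DHom.id B) N))).qiso
  have hcl : (ρ.tbR (res r (DHom.id B) N)).dd = 0 :=
    (tbR (base k) (res r (DHom.id B) N)).closed hρ.1
  have hclβ : (β.tbR (res r (DHom.id B) N)).dd = 0 :=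
    (tbR (base k) (res r (DHom.id B) N)).closed hβ.1
  have hact := bcAL_dd r (DHom.unit T) N
  -- the unit isomorphism
  have h2 : QIso ((β.tbR (res r (DHom.id B) N)).comp (bcAL r (DHom.unit T) N)
      (add_zero 0)) := by
    obtain ⟨F, hF⟩ : ∃ F : (tb (fgL (diag T')) (res r (DHom.id B) N)).M →ₗ[k] N.M,
        ∀ x, F x = ((β.tbR (res r (DHom.id B) N)).comp (bcAL r (DHom.unit T) N)
          (add_zero 0)).f x := ⟨_, fun _ => rfl⟩
    have hval : ∀ (t : T'.A) (n : N.M),
        F (tm (M := fgL (diag T')) (N := res r (DHom.id B) N) t n) = N.l (r.f t) n := by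
      intro t n
      refine (hF _).trans ?_
      refine (congrArg (bcAL r (DHom.unit T) N).f
        (GMap.tbR_tm β (res r (DHom.id B) N) t n)).trans ?_
      refine (bcAL_tm r (DHom.unit T) N (β.f t) n).trans ?_
      exact congrArg (fun z => N.l z n) (hβf t)
    have hinv : ∀ x, tm (M := fgL (diag T')) (N := res r (DHom.id B) N) T'.one (F x) = x := by
      refine tb_ind ?_ ?_ ?_
      · rw [map_zero]
        exact tm_zero_right (M := fgL (diag T')) (N := res r (DHom.id B) N) T'.one
      · intro x y hx hy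
        rw [map_add]
        refine (tm_add_right (M := fgL (diag T')) (N := res r (DHom.id B) N)
          T'.one (F x) (F y)).trans ?_
        rw [hx, hy]
      · intro t n
        rw [hval t n]
        refine (tm_r_l (M := fgL (diag T')) (N := res r (DHom.id B) N)
          T'.one t n).symm.trans ?_
        exact congrArg (fun z => tm (M := fgL (diag T')) (N := res r (DHom.id B) N) z n)
          (T'.one_mul t)
    have hinv2 : ∀ n : N.M,
        F (tm (M := fgL (diag T')) (N := res r (DHom.id B) N) T'.one n) = n := by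
      intro n
      rw [hval T'.one n, r.one, N.l_one]
    refine bcQ_of_bij ?_ ⟨?_, ?_⟩
    · ext x
      rw [GMap.dd_comp, hclβ, hact]
      simp
    · intro x y hxy
      have h3 : F x = F y := by
        rw [hF, hF]
        exact hxy
      rw [← hinv x, ← hinv y, h3]
    · intro n
      exact ⟨tm (M := fgL (diag T')) (N := res r (DHom.id B) N) T'.one n,
        (hF _).symm.trans (hinv2 n)⟩
  -- the homotopy
  have e2 : ∀ x, (s.tbR (res r (DHom.id B) N)).dd x = (β.tbR (res r (DHom.id B) N)).f x -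
      (ρ.tbR (res r (DHom.id B) N)).f ((g.tbR (res r (DHom.id B) N)).f x) := fun x =>
    bc_map_sub (tbR (base k) (res r (DHom.id B) N)) g ρ β s hs x
  have h4 : QIso ((g.tbR (res r (DHom.id B) N)).comp
      ((ρ.tbR (res r (DHom.id B) N)).comp (bcAL r (DHom.unit T) N) (add_zero 0))
      (add_zero 0)) := by
    refine QIso.of_htpy h2 ?_ (-((s.tbR (res r (DHom.id B) N)).comp
      (bcAL r (DHom.unit T) N) (add_zero (-1)))) (fun x => ?_)
    · ext x
      rw [GMap.dd_comp, GMap.dd_comp, h1.1, hcl, hact]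
      simp
    · rw [GMap.dd_neg, GMap.dd_comp, hact, e2, GMap.comp_f, GMap.comp_f, GMap.comp_f,
        map_sub, sg_zero, one_smul, LinearMap.zero_apply]
      abel
  refine QIso.of_comp_left h1 ?_ h4
  ext x
  rw [GMap.dd_comp, hcl, hact]
  simp

/-- the core of the argument, for left modules -/
private theorem bcR_core {B : DGA k} (r : DHom T' T) (hr : DQI r) {R : Bim T' (base k)}
    (hR : ∀ Y : Bim T' (base k), Acyc Y → NullTo R Y)
    (ρ : GMap 0 R (res r (DHom.unit T) (diag T))) (hρ : QIso ρ) (N : Bim B T) :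
    QIso ((ρ.tbL (res (DHom.id B) r N)).comp (bcAR r (DHom.unit T) N) (add_zero 0)) := by
  obtain ⟨β, hβf, hβ⟩ : ∃ β : GMap 0 (fgR (diag T')) (res r (DHom.unit T) (diag T)),
      (∀ x, β.f x = r.f x) ∧ QIso β :=
    ⟨bcMap r (DHom.id T') (DHom.unit T') r (DHom.unit T) (fun _ => rfl) (bc_unit r),
      fun _ => rfl, bcMap_qiso r hr _ _ _ _ _ _⟩
  obtain ⟨g, s, hg, hs⟩ := HProj.lift (perf_fgR_diag T').hproj ρ hρ β hβ.1
  have hgq : QIso g := QIso.of_comp_right hg hρ (QIso.of_htpy hβ (by
    ext x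
    rw [GMap.dd_comp, hg, hρ.1]
    simp) (-s) (fun x => by
      rw [GMap.dd_neg, hs, GMap.comp_f]
      abel))
  have hgh : HtpyEq g := bcHtpy hgq (fun Y hY => (perf_fgR_diag T').hproj Y hY) hR
  have h1 : QIso (g.tbL (res (DHom.id B) r N)) :=
    (hgh.map (tbL (res (DHom.id B) r N) (base k))).qiso
  have hcl : (ρ.tbL (res (DHom.id B) r N)).dd = 0 :=
    (tbL (res (DHom.id B) r N) (base k)).closed hρ.1
  have hclβ : (β.tbL (res (DHom.id B) r N)).dd = 0 :=
    (tbL (res (DHom.id B) r N) (base k)).closed hβ.1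
  have hact := bcAR_dd r (DHom.unit T) N
  -- the unit isomorphism
  have h2 : QIso ((β.tbL (res (DHom.id B) r N)).comp (bcAR r (DHom.unit T) N)
      (add_zero 0)) := by
    obtain ⟨F, hF⟩ : ∃ F : (tb (res (DHom.id B) r N) (fgR (diag T'))).M →ₗ[k] N.M,
        ∀ x, F x = ((β.tbL (res (DHom.id B) r N)).comp (bcAR r (DHom.unit T) N)
          (add_zero 0)).f x := ⟨_, fun _ => rfl⟩
    have hval : ∀ (n : N.M) (t : T'.A),
        F (tm (M := res (DHom.id B) r N) (N := fgR (diag T')) n t) = N.r (r.f t) n := by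
      intro n t
      refine (hF _).trans ?_
      refine (congrArg (bcAR r (DHom.unit T) N).f
        (GMap.tbL_tm (res (DHom.id B) r N) β n t)).trans ?_
      have h5 : (res (DHom.id B) r N).dg.sp 0 n = n :=
        Dg.sp_zero (X := (res (DHom.id B) r N).dg) n
      refine (congrArg (fun z => (bcAR r (DHom.unit T) N).f
        (tm (M := res (DHom.id B) r N) (N := res r (DHom.unit T) (diag T)) z (β.f t)))
        h5).trans ?_
      refine (bcAR_tm r (DHom.unit T) N n (β.f t)).trans ?_
      exact congrArg (fun z => N.r z n) (hβf t)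
    have hinv : ∀ x, tm (M := res (DHom.id B) r N) (N := fgR (diag T')) (F x) T'.one = x := by
      refine tb_ind ?_ ?_ ?_
      · rw [map_zero]
        exact tm_zero_left (M := res (DHom.id B) r N) (N := fgR (diag T')) T'.one
      · intro x y hx hy
        rw [map_add]
        refine (tm_add_left (M := res (DHom.id B) r N) (N := fgR (diag T'))
          (F x) (F y) T'.one).trans ?_
        rw [hx, hy]
      · intro n t
        rw [hval n t]
        refine (tm_r_l (M := res (DHom.id B) r N) (N := fgR (diag T'))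
          n t T'.one).trans ?_
        exact congrArg (fun z => tm (M := res (DHom.id B) r N) (N := fgR (diag T')) n z)
          (T'.mul_one t)
    have hinv2 : ∀ n : N.M,
        F (tm (M := res (DHom.id B) r N) (N := fgR (diag T')) n T'.one) = n := by
      intro n
      rw [hval n T'.one, r.one, N.r_one]
    refine bcQ_of_bij ?_ ⟨?_, ?_⟩
    · ext x
      rw [GMap.dd_comp, hclβ, hact]
      simp
    · intro x y hxy
      have h3 : F x = F y := by
        rw [hF, hF]
        exact hxy
      rw [← hinv x, ← hinv y, h3]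
    · intro n
      exact ⟨tm (M := res (DHom.id B) r N) (N := fgR (diag T')) n T'.one,
        (hF _).symm.trans (hinv2 n)⟩
  -- the homotopy
  have e2 : ∀ x, (s.tbL (res (DHom.id B) r N)).dd x = (β.tbL (res (DHom.id B) r N)).f x -
      (ρ.tbL (res (DHom.id B) r N)).f ((g.tbL (res (DHom.id B) r N)).f x) := fun x =>
    bc_map_sub (tbL (res (DHom.id B) r N) (base k)) g ρ β s hs x
  have h4 : QIso ((g.tbL (res (DHom.id B) r N)).comp
      ((ρ.tbL (res (DHom.id B) r N)).comp (bcAR r (DHom.unit T) N) (add_zero 0))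
      (add_zero 0)) := by
    refine QIso.of_htpy h2 ?_ (-((s.tbL (res (DHom.id B) r N)).comp
      (bcAR r (DHom.unit T) N) (add_zero (-1)))) (fun x => ?_)
    · ext x
      rw [GMap.dd_comp, GMap.dd_comp, h1.1, hcl, hact]
      simp
    · rw [GMap.dd_neg, GMap.dd_comp, hact, e2, GMap.comp_f, GMap.comp_f, GMap.comp_f,
        map_sub, sg_zero, one_smul, LinearMap.zero_apply]
      abel
  refine QIso.of_comp_left h1 ?_ h4
  ext x
  rw [GMap.dd_comp, hcl, hact]
  simp

private theorem bcL {B : DGA k} (r : DHom T' T) (hr : DQI r) {R : Bim T T'} (hR : Perf R)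
    (ρ : GMap 0 R (res (DHom.id T) r (diag T))) (hρ : QIso ρ) (N : Bim T B) :
    ∃ g : GMap 0 (tb R (res r (DHom.id B) N)) N, QIso g := by
  have h1 : QIso (ρ.res (DHom.unit T) (DHom.id T')) := hρ
  have h2 := bcL_core (B := B) r hr (R := fgL R) (fun Y hY => nullTo_fgL hR hY)
    (ρ.res (DHom.unit T) (DHom.id T')) h1 N
  exact ⟨(ρ.tbR (res r (DHom.id B) N)).comp (bcAL r (DHom.id T) N) (add_zero 0), h2⟩

private theorem bcR {B : DGA k} (r : DHom T' T) (hr : DQI r) {R : Bim T' T} (hR : Perf R)
    (ρ : GMap 0 R (res r (DHom.id T) (diag T))) (hρ : QIso ρ) (N : Bim B T) :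
    ∃ g : GMap 0 (tb (res (DHom.id B) r N) R) N, QIso g := by
  have h1 : QIso (ρ.res (DHom.id T') (DHom.unit T)) := hρ
  have h2 := bcR_core (B := B) r hr (R := fgR R) (fun Y hY => nullTo_fgR hR hY)
    (ρ.res (DHom.id T') (DHom.unit T)) h1 N
  exact ⟨(ρ.tbL (res (DHom.id B) r N)).comp (bcAR r (DHom.id T) N) (add_zero 0), h2⟩

private theorem bc_js {Good : DGA k → Prop} (hT' : Proper T') (a : K0Q T T') (b : K0Q T' T)
    {z : K0Q T' T'} (hz : z ∈ JS Good T') :
    K0Q.comp hT' (K0Q.comp hT' a z) b ∈ JS Good T := by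
  unfold JS at hz
  induction hz using Submodule.span_induction with
  | mem x hx =>
    obtain ⟨X, hX, f, g, hG, rfl⟩ := hx
    have h1 : K0Q.comp hT' (K0Q.comp hT' a (K0Q.comp hX f g)) b =
        K0Q.comp hX (K0Q.comp hT' a f) (K0Q.comp hT' g b) := by
      rw [← K0Q.comp_assoc hT' hX a f g, K0Q.comp_assoc hX hT' (K0Q.comp hT' a f) g b]
    rw [h1]
    exact JS.comp hX hG _ _
  | zero =>
    rw [map_zero, map_zero, LinearMap.zero_apply]
    exact Submodule.zero_mem _
  | add x y _ _ ihx ihy =>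
    rw [map_add, map_add, LinearMap.add_apply]
    exact Submodule.add_mem _ ihx ihy
  | smul c x _ ih =>
    rw [map_smul, map_smul, LinearMap.smul_apply]
    exact Submodule.smul_mem _ _ ih

/-- Smoothness passes to quasi-isomorphic dg algebras. PROOF. `T' ⊗ T' → T ⊗ T` is a
quasi-isomorphism (tensor products over a field), so the restriction of the free bimodule of `T`
has a resolution; by induction on the derivation (`Perf`; cones: `IsSes.mid` etc., summands:
`HasRes.summand`, contractible: `HasRes.of_acyc`) the restriction of every perfect `T`-bimodule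
has one. `diag T' → res r r (diag T)` is a quasi-isomorphism, and `diag T` has a perfect
resolution; so `diag T'` has a resolution (`HasRes.of_qiso'`); `smooth_of_hasRes`. -/
theorem bc_smooth (r : DHom T' T) (hr : DQI r) (hT : Smooth T) : Smooth T' :=
  bc_sm r hr hT

/-- The same for bimodules: restriction preserves resolutions. -/
theorem bc_hasRes (r : DHom T' T) (hr : DQI r) {M : Bim T T} (h : HasRes M) :
    HasRes (res r r M) :=
  bc_res r hr h

/-- A bimodule over `T` has a resolution if its restriction to `T'` has one, and its class factors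
through good dg algebras if the class of the restriction does. PROOF. `T`, `T'` smooth and proper.
Let `P → res r r M` be a perfect resolution over `T'`, `X = T` as a `T-T'`-bimodule
(`res id r (diag T)`), `Y = T` as a `T'-T`-bimodule. The map
`X ⊗_{T'} P ⊗_{T'} Y → M`, `x ⊗ p ⊗ y ↦ x φ(p) y`, is a quasi-isomorphism: composed with
`P = T' ⊗ P ⊗ T' → X ⊗ P ⊗ Y` it is `φ`, and this map is a quasi-isomorphism because tensoring with
the perfect bimodule `P` (on either side) preserves the quasi-isomorphisms `T' → X`, `T' → Y` of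
one-sided modules (`QIso`/`RQIso` with `tbR`, `tbL`; `P` restricted to one side is h-projective).
`X` and `Y` are FinCoh, so they have perfect resolutions `RX`, `RY` (`HasRes.of_finCoh`), and
`RX ⊗ P ⊗ RY → X ⊗ P ⊗ Y` is a quasi-isomorphism. So
`rcls M = comp (comp (rcls X) (cls P)) (rcls Y)`; `JS` is stable under compositions
(associativity of `K0Q.comp`). -/
theorem bc_mem {Good : DGA k → Prop} (r : DHom T' T) (hr : DQI r) (hT : Smooth T)
    (hp : Proper T) {M : Bim T T} (h : HasRes (res r r M)) (hm : rcls _ h ∈ JS Good T') :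
    ∃ h : HasRes M, rcls M h ∈ JS Good T := by
  have hT' : Smooth T' := bc_sm r hr hT
  have hfin : T.dg.FinCoh := (proper_iff T).1 hp
  have hp' : Proper T' := by
    refine (proper_iff T').2 ?_
    have h1 : (diag T').dg.FinCoh := (QIso.finCoh (M := diag T') (N := res r r (diag T))
      (bcMap r (DHom.id T') (DHom.id T') r r (fun _ => rfl) (fun _ => rfl))
      (bcMap_qiso r hr _ _ _ _ _ _)).2 hfin
    exact h1
  obtain ⟨RX, ρ, hRX, hρ⟩ := HasRes.of_finCoh hT hT' (res (DHom.id T) r (diag T)) hfin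
  obtain ⟨RY, σ, hRY, hσ⟩ := HasRes.of_finCoh hT' hT (res r (DHom.id T) (diag T)) hfin
  obtain ⟨P, φ, hP, hφ⟩ := id h
  obtain ⟨g1, hg1⟩ := bcL (B := T') r hr hRX ρ hρ (res (DHom.id T) r M)
  obtain ⟨g2, hg2⟩ := bcR (B := T) r hr hRY σ hσ M
  obtain ⟨φ', hφ'⟩ : ∃ φ' : GMap 0 P (res r (DHom.id T') (res (DHom.id T) r M)), QIso φ' :=
    ⟨φ, hφ⟩
  have h1 : QIso ((φ'.tbL RX).comp g1 (add_zero 0)) :=
    (RQIso.tbL hRX ((rqiso_iff φ').2 hφ')).qiso.comp hg1
  have h2 : QIso (((φ'.tbL RX).comp g1 (add_zero 0)).tbR RY) :=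
    (RQIso.tbR ((rqiso_iff _).2 h1) hRY).qiso
  have h3 := h2.comp hg2
  have hPerf : Perf (tb (tb RX P) RY) := Perf.tb hp' (Perf.tb hp' hRX hP) hRY
  have hM : HasRes M := ⟨_, _, hPerf, h3⟩
  refine ⟨hM, ?_⟩
  rw [rcls_eq hM hPerf _ h3, ← K0Q.comp_cls hp' (Perf.tb hp' hRX hP) hRY,
    ← K0Q.comp_cls hp' hRX hP]
  refine bc_js hp' _ _ ?_
  rw [← rcls_eq h hP φ hφ]
  exact hm

end Pool.Agent.MP_6e5bed_ag_NS
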