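import Pool.Agent.Lib.MP_6e5bed_ag_NS.LemS

set_option autoImplicit false

/-!
# MP_6e5bed_ag, NC SURFACES: the centre of a simple bimodule (algebra part)
-/

noncomputable section

namespace Pool.Agent.MP_6e5bed_ag_NS

open scoped TensorProduct

universe u

/-- A finite-dimensional algebra acting faithfully on an isotypic module is simple. -/
private theorem cenA_one (K : Type u) [Field K] (E : Type u) [AddCommGroup E] [Module K E]
    [FiniteDimensional K E] (hn : Nontrivial E) (T : Type u) [Ring T] [Algebra K T]
    (Φ : T →ₐ[K] Module.End K E) (hinj : Function.Injective Φ) (C : Set (Module.End K E))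
    (hC : ∀ q ∈ C, ∀ t, Φ t * q = q * Φ t)
    (hs : ∀ U : Submodule K E, (∀ t, ∀ x ∈ U, Φ t x ∈ U) → (∀ q ∈ C, ∀ x ∈ U, q x ∈ U) →
      U = ⊥ ∨ U = ⊤) : IsSimpleRing T := by
  let _ : Module T E := Module.compHom E (Φ : T →+* Module.End K E)
  have hsm : ∀ (t : T) (x : E), t • x = Φ t x := fun _ _ => rfl
  have : IsScalarTower K T E := ⟨fun s t x => by
    rw [hsm, hsm, map_smul]
    rfl⟩
  have : IsArtinian T E := isArtinian_of_tower K inferInstance
  obtain ⟨S, hS⟩ := IsAtomic.exists_atom (Submodule T E)
  have : IsSimpleModule T S := isSimpleModule_iff_isAtom.2 hS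
  have htop : isotypicComponent T E S = ⊤ := by
    have h1 := hs ((isotypicComponent T E S).restrictScalars K)
      (fun t x hx => (isotypicComponent T E S).smul_mem t hx) (fun q hq x hx => by
        let f : E →ₗ[T] E :=
          { toFun := q
            map_add' := map_add q
            map_smul' := fun t x => by
              rw [RingHom.id_apply, hsm, hsm]
              exact (LinearMap.congr_fun (hC q hq t) x).symm }
        exact LinearMap.le_comap_isotypicComponent S f hx)
    rcases h1 with h | h
    · exfalso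
      have h2 := (bot_lt_isotypicComponent (M := E) S).ne'
      apply h2
      rw [eq_bot_iff]
      intro x hx
      have h3 : x ∈ (isotypicComponent T E S).restrictScalars K := hx
      rw [h] at h3
      exact h3
    · rw [eq_top_iff]
      intro x _
      have h3 : x ∈ (isotypicComponent T E S).restrictScalars K := by
        rw [h]
        exact Submodule.mem_top
      exact h3
  have hiso : IsIsotypicOfType T E S := IsIsotypicOfType.of_isotypicComponent_eq_top htop
  have : IsSemisimpleModule T E := by
    have e : E ≃ₗ[T] isotypicComponent T E S :=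
      (Submodule.topEquiv (R := T) (M := E)).symm.trans (LinearEquiv.ofEq _ _ htop.symm)
    exact IsSemisimpleModule.congr e
  let b := Module.Basis.ofVectorSpace K E
  have : Finite (Module.Basis.ofVectorSpaceIndex K E) := Module.Finite.finite_basis b
  let g : T →ₗ[T] (Module.Basis.ofVectorSpaceIndex K E → E) :=
    { toFun := fun t i => Φ t (b i)
      map_add' := fun t t' => by
        funext i
        rw [map_add]
        rfl
      map_smul' := fun t t' => by
        funext i
        rw [smul_eq_mul, map_mul]
        rfl }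
  have hg : Function.Injective g := by
    rw [injective_iff_map_eq_zero]
    intro t ht
    have h1 : Φ t = 0 := by
      refine b.ext fun i => ?_
      have := congrFun ht i
      exact this
    exact (injective_iff_map_eq_zero Φ).1 hinj t h1
  have : IsSemisimpleRing T := IsSemisimpleModule.of_injective g hg
  have hself : IsIsotypicOfType T T S := by
    intro I hI
    have := hI
    have hI0 : I ≠ ⊥ := (isSimpleModule_iff_isAtom.1 hI).1
    obtain ⟨a, ha, ha0⟩ := Submodule.exists_mem_ne_zero_of_ne_bot hI0
    have h1 : ∃ x : E, Φ a x ≠ 0 := by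
      by_contra hcon
      push Not at hcon
      apply ha0
      apply (injective_iff_map_eq_zero Φ).1 hinj a
      exact LinearMap.ext hcon
    obtain ⟨x, hx⟩ := h1
    let f : I →ₗ[T] E := (LinearMap.toSpanSingleton T E x).comp I.subtype
    have hf0 : f ≠ 0 := by
      intro h0
      apply hx
      have := LinearMap.congr_fun h0 ⟨a, ha⟩
      exact this
    have hf := LinearMap.injective_of_ne_zero hf0
    have e1 := LinearEquiv.ofInjective f hf
    have : IsSimpleModule T (LinearMap.range f) := IsSimpleModule.congr e1.symm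
    exact ⟨e1.trans (hiso (LinearMap.range f)).some⟩
  have hnt : Nontrivial T := by
    by_contra hcon
    rw [not_nontrivial_iff_subsingleton] at hcon
    obtain ⟨x, hx⟩ := exists_ne (0 : E)
    apply hx
    have h1 : (1 : T) • x = (0 : T) • x := by rw [Subsingleton.elim (1 : T) 0]
    rwa [one_smul, zero_smul] at h1
  exact (isSimpleRing_isArtinianRing_iff.2 ⟨inferInstance, hself.isIsotypic, hnt⟩).1

/-- Linear algebra over a field `K`: `E` finite-dimensional, `P`, `Q` commuting subalgebras of
`End_K E` and `E` simple over `Λ = P Q`. If `P` and `Q` have centre `K` as soon as they are simple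
rings, then the centre of `Λ` is `K`. PROOF. `Λ` acts faithfully on a simple module, so it is a
simple ring, its centre is a field. `P` is semisimple (a nilpotent ideal `J` of `P` gives the
nilpotent two-sided ideal `J Q` of `Λ`); its centre is contained in the centre of `Λ`, which is a
field, so `P` is simple, and so is `Q` (see `powK` in LemS.lean for the same arguments). So `P` and
`Q` are central simple, `P ⊗_K Q` is central simple, the surjection `P ⊗_K Q → Λ` is an isomorphism
and the centre of `Λ` is `K`. -/
theorem cen_alg (K : Type u) [Field K] (E : Type u) [AddCommGroup E] [Module K E]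
    [FiniteDimensional K E] (P Q : Subalgebra K (Module.End K E))
    (hc : ∀ p ∈ P, ∀ q ∈ Q, p * q = q * p) (hn : Nontrivial E)
    (hs : ∀ U : Submodule K E, (∀ p ∈ P, ∀ x ∈ U, p x ∈ U) → (∀ q ∈ Q, ∀ x ∈ U, q x ∈ U) →
      U = ⊥ ∨ U = ⊤)
    (hP : IsSimpleRing P → ∀ z : P, (∀ p, z * p = p * z) → ∃ s : K, z = s • 1)
    (hQ : IsSimpleRing Q → ∀ z : Q, (∀ p, z * p = p * z) → ∃ s : K, z = s • 1) :
    ∀ f ∈ P ⊔ Q, (∀ p ∈ P, f * p = p * f) → (∀ q ∈ Q, f * q = q * f) → ∃ s : K, f = s • 1 := by
  have : IsSimpleRing P := by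
    refine cenA_one K E hn P P.val Subtype.val_injective (Q : Set (Module.End K E)) ?_ ?_
    · intro q hq t
      exact hc t.1 t.2 q hq
    · intro U h1 h2
      exact hs U (fun p hp x hx => h1 ⟨p, hp⟩ x hx) h2
  have : IsSimpleRing Q := by
    refine cenA_one K E hn Q Q.val Subtype.val_injective (P : Set (Module.End K E)) ?_ ?_
    · intro p hp t
      exact (hc p hp t.1 t.2).symm
    · intro U h1 h2
      exact hs U h2 (fun q hq x hx => h1 ⟨q, hq⟩ x hx)
  have hPz := hP inferInstance
  have hQz := hQ inferInstance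
  have hcen : Subalgebra.center K P = ⊥ := by
    rw [eq_bot_iff]
    intro z hzc
    rw [Subalgebra.mem_center_iff] at hzc
    obtain ⟨s, h1⟩ := hPz z fun p => (hzc p).symm
    rw [Algebra.mem_bot]
    exact ⟨s, by rw [h1, Algebra.algebraMap_eq_smul_one]⟩
  have : FiniteDimensional K P := FiniteDimensional.finiteDimensional_subalgebra P
  have : FiniteDimensional K Q := FiniteDimensional.finiteDimensional_subalgebra Q
  have : IsSimpleRing (P ⊗[K] Q) := Pool.Agent.MP_6e5bed_ag_NC.simple_tensor K P Q hcen
  have hcm : ∀ (x : P) (y : Q), Commute (P.val x) (Q.val y) :=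
    fun x y => hc x.1 x.2 y.1 y.2
  let Φ : P ⊗[K] Q →ₐ[K] Module.End K E := Algebra.TensorProduct.lift P.val Q.val hcm
  have hΦ : ∀ (x : P) (y : Q), Φ (x ⊗ₜ[K] y) = x.1 * y.1 :=
    fun x y => Algebra.TensorProduct.lift_tmul P.val Q.val hcm x y
  have hinj : Function.Injective Φ := by
    have hΦr := @RingHom.injective (P ⊗[K] Q) (Module.End K E) _ _ _ _ Φ.toRingHom
    exact fun a b h => hΦr h
  have hle : P ⊔ Q ≤ Φ.range := by
    refine sup_le (fun p hp => ?_) (fun q hq => ?_)
    · refine ⟨(⟨p, hp⟩ : P) ⊗ₜ[K] (1 : Q), ?_⟩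
      exact (hΦ _ _).trans (mul_one p)
    · refine ⟨(1 : P) ⊗ₜ[K] (⟨q, hq⟩ : Q), ?_⟩
      exact (hΦ _ _).trans (one_mul q)
  intro f hf hfP hfQ
  obtain ⟨w, hw⟩ := hle hf
  have hw' : Φ w = f := hw
  have hcw : w ∈ Subalgebra.centralizer K
      (Algebra.TensorProduct.includeLeft (S := K) (B := Q) '' (Set.univ : Set P)) := by
    rw [Subalgebra.mem_centralizer_iff]
    rintro _ ⟨p, -, rfl⟩
    apply hinj
    have e : Φ (Algebra.TensorProduct.includeLeft (S := K) (B := Q) p) = p.1 := by
      exact (hΦ _ _).trans (mul_one p.1)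
    rw [map_mul, map_mul, e, hw']
    exact (hfP p.1 p.2).symm
  rw [Subalgebra.centralizer_coe_image_includeLeft_eq_center_tensorProduct] at hcw
  obtain ⟨v, rfl⟩ := hcw
  have hv : ∀ v, ∃ q : Q, (Algebra.TensorProduct.map
      (Subalgebra.centralizer K (Set.univ : Set P)).val (AlgHom.id K Q)) v =
      (1 : P) ⊗ₜ[K] q := by
    intro v
    induction v using TensorProduct.induction_on with
    | zero => exact ⟨0, by rw [map_zero, TensorProduct.tmul_zero]⟩
    | tmul c q =>
      obtain ⟨s, hs1⟩ := hPz c.1 fun p =>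
        ((Subalgebra.mem_centralizer_iff K).1 c.2 p (Set.mem_univ p)).symm
      refine ⟨s • q, ?_⟩
      rw [Algebra.TensorProduct.map_tmul]
      change c.1 ⊗ₜ[K] q = _
      rw [hs1, TensorProduct.smul_tmul]
    | add x y hx hy =>
      obtain ⟨q, hq⟩ := hx
      obtain ⟨q', hq'⟩ := hy
      exact ⟨q + q', by rw [map_add, hq, hq', TensorProduct.tmul_add]⟩
  obtain ⟨q, hq⟩ := hv v
  have hfq : f = q.1 := by
    have h1 : Φ ((1 : P) ⊗ₜ[K] q) = f := by
      rw [← hq]
      exact hw
    rw [← h1]
    exact (hΦ _ _).trans (one_mul q.1)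
  obtain ⟨s, hs1⟩ := hQz q fun q' => Subtype.ext (by
    have h2 := hfQ q'.1 q'.2
    rw [hfq] at h2
    exact h2)
  refine ⟨s, ?_⟩
  rw [hfq, hs1]
  rfl

end Pool.Agent.MP_6e5bed_ag_NS
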