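import Pool.Agent.Lib.MP_6e5bed_ag_NS.WC

set_option autoImplicit false
set_option linter.unusedVariables false

/-!
# MP_6e5bed_ag, NC SURFACES: Čech dg algebras and Čech dg bimodules
-/

noncomputable section

namespace Pool.Agent.MP_6e5bed_ag_NS

open Pool.Agent.MP_6e5bed_ag_NC

universe u

variable {k : Type u} [Field k]

/-! ### Associativity, compatibility of cup products with morphisms -/

theorem cP_assoc {V1 V2 V3 V12 V23 V : PC k} (p : PP V1 V2 V12) (q : PP V12 V3 V)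
    (p' : PP V2 V3 V23) (q' : PP V1 V23 V)
    (h : ∀ c x y z, (q.p c).m ((p.p c).m x y) z = (q'.p c).m x ((p'.p c).m y z)) :
    ∀ (L : List (LF k)) (c : FS k) x y z, ((cP q L).q c).m (((cP p L).q c).m x y) z =
      ((cP q' L).q c).m x (((cP p' L).q c).m y z)
  | [], c, x, y, z => rfl
  | l :: L, c, x, y, z => by
    obtain ⟨⟨x0, x1⟩, ξ⟩ := x
    obtain ⟨⟨y0, y1⟩, υ⟩ := y
    obtain ⟨⟨z0, z1⟩, ζ⟩ := z
    have ih := cP_assoc p q p' q' h L
    refine Prod.ext (Prod.ext (ih c x0 y0 z0) (h _ x1 y1 z1)) ?_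
    change ((cP q L).q _).m (((cC V12 L).ρ _).f (((cC V12 L).X c).dg.s
        (((cP p L).q c).m x0 y0))) ζ +
      ((cP q L).q _).m (((cP p L).q _).m (((cC V1 L).ρ _).f (((cC V1 L).X c).dg.s x0)) υ +
        ((cP p L).q _).m ξ (((cC V2 L).a _).f y1)) (((cC V3 L).a _).f z1) =
      ((cP q' L).q _).m (((cC V1 L).ρ _).f (((cC V1 L).X c).dg.s x0))
        (((cP p' L).q _).m (((cC V2 L).ρ _).f (((cC V2 L).X c).dg.s y0)) ζ +
        ((cP p' L).q _).m υ (((cC V3 L).a _).f z1)) +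
      ((cP q' L).q _).m ξ (((cC V23 L).a _).f ((p'.p _).m y1 z1))
    rw [((cP p L).q c).s, (cP p L).nat, ih, map_add, map_add, LinearMap.add_apply, ih, ih,
      (cP p' L).a, add_assoc]

theorem cH_mul {V V' V'' U U' U'' : PC k} {p : PP V V' V''} {q : PP U U' U''} (f : PCH V U)
    (f' : PCH V' U') (f'' : PCH V'' U'')
    (h : ∀ c x y, (f''.f c).f ((p.p c).m x y) = (q.p c).m ((f.f c).f x) ((f'.f c).f y)) :
    ∀ (L : List (LF k)) (c : FS k) x y, ((cH f'' L).g c).f (((cP p L).q c).m x y) =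
      ((cP q L).q c).m (((cH f L).g c).f x) (((cH f' L).g c).f y)
  | [], c, x, y => rfl
  | l :: L, c, x, y => by
    obtain ⟨⟨x0, x1⟩, ξ⟩ := x
    obtain ⟨⟨y0, y1⟩, υ⟩ := y
    have ih := cH_mul f f' f'' h L
    refine Prod.ext (Prod.ext (ih c x0 y0) (h _ x1 y1)) ?_
    change ((cH f'' L).g _).f (((cP p L).q _).m (((cC V L).ρ _).f (((cC V L).X c).dg.s x0)) υ +
        ((cP p L).q _).m ξ (((cC V' L).a _).f y1)) =
      ((cP q L).q _).m (((cC U L).ρ _).f (((cC U L).X c).dg.s (((cH f L).g c).f x0)))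
        (((cH f' L).g _).f υ) +
        ((cP q L).q _).m (((cH f L).g _).f ξ) (((cC U' L).a _).f ((f'.f _).f y1))
    rw [map_add, ih, ih, ((cH f L).g c).s, (cH f L).nat, (cH f' L).a]

theorem cT_mul {V V' V'' : PC k} (p : PP V V' V'') (L : List (LF k)) :
    ∀ (L' : List (LF k)) (c : FS k) x y, ((cT V'' L L').g c).f (((cP p (L' ++ L)).q c).m x y) =
      ((cP p L').q c).m (((cT V L L').g c).f x) (((cT V' L L').g c).f y)
  | [], c, x, y => rfl
  | l :: L', c, x, y => by
    obtain ⟨⟨x0, x1⟩, ξ⟩ := x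
    obtain ⟨⟨y0, y1⟩, υ⟩ := y
    have ih := cT_mul p L L'
    refine Prod.ext (Prod.ext (ih c x0 y0) rfl) ?_
    change ((cT V'' L L').g _).f (((cP p (L' ++ L)).q _).m (((cC V (L' ++ L)).ρ _).f
        (((cC V (L' ++ L)).X c).dg.s x0)) υ +
        ((cP p (L' ++ L)).q _).m ξ (((cC V' (L' ++ L)).a _).f y1)) =
      ((cP p L').q _).m (((cC V L').ρ _).f (((cC V L').X c).dg.s (((cT V L L').g c).f x0)))
        (((cT V' L L').g _).f υ) +
        ((cP p L').q _).m (((cT V L L').g _).f ξ) (((cC V' L').a _).f y1)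
    rw [map_add, ih, ih, ((cT V L L').g c).s, (cT V L L').nat]
    congr 2
    exact (cT V' L L').a _ y1

theorem cH_id (V : PC k) : ∀ (L : List (LF k)) (c : FS k) x,
    ((cH (PCH.id V) L).g c).f x = x
  | [], c, x => rfl
  | l :: L, c, x => by
    obtain ⟨⟨x0, x1⟩, ξ⟩ := x
    exact Prod.ext (Prod.ext (cH_id V L c x0) rfl) (cH_id V L _ ξ)

theorem cH_comp {V V' V'' : PC k} (f : PCH V V') (g : PCH V' V'') :
    ∀ (L : List (LF k)) (c : FS k) x,
      ((cH (f.comp g) L).g c).f x = ((cH g L).g c).f (((cH f L).g c).f x)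
  | [], c, x => rfl
  | l :: L, c, x => by
    obtain ⟨⟨x0, x1⟩, ξ⟩ := x
    exact Prod.ext (Prod.ext (cH_comp f g L c x0) rfl) (cH_comp f g L _ ξ)

/-! ### Presheaves of dg algebras -/

/-- the complex of a dg algebra -/
def acx (A : DGA k) : Cx k := ⟨A.A, A.dg⟩

/-- the complex of a bimodule -/
def bcx {A B : DGA k} (M : Bim A B) : Cx k := ⟨M.M, M.dg⟩

/-- Presheaves of dg algebras on the charts. -/
structure PA (k : Type u) [Field k] where
  A : Ch k → DGA k
  r : ∀ {c d : Ch k}, c ≤ d → DHom (A c) (A d)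
  r_id : ∀ {c : Ch k} (h : c ≤ c) x, (r h).f x = x
  r_r : ∀ {c d e : Ch k} (h : c ≤ d) (h' : d ≤ e) x, (r h').f ((r h).f x) = (r (h.trans h')).f x

/-- the underlying presheaf of complexes -/
def PA.pc (A : PA k) : PC k where
  X := fun c => acx (A.A c)
  ρ := fun h => ⟨(A.r h).f, (A.r h).deg, (A.r h).d⟩
  ρ_id := A.r_id
  ρ_ρ := A.r_r

/-- the multiplication -/
def PA.pp (A : PA k) : PP A.pc A.pc A.pc where
  p := fun c => ⟨(A.A c).mul, (A.A c).mul_deg, (A.A c).leibniz⟩
  nat := fun h => (A.r h).mul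

/-- the unit of the Čech algebra -/
def cU (A : PA k) : ∀ (L : List (LF k)) (c : FS k), ((cC A.pc L).X c).V
  | [], c => PUnit.unit
  | l :: L, c => co.mk _ _ (cU A L c) (A.A (c.ins l)).one 0

theorem cU_deg (A : PA k) : ∀ (L : List (LF k)) (c : FS k),
    ((cC A.pc L).X c).dg.IsDeg 0 (cU A L c)
  | [], c => Dg.IsDeg.zero _
  | l :: L, c => co_deg.2 ⟨cU_deg A L c, (A.A (c.ins l)).one_deg, Dg.IsDeg.zero _⟩

theorem cU_s (A : PA k) (L : List (LF k)) (c : FS k) :
    ((cC A.pc L).X c).dg.s (cU A L c) = cU A L c :=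
  Dg.s_of_even (Dg.o_of_even (cU_deg A L c) Even.zero)

theorem cU_ρ (A : PA k) : ∀ (L : List (LF k)) {c d : FS k} (h : c ≤ d),
    ((cC A.pc L).ρ h).f (cU A L c) = cU A L d
  | [], c, d, h => rfl
  | l :: L, c, d, h => by
    refine Prod.ext (Prod.ext (cU_ρ A L h) (A.r _).one) ?_
    exact map_zero ((cC A.pc L).ρ (fs_mono (ins_mono h l))).f

theorem cU_a (A : PA k) : ∀ (L : List (LF k)) (c : Ch k),
    ((cC A.pc L).a c).f (A.A c).one = cU A L c.fs
  | [], c => rfl
  | l :: L, c => Prod.ext (Prod.ext (cU_a A L c) (A.r _).one) rfl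

theorem cU_mul {A : PA k} {V : PC k} (p : PP A.pc V V)
    (h : ∀ c x, (p.p c).m (A.A c).one x = x) : ∀ (L : List (LF k)) (c : FS k) x,
      ((cP p L).q c).m (cU A L c) x = x
  | [], c, x => rfl
  | l :: L, c, x => by
    obtain ⟨⟨x0, x1⟩, ξ⟩ := x
    have ih := cU_mul p h L
    refine Prod.ext (Prod.ext (ih c x0) (h _ x1)) ?_
    change ((cP p L).q _).m (((cC A.pc L).ρ _).f (((cC A.pc L).X c).dg.s (cU A L c))) ξ +
      ((cP p L).q _).m 0 (((cC V L).a _).f x1) = ξ
    rw [cU_s, cU_ρ, ih, map_zero, LinearMap.zero_apply, add_zero]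

theorem mul_cU {A : PA k} {V : PC k} (p : PP V A.pc V)
    (h : ∀ c x, (p.p c).m x (A.A c).one = x) : ∀ (L : List (LF k)) (c : FS k) x,
      ((cP p L).q c).m x (cU A L c) = x
  | [], c, x => rfl
  | l :: L, c, x => by
    obtain ⟨⟨x0, x1⟩, ξ⟩ := x
    have ih := mul_cU p h L
    refine Prod.ext (Prod.ext (ih c x0) (h _ x1)) ?_
    change ((cP p L).q _).m (((cC V L).ρ _).f (((cC V L).X c).dg.s x0)) 0 +
      ((cP p L).q _).m ξ (((cC A.pc L).a _).f (A.A (c.ins l)).one) = ξ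
    rw [map_zero, zero_add, cU_a, ih]

/-- The Čech dg algebra with respect to the list `L` of linear forms. -/
def cA (A : PA k) (L : List (LF k)) (c : FS k) : DGA k where
  A := ((cC A.pc L).X c).V
  dg := ((cC A.pc L).X c).dg
  mul := ((cP A.pp L).q c).m
  one := cU A L c
  one_mul := cU_mul A.pp (fun c => (A.A c).one_mul) L c
  mul_one := mul_cU A.pp (fun c => (A.A c).mul_one) L c
  mul_assoc := cP_assoc A.pp A.pp A.pp A.pp (fun c => (A.A c).mul_assoc) L c
  one_deg := cU_deg A L c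
  mul_deg := ((cP A.pp L).q c).deg
  leibniz := ((cP A.pp L).q c).d

/-- Presheaves of dg bimodules on the charts. -/
structure PB (A B : PA k) where
  M : ∀ c, Bim (A.A c) (B.A c)
  ρ : ∀ {c d : Ch k} (h : c ≤ d), GMap 0 (M c) (res (A.r h) (B.r h) (M d))
  dd : ∀ {c d : Ch k} (h : c ≤ d), (ρ h).dd = 0
  ρ_id : ∀ {c : Ch k} (h : c ≤ c) x, (ρ h).f x = x
  ρ_ρ : ∀ {c d e : Ch k} (h : c ≤ d) (h' : d ≤ e) x,
    (ρ h').f ((ρ h).f x) = (ρ (h.trans h')).f x

/-- a closed map of degree zero as a morphism of complexes -/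
def gch {A B A' B' : DGA k} {M : Bim A B} {N : Bim A' B'} {α : DHom A A'} {β : DHom B B'}
    (f : GMap 0 M (res α β N)) (h : f.dd = 0) : CHom (bcx M) (bcx N) where
  f := f.f
  deg := fun {i x} hx => by
    have h1 := f.deg hx
    rw [add_zero] at h1
    exact h1
  d := GMap.d_f_zero h

variable {A B : PA k}

/-- the underlying presheaf of complexes -/
def PB.pc (M : PB A B) : PC k where
  X := fun c => bcx (M.M c)
  ρ := fun h => gch (M.ρ h) (M.dd h)
  ρ_id := M.ρ_id
  ρ_ρ := M.ρ_ρ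

/-- the left action -/
def PB.pl (M : PB A B) : PP A.pc M.pc M.pc where
  p := fun c => ⟨(M.M c).l, (M.M c).l_deg, (M.M c).d_l⟩
  nat := fun {c d} h a x => by
    have h1 := (M.ρ h).map_l a x
    rw [Dg.sp_zero] at h1
    exact h1

/-- the right action -/
def PB.pr (M : PB A B) : PP M.pc B.pc M.pc where
  p := fun c => ⟨(M.M c).r.flip, fun hx hy => (M.M c).r_deg hx hy, fun x b => (by
    change (M.M c).dg.d ((M.M c).r b x) = (M.M c).r b ((M.M c).dg.d x) +
      (M.M c).r ((B.A c).dg.d b) ((M.M c).dg.s x)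
    exact (M.M c).d_r b x)⟩
  nat := fun {c d} h x b => (M.ρ h).map_r b x

/-- The Čech dg bimodule with respect to the list `L` of linear forms. -/
def cB (M : PB A B) (L : List (LF k)) (c : FS k) : Bim (cA A L c) (cA B L c) where
  M := ((cC M.pc L).X c).V
  dg := ((cC M.pc L).X c).dg
  l := ((cP M.pl L).q c).m
  r := ((cP M.pr L).q c).m.flip
  l_one := cU_mul M.pl (fun c => (M.M c).l_one) L c
  r_one := mul_cU M.pr (fun c => (M.M c).r_one) L c
  l_mul := cP_assoc A.pp M.pl M.pl M.pl (fun c => (M.M c).l_mul) L c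
  r_mul := fun b b' m => (cP_assoc M.pr M.pr B.pp M.pr
    (fun c m b b' => ((M.M c).r_mul b b' m).symm) L c m b b').symm
  l_r := fun a b m => (cP_assoc M.pl M.pr M.pr M.pl
    (fun c a m b => ((M.M c).l_r a b m).symm) L c a m b).symm
  l_deg := ((cP M.pl L).q c).deg
  r_deg := ((cP M.pr L).q c).deg
  d_l := ((cP M.pl L).q c).d
  d_r := fun b m => ((cP M.pr L).q c).d m b

/-! ### Maps between Čech algebras and Čech bimodules -/

/-- Restriction. -/
def cA.ρ (A : PA k) (L : List (LF k)) {c d : FS k} (h : c ≤ d) :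
    DHom (cA A L c) (cA A L d) where
  f := ((cC A.pc L).ρ h).f
  deg := ((cC A.pc L).ρ h).deg
  d := ((cC A.pc L).ρ h).d
  one := cU_ρ A L h
  mul := (cP A.pp L).nat h

/-- The map from the algebra of a chart to its Čech algebra. -/
def cA.a (A : PA k) (L : List (LF k)) (c : Ch k) : DHom (A.A c) (cA A L c.fs) where
  f := ((cC A.pc L).a c).f
  deg := ((cC A.pc L).a c).deg
  d := ((cC A.pc L).a c).d
  one := cU_a A L c
  mul := (cP A.pp L).a c

/-- Forgetting the head of the list. -/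
def cA.pr (A : PA k) (l : LF k) (L : List (LF k)) (c : FS k) :
    DHom (cA A (l :: L) c) (cA A L c) where
  f := (((cC A.pc L).pr l).g c).f
  deg := (((cC A.pc L).pr l).g c).deg
  d := (((cC A.pc L).pr l).g c).d
  one := rfl
  mul := fun _ _ => rfl

theorem cT_one (A : PA k) (L : List (LF k)) : ∀ (L' : List (LF k)) (c : FS k),
    ((cT A.pc L L').g c).f (cU A (L' ++ L) c) = cU A L' c
  | [], c => rfl
  | l :: L', c => by
    refine Prod.ext (Prod.ext (cT_one A L L' c) rfl) ?_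
    exact map_zero ((cT A.pc L L').g (c.ins l).fs).f

/-- Forgetting the tail of the list. -/
def cA.tl (A : PA k) (L' L : List (LF k)) (c : FS k) :
    DHom (cA A (L' ++ L) c) (cA A L' c) where
  f := ((cT A.pc L L').g c).f
  deg := ((cT A.pc L L').g c).deg
  d := ((cT A.pc L L').g c).d
  one := cT_one A L L' c
  mul := cT_mul A.pp L L' c

/-- a morphism of complexes as a map of degree zero -/
def cgm {A B A' B' : DGA k} {M : Bim A B} {N : Bim A' B'} (α : DHom A A') (β : DHom B B')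
    (f : CHom (bcx M) (bcx N)) (hl : ∀ a x, f.f (M.l a x) = N.l (α.f a) (f.f x))
    (hr : ∀ b x, f.f (M.r b x) = N.r (β.f b) (f.f x)) : GMap 0 M (res α β N) where
  f := f.f
  deg := fun {i x} hx => by
    rw [add_zero]
    exact f.deg hx
  map_l := fun a x => by
    rw [Dg.sp_zero]
    exact hl a x
  map_r := fun b x => hr b x

theorem cgm_dd {A B A' B' : DGA k} {M : Bim A B} {N : Bim A' B'} (α : DHom A A')
    (β : DHom B B') (f : CHom (bcx M) (bcx N))
    (hl : ∀ a x, f.f (M.l a x) = N.l (α.f a) (f.f x))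
    (hr : ∀ b x, f.f (M.r b x) = N.r (β.f b) (f.f x)) : (cgm α β f hl hr).dd = 0 := by
  refine LinearMap.ext fun x => ?_
  rw [GMap.dd_apply, sg_zero, one_smul, LinearMap.zero_apply, sub_eq_zero]
  exact f.d x

/-- Forgetting the head of the list. -/
def cB.pr (M : PB A B) (l : LF k) (L : List (LF k)) (c : FS k) :
    GMap 0 (cB M (l :: L) c) (res (cA.pr A l L c) (cA.pr B l L c) (cB M L c)) :=
  cgm _ _ (((cC M.pc L).pr l).g c) (fun _ _ => rfl) (fun _ _ => rfl)

theorem cB.pr_dd (M : PB A B) (l : LF k) (L : List (LF k)) (c : FS k) :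
    (cB.pr M l L c).dd = 0 := cgm_dd _ _ _ _ _

/-- Forgetting the tail of the list. -/
def cB.tl (M : PB A B) (L' L : List (LF k)) (c : FS k) :
    GMap 0 (cB M (L' ++ L) c) (res (cA.tl A L' L c) (cA.tl B L' L c) (cB M L' c)) :=
  cgm _ _ ((cT M.pc L L').g c) (fun a x => cT_mul M.pl L L' c a x)
    (fun b x => cT_mul M.pr L L' c x b)

theorem cB.tl_dd (M : PB A B) (L' L : List (LF k)) (c : FS k) :
    (cB.tl M L' L c).dd = 0 := cgm_dd _ _ _ _ _

/-- Morphisms of presheaves of dg bimodules. -/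
structure PBH (M N : PB A B) where
  f : ∀ c, GMap 0 (M.M c) (N.M c)
  dd : ∀ c, (f c).dd = 0
  nat : ∀ {c d : Ch k} (h : c ≤ d) x, (N.ρ h).f ((f c).f x) = (f d).f ((M.ρ h).f x)

/-- the morphism of presheaves of complexes -/
def PBH.pch {M N : PB A B} (f : PBH M N) : PCH M.pc N.pc where
  f := fun c =>
    { f := (f.f c).f
      deg := fun {i x} hx => by
        have h1 := (f.f c).deg hx
        rw [add_zero] at h1
        exact h1
      d := GMap.d_f_zero (f.dd c) }
  nat := f.nat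

/-- The map of Čech bimodules. -/
def PBH.gmap {M N : PB A B} (f : PBH M N) (L : List (LF k)) (c : FS k) :
    GMap 0 (cB M L c) (cB N L c) where
  f := ((cH f.pch L).g c).f
  deg := fun {i x} hx => by
    rw [add_zero]
    exact ((cH f.pch L).g c).deg hx
  map_l := fun a x => by
    rw [Dg.sp_zero]
    refine (cH_mul (p := M.pl) (q := N.pl) (PCH.id _) f.pch f.pch (fun c a x => ?_) L c a x).trans
      ?_
    · have h1 := (f.f c).map_l a x
      rw [Dg.sp_zero] at h1
      exact h1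
    · rw [cH_id]
      rfl
  map_r := fun b x => by
    refine (cH_mul (p := M.pr) (q := N.pr) f.pch (PCH.id _) f.pch (fun c x b => ?_) L c x b).trans
      ?_
    · exact (f.f c).map_r b x
    · rw [cH_id]
      rfl

theorem PBH.gmap_dd {M N : PB A B} (f : PBH M N) (L : List (LF k)) (c : FS k) :
    (f.gmap L c).dd = 0 := by
  refine LinearMap.ext fun x => ?_
  rw [GMap.dd_apply, sg_zero, one_smul, LinearMap.zero_apply, sub_eq_zero]
  exact ((cH f.pch L).g c).d x

end Pool.Agent.MP_6e5bed_ag_NS
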