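import Pool.Agent.Lib.MP_6e5bed_ag_NC.FinCoh
import Pool.Agent.Lib.MP_6e5bed_ag_NS.WA

set_option autoImplicit false

/-!
# MP_6e5bed_ag, NC SURFACES: quasi-isomorphisms of complexes
-/

noncomputable section

namespace Pool.Agent.MP_6e5bed_ag_NS

open Pool.Agent.MP_6e5bed_ag_NC

universe u

variable {k : Type u} [Field k]

/-- injective and surjective in cohomology -/
def CHom.QI {X Y : Cx k} (f : CHom X Y) : Prop :=
  (∀ x, X.dg.d x = 0 → (∃ y, Y.dg.d y = f.f x) → ∃ z, X.dg.d z = x) ∧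
    ∀ y, Y.dg.d y = 0 → ∃ x, X.dg.d x = 0 ∧ ∃ z, Y.dg.d z = y - f.f x

theorem CHom.QI.comp {X Y Z : Cx k} {f : CHom X Y} {g : CHom Y Z} (hf : f.QI) (hg : g.QI) :
    (f.comp g).QI := by
  refine ⟨fun x hx h => ?_, fun z hz => ?_⟩
  · exact hf.1 x hx (hg.1 (f.f x) (by rw [f.d, hx, map_zero]) h)
  · obtain ⟨y, hy, w, hw⟩ := hg.2 z hz
    obtain ⟨x, hx, v, hv⟩ := hf.2 y hy
    refine ⟨x, hx, w + g.f v, ?_⟩
    change Z.dg.d (w + g.f v) = z - g.f (f.f x)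
    rw [map_add, hw, g.d, hv, map_sub]
    abel

theorem CHom.QI.of_left {X Y Z : Cx k} {f : CHom X Y} {g : CHom Y Z} {h : CHom X Z}
    (hc : ∀ x, g.f (f.f x) = h.f x) (hf : f.QI) (hh : h.QI) : g.QI := by
  refine ⟨fun y hy hw => ?_, fun z hz => ?_⟩
  · obtain ⟨w, hw⟩ := hw
    obtain ⟨x, hx, v, hv⟩ := hf.2 y hy
    obtain ⟨x', hx'⟩ := hh.1 x hx ⟨w - g.f v, by
      rw [map_sub, hw, g.d, hv, map_sub, hc]
      abel⟩
    refine ⟨f.f x' + v, ?_⟩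
    rw [map_add, f.d, hx', hv]
    abel
  · obtain ⟨x, hx, w, hw⟩ := hh.2 z hz
    exact ⟨f.f x, by rw [f.d, hx, map_zero], w, by rw [hc, hw]⟩

theorem CHom.QI.of_right {X Y Z : Cx k} {f : CHom X Y} {g : CHom Y Z} {h : CHom X Z}
    (hc : ∀ x, g.f (f.f x) = h.f x) (hg : g.QI) (hh : h.QI) : f.QI := by
  refine ⟨fun x hx hy => ?_, fun y hy => ?_⟩
  · obtain ⟨y, hy⟩ := hy
    exact hh.1 x hx ⟨g.f y, by rw [g.d, hy, hc]⟩
  · obtain ⟨x, hx, w, hw⟩ := hh.2 (g.f y) (by rw [g.d, hy, map_zero])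
    refine ⟨x, hx, ?_⟩
    refine hg.1 (y - f.f x) (by rw [map_sub, hy, f.d, hx, map_zero, sub_zero]) ⟨w, ?_⟩
    rw [hw, map_sub, hc]

theorem CHom.QI.of_bij {X Y : Cx k} {f : CHom X Y} (h : Function.Bijective f.f) : f.QI := by
  refine ⟨fun x _ hy => ?_, fun y hy => ?_⟩
  · obtain ⟨y, hy⟩ := hy
    obtain ⟨z, rfl⟩ := h.2 y
    exact ⟨z, h.1 (by rw [← f.d, hy])⟩
  · obtain ⟨x, rfl⟩ := h.2 y
    refine ⟨x, h.1 (by rw [← f.d, hy, map_zero]), 0, ?_⟩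
    rw [map_zero, sub_self]

/-- a surjective map with acyclic kernel -/
theorem CHom.QI.of_surj {X Y : Cx k} {f : CHom X Y} (h : Function.Surjective f.f)
    (hk : ∀ x, f.f x = 0 → X.dg.d x = 0 → ∃ z, f.f z = 0 ∧ X.dg.d z = x) : f.QI := by
  refine ⟨fun x hx hy => ?_, fun y hy => ?_⟩
  · obtain ⟨y, hy⟩ := hy
    obtain ⟨u, rfl⟩ := h y
    obtain ⟨z, -, hz⟩ := hk (x - X.dg.d u) (by rw [map_sub, ← f.d, hy, sub_self])
      (by rw [map_sub, hx, X.dg.d_d, sub_zero])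
    exact ⟨z + u, by rw [map_add, hz, sub_add_cancel]⟩
  · obtain ⟨x, rfl⟩ := h y
    obtain ⟨z, hz0, hz⟩ := hk (X.dg.d x) (by rw [← f.d, hy]) (X.dg.d_d x)
    refine ⟨x - z, by rw [map_sub, hz, sub_self], 0, ?_⟩
    rw [map_zero, map_sub, hz0, sub_zero, sub_self]

/-- Finite-dimensional cohomology and quasi-isomorphisms. -/
theorem CHom.QI.finCoh {X Y : Cx k} {f : CHom X Y} (h : f.QI) : X.dg.FinCoh ↔ Y.dg.FinCoh := by
  constructor
  · intro hX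
    refine finCoh_exact (X := X.dg) (Y := Y.dg) (Z := X.dg) f.f 0 ?_ ?_ ?_ ?_ ?_ hX hX
    · intro x hx
      rw [f.d, hx, map_zero]
    · intro u
      exact ⟨f.f u, f.d u⟩
    · intro y _
      rw [LinearMap.zero_apply, map_zero]
    · intro v
      exact ⟨0, by rw [LinearMap.zero_apply, map_zero]⟩
    · intro y hy _
      obtain ⟨x, hx, z, hz⟩ := h.2 y hy
      exact ⟨x, hx, z, by rw [hz, add_sub_cancel]⟩
  · intro hY
    refine finCoh_exact (X := Y.dg) (Y := X.dg) (Z := Y.dg) 0 f.f ?_ ?_ ?_ ?_ ?_ hY hY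
    · intro y _
      rw [LinearMap.zero_apply, map_zero]
    · intro v
      exact ⟨0, by rw [LinearMap.zero_apply, map_zero]⟩
    · intro x hx
      rw [f.d, hx, map_zero]
    · intro u
      exact ⟨f.f u, f.d u⟩
    · intro x hx hw
      obtain ⟨z, hz⟩ := h.1 x hx hw
      exact ⟨0, map_zero _, z, by rw [hz, LinearMap.zero_apply, zero_add]⟩

end Pool.Agent.MP_6e5bed_ag_NS
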