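import Pool.Agent.Lib.MP_6e5bed_ag_NS.Sh
import Pool.Agent.Lib.MP_6e5bed_ag_NS.Qi
import Pool.Agent.Lib.MP_6e5bed_ag_CV.Cosp
import Pool.Agent.Lib.MP_6e5bed_ag_CV.Ring0

set_option autoImplicit false
set_option linter.unusedVariables false

/-!
# MP_6e5bed_ag, NC SURFACES: comparison with the Čech algebras of cospans of algebras
-/

noncomputable section

namespace Pool.Agent.MP_6e5bed_ag_NS

open Pool.Agent.MP_6e5bed_ag_NC

universe u

variable {k : Type u} [Field k]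

/-- the chart `g ≠ 0` -/
abbrev c1 (g : LF k) : Ch k := (FS.e k).ins g

/-- the chart `g ≠ 0`, `h ≠ 0` -/
abbrev c2 (g h : LF k) : Ch k := ((FS.e k).ins h).fs.ins g

theorem c1_le (g h : LF k) : c1 g ≤ c2 g h := ins_mono (le_ins (FS.e k) h) g

theorem c1_le' (g h : LF k) : c1 h ≤ c2 g h := le_ins' (c1 h) g

/-- the cospan of algebras given by two linear forms -/
def cosp (A : ASh k) (g h : LF k) : Cosp k where
  A0 := A.R (c1 g)
  A1 := A.R (c1 h)
  A01 := A.R (c2 g h)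
  r0 := A.rr (c1_le g h)
  r1 := A.rr (c1_le' g h)

variable {A B : ASh k}

/-- the bimodule over the cospans of algebras given by two linear forms -/
def tri (M : BSh A B) (g h : LF k) : Tri (cosp A g h) (cosp B g h) where
  M0 := M.kbi (c1 g)
  M1 := M.kbi (c1 h)
  M01 := M.kbi (c2 g h)
  ρ0 := M.res (c1_le g h)
  ρ1 := M.res (c1_le' g h)
  ρ0_l := M.res_l (c1_le g h)
  ρ0_r := M.res_r (c1_le g h)
  ρ1_l := M.res_l (c1_le' g h)
  ρ1_r := M.res_r (c1_le' g h)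

/-- `(((0, a_g), 0), a_h), ((0, a_gh), 0)) ↦ ((a_g, a_h), a_gh)` -/
def cmpF (V : PC k) (g h : LF k) : ((cC V [h, g]).X (FS.e k)).V →ₗ[k]
    (((V.X (c1 g)).V × (V.X (c1 h)).V) × (V.X (c2 g h)).V) where
  toFun := fun x => ((x.1.1.1.2, x.1.2), x.2.1.2)
  map_add' := fun x y => rfl
  map_smul' := fun r x => rfl

private abbrev R0 (V : PC k) (g h : LF k) := (cC V [g]).ρ (le_ins (FS.e k) h)

private abbrev R1 (V : PC k) (g h : LF k) := (cC V [g]).a ((FS.e k).ins h)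

private def mkE (V : PC k) (g h : LF k) (u : PUnit) (a : (V.X (c1 g)).V) (u' : PUnit)
    (b : (V.X (c1 h)).V) (v : PUnit) (c : (V.X (c2 g h)).V) (v' : PUnit) :
    ((cC V [h, g]).X (FS.e k)).V := ((((u, a), u'), b), ((v, c), v'))

private theorem mkE_ex (V : PC k) (g h : LF k) (x : ((cC V [h, g]).X (FS.e k)).V) :
    ∃ u a u' b v c v', x = mkE V g h u a u' b v c v' := by
  obtain ⟨⟨⟨⟨u, a⟩, u'⟩, b⟩, ⟨⟨v, c⟩, v'⟩⟩ := x
  exact ⟨u, a, u', b, v, c, v', rfl⟩

private theorem cmpF_mkE (V : PC k) (g h : LF k) (u : PUnit) (a : (V.X (c1 g)).V) (u' : PUnit)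
    (b : (V.X (c1 h)).V) (v : PUnit) (c : (V.X (c2 g h)).V) (v' : PUnit) :
    cmpF V g h (mkE V g h u a u' b v c v') = ((a, b), c) := rfl

theorem cmpF_bij (V : PC k) (g h : LF k) : Function.Bijective (cmpF V g h) := by
  constructor
  · intro x y hxy
    obtain ⟨u, a, u', b, v, c, v', rfl⟩ := mkE_ex V g h x
    obtain ⟨w, a2, w', b2, t, c2', t', rfl⟩ := mkE_ex V g h y
    rw [cmpF_mkE, cmpF_mkE] at hxy
    have e1 : a = a2 := congrArg (fun z => z.1.1) hxy
    have e2 : b = b2 := congrArg (fun z => z.1.2) hxy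
    have e3 : c = c2' := congrArg (fun z => z.2) hxy
    subst e1 e2 e3
    rfl
  · rintro ⟨⟨a, b⟩, c⟩
    exact ⟨mkE V g h PUnit.unit a PUnit.unit b PUnit.unit c PUnit.unit, rfl⟩

private theorem cmp_deg (V : PC k) (g h : LF k)
    (hV : ∀ (c : Ch k) {i : ℤ} {v : (V.X c).V}, (V.X c).dg.IsDeg i v → i = 0 ∨ v = 0)
    (δ : ((V.X (c1 g)).V × (V.X (c1 h)).V) →ₗ[k] (V.X (c2 g h)).V) {i : ℤ}
    {x : ((cC V [h, g]).X (FS.e k)).V} (hx : ((cC V [h, g]).X (FS.e k)).dg.IsDeg i x) :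
    (Dg.two δ).IsDeg i (cmpF V g h x) := by
  obtain ⟨u, a, u', b, v, c, v', rfl⟩ := mkE_ex V g h x
  rw [cmpF_mkE]
  have h1 : (co (R0 V g h) (R1 V g h)).dg.IsDeg i
    (co.mk (R0 V g h) (R1 V g h) ((u, a), u') b ((v, c), v')) := hx
  have h2 := co_deg.1 h1
  have h3 : (co ((cC V []).ρ (le_ins (FS.e k) g)) ((cC V []).a ((FS.e k).ins g))).dg.IsDeg i
    (co.mk _ _ u a u') := h2.1
  have h4 := (co_deg.1 h3).2.1
  have h5 : (co ((cC V []).ρ (le_ins ((FS.e k).ins h).fs g))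
    ((cC V []).a (((FS.e k).ins h).fs.ins g))).dg.IsDeg (i + -1) (co.mk _ _ v c v') := h2.2.2
  have h6 := (co_deg.1 h5).2.1
  by_cases hi : i = 0
  · subst hi
    refine Dg.two_deg0' δ ?_
    rcases hV _ h6 with h7 | h7
    · exact absurd h7 (by decide)
    · exact h7
  · have ha : a = 0 := by
      rcases hV _ h4 with h7 | h7
      · exact absurd h7 hi
      · exact h7
    have hb : b = 0 := by
      rcases hV _ h2.2.1 with h7 | h7
      · exact absurd h7 hi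
      · exact h7
    by_cases hj : i = 1
    · subst hj
      refine Dg.two_deg1' δ ?_
      rw [ha, hb]
      rfl
    · have hc : c = 0 := by
        rcases hV _ h6 with h7 | h7
        · exact absurd h7 (by omega)
        · exact h7
      rw [ha, hb, hc]
      exact Dg.IsDeg.zero _

private theorem cmp_d (V : PC k) (g h : LF k) (hV : ∀ (c : Ch k) (v : (V.X c).V), (V.X c).dg.d v = 0)
    (x : ((cC V [h, g]).X (FS.e k)).V) :
    cmpF V g h (((cC V [h, g]).X (FS.e k)).dg.d x) =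
      (0, (V.ρ (c1_le' g h)).f (cmpF V g h x).1.2 - (V.ρ (c1_le g h)).f (cmpF V g h x).1.1) := by
  obtain ⟨u, a, u', b, v, c, v', rfl⟩ := mkE_ex V g h x
  have e1 := co_d (r0 := R0 V g h) (r1 := R1 V g h) ((u, a), u') b ((v, c), v')
  have e2 := co_d (r0 := (cC V []).ρ (le_ins (FS.e k) g)) (r1 := (cC V []).a ((FS.e k).ins g))
    u a u'
  have e3 := co_d (r0 := (cC V []).ρ (le_ins ((FS.e k).ins h).fs g))
    (r1 := (cC V []).a (((FS.e k).ins h).fs.ins g)) v c v'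
  have e4 : ((cC V [h, g]).X (FS.e k)).dg.d (mkE V g h u a u' b v c v') = _ := e1
  rw [e4]
  refine Prod.ext (Prod.ext ?_ ?_) ?_
  · refine (congrArg (fun z => z.1.2) e2).trans ?_
    exact hV _ a
  · exact hV _ b
  · have e5 := congrArg (fun z => z.1.2) e3
    change (V.ρ (c1_le' g h)).f b - (V.ρ (c1_le g h)).f a - _ =
      (V.ρ (c1_le' g h)).f b - (V.ρ (c1_le g h)).f a
    refine (congrArg (fun z => (V.ρ (c1_le' g h)).f b - (V.ρ (c1_le g h)).f a - z) e5).trans ?_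
    refine (congrArg (fun z => (V.ρ (c1_le' g h)).f b - (V.ρ (c1_le g h)).f a - z)
      (hV _ c)).trans ?_
    exact sub_zero _

private theorem cmp_mul {V V' V'' : PC k} (p : PP V V' V'') (g h : LF k)
    (hV : ∀ (c : Ch k) (v : (V.X c).V), (V.X c).dg.s v = v)
    (x : ((cC V [h, g]).X (FS.e k)).V) (y : ((cC V' [h, g]).X (FS.e k)).V) :
    cmpF V'' g h (((cP p [h, g]).q (FS.e k)).m x y) =
      (((p.p _).m (cmpF V g h x).1.1 (cmpF V' g h y).1.1,
        (p.p _).m (cmpF V g h x).1.2 (cmpF V' g h y).1.2),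
        (p.p _).m ((V.ρ (c1_le g h)).f (cmpF V g h x).1.1) (cmpF V' g h y).2 +
        (p.p _).m (cmpF V g h x).2 ((V'.ρ (c1_le' g h)).f (cmpF V' g h y).1.2)) := by
  obtain ⟨u, a, u', b, v, c, v', rfl⟩ := mkE_ex V g h x
  obtain ⟨w, a2, w', b2, t, c2', t', rfl⟩ := mkE_ex V' g h y
  have e2 := co_s (r0 := (cC V []).ρ (le_ins (FS.e k) g)) (r1 := (cC V []).a ((FS.e k).ins g))
    u a u'
  have e5 : _ = (V.X _).dg.s a := congrArg (fun z => z.1.2) e2
  rw [hV] at e5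
  refine Prod.ext (Prod.ext rfl rfl) ?_
  change (p.p _).m ((V.ρ (c1_le g h)).f _) c2' + (p.p _).m c ((V'.ρ (c1_le' g h)).f b2) =
    (p.p _).m ((V.ρ (c1_le g h)).f a) c2' + (p.p _).m c ((V'.ρ (c1_le' g h)).f b2)
  exact congrArg (fun z => (p.p _).m ((V.ρ (c1_le g h)).f z) c2' +
    (p.p _).m c ((V'.ρ (c1_le' g h)).f b2)) e5

/-- the comparison of dg algebras -/
def cmpH (A : ASh k) (g h : LF k) : DHom (cA A.pa [h, g] (FS.e k)) (cosp A g h).cech where
  f := cmpF A.pa.pc g h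
  deg := fun {i x} hx => cmp_deg A.pa.pc g h (fun c {i v} hv => Dg.conc_cases hv) _ hx
  d := fun x => (cmp_d A.pa.pc g h (fun c v => rfl) x).symm
  one := rfl
  mul := fun x y => cmp_mul A.pa.pp g h (fun c v => Dg.conc_s v) x y

/-- the comparison of dg bimodules -/
theorem cmp_tri (M : BSh A B) (g h : LF k) : BIso (cB M.pb [h, g] (FS.e k))
    (res (cmpH A g h) (cmpH B g h) (tri M g h).bim) := by
  refine BIso.of_bij ⟨cmpF M.pb.pc g h, fun {i x} hx => ?_, fun a x => ?_, fun b x => ?_⟩ ?_ ?_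
  · rw [add_zero]
    exact cmp_deg M.pb.pc g h (fun c {i v} hv => Dg.conc_cases hv) _ hx
  · rw [Dg.sp_zero]
    exact cmp_mul M.pb.pl g h (fun c v => Dg.conc_s v) a x
  · exact cmp_mul M.pb.pr g h (fun c v => Dg.conc_s v) x b
  · refine LinearMap.ext fun x => ?_
    rw [GMap.dd_apply, sg_zero, one_smul, LinearMap.zero_apply, sub_eq_zero]
    exact (cmp_d M.pb.pc g h (fun c v => rfl) x).symm
  · exact cmpF_bij M.pb.pc g h

end Pool.Agent.MP_6e5bed_ag_NS
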