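import Pool.Agent.Lib.MP_6e5bed_ag_NS.HBt
import Pool.Agent.Lib.MP_6e5bed_ag_NS.DiaB
import Pool.Agent.Lib.MP_6e5bed_ag_NS.QiB

set_option autoImplicit false
set_option linter.unusedVariables false

/-!
# MP_6e5bed_ag, NC SURFACES: the Hilbert-Burch resolution in cohomology (section 5d)
-/

noncomputable section

namespace Pool.Agent.MP_6e5bed_ag_NS

open Pool.Agent.MP_6e5bed_ag_NC
open scoped TensorProduct

universe u

variable {k : Type u} [Field k]

/-- the differential of the tensor product -/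
def tdd (X Y : Cx k) : X.V ⊗[k] Y.V →ₗ[k] X.V ⊗[k] Y.V :=
  TensorProduct.map X.dg.d LinearMap.id + TensorProduct.map X.dg.s Y.dg.d

/-- the cup product -/
def cup {V V' V'' : PC k} (p : PP V V' V'') (L : List (LF k)) (c : FS k) :
    ((cC V L).X c).V ⊗[k] ((cC V' L).X c).V →ₗ[k] ((cC V'' L).X c).V :=
  TensorProduct.lift ((cP p L).q c).m

/-- the pairing with values in the double Čech complex is a morphism of complexes -/
private theorem hbu_d {V V' V'' : PC k} (p : PP V V' V'') (L : List (LF k))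
    (t : ((cC V L).X (FS.e k)).V ⊗[k] ((cC V' L).X (FS.e k)).V) :
    ((cC (cC V'' L).pc L).X (FS.e k)).dg.d (rtP p L L (FS.e k) t) =
      rtP p L L (FS.e k) (tdd _ _ t) := by
  induction t using TensorProduct.induction_on with
  | zero => simp only [map_zero]
  | tmul a b => exact ((cR (prC p L) L).q (FS.e k)).d a b
  | add s t hs ht => rw [map_add, map_add, hs, ht, map_add, map_add]

/-- the cup product is the composition of the pairing with values in the double Čech complex and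
the total multiplication -/
private theorem hbu_cup {V V' V'' : PC k} (p : PP V V' V'') (L : List (LF k))
    (t : ((cC V L).X (FS.e k)).V ⊗[k] ((cC V' L).X (FS.e k)).V) :
    cup p L (FS.e k) t = ((dia V'' L).π (FS.e k)).f (rtP p L L (FS.e k) t) := by
  induction t using TensorProduct.induction_on with
  | zero => simp only [map_zero]
  | tmul a b =>
    refine Eq.trans ?_ (dia_cup p L (FS.e k) a b).symm
    rw [(cC V L).ρ_id]
    rfl
  | add s t hs ht => rw [map_add, map_add, map_add, hs, ht]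

/-- The cup product is surjective in cohomology modulo the image of `hb1`. PROOF. Let
`q = rtP p L L ∅`, `π = dia`, `ι = dι`; the cup product is `π q` (`dia_cup`). `ι z = q t` for some
`t` (`hb_right`), `q (d t) = d ι z = 0`, so `d t` is in the image of `hb1`, and `π q t = π ι z = z`
(`dia_ι`). -/
theorem hb_surj {T T' : TPC k} {Q : PC k} {p : PP T.X0 T'.X0 Q} {S : Set (LF k)}
    (h : HBch T T' p S) (L : List (LF k)) (hL : ∀ l ∈ L, l ∈ S)
    (z : ((cC Q L).X (FS.e k)).V) (hz : ((cC Q L).X (FS.e k)).dg.d z = 0) :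
    ∃ (t : ((cC T.X0 L).X (FS.e k)).V ⊗[k] ((cC T'.X0 L).X (FS.e k)).V)
      (w : Fin 3 → (T.tot L (FS.e k)).X1 ⊗[k] (T'.tot L (FS.e k)).X1),
      tdd _ _ t = hb1 (T.tot L (FS.e k)) (T'.tot L (FS.e k)) w ∧ cup p L (FS.e k) t = z := by
  have H := hb_right h L hL L (FS.e k) (Set.empty_subset S) hL
  have hs : Function.Surjective (rtP p L L (FS.e k)) := H.2.1
  obtain ⟨t, ht⟩ := hs (((dι Q L).g (FS.e k)).f z)
  have h0 : rtP p L L (FS.e k) (tdd _ _ t) = 0 := by
    rw [← hbu_d, ht, ((dι Q L).g (FS.e k)).d, hz, map_zero]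
  obtain ⟨w, hw⟩ := H.2.2.2 _ h0
  refine ⟨t, w, hw.symm, ?_⟩
  rw [hbu_cup, ht]
  exact dia_ι Q L (FS.e k) z

/-- Injectivity in cohomology modulo the image of `hb1`. PROOF. `D` (the double Čech complex) and
`π` is a quasi-isomorphism, because `ι` is one (`cH_qi`, `a` is a quasi-isomorphism on the charts:
hypothesis `ha`) and `π ι = 1`. If `cup t = π (q t) = d z` and `q (d t) = 0` then `q t` is a cycle
with `π (q t)` a boundary, so `q t = d e`, `e = q y`, `q (t - d y) = 0`. -/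
theorem hb_inj {T T' : TPC k} {Q : PC k} {p : PP T.X0 T'.X0 Q} {S : Set (LF k)}
    (h : HBch T T' p S) (L : List (LF k)) (hL : ∀ l ∈ L, l ∈ S)
    (ha : ∀ c : Ch k, ((cC Q L).a c).QI)
    (t : ((cC T.X0 L).X (FS.e k)).V ⊗[k] ((cC T'.X0 L).X (FS.e k)).V)
    (w : Fin 3 → (T.tot L (FS.e k)).X1 ⊗[k] (T'.tot L (FS.e k)).X1)
    (ht : tdd _ _ t = hb1 (T.tot L (FS.e k)) (T'.tot L (FS.e k)) w)
    (z : ((cC Q L).X (FS.e k)).V)
    (hz : ((cC Q L).X (FS.e k)).dg.d z = cup p L (FS.e k) t) :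
    ∃ (y : ((cC T.X0 L).X (FS.e k)).V ⊗[k] ((cC T'.X0 L).X (FS.e k)).V)
      (v : Fin 3 → (T.tot L (FS.e k)).X1 ⊗[k] (T'.tot L (FS.e k)).X1),
      t - tdd _ _ y = hb1 (T.tot L (FS.e k)) (T'.tot L (FS.e k)) v := by
  have H := hb_right h L hL L (FS.e k) (Set.empty_subset S) hL
  have h1 : ((cH (cC Q L).av L).g (FS.e k)).QI := cH_qi (cC Q L).av ha L (FS.e k)
  have h2 : (CHom.id ((cC Q L).X (FS.e k))).QI := CHom.QI.of_bij Function.bijective_id
  have h3 : ((dia Q L).π (FS.e k)).QI :=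
    CHom.QI.of_left (h := CHom.id _) (fun x => dia_ι Q L (FS.e k) x) h1 h2
  have hs : Function.Surjective (rtP p L L (FS.e k)) := H.2.1
  have h4 : ((cC (cC Q L).pc L).X (FS.e k)).dg.d (rtP p L L (FS.e k) t) = 0 :=
    (hbu_d p L t).trans ((congrArg (rtP p L L (FS.e k)) ht).trans (H.2.2.1 w))
  obtain ⟨e, he⟩ := h3.1 _ h4 ⟨z, hz.trans (hbu_cup p L t)⟩
  obtain ⟨y, rfl⟩ := hs e
  rw [hbu_d] at he
  have h5 : rtP p L L (FS.e k) (t - tdd _ _ y) = 0 := by
    rw [map_sub, he, sub_self]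
  obtain ⟨v, hv⟩ := H.2.2.2 _ h5
  exact ⟨y, v, hv.symm⟩

end Pool.Agent.MP_6e5bed_ag_NS
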