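import Pool.Agent.Lib.MP_6e5bed_ag_NS.Res3
import Pool.Agent.Lib.MP_6e5bed_ag_NS.HBu

set_option autoImplicit false

/-!
# MP_6e5bed_ag, NC SURFACES: the class of an external product (section 5e)
-/

noncomputable section

namespace Pool.Agent.MP_6e5bed_ag_NS

open Pool.Agent.MP_6e5bed_ag_NC
open scoped TensorProduct

universe u

variable {k : Type u} [Field k]

/-! ### Maps of tensor products and of direct sums -/

section maps

variable {A B C : DGA k}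

/-- the tensor product of two maps of degree zero -/
private def cbT {M M' : Bim A C} {N N' : Bim C B} (f : GMap 0 M M') (g : GMap 0 N N') :
    GMap 0 (tb M N) (tb M' N') := (f.tbR N).comp (g.tbL M') (add_zero 0)

private theorem cbT_tm {M M' : Bim A C} {N N' : Bim C B} (f : GMap 0 M M') (g : GMap 0 N N')
    (m : M.M) (n : N.M) : (cbT f g).f (tm m n) = tm (f.f m) (g.f n) := by
  unfold cbT
  rw [GMap.comp_f, GMap.tbR_tm, GMap.tbL_tm, Dg.sp_zero]

private theorem cbT_dd {M M' : Bim A C} {N N' : Bim C B} (f : GMap 0 M M') (g : GMap 0 N N')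
    (hf : f.dd = 0) (hg : g.dd = 0) : (cbT f g).dd = 0 := by
  refine tb_hom_ext (fun m n => ?_)
  rw [GMap.dd_apply, sg_zero, one_smul, tb_d, map_add, cbT_tm, cbT_tm, cbT_tm, tb_d,
    GMap.d_f_zero hf, GMap.d_f_zero hg, GMap.s_f, sg_zero, one_smul, sub_self,
    LinearMap.zero_apply]

private theorem cbs_deg {M N : Bim A B} {i : ℤ} {x : M.M} {y : N.M} :
    (bsum M N).dg.IsDeg i (x, y) ↔ M.dg.IsDeg i x ∧ N.dg.IsDeg i y :=
  Dg.prod_deg (X := M.dg) (Y := N.dg) (δ := 0) (hδ := fun v => by simp)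
    (hδ' := fun _ => Dg.IsDeg.zero _)

private theorem cbs_d {M N : Bim A B} (x : M.M) (y : N.M) :
    (bsum M N).dg.d (x, y) = (M.dg.d x, N.dg.d y) := by
  change (M.dg.prod N.dg 0 (fun v => by simp) (fun _ => Dg.IsDeg.zero _)).d (x, y) = _
  rw [Dg.prod_d, LinearMap.zero_apply, zero_add]

/-- the map of a sum -/
private def cbC {M N P : Bim A B} (f : GMap 0 M P) (g : GMap 0 N P) : GMap 0 (bsum M N) P where
  f := LinearMap.coprod f.f g.f
  deg := fun {i x} hx => by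
    obtain ⟨x, y⟩ := x
    have h := cbs_deg.1 hx
    exact (f.deg h.1).add (g.deg h.2)
  map_l := fun a x => by
    obtain ⟨x, y⟩ := x
    change f.f (M.l a x) + g.f (N.l a y) = P.l _ (f.f x + g.f y)
    rw [f.map_l, g.map_l, map_add]
  map_r := fun b x => by
    obtain ⟨x, y⟩ := x
    change f.f (M.r b x) + g.f (N.r b y) = P.r _ (f.f x + g.f y)
    rw [f.map_r, g.map_r, map_add]

private theorem cbC_f {M N P : Bim A B} (f : GMap 0 M P) (g : GMap 0 N P) (x : M.M) (y : N.M) :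
    (cbC f g).f (x, y) = f.f x + g.f y := rfl

private theorem cbC_dd {M N P : Bim A B} (f : GMap 0 M P) (g : GMap 0 N P) (hf : f.dd = 0)
    (hg : g.dd = 0) : (cbC f g).dd = 0 := by
  refine LinearMap.ext (fun x => ?_)
  obtain ⟨x, y⟩ := x
  rw [GMap.dd_apply, sg_zero, one_smul, cbs_d, cbC_f, cbC_f, map_add, GMap.d_f_zero hf,
    GMap.d_f_zero hg, sub_self, LinearMap.zero_apply]

/-- the map to a sum -/
private def cbP {M N P : Bim A B} (f : GMap 0 P M) (g : GMap 0 P N) : GMap 0 P (bsum M N) where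
  f := LinearMap.prod f.f g.f
  deg := fun hx => cbs_deg.2 ⟨f.deg hx, g.deg hx⟩
  map_l := fun a x => Prod.ext (f.map_l a x) (g.map_l a x)
  map_r := fun b x => Prod.ext (f.map_r b x) (g.map_r b x)

private theorem cbP_f {M N P : Bim A B} (f : GMap 0 P M) (g : GMap 0 P N) (x : P.M) :
    (cbP f g).f x = (f.f x, g.f x) := rfl

private theorem cbP_dd {M N P : Bim A B} (f : GMap 0 P M) (g : GMap 0 P N) (hf : f.dd = 0)
    (hg : g.dd = 0) : (cbP f g).dd = 0 := by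
  refine LinearMap.ext (fun x => ?_)
  rw [GMap.dd_apply, sg_zero, one_smul, cbP_f, cbP_f, cbs_d, GMap.d_f_zero hf,
    GMap.d_f_zero hg, sub_self, LinearMap.zero_apply]

end maps

/-! ### The resolution of length two of an external product -/

section hb

variable {A B : DGA k} {X0 X1 X2 : Bim A (base k)} {Y0 Y1 Y2 : Bim (base k) B}

/-- the three spaces -/
private def cbW {A' B' : DGA k} {X0 X1 X2 : Bim A' B'} (x1 : Fin 3 → GMap 0 X1 X0)
    (x2 : Fin 3 → GMap 0 X2 X1)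
    (hx : ∀ i j x, (x1 i).f ((x2 j).f x) = (x1 j).f ((x2 i).f x)) : Tw k where
  X0 := X0.M
  X1 := X1.M
  X2 := X2.M
  x1 := fun j => (x1 j).f
  x2 := fun j => (x2 j).f
  comm := hx

private theorem cb_nat {X X' : Bim A (base k)} {Y Y' : Bim (base k) B} (f : GMap 0 X X')
    (g : GMap 0 Y Y') (e : (tb X Y).M ≃ₗ[k] X.M ⊗[k] Y.M) (he : ∀ m n, e (tm m n) = m ⊗ₜ[k] n)
    (e' : (tb X' Y').M ≃ₗ[k] X'.M ⊗[k] Y'.M) (he' : ∀ m n, e' (tm m n) = m ⊗ₜ[k] n)
    (t : (tb X Y).M) : e' ((cbT f g).f t) = TensorProduct.map f.f g.f (e t) := by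
  refine tb_ind (P := fun t => e' ((cbT f g).f t) = TensorProduct.map f.f g.f (e t)) ?_ ?_ ?_ t
  · simp only [map_zero]
  · intro x y hx hy
    rw [map_add, map_add, map_add, map_add, hx, hy]
  · intro m n
    rw [cbT_tm, he', he, TensorProduct.map_tmul]

/-- the minors -/
private def cbm (x1 : Fin 3 → GMap 0 X1 X0) (y1 : Fin 3 → GMap 0 Y1 Y0) (i j : Fin 3) :
    GMap 0 (tb X1 Y1) (tb X0 Y0) := cbT (x1 i) (y1 j) - cbT (x1 j) (y1 i)

private theorem cbm_dd (x1 : Fin 3 → GMap 0 X1 X0) (y1 : Fin 3 → GMap 0 Y1 Y0)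
    (hx : ∀ i, (x1 i).dd = 0) (hy : ∀ i, (y1 i).dd = 0) (i j : Fin 3) :
    (cbm x1 y1 i j).dd = 0 := by
  refine LinearMap.ext (fun x => ?_)
  unfold cbm
  rw [GMap.dd_sub, cbT_dd _ _ (hx i) (hy j), cbT_dd _ _ (hx j) (hy i), sub_self,
    LinearMap.zero_apply]

/-- the determinant -/
private def cb1 (x1 : Fin 3 → GMap 0 X1 X0) (y1 : Fin 3 → GMap 0 Y1 Y0) :
    GMap 0 (bsum (tb X1 Y1) (bsum (tb X1 Y1) (tb X1 Y1))) (tb X0 Y0) :=
  cbC (cbm x1 y1 1 2) (cbC (-(cbm x1 y1 0 2)) (cbm x1 y1 0 1))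

private theorem cb1_dd (x1 : Fin 3 → GMap 0 X1 X0) (y1 : Fin 3 → GMap 0 Y1 Y0)
    (hx : ∀ i, (x1 i).dd = 0) (hy : ∀ i, (y1 i).dd = 0) : (cb1 x1 y1).dd = 0 := by
  refine cbC_dd _ _ (cbm_dd x1 y1 hx hy 1 2) (cbC_dd _ _ ?_ (cbm_dd x1 y1 hx hy 0 1))
  refine LinearMap.ext (fun x => ?_)
  rw [GMap.dd_neg, cbm_dd x1 y1 hx hy 0 2, LinearMap.zero_apply, neg_zero]

/-- a component of the second map -/
private def cbr (x2 : Fin 3 → GMap 0 X2 X1) (y2 : Fin 3 → GMap 0 Y2 Y1) (j : Fin 3) :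
    GMap 0 (bsum (tb X2 Y1) (tb X1 Y2)) (tb X1 Y1) :=
  cbC (cbT (x2 j) (GMap.id Y1)) (cbT (GMap.id X1) (y2 j))

private theorem cbr_dd (x2 : Fin 3 → GMap 0 X2 X1) (y2 : Fin 3 → GMap 0 Y2 Y1)
    (hx : ∀ i, (x2 i).dd = 0) (hy : ∀ i, (y2 i).dd = 0) (j : Fin 3) : (cbr x2 y2 j).dd = 0 :=
  cbC_dd _ _ (cbT_dd _ _ (hx j) (LinearMap.ext GMap.dd_id))
    (cbT_dd _ _ (LinearMap.ext GMap.dd_id) (hy j))

/-- the second map -/
private def cb2 (x2 : Fin 3 → GMap 0 X2 X1) (y2 : Fin 3 → GMap 0 Y2 Y1) :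
    GMap 0 (bsum (tb X2 Y1) (tb X1 Y2)) (bsum (tb X1 Y1) (bsum (tb X1 Y1) (tb X1 Y1))) :=
  cbP (cbr x2 y2 0) (cbP (cbr x2 y2 1) (cbr x2 y2 2))

private theorem cb2_dd (x2 : Fin 3 → GMap 0 X2 X1) (y2 : Fin 3 → GMap 0 Y2 Y1)
    (hx : ∀ i, (x2 i).dd = 0) (hy : ∀ i, (y2 i).dd = 0) : (cb2 x2 y2).dd = 0 :=
  cbP_dd _ _ (cbr_dd x2 y2 hx hy 0) (cbP_dd _ _ (cbr_dd x2 y2 hx hy 1) (cbr_dd x2 y2 hx hy 2))

/-- `hb1` after `hb2` is zero -/
private theorem cb_hb (W W' : Tw k) (z : (W.X2 ⊗[k] W'.X1) × (W.X1 ⊗[k] W'.X2)) :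
    hb1 W W' (hb2 W W' z) = 0 := by
  have key : hb1 W W' ∘ₗ hb2 W W' = 0 := by
    refine LinearMap.prod_ext ?_ ?_
    · refine TensorProduct.ext' (fun a b => ?_)
      simp only [LinearMap.comp_apply, LinearMap.inl_apply, LinearMap.zero_apply]
      rw [hb1_apply, hb2_apply, hb2_apply, hb2_apply]
      simp only [mnr, map_zero, add_zero, LinearMap.rTensor_tmul, LinearMap.sub_apply,
        TensorProduct.map_tmul]
      rw [W.comm 1 0, W.comm 2 0, W.comm 2 1]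
      abel
    · refine TensorProduct.ext' (fun a b => ?_)
      simp only [LinearMap.comp_apply, LinearMap.inr_apply, LinearMap.zero_apply]
      rw [hb1_apply, hb2_apply, hb2_apply, hb2_apply]
      simp only [mnr, map_zero, zero_add, LinearMap.lTensor_tmul, LinearMap.sub_apply,
        TensorProduct.map_tmul]
      rw [W'.comm 1 0, W'.comm 2 0, W'.comm 2 1]
      abel
  exact LinearMap.congr_fun key z

/-- The class of `Z`. -/
private theorem cb_main (x1 : Fin 3 → GMap 0 X1 X0) (x2 : Fin 3 → GMap 0 X2 X1)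
    (y1 : Fin 3 → GMap 0 Y1 Y0) (y2 : Fin 3 → GMap 0 Y2 Y1)
    (hx1 : ∀ i, (x1 i).dd = 0) (hx2 : ∀ i, (x2 i).dd = 0) (hy1 : ∀ i, (y1 i).dd = 0)
    (hy2 : ∀ i, (y2 i).dd = 0)
    (hx : ∀ i j x, (x1 i).f ((x2 j).f x) = (x1 j).f ((x2 i).f x))
    (hy : ∀ i j x, (y1 i).f ((y2 j).f x) = (y1 j).f ((y2 i).f x))
    {Z : Bim A B} (g0 : GMap 0 (tb X0 Y0) Z) (d0 : g0.dd = 0)
    (q : X0.M ⊗[k] Y0.M →ₗ[k] Z.M) (dK : X0.M ⊗[k] Y0.M →ₗ[k] X0.M ⊗[k] Y0.M)
    (hq : ∀ m n, g0.f (tm m n) = q (m ⊗ₜ[k] n))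
    (hd : ∀ m n, dK (m ⊗ₜ[k] n) = X0.dg.d m ⊗ₜ[k] n + X0.dg.s m ⊗ₜ[k] Y0.dg.d n)
    (hE : EX (cbW x1 x2 hx) (cbW y1 y2 hy))
    (hq0 : ∀ w, q (hb1 (cbW x1 x2 hx) (cbW y1 y2 hy) w) = 0)
    (hs : ∀ z, Z.dg.d z = 0 → ∃ t w, dK t = hb1 (cbW x1 x2 hx) (cbW y1 y2 hy) w ∧ q t = z)
    (hi : ∀ t w, dK t = hb1 (cbW x1 x2 hx) (cbW y1 y2 hy) w → ∀ z, Z.dg.d z = q t →
      ∃ y v, t - dK y = hb1 (cbW x1 x2 hx) (cbW y1 y2 hy) v)
    (r0 : HasRes (tb X0 Y0)) (r11 : HasRes (tb X1 Y1)) (r21 : HasRes (tb X2 Y1))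
    (r12 : HasRes (tb X1 Y2)) :
    ∃ h : HasRes Z, rcls Z h = rcls _ r0 - (rcls _ r11 + (rcls _ r11 + rcls _ r11)) +
      (rcls _ r21 + rcls _ r12) := by
  obtain ⟨e00, he00⟩ := exists_tbe X0 Y0
  obtain ⟨e11, he11⟩ := exists_tbe X1 Y1
  obtain ⟨e21, he21⟩ := exists_tbe X2 Y1
  obtain ⟨e12, he12⟩ := exists_tbe X1 Y2
  have n1 : ∀ a b c, e00 ((cb1 x1 y1).f (a, (b, c))) =
      hb1 (cbW x1 x2 hx) (cbW y1 y2 hy) ![e11 a, e11 b, e11 c] := by
    intro a b c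
    have m1 : ∀ i j t, e00 ((cbm x1 y1 i j).f t) =
        mnr (cbW x1 x2 hx) (cbW y1 y2 hy) i j (e11 t) := by
      intro i j t
      change e00 ((cbT (x1 i) (y1 j)).f t - (cbT (x1 j) (y1 i)).f t) = _
      rw [map_sub, cb_nat _ _ e11 he11 e00 he00, cb_nat _ _ e11 he11 e00 he00]
      rfl
    have m2 : (cb1 x1 y1).f (a, (b, c)) = (cbm x1 y1 1 2).f a +
        (-(cbm x1 y1 0 2).f b + (cbm x1 y1 0 1).f c) := rfl
    rw [m2, map_add, map_add, map_neg, m1, m1, m1, hb1_apply]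
    simp only [Matrix.cons_val_zero, Matrix.cons_val_one, Matrix.cons_val]
    abel
  have n2 : ∀ j u v, e11 ((cbr x2 y2 j).f (u, v)) =
      hb2 (cbW x1 x2 hx) (cbW y1 y2 hy) (e21 u, e12 v) j := by
    intro j u v
    rw [hb2_apply]
    change e11 ((cbT (x2 j) (GMap.id Y1)).f u + (cbT (GMap.id X1) (y2 j)).f v) = _
    rw [map_add, cb_nat _ _ e21 he21 e11 he11, cb_nat _ _ e12 he12 e11 he11]
    rfl
  have n3 : ∀ t, g0.f t = q (e00 t) := by
    intro t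
    refine tb_ind (P := fun t => g0.f t = q (e00 t)) (by simp only [map_zero])
      (fun x y hx hy => by rw [map_add, map_add, map_add, hx, hy]) (fun m n => ?_) t
    rw [he00, hq]
  have n4 : ∀ t, e00 ((tb X0 Y0).dg.d t) = dK (e00 t) := by
    intro t
    refine tb_ind (P := fun t => e00 ((tb X0 Y0).dg.d t) = dK (e00 t)) (by simp only [map_zero])
      (fun x y hx hy => by rw [map_add, map_add, map_add, map_add, hx, hy]) (fun m n => ?_) t
    rw [tb_d, map_add, he00, he00, he00, hd]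
  have n5 : ∀ w, ∃ x, e00 ((cb1 x1 y1).f x) = hb1 (cbW x1 x2 hx) (cbW y1 y2 hy) w := by
    intro w
    refine ⟨(e11.symm (w 0), (e11.symm (w 1), e11.symm (w 2))), ?_⟩
    rw [n1, e11.apply_symm_apply, e11.apply_symm_apply, e11.apply_symm_apply]
    congr 1
    funext j
    fin_cases j <;> rfl
  have n6 : ∀ x, (cb1 x1 y1).f x = 0 → ∃ y, (cb2 x2 y2).f y = x := by
    rintro ⟨a, b, c⟩ h
    have h1 := n1 a b c
    rw [h, map_zero] at h1
    obtain ⟨⟨u, v⟩, hz⟩ := hE.2 _ h1.symm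
    refine ⟨(e21.symm u, e12.symm v), ?_⟩
    have h2 : ∀ j, e11 ((cbr x2 y2 j).f (e21.symm u, e12.symm v)) = ![e11 a, e11 b, e11 c] j := by
      intro j
      rw [n2, e21.apply_symm_apply, e12.apply_symm_apply, hz]
      rfl
    exact Prod.ext (e11.injective (h2 0)) (Prod.ext (e11.injective (h2 1)) (e11.injective (h2 2)))
  have n7 : ∀ u v, (cb1 x1 y1).f ((cb2 x2 y2).f (u, v)) = 0 := by
    intro u v
    apply e00.injective
    have h1 := n1 ((cbr x2 y2 0).f (u, v)) ((cbr x2 y2 1).f (u, v)) ((cbr x2 y2 2).f (u, v))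
    have h2 : ![e11 ((cbr x2 y2 0).f (u, v)), e11 ((cbr x2 y2 1).f (u, v)),
        e11 ((cbr x2 y2 2).f (u, v))] =
        hb2 (cbW x1 x2 hx) (cbW y1 y2 hy) (e21 u, e12 v) := by
      funext j
      fin_cases j
      · exact n2 0 u v
      · exact n2 1 u v
      · exact n2 2 u v
    refine h1.trans ?_
    rw [map_zero]
    exact (congrArg (hb1 (cbW x1 x2 hx) (cbW y1 y2 hy)) h2).trans (cb_hb _ _ _)
  have s1 := bsum_ses (tb X1 Y1) (tb X1 Y1)
  have s2 := bsum_ses (tb X1 Y1) (bsum (tb X1 Y1) (tb X1 Y1))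
  have s3 := bsum_ses (tb X2 Y1) (tb X1 Y2)
  have t1 := s1.mid r11 r11
  have t2 := s2.mid r11 t1
  have t3 := s3.mid r21 r12
  have fin := rcls_res3 (cb2 x2 y2) (cb1 x1 y1) g0 (cb2_dd x2 y2 hx2 hy2)
    (cb1_dd x1 y1 hx1 hy1) d0 ?_ ?_ ?_ ?_ ?_ t3 t2 r0
  · obtain ⟨h, e⟩ := fin
    refine ⟨h, e.trans ?_⟩
    rw [s2.rcls r11 t2 t1, s1.rcls r11 t1 r11, s3.rcls r21 t3 r12]
  · rintro ⟨u, v⟩ ⟨u', v'⟩ h
    have h1 : hb2 (cbW x1 x2 hx) (cbW y1 y2 hy) (e21 u, e12 v) =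
        hb2 (cbW x1 x2 hx) (cbW y1 y2 hy) (e21 u', e12 v') := by
      funext j
      rw [← n2, ← n2]
      have h2 : (cbr x2 y2 j).f (u, v) = (cbr x2 y2 j).f (u', v') := by
        fin_cases j
        · exact congrArg (fun z => z.1) h
        · exact congrArg (fun z => z.2.1) h
        · exact congrArg (fun z => z.2.2) h
      rw [h2]
    have h3 := hE.1 h1
    exact Prod.ext (e21.injective (congrArg Prod.fst h3)) (e12.injective (congrArg Prod.snd h3))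
  · intro x
    refine ⟨n6 x, ?_⟩
    rintro ⟨⟨u, v⟩, rfl⟩
    exact n7 u v
  · rintro ⟨a, b, c⟩
    rw [n3]
    exact (congrArg q (n1 a b c)).trans (hq0 _)
  · intro z hz
    obtain ⟨t, w, h1, h2⟩ := hs z hz
    obtain ⟨x, h3⟩ := n5 w
    refine ⟨e00.symm t, x, ?_, 0, ?_⟩
    · apply e00.injective
      rw [n4, e00.apply_symm_apply, h1]
      exact h3.symm
    · rw [n3, e00.apply_symm_apply, h2, map_zero, sub_self]
  · rintro t ⟨a, b, c⟩ z h1 h2
    have h3 : dK (e00 t) = hb1 (cbW x1 x2 hx) (cbW y1 y2 hy) ![e11 a, e11 b, e11 c] := by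
      rw [← n4, h1]
      exact n1 a b c
    obtain ⟨y, v, h4⟩ := hi (e00 t) _ h3 z (by rw [h2, n3])
    obtain ⟨x, h5⟩ := n5 v
    refine ⟨e00.symm y, x, ?_⟩
    apply e00.injective
    rw [map_sub, n4, e00.apply_symm_apply, h4]
    exact h5.symm

end hb

/-- `N(-2) → N(-1) → N` for bimodules -/
structure TPB (A B : PA k) where
  N0 : PB A B
  N1 : PB A B
  N2 : PB A B
  x1 : Fin 3 → PBH N1 N0
  x2 : Fin 3 → PBH N2 N1
  comm : ∀ i j c x, ((x1 i).f c).f (((x2 j).f c).f x) = ((x1 j).f c).f (((x2 i).f c).f x)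

/-- the underlying complexes -/
def TPB.tpc {A B : PA k} (T : TPB A B) : TPC k where
  X0 := T.N0.pc
  X1 := T.N1.pc
  X2 := T.N2.pc
  x1 := fun j => (T.x1 j).pch
  x2 := fun j => (T.x2 j).pch
  comm := T.comm

private theorem cb_comm {A B : PA k} (T : TPB A B) (L : List (LF k)) (c : FS k) (i j : Fin 3)
    (x : (cB T.N2 L c).M) : ((T.x1 i).gmap L c).f (((T.x2 j).gmap L c).f x) =
      ((T.x1 j).gmap L c).f (((T.x2 i).gmap L c).f x) :=
  cH_comm _ _ _ _ (fun c x => T.comm i j c x) L c x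

/-- the map of the external product given by a pairing -/
private theorem cb_mapA {A B : DGA k} {X : Bim A (base k)} {Y : Bim (base k) B} {Z : Bim A B}
    (β : X.M →ₗ[k] Y.M →ₗ[k] Z.M) (hl : ∀ a x y, β (X.l a x) y = Z.l a (β x y))
    (hr : ∀ b x y, β x (Y.r b y) = Z.r b (β x y))
    (hdeg : ∀ {i j : ℤ} {x : X.M} {y : Y.M}, X.dg.IsDeg i x → Y.dg.IsDeg j y →
      Z.dg.IsDeg (i + j) (β x y))
    (hd : ∀ x y, Z.dg.d (β x y) = β (X.dg.d x) y + β (X.dg.s x) (Y.dg.d y)) :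
    ∃ g : GMap 0 (tb X Y) Z, g.dd = 0 ∧ ∀ m n, g.f (tm m n) = β m n := by
  have hb : ∀ m b n, β (X.r b m) n = β m (Y.l b n) := by
    intro m b n
    rw [base_r X b m, base_l Y b n, map_smul, map_smul, LinearMap.smul_apply]
  obtain ⟨g, hg⟩ : ∃ g : GMap 0 (tb X Y) Z, ∀ m n, g.f (tm m n) = β m n := by
    refine ⟨⟨tlift β hb, ?_, ?_, ?_⟩, fun m n => tlift_tm _ hb m n⟩
    · intro i x hx
      refine tb_degMap _ (fun {i j v w} hv hw => ?_) hx
      rw [add_zero, tlift_tm]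
      exact hdeg hv hw
    · intro a x
      refine tb_ind (P := fun x => tlift β hb ((tb X Y).l a x) =
        Z.l (A.dg.sp 0 a) (tlift β hb x)) ?_ ?_ ?_ x
      · simp only [map_zero]
      · intro x y hx hy
        rw [map_add, map_add, map_add, map_add, hx, hy]
      · intro m n
        rw [tb_l, tlift_tm, tlift_tm, Dg.sp_zero]
        exact hl a m n
    · intro b x
      refine tb_ind (P := fun x => tlift β hb ((tb X Y).r b x) = Z.r b (tlift β hb x))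
        ?_ ?_ ?_ x
      · simp only [map_zero]
      · intro x y hx hy
        rw [map_add, map_add, map_add, map_add, hx, hy]
      · intro m n
        rw [tb_r, tlift_tm, tlift_tm]
        exact hr b m n
  refine ⟨g, ?_, hg⟩
  refine tb_hom_ext (fun m n => ?_)
  rw [GMap.dd_apply, sg_zero, one_smul, tb_d, map_add, LinearMap.zero_apply, sub_eq_zero, hg,
    hg, hg, hd]

/-- the map of the external product of the Čech complexes -/
private theorem cb_map {A : PA k} (L : List (LF k)) (M N Q : PB A A) (p : PP M.pc N.pc Q.pc)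
    (hl : ∀ c a x y, (p.p c).m ((M.M c).l a x) y = (Q.M c).l a ((p.p c).m x y))
    (hr : ∀ c b x y, (p.p c).m x ((N.M c).r b y) = (Q.M c).r b ((p.p c).m x y)) :
    ∃ g : GMap 0 (tb (fgR (cB M L (FS.e k))) (fgL (cB N L (FS.e k)))) (cB Q L (FS.e k)),
      g.dd = 0 ∧ ∀ (m : (cB M L (FS.e k)).M) (n : (cB N L (FS.e k)).M),
        g.f (tm (M := fgR (cB M L (FS.e k))) (N := fgL (cB N L (FS.e k))) m n) =
          ((cP p L).q (FS.e k)).m m n :=
  cb_mapA (X := fgR (cB M L (FS.e k))) (Y := fgL (cB N L (FS.e k))) (Z := cB Q L (FS.e k))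
    ((cP p L).q (FS.e k)).m (fun a x y => cP_assoc M.pl p p Q.pl hl L (FS.e k) a x y)
    (fun b x y => (cP_assoc p Q.pr N.pr p (fun c x y b => (hr c b x y).symm) L (FS.e k)
      x y b).symm) (fun hx hy => ((cP p L).q (FS.e k)).deg hx hy)
    (fun x y => ((cP p L).q (FS.e k)).d x y)

private theorem cb_cup {V V' V'' : PC k} (p : PP V V' V'') (L : List (LF k))
    (t : ((cC V L).X (FS.e k)).V ⊗[k] ((cC V' L).X (FS.e k)).V) :
    cup p L (FS.e k) t = ((dia V'' L).π (FS.e k)).f (rtP p L L (FS.e k) t) := by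
  induction t using TensorProduct.induction_on with
  | zero => simp only [map_zero]
  | tmul a b =>
    refine Eq.trans ?_ (dia_cup p L (FS.e k) a b).symm
    rw [(cC V L).ρ_id]
    rfl
  | add s t hs ht => rw [map_add, map_add, map_add, hs, ht]

/-- The class of `C(Q)` is
`[X0] ⊗ [Y0] - 3 [X1] ⊗ [Y1] + [X2] ⊗ [Y1] + [X1] ⊗ [Y2]`, `X_i = C(N_i)` as `T-k`-bimodule
(`fgR`), `Y_i = C(N'_i)` as `k-T`-bimodule (`fgL`). PROOF. `rcls_res3` with
`K0 = tb X0 Y0`, `K1` the sum of three copies of `tb X1 Y1`, `K2` the sum of `tb X2 Y1` and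
`tb X1 Y2` (`bsum`), the maps `hb2`, `hb1` and the cup product, transported with `exists_tbe`.
They are bilinear over the Čech algebras (`cP_assoc` for `hl`, `hr`; the maps `x_j` are
`PBH.gmap`). Exactness: `(hb_right h L hL L ∅)`; quasi-isomorphism: `hb_surj`, `hb_inj`;
`HasRes.of_finCoh`; `JS.tb_base`. -/
theorem cup_mem {Good : DGA k → Prop} (hG : Good (base k)) {A : PA k} (L : List (LF k))
    (hT : Smooth (cA A L (FS.e k))) (T T' : TPB A A) (Q : PB A A)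
    (p : PP T.N0.pc T'.N0.pc Q.pc)
    (hl : ∀ c a x y, (p.p c).m ((T.N0.M c).l a x) y = (Q.M c).l a ((p.p c).m x y))
    (hr : ∀ c b x y, (p.p c).m x ((T'.N0.M c).r b y) = (Q.M c).r b ((p.p c).m x y))
    {S : Set (LF k)} (h : HBch T.tpc T'.tpc p S) (hL : ∀ l ∈ L, l ∈ S)
    (ha : ∀ c : Ch k, ((cC Q.pc L).a c).QI)
    (f0 : (cB T.N0 L (FS.e k)).dg.FinCoh) (f1 : (cB T.N1 L (FS.e k)).dg.FinCoh)
    (f2 : (cB T.N2 L (FS.e k)).dg.FinCoh) (f0' : (cB T'.N0 L (FS.e k)).dg.FinCoh)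
    (f1' : (cB T'.N1 L (FS.e k)).dg.FinCoh) (f2' : (cB T'.N2 L (FS.e k)).dg.FinCoh) :
    ∃ h : HasRes (cB Q L (FS.e k)), rcls _ h ∈ JS Good (cA A L (FS.e k)) := by
  have H := hb_right h L hL L (FS.e k) (Set.empty_subset S) hL
  have a0 : HasRes (fgR (cB T.N0 L (FS.e k))) := HasRes.of_finCoh hT smooth_base _ f0
  have a1 : HasRes (fgR (cB T.N1 L (FS.e k))) := HasRes.of_finCoh hT smooth_base _ f1
  have a2 : HasRes (fgR (cB T.N2 L (FS.e k))) := HasRes.of_finCoh hT smooth_base _ f2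
  have b0 : HasRes (fgL (cB T'.N0 L (FS.e k))) := HasRes.of_finCoh smooth_base hT _ f0'
  have b1 : HasRes (fgL (cB T'.N1 L (FS.e k))) := HasRes.of_finCoh smooth_base hT _ f1'
  have b2 : HasRes (fgL (cB T'.N2 L (FS.e k))) := HasRes.of_finCoh smooth_base hT _ f2'
  have r0 := HasRes.tb base_proper a0 b0 (rflat_base _)
  have r11 := HasRes.tb base_proper a1 b1 (rflat_base _)
  have r21 := HasRes.tb base_proper a2 b1 (rflat_base _)
  have r12 := HasRes.tb base_proper a1 b2 (rflat_base _)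
  obtain ⟨g0, d0, hg⟩ := cb_map L T.N0 T'.N0 Q p hl hr
  have key := cb_main
    (fun j => ((T.x1 j).gmap L (FS.e k)).res (DHom.id _) (DHom.unit _))
    (fun j => ((T.x2 j).gmap L (FS.e k)).res (DHom.id _) (DHom.unit _))
    (fun j => ((T'.x1 j).gmap L (FS.e k)).res (DHom.unit _) (DHom.id _))
    (fun j => ((T'.x2 j).gmap L (FS.e k)).res (DHom.unit _) (DHom.id _))
    (fun j => (T.x1 j).gmap_dd L (FS.e k)) (fun j => (T.x2 j).gmap_dd L (FS.e k))
    (fun j => (T'.x1 j).gmap_dd L (FS.e k)) (fun j => (T'.x2 j).gmap_dd L (FS.e k))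
    (cb_comm T L (FS.e k)) (cb_comm T' L (FS.e k)) g0 d0
    (cup p L (FS.e k)) (tdd ((cC T.N0.pc L).X (FS.e k)) ((cC T'.N0.pc L).X (FS.e k)))
    hg (fun m n => rfl) H.1 ?_ ?_ ?_ r0 r11 r21 r12
  · obtain ⟨hZ, e⟩ := key
    refine ⟨hZ, ?_⟩
    rw [e]
    have j0 := JS.tb_base hG a0 b0 r0
    have j11 := JS.tb_base hG a1 b1 r11
    have j21 := JS.tb_base hG a2 b1 r21
    have j12 := JS.tb_base hG a1 b2 r12
    exact Submodule.add_mem _ (Submodule.sub_mem _ j0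
      (Submodule.add_mem _ j11 (Submodule.add_mem _ j11 j11))) (Submodule.add_mem _ j21 j12)
  · intro w
    refine (cb_cup p L _).trans ?_
    refine (congrArg ((dia Q.pc L).π (FS.e k)).f (H.2.2.1 w)).trans ?_
    exact map_zero _
  · intro z hz
    exact hb_surj h L hL z hz
  · intro t w ht z hz
    exact hb_inj h L hL ha t w ht z hz

end Pool.Agent.MP_6e5bed_ag_NS
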