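import Pool.Agent.Lib.MP_6e5bed_ag_NC.Shift
import Pool.Agent.Lib.MP_6e5bed_ag_CV.Ring0

set_option autoImplicit false

/-!
# MP_6e5bed_ag, NC SURFACES: complexes, pairings, the complex of a cospan

For a cospan `X0 → X01 ← X1` of complexes, `co` is the complex with the elements `(x0, x1, ξ)`
(`ξ` is shifted by one) and `d (x0, x1, ξ) = (d x0, d x1, r1 x1 - r0 x0 - d ξ)`.
-/

noncomputable section

namespace Pool.Agent.MP_6e5bed_ag_NS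

open Pool.Agent.MP_6e5bed_ag_NC

universe u

/-- A complex. -/
structure Cx (k : Type u) [CommRing k] where
  V : Type u
  [grp : AddCommGroup V]
  [mod : Module k V]
  dg : Dg k V

attribute [instance] Cx.grp Cx.mod

variable {k : Type u} [CommRing k]

/-- A morphism of complexes. -/
structure CHom (X Y : Cx k) where
  f : X.V →ₗ[k] Y.V
  deg : ∀ {i : ℤ} {x : X.V}, X.dg.IsDeg i x → Y.dg.IsDeg i (f x)
  d : ∀ x, Y.dg.d (f x) = f (X.dg.d x)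

/-- A bilinear pairing of complexes. -/
structure CPr (X Y Z : Cx k) where
  m : X.V →ₗ[k] Y.V →ₗ[k] Z.V
  deg : ∀ {i j : ℤ} {x : X.V} {y : Y.V}, X.dg.IsDeg i x → Y.dg.IsDeg j y →
    Z.dg.IsDeg (i + j) (m x y)
  d : ∀ x y, Z.dg.d (m x y) = m (X.dg.d x) y + m (X.dg.s x) (Y.dg.d y)

theorem CHom.s {X Y : Cx k} (f : CHom X Y) (x : X.V) : Y.dg.s (f.f x) = f.f (X.dg.s x) :=
  Dg.s_degMap_even (n := 0) Even.zero f.f (fun h => by rw [add_zero]; exact f.deg h) x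

theorem CPr.s {X Y Z : Cx k} (p : CPr X Y Z) (x : X.V) (y : Y.V) :
    Z.dg.s (p.m x y) = p.m (X.dg.s x) (Y.dg.s y) :=
  Dg.s_bilin p.m (fun h h' => p.deg h h') x y

/-- The identity. -/
def CHom.id (X : Cx k) : CHom X X where
  f := LinearMap.id
  deg := fun h => h
  d := fun _ => rfl

/-- The composition. -/
def CHom.comp {X Y Z : Cx k} (f : CHom X Y) (g : CHom Y Z) : CHom X Z where
  f := g.f ∘ₗ f.f
  deg := fun h => g.deg (f.deg h)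
  d := fun x => by rw [LinearMap.comp_apply, LinearMap.comp_apply, g.d, f.d]

/-- A complex concentrated in degree `0`. -/
def Cx.conc (k : Type u) [CommRing k] (V : Type u) [AddCommGroup V] [Module k V] : Cx k where
  V := V
  dg := Dg.conc k V

/-- The zero complex. -/
def Cx.zero (k : Type u) [CommRing k] : Cx k := Cx.conc k PUnit.{u + 1}

section cdg

variable {V0 V1 V01 : Type u} [AddCommGroup V0] [Module k V0] [AddCommGroup V1] [Module k V1]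
  [AddCommGroup V01] [Module k V01]

theorem pdg_h (X0 : Dg k V0) (X1 : Dg k V1) {i : ℤ} {v : V0} (_ : X0.IsDeg i v) :
    X1.IsDeg (i + 1) ((0 : V0 →ₗ[k] V1) v) := Dg.IsDeg.zero _

/-- The complex `(v0, v1)`. -/
def pdg (X0 : Dg k V0) (X1 : Dg k V1) : Dg k (V0 × V1) :=
  X0.prod X1 0 (fun v => by simp) (pdg_h X0 X1)

theorem pdg_d (X0 : Dg k V0) (X1 : Dg k V1) (v0 : V0) (v1 : V1) :
    (pdg X0 X1).d (v0, v1) = (X0.d v0, X1.d v1) := by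
  change (X0.d v0, 0 + X1.d v1) = _
  rw [zero_add]

theorem pdg_deg {X0 : Dg k V0} {X1 : Dg k V1} {i : ℤ} {v0 : V0} {v1 : V1} :
    (pdg X0 X1).IsDeg i (v0, v1) ↔ X0.IsDeg i v0 ∧ X1.IsDeg i v1 :=
  Dg.prod_deg (hδ' := pdg_h X0 X1)

theorem pdg_s (X0 : Dg k V0) (X1 : Dg k V1) (v0 : V0) (v1 : V1) :
    (pdg X0 X1).s (v0, v1) = (X0.s v0, X1.s v1) :=
  Dg.prod_s (hδ' := pdg_h X0 X1) v0 v1

end cdg

theorem co_h {X0 X1 X01 : Cx k} (r0 : CHom X0 X01) (r1 : CHom X1 X01) {i : ℤ}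
    {v : X0.V × X1.V} (h : (pdg X0.dg X1.dg).IsDeg i v) : (X01.dg.shift (-1)).IsDeg (i + 1)
      ((r1.f ∘ₗ LinearMap.snd k X0.V X1.V - r0.f ∘ₗ LinearMap.fst k X0.V X1.V) v) := by
  obtain ⟨v0, v1⟩ := v
  have h' := pdg_deg.1 h
  rw [Dg.shift_deg, add_neg_cancel_right]
  exact (r1.deg h'.2).sub (r0.deg h'.1)

theorem co_h0 {X0 X1 X01 : Cx k} (r0 : CHom X0 X01) (r1 : CHom X1 X01) (v : X0.V × X1.V) :
    (X01.dg.shift (-1)).d
      ((r1.f ∘ₗ LinearMap.snd k X0.V X1.V - r0.f ∘ₗ LinearMap.fst k X0.V X1.V) v) =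
      - (r1.f ∘ₗ LinearMap.snd k X0.V X1.V - r0.f ∘ₗ LinearMap.fst k X0.V X1.V)
        ((pdg X0.dg X1.dg).d v) := by
  obtain ⟨v0, v1⟩ := v
  rw [Dg.shift_d, pdg_d, sg_neg, sg_one, neg_smul, one_smul]
  simp only [LinearMap.sub_apply, LinearMap.comp_apply, LinearMap.snd_apply,
    LinearMap.fst_apply, map_sub, r0.d, r1.d]

/-- The complex `(x0, x1, ξ)`, `d (x0, x1, ξ) = (d x0, d x1, r1 x1 - r0 x0 - d ξ)` of a cospan of
complexes. -/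
def co {X0 X1 X01 : Cx k} (r0 : CHom X0 X01) (r1 : CHom X1 X01) : Cx k where
  V := (X0.V × X1.V) × X01.V
  dg := (pdg X0.dg X1.dg).prod (X01.dg.shift (-1))
    (r1.f ∘ₗ LinearMap.snd k X0.V X1.V - r0.f ∘ₗ LinearMap.fst k X0.V X1.V)
    (co_h0 r0 r1) (co_h r0 r1)

section co

variable {X0 X1 X01 : Cx k} {r0 : CHom X0 X01} {r1 : CHom X1 X01}

/-- The element `(x0, x1, ξ)`. -/
def co.mk (r0 : CHom X0 X01) (r1 : CHom X1 X01) (x0 : X0.V) (x1 : X1.V) (ξ : X01.V) :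
    (co r0 r1).V := ((x0, x1), ξ)

theorem co_d (x0 : X0.V) (x1 : X1.V) (ξ : X01.V) : (co r0 r1).dg.d (co.mk r0 r1 x0 x1 ξ) =
    co.mk r0 r1 (X0.dg.d x0) (X1.dg.d x1) (r1.f x1 - r0.f x0 - X01.dg.d ξ) := by
  change ((pdg X0.dg X1.dg).d (x0, x1), (r1.f x1 - r0.f x0) + (X01.dg.shift (-1)).d ξ) = _
  rw [pdg_d, Dg.shift_d, sg_neg, sg_one, neg_smul, one_smul, ← sub_eq_add_neg]
  rfl

theorem co_deg {i : ℤ} {x0 : X0.V} {x1 : X1.V} {ξ : X01.V} :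
    (co r0 r1).dg.IsDeg i (co.mk r0 r1 x0 x1 ξ) ↔
      X0.dg.IsDeg i x0 ∧ X1.dg.IsDeg i x1 ∧ X01.dg.IsDeg (i + -1) ξ := by
  refine (Dg.prod_deg (hδ := co_h0 r0 r1) (hδ' := co_h r0 r1)).trans ?_
  rw [pdg_deg, Dg.shift_deg, and_assoc]

theorem co_s (x0 : X0.V) (x1 : X1.V) (ξ : X01.V) : (co r0 r1).dg.s (co.mk r0 r1 x0 x1 ξ) =
    co.mk r0 r1 (X0.dg.s x0) (X1.dg.s x1) (- X01.dg.s ξ) := by
  refine (Dg.prod_s (hδ := co_h0 r0 r1) (hδ' := co_h r0 r1) (x0, x1) ξ).trans ?_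
  rw [pdg_s, Dg.shift_s, sg_neg, sg_one, neg_smul, one_smul]
  rfl

/-- The projection `(x0, x1, ξ) ↦ x0`. -/
def co.pr0 (r0 : CHom X0 X01) (r1 : CHom X1 X01) : CHom (co r0 r1) X0 where
  f := LinearMap.fst k X0.V X1.V ∘ₗ LinearMap.fst k (X0.V × X1.V) X01.V
  deg := fun {i x} h => by
    obtain ⟨⟨x0, x1⟩, ξ⟩ := x
    exact (co_deg.1 h).1
  d := fun x => by
    obtain ⟨⟨x0, x1⟩, ξ⟩ := x
    exact (congrArg (fun z => z.1.1) (co_d (r0 := r0) (r1 := r1) x0 x1 ξ)).symm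

end co

/-- Morphisms of cospans induce morphisms of their complexes. -/
def co.map {X0 X1 X01 Y0 Y1 Y01 : Cx k} (r0 : CHom X0 X01) (r1 : CHom X1 X01)
    (s0 : CHom Y0 Y01) (s1 : CHom Y1 Y01) (f0 : CHom X0 Y0) (f1 : CHom X1 Y1)
    (f01 : CHom X01 Y01) (h0 : ∀ x, s0.f (f0.f x) = f01.f (r0.f x))
    (h1 : ∀ x, s1.f (f1.f x) = f01.f (r1.f x)) : CHom (co r0 r1) (co s0 s1) where
  f := LinearMap.prodMap (LinearMap.prodMap f0.f f1.f) f01.f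
  deg := fun {i x} h => by
    obtain ⟨⟨x0, x1⟩, ξ⟩ := x
    have h' := co_deg.1 h
    exact co_deg.2 ⟨f0.deg h'.1, f1.deg h'.2.1, f01.deg h'.2.2⟩
  d := fun x => by
    obtain ⟨⟨x0, x1⟩, ξ⟩ := x
    have e1 := co_d (r0 := r0) (r1 := r1) x0 x1 ξ
    have e2 := co_d (r0 := s0) (r1 := s1) (f0.f x0) (f1.f x1) (f01.f ξ)
    refine Eq.trans e2 ?_
    refine Eq.trans ?_ (congrArg _ e1.symm)
    change ((Y0.dg.d (f0.f x0), Y1.dg.d (f1.f x1)),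
      s1.f (f1.f x1) - s0.f (f0.f x0) - Y01.dg.d (f01.f ξ)) =
      ((f0.f (X0.dg.d x0), f1.f (X1.dg.d x1)), f01.f (r1.f x1 - r0.f x0 - X01.dg.d ξ))
    rw [f0.d, f1.d, f01.d, h0, h1, map_sub, map_sub]

/-- The map from a complex to the complex of a cospan. -/
def co.aug {B X0 X1 X01 : Cx k} (r0 : CHom X0 X01) (r1 : CHom X1 X01) (b0 : CHom B X0)
    (b1 : CHom B X1) (h : ∀ x, r0.f (b0.f x) = r1.f (b1.f x)) : CHom B (co r0 r1) where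
  f := LinearMap.prod (LinearMap.prod b0.f b1.f) 0
  deg := fun {i x} hx => co_deg.2 ⟨b0.deg hx, b1.deg hx, Dg.IsDeg.zero _⟩
  d := fun x => by
    refine Eq.trans (co_d (r0 := r0) (r1 := r1) (b0.f x) (b1.f x) 0) ?_
    change ((X0.dg.d (b0.f x), X1.dg.d (b1.f x)),
      r1.f (b1.f x) - r0.f (b0.f x) - X01.dg.d 0) =
      ((b0.f (B.dg.d x), b1.f (B.dg.d x)), (0 : X01.V))
    rw [b0.d, b1.d, h, map_zero, sub_self, sub_zero]

/-- `(x0, x1, ξ) (y0, y1, υ) = (x0 y0, x1 y1, r0(s x0) υ + ξ r1(y1))` -/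
def co.pm {X0 X1 X01 Y0 Y1 Y01 Z0 Z1 Z01 : Cx k} (r0 : CHom X0 X01) (s1 : CHom Y1 Y01)
    (p0 : CPr X0 Y0 Z0) (p1 : CPr X1 Y1 Z1) (p01 : CPr X01 Y01 Z01) :
    ((X0.V × X1.V) × X01.V) →ₗ[k] ((Y0.V × Y1.V) × Y01.V) →ₗ[k] ((Z0.V × Z1.V) × Z01.V) :=
  LinearMap.mk₂ k (fun x y => ((p0.m x.1.1 y.1.1, p1.m x.1.2 y.1.2),
        p01.m (r0.f (X0.dg.s x.1.1)) y.2 + p01.m x.2 (s1.f y.1.2)))
    (fun x x' y => by ext <;> simp; abel)
    (fun c x y => by ext <;> simp [smul_add])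
    (fun x y y' => by ext <;> simp; abel)
    (fun c x y => by ext <;> simp [smul_add])

/-- Pairings of cospans induce pairings of their complexes. -/
def co.pair {X0 X1 X01 Y0 Y1 Y01 Z0 Z1 Z01 : Cx k} (r0 : CHom X0 X01) (r1 : CHom X1 X01)
    (s0 : CHom Y0 Y01) (s1 : CHom Y1 Y01) (t0 : CHom Z0 Z01) (t1 : CHom Z1 Z01)
    (p0 : CPr X0 Y0 Z0) (p1 : CPr X1 Y1 Z1) (p01 : CPr X01 Y01 Z01)
    (h0 : ∀ x y, t0.f (p0.m x y) = p01.m (r0.f x) (s0.f y))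
    (h1 : ∀ x y, t1.f (p1.m x y) = p01.m (r1.f x) (s1.f y)) :
    CPr (co r0 r1) (co s0 s1) (co t0 t1) where
  m := co.pm r0 s1 p0 p1 p01
  deg := fun {i j x y} hx hy => by
    obtain ⟨⟨x0, x1⟩, ξ⟩ := x
    obtain ⟨⟨y0, y1⟩, υ⟩ := y
    have hx' := co_deg.1 hx
    have hy' := co_deg.1 hy
    refine co_deg.2 ⟨p0.deg hx'.1 hy'.1, p1.deg hx'.2.1 hy'.2.1, ?_⟩
    refine Dg.IsDeg.add ?_ ?_
    · rw [add_assoc]
      exact p01.deg (r0.deg hx'.1.s) hy'.2.2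
    · rw [add_right_comm]
      exact p01.deg hx'.2.2 (s1.deg hy'.2.1)
  d := fun x y => by
    obtain ⟨⟨x0, x1⟩, ξ⟩ := x
    obtain ⟨⟨y0, y1⟩, υ⟩ := y
    have e1 := co_d (r0 := r0) (r1 := r1) x0 x1 ξ
    have e2 := co_d (r0 := s0) (r1 := s1) y0 y1 υ
    have e3 := co_s (r0 := r0) (r1 := r1) x0 x1 ξ
    have e4 := co_d (r0 := t0) (r1 := t1) (p0.m x0 y0) (p1.m x1 y1)
      (p01.m (r0.f (X0.dg.s x0)) υ + p01.m ξ (s1.f y1))
    refine Eq.trans e4 ?_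
    refine Eq.trans ?_ (congrArg₂ (· + ·)
      (congrArg (fun z => co.pm r0 s1 p0 p1 p01 z ((y0, y1), υ)) e1.symm)
      (congrArg₂ (fun z w => co.pm r0 s1 p0 p1 p01 z w) e3.symm e2.symm))
    change ((Z0.dg.d (p0.m x0 y0), Z1.dg.d (p1.m x1 y1)),
      t1.f (p1.m x1 y1) - t0.f (p0.m x0 y0) -
        Z01.dg.d (p01.m (r0.f (X0.dg.s x0)) υ + p01.m ξ (s1.f y1))) =
      ((p0.m (X0.dg.d x0) y0, p1.m (X1.dg.d x1) y1),
        p01.m (r0.f (X0.dg.s (X0.dg.d x0))) υ +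
          p01.m (r1.f x1 - r0.f x0 - X01.dg.d ξ) (s1.f y1)) +
      ((p0.m (X0.dg.s x0) (Y0.dg.d y0), p1.m (X1.dg.s x1) (Y1.dg.d y1)),
        p01.m (r0.f (X0.dg.s (X0.dg.s x0))) (s1.f y1 - s0.f y0 - Y01.dg.d υ) +
          p01.m (- X01.dg.s ξ) (s1.f (Y1.dg.d y1)))
    rw [p0.d, p1.d, map_add, p01.d, p01.d, h0, h1, Dg.s_s, Dg.s_d, r0.d, r0.s, s1.d, Dg.s_s]
    simp only [Prod.mk_add_mk, map_sub, map_neg, LinearMap.sub_apply, LinearMap.neg_apply]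
    congr 1
    abel

end Pool.Agent.MP_6e5bed_ag_NS
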