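import Mathlib

/-!
# MP_6e5bed_ag, NC SURFACES: charts of the projective plane, sheaves, lattices

The text is /team-store/TEXT_6e5bed_NCSURF.md.
-/

set_option autoImplicit false

noncomputable section

namespace Pool.Agent.MP_6e5bed_ag_NS

open scoped TensorProduct

universe u

/-! ### The function field and the charts -/

section

variable (k : Type u) [Field k]

/-- the function field of the projective plane -/
def KK : Type u := FractionRing (MvPolynomial (Fin 2) k)

instance : Field (KK k) := inferInstanceAs (Field (FractionRing (MvPolynomial (Fin 2) k)))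

instance : Algebra (MvPolynomial (Fin 2) k) (KK k) :=
  inferInstanceAs (Algebra (MvPolynomial (Fin 2) k) (FractionRing (MvPolynomial (Fin 2) k)))

instance : IsFractionRing (MvPolynomial (Fin 2) k) (KK k) :=
  inferInstanceAs (IsFractionRing (MvPolynomial (Fin 2) k)
    (FractionRing (MvPolynomial (Fin 2) k)))

instance : Algebra k (KK k) :=
  inferInstanceAs (Algebra k (FractionRing (MvPolynomial (Fin 2) k)))

instance : IsScalarTower k (MvPolynomial (Fin 2) k) (KK k) :=
  inferInstanceAs (IsScalarTower k (MvPolynomial (Fin 2) k)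
    (FractionRing (MvPolynomial (Fin 2) k)))

/-- the rational functions `x_i / x_0`, that is `1, u, v` -/
def uu (i : Fin 3) : KK k :=
  (![1, algebraMap (MvPolynomial (Fin 2) k) (KK k) (MvPolynomial.X 0),
    algebraMap (MvPolynomial (Fin 2) k) (KK k) (MvPolynomial.X 1)] : Fin 3 → KK k) i

/-- the linear form `ℓ`, divided by `x_0` -/
def lam (ℓ : Fin 3 → k) : KK k := ∑ i, ℓ i • uu k i

/-- the nonzero linear forms -/
abbrev LF : Type u := {ℓ : Fin 3 → k // ℓ ≠ 0}

/-- the coordinates -/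
def xx (i : Fin 3) : LF k :=
  ⟨Pi.single i 1, fun h => by
    have h1 := congrFun h i
    rw [Pi.single_eq_same] at h1
    exact one_ne_zero h1⟩

/-- the charts: nonempty finite sets `c` of nonzero linear forms; `c` stands for the complement of
the lines `g = 0`, `g ∈ c` -/
abbrev Ch : Type u := {c : Set (LF k) // c.Nonempty ∧ c.Finite}

/-- the coordinate ring of a chart: it is generated by the quotients `ℓ / g`, `g ∈ c` -/
def RR (c : Ch k) : Subalgebra k (KK k) :=
  Algebra.adjoin k {r | ∃ (ℓ : Fin 3 → k) (g : LF k), g ∈ c.1 ∧ r = lam k ℓ / lam k g.1}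

end

variable {k : Type u} [Field k]

/-- the intersection of two charts -/
def Ch.sup (c d : Ch k) : Ch k := ⟨c.1 ∪ d.1, c.2.1.mono Set.subset_union_left, c.2.2.union d.2.2⟩

/-- the intersection with the chart `ℓ ≠ 0` -/
def Ch.ins (c : Ch k) (ℓ : LF k) : Ch k :=
  ⟨insert ℓ c.1, Set.insert_nonempty ℓ c.1, c.2.2.insert ℓ⟩

/-- the chart `ℓ ≠ 0` -/
def Ch.sgl (ℓ : LF k) : Ch k := ⟨{ℓ}, Set.singleton_nonempty ℓ, Set.finite_singleton ℓ⟩

/-- the chart of the coordinates `x_i`, `i ∈ a` -/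
def Ch.co (a : Set (Fin 3)) (ha : a.Nonempty) : Ch k :=
  ⟨xx k '' a, ha.image _, (Set.toFinite a).image _⟩

theorem RR_mono {c d : Ch k} (h : c ≤ d) : RR k c ≤ RR k d :=
  Algebra.adjoin_mono (fun _ ⟨ℓ, g, hg, hr⟩ => ⟨ℓ, g, h hg, hr⟩)

/-- restriction of functions -/
def rinc {c d : Ch k} (h : c ≤ d) : RR k c →ₐ[k] RR k d := Subalgebra.inclusion (RR_mono h)

theorem rinc_coe {c d : Ch k} (h : c ≤ d) (r : RR k c) :
    ((rinc h r : RR k d) : KK k) = (r : KK k) := Subalgebra.coe_inclusion (RR_mono h) r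

/-- the function `ℓ / g` -/
def quo {c : Ch k} (ℓ : Fin 3 → k) {g : LF k} (hg : g ∈ c.1) : RR k c :=
  ⟨lam k ℓ / lam k g.1, Algebra.subset_adjoin ⟨ℓ, g, hg, rfl⟩⟩

/-! ### Sheaves -/

/-- A quasi-coherent sheaf on the projective plane, given on the charts: modules over the
coordinate rings with restriction maps; the restriction from `c` to `c ∪ {ℓ}` is the localisation
at `ℓ / g`, `g ∈ c`. -/
structure Shf (k : Type u) [Field k] where
  M : Ch k → Type u
  [grp : ∀ c, AddCommGroup (M c)]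
  [modk : ∀ c, Module k (M c)]
  [mod : ∀ c, Module (RR k c) (M c)]
  [tow : ∀ c, IsScalarTower k (RR k c) (M c)]
  res : ∀ {c d : Ch k}, c ≤ d → M c →ₗ[k] M d
  res_smul : ∀ {c d : Ch k} (h : c ≤ d) (r : RR k c) (m : M c),
    res h (r • m) = rinc h r • res h m
  res_id : ∀ {c : Ch k} (h : c ≤ c) (m : M c), res h m = m
  res_res : ∀ {c d e : Ch k} (h : c ≤ d) (h' : d ≤ e) (m : M c),
    res h' (res h m) = res (h.trans h') m
  surj : ∀ {c d : Ch k} (h : c ≤ d) {g : LF k} (hg : g ∈ c.1) (ℓ : LF k), d ≤ c.ins ℓ →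
    ∀ m : M d, ∃ (n : ℕ) (m' : M c), res h m' = quo ℓ.1 (h hg) ^ n • m
  inj : ∀ {c d : Ch k} (h : c ≤ d) {g : LF k} (hg : g ∈ c.1) (ℓ : LF k), d ≤ c.ins ℓ →
    ∀ m : M c, res h m = 0 → ∃ n : ℕ, quo ℓ.1 hg ^ n • m = 0

attribute [instance] Shf.grp Shf.modk Shf.mod Shf.tow

/-- finitely generated on every chart -/
def Shf.Coh (M : Shf k) : Prop := ∀ c, Module.Finite (RR k c) (M.M c)

/-- every section is killed by a nonzero function -/
def Shf.Tors (M : Shf k) : Prop := ∀ (c : Ch k) (m : M.M c), ∃ r : RR k c, r ≠ 0 ∧ r • m = 0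

/-- A quasi-coherent sheaf of (associative unital) algebras. -/
structure ASh (k : Type u) [Field k] extends Shf k where
  mul : ∀ c, M c →ₗ[k] M c →ₗ[k] M c
  one : ∀ c, M c
  one_mul : ∀ c a, mul c (one c) a = a
  mul_one : ∀ c a, mul c a (one c) = a
  mul_assoc : ∀ c a b e, mul c (mul c a b) e = mul c a (mul c b e)
  smul_mul : ∀ c (r : RR k c) a b, mul c (r • a) b = r • mul c a b
  mul_smul : ∀ c (r : RR k c) a b, mul c a (r • b) = r • mul c a b
  res_one : ∀ {c d : Ch k} (h : c ≤ d), res h (one c) = one d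
  res_mul : ∀ {c d : Ch k} (h : c ≤ d) a b, res h (mul c a b) = mul d (res h a) (res h b)

/-- A quasi-coherent sheaf of `A`-`B`-bimodules: functions act in the same way on both sides. -/
structure BSh (A B : ASh k) extends Shf k where
  l : ∀ c, A.M c →ₗ[k] M c →ₗ[k] M c
  r : ∀ c, B.M c →ₗ[k] M c →ₗ[k] M c
  l_one : ∀ c m, l c (A.one c) m = m
  r_one : ∀ c m, r c (B.one c) m = m
  l_mul : ∀ c a a' m, l c (A.mul c a a') m = l c a (l c a' m)
  r_mul : ∀ c b b' m, r c (B.mul c b b') m = r c b' (r c b m)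
  l_r : ∀ c a b m, l c a (r c b m) = r c b (l c a m)
  smul_l : ∀ c (s : RR k c) a m, l c (s • a) m = s • l c a m
  smul_r : ∀ c (s : RR k c) b m, r c (s • b) m = s • r c b m
  res_l : ∀ {c d : Ch k} (h : c ≤ d) a m, res h (l c a m) = l d (A.res h a) (res h m)
  res_r : ∀ {c d : Ch k} (h : c ≤ d) b m, res h (r c b m) = r d (B.res h b) (res h m)

/-! ### Lattices -/

/-- A lattice in the finite dimensional `K`-vector space `E`: a torsion-free coherent sheaf with
generic fibre `E`. -/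
structure Lat (k : Type u) [Field k] (E : Type u) [AddCommGroup E] [Module k E]
    [Module (KK k) E] [IsScalarTower k (KK k) E] where
  N : ∀ c : Ch k, Submodule (RR k c) E
  mono : ∀ {c d : Ch k}, c ≤ d → ∀ {x}, x ∈ N c → x ∈ N d
  loc : ∀ {c d : Ch k} (_ : c ≤ d) {g : LF k} (_ : g ∈ c.1) (ℓ : LF k), d ≤ c.ins ℓ →
    ∀ {x}, x ∈ N d → ∃ n : ℕ, (lam k ℓ.1 / lam k g.1) ^ n • x ∈ N c
  fg : ∀ c, (N c).FG
  span : ∀ c, Submodule.span (KK k) (N c : Set E) = ⊤

end Pool.Agent.MP_6e5bed_ag_NS
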