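import Pool.Agent.Lib.MP_6e5bed_ag_NS.WA

set_option autoImplicit false
set_option linter.unusedVariables false

/-!
# MP_6e5bed_ag, NC SURFACES: the double Čech complex

For `U` a presheaf on the finite sets over the presheaf `W` (restricted to the charts), a `Dia` is
a map `π : U → W` which is left inverse to the map `a : W → U`. For `U = cC (cC V L).pc L`,
`W = cC V L` it is the total multiplication (cup product) of the double Čech complex.
-/

noncomputable section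

namespace Pool.Agent.MP_6e5bed_ag_NS

open Pool.Agent.MP_6e5bed_ag_NC

universe u

variable {k : Type u} [Field k]

/-- the restriction to the charts -/
def WC.pc {V : PC k} (W : WC V) : PC k where
  X := fun c => W.X c.fs
  ρ := fun h => W.ρ (fs_mono h)
  ρ_id := fun h x => W.ρ_id _ x
  ρ_ρ := fun h h' x => W.ρ_ρ _ _ x

/-- the map `V → W` -/
def WC.av {V : PC k} (W : WC V) : PCH V W.pc where
  f := W.a
  nat := W.a_ρ

/-- the projection which forgets the head of the list, on the charts -/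
def WC.prc {V : PC k} (W : WC V) (l : LF k) : PCH (W.cons l).pc W.pc where
  f := fun c => (W.pr l).g c.fs
  nat := fun {c d} h x => (W.pr l).nat (fs_mono h) x

/-- a left inverse of `a : W → U` -/
structure Dia {V : PC k} (W : WC V) (U : WC W.pc) where
  π : ∀ c, CHom (U.X c) (W.X c)
  nat : ∀ {c d : FS k} (h : c ≤ d) x, (W.ρ h).f ((π c).f x) = (π d).f ((U.ρ h).f x)
  πa : ∀ (c : Ch k) (x : (W.X c.fs).V), (π c.fs).f ((U.a c).f x) = x

/-- for the empty list -/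
def Dia.nil (V : PC k) : Dia (WC.nil V) (WC.nil (WC.nil V).pc) where
  π := fun c => CHom.id _
  nat := fun _ _ => rfl
  πa := fun _ _ => rfl

section cons

variable {V : PC k} {W : WC V} {U : WC W.pc} (D : Dia W U) (l : LF k) (U' : WC (W.cons l).pc)
  (e : WCH (W.prc l) U' U)

/-- `(z0, z1, ζ) ↦ (π (e z0), z11, π (e ζ) + ζ1)`, where `z1 = (z10, z11, ζ1)` is in
`W.cons l` at `c ∪ l` -/
def Dia.f (c : FS k) : ((U'.cons l).X c).V →ₗ[k] ((W.cons l).X c).V where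
  toFun := fun z => co.mk _ _ ((D.π c).f ((e.g c).f z.1.1))
    ((V.ρ (ins_ins c l)).f (z.1.2.1.2 : (V.X ((c.ins l).fs.ins l)).V))
    ((D.π (c.ins l).fs).f ((e.g (c.ins l).fs).f z.2) +
      (W.ρ (fs_mono (ins_ins c l))).f (z.1.2.2 : (W.X ((c.ins l).fs.ins l).fs).V))
  map_add' := fun z w => by
    refine Prod.ext (Prod.ext ?_ ?_) ?_
    · change (D.π c).f ((e.g c).f (z.1.1 + w.1.1)) =
        (D.π c).f ((e.g c).f z.1.1) + (D.π c).f ((e.g c).f w.1.1)
      rw [map_add, map_add]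
    · change (V.ρ (ins_ins c l)).f
        ((z.1.2.1.2 : (V.X ((c.ins l).fs.ins l)).V) + (w.1.2.1.2 : (V.X ((c.ins l).fs.ins l)).V)) =
        (V.ρ (ins_ins c l)).f (z.1.2.1.2 : (V.X ((c.ins l).fs.ins l)).V) +
          (V.ρ (ins_ins c l)).f (w.1.2.1.2 : (V.X ((c.ins l).fs.ins l)).V)
      rw [map_add]
    · change (D.π (c.ins l).fs).f ((e.g (c.ins l).fs).f (z.2 + w.2)) +
        (W.ρ (fs_mono (ins_ins c l))).f ((z.1.2.2 : (W.X ((c.ins l).fs.ins l).fs).V) +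
          (w.1.2.2 : (W.X ((c.ins l).fs.ins l).fs).V)) =
        ((D.π (c.ins l).fs).f ((e.g (c.ins l).fs).f z.2) +
          (W.ρ (fs_mono (ins_ins c l))).f (z.1.2.2 : (W.X ((c.ins l).fs.ins l).fs).V)) +
        ((D.π (c.ins l).fs).f ((e.g (c.ins l).fs).f w.2) +
          (W.ρ (fs_mono (ins_ins c l))).f (w.1.2.2 : (W.X ((c.ins l).fs.ins l).fs).V))
      rw [map_add, map_add, map_add, add_add_add_comm]
  map_smul' := fun r z => by
    refine Prod.ext (Prod.ext ?_ ?_) ?_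
    · change (D.π c).f ((e.g c).f (r • z.1.1)) = r • (D.π c).f ((e.g c).f z.1.1)
      rw [map_smul, map_smul]
    · change (V.ρ (ins_ins c l)).f (r • (z.1.2.1.2 : (V.X ((c.ins l).fs.ins l)).V)) =
        r • (V.ρ (ins_ins c l)).f (z.1.2.1.2 : (V.X ((c.ins l).fs.ins l)).V)
      rw [map_smul]
    · change (D.π (c.ins l).fs).f ((e.g (c.ins l).fs).f (r • z.2)) +
        (W.ρ (fs_mono (ins_ins c l))).f (r • (z.1.2.2 : (W.X ((c.ins l).fs.ins l).fs).V)) =
        r • ((D.π (c.ins l).fs).f ((e.g (c.ins l).fs).f z.2) +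
          (W.ρ (fs_mono (ins_ins c l))).f (z.1.2.2 : (W.X ((c.ins l).fs.ins l).fs).V))
      rw [map_smul, map_smul, map_smul, smul_add]

theorem Dia.f_apply (c : FS k) (z0 : (U'.X c).V) (z10 : (W.X (c.ins l).fs).V)
    (z11 : (V.X ((c.ins l).fs.ins l)).V) (ζ1 : (W.X ((c.ins l).fs.ins l).fs).V)
    (ζ : (U'.X (c.ins l).fs).V) : D.f l U' e c ((z0, ((z10, z11), ζ1)), ζ) =
      (((D.π c).f ((e.g c).f z0), (V.ρ (ins_ins c l)).f z11),
        (D.π (c.ins l).fs).f ((e.g (c.ins l).fs).f ζ) +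
          (W.ρ (fs_mono (ins_ins c l))).f ζ1) := rfl

private theorem Dia_cons_d (c : FS k) (z0 : (U'.X c).V) (z10 : (W.X (c.ins l).fs).V)
    (z11 : (V.X ((c.ins l).fs.ins l)).V) (ζ1 : (W.X ((c.ins l).fs.ins l).fs).V)
    (ζ : (U'.X (c.ins l).fs).V) :
    ((W.cons l).X c).dg.d (D.f l U' e c ((z0, ((z10, z11), ζ1)), ζ)) =
      D.f l U' e c (((U'.cons l).X c).dg.d ((z0, ((z10, z11), ζ1)), ζ)) := by
  have e1 := co_d (r0 := U'.ρ (le_ins c l)) (r1 := U'.a (c.ins l)) z0 ((z10, z11), ζ1) ζ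
  have e2 := co_d (r0 := W.ρ (le_ins (c.ins l).fs l)) (r1 := W.a ((c.ins l).fs.ins l)) z10 z11 ζ1
  have e3 := co_d (r0 := W.ρ (le_ins c l)) (r1 := W.a (c.ins l)) ((D.π c).f ((e.g c).f z0))
    ((V.ρ (ins_ins c l)).f z11)
    ((D.π (c.ins l).fs).f ((e.g (c.ins l).fs).f ζ) + (W.ρ (fs_mono (ins_ins c l))).f ζ1)
  refine Eq.trans e3 ?_
  refine Eq.trans ?_ (congrArg (D.f l U' e c) e1.symm)
  have e4 : D.f l U' e c (co.mk (U'.ρ (le_ins c l)) (U'.a (c.ins l)) ((U'.X c).dg.d z0)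
      (co.mk (W.ρ (le_ins (c.ins l).fs l)) (W.a ((c.ins l).fs.ins l)) ((W.X _).dg.d z10)
        ((V.X _).dg.d z11) ((W.a ((c.ins l).fs.ins l)).f z11 -
          (W.ρ (le_ins (c.ins l).fs l)).f z10 - (W.X _).dg.d ζ1))
      ((U'.a (c.ins l)).f ((z10, z11), ζ1) - (U'.ρ (le_ins c l)).f z0 -
        (U'.X (c.ins l).fs).dg.d ζ)) =
      co.mk (W.ρ (le_ins c l)) (W.a (c.ins l)) ((D.π c).f ((e.g c).f ((U'.X c).dg.d z0)))
        ((V.ρ (ins_ins c l)).f ((V.X _).dg.d z11))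
        ((D.π (c.ins l).fs).f ((e.g (c.ins l).fs).f ((U'.a (c.ins l)).f ((z10, z11), ζ1) -
          (U'.ρ (le_ins c l)).f z0 - (U'.X (c.ins l).fs).dg.d ζ)) +
          (W.ρ (fs_mono (ins_ins c l))).f ((W.a ((c.ins l).fs.ins l)).f z11 -
            (W.ρ (le_ins (c.ins l).fs l)).f z10 - (W.X _).dg.d ζ1)) := rfl
  refine Eq.trans ?_ (e4.symm.trans (congrArg (fun w => D.f l U' e c
    (co.mk (U'.ρ (le_ins c l)) (U'.a (c.ins l)) ((U'.X c).dg.d z0) w
      ((U'.a (c.ins l)).f ((z10, z11), ζ1) - (U'.ρ (le_ins c l)).f z0 -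
        (U'.X (c.ins l).fs).dg.d ζ))) e2.symm))
  have e5 : (D.π (c.ins l).fs).f ((e.g (c.ins l).fs).f ((U'.a (c.ins l)).f ((z10, z11), ζ1))) =
      z10 := by
    rw [e.a]
    exact D.πa (c.ins l) z10
  have e6 : (W.ρ (fs_mono (ins_ins c l))).f ((W.ρ (le_ins (c.ins l).fs l)).f z10) = z10 := by
    rw [W.ρ_ρ, W.ρ_id]
  refine Prod.ext (Prod.ext ?_ ?_) ?_
  · change (W.X c).dg.d ((D.π c).f ((e.g c).f z0)) =
      (D.π c).f ((e.g c).f ((U'.X c).dg.d z0))
    rw [(D.π c).d, (e.g c).d]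
  · exact (V.ρ (ins_ins c l)).d z11
  · change (W.a (c.ins l)).f ((V.ρ (ins_ins c l)).f z11) -
      (W.ρ (le_ins c l)).f ((D.π c).f ((e.g c).f z0)) -
      (W.X (c.ins l).fs).dg.d ((D.π (c.ins l).fs).f ((e.g (c.ins l).fs).f ζ) +
        (W.ρ (fs_mono (ins_ins c l))).f ζ1) =
      (D.π (c.ins l).fs).f ((e.g (c.ins l).fs).f ((U'.a (c.ins l)).f ((z10, z11), ζ1) -
          (U'.ρ (le_ins c l)).f z0 - (U'.X (c.ins l).fs).dg.d ζ)) +
          (W.ρ (fs_mono (ins_ins c l))).f ((W.a ((c.ins l).fs.ins l)).f z11 -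
            (W.ρ (le_ins (c.ins l).fs l)).f z10 - (W.X _).dg.d ζ1)
    rw [map_sub, map_sub, map_sub, map_sub, map_sub, map_sub, e5, e6, W.a_ρ (ins_ins c l), map_add,
      (D.π _).d, (e.g _).d, (W.ρ (fs_mono (ins_ins c l))).d, D.nat, e.nat]
    abel

/-- The step of the recursion. The differential: `e` and `π` commute with `a`
(`D.πa (c ∪ l) z10`), `d`, `ρ`; the terms `± z10` cancel. -/
def Dia.cons : Dia (W.cons l) (U'.cons l) where
  π := fun c =>
    { f := D.f l U' e c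
      deg := by
        intro i z hz
        obtain ⟨⟨z0, ⟨⟨z10, z11⟩, ζ1⟩⟩, ζ⟩ := z
        obtain ⟨h0, h1, h2⟩ := co_deg.1 hz
        obtain ⟨h10, h11, h12⟩ := co_deg.1 h1
        exact co_deg.2 ⟨(D.π c).deg ((e.g c).deg h0), (V.ρ (ins_ins c l)).deg h11,
          ((D.π (c.ins l).fs).deg ((e.g (c.ins l).fs).deg h2)).add
            ((W.ρ (fs_mono (ins_ins c l))).deg h12)⟩
      d := by
        intro z
        obtain ⟨⟨z0, ⟨⟨z10, z11⟩, ζ1⟩⟩, ζ⟩ := z
        exact Dia_cons_d D l U' e c z0 z10 z11 ζ1 ζ }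
  nat := by
    intro c d h z
    obtain ⟨⟨z0, ⟨⟨z10, z11⟩, ζ1⟩⟩, ζ⟩ := z
    refine Prod.ext (Prod.ext ?_ ?_) ?_
    · change (W.ρ h).f ((D.π c).f ((e.g c).f z0)) = (D.π d).f ((e.g d).f ((U'.ρ h).f z0))
      rw [D.nat, e.nat]
    · change (V.ρ _).f ((V.ρ _).f z11) = (V.ρ _).f ((V.ρ _).f z11)
      rw [V.ρ_ρ, V.ρ_ρ]
    · change (W.ρ _).f ((D.π (c.ins l).fs).f ((e.g (c.ins l).fs).f ζ) + (W.ρ _).f ζ1) =
        (D.π (d.ins l).fs).f ((e.g (d.ins l).fs).f ((U'.ρ _).f ζ)) + (W.ρ _).f ((W.ρ _).f ζ1)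
      rw [map_add, D.nat, e.nat, W.ρ_ρ, W.ρ_ρ]
  πa := by
    intro c x
    obtain ⟨⟨x0, x1⟩, ξ⟩ := x
    refine Prod.ext (Prod.ext ?_ ?_) ?_
    · change (D.π c.fs).f ((e.g c.fs).f ((U'.a c).f ((x0, x1), ξ))) = x0
      rw [e.a]
      exact D.πa c x0
    · change (V.ρ _).f ((V.ρ _).f x1) = x1
      rw [V.ρ_ρ, V.ρ_id]
    · change (D.π _).f ((e.g _).f 0) + (W.ρ _).f ((W.ρ _).f ξ) = ξ
      rw [map_zero, map_zero, zero_add, W.ρ_ρ, W.ρ_id]

end cons

/-- the total multiplication of the double Čech complex -/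
def dia (V : PC k) : ∀ L : List (LF k), Dia (cC V L) (cC (cC V L).pc L)
  | [] => Dia.nil V
  | l :: L => (dia V L).cons l (cC (cC V (l :: L)).pc L) (cH ((cC V L).prc l) L)

/-- the map of Čech complexes induced by `V → cC V L` -/
def dι (V : PC k) (L : List (LF k)) : WCH (cC V L).av (cC V L) (cC (cC V L).pc L) :=
  cH (cC V L).av L

private theorem Dia_cH_congr {V V' : PC k} {f f' : PCH V V'}
    (h : ∀ c x, (f.f c).f x = (f'.f c).f x) : ∀ (L : List (LF k)) (c : FS k) x,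
      ((cH f L).g c).f x = ((cH f' L).g c).f x
  | [], c, x => rfl
  | l :: L, c, x => by
    obtain ⟨⟨x0, x1⟩, ξ⟩ := x
    exact Prod.ext (Prod.ext (Dia_cH_congr h L c x0) (h _ x1)) (Dia_cH_congr h L _ ξ)

/-- By induction on `L`; `cH (prc) L ∘ cH (av for l :: L) L = cH (av for L) L` by `cH_comp`
(`prc ∘ av = av` pointwise by `rfl`; use that `cH` only depends on the values of the maps). -/
theorem dia_ι (V : PC k) : ∀ (L : List (LF k)) (c : FS k) (x : ((cC V L).X c).V),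
    (((dia V L).π c).f (((dι V L).g c).f x)) = x := by
  intro L
  induction L with
  | nil => exact fun c x => rfl
  | cons l L ih =>
    have key : ∀ (c : FS k) (x : ((cC V L).X c).V), ((dia V L).π c).f
        (((cH ((cC V L).prc l) L).g c).f (((cH (cC V (l :: L)).av L).g c).f x)) = x := by
      intro c x
      have h1 := cH_comp (cC V (l :: L)).av ((cC V L).prc l) L c x
      refine Eq.trans (congrArg ((dia V L).π c).f h1.symm) ?_
      refine Eq.trans (congrArg ((dia V L).π c).f ?_) (ih c x)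
      exact Dia_cH_congr (fun _ _ => rfl) L c x
    intro c x
    obtain ⟨⟨x0, x1⟩, ξ⟩ := x
    refine Prod.ext (Prod.ext (key c x0) ?_) ?_
    · change (V.ρ _).f ((V.ρ _).f x1) = x1
      rw [V.ρ_ρ, V.ρ_id]
    · change ((dia V L).π _).f (((cH ((cC V L).prc l) L).g _).f
        (((cH (cC V (l :: L)).av L).g _).f ξ)) + ((cC V L).ρ _).f 0 = ξ
      rw [map_zero, add_zero]
      exact key _ ξ

/-! ### Pairings with a fixed complex -/

/-- `p01` twisted by the sign of the first factor -/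
def co.pmR {X Y0 Y1 Y01 Z0 Z1 Z01 : Cx k} (p0 : CPr X Y0 Z0) (p1 : CPr X Y1 Z1)
    (p01 : CPr X Y01 Z01) :
    X.V →ₗ[k] ((Y0.V × Y1.V) × Y01.V) →ₗ[k] ((Z0.V × Z1.V) × Z01.V) :=
  LinearMap.mk₂ k (fun x y => ((p0.m x y.1.1, p1.m x y.1.2), p01.m (X.dg.s x) y.2))
    (fun x x' y => by ext <;> simp)
    (fun c x y => by ext <;> simp)
    (fun x y y' => by ext <;> simp)
    (fun c x y => by ext <;> simp)

/-- `x (y0, y1, υ) = (x y0, x y1, (s x) υ)` -/
def co.pairR {X Y0 Y1 Y01 Z0 Z1 Z01 : Cx k} (s0 : CHom Y0 Y01) (s1 : CHom Y1 Y01)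
    (t0 : CHom Z0 Z01) (t1 : CHom Z1 Z01) (p0 : CPr X Y0 Z0) (p1 : CPr X Y1 Z1)
    (p01 : CPr X Y01 Z01) (h0 : ∀ x y, t0.f (p0.m x y) = p01.m x (s0.f y))
    (h1 : ∀ x y, t1.f (p1.m x y) = p01.m x (s1.f y)) : CPr X (co s0 s1) (co t0 t1) where
  m := co.pmR p0 p1 p01
  deg := fun {i j x y} hx hy => by
    obtain ⟨⟨y0, y1⟩, υ⟩ := y
    have hy' := co_deg.1 hy
    refine co_deg.2 ⟨p0.deg hx hy'.1, p1.deg hx hy'.2.1, ?_⟩
    rw [add_assoc]
    exact p01.deg hx.s hy'.2.2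
  d := fun x y => by
    obtain ⟨⟨y0, y1⟩, υ⟩ := y
    have e2 := co_d (r0 := s0) (r1 := s1) y0 y1 υ
    have e4 := co_d (r0 := t0) (r1 := t1) (p0.m x y0) (p1.m x y1) (p01.m (X.dg.s x) υ)
    refine Eq.trans e4 ?_
    refine Eq.trans ?_ (congrArg (fun z => co.pmR p0 p1 p01 (X.dg.d x) ((y0, y1), υ) +
      co.pmR p0 p1 p01 (X.dg.s x) z) e2.symm)
    change ((Z0.dg.d (p0.m x y0), Z1.dg.d (p1.m x y1)),
      t1.f (p1.m x y1) - t0.f (p0.m x y0) - Z01.dg.d (p01.m (X.dg.s x) υ)) =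
      ((p0.m (X.dg.d x) y0, p1.m (X.dg.d x) y1), p01.m (X.dg.s (X.dg.d x)) υ) +
      ((p0.m (X.dg.s x) (Y0.dg.d y0), p1.m (X.dg.s x) (Y1.dg.d y1)),
        p01.m (X.dg.s (X.dg.s x)) (s1.f y1 - s0.f y0 - Y01.dg.d υ))
    rw [p0.d, p1.d, p01.d, h0, h1, Dg.s_s, Dg.s_d]
    simp only [Prod.mk_add_mk, map_sub, map_neg, LinearMap.neg_apply]
    congr 1
    abel

/-- Pairings of a complex with a presheaf. -/
structure PR (X : Cx k) (V V' : PC k) where
  p : ∀ c, CPr X (V.X c) (V'.X c)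
  nat : ∀ {c d : Ch k} (h : c ≤ d) x y, (V'.ρ h).f ((p c).m x y) = (p d).m x ((V.ρ h).f y)

/-- Pairings over such a pairing. -/
structure WR {X : Cx k} {V V' : PC k} (p : PR X V V') (W : WC V) (W' : WC V') where
  q : ∀ c, CPr X (W.X c) (W'.X c)
  nat : ∀ {c d : FS k} (h : c ≤ d) x y, (W'.ρ h).f ((q c).m x y) = (q d).m x ((W.ρ h).f y)
  a : ∀ (c : Ch k) x y, (W'.a c).f ((p.p c).m x y) = (q c.fs).m x ((W.a c).f y)

/-- for the empty list -/
def WR.nil {X : Cx k} {V V' : PC k} (p : PR X V V') : WR p (WC.nil V) (WC.nil V') where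
  q := fun c => zPr _ _
  nat := fun _ _ _ => rfl
  a := fun _ _ _ => rfl

/-- The step of the recursion. -/
def WR.cons {X : Cx k} {V V' : PC k} {p : PR X V V'} {W : WC V} {W' : WC V'} (q : WR p W W')
    (l : LF k) : WR p (W.cons l) (W'.cons l) where
  q := fun c => co.pairR _ _ _ _ (q.q c) (p.p (c.ins l)) (q.q (c.ins l).fs)
    (fun x y => q.nat _ x y) (fun x y => q.a _ x y)
  nat := fun {c d} h x y => by
    obtain ⟨⟨y0, y1⟩, υ⟩ := y
    exact Prod.ext (Prod.ext (q.nat _ x y0) (p.nat _ x y1)) (q.nat _ _ υ)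
  a := fun c x y => by
    refine Prod.ext (Prod.ext (q.a c x y) (p.nat _ x y)) ?_
    exact (map_zero ((q.q (c.fs.ins l).fs).m (X.dg.s x))).symm

/-- The pairing of a complex with Čech complexes. -/
def cR {X : Cx k} {V V' : PC k} (p : PR X V V') : ∀ L : List (LF k), WR p (cC V L) (cC V' L)
  | [] => WR.nil p
  | l :: L => (cR p L).cons l

/-- The pairing `(x, y) ↦ x|_b y|_b` of the Čech complex of `V` at `∅` with `V'`. -/
def prC {V V' V'' : PC k} (p : PP V V' V'') (L : List (LF k)) :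
    PR ((cC V L).X (FS.e k)) V' (cC V'' L).pc where
  p := fun b =>
    { m := ((((cP p L).q b.fs).m).compl₂ ((cC V' L).a b).f) ∘ₗ
        ((cC V L).ρ (Set.empty_subset b.1 : FS.e k ≤ b.fs)).f
      deg := fun {i j x y} hx hy => ((cP p L).q b.fs).deg
        (((cC V L).ρ (Set.empty_subset b.1 : FS.e k ≤ b.fs)).deg hx) (((cC V' L).a b).deg hy)
      d := fun x y => by
        change ((cC V'' L).X b.fs).dg.d (((cP p L).q b.fs).m (((cC V L).ρ _).f x)
          (((cC V' L).a b).f y)) = ((cP p L).q b.fs).m (((cC V L).ρ _).f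
            (((cC V L).X _).dg.d x)) (((cC V' L).a b).f y) +
          ((cP p L).q b.fs).m (((cC V L).ρ _).f (((cC V L).X _).dg.s x))
            (((cC V' L).a b).f ((V'.X b).dg.d y))
        rw [((cP p L).q b.fs).d, ((cC V L).ρ _).d, ((cC V L).ρ _).s, ((cC V' L).a b).d] }
  nat := fun {c d} h x y => by
    change ((cC V'' L).ρ (fs_mono h)).f (((cP p L).q c.fs).m (((cC V L).ρ _).f x)
      (((cC V' L).a c).f y)) = ((cP p L).q d.fs).m (((cC V L).ρ _).f x)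
        (((cC V' L).a d).f ((V'.ρ h).f y))
    rw [(cP p L).nat, (cC V L).ρ_ρ, (cC V' L).a_ρ]

end Pool.Agent.MP_6e5bed_ag_NS
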