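import Pool.Agent.Lib.MP_6e5bed_ag_NS.WA
import Pool.Agent.Lib.MP_6e5bed_ag_CV.Ses

set_option autoImplicit false

/-!
# MP_6e5bed_ag, NC SURFACES: exactness of the Čech complexes

`cC V L` at `c` is built from `V` by products; all statements are proved by induction on `L`.
-/

noncomputable section

namespace Pool.Agent.MP_6e5bed_ag_NS

open Pool.Agent.MP_6e5bed_ag_NC

universe u

variable {k : Type u} [Field k] {A B : PA k}

/-- Čech complexes preserve injections. -/
theorem cH_inj {V V' : PC k} (f : PCH V V') (h : ∀ c, Function.Injective (f.f c).f)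
    (L : List (LF k)) (c : FS k) : Function.Injective ((cH f L).g c).f := by
  induction L generalizing c with
  | nil => exact fun x y _ => rfl
  | cons l L ih =>
    rintro ⟨⟨x0, x1⟩, ξ⟩ ⟨⟨y0, y1⟩, υ⟩ hxy
    have h0 : ((cH f L).g c).f x0 = ((cH f L).g c).f y0 := congrArg (fun z => z.1.1) hxy
    have h1 : (f.f (c.ins l)).f x1 = (f.f (c.ins l)).f y1 := congrArg (fun z => z.1.2) hxy
    have h2 : ((cH f L).g (c.ins l).fs).f ξ = ((cH f L).g (c.ins l).fs).f υ :=
      congrArg (fun z => z.2) hxy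
    exact Prod.ext (Prod.ext (ih _ h0) (h _ h1)) (ih _ h2)

/-- Čech complexes preserve surjections. -/
theorem cH_surj {V V' : PC k} (f : PCH V V') (h : ∀ c, Function.Surjective (f.f c).f)
    (L : List (LF k)) (c : FS k) : Function.Surjective ((cH f L).g c).f := by
  induction L generalizing c with
  | nil => exact fun y => ⟨PUnit.unit, rfl⟩
  | cons l L ih =>
    rintro ⟨⟨y0, y1⟩, υ⟩
    obtain ⟨x0, h0⟩ := ih c y0
    obtain ⟨x1, h1⟩ := h (c.ins l) y1
    obtain ⟨ξ, h2⟩ := ih (c.ins l).fs υ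
    exact ⟨((x0, x1), ξ), Prod.ext (Prod.ext h0 h1) h2⟩

/-- Čech complexes preserve exactness in the middle. -/
theorem cH_exact {V V' V'' : PC k} (f : PCH V V') (g : PCH V' V'')
    (h : ∀ c x, (g.f c).f x = 0 ↔ ∃ y, (f.f c).f y = x) (L : List (LF k)) (c : FS k)
    (x : ((cC V' L).X c).V) : ((cH g L).g c).f x = 0 ↔ ∃ y, ((cH f L).g c).f y = x := by
  induction L generalizing c with
  | nil => exact ⟨fun _ => ⟨PUnit.unit, rfl⟩, fun _ => rfl⟩
  | cons l L ih =>
    obtain ⟨⟨x0, x1⟩, ξ⟩ := x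
    constructor
    · intro hx
      have h0 : ((cH g L).g c).f x0 = 0 := congrArg (fun z => z.1.1) hx
      have h1 : (g.f (c.ins l)).f x1 = 0 := congrArg (fun z => z.1.2) hx
      have h2 : ((cH g L).g (c.ins l).fs).f ξ = 0 := congrArg (fun z => z.2) hx
      obtain ⟨y0, e0⟩ := (ih c x0).1 h0
      obtain ⟨y1, e1⟩ := (h (c.ins l) x1).1 h1
      obtain ⟨υ, e2⟩ := (ih (c.ins l).fs ξ).1 h2
      exact ⟨((y0, y1), υ), Prod.ext (Prod.ext e0 e1) e2⟩
    · rintro ⟨⟨⟨y0, y1⟩, υ⟩, hy⟩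
      have e0 : ((cH f L).g c).f y0 = x0 := congrArg (fun z => z.1.1) hy
      have e1 : (f.f (c.ins l)).f y1 = x1 := congrArg (fun z => z.1.2) hy
      have e2 : ((cH f L).g (c.ins l).fs).f υ = ξ := congrArg (fun z => z.2) hy
      exact Prod.ext (Prod.ext ((ih c x0).2 ⟨y0, e0⟩) ((h (c.ins l) x1).2 ⟨y1, e1⟩))
        ((ih (c.ins l).fs ξ).2 ⟨υ, e2⟩)

/-- Exact sequences of presheaves of dg bimodules. -/
def PBEx {M' M M'' : PB A B} (i : PBH M' M) (p : PBH M M'') : Prop :=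
  ∀ c, Function.Injective (i.f c).f ∧ Function.Surjective (p.f c).f ∧
    ∀ x, (p.f c).f x = 0 ↔ ∃ y, (i.f c).f y = x

/-- Exact sequences of presheaves give exact sequences of Čech bimodules. -/
theorem PBEx.ses {M' M M'' : PB A B} {i : PBH M' M} {p : PBH M M''} (h : PBEx i p)
    (L : List (LF k)) (c : FS k) : IsSes (cB M' L c) (cB M L c) (cB M'' L c) := by
  exact ⟨i.gmap L c, p.gmap L c, i.gmap_dd L c, p.gmap_dd L c,
    cH_inj i.pch (fun c => (h c).1) L c, cH_surj p.pch (fun c => (h c).2.1) L c,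
    fun x => cH_exact i.pch p.pch (fun c => (h c).2.2) L c x⟩

end Pool.Agent.MP_6e5bed_ag_NS
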