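import Pool.Agent.Lib.MP_6e5bed_ag_NS.Gen

set_option autoImplicit false
set_option linter.unusedVariables false

/-!
# MP_6e5bed_ag, NC SURFACES: coherent bimodules are extensions of lattices by torsion
(section 4b)
-/

noncomputable section

namespace Pool.Agent.MP_6e5bed_ag_NS

open Pool.Agent.MP_6e5bed_ag_NC
open scoped TensorProduct

universe u

variable {k : Type u} [Field k] {A B : ASh k}

private theorem LatC_coe_ne {c : Ch k} {r : RR k c} (hr : r ≠ 0) : (r : KK k) ≠ 0 := by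
  intro h
  exact hr (ZeroMemClass.coe_eq_zero.1 h)

private theorem LatC_mk_ne {c : Ch k} {a : KK k} (ha : a ∈ RR k c) (h : a ≠ 0) :
    (⟨a, ha⟩ : RR k c) ≠ 0 := by
  intro h1
  have h2 := congrArg (fun x : RR k c => (x : KK k)) h1
  simp only [ZeroMemClass.coe_zero] at h2
  exact h h2

private theorem LatC_rinc {c d : Ch k} (h : c ≤ d) {r : RR k c} (hr : r ≠ 0) :
    rinc h r ≠ 0 := by
  intro h1
  apply LatC_coe_ne hr
  rw [← rinc_coe h, h1, ZeroMemClass.coe_zero]

/-! ### Restrictions, up to torsion -/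

private theorem LatC_surj (M : Shf k) (b : Ch k) (C : Set (LF k))
    (hC : C.Finite) : ∀ (d : Ch k) (h : b ≤ d), d.1 ⊆ b.1 ∪ C → ∀ m : M.M d,
      ∃ u : RR k d, u ≠ 0 ∧ ∃ m' : M.M b, M.res h m' = u • m := by
  induction C, hC using Set.Finite.induction_on with
  | empty =>
    intro d h hd m
    have hdb : d ≤ b := by
      intro x hx
      rcases hd hx with h1 | h1
      · exact h1
      · exact absurd h1 (Set.notMem_empty x)
    refine ⟨1, one_ne_zero, M.res hdb m, ?_⟩
    rw [M.res_res, M.res_id, one_smul]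
  | @insert ℓ C' _ hC' ih =>
    intro d h hd m
    by_cases hℓ : ℓ ∈ d.1
    · -- remove `ℓ`
      let d' : Ch k := ⟨b.1 ∪ (d.1 \ {ℓ}), b.2.1.mono Set.subset_union_left,
        b.2.2.union (d.2.2.subset Set.sdiff_subset)⟩
      have hbd' : b ≤ d' := fun x hx => Or.inl hx
      have hd'd : d' ≤ d := by
        intro x hx
        rcases hx with h1 | h1
        · exact h h1
        · exact h1.1
      have hins : d ≤ d'.ins ℓ := by
        intro x hx
        by_cases hx' : x = ℓ
        · exact Or.inl hx'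
        · exact Or.inr (Or.inr ⟨hx, hx'⟩)
      have hsub : d'.1 ⊆ b.1 ∪ C' := by
        intro x hx
        rcases hx with h1 | h1
        · exact Or.inl h1
        · rcases hd h1.1 with h2 | h2
          · exact Or.inl h2
          · rcases h2 with h3 | h3
            · exact absurd h3 h1.2
            · exact Or.inr h3
      obtain ⟨g, hg⟩ := b.2.1
      obtain ⟨n, m₁, hm₁⟩ := M.surj hd'd (hbd' hg) ℓ hins m
      obtain ⟨u₁, hu₁, m', hm'⟩ := ih d' hbd' hsub m₁
      refine ⟨rinc hd'd u₁ * quo ℓ.1 (hd'd (hbd' hg)) ^ n, ?_, m', ?_⟩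
      · refine mul_ne_zero ?_ (pow_ne_zero _ ?_)
        · exact LatC_rinc hd'd hu₁
        · intro h1
          have h2 := quo_mul_quo hℓ (hd'd (hbd' hg))
          rw [h1, zero_mul] at h2
          exact zero_ne_one h2
      · rw [mul_smul, ← hm₁, ← M.res_smul, ← hm', M.res_res]
    · refine ih d h (fun x hx => ?_) m
      rcases hd hx with h2 | h2
      · exact Or.inl h2
      · rcases h2 with h3 | h3
        · rw [h3] at hx
          exact absurd hx hℓ
        · exact Or.inr h3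

private theorem LatC_surj' (M : Shf k) {b d : Ch k} (h : b ≤ d) (m : M.M d) :
    ∃ u : RR k d, u ≠ 0 ∧ ∃ m' : M.M b, M.res h m' = u • m :=
  LatC_surj M b d.1 d.2.2 d h Set.subset_union_right m

private theorem LatC_inj (M : Shf k) (b : Ch k) (C : Set (LF k))
    (hC : C.Finite) : ∀ (d : Ch k) (h : b ≤ d), d.1 ⊆ b.1 ∪ C → ∀ m : M.M b, M.res h m = 0 →
      ∃ r : RR k b, r ≠ 0 ∧ r • m = 0 := by
  induction C, hC using Set.Finite.induction_on with
  | empty =>
    intro d h hd m hm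
    have hdb : d ≤ b := by
      intro x hx
      rcases hd hx with h1 | h1
      · exact h1
      · exact absurd h1 (Set.notMem_empty x)
    refine ⟨1, one_ne_zero, ?_⟩
    have h1 := M.res_res h hdb m
    rw [hm, map_zero, M.res_id] at h1
    rw [← h1, smul_zero]
  | @insert ℓ C' _ hC' ih =>
    intro d h hd m hm
    by_cases hℓ : ℓ ∈ d.1
    · -- remove `ℓ`
      let d' : Ch k := ⟨b.1 ∪ (d.1 \ {ℓ}), b.2.1.mono Set.subset_union_left,
        b.2.2.union (d.2.2.subset Set.sdiff_subset)⟩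
      have hbd' : b ≤ d' := fun x hx => Or.inl hx
      have hd'd : d' ≤ d := by
        intro x hx
        rcases hx with h1 | h1
        · exact h h1
        · exact h1.1
      have hins : d ≤ d'.ins ℓ := by
        intro x hx
        by_cases hx' : x = ℓ
        · exact Or.inl hx'
        · exact Or.inr (Or.inr ⟨hx, hx'⟩)
      have hsub : d'.1 ⊆ b.1 ∪ C' := by
        intro x hx
        rcases hx with h1 | h1
        · exact Or.inl h1
        · rcases hd h1.1 with h2 | h2
          · exact Or.inl h2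
          · rcases h2 with h3 | h3
            · exact absurd h3 h1.2
            · exact Or.inr h3
      obtain ⟨g, hg⟩ := b.2.1
      obtain ⟨n, hn⟩ := M.inj hd'd (hbd' hg) ℓ hins (M.res hbd' m) (by rw [M.res_res]; exact hm)
      have hq : quo ℓ.1 (hbd' hg) = rinc hbd' (quo ℓ.1 hg) := by
        apply Subtype.ext
        rw [rinc_coe]
        rfl
      rw [hq, ← map_pow, ← M.res_smul] at hn
      obtain ⟨r, hr, hrm⟩ := ih d' hbd' hsub _ hn
      refine ⟨r * quo ℓ.1 hg ^ n, mul_ne_zero hr (pow_ne_zero _ ?_), by rw [mul_smul, hrm]⟩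
      exact LatC_mk_ne _ (div_ne_zero (lam_ne_zero ℓ) (lam_ne_zero g))
    · refine ih d h (fun x hx => ?_) m hm
      rcases hd hx with h2 | h2
      · exact Or.inl h2
      · rcases h2 with h3 | h3
        · rw [h3] at hx
          exact absurd hx hℓ
        · exact Or.inr h3

/-- a section whose restriction is torsion is torsion -/
private theorem LatC_inj' (M : Shf k) {b d : Ch k} (h : b ≤ d) (m : M.M b) {r : RR k d}
    (hr : r ≠ 0) (hm : r • M.res h m = 0) : ∃ r : RR k b, r ≠ 0 ∧ r • m = 0 := by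
  obtain ⟨a, ha, b', hb', hb0, hab⟩ := RR_frac b (r : KK k)
  have ha0 : (⟨a, ha⟩ : RR k b) ≠ 0 := by
    refine LatC_mk_ne ha ?_
    rw [← hab]
    exact mul_ne_zero hb0 (LatC_coe_ne hr)
  have h1 : M.res h ((⟨a, ha⟩ : RR k b) • m) = 0 := by
    have h2 : rinc h ⟨a, ha⟩ = rinc h ⟨b', hb'⟩ * r := by
      apply Subtype.ext
      rw [rinc_coe, MulMemClass.coe_mul, rinc_coe]
      exact hab.symm
    rw [M.res_smul, h2, mul_smul, hm, smul_zero]
  obtain ⟨r', hr', hr'm⟩ := LatC_inj M b d.1 d.2.2 d h Set.subset_union_right _ h1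
  exact ⟨r' * ⟨a, ha⟩, mul_ne_zero hr' ha0, by rw [mul_smul, hr'm]⟩

/-! ### Generic fibres -/

private theorem LatC_frac (d : Ch k) :
    IsLocalization (nonZeroDivisors (RR k d)) (KK k) := by
  have h := RR_frac d
  refine ⟨⟨fun y => ?_, fun z => ?_, fun {x y} hxy => ?_⟩⟩
  · exact IsUnit.mk0 _ (LatC_coe_ne (nonZeroDivisors.ne_zero y.2))
  · obtain ⟨a, ha, b, hb, hb0, hab⟩ := h z
    refine ⟨(⟨a, ha⟩, ⟨⟨b, hb⟩, mem_nonZeroDivisors_of_ne_zero (LatC_mk_ne hb hb0)⟩), ?_⟩
    · change z * b = a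
      rw [mul_comm]
      exact hab
  · refine ⟨1, ?_⟩
    have h1 : x = y := Subtype.ext hxy
    rw [h1]

/-- the generic fibre on a chart -/
private theorem LatC_fib (M : Shf k) (d : Ch k) : ∃ (E : Type u) (_ : AddCommGroup E)
    (_ : Module (KK k) E) (ι : M.M d →+ E),
      (Module.Finite (RR k d) (M.M d) → FiniteDimensional (KK k) E) ∧
      (∀ (r : RR k d) m, ι (r • m) = (r : KK k) • ι m) ∧
      (∀ m, ι m = 0 → ∃ r : RR k d, r ≠ 0 ∧ r • m = 0) ∧
      ∀ e, ∃ s : RR k d, s ≠ 0 ∧ ∃ m, (s : KK k) • e = ι m := by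
  have hfr := LatC_frac d
  have hloc : IsLocalizedModule (nonZeroDivisors (RR k d))
      (TensorProduct.mk (RR k d) (KK k) (M.M d) 1) :=
    (isLocalizedModule_iff_isBaseChange (nonZeroDivisors (RR k d)) (KK k) _).2
      (TensorProduct.isBaseChange (RR k d) (M.M d) (KK k))
  refine ⟨KK k ⊗[RR k d] M.M d, inferInstance, inferInstance,
    (TensorProduct.mk (RR k d) (KK k) (M.M d) 1).toAddMonoidHom, ?_, ?_, ?_, ?_⟩
  · intro hf
    exact Module.Finite.base_change (RR k d) (KK k) (M.M d)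
  · intro r m
    change (1 : KK k) ⊗ₜ[RR k d] (r • m) = (r : KK k) • ((1 : KK k) ⊗ₜ[RR k d] m)
    rw [← TensorProduct.smul_tmul, TensorProduct.smul_tmul']
    rfl
  · intro m hm
    have h1 := (IsLocalizedModule.eq_zero_iff (nonZeroDivisors (RR k d))
      (TensorProduct.mk (RR k d) (KK k) (M.M d) 1)).1 hm
    obtain ⟨c, hc⟩ := h1
    exact ⟨c.1, nonZeroDivisors.ne_zero c.2, hc⟩
  · intro e
    obtain ⟨⟨m, s⟩, hs⟩ := IsLocalizedModule.surj (nonZeroDivisors (RR k d))
      (TensorProduct.mk (RR k d) (KK k) (M.M d) 1) e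
    refine ⟨s.1, nonZeroDivisors.ne_zero s.2, m, ?_⟩
    exact hs

private theorem LatC_lift {c : Ch k} {N E E' : Type u} [AddCommGroup N] [Module (RR k c) N]
    [AddCommGroup E] [Module (KK k) E] [AddCommGroup E'] [Module (KK k) E']
    (φ : N →+ E) (f : N →+ E') (hφ : ∀ (r : RR k c) m, φ (r • m) = (r : KK k) • φ m)
    (hf : ∀ (r : RR k c) m, f (r • m) = (r : KK k) • f m) (h0 : ∀ m, φ m = 0 → f m = 0)
    (hs : ∀ e : E, ∃ s : RR k c, s ≠ 0 ∧ ∃ m, (s : KK k) • e = φ m) :
    ∃ F : E →ₗ[KK k] E', ∀ m, F (φ m) = f m := by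
  choose s hs0 m hm using hs
  have ne : ∀ t : RR k c, t ≠ 0 → (t : KK k) ≠ 0 := fun t ht => LatC_coe_ne ht
  have key : ∀ (e : E) (t : RR k c) (n : N), t ≠ 0 → (t : KK k) • e = φ n →
      (s e : KK k)⁻¹ • f (m e) = (t : KK k)⁻¹ • f n := by
    intro e t n ht h1
    have h2 : φ (t • m e - s e • n) = 0 := by
      rw [map_sub, hφ, hφ, ← hm e, ← h1, smul_comm, sub_self]
    have h3 := h0 _ h2
    rw [map_sub, hf, hf, sub_eq_zero] at h3
    have h4 : f (m e) = (t : KK k)⁻¹ • (s e : KK k) • f n := by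
      rw [← h3, smul_smul, inv_mul_cancel₀ (ne t ht), one_smul]
    rw [h4, smul_comm, smul_smul (s e : KK k)⁻¹, inv_mul_cancel₀ (ne _ (hs0 e)), one_smul]
  refine ⟨⟨⟨fun e => (s e : KK k)⁻¹ • f (m e), fun e₁ e₂ => ?_⟩, fun κ e => ?_⟩, fun n => ?_⟩
  · have h1 := key (e₁ + e₂) (s e₁ * s e₂) (s e₂ • m e₁ + s e₁ • m e₂)
      (mul_ne_zero (hs0 _) (hs0 _)) (by
        rw [map_add, hφ, hφ, ← hm, ← hm, smul_add, MulMemClass.coe_mul, mul_smul, mul_smul,
          smul_comm (s e₁ : KK k) (s e₂ : KK k) e₁])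
    have n1 := ne _ (hs0 e₁)
    have n2 := ne _ (hs0 e₂)
    rw [h1, map_add, hf, hf, smul_add, smul_smul, smul_smul, MulMemClass.coe_mul, mul_inv_rev,
      mul_right_comm, inv_mul_cancel₀ n2, one_mul, mul_assoc, inv_mul_cancel₀ n1, mul_one]
  · obtain ⟨a, ha, b, hb, hb0, hab⟩ := RR_frac c κ
    have hb0' : (⟨b, hb⟩ : RR k c) ≠ 0 := LatC_mk_ne hb hb0
    have h1 := key (κ • e) (⟨b, hb⟩ * s e) ((⟨a, ha⟩ : RR k c) • m e)
      (mul_ne_zero hb0' (hs0 _)) (by
        rw [hφ, ← hm, MulMemClass.coe_mul, mul_smul]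
        change b • (s e : KK k) • κ • e = a • (s e : KK k) • e
        rw [← hab, smul_comm (s e : KK k) κ e, mul_smul])
    change (s (κ • e) : KK k)⁻¹ • f (m (κ • e)) = κ • (s e : KK k)⁻¹ • f (m e)
    rw [h1, hf, MulMemClass.coe_mul, smul_smul, smul_smul]
    change ((b * (s e : KK k))⁻¹ * a) • f (m e) = _
    rw [← hab, mul_inv_rev, mul_assoc, inv_mul_cancel_left₀ hb0, mul_comm]
  · have h1 := key (φ n) 1 n one_ne_zero (by rw [OneMemClass.coe_one, one_smul])
    rw [OneMemClass.coe_one, inv_one, one_smul] at h1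
    exact h1

/-- the generic fibre, with the maps from the sections on all the charts -/
private theorem LatC_main (M : Shf k) (hM : M.Coh) : ∃ (E : Type u) (_ : AddCommGroup E)
    (_ : Module (KK k) E) (_ : FiniteDimensional (KK k) E) (φ : ∀ c, M.M c →+ E),
      (∀ c (r : RR k c) m, φ c (r • m) = (r : KK k) • φ c m) ∧
      (∀ (c d : Ch k) (h : c ≤ d) m, φ d (M.res h m) = φ c m) ∧
      (∀ c m, φ c m = 0 → ∃ r : RR k c, r ≠ 0 ∧ r • m = 0) ∧
      ∀ c e, ∃ s : RR k c, s ≠ 0 ∧ ∃ m, (s : KK k) • e = φ c m := by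
  choose E iA iM ι hfin hsm hker hsu using LatC_fib M
  set b : Ch k := Ch.sgl (xx k 0) with hb
  have htors : ∀ d (m : M.M d) (r : RR k d), r ≠ 0 → r • m = 0 → ι d m = 0 := by
    intro d m r hr hm
    have h1 := hsm d r m
    rw [hm, map_zero] at h1
    rcases smul_eq_zero.1 h1.symm with h2 | h2
    · exact absurd h2 (LatC_coe_ne hr)
    · exact h2
  have hF : ∀ d (h : b ≤ d), ∃ F : E d →ₗ[KK k] E b, ∀ m, F (ι d (M.res h m)) = ι b m := by
    intro d h
    refine LatC_lift (c := b) (N := M.M b) ((ι d).comp (M.res h).toAddMonoidHom) (ι b) ?_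
      (hsm b) ?_ ?_
    · intro r m
      change ι d (M.res h (r • m)) = (r : KK k) • ι d (M.res h m)
      rw [M.res_smul, hsm, rinc_coe]
    · intro m hm
      have hm' : ι d (M.res h m) = 0 := hm
      obtain ⟨r, hr, hrm⟩ := hker d _ hm'
      obtain ⟨r', hr', hrm'⟩ := LatC_inj' M h m hr hrm
      exact htors b m r' hr' hrm'
    · intro e
      obtain ⟨s₁, hs₁, x, hx⟩ := hsu d e
      obtain ⟨w, hw, m, hm⟩ := LatC_surj' M h x
      obtain ⟨a, ha, b', hb', hb0, hab⟩ := RR_frac b ((w : KK k) * (s₁ : KK k))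
      refine ⟨⟨a, ha⟩, LatC_mk_ne ha ?_, (⟨b', hb'⟩ : RR k b) • m, ?_⟩
      · rw [← hab]
        exact mul_ne_zero hb0 (mul_ne_zero (LatC_coe_ne hw) (LatC_coe_ne hs₁))
      · change a • e = ι d (M.res h ((⟨b', hb'⟩ : RR k b) • m))
        rw [M.res_smul, hsm, rinc_coe, hm, hsm, ← hx, ← hab, mul_smul, mul_smul]
  choose F hF using hF
  -- the maps on the charts contained in `b`
  have hψs : ∀ d (h : b ≤ d) (r : RR k d) x, F d h (ι d (r • x)) = (r : KK k) • F d h (ι d x) := by
    intro d h r x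
    rw [hsm, map_smul]
  have hψr : ∀ d (h : b ≤ d) d' (h' : d ≤ d') x,
      F d' (h.trans h') (ι d' (M.res h' x)) = F d h (ι d x) := by
    intro d h d' h' x
    obtain ⟨w, hw, m, hm⟩ := LatC_surj' M h x
    have h1 : (w : KK k) • F d' (h.trans h') (ι d' (M.res h' x)) = ι b m := by
      have h2 := hψs d' (h.trans h') (rinc h' w) (M.res h' x)
      rw [rinc_coe, ← M.res_smul, ← hm, M.res_res, hF] at h2
      exact h2.symm
    have h2 : (w : KK k) • F d h (ι d x) = ι b m := by
      rw [← hψs, ← hm, hF]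
    have h3 := h1.trans h2.symm
    exact smul_right_injective _ (LatC_coe_ne hw) h3
  have hψk : ∀ d (h : b ≤ d) x, F d h (ι d x) = 0 → ∃ r : RR k d, r ≠ 0 ∧ r • x = 0 := by
    intro d h x hx
    obtain ⟨w, hw, m, hm⟩ := LatC_surj' M h x
    have h2 : (w : KK k) • F d h (ι d x) = ι b m := by
      rw [← hψs, ← hm, hF]
    rw [hx, smul_zero] at h2
    obtain ⟨t, ht, htm⟩ := hker b m h2.symm
    refine ⟨rinc h t * w, mul_ne_zero (LatC_rinc h ht) hw, ?_⟩
    rw [mul_smul, ← hm, ← M.res_smul, htm, map_zero]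
  have hsup : ∀ c : Ch k, c ≤ c.sup b := fun c x hx => Or.inl hx
  have hbup : ∀ c : Ch k, b ≤ c.sup b := fun c x hx => Or.inr hx
  refine ⟨E b, inferInstance, inferInstance, hfin b (hM b), fun c =>
    (F (c.sup b) (hbup c)).toAddMonoidHom.comp
      ((ι (c.sup b)).comp (M.res (hsup c)).toAddMonoidHom), ?_, ?_, ?_, ?_⟩
  · intro c r m
    change F (c.sup b) (hbup c) (ι (c.sup b) (M.res (hsup c) (r • m))) =
      (r : KK k) • F (c.sup b) (hbup c) (ι (c.sup b) (M.res (hsup c) m))
    rw [M.res_smul, hψs, rinc_coe]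
  · intro c d h m
    change F (d.sup b) (hbup d) (ι (d.sup b) (M.res (hsup d) (M.res h m))) =
      F (c.sup b) (hbup c) (ι (c.sup b) (M.res (hsup c) m))
    have hcd : c.sup b ≤ d.sup b := by
      intro x hx
      rcases hx with h1 | h1
      · exact Or.inl (h h1)
      · exact Or.inr h1
    rw [← hψr _ (hbup c) _ hcd, M.res_res, M.res_res]
  · intro c m hm
    have hm' : F (c.sup b) (hbup c) (ι (c.sup b) (M.res (hsup c) m)) = 0 := hm
    obtain ⟨r, hr, hrm⟩ := hψk _ _ _ hm'
    exact LatC_inj' M (hsup c) m hr hrm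
  · intro c e
    obtain ⟨s₁, hs₁, x, hx⟩ := hsu b e
    obtain ⟨w, hw, m, hm⟩ := LatC_surj' M (hsup c) (M.res (hbup c) x)
    obtain ⟨a, ha, b', hb', hb0, hab⟩ := RR_frac c ((w : KK k) * (s₁ : KK k))
    refine ⟨⟨a, ha⟩, LatC_mk_ne ha ?_, (⟨b', hb'⟩ : RR k c) • m, ?_⟩
    · rw [← hab]
      exact mul_ne_zero hb0 (mul_ne_zero (LatC_coe_ne hw) (LatC_coe_ne hs₁))
    · change a • e = F (c.sup b) (hbup c)
        (ι (c.sup b) (M.res (hsup c) ((⟨b', hb'⟩ : RR k c) • m)))
      rw [M.res_smul, hψs, rinc_coe, hm, hψs, hF, ← hx, ← hab, mul_smul, mul_smul]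

/-! ### The generic bimodule -/

/-- the generic fibre -/
private structure LatC_D (M : Shf k) where
  E : Type u
  [grp : AddCommGroup E]
  [mod : Module k E]
  [modK : Module (KK k) E]
  [tow : IsScalarTower k (KK k) E]
  [fin : FiniteDimensional (KK k) E]
  φ : ∀ c, M.M c →ₗ[k] E
  sm : ∀ c (r : RR k c) m, φ c (r • m) = (r : KK k) • φ c m
  res : ∀ {c d : Ch k} (h : c ≤ d) m, φ d (M.res h m) = φ c m
  ker : ∀ c m, φ c m = 0 → ∃ r : RR k c, r ≠ 0 ∧ r • m = 0
  su : ∀ c e, ∃ s : RR k c, s ≠ 0 ∧ ∃ m, (s : KK k) • e = φ c m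

attribute [instance] LatC_D.grp LatC_D.mod LatC_D.modK LatC_D.tow LatC_D.fin

private theorem LatC_exD (M : Shf k) (hM : M.Coh) : Nonempty (LatC_D M) := by
  obtain ⟨E, iA, iM, iF, φ, hsm, hres, hker, hsu⟩ := LatC_main M hM
  let _ : Module k E := Module.compHom E (algebraMap k (KK k))
  have : IsScalarTower k (KK k) E := ⟨fun a x y => by
    change (a • x) • y = (algebraMap k (KK k) a) • (x • y)
    rw [Algebra.smul_def, mul_smul]⟩
  refine ⟨⟨E, fun c => ⟨⟨φ c, map_add (φ c)⟩, fun a m => ?_⟩, hsm, fun {c d} h m => hres c d h m,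
    hker, hsu⟩⟩
  change φ c (a • m) = (algebraMap k (KK k) a) • φ c m
  rw [← algebraMap_smul (RR k c) a m, hsm]
  rfl

private theorem LatC_ext {M : Shf k} (D : LatC_D M) (c : Ch k) {F G : D.E →ₗ[KK k] D.E}
    (h : ∀ m, F (D.φ c m) = G (D.φ c m)) : F = G := by
  refine LinearMap.ext fun e => ?_
  obtain ⟨s, hs, m, hm⟩ := D.su c e
  have h1 := h m
  rw [← hm, map_smul, map_smul] at h1
  exact smul_right_injective _ (LatC_coe_ne hs) h1

private theorem LatC_tors {M : Shf k} (D : LatC_D M) (c : Ch k) {m : M.M c} {r : RR k c}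
    (hr : r ≠ 0) (hm : r • m = 0) : D.φ c m = 0 := by
  have h1 := D.sm c r m
  rw [hm, map_zero] at h1
  rcases smul_eq_zero.1 h1.symm with h2 | h2
  · exact absurd h2 (LatC_coe_ne hr)
  · exact h2

private theorem LatC_act {M : Shf k} (D : LatC_D M) (c : Ch k) {V : Type u} [AddCommGroup V]
    [Module k V] (T : V →ₗ[k] M.M c →ₗ[k] M.M c)
    (hT : ∀ a (r : RR k c) m, T a (r • m) = r • T a m) :
    ∃ L : V →ₗ[k] D.E →ₗ[KK k] D.E, ∀ a m, L a (D.φ c m) = D.φ c (T a m) := by
  have hF : ∀ a, ∃ F : D.E →ₗ[KK k] D.E, ∀ m, F (D.φ c m) = D.φ c (T a m) := by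
    intro a
    refine LatC_lift (c := c) (D.φ c).toAddMonoidHom ((D.φ c).comp (T a)).toAddMonoidHom
      (D.sm c) ?_ ?_ (D.su c)
    · intro r m
      change D.φ c (T a (r • m)) = (r : KK k) • D.φ c (T a m)
      rw [hT, D.sm]
    · intro m hm
      obtain ⟨r, hr, hrm⟩ := D.ker c m hm
      refine LatC_tors D c hr ?_
      rw [← hT, hrm, map_zero]
  choose F hF using hF
  refine ⟨⟨⟨F, fun a a' => ?_⟩, fun s a => ?_⟩, hF⟩
  · refine LatC_ext D c fun m => ?_
    rw [LinearMap.add_apply, hF, hF, hF, map_add, LinearMap.add_apply, map_add]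
  · refine LatC_ext D c fun m => ?_
    rw [RingHom.id_apply, LinearMap.smul_apply, hF, hF, map_smul, LinearMap.smul_apply, map_smul]

private theorem LatC_lsmul (M : BSh A B) (c : Ch k) (a : A.M c) (r : RR k c) (m : M.M c) :
    M.l c a (r • m) = r • M.l c a m := by
  have h1 : r • m = M.l c (r • A.one c) m := by rw [M.smul_l, M.l_one]
  rw [h1, ← M.l_mul, A.mul_smul, A.mul_one, M.smul_l]

private theorem LatC_rsmul (M : BSh A B) (c : Ch k) (b : B.M c) (r : RR k c) (m : M.M c) :
    M.r c b (r • m) = r • M.r c b m := by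
  have h1 : r • m = M.r c (r • B.one c) m := by rw [M.smul_r, M.r_one]
  rw [h1, ← M.r_mul, B.smul_mul, B.one_mul, M.smul_r]

/-- the left action -/
private def LatC_l (M : BSh A B) (D : LatC_D M.toShf) (c : Ch k) :
    A.M c →ₗ[k] D.E →ₗ[KK k] D.E :=
  (LatC_act D c (M.l c) (LatC_lsmul M c)).choose

private theorem LatC_l_spec (M : BSh A B) (D : LatC_D M.toShf) (c : Ch k) (a : A.M c)
    (m : M.M c) : LatC_l M D c a (D.φ c m) = D.φ c (M.l c a m) :=
  (LatC_act D c (M.l c) (LatC_lsmul M c)).choose_spec a m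

/-- the right action -/
private def LatC_r (M : BSh A B) (D : LatC_D M.toShf) (c : Ch k) :
    B.M c →ₗ[k] D.E →ₗ[KK k] D.E :=
  (LatC_act D c (M.r c) (LatC_rsmul M c)).choose

private theorem LatC_r_spec (M : BSh A B) (D : LatC_D M.toShf) (c : Ch k) (b : B.M c)
    (m : M.M c) : LatC_r M D c b (D.φ c m) = D.φ c (M.r c b m) :=
  (LatC_act D c (M.r c) (LatC_rsmul M c)).choose_spec b m

/-- the generic bimodule -/
private def LatC_G (M : BSh A B) (D : LatC_D M.toShf) : Gen A B where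
  E := D.E
  l := LatC_l M D
  r := LatC_r M D
  l_one := fun c x => by
    have h : LatC_l M D c (A.one c) = LinearMap.id := LatC_ext D c fun m => by
      rw [LatC_l_spec, M.l_one, LinearMap.id_apply]
    rw [h, LinearMap.id_apply]
  r_one := fun c x => by
    have h : LatC_r M D c (B.one c) = LinearMap.id := LatC_ext D c fun m => by
      rw [LatC_r_spec, M.r_one, LinearMap.id_apply]
    rw [h, LinearMap.id_apply]
  l_mul := fun c a a' x => by
    have h : LatC_l M D c (A.mul c a a') = LatC_l M D c a ∘ₗ LatC_l M D c a' :=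
      LatC_ext D c fun m => by
        rw [LatC_l_spec, M.l_mul, LinearMap.comp_apply, LatC_l_spec, LatC_l_spec]
    rw [h, LinearMap.comp_apply]
  r_mul := fun c b b' x => by
    have h : LatC_r M D c (B.mul c b b') = LatC_r M D c b' ∘ₗ LatC_r M D c b :=
      LatC_ext D c fun m => by
        rw [LatC_r_spec, M.r_mul, LinearMap.comp_apply, LatC_r_spec, LatC_r_spec]
    rw [h, LinearMap.comp_apply]
  l_r := fun c a b x => by
    have h : LatC_l M D c a ∘ₗ LatC_r M D c b = LatC_r M D c b ∘ₗ LatC_l M D c a :=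
      LatC_ext D c fun m => by
        rw [LinearMap.comp_apply, LatC_r_spec, LatC_l_spec, LinearMap.comp_apply, LatC_l_spec,
          LatC_r_spec, M.l_r]
    exact LinearMap.congr_fun h x
  smul_l := fun c s a x => by
    have h : LatC_l M D c (s • a) = (s : KK k) • LatC_l M D c a :=
      LatC_ext D c fun m => by
        rw [LatC_l_spec, M.smul_l, D.sm, LinearMap.smul_apply, LatC_l_spec]
    rw [h, LinearMap.smul_apply]
  smul_r := fun c s b x => by
    have h : LatC_r M D c (s • b) = (s : KK k) • LatC_r M D c b :=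
      LatC_ext D c fun m => by
        rw [LatC_r_spec, M.smul_r, D.sm, LinearMap.smul_apply, LatC_r_spec]
    rw [h, LinearMap.smul_apply]
  res_l := fun {c d} h a x => by
    have h1 : LatC_l M D d (A.res h a) = LatC_l M D c a :=
      LatC_ext D c fun m => by
        rw [LatC_l_spec, ← D.res h, LatC_l_spec, ← M.res_l, D.res]
    rw [h1]
  res_r := fun {c d} h b x => by
    have h1 : LatC_r M D d (B.res h b) = LatC_r M D c b :=
      LatC_ext D c fun m => by
        rw [LatC_r_spec, ← D.res h, LatC_r_spec, ← M.res_r, D.res]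
    rw [h1]

/-- the images of the sections -/
private def LatC_N (M : Shf k) (hM : M.Coh) (D : LatC_D M) : Lat k D.E where
  N := fun c =>
    { carrier := Set.range (D.φ c)
      add_mem' := by
        rintro _ _ ⟨x, rfl⟩ ⟨y, rfl⟩
        exact ⟨x + y, map_add _ _ _⟩
      zero_mem' := ⟨0, map_zero _⟩
      smul_mem' := by
        rintro r _ ⟨x, rfl⟩
        exact ⟨r • x, D.sm c r x⟩ }
  mono := by
    rintro c d h _ ⟨x, rfl⟩
    exact ⟨M.res h x, D.res h x⟩
  loc := by
    rintro c d h g hg ℓ hd _ ⟨x, rfl⟩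
    obtain ⟨n, m', hm'⟩ := M.surj h hg ℓ hd x
    refine ⟨n, m', ?_⟩
    rw [← D.res h, hm', D.sm, SubmonoidClass.coe_pow]
    rfl
  fg := by
    intro c
    have hfin := hM c
    let Φ : M.M c →ₗ[RR k c] D.E := ⟨⟨D.φ c, map_add _⟩, fun r m => D.sm c r m⟩
    have h1 : (Submodule.map Φ ⊤).FG := (Module.Finite.fg_top).map Φ
    convert! h1 using 1
    ext x
    constructor
    · rintro ⟨y, rfl⟩
      exact ⟨y, trivial, rfl⟩
    · rintro ⟨y, -, rfl⟩
      exact ⟨y, rfl⟩
  span := by
    intro c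
    rw [eq_top_iff]
    intro e _
    obtain ⟨s, hs, m, hm⟩ := D.su c e
    have h1 : e = (s : KK k)⁻¹ • D.φ c m := by
      rw [← hm, smul_smul, inv_mul_cancel₀ (LatC_coe_ne hs), one_smul]
    rw [h1]
    exact Submodule.smul_mem _ _ (Submodule.subset_span ⟨m, rfl⟩)

/-- the torsion sections -/
private def LatC_K (M : Shf k) (D : LatC_D M) (c : Ch k) : Submodule (RR k c) (M.M c) where
  carrier := {m | D.φ c m = 0}
  add_mem' := by
    intro x y hx hy
    have hx' : D.φ c x = 0 := hx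
    have hy' : D.φ c y = 0 := hy
    change D.φ c (x + y) = 0
    rw [map_add, hx', hy', add_zero]
  zero_mem' := map_zero _
  smul_mem' := by
    intro r x hx
    have hx' : D.φ c x = 0 := hx
    change D.φ c (r • x) = 0
    rw [D.sm, hx', smul_zero]

private theorem LatC_mem (M : Shf k) (D : LatC_D M) (c : Ch k) (m : M.M c) :
    m ∈ LatC_K M D c ↔ D.φ c m = 0 := Iff.rfl

/-- the torsion subsheaf -/
private def LatC_t (M : BSh A B) (D : LatC_D M.toShf) : BSh A B where
  M := fun c => LatC_K M.toShf D c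
  res := fun {c d} h =>
    { toFun := fun x => ⟨M.res h x.1, by
        rw [LatC_mem, D.res]
        exact x.2⟩
      map_add' := fun x y => Subtype.ext (map_add (M.res h) x.1 y.1)
      map_smul' := fun a x => Subtype.ext (map_smul (M.res h) a x.1) }
  res_smul := fun h r m => Subtype.ext (M.res_smul h r m.1)
  res_id := fun h m => Subtype.ext (M.res_id h m.1)
  res_res := fun h h' m => Subtype.ext (M.res_res h h' m.1)
  surj := fun {c d} h {g} hg ℓ hd m => by
    obtain ⟨n, m', hm'⟩ := M.surj h hg ℓ hd m.1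
    refine ⟨n, ⟨m', ?_⟩, Subtype.ext hm'⟩
    rw [LatC_mem, ← D.res h, hm', D.sm, (LatC_mem _ D d m.1).1 m.2, smul_zero]
  inj := fun {c d} h {g} hg ℓ hd m hm => by
    obtain ⟨n, hn⟩ := M.inj h hg ℓ hd m.1 (congrArg Subtype.val hm)
    exact ⟨n, Subtype.ext hn⟩
  l := fun c => LinearMap.mk₂ k (fun (a : A.M c) (x : LatC_K M.toShf D c) =>
        (⟨M.l c a x.1, by
          rw [LatC_mem, ← LatC_l_spec, (LatC_mem _ D c x.1).1 x.2, map_zero]⟩ :
            LatC_K M.toShf D c))
      (fun a a' x => Subtype.ext (LinearMap.congr_fun (map_add (M.l c) a a') x.1))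
      (fun s a x => Subtype.ext (LinearMap.congr_fun (map_smul (M.l c) s a) x.1))
      (fun a x x' => Subtype.ext (map_add (M.l c a) x.1 x'.1))
      (fun s a x => Subtype.ext (map_smul (M.l c a) s x.1))
  r := fun c => LinearMap.mk₂ k (fun (b : B.M c) (x : LatC_K M.toShf D c) =>
        (⟨M.r c b x.1, by
          rw [LatC_mem, ← LatC_r_spec, (LatC_mem _ D c x.1).1 x.2, map_zero]⟩ :
            LatC_K M.toShf D c))
      (fun a a' x => Subtype.ext (LinearMap.congr_fun (map_add (M.r c) a a') x.1))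
      (fun s a x => Subtype.ext (LinearMap.congr_fun (map_smul (M.r c) s a) x.1))
      (fun a x x' => Subtype.ext (map_add (M.r c a) x.1 x'.1))
      (fun s a x => Subtype.ext (map_smul (M.r c a) s x.1))
  l_one := fun c x => Subtype.ext (M.l_one c x.1)
  r_one := fun c x => Subtype.ext (M.r_one c x.1)
  l_mul := fun c a a' x => Subtype.ext (M.l_mul c a a' x.1)
  r_mul := fun c a a' x => Subtype.ext (M.r_mul c a a' x.1)
  l_r := fun c a b x => Subtype.ext (M.l_r c a b x.1)
  smul_l := fun c s a x => Subtype.ext (M.smul_l c s a x.1)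
  smul_r := fun c s a x => Subtype.ext (M.smul_r c s a x.1)
  res_l := fun h a x => Subtype.ext (M.res_l h a x.1)
  res_r := fun h a x => Subtype.ext (M.res_r h a x.1)

private theorem LatC_st (M : BSh A B) (hM : M.toShf.Coh) (D : LatC_D M.toShf) :
    (LatC_G M D).St (LatC_N M.toShf hM D) where
  l := by
    rintro c a _ ⟨x, rfl⟩
    exact ⟨M.l c a x, (LatC_l_spec M D c a x).symm⟩
  r := by
    rintro c b _ ⟨x, rfl⟩
    exact ⟨M.r c b x, (LatC_r_spec M D c b x).symm⟩

/-- the inclusion of the torsion subsheaf -/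
private def LatC_i (M : BSh A B) (D : LatC_D M.toShf) : BSH (LatC_t M D) M where
  f := fun c => ⟨⟨fun x => x.1, fun _ _ => rfl⟩, fun _ _ => rfl⟩
  smul := fun _ _ _ => rfl
  nat := fun _ _ => rfl
  l := fun _ _ _ => rfl
  r := fun _ _ _ => rfl

/-- the projection to the lattice -/
private def LatC_p (M : BSh A B) (hM : M.toShf.Coh) (D : LatC_D M.toShf) :
    BSH M ((LatC_G M D).sh (LatC_N M.toShf hM D) (LatC_st M hM D)) where
  f := fun c => ⟨⟨fun x => ⟨D.φ c x, ⟨x, rfl⟩⟩, fun x y => Subtype.ext (map_add _ x y)⟩,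
    fun a x => Subtype.ext (map_smul _ a x)⟩
  smul := fun c r x => Subtype.ext (D.sm c r x)
  nat := fun h x => Subtype.ext (D.res h x).symm
  l := fun c a x => Subtype.ext (LatC_l_spec M D c a x).symm
  r := fun c b x => Subtype.ext (LatC_r_spec M D c b x).symm

/-- Every coherent sheaf of bimodules has a torsion subsheaf whose quotient is a stable lattice in a
generic bimodule. PROOF. Let `c₀` be the chart `x_0 ≠ 0`, `E = K ⊗ M c₀` over `R_{c₀}` (localisation
at the nonzero elements). For a chart `c` let `c' = c ∪ x_0`; `M c → M c'`, and every element of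
`M c'` becomes, after multiplication with a nonzero function, the restriction of an element of
`M c₀` (`M.surj` for the finitely many elements of `c` one after the other; two such elements
differ by torsion), which defines `M c' → E`; so `M c → E` with kernel the torsion elements
(`M.inj`). The actions of `A c` on `E`: for `a ∈ A c` some nonzero multiple of its restriction to
`c'` comes from `A c₀`. `N c` is the image of `M c`. The torsion elements form a coherent
subsheaf. -/
theorem exists_dec (M : BSh A B) (hM : M.toShf.Coh) : ∃ (τ : BSh A B) (G : Gen A B)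
    (N : Lat k G.E) (h : G.St N) (i : BSH τ M) (p : BSH M (G.sh N h)),
      ShEx i.toShH p.toShH ∧ τ.toShf.Coh ∧ τ.toShf.Tors := by
  obtain ⟨D⟩ := LatC_exD M.toShf hM
  refine ⟨LatC_t M D, LatC_G M D, LatC_N M.toShf hM D, LatC_st M hM D, LatC_i M D,
    LatC_p M hM D, ?_, ?_, ?_⟩
  · intro c
    refine ⟨fun x y h => Subtype.ext h, ?_, ?_⟩
    · rintro ⟨_, x, rfl⟩
      exact ⟨x, rfl⟩
    · intro x
      constructor
      · intro h
        have h1 : D.φ c x = 0 := congrArg Subtype.val h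
        exact ⟨⟨x, h1⟩, rfl⟩
      · rintro ⟨y, rfl⟩
        exact Subtype.ext y.2
  · intro c
    have h1 := RR_noeth c
    have h2 := hM c
    change Module.Finite (RR k c) (LatC_K M.toShf D c)
    infer_instance
  · intro c m
    obtain ⟨r, hr, hrm⟩ := D.ker c m.1 m.2
    exact ⟨r, hr, Subtype.ext hrm⟩

end Pool.Agent.MP_6e5bed_ag_NS
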