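import Pool.Agent.Lib.MP_6e5bed_ag_NS.FinL
import Pool.Agent.Lib.MP_6e5bed_ag_NS.LatC

set_option autoImplicit false

/-!
# MP_6e5bed_ag, NC SURFACES: coherent bimodules have finite-dimensional cohomology; the diagonal
bimodule
-/

noncomputable section

namespace Pool.Agent.MP_6e5bed_ag_NS

open Pool.Agent.MP_6e5bed_ag_NC

universe u

variable {k : Type u} [Field k]

/-- The cohomology of a lattice in a generic bimodule is finite-dimensional. -/
theorem fin_gen [Infinite k] {A B : ASh k} (G : Gen A B) (N : Lat k G.E) :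
    (CC N.sh).dg.FinCoh := fin_lat _ G.E rfl N

/-- The cohomology of a coherent bimodule is finite-dimensional. -/
theorem fin_coh [Infinite k] {A B : ASh k} (M : BSh A B) (hM : M.toShf.Coh) :
    (CC M.toShf).dg.FinCoh := by
  obtain ⟨τ, G, N, h, i, p, hex, hc, ht⟩ := exists_dec M hM
  exact hex.cex.fin_mid (tors_finCoh τ hc ht) (fin_gen G N)

/-- The diagonal bimodule. -/
def ASh.diag (A : ASh k) : BSh A A :=
  { A.toShf with
    l := A.mul
    r := fun c => (A.mul c).flip
    l_one := A.one_mul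
    r_one := A.mul_one
    l_mul := A.mul_assoc
    r_mul := fun c b b' m => (A.mul_assoc c m b b').symm
    l_r := fun c a b m => (A.mul_assoc c a m b).symm
    smul_l := A.smul_mul
    smul_r := fun c s b m => A.mul_smul c s m b
    res_l := A.res_mul
    res_r := fun h b m => A.res_mul h m b }

theorem diag_sh (A : ASh k) : A.diag.toShf = A.toShf := rfl

theorem pa_pc (A : ASh k) : A.pa.pc = A.toShf.pc := rfl

theorem diag_pc (A : ASh k) : A.diag.pb.pc = A.pa.pc := rfl

theorem diag_m (A : ASh k) (c : Ch k) (x y : A.M c) : (A.pa.pp.p c).m x y = A.mul c x y := rfl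

theorem diag_l (A : ASh k) (c : Ch k) (x y : A.M c) : (A.diag.pb.pl.p c).m x y = A.mul c x y := rfl


theorem CPr_ext {X Y Z : Cx k} {p p' : CPr X Y Z} (h : ∀ x y, p.m x y = p'.m x y) : p = p' := by
  cases p
  cases p'
  congr 1
  exact LinearMap.ext fun x => LinearMap.ext fun y => h x y

theorem PP_ext {V V' V'' : PC k} {p p' : PP V V' V''}
    (h : ∀ c x y, (p.p c).m x y = (p'.p c).m x y) : p = p' := by
  cases p
  cases p'
  congr 1
  exact funext fun c => CPr_ext (h c)

theorem diag_pl (A : ASh k) : (show PP A.pa.pc A.pa.pc A.pa.pc from A.diag.pb.pl) = A.pa.pp :=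
  PP_ext fun c x y => (diag_l A c x y).trans (diag_m A c x y).symm

theorem diag_pr (A : ASh k) : (show PP A.pa.pc A.pa.pc A.pa.pc from A.diag.pb.pr) = A.pa.pp :=
  PP_ext fun c x y => (diag_m A c x y).symm

theorem diag_ll (A : ASh k) (L : List (LF k)) (c : FS k) (a x : (cA A.pa L c).A) :
    (cB A.diag.pb L c).l a x = (cA A.pa L c).mul a x :=
  congrArg (fun p : PP A.pa.pc A.pa.pc A.pa.pc => ((cP p L).q c).m a x) (diag_pl A)

theorem diag_rr (A : ASh k) (L : List (LF k)) (c : FS k) (a x : (cA A.pa L c).A) :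
    (cB A.diag.pb L c).r a x = (cA A.pa L c).mul x a :=
  congrArg (fun p : PP A.pa.pc A.pa.pc A.pa.pc => ((cP p L).q c).m x a) (diag_pr A)

/-- the identity -/
def diagF (A : ASh k) (L : List (LF k)) (c : FS k) :
    GMap 0 (cB A.diag.pb L c) (MP_6e5bed_ag_NC.diag (cA A.pa L c)) where
  f := (LinearMap.id : (cA A.pa L c).A →ₗ[k] (cA A.pa L c).A)
  deg := fun {i x} hx => by
    rw [add_zero]
    exact hx
  map_l := fun a x => by
    rw [Dg.sp_zero]
    exact diag_ll A L c a x
  map_r := fun b x => diag_rr A L c b x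

/-- the identity -/
def diagG (A : ASh k) (L : List (LF k)) (c : FS k) :
    GMap 0 (MP_6e5bed_ag_NC.diag (cA A.pa L c)) (cB A.diag.pb L c) where
  f := (LinearMap.id : (cA A.pa L c).A →ₗ[k] (cA A.pa L c).A)
  deg := fun {i x} hx => by
    rw [add_zero]
    exact hx
  map_l := fun a x => by
    rw [Dg.sp_zero]
    exact (diag_ll A L c a x).symm
  map_r := fun b x => (diag_rr A L c b x).symm

/-- The Čech bimodule of the diagonal bimodule is the diagonal bimodule. -/
theorem diag_biso (A : ASh k) (L : List (LF k)) (c : FS k) :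
    BIso (cB A.diag.pb L c) (MP_6e5bed_ag_NC.diag (cA A.pa L c)) := by
  refine ⟨diagF A L c, diagG A L c, ?_, fun _ => rfl, fun _ => rfl⟩
  refine LinearMap.ext fun x => ?_
  rw [GMap.dd_apply, sg_zero, one_smul, LinearMap.zero_apply, sub_eq_zero]
  rfl

theorem cA_fin (A : ASh k) (L : List (LF k)) (c : FS k)
    (h : ((cC A.diag.toShf.pc L).X c).dg.FinCoh) : (cA A.pa L c).dg.FinCoh := h

/-- The Čech algebra of a coherent sheaf of algebras is proper. -/
theorem proper_TT [Infinite k] (A : ASh k) (hA : A.toShf.Coh) : Proper (TT A) :=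
  (proper_iff _).2 (cA_fin A _ _ (fin_coh A.diag hA))

/-- The class of the diagonal. -/
theorem one_of_diag {A : ASh k} (hS : Smooth (TT A)) (hp : Proper (TT A))
    {J : Submodule ℚ (K0Q (TT A) (TT A))}
    (h : ∃ h : HasRes (BB A.diag), rcls _ h ∈ J) : K0Q.one hS ∈ J := by
  obtain ⟨hr, hm⟩ := h
  have hb : BIso (BB A.diag) (MP_6e5bed_ag_NC.diag (TT A)) := diag_biso A (FF k) (FS.e k)
  have hd : HasRes (MP_6e5bed_ag_NC.diag (TT A)) := hr.iso hb
  rw [← rcls_diag hS hp hd, ← rcls_iso hb hr hd]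
  exact hm

end Pool.Agent.MP_6e5bed_ag_NS
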