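import Pool.Agent.Lib.MP_6e5bed_ag_NS.Gen

set_option autoImplicit false

/-!
# MP_6e5bed_ag, NC SURFACES: operations on stable lattices (section 4a)
-/

noncomputable section

namespace Pool.Agent.MP_6e5bed_ag_NS

open Pool.Agent.MP_6e5bed_ag_NC

universe u

variable {k : Type u} [Field k] {A B : ASh k}

section aux

variable {E : Type u} [AddCommGroup E] [Module k E] [Module (KK k) E] [IsScalarTower k (KK k) E]

/-- denominators can be cleared -/
theorem LatB_den (N : Lat k E) (c : Ch k) (x : E) : ∃ r : RR k c, r ≠ 0 ∧ r • x ∈ N.N c := by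
  have hx : x ∈ Submodule.span (KK k) (N.N c : Set E) := by
    rw [N.span c]
    exact Submodule.mem_top
  induction hx using Submodule.span_induction with
  | mem y hy =>
    refine ⟨1, one_ne_zero, ?_⟩
    rw [one_smul]
    exact hy
  | zero =>
    refine ⟨1, one_ne_zero, ?_⟩
    rw [smul_zero]
    exact (N.N c).zero_mem
  | add y z _ _ hy hz =>
    obtain ⟨r, hr, h1⟩ := hy
    obtain ⟨t, ht, h2⟩ := hz
    refine ⟨r * t, mul_ne_zero hr ht, ?_⟩
    rw [smul_add]
    refine (N.N c).add_mem ?_ ?_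
    · rw [mul_comm, mul_smul]
      exact (N.N c).smul_mem t h1
    · rw [mul_smul]
      exact (N.N c).smul_mem r h2
  | smul t y _ hy =>
    obtain ⟨r, hr, h1⟩ := hy
    obtain ⟨a, ha, b, hb, hb0, hab⟩ := RR_frac c t
    have hb1 : (⟨b, hb⟩ : RR k c) ≠ 0 := fun h2 => hb0 (congrArg Subtype.val h2)
    refine ⟨⟨b, hb⟩ * r, mul_ne_zero hb1 hr, ?_⟩
    have e : ((⟨b, hb⟩ : RR k c) * r) • t • y = (⟨a, ha⟩ : RR k c) • r • y := by
      subst hab
      rw [Subalgebra.smul_def, Subalgebra.smul_def, Subalgebra.smul_def, Subalgebra.coe_mul,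
        smul_smul, smul_smul]
      congr 1
      change b * (r : KK k) * t = b * t * r
      ring
    rw [e]
    exact (N.N c).smul_mem _ h1

omit [Module k E] [IsScalarTower k (KK k) E] in
theorem LatB_inv {c : Ch k} {r : RR k c} (hr : r ≠ 0) (x : E) {S : Set E}
    (h : r • x ∈ S) : x ∈ Submodule.span (KK k) S := by
  have hr' : (r : KK k) ≠ 0 := fun h1 => hr (Subtype.ext h1)
  have e : x = (r : KK k)⁻¹ • (r • x) := by
    rw [Subalgebra.smul_def, smul_smul, inv_mul_cancel₀ hr', one_smul]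
  rw [e]
  exact Submodule.smul_mem _ _ (Submodule.subset_span h)

/-- a higher power of the denominator -/
theorem LatB_pow (N : Lat k E) {c : Ch k} {g : LF k} (hg : g ∈ c.1) (ℓ : LF k) {x : E} {n m : ℕ}
    (hnm : n ≤ m) (h : (lam k ℓ.1 / lam k g.1) ^ n • x ∈ N.N c) :
    (lam k ℓ.1 / lam k g.1) ^ m • x ∈ N.N c := by
  obtain ⟨t, rfl⟩ := Nat.exists_eq_add_of_le hnm
  rw [add_comm, pow_add, mul_smul]
  exact (N.N c).smul_mem ((⟨lam k ℓ.1 / lam k g.1, lam_mem _ hg⟩ : RR k c) ^ t) h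

end aux

/-- The sheaf of a lattice is coherent. -/
theorem Lat.coh {E : Type u} [AddCommGroup E] [Module k E] [Module (KK k) E]
    [IsScalarTower k (KK k) E] (N : Lat k E) : N.sh.Coh := fun c =>
  Module.Finite.iff_fg.2 (N.fg c)

/-- Sheaf property of lattices: if `x` is a section on all intersections with the coordinate
charts, it is one (`N.loc` and `span_coord`). -/
theorem Lat.glue {E : Type u} [AddCommGroup E] [Module k E] [Module (KK k) E]
    [IsScalarTower k (KK k) E] (N : Lat k E) (c : Ch k) (x : E)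
    (h : ∀ i, x ∈ N.N (c.ins (xx k i))) : x ∈ N.N c := by
  obtain ⟨g, hg⟩ := c.2.1
  have hle : ∀ i, c ≤ c.ins (xx k i) := fun i => Set.subset_insert _ _
  have hn : ∀ i, ∃ n : ℕ, (lam k (xx k i).1 / lam k g.1) ^ n • x ∈ N.N c := fun i =>
    N.loc (hle i) hg (xx k i) le_rfl (h i)
  choose n hn using hn
  set M : ℕ := ∑ i, n i with hM
  have hM' : ∀ i, (lam k (xx k i).1 / lam k g.1) ^ M • x ∈ N.N c := fun i =>
    LatB_pow N hg (xx k i) (Finset.single_le_sum (f := n) (fun _ _ => Nat.zero_le _)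
      (Finset.mem_univ i)) (hn i)
  have hspan := span_coord [xx k 0, xx k 1, xx k 2] (by
    intro i
    fin_cases i <;> simp) c hg
  have hpow := Ideal.span_pow_eq_top _ hspan M
  have hle : Ideal.span ((fun x => x ^ M) ''
      {r : RR k c | ∃ l ∈ [xx k 0, xx k 1, xx k 2], r = quo l.1 hg}) ≤
      (N.N c).comap (LinearMap.toSpanSingleton (RR k c) E x) := by
    rw [Ideal.span_le]
    rintro _ ⟨r, ⟨l, hl, rfl⟩, rfl⟩
    rw [SetLike.mem_coe, Submodule.mem_comap, LinearMap.toSpanSingleton_apply]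
    simp only [List.mem_cons, List.not_mem_nil, or_false] at hl
    rcases hl with rfl | rfl | rfl
    · exact hM' 0
    · exact hM' 1
    · exact hM' 2
  rw [hpow] at hle
  have h1 : (1 : RR k c) ∈ (N.N c).comap (LinearMap.toSpanSingleton (RR k c) E x) :=
    hle Submodule.mem_top
  rw [Submodule.mem_comap, LinearMap.toSpanSingleton_apply, one_smul] at h1
  exact h1

/-- the intersection of two lattices -/
private def LatB_inf {E : Type u} [AddCommGroup E] [Module k E] [Module (KK k) E]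
    [IsScalarTower k (KK k) E] (N N' : Lat k E) : Lat k E where
  N := fun c => N.N c ⊓ N'.N c
  mono := fun h _ hx => ⟨N.mono h hx.1, N'.mono h hx.2⟩
  loc := fun {c d} h {g} hg ℓ hd {x} hx => by
    obtain ⟨n, hn⟩ := N.loc h hg ℓ hd hx.1
    obtain ⟨m, hm⟩ := N'.loc h hg ℓ hd hx.2
    exact ⟨n + m, LatB_pow N hg ℓ (by omega) hn, LatB_pow N' hg ℓ (by omega) hm⟩
  fg := fun c => by
    have := RR_noeth c
    have h1 : IsNoetherian (RR k c) (N.N c) := isNoetherian_of_fg_of_noetherian _ (N.fg c)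
    exact isNoetherian_submodule.1 h1 _ inf_le_left
  span := fun c => by
    rw [eq_top_iff, ← N.span c, Submodule.span_le]
    intro x hx
    obtain ⟨r, hr, h1⟩ := LatB_den N' c x
    exact LatB_inv hr x ⟨(N.N c).smul_mem r hx, h1⟩

/-- The intersection of two stable lattices is one: finitely generated because the rings are
noetherian, spanning because denominators can be cleared (`RR_frac`). -/
theorem lat_inf {G : Gen A B} {N N' : Lat k G.E} (h : G.St N) (h' : G.St N') :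
    ∃ N'' : Lat k G.E, G.St N'' ∧ Lat.le N'' N ∧ Lat.le N'' N' :=
  ⟨LatB_inf N N', ⟨fun c a x hx => ⟨h.l c a x hx.1, h'.l c a x hx.2⟩,
    fun c b x hx => ⟨h.r c b x hx.1, h'.r c b x hx.2⟩⟩, fun _ _ hx => hx.1,
    fun _ _ hx => hx.2⟩

/-! ### quotients of sheaves of bimodules -/

section quo

variable {R : Type u} [CommRing R] [Algebra k R] {M W : Type u} [AddCommGroup M] [Module R M]
  [Module k M] [IsScalarTower k R M] [AddCommGroup W] [Module k W]

private def qlift (P : Submodule R M) (f : M →ₗ[k] W) (h : ∀ x ∈ P, f x = 0) :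
    (M ⧸ P) →ₗ[k] W :=
  ((P.restrictScalars k).liftQ f (fun x hx => h x hx)) ∘ₗ
    (Submodule.Quotient.restrictScalarsEquiv k P).symm.toLinearMap

private theorem qlift_mk (P : Submodule R M) (f : M →ₗ[k] W) (h : ∀ x ∈ P, f x = 0) (x : M) :
    qlift P f h (P.mkQ x) = f x := rfl

private def qmk (k : Type u) [Field k] {R : Type u} [CommRing R] [Algebra k R] {M : Type u}
    [AddCommGroup M] [Module R M] [Module k M] [IsScalarTower k R M] (P : Submodule R M) :
    M →ₗ[k] (M ⧸ P) := P.mkQ.restrictScalars k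

private theorem qmk_eq (P : Submodule R M) (x : M) : qmk k P x = P.mkQ x := rfl

private theorem qmk_surj (P : Submodule R M) : Function.Surjective (qmk k P) :=
  P.mkQ_surjective

private theorem qlift_qmk (P : Submodule R M) (f : M →ₗ[k] W) (h : ∀ x ∈ P, f x = 0) (x : M) :
    qlift P f h (qmk k P x) = f x := rfl

private theorem qmk_zero (P : Submodule R M) {x : M} : qmk k P x = 0 ↔ x ∈ P := by
  rw [qmk_eq, Submodule.mkQ_apply, Submodule.Quotient.mk_eq_zero]

private theorem qmk_smul (P : Submodule R M) (r : R) (x : M) : qmk k P (r • x) = r • qmk k P x :=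
  rfl

end quo

/-- the data for the quotient of a sheaf of bimodules -/
private structure Sb (M : BSh A B) where
  S : ∀ c, Submodule (RR k c) (M.M c)
  res : ∀ {c d : Ch k} (h : c ≤ d), ∀ x ∈ S c, M.res h x ∈ S d
  l : ∀ c a, ∀ x ∈ S c, M.l c a x ∈ S c
  r : ∀ c b, ∀ x ∈ S c, M.r c b x ∈ S c
  inj : ∀ {c d : Ch k} (h : c ≤ d) {g : LF k} (hg : g ∈ c.1) (ℓ : LF k), d ≤ c.ins ℓ →
    ∀ m : M.M c, M.res h m ∈ S d → ∃ n : ℕ, quo ℓ.1 hg ^ n • m ∈ S c

private def Sb.l' {M : BSh A B} (s : Sb M) (c : Ch k) (a : A.M c) :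
    (M.M c ⧸ s.S c) →ₗ[k] (M.M c ⧸ s.S c) :=
  qlift (s.S c) (qmk k (s.S c) ∘ₗ M.l c a) (by
    intro x hx
    rw [LinearMap.comp_apply, qmk_zero]
    exact s.l c a x hx)

private def Sb.r' {M : BSh A B} (s : Sb M) (c : Ch k) (b : B.M c) :
    (M.M c ⧸ s.S c) →ₗ[k] (M.M c ⧸ s.S c) :=
  qlift (s.S c) (qmk k (s.S c) ∘ₗ M.r c b) (by
    intro x hx
    rw [LinearMap.comp_apply, qmk_zero]
    exact s.r c b x hx)

private def Sb.res' {M : BSh A B} (s : Sb M) {c d : Ch k} (h : c ≤ d) :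
    (M.M c ⧸ s.S c) →ₗ[k] (M.M d ⧸ s.S d) :=
  qlift (s.S c) (qmk k (s.S d) ∘ₗ M.res h) (by
    intro x hx
    rw [LinearMap.comp_apply, qmk_zero]
    exact s.res h x hx)

private theorem Sb.l'_mk {M : BSh A B} (s : Sb M) (c : Ch k) (a : A.M c) (x : M.M c) :
    s.l' c a (qmk k (s.S c) x) = qmk k (s.S c) (M.l c a x) := by
  unfold Sb.l'
  rw [qlift_qmk, LinearMap.comp_apply]

private theorem Sb.r'_mk {M : BSh A B} (s : Sb M) (c : Ch k) (a : B.M c) (x : M.M c) :
    s.r' c a (qmk k (s.S c) x) = qmk k (s.S c) (M.r c a x) := by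
  unfold Sb.r'
  rw [qlift_qmk, LinearMap.comp_apply]

private theorem Sb.res'_mk {M : BSh A B} (s : Sb M) {c d : Ch k} (h : c ≤ d) (x : M.M c) :
    s.res' h (qmk k (s.S c) x) = qmk k (s.S d) (M.res h x) := by
  unfold Sb.res'
  rw [qlift_qmk, LinearMap.comp_apply]

/-- the quotient -/
private def Sb.Q {M : BSh A B} (s : Sb M) : BSh A B where
  M := fun c => M.M c ⧸ s.S c
  res := fun {c d} h => s.res' h
  res_smul := fun {c d} h r m => by
    obtain ⟨x, rfl⟩ := qmk_surj (k := k) (s.S c) m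
    rw [← qmk_smul, Sb.res'_mk, Sb.res'_mk, M.res_smul, qmk_smul]
  res_id := fun {c} h m => by
    obtain ⟨x, rfl⟩ := qmk_surj (k := k) (s.S c) m
    rw [Sb.res'_mk, M.res_id]
  res_res := fun {c d e} h h' m => by
    obtain ⟨x, rfl⟩ := qmk_surj (k := k) (s.S c) m
    rw [Sb.res'_mk, Sb.res'_mk, Sb.res'_mk, M.res_res]
  surj := fun {c d} h {g} hg ℓ hd m => by
    obtain ⟨x, rfl⟩ := qmk_surj (k := k) (s.S d) m
    obtain ⟨n, y, hy⟩ := M.surj h hg ℓ hd x
    refine ⟨n, qmk k (s.S c) y, ?_⟩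
    rw [Sb.res'_mk, hy, qmk_smul]
  inj := fun {c d} h {g} hg ℓ hd m hm => by
    obtain ⟨x, rfl⟩ := qmk_surj (k := k) (s.S c) m
    rw [Sb.res'_mk, qmk_zero] at hm
    obtain ⟨n, hn⟩ := s.inj h hg ℓ hd x hm
    refine ⟨n, ?_⟩
    rw [← qmk_smul, qmk_zero]
    exact hn
  l := fun c =>
    { toFun := s.l' c
      map_add' := fun a a' => by
        refine LinearMap.ext fun m => ?_
        obtain ⟨x, rfl⟩ := qmk_surj (k := k) (s.S c) m
        rw [LinearMap.add_apply, Sb.l'_mk, Sb.l'_mk, Sb.l'_mk, map_add, LinearMap.add_apply,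
          map_add]
      map_smul' := fun t a => by
        refine LinearMap.ext fun m => ?_
        obtain ⟨x, rfl⟩ := qmk_surj (k := k) (s.S c) m
        rw [LinearMap.smul_apply, Sb.l'_mk, Sb.l'_mk, map_smul, LinearMap.smul_apply,
          map_smul, RingHom.id_apply] }
  r := fun c =>
    { toFun := s.r' c
      map_add' := fun a a' => by
        refine LinearMap.ext fun m => ?_
        obtain ⟨x, rfl⟩ := qmk_surj (k := k) (s.S c) m
        rw [LinearMap.add_apply, Sb.r'_mk, Sb.r'_mk, Sb.r'_mk, map_add, LinearMap.add_apply,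
          map_add]
      map_smul' := fun t a => by
        refine LinearMap.ext fun m => ?_
        obtain ⟨x, rfl⟩ := qmk_surj (k := k) (s.S c) m
        rw [LinearMap.smul_apply, Sb.r'_mk, Sb.r'_mk, map_smul, LinearMap.smul_apply,
          map_smul, RingHom.id_apply] }
  l_one := fun c m => by
    obtain ⟨x, rfl⟩ := qmk_surj (k := k) (s.S c) m
    change s.l' c (A.one c) (qmk k (s.S c) x) = _
    rw [Sb.l'_mk, M.l_one]
  r_one := fun c m => by
    obtain ⟨x, rfl⟩ := qmk_surj (k := k) (s.S c) m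
    change s.r' c (B.one c) (qmk k (s.S c) x) = _
    rw [Sb.r'_mk, M.r_one]
  l_mul := fun c a a' m => by
    obtain ⟨x, rfl⟩ := qmk_surj (k := k) (s.S c) m
    change s.l' c (A.mul c a a') (qmk k (s.S c) x) = s.l' c a (s.l' c a' (qmk k (s.S c) x))
    rw [Sb.l'_mk, Sb.l'_mk, Sb.l'_mk, M.l_mul]
  r_mul := fun c a a' m => by
    obtain ⟨x, rfl⟩ := qmk_surj (k := k) (s.S c) m
    change s.r' c (B.mul c a a') (qmk k (s.S c) x) = s.r' c a' (s.r' c a (qmk k (s.S c) x))
    rw [Sb.r'_mk, Sb.r'_mk, Sb.r'_mk, M.r_mul]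
  l_r := fun c a b m => by
    obtain ⟨x, rfl⟩ := qmk_surj (k := k) (s.S c) m
    change s.l' c a (s.r' c b (qmk k (s.S c) x)) = s.r' c b (s.l' c a (qmk k (s.S c) x))
    rw [Sb.l'_mk, Sb.r'_mk, Sb.l'_mk, Sb.r'_mk, M.l_r]
  smul_l := fun c t a m => by
    obtain ⟨x, rfl⟩ := qmk_surj (k := k) (s.S c) m
    change s.l' c (t • a) (qmk k (s.S c) x) = t • s.l' c a (qmk k (s.S c) x)
    rw [Sb.l'_mk, Sb.l'_mk, M.smul_l, qmk_smul]
  smul_r := fun c t a m => by
    obtain ⟨x, rfl⟩ := qmk_surj (k := k) (s.S c) m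
    change s.r' c (t • a) (qmk k (s.S c) x) = t • s.r' c a (qmk k (s.S c) x)
    rw [Sb.r'_mk, Sb.r'_mk, M.smul_r, qmk_smul]
  res_l := fun {c d} h a m => by
    obtain ⟨x, rfl⟩ := qmk_surj (k := k) (s.S c) m
    change s.res' h (s.l' c a (qmk k (s.S c) x)) = s.l' d (A.res h a) (s.res' h (qmk k (s.S c) x))
    rw [Sb.l'_mk, Sb.res'_mk, Sb.res'_mk, Sb.l'_mk, M.res_l]
  res_r := fun {c d} h a m => by
    obtain ⟨x, rfl⟩ := qmk_surj (k := k) (s.S c) m
    change s.res' h (s.r' c a (qmk k (s.S c) x)) = s.r' d (B.res h a) (s.res' h (qmk k (s.S c) x))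
    rw [Sb.r'_mk, Sb.res'_mk, Sb.res'_mk, Sb.r'_mk, M.res_r]

/-- the projection -/
private def Sb.p {M : BSh A B} (s : Sb M) : BSH M s.Q where
  f := fun c => qmk k (s.S c)
  smul := fun c r x => qmk_smul _ r x
  nat := fun {c d} h x => s.res'_mk h x
  l := fun c a x => (s.l'_mk c a x).symm
  r := fun c a x => (s.r'_mk c a x).symm

/-- The quotient of two stable lattices is a coherent torsion sheaf. -/
theorem lat_quot {G : Gen A B} {N N' : Lat k G.E} (h : G.St N) (h' : G.St N')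
    (hle : Lat.le N N') : ∃ (Q : BSh A B) (i : BSH (G.sh N h) (G.sh N' h'))
      (p : BSH (G.sh N' h') Q), ShEx i.toShH p.toShH ∧ Q.toShf.Coh ∧ Q.toShf.Tors := by
  let s : Sb (G.sh N' h') :=
    { S := fun c => (N.N c).comap (N'.N c).subtype
      res := fun {c d} h x hx => N.mono h hx
      l := fun c a x hx => h.l c a x.1 hx
      r := fun c b x hx => h.r c b x.1 hx
      inj := fun {c d} hcd {g} hg ℓ hd m hm => by
        obtain ⟨n, hn⟩ := N.loc hcd hg ℓ hd (x := m.1) hm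
        have h2 : (quo ℓ.1 hg ^ n : RR k c) • (m.1 : G.E) ∈ N.N c := by
          rw [Subalgebra.smul_def, SubmonoidClass.coe_pow]
          exact hn
        exact ⟨n, h2⟩ }
  refine ⟨s.Q, ⟨⟨fun c => ⟨⟨fun x => ⟨x.1, hle c x.1 x.2⟩, fun _ _ => rfl⟩, fun _ _ => rfl⟩,
    fun c r x => rfl, fun _ _ => rfl⟩, fun c a x => rfl, fun c b x => rfl⟩, s.p, ?_, ?_, ?_⟩
  · intro c
    refine ⟨?_, ?_, ?_⟩
    · intro x y hxy
      exact Subtype.ext (congrArg (fun z : N'.N c => (z : G.E)) hxy)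
    · exact qmk_surj _
    · intro x
      change qmk k (s.S c) x = 0 ↔ _
      rw [qmk_zero]
      constructor
      · intro hx
        exact ⟨⟨x.1, hx⟩, rfl⟩
      · rintro ⟨y, rfl⟩
        exact y.2
  · intro c
    have h1 : Module.Finite (RR k c) ((G.sh N' h').M c) := Module.Finite.iff_fg.2 (N'.fg c)
    exact Module.Finite.of_surjective (s.S c).mkQ (s.S c).mkQ_surjective
  · intro c m
    obtain ⟨x, rfl⟩ := qmk_surj (k := k) (s.S c) m
    obtain ⟨r, hr, h1⟩ := LatB_den N c x.1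
    refine ⟨r, hr, ?_⟩
    change r • qmk k (s.S c) x = 0
    rw [← qmk_smul, qmk_zero]
    exact h1

end Pool.Agent.MP_6e5bed_ag_NS
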