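import Pool.Agent.Lib.MP_6e5bed_ag_NS.LatB

set_option autoImplicit false

/-!
# MP_6e5bed_ag, NC SURFACES: stable lattices and sub-bimodules (section 4a)
-/

noncomputable section

namespace Pool.Agent.MP_6e5bed_ag_NS

open Pool.Agent.MP_6e5bed_ag_NC

universe u

variable {k : Type u} [Field k] {A B : ASh k}

section aux

variable {E : Type u} [AddCommGroup E] [Module k E] [Module (KK k) E] [IsScalarTower k (KK k) E]

/-- the lattice in a subspace -/
private def LatS_sub (N : Lat k E) (U : Submodule (KK k) E) : Lat k U where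
  N := fun c => (N.N c).comap (U.subtype.restrictScalars (RR k c))
  mono := fun h _ hx => N.mono h hx
  loc := fun {c d} h {g} hg ℓ hd {x} hx => N.loc h hg ℓ hd (x := x.1) hx
  fg := fun c => by
    have := RR_noeth c
    have h1 : IsNoetherian (RR k c) (N.N c) := isNoetherian_of_fg_of_noetherian _ (N.fg c)
    refine Submodule.fg_of_fg_map_injective (U.subtype.restrictScalars (RR k c))
      Subtype.val_injective ?_
    exact isNoetherian_submodule.1 h1 _ (Submodule.map_comap_le _ _)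
  span := fun c => by
    rw [eq_top_iff]
    intro x _
    obtain ⟨r, hr, h1⟩ := LatB_den N c x.1
    exact LatB_inv hr x h1

/-- the lattice in a quotient space -/
private def LatS_quot (N : Lat k E) (U : Submodule (KK k) E) : Lat k (E ⧸ U) where
  N := fun c => (N.N c).map (U.mkQ.restrictScalars (RR k c))
  mono := fun h x hx => by
    obtain ⟨y, hy, rfl⟩ := hx
    exact ⟨y, N.mono h hy, rfl⟩
  loc := fun {c d} h {g} hg ℓ hd {x} hx => by
    obtain ⟨y, hy, rfl⟩ := hx
    obtain ⟨n, hn⟩ := N.loc h hg ℓ hd hy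
    exact ⟨n, _, hn, map_smul U.mkQ _ y⟩
  fg := fun c => (N.fg c).map _
  span := fun c => by
    have h1 : ((N.N c).map (U.mkQ.restrictScalars (RR k c)) : Set (E ⧸ U)) =
        U.mkQ '' (N.N c : Set E) := rfl
    rw [h1, Submodule.span_image, N.span c, Submodule.map_top, Submodule.range_mkQ]

/-- the image of a lattice under an isomorphism -/
private def LatS_map {E' : Type u} [AddCommGroup E'] [Module k E'] [Module (KK k) E']
    [IsScalarTower k (KK k) E'] (N : Lat k E) (f : E ≃ₗ[KK k] E') : Lat k E' where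
  N := fun c => (N.N c).map (f.toLinearMap.restrictScalars (RR k c))
  mono := fun h x hx => by
    obtain ⟨y, hy, rfl⟩ := hx
    exact ⟨y, N.mono h hy, rfl⟩
  loc := fun {c d} h {g} hg ℓ hd {x} hx => by
    obtain ⟨y, hy, rfl⟩ := hx
    obtain ⟨n, hn⟩ := N.loc h hg ℓ hd hy
    exact ⟨n, _, hn, map_smul f _ y⟩
  fg := fun c => (N.fg c).map _
  span := fun c => by
    have h1 : ((N.N c).map (f.toLinearMap.restrictScalars (RR k c)) : Set E') =
        f.toLinearMap '' (N.N c : Set E) := rfl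
    rw [h1, Submodule.span_image, N.span c, Submodule.map_top, LinearMap.range_eq_top]
    exact f.surjective

end aux

/-- A stable lattice induces stable lattices in a sub-bimodule (intersection) and in the quotient
(image), with an exact sequence. -/
theorem lat_sub {G : Gen A B} {N : Lat k G.E} (h : G.St N) (U : Submodule (KK k) G.E)
    (hU : G.Stab U) : ∃ (N' : Lat k (G.sub U hU).E) (h' : (G.sub U hU).St N')
      (N'' : Lat k (G.quot U hU).E) (h'' : (G.quot U hU).St N'')
      (i : BSH ((G.sub U hU).sh N' h') (G.sh N h)) (p : BSH (G.sh N h) ((G.quot U hU).sh N'' h'')),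
      ShEx i.toShH p.toShH := by
  refine ⟨LatS_sub N U, ⟨fun c a x hx => h.l c a x.1 hx, fun c b x hx => h.r c b x.1 hx⟩,
    LatS_quot N U, ⟨?_, ?_⟩, ⟨⟨fun c => ⟨⟨fun x => ⟨x.1.1, x.2⟩, fun _ _ => rfl⟩,
      fun _ _ => rfl⟩, fun c r x => rfl, fun _ _ => rfl⟩, fun c a x => rfl, fun c b x => rfl⟩,
    ⟨⟨fun c => ⟨⟨fun x => ⟨U.mkQ x.1, x.1, x.2, rfl⟩, fun _ _ => rfl⟩,
      fun _ _ => rfl⟩, fun c r x => rfl, fun _ _ => rfl⟩, fun c a x => rfl, fun c b x => rfl⟩,
    ?_⟩
  · rintro c a _ ⟨y, hy, rfl⟩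
    exact ⟨G.l c a y, h.l c a y hy, rfl⟩
  · rintro c a _ ⟨y, hy, rfl⟩
    exact ⟨G.r c a y, h.r c a y hy, rfl⟩
  · intro c
    refine ⟨?_, ?_, ?_⟩
    · intro x y hxy
      exact Subtype.ext (Subtype.ext (congrArg (fun z : N.N c => (z : G.E)) hxy))
    · rintro ⟨_, y, hy, rfl⟩
      exact ⟨⟨y, hy⟩, rfl⟩
    · intro x
      constructor
      · intro hx
        have h1 : U.mkQ x.1 = 0 := congrArg
          (fun z : (LatS_quot N U).N c => (z : G.E ⧸ U)) hx
        rw [Submodule.mkQ_apply, Submodule.Quotient.mk_eq_zero] at h1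
        exact ⟨⟨⟨x.1, h1⟩, x.2⟩, rfl⟩
      · rintro ⟨y, rfl⟩
        apply Subtype.ext
        change U.mkQ y.1.1 = 0
        rw [Submodule.mkQ_apply, Submodule.Quotient.mk_eq_zero]
        exact y.1.2

/-- Transport of stable lattices along isomorphisms. -/
theorem lat_iso {G G' : Gen A B} (e : G.Iso G') {N : Lat k G.E} (h : G.St N) :
    ∃ (N' : Lat k G'.E) (h' : G'.St N') (i : BSH (G.sh N h) (G'.sh N' h')),
      ∀ c, Function.Bijective (i.f c) := by
  obtain ⟨f, hl, hr⟩ := e
  refine ⟨LatS_map N f, ⟨?_, ?_⟩, ⟨⟨fun c => ⟨⟨fun x => ⟨f x.1, x.1, x.2, rfl⟩, fun x y => ?_⟩,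
    fun t x => ?_⟩, fun c r x => ?_, fun _ _ => rfl⟩, fun c a x => ?_, fun c b x => ?_⟩, ?_⟩
  · rintro c a _ ⟨y, hy, rfl⟩
    exact ⟨G.l c a y, h.l c a y hy, hl c a y⟩
  · rintro c a _ ⟨y, hy, rfl⟩
    exact ⟨G.r c a y, h.r c a y hy, hr c a y⟩
  · exact Subtype.ext (map_add f x.1 y.1)
  · exact Subtype.ext (LinearMap.map_smul_of_tower f.toLinearMap t x.1)
  · exact Subtype.ext (map_smul f (r : KK k) x.1)
  · exact Subtype.ext (hl c a x.1)
  · exact Subtype.ext (hr c b x.1)
  · intro c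
    constructor
    · intro x y hxy
      exact Subtype.ext (f.injective (congrArg (fun z : (LatS_map N f).N c => (z : G'.E)) hxy))
    · rintro ⟨_, y, hy, rfl⟩
      exact ⟨⟨y, hy⟩, rfl⟩

end Pool.Agent.MP_6e5bed_ag_NS
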