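import Pool.Agent.Lib.MP_6e5bed_ag_NS.TorM
import Pool.Agent.Lib.MP_6e5bed_ag_NS.LatB
import Pool.Agent.Lib.MP_6e5bed_ag_NS.LatS
import Pool.Agent.Lib.MP_6e5bed_ag_NS.AcB
import Pool.Agent.Lib.MP_6e5bed_ag_NS.Ex

set_option autoImplicit false

/-!
# MP_6e5bed_ag, NC SURFACES: the cohomology of lattices is finite-dimensional (section 4e)
-/

noncomputable section

namespace Pool.Agent.MP_6e5bed_ag_NS

open Pool.Agent.MP_6e5bed_ag_NC

universe u

variable {k : Type u} [Field k]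

/-! ### Short exact sequences of complexes -/

section ses

variable {X Y Z : Cx k} (i : CHom X Y) (p : CHom Y Z)

/-- short exact sequences -/
def CEx (i : CHom X Y) (p : CHom Y Z) : Prop := Function.Injective i.f ∧
  Function.Surjective p.f ∧ ∀ x, p.f x = 0 ↔ ∃ y, i.f y = x

variable {i p}

theorem CEx.fin_mid (h : CEx i p) (hX : X.dg.FinCoh) (hZ : Z.dg.FinCoh) : Y.dg.FinCoh := by
  obtain ⟨h1, h2, h3⟩ := h
  refine finCoh_exact (X := X.dg) (Y := Y.dg) (Z := Z.dg) i.f p.f ?_ ?_ ?_ ?_ ?_ hX hZ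
  · intro x hx
    rw [i.d, hx, map_zero]
  · exact fun u => ⟨i.f u, i.d u⟩
  · intro y hy
    rw [p.d, hy, map_zero]
  · exact fun v => ⟨p.f v, p.d v⟩
  · rintro y hy ⟨w, hw⟩
    obtain ⟨v, rfl⟩ := h2 w
    obtain ⟨x, hx⟩ := (h3 (y - Y.dg.d v)).1 (by rw [map_sub, ← hw, p.d, sub_self])
    refine ⟨x, h1 ?_, v, by rw [hx, sub_add_cancel]⟩
    rw [← i.d, hx, map_sub, hy, Y.dg.d_d, sub_zero, map_zero]

/-- the connecting map -/
theorem CEx.delta (h : CEx i p) : ∃ (s : Z.V →ₗ[k] Y.V) (δ : Z.V →ₗ[k] X.V),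
    (∀ z, p.f (s z) = z) ∧ ∀ z, i.f (δ z) = Y.dg.d (s z) - s (Z.dg.d z) := by
  obtain ⟨h1, h2, h3⟩ := h
  obtain ⟨s, hs⟩ := LinearMap.exists_rightInverse_of_surjective p.f (LinearMap.range_eq_top.2 h2)
  obtain ⟨j, hj⟩ := LinearMap.exists_leftInverse_of_injective i.f (LinearMap.ker_eq_bot.2 h1)
  have hs' : ∀ z, p.f (s z) = z := fun z => LinearMap.congr_fun hs z
  refine ⟨s, j ∘ₗ (Y.dg.d ∘ₗ s - s ∘ₗ Z.dg.d), hs', fun z => ?_⟩
  obtain ⟨x, hx⟩ := (h3 (Y.dg.d (s z) - s (Z.dg.d z))).1 (by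
    rw [map_sub, ← p.d, hs', hs', sub_self])
  change i.f (j (Y.dg.d (s z) - s (Z.dg.d z))) = _
  rw [← hx]
  exact congrArg i.f (LinearMap.congr_fun hj x)

theorem CEx.fin_left (h : CEx i p) (hY : Y.dg.FinCoh) (hZ : Z.dg.FinCoh) : X.dg.FinCoh := by
  obtain ⟨s, δ, hs, hδ⟩ := h.delta
  obtain ⟨h1, h2, h3⟩ := h
  refine finCoh_exact (X := Z.dg) (Y := X.dg) (Z := Y.dg) δ i.f ?_ ?_ ?_ ?_ ?_ hZ hY
  · intro z hz
    refine h1 ?_
    rw [← i.d, hδ, hz, map_zero, sub_zero, Y.dg.d_d, map_zero]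
  · intro z
    refine ⟨-δ z, h1 ?_⟩
    rw [← i.d, map_neg, hδ, hδ, map_neg, map_sub, Y.dg.d_d, Z.dg.d_d, map_zero, sub_zero,
      zero_sub, neg_neg]
  · intro x hx
    rw [i.d, hx, map_zero]
  · exact fun v => ⟨i.f v, i.d v⟩
  · rintro x hx ⟨w, hw⟩
    have hz : Z.dg.d (p.f w) = 0 := by
      rw [p.d, hw]
      exact (h3 _).2 ⟨x, rfl⟩
    obtain ⟨y, hy⟩ := (h3 (w - s (p.f w))).1 (by rw [map_sub, hs, sub_self])
    refine ⟨p.f w, hz, y, h1 ?_⟩
    rw [map_add, hδ, hz, map_zero, sub_zero, ← i.d, hy, map_sub, hw]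
    abel

theorem CEx.fin_right (h : CEx i p) (hX : X.dg.FinCoh) (hY : Y.dg.FinCoh) : Z.dg.FinCoh := by
  obtain ⟨s, δ, hs, hδ⟩ := h.delta
  obtain ⟨h1, h2, h3⟩ := h
  refine finCoh_exact (X := Y.dg) (Y := Z.dg) (Z := X.dg) p.f δ ?_ ?_ ?_ ?_ ?_ hY hX
  · intro y hy
    rw [p.d, hy, map_zero]
  · exact fun v => ⟨p.f v, p.d v⟩
  · intro z hz
    refine h1 ?_
    rw [← i.d, hδ, hz, map_zero, sub_zero, Y.dg.d_d, map_zero]
  · intro z
    refine ⟨-δ z, h1 ?_⟩
    rw [← i.d, map_neg, hδ, hδ, map_neg, map_sub, Y.dg.d_d, Z.dg.d_d, map_zero, sub_zero,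
      zero_sub, neg_neg]
  · rintro z hz ⟨w, hw⟩
    refine ⟨s z - i.f w, ?_, 0, ?_⟩
    · rw [map_sub, i.d, hw, hδ, hz, map_zero, sub_zero, sub_self]
    · rw [map_sub, hs, (h3 _).2 ⟨w, rfl⟩, sub_zero, map_zero, add_zero]

end ses

/-! ### Exact sequences of sheaves -/

/-- the map of Čech complexes -/
def ShH.cc {M N : Shf k} (f : ShH M N) : CHom (CC M) (CC N) := (cH f.pch (FF k)).g (FS.e k)

theorem ShEx.cex {M' M M'' : Shf k} {i : ShH M' M} {p : ShH M M''} (h : ShEx i p) :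
    CEx i.cc p.cc :=
  ⟨cH_inj i.pch (fun c => (h c).1) _ _, cH_surj p.pch (fun c => (h c).2.1) _ _,
    fun x => cH_exact i.pch p.pch (fun c => (h c).2.2) _ _ x⟩

theorem cC_sub {V : PC k} (h : ∀ c, Subsingleton (V.X c).V) : ∀ (L : List (LF k)) (c : FS k),
    Subsingleton ((cC V L).X c).V
  | [], _ => (inferInstance : Subsingleton PUnit.{u + 1})
  | l :: L, c => by
    have h0 := cC_sub h L c
    have h1 := h (c.ins l)
    have h2 := cC_sub h L (c.ins l).fs
    exact (inferInstance : Subsingleton ((((cC V L).X c).V × (V.X (c.ins l)).V) ×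
      ((cC V L).X (c.ins l).fs).V))

theorem fin_bij {M N : Shf k} (f : ShH M N) (h : ∀ c, Function.Bijective (f.f c)) :
    (CC M).dg.FinCoh ↔ (CC N).dg.FinCoh :=
  CHom.QI.finCoh (f := f.cc) (CHom.QI.of_bij ⟨cH_inj f.pch (fun c => (h c).1) _ _,
    cH_surj f.pch (fun c => (h c).2) _ _⟩)

/-! ### Lattices -/

section

variable {A B : ASh k}

/-- Two stable lattices one of which contains the other. -/
theorem fin_le [Infinite k] {G : Gen A B} {N N' : Lat k G.E} (h : G.St N) (h' : G.St N')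
    (hle : Lat.le N N') : (CC N.sh).dg.FinCoh ↔ (CC N'.sh).dg.FinCoh := by
  obtain ⟨Q, i, p, hex, hc, ht⟩ := lat_quot h h' hle
  have hq := tors_finCoh Q hc ht
  exact ⟨fun h1 => hex.cex.fin_mid h1 hq, fun h1 => hex.cex.fin_left h1 hq⟩

/-- Two stable lattices in the same generic bimodule. -/
theorem fin_two [Infinite k] {G : Gen A B} {N N' : Lat k G.E} (h : G.St N) (h' : G.St N') :
    (CC N.sh).dg.FinCoh ↔ (CC N'.sh).dg.FinCoh := by
  obtain ⟨N'', h'', h1, h2⟩ := lat_inf h h'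
  exact (fin_le h'' h h1).symm.trans (fin_le h'' h' h2)

end

/-- An isomorphism of vector spaces. -/
theorem Gen.ofE_iso (E E' : Type u) [AddCommGroup E] [Module k E] [Module (KK k) E]
    [IsScalarTower k (KK k) E] [FiniteDimensional (KK k) E] [AddCommGroup E'] [Module k E']
    [Module (KK k) E'] [IsScalarTower k (KK k) E'] [FiniteDimensional (KK k) E']
    (f : E ≃ₗ[KK k] E') : (Gen.ofE (k := k) E).Iso (Gen.ofE (k := k) E') :=
  ⟨f, fun c a x => map_smul f ((show RR k c from a) : KK k) x,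
    fun c a x => map_smul f ((show RR k c from a) : KK k) x⟩

/-- The cohomology of a lattice is finite-dimensional. -/
theorem fin_lat [Infinite k] : ∀ (n : ℕ) (E : Type u) [AddCommGroup E] [Module k E]
    [Module (KK k) E] [IsScalarTower k (KK k) E] [FiniteDimensional (KK k) E],
    Module.finrank (KK k) E = n → ∀ N : Lat k E, (CC N.sh).dg.FinCoh := by
  intro n
  induction n using Nat.strong_induction_on with
  | _ n ih =>
    intro E _ _ _ _ _ hn N
    by_cases h0 : n = 0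
    · have hs : Subsingleton E := by
        subst h0
        exact Module.finrank_zero_iff.1 hn
      have h1 : Subsingleton (CC N.sh).V := cC_sub (V := N.sh.pc)
        (fun c => (inferInstance : Subsingleton (N.N c))) (FF k) (FS.e k)
      exact Cx.Acyc.finCoh (fun x _ => ⟨0, Subsingleton.elim _ _⟩)
    · obtain ⟨e, he⟩ : ∃ e : E, e ≠ 0 := by
        by_contra hcon
        push Not at hcon
        have hs : Subsingleton E := ⟨fun x y => by rw [hcon x, hcon y]⟩
        exact h0 (hn.symm.trans (Module.finrank_zero_iff.2 hs))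
      have hU1 : Module.finrank (KK k) (Submodule.span (KK k) {e}) = 1 :=
        finrank_span_singleton he
      by_cases h1 : n = 1
      · obtain ⟨f⟩ : Nonempty (KK k ≃ₗ[KK k] E) :=
          FiniteDimensional.nonempty_linearEquiv_of_finrank_eq
            (by rw [Module.finrank_self, hn, h1])
        obtain ⟨N', h', i, hi⟩ := lat_iso (Gen.ofE_iso (KK k) E f)
          (Gen.ofE_st (KK k) ((OL k).tw (-1)))
        have h2 : (CC N'.sh).dg.FinCoh := (fin_bij i.toShH hi).1 (acyc_O k).finCoh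
        exact (fin_two h' (Gen.ofE_st E N)).1 h2
      · have hU : (Gen.ofE (k := k) E).Stab (Submodule.span (KK k) {e}) :=
          ⟨fun c a x hx => Submodule.smul_mem _ _ hx, fun c a x hx => Submodule.smul_mem _ _ hx⟩
        obtain ⟨N', h', N'', h'', i, p, hex⟩ := lat_sub (Gen.ofE_st E N) _ hU
        have hsum := Submodule.finrank_quotient_add_finrank (Submodule.span (KK k) {e})
        have hq : Module.finrank (KK k) (E ⧸ Submodule.span (KK k) {e}) = n - 1 := by omega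
        have ih1 : ∀ G : Gen (OSh k) (OSh k), Module.finrank (KK k) G.E = 1 →
            ∀ N : Lat k G.E, (CC N.sh).dg.FinCoh := fun G => ih 1 (by omega) G.E
        have ih2 : ∀ G : Gen (OSh k) (OSh k), Module.finrank (KK k) G.E = n - 1 →
            ∀ N : Lat k G.E, (CC N.sh).dg.FinCoh := fun G => ih (n - 1) (by omega) G.E
        have h2 : (CC N'.sh).dg.FinCoh :=
          ih1 ((Gen.ofE (k := k) E).sub _ hU) hU1 N'
        have h3 : (CC N''.sh).dg.FinCoh :=
          ih2 ((Gen.ofE (k := k) E).quot _ hU) hq N''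
        exact hex.cex.fin_mid h2 h3

end Pool.Agent.MP_6e5bed_ag_NS
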