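import Pool.Agent.Lib.MP_6e5bed_ag_NS.Lam

set_option autoImplicit false

/-!
# MP_6e5bed_ag, NC SURFACES: the coordinate rings of the charts, continued (section 2a)
-/

noncomputable section

namespace Pool.Agent.MP_6e5bed_ag_NS

universe u

variable {k : Type u} [Field k]

private theorem LamR_single (i : Fin 3) : lam k (Pi.single i 1) = uu k i := by
  unfold lam
  rw [Finset.sum_eq_single i]
  · rw [Pi.single_eq_same, one_smul]
  · intro j _ hj
    rw [Pi.single_eq_of_ne hj, zero_smul]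
  · intro h
    exact absurd (Finset.mem_univ i) h

private theorem LamR_div (ℓ : Fin 3 → k) (w : KK k) :
    lam k ℓ / w = ∑ i, ℓ i • (uu k i / w) := by
  unfold lam
  rw [Finset.sum_div]
  refine Finset.sum_congr rfl fun i _ => ?_
  rw [smul_div_assoc]

private theorem LamR_inv {c : Ch k} {g : LF k} (hg : g ∈ c.1) :
    (lam k g.1)⁻¹ ∈ RR k c := by
  have h := lam_mem (c := c) (Pi.single (0 : Fin 3) (1 : k)) hg
  rw [LamR_single] at h
  have h1 : uu k 0 = 1 := rfl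
  rwa [h1, one_div] at h

private theorem LamR_poly {c : Ch k} {g : LF k} (hg : g ∈ c.1) (P : MvPolynomial (Fin 2) k) :
    ∃ n : ℕ, algebraMap (MvPolynomial (Fin 2) k) (KK k) P * (lam k g.1)⁻¹ ^ n ∈ RR k c := by
  have hi := LamR_inv hg
  induction P using MvPolynomial.induction_on with
  | C a =>
    refine ⟨0, ?_⟩
    rw [pow_zero, mul_one]
    have h1 : algebraMap (MvPolynomial (Fin 2) k) (KK k) (MvPolynomial.C a) =
        algebraMap k (KK k) a := by
      rw [IsScalarTower.algebraMap_apply k (MvPolynomial (Fin 2) k) (KK k)]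
      rfl
    rw [h1]
    exact (RR k c).algebraMap_mem a
  | add p q hp hq =>
    obtain ⟨n, hn⟩ := hp
    obtain ⟨m, hm⟩ := hq
    refine ⟨n + m, ?_⟩
    have h1 : algebraMap (MvPolynomial (Fin 2) k) (KK k) (p + q) * (lam k g.1)⁻¹ ^ (n + m) =
        (algebraMap (MvPolynomial (Fin 2) k) (KK k) p * (lam k g.1)⁻¹ ^ n) *
          (lam k g.1)⁻¹ ^ m +
        (algebraMap (MvPolynomial (Fin 2) k) (KK k) q * (lam k g.1)⁻¹ ^ m) *
          (lam k g.1)⁻¹ ^ n := by
      rw [map_add, pow_add]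
      ring
    rw [h1]
    exact (RR k c).add_mem ((RR k c).mul_mem hn ((RR k c).pow_mem hi m))
      ((RR k c).mul_mem hm ((RR k c).pow_mem hi n))
  | mul_X p i hp =>
    obtain ⟨n, hn⟩ := hp
    refine ⟨n + 1, ?_⟩
    have h1 : algebraMap (MvPolynomial (Fin 2) k) (KK k) (p * MvPolynomial.X i) *
        (lam k g.1)⁻¹ ^ (n + 1) =
        (algebraMap (MvPolynomial (Fin 2) k) (KK k) p * (lam k g.1)⁻¹ ^ n) *
        (algebraMap (MvPolynomial (Fin 2) k) (KK k) (MvPolynomial.X i) / lam k g.1) := by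
      rw [map_mul, pow_succ, div_eq_mul_inv]
      ring
    rw [h1]
    refine (RR k c).mul_mem hn ?_
    have h2 : algebraMap (MvPolynomial (Fin 2) k) (KK k) (MvPolynomial.X i) = uu k i.succ := by
      fin_cases i <;> rfl
    rw [h2, ← LamR_single]
    exact lam_mem _ hg

/-- The coordinate ring of the intersection of two charts is spanned by the products. -/
theorem RR_sup (c d : Ch k) : Subalgebra.toSubmodule (RR k (c.sup d)) =
    Subalgebra.toSubmodule (RR k c) * Subalgebra.toSubmodule (RR k d) := by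
  rw [Subalgebra.mul_toSubmodule]
  congr 1
  unfold RR
  rw [← Algebra.adjoin_union]
  congr 1
  ext r
  constructor
  · rintro ⟨ℓ, g, hg, hr⟩
    rcases hg with hg | hg
    · exact Or.inl ⟨ℓ, g, hg, hr⟩
    · exact Or.inr ⟨ℓ, g, hg, hr⟩
  · rintro (⟨ℓ, g, hg, hr⟩ | ⟨ℓ, g, hg, hr⟩)
    · exact ⟨ℓ, g, Or.inl hg, hr⟩
    · exact ⟨ℓ, g, Or.inr hg, hr⟩

/-- The coordinate rings are finitely generated algebras: they are generated by the `x_i / g`. -/
theorem RR_ft (c : Ch k) : Algebra.FiniteType k (RR k c) := by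
  rw [← Subalgebra.fg_iff_finiteType, Subalgebra.fg_def]
  refine ⟨(fun p : Fin 3 × LF k => uu k p.1 / lam k p.2.1) '' (Set.univ ×ˢ c.1),
    (Set.finite_univ.prod c.2.2).image _, ?_⟩
  apply le_antisymm
  · apply Algebra.adjoin_mono
    rintro _ ⟨⟨i, g⟩, ⟨_, hg⟩, rfl⟩
    exact ⟨Pi.single i 1, g, hg, by rw [LamR_single]⟩
  · apply Algebra.adjoin_le
    rintro _ ⟨ℓ, g, hg, rfl⟩
    rw [LamR_div]
    refine Subalgebra.sum_mem _ fun i _ => Subalgebra.smul_mem _ ?_ _
    exact Algebra.subset_adjoin ⟨(i, g), ⟨Set.mem_univ i, hg⟩, rfl⟩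

theorem RR_noeth (c : Ch k) : IsNoetherianRing (RR k c) := by
  have := RR_ft c
  exact Algebra.FiniteType.isNoetherianRing k (RR k c)

/-- Localisation: `r` in `R_d`, `c ⊆ d ⊆ c ∪ ℓ`, then `(ℓ / g) ^ n r` is in `R_c` for some `n`. -/
theorem RR_loc {c d : Ch k} (h : c ≤ d) {g : LF k} (hg : g ∈ c.1) (ℓ : LF k)
    (hd : d ≤ c.ins ℓ) {r : KK k} (hr : r ∈ RR k d) :
    ∃ n : ℕ, (lam k ℓ.1 / lam k g.1) ^ n * r ∈ RR k c := by
  have hq : lam k ℓ.1 / lam k g.1 ∈ RR k c := lam_mem _ hg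
  induction hr using Algebra.adjoin_induction with
  | mem x hx =>
    obtain ⟨m, g', hg', rfl⟩ := hx
    rcases hd hg' with h1 | h1
    · refine ⟨1, ?_⟩
      rw [h1, pow_one]
      have h2 := lam_ne_zero ℓ
      have h3 : lam k ℓ.1 / lam k g.1 * (lam k m / lam k ℓ.1) = lam k m / lam k g.1 := by
        field_simp
      rw [h3]
      exact lam_mem _ hg
    · refine ⟨0, ?_⟩
      rw [pow_zero, one_mul]
      exact lam_mem _ h1
  | algebraMap a =>
    refine ⟨0, ?_⟩
    rw [pow_zero, one_mul]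
    exact (RR k c).algebraMap_mem a
  | add x y _ _ hx hy =>
    obtain ⟨n, hn⟩ := hx
    obtain ⟨m, hm⟩ := hy
    refine ⟨n + m, ?_⟩
    have h1 : (lam k ℓ.1 / lam k g.1) ^ (n + m) * (x + y) =
        (lam k ℓ.1 / lam k g.1) ^ m * ((lam k ℓ.1 / lam k g.1) ^ n * x) +
        (lam k ℓ.1 / lam k g.1) ^ n * ((lam k ℓ.1 / lam k g.1) ^ m * y) := by
      rw [pow_add]
      ring
    rw [h1]
    exact (RR k c).add_mem ((RR k c).mul_mem ((RR k c).pow_mem hq m) hn)
      ((RR k c).mul_mem ((RR k c).pow_mem hq n) hm)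
  | mul x y _ _ hx hy =>
    obtain ⟨n, hn⟩ := hx
    obtain ⟨m, hm⟩ := hy
    refine ⟨n + m, ?_⟩
    have h1 : (lam k ℓ.1 / lam k g.1) ^ (n + m) * (x * y) =
        ((lam k ℓ.1 / lam k g.1) ^ n * x) * ((lam k ℓ.1 / lam k g.1) ^ m * y) := by
      rw [pow_add]
      ring
    rw [h1]
    exact (RR k c).mul_mem hn hm

/-- `K` is the field of fractions. -/
theorem RR_frac (c : Ch k) (x : KK k) : ∃ a ∈ RR k c, ∃ b ∈ RR k c, b ≠ 0 ∧ b * x = a := by
  obtain ⟨g, hg⟩ := c.2.1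
  obtain ⟨P, Q, hQ, rfl⟩ := IsFractionRing.div_surjective (A := MvPolynomial (Fin 2) k) x
  have hi := LamR_inv hg
  obtain ⟨n, hn⟩ := LamR_poly hg P
  obtain ⟨m, hm⟩ := LamR_poly hg Q
  have hQ' : algebraMap (MvPolynomial (Fin 2) k) (KK k) Q ≠ 0 := by
    intro h
    exact nonZeroDivisors.ne_zero hQ ((IsFractionRing.injective (MvPolynomial (Fin 2) k) (KK k))
      (by rw [h, map_zero]))
  refine ⟨_, (RR k c).mul_mem hn ((RR k c).pow_mem hi m), _,
    (RR k c).mul_mem hm ((RR k c).pow_mem hi n), ?_, ?_⟩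
  · exact mul_ne_zero (mul_ne_zero hQ' (pow_ne_zero _ (inv_ne_zero (lam_ne_zero g))))
      (pow_ne_zero _ (inv_ne_zero (lam_ne_zero g)))
  · field_simp

end Pool.Agent.MP_6e5bed_ag_NS
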