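import Pool.Agent.Lib.MP_6e5bed_ag_NS.Sh
import Pool.Agent.Lib.MP_6e5bed_ag_NS.LamR

set_option autoImplicit false
set_option linter.unusedVariables false

/-!
# MP_6e5bed_ag, NC SURFACES: bimodules over the generic point, stable lattices (section 4)
-/

noncomputable section

namespace Pool.Agent.MP_6e5bed_ag_NS

open Pool.Agent.MP_6e5bed_ag_NC
open scoped TensorProduct

universe u

variable {k : Type u} [Field k]

/-- A finite-dimensional `A`-`B`-bimodule over the function field `K`: commuting actions of the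
sections of `A` (left) and `B` (right) on all charts, compatible with restrictions, such that
functions act through `K`. -/
structure Gen (A B : ASh k) where
  E : Type u
  [grp : AddCommGroup E]
  [mod : Module k E]
  [modK : Module (KK k) E]
  [tow : IsScalarTower k (KK k) E]
  [fin : FiniteDimensional (KK k) E]
  l : ∀ c, A.M c →ₗ[k] E →ₗ[KK k] E
  r : ∀ c, B.M c →ₗ[k] E →ₗ[KK k] E
  l_one : ∀ c x, l c (A.one c) x = x
  r_one : ∀ c x, r c (B.one c) x = x
  l_mul : ∀ c a a' x, l c (A.mul c a a') x = l c a (l c a' x)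
  r_mul : ∀ c b b' x, r c (B.mul c b b') x = r c b' (r c b x)
  l_r : ∀ c a b x, l c a (r c b x) = r c b (l c a x)
  smul_l : ∀ c (s : RR k c) a x, l c (s • a) x = (s : KK k) • l c a x
  smul_r : ∀ c (s : RR k c) b x, r c (s • b) x = (s : KK k) • r c b x
  res_l : ∀ {c d : Ch k} (h : c ≤ d) a x, l d (A.res h a) x = l c a x
  res_r : ∀ {c d : Ch k} (h : c ≤ d) b x, r d (B.res h b) x = r c b x

attribute [instance] Gen.grp Gen.mod Gen.modK Gen.tow Gen.fin

section lat

variable {E : Type u} [AddCommGroup E] [Module k E] [Module (KK k) E] [IsScalarTower k (KK k) E]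

theorem lat_smul (N : Lat k E) {c d : Ch k} (h : c ≤ d) (r : RR k c) (m : N.N c) :
    (⟨(r • m).1, N.mono h (r • m).2⟩ : N.N d) = rinc h r • (⟨m.1, N.mono h m.2⟩ : N.N d) := by
  refine Subtype.ext ?_
  rw [Submodule.coe_smul, Submodule.coe_smul, Subalgebra.smul_def, Subalgebra.smul_def, rinc_coe]

theorem lat_inj (N : Lat k E) {c d : Ch k} (h : c ≤ d) (m : N.N c)
    (hm : (⟨m.1, N.mono h m.2⟩ : N.N d) = 0) : m = 0 := by
  have h1 : m.1 = 0 := by
    have h2 := congrArg Subtype.val hm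
    rw [Submodule.coe_zero] at h2
    exact h2
  exact Subtype.ext h1

theorem lat_surj (N : Lat k E) {c d : Ch k} (h : c ≤ d) {g : LF k} (hg : g ∈ c.1) (ℓ : LF k)
    (hd : d ≤ c.ins ℓ) (m : N.N d) : ∃ (n : ℕ) (m' : N.N c),
      (⟨m'.1, N.mono h m'.2⟩ : N.N d) = quo ℓ.1 (h hg) ^ n • m := by
  obtain ⟨n, hn⟩ := N.loc h hg ℓ hd m.2
  refine ⟨n, ⟨_, hn⟩, Subtype.ext ?_⟩
  rw [Submodule.coe_smul, Subalgebra.smul_def, SubmonoidClass.coe_pow]
  rfl

/-- the sheaf of a lattice -/
def Lat.sh (N : Lat k E) : Shf k where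
  M := fun c => N.N c
  res := fun {c d} h =>
    { toFun := fun x => ⟨x.1, N.mono h x.2⟩
      map_add' := fun _ _ => rfl
      map_smul' := fun _ _ => rfl }
  res_smul := fun h r m => lat_smul N h r m
  res_id := fun _ _ => rfl
  res_res := fun _ _ _ => rfl
  surj := fun {c d} h {g} hg ℓ hd m => lat_surj N h hg ℓ hd m
  inj := fun {c d} h {g} hg ℓ hd m hm => ⟨0, by
    rw [pow_zero, one_smul]
    exact lat_inj N h m hm⟩

/-- inclusion of lattices -/
def Lat.le (N N' : Lat k E) : Prop := ∀ c x, x ∈ N.N c → x ∈ N'.N c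

private theorem Gen_quo_zpow {c : Ch k} {g g' : LF k} (hg : g ∈ c.1) (hg' : g' ∈ c.1) (e : ℤ) :
    (lam k g'.1 / lam k g.1) ^ e ∈ RR k c := by
  rcases Int.eq_nat_or_neg e with ⟨n, rfl | rfl⟩
  · rw [zpow_natCast]
    exact (RR k c).pow_mem (lam_mem _ hg) n
  · rw [zpow_neg, zpow_natCast, ← inv_pow, inv_div]
    exact (RR k c).pow_mem (lam_mem _ hg') n

omit [Module k E] [IsScalarTower k (KK k) E] in
private theorem Gen_smul_mem {c : Ch k} (P : Submodule (RR k c) E) {r : KK k} (hr : r ∈ RR k c)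
    {x : E} (hx : x ∈ P) : r • x ∈ P := by
  have h1 := P.smul_mem (⟨r, hr⟩ : RR k c) hx
  rwa [Subalgebra.smul_def] at h1

private theorem Gen_tw_iff (N : Lat k E) (d : ℤ) {c : Ch k} {g : LF k} (hg : g ∈ c.1) (x : E) :
    (∀ g ∈ c.1, lam k g.1 ^ (-d) • x ∈ N.N c) ↔ lam k g.1 ^ (-d) • x ∈ N.N c := by
  constructor
  · intro h
    exact h g hg
  · intro h g' hg'
    have h1 : lam k g'.1 ^ (-d) • x =
        ((lam k g'.1 / lam k g.1) ^ (-d)) • (lam k g.1 ^ (-d) • x) := by
      rw [smul_smul, ← mul_zpow, div_mul_cancel₀ _ (lam_ne_zero g)]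
    rw [h1]
    exact Gen_smul_mem _ (Gen_quo_zpow hg hg' _) h

/-- The twist: `N(d) = λ_g ^ d N` on a chart `c`, `g ∈ c`. -/
def Lat.tw (N : Lat k E) (d : ℤ) : Lat k E where
  N := fun c =>
    { carrier := {x | ∀ g ∈ c.1, lam k g.1 ^ (-d) • x ∈ N.N c}
      add_mem' := fun {x y} hx hy g hg => by
        rw [smul_add]
        exact (N.N c).add_mem (hx g hg) (hy g hg)
      zero_mem' := fun g hg => by
        rw [smul_zero]
        exact (N.N c).zero_mem
      smul_mem' := fun r x hx g hg => by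
        have h1 := (N.N c).smul_mem r (hx g hg)
        have h2 : lam k g.1 ^ (-d) • r • x = r • lam k g.1 ^ (-d) • x :=
          smul_comm (lam k g.1 ^ (-d)) (r : KK k) x
        rw [h2]
        exact h1 }
  mono := fun {c c'} h x hx => by
    obtain ⟨g, hg⟩ := c.2.1
    exact (Gen_tw_iff N d (h hg) x).mpr (N.mono h (hx g hg))
  loc := fun {c c'} h {g} hg ℓ hd {x} hx => by
    obtain ⟨n, hn⟩ := N.loc h hg ℓ hd (hx g (h hg))
    refine ⟨n, (Gen_tw_iff N d hg _).mpr ?_⟩
    rw [smul_comm (lam k g.1 ^ (-d)) ((lam k ℓ.1 / lam k g.1) ^ n) x]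
    exact hn
  fg := fun c => by
    obtain ⟨g, hg⟩ := c.2.1
    let f : E →ₗ[RR k c] E :=
      { toFun := fun x => lam k g.1 ^ d • x
        map_add' := fun x y => smul_add _ x y
        map_smul' := fun r x => smul_comm (lam k g.1 ^ d) (r : KK k) x }
    have h1 := (N.fg c).map f
    refine (congrArg Submodule.FG (Submodule.ext fun x => ?_)).mp h1
    have h0 : lam k g.1 ^ d ≠ 0 := zpow_ne_zero d (lam_ne_zero g)
    constructor
    · rintro ⟨y, hy, rfl⟩
      refine (Gen_tw_iff N d hg _).mpr ?_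
      change lam k g.1 ^ (-d) • lam k g.1 ^ d • y ∈ N.N c
      rw [smul_smul, zpow_neg, inv_mul_cancel₀ h0, one_smul]
      exact hy
    · intro hx
      refine ⟨lam k g.1 ^ (-d) • x, hx g hg, ?_⟩
      change lam k g.1 ^ d • lam k g.1 ^ (-d) • x = x
      rw [smul_smul, zpow_neg, mul_inv_cancel₀ h0, one_smul]
  span := fun c => by
    obtain ⟨g, hg⟩ := c.2.1
    have h0 : lam k g.1 ^ d ≠ 0 := zpow_ne_zero d (lam_ne_zero g)
    rw [eq_top_iff, ← N.span c, Submodule.span_le]
    intro y hy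
    have h1 : y = lam k g.1 ^ (-d) • (lam k g.1 ^ d • y) := by
      rw [smul_smul, zpow_neg, inv_mul_cancel₀ h0, one_smul]
    rw [h1]
    refine Submodule.smul_mem _ _ (Submodule.subset_span ((Gen_tw_iff N d hg _).mpr ?_))
    rw [smul_smul, zpow_neg, inv_mul_cancel₀ h0, one_smul]
    exact hy

theorem Lat.mem_tw (N : Lat k E) (d : ℤ) {c : Ch k} {g : LF k} (hg : g ∈ c.1) (x : E) :
    x ∈ (N.tw d).N c ↔ lam k g.1 ^ (-d) • x ∈ N.N c :=
  Gen_tw_iff N d hg x

private theorem Gen_lam_xx (i : Fin 3) : lam k (xx k i).1 = uu k i := by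
  unfold lam xx
  rw [Finset.sum_eq_single i]
  · change (Pi.single i 1 : Fin 3 → k) i • uu k i = uu k i
    rw [Pi.single_eq_same, one_smul]
  · intro j _ hj
    change (Pi.single i 1 : Fin 3 → k) j • uu k j = 0
    rw [Pi.single_eq_of_ne hj, zero_smul]
  · intro h
    exact absurd (Finset.mem_univ i) h

/-- multiplication by the coordinate `x_j`, from `N(d)` to `N(d+1)` -/
theorem Lat.tw_mul (N : Lat k E) {d d' : ℤ} (h : d + 1 = d') (j : Fin 3) {c : Ch k} {x : E}
    (hx : x ∈ (N.tw d).N c) : uu k j • x ∈ (N.tw d').N c := by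
  obtain ⟨g, hg⟩ := c.2.1
  have h0 := lam_ne_zero g
  rw [N.mem_tw d hg] at hx
  rw [N.mem_tw d' hg]
  have h1 : lam k g.1 ^ (-d') • uu k j • x =
      (lam k (xx k j).1 / lam k g.1) • (lam k g.1 ^ (-d) • x) := by
    rw [smul_smul, smul_smul, Gen_lam_xx, ← h]
    congr 1
    rw [neg_add, zpow_add₀ h0, zpow_neg_one]
    ring
  rw [h1]
  exact Gen_smul_mem _ (lam_mem _ hg) hx

theorem Lat.tw_zero (N : Lat k E) (c : Ch k) (x : E) : x ∈ (N.tw 0).N c ↔ x ∈ N.N c := by
  obtain ⟨g, hg⟩ := c.2.1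
  rw [N.mem_tw 0 hg, neg_zero, zpow_zero, one_smul]

variable {E' : Type u} [AddCommGroup E'] [Module k E'] [Module (KK k) E']
  [IsScalarTower k (KK k) E']

private theorem Gen_quo_mem {c : Ch k} {g g' : LF k} (hg : g ∈ c.1) :
    lam k g'.1 / lam k g.1 ∈ RR k c := lam_mem _ hg

private theorem Gen_tens_mono (N : Lat k E) (N' : Lat k E') {c d : Ch k} (h : c ≤ d)
    {z : E ⊗[KK k] E'}
    (hz : z ∈ Submodule.span (RR k c) {z | ∃ x ∈ N.N c, ∃ y ∈ N'.N c, z = x ⊗ₜ[KK k] y}) :
    z ∈ Submodule.span (RR k d) {z | ∃ x ∈ N.N d, ∃ y ∈ N'.N d, z = x ⊗ₜ[KK k] y} := by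
  induction hz using Submodule.span_induction with
  | mem z hz =>
    obtain ⟨x, hx, y, hy, rfl⟩ := hz
    exact Submodule.subset_span ⟨x, N.mono h hx, y, N'.mono h hy, rfl⟩
  | zero => exact Submodule.zero_mem _
  | add z w _ _ hz hw => exact Submodule.add_mem _ hz hw
  | smul r z _ hz =>
    rw [Subalgebra.smul_def]
    exact Gen_smul_mem _ (RR_mono h r.2) hz

private theorem Gen_tens_loc (N : Lat k E) (N' : Lat k E') {c d : Ch k} (h : c ≤ d) {g : LF k}
    (hg : g ∈ c.1) (ℓ : LF k) (hd : d ≤ c.ins ℓ) {z : E ⊗[KK k] E'}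
    (hz : z ∈ Submodule.span (RR k d) {z | ∃ x ∈ N.N d, ∃ y ∈ N'.N d, z = x ⊗ₜ[KK k] y}) :
    ∃ n : ℕ, (lam k ℓ.1 / lam k g.1) ^ n • z ∈
      Submodule.span (RR k c) {z | ∃ x ∈ N.N c, ∃ y ∈ N'.N c, z = x ⊗ₜ[KK k] y} := by
  have hq : lam k ℓ.1 / lam k g.1 ∈ RR k c := lam_mem _ hg
  induction hz using Submodule.span_induction with
  | mem z hz =>
    obtain ⟨x, hx, y, hy, rfl⟩ := hz
    obtain ⟨n, hn⟩ := N.loc h hg ℓ hd hx
    obtain ⟨m, hm⟩ := N'.loc h hg ℓ hd hy
    refine ⟨n + m, Submodule.subset_span ⟨_, hn, _, hm, ?_⟩⟩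
    rw [TensorProduct.smul_tmul_smul, pow_add]
  | zero =>
    refine ⟨0, ?_⟩
    rw [smul_zero]
    exact Submodule.zero_mem _
  | add z w _ _ hz hw =>
    obtain ⟨n, hn⟩ := hz
    obtain ⟨m, hm⟩ := hw
    refine ⟨n + m, ?_⟩
    rw [smul_add]
    refine Submodule.add_mem _ ?_ ?_
    · rw [pow_add, mul_comm, mul_smul]
      exact Gen_smul_mem _ ((RR k c).pow_mem hq m) hn
    · rw [pow_add, mul_smul]
      exact Gen_smul_mem _ ((RR k c).pow_mem hq n) hm
  | smul r z _ hz =>
    obtain ⟨n, hn⟩ := RR_loc h hg ℓ hd r.2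
    obtain ⟨m, hm⟩ := hz
    refine ⟨n + m, ?_⟩
    have h1 : (lam k ℓ.1 / lam k g.1) ^ (n + m) • r • z =
        ((lam k ℓ.1 / lam k g.1) ^ n * (r : KK k)) • ((lam k ℓ.1 / lam k g.1) ^ m • z) := by
      rw [Subalgebra.smul_def, smul_smul, smul_smul, pow_add]
      congr 1
      ring
    rw [h1]
    exact Gen_smul_mem _ hn hm

private def Gen_mk (c : Ch k) : E →ₗ[RR k c] E' →ₗ[RR k c] (E ⊗[KK k] E') :=
  LinearMap.mk₂ (RR k c) (fun x y => x ⊗ₜ[KK k] y)
    (fun x x' y => TensorProduct.add_tmul x x' y)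
    (fun r x y => by
      rw [Subalgebra.smul_def, Subalgebra.smul_def, TensorProduct.smul_tmul'])
    (fun x y y' => TensorProduct.tmul_add x y y')
    (fun r x y => by
      rw [Subalgebra.smul_def, Subalgebra.smul_def, TensorProduct.tmul_smul])

private theorem Gen_tens_fg (N : Lat k E) (N' : Lat k E') (c : Ch k) :
    (Submodule.span (RR k c)
      {z : E ⊗[KK k] E' | ∃ x ∈ N.N c, ∃ y ∈ N'.N c, z = x ⊗ₜ[KK k] y}).FG := by
  have h1 := (N.fg c).map₂ (Gen_mk (E := E) (E' := E') c) (N'.fg c)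
  have h2 : Submodule.map₂ (Gen_mk (E := E) (E' := E') c) (N.N c) (N'.N c) =
      Submodule.span (RR k c)
      {z : E ⊗[KK k] E' | ∃ x ∈ N.N c, ∃ y ∈ N'.N c, z = x ⊗ₜ[KK k] y} := by
    rw [Submodule.map₂_eq_span_image2]
    congr 1
    ext z
    constructor
    · rintro ⟨x, hx, y, hy, rfl⟩
      exact ⟨x, hx, y, hy, rfl⟩
    · rintro ⟨x, hx, y, hy, rfl⟩
      exact ⟨x, hx, y, hy, rfl⟩
  rw [← h2]
  exact h1

private theorem Gen_tens_span (N : Lat k E) (N' : Lat k E') (c : Ch k) :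
    Submodule.span (KK k) ((Submodule.span (RR k c)
      {z : E ⊗[KK k] E' | ∃ x ∈ N.N c, ∃ y ∈ N'.N c, z = x ⊗ₜ[KK k] y} :
        Submodule (RR k c) (E ⊗[KK k] E')) : Set (E ⊗[KK k] E')) = ⊤ := by
  have h1 : Submodule.map₂ (TensorProduct.mk (KK k) E E') ⊤ ⊤ = ⊤ :=
    TensorProduct.map₂_mk_top_top_eq_top (KK k) E E'
  rw [← N.span c, ← N'.span c, Submodule.map₂_span_span] at h1
  rw [eq_top_iff, ← h1, Submodule.span_le]
  rintro _ ⟨x, hx, y, hy, rfl⟩
  exact Submodule.subset_span (Submodule.subset_span ⟨x, hx, y, hy, rfl⟩)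

/-- The product lattice: the span of the products. -/
def Lat.tens (N : Lat k E) (N' : Lat k E') : Lat k (E ⊗[KK k] E') where
  N := fun c => Submodule.span (RR k c)
    {z | ∃ x ∈ N.N c, ∃ y ∈ N'.N c, z = x ⊗ₜ[KK k] y}
  mono := fun h z hz => Gen_tens_mono N N' h hz
  loc := fun {c d} h {g} hg ℓ hd {z} hz => Gen_tens_loc N N' h hg ℓ hd hz
  fg := fun c => Gen_tens_fg N N' c
  span := fun c => Gen_tens_span N N' c

private theorem Gen_loc_set (N : Lat k E) (a : Ch k) {s : Set (LF k)} (hs : s.Finite) :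
    ∀ d : Ch k, d.1 = s ∪ a.1 → ∀ x ∈ N.N d, ∃ r ∈ RR k d, ∃ x' ∈ N.N a, x = r • x' := by
  induction s, hs using Set.Finite.induction_on with
  | empty =>
    intro d hd x hx
    rw [Set.empty_union] at hd
    have h1 : d = a := Subtype.ext hd
    subst h1
    exact ⟨1, (RR k d).one_mem, x, hx, (one_smul _ x).symm⟩
  | @insert ℓ s _ hs ih =>
    intro d hd x hx
    obtain ⟨g, hg⟩ := a.2.1
    let c : Ch k := ⟨s ∪ a.1, ⟨g, Or.inr hg⟩, hs.union a.2.2⟩
    have hcd : c ≤ d := by
      change s ∪ a.1 ⊆ d.1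
      rw [hd]
      exact Set.union_subset_union_left _ (Set.subset_insert ℓ s)
    have hdc : d ≤ c.ins ℓ := by
      change d.1 ⊆ insert ℓ (s ∪ a.1)
      rw [hd, Set.insert_union]
    have hℓ : ℓ ∈ d.1 := by
      rw [hd]
      exact Or.inl (Set.mem_insert ℓ s)
    obtain ⟨n, hn⟩ := N.loc hcd (Or.inr hg : g ∈ c.1) ℓ hdc hx
    obtain ⟨r, hr, x', hx', h1⟩ := ih c rfl _ hn
    have h0 := lam_ne_zero g
    have h0' := lam_ne_zero ℓ
    refine ⟨(lam k g.1 / lam k ℓ.1) ^ n * r, (RR k d).mul_mem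
      ((RR k d).pow_mem (lam_mem _ hℓ) n) (RR_mono hcd hr), x', hx', ?_⟩
    rw [mul_smul, ← h1, smul_smul, ← mul_pow]
    have h2 : lam k g.1 / lam k ℓ.1 * (lam k ℓ.1 / lam k g.1) = 1 := by
      field_simp
    rw [h2, one_pow, one_smul]

private theorem Gen_loc_le (N : Lat k E) {a d : Ch k} (h : a ≤ d) {x : E} (hx : x ∈ N.N d) :
    ∃ r ∈ RR k d, ∃ x' ∈ N.N a, x = r • x' :=
  Gen_loc_set N a d.2.2 d (Set.union_eq_left.mpr h).symm x hx

/-- The product lattice on the intersection of two charts is spanned over `k` by the products of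
sections on the two charts. -/
theorem Lat.mem_tens (N : Lat k E) (N' : Lat k E') {a b d : Ch k} (ha : a ≤ d) (hb : b ≤ d)
    (hd : d.1 ⊆ a.1 ∪ b.1) (z : E ⊗[KK k] E') : z ∈ (N.tens N').N d ↔
      z ∈ Submodule.span k {z | ∃ x ∈ N.N a, ∃ y ∈ N'.N b, z = x ⊗ₜ[KK k] y} := by
  constructor
  · intro hz
    -- the span is closed under the functions on `a` and on `b`
    have ha' : ∀ r ∈ RR k a, ∀ z ∈ Submodule.span k
        {z : E ⊗[KK k] E' | ∃ x ∈ N.N a, ∃ y ∈ N'.N b, z = x ⊗ₜ[KK k] y},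
        r • z ∈ Submodule.span k {z | ∃ x ∈ N.N a, ∃ y ∈ N'.N b, z = x ⊗ₜ[KK k] y} := by
      intro r hr z hz
      induction hz using Submodule.span_induction with
      | mem z hz =>
        obtain ⟨x, hx, y, hy, rfl⟩ := hz
        exact Submodule.subset_span ⟨r • x, Gen_smul_mem _ hr hx, y, hy, rfl⟩
      | zero =>
        rw [smul_zero]
        exact Submodule.zero_mem _
      | add z w _ _ hz hw =>
        rw [smul_add]
        exact Submodule.add_mem _ hz hw
      | smul t z _ hz =>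
        rw [← algebraMap_smul (KK k) t z, smul_comm, algebraMap_smul]
        exact Submodule.smul_mem _ _ hz
    have hb' : ∀ r ∈ RR k b, ∀ z ∈ Submodule.span k
        {z : E ⊗[KK k] E' | ∃ x ∈ N.N a, ∃ y ∈ N'.N b, z = x ⊗ₜ[KK k] y},
        r • z ∈ Submodule.span k {z | ∃ x ∈ N.N a, ∃ y ∈ N'.N b, z = x ⊗ₜ[KK k] y} := by
      intro r hr z hz
      induction hz using Submodule.span_induction with
      | mem z hz =>
        obtain ⟨x, hx, y, hy, rfl⟩ := hz
        exact Submodule.subset_span ⟨x, hx, r • y, Gen_smul_mem _ hr hy,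
          (TensorProduct.tmul_smul r x y).symm⟩
      | zero =>
        rw [smul_zero]
        exact Submodule.zero_mem _
      | add z w _ _ hz hw =>
        rw [smul_add]
        exact Submodule.add_mem _ hz hw
      | smul t z _ hz =>
        rw [← algebraMap_smul (KK k) t z, smul_comm, algebraMap_smul]
        exact Submodule.smul_mem _ _ hz
    have hd' : ∀ r ∈ RR k d, ∀ z ∈ Submodule.span k
        {z : E ⊗[KK k] E' | ∃ x ∈ N.N a, ∃ y ∈ N'.N b, z = x ⊗ₜ[KK k] y},
        r • z ∈ Submodule.span k {z | ∃ x ∈ N.N a, ∃ y ∈ N'.N b, z = x ⊗ₜ[KK k] y} := by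
      intro r hr z hz
      have h1 : RR k d ≤ RR k (a.sup b) := RR_mono hd
      have h2 : r ∈ Subalgebra.toSubmodule (RR k (a.sup b)) := h1 hr
      rw [RR_sup] at h2
      clear hr
      induction h2 using Submodule.mul_induction_on' with
      | mem_mul_mem r hr s hs =>
        rw [mul_smul]
        exact ha' r hr _ (hb' s hs z hz)
      | add r _ s _ hr hs =>
        rw [add_smul]
        exact Submodule.add_mem _ hr hs
    have hz1 : z ∈ Submodule.span (RR k d)
        {z : E ⊗[KK k] E' | ∃ x ∈ N.N d, ∃ y ∈ N'.N d, z = x ⊗ₜ[KK k] y} := hz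
    clear hz
    induction hz1 using Submodule.span_induction with
    | mem z hz =>
      obtain ⟨x, hx, y, hy, rfl⟩ := hz
      obtain ⟨r, hr, x', hx', rfl⟩ := Gen_loc_le N ha hx
      obtain ⟨s, hs, y', hy', rfl⟩ := Gen_loc_le N' hb hy
      rw [TensorProduct.smul_tmul_smul]
      exact hd' _ ((RR k d).mul_mem hr hs) _ (Submodule.subset_span ⟨x', hx', y', hy', rfl⟩)
    | zero => exact Submodule.zero_mem _
    | add z w _ _ hz hw => exact Submodule.add_mem _ hz hw
    | smul r z _ hz =>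
      rw [Subalgebra.smul_def]
      exact hd' r r.2 z hz
  · intro hz
    change z ∈ Submodule.span (RR k d)
      {z : E ⊗[KK k] E' | ∃ x ∈ N.N d, ∃ y ∈ N'.N d, z = x ⊗ₜ[KK k] y}
    induction hz using Submodule.span_induction with
    | mem z hz =>
      obtain ⟨x, hx, y, hy, rfl⟩ := hz
      exact Submodule.subset_span ⟨x, N.mono ha hx, y, N'.mono hb hy, rfl⟩
    | zero => exact Submodule.zero_mem _
    | add z w _ _ hz hw => exact Submodule.add_mem _ hz hw
    | smul t z _ hz =>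
      rw [← algebraMap_smul (KK k) t z]
      exact Gen_smul_mem _ ((RR k d).algebraMap_mem t) hz

private theorem Gen_st_l (N : Lat k E) (N' : Lat k E') (c : Ch k) (f : E →ₗ[KK k] E)
    (hf : ∀ x ∈ N.N c, f x ∈ N.N c) {z : E ⊗[KK k] E'} (hz : z ∈ (N.tens N').N c) :
    f.rTensor E' z ∈ (N.tens N').N c := by
  have hz1 : z ∈ Submodule.span (RR k c)
      {z : E ⊗[KK k] E' | ∃ x ∈ N.N c, ∃ y ∈ N'.N c, z = x ⊗ₜ[KK k] y} := hz
  change f.rTensor E' z ∈ Submodule.span (RR k c)
      {z : E ⊗[KK k] E' | ∃ x ∈ N.N c, ∃ y ∈ N'.N c, z = x ⊗ₜ[KK k] y}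
  clear hz
  induction hz1 using Submodule.span_induction with
  | mem z hz =>
    obtain ⟨x, hx, y, hy, rfl⟩ := hz
    exact Submodule.subset_span ⟨_, hf x hx, y, hy, LinearMap.rTensor_tmul _ _ _ _⟩
  | zero =>
    rw [map_zero]
    exact Submodule.zero_mem _
  | add z w _ _ hz hw =>
    rw [map_add]
    exact Submodule.add_mem _ hz hw
  | smul r z _ hz =>
    rw [Subalgebra.smul_def, map_smul]
    exact Gen_smul_mem _ r.2 hz

private theorem Gen_st_r (N : Lat k E) (N' : Lat k E') (c : Ch k) (f : E' →ₗ[KK k] E')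
    (hf : ∀ y ∈ N'.N c, f y ∈ N'.N c) {z : E ⊗[KK k] E'} (hz : z ∈ (N.tens N').N c) :
    f.lTensor E z ∈ (N.tens N').N c := by
  have hz1 : z ∈ Submodule.span (RR k c)
      {z : E ⊗[KK k] E' | ∃ x ∈ N.N c, ∃ y ∈ N'.N c, z = x ⊗ₜ[KK k] y} := hz
  change f.lTensor E z ∈ Submodule.span (RR k c)
      {z : E ⊗[KK k] E' | ∃ x ∈ N.N c, ∃ y ∈ N'.N c, z = x ⊗ₜ[KK k] y}
  clear hz
  induction hz1 using Submodule.span_induction with
  | mem z hz =>
    obtain ⟨x, hx, y, hy, rfl⟩ := hz
    exact Submodule.subset_span ⟨x, hx, _, hf y hy, LinearMap.lTensor_tmul _ _ _ _⟩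
  | zero =>
    rw [map_zero]
    exact Submodule.zero_mem _
  | add z w _ _ hz hw =>
    rw [map_add]
    exact Submodule.add_mem _ hz hw
  | smul r z _ hz =>
    rw [Subalgebra.smul_def, map_smul]
    exact Gen_smul_mem _ r.2 hz

end lat

variable {A B C D : ASh k}

namespace Gen

/-- `N` is stable under both actions. -/
structure St (G : Gen A B) (N : Lat k G.E) : Prop where
  l : ∀ c a, ∀ x ∈ N.N c, G.l c a x ∈ N.N c
  r : ∀ c b, ∀ x ∈ N.N c, G.r c b x ∈ N.N c

/-- the sheaf of bimodules of a stable lattice -/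
def sh (G : Gen A B) (N : Lat k G.E) (h : G.St N) : BSh A B :=
  { Lat.sh N with
    l := fun c => LinearMap.mk₂ k (fun (a : A.M c) (x : N.N c) =>
        (⟨G.l c a x.1, h.l c a x.1 x.2⟩ : N.N c))
      (fun a a' x => Subtype.ext (LinearMap.congr_fun (map_add (G.l c) a a') x.1))
      (fun s a x => Subtype.ext (LinearMap.congr_fun (map_smul (G.l c) s a) x.1))
      (fun a x x' => Subtype.ext (map_add (G.l c a) x.1 x'.1))
      (fun s a x => Subtype.ext (LinearMap.map_smul_of_tower (G.l c a) s x.1))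
    r := fun c => LinearMap.mk₂ k (fun (b : B.M c) (x : N.N c) =>
        (⟨G.r c b x.1, h.r c b x.1 x.2⟩ : N.N c))
      (fun a a' x => Subtype.ext (LinearMap.congr_fun (map_add (G.r c) a a') x.1))
      (fun s a x => Subtype.ext (LinearMap.congr_fun (map_smul (G.r c) s a) x.1))
      (fun a x x' => Subtype.ext (map_add (G.r c a) x.1 x'.1))
      (fun s a x => Subtype.ext (LinearMap.map_smul_of_tower (G.r c a) s x.1))
    l_one := fun c x => Subtype.ext (G.l_one c x.1)
    r_one := fun c x => Subtype.ext (G.r_one c x.1)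
    l_mul := fun c a a' x => Subtype.ext (G.l_mul c a a' x.1)
    r_mul := fun c a a' x => Subtype.ext (G.r_mul c a a' x.1)
    l_r := fun c a b x => Subtype.ext (G.l_r c a b x.1)
    smul_l := fun c s a x => Subtype.ext (G.smul_l c s a x.1)
    smul_r := fun c s a x => Subtype.ext (G.smul_r c s a x.1)
    res_l := fun h a x => Subtype.ext (G.res_l h a x.1).symm
    res_r := fun h a x => Subtype.ext (G.res_r h a x.1).symm }

/-- sub-bimodules -/
def Stab (G : Gen A B) (U : Submodule (KK k) G.E) : Prop :=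
  (∀ c a, ∀ x ∈ U, G.l c a x ∈ U) ∧ ∀ c b, ∀ x ∈ U, G.r c b x ∈ U

/-- The sub-bimodule. -/
def sub (G : Gen A B) (U : Submodule (KK k) G.E) (hU : G.Stab U) : Gen A B where
  E := U
  l := fun c => LinearMap.mk₂' k (KK k) (fun a x => ⟨G.l c a x.1, hU.1 c a x.1 x.2⟩)
    (fun a a' v => Subtype.ext (by simp)) (fun c a v => Subtype.ext (by simp))
    (fun a v v' => Subtype.ext (by simp)) (fun c a v => Subtype.ext (by simp))
  r := fun c => LinearMap.mk₂' k (KK k) (fun b x => ⟨G.r c b x.1, hU.2 c b x.1 x.2⟩)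
    (fun a a' v => Subtype.ext (by simp)) (fun c a v => Subtype.ext (by simp))
    (fun a v v' => Subtype.ext (by simp)) (fun c a v => Subtype.ext (by simp))
  l_one := fun c v => Subtype.ext (G.l_one c v.1)
  r_one := fun c v => Subtype.ext (G.r_one c v.1)
  l_mul := fun c a a' v => Subtype.ext (G.l_mul c a a' v.1)
  r_mul := fun c a a' v => Subtype.ext (G.r_mul c a a' v.1)
  l_r := fun c a b v => Subtype.ext (G.l_r c a b v.1)
  smul_l := fun c s a v => Subtype.ext (G.smul_l c s a v.1)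
  smul_r := fun c s a v => Subtype.ext (G.smul_r c s a v.1)
  res_l := fun h a v => Subtype.ext (G.res_l h a v.1)
  res_r := fun h a v => Subtype.ext (G.res_r h a v.1)

/-- The quotient bimodule. -/
def quot (G : Gen A B) (U : Submodule (KK k) G.E) (hU : G.Stab U) : Gen A B where
  E := G.E ⧸ U
  l := fun c =>
    { toFun := fun a => U.mapQ U (G.l c a) (fun x hx => hU.1 c a x hx)
      map_add' := fun a a' => by ext x; simp
      map_smul' := fun c a => by ext x; simp }
  r := fun c =>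
    { toFun := fun a => U.mapQ U (G.r c a) (fun x hx => hU.2 c a x hx)
      map_add' := fun a a' => by ext x; simp
      map_smul' := fun c a => by ext x; simp }
  l_one := fun c v => by
    obtain ⟨v, rfl⟩ := U.mkQ_surjective v
    simp [G.l_one]
  r_one := fun c v => by
    obtain ⟨v, rfl⟩ := U.mkQ_surjective v
    simp [G.r_one]
  l_mul := fun c a a' v => by
    obtain ⟨v, rfl⟩ := U.mkQ_surjective v
    simp [G.l_mul]
  r_mul := fun c a a' v => by
    obtain ⟨v, rfl⟩ := U.mkQ_surjective v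
    simp [G.r_mul]
  l_r := fun c a b v => by
    obtain ⟨v, rfl⟩ := U.mkQ_surjective v
    simp [G.l_r]
  smul_l := fun c s a v => by
    obtain ⟨v, rfl⟩ := U.mkQ_surjective v
    simp [G.smul_l]
  smul_r := fun c s a v => by
    obtain ⟨v, rfl⟩ := U.mkQ_surjective v
    simp [G.smul_r]
  res_l := fun h a v => by
    obtain ⟨v, rfl⟩ := U.mkQ_surjective v
    simp [G.res_l]
  res_r := fun h a v => by
    obtain ⟨v, rfl⟩ := U.mkQ_surjective v
    simp [G.res_r]

/-- Isomorphism. -/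
def Iso (G G' : Gen A B) : Prop := ∃ f : G.E ≃ₗ[KK k] G'.E,
  (∀ c a x, f (G.l c a x) = G'.l c a (f x)) ∧ ∀ c b x, f (G.r c b x) = G'.r c b (f x)

/-- `G` has no sub-bimodules except `0` and `G`, which are different. -/
def Simple (G : Gen A B) : Prop := Nontrivial G.E ∧
  ∀ U : Submodule (KK k) G.E, G.Stab U → U = ⊥ ∨ U = ⊤

/-- The subalgebra of `End_K(E)` generated by the left and right multiplications. -/
def Lm (G : Gen A B) : Subalgebra (KK k) (Module.End (KK k) G.E) :=
  Algebra.adjoin (KK k) ({f | ∃ c a, f = G.l c a} ∪ {f | ∃ c b, f = G.r c b})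

/-- The centre of the bimodule is `K`: the only elements of the algebra generated by the left and
right multiplications which commute with all of them are the scalars. -/
def Central (G : Gen A B) : Prop := ∀ f ∈ G.Lm, (∀ c a, f * G.l c a = G.l c a * f) →
  (∀ c b, f * G.r c b = G.r c b * f) → ∃ s : KK k, f = s • 1

/-- The tensor product over `K`, with the left action of the first and the right action of the
second factor. -/
def tens (G : Gen A B) (G' : Gen C D) : Gen A D where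
  E := G.E ⊗[KK k] G'.E
  l := fun c =>
    { toFun := fun a => (G.l c a).rTensor G'.E
      map_add' := fun a a' => by rw [map_add, LinearMap.rTensor_add]
      map_smul' := fun s a => by
        refine TensorProduct.ext' fun x y => ?_
        change (G.l c (s • a) x) ⊗ₜ[KK k] y = s • ((G.l c a x) ⊗ₜ[KK k] y)
        rw [map_smul, LinearMap.smul_apply, TensorProduct.smul_tmul'] }
  r := fun c =>
    { toFun := fun b => (G'.r c b).lTensor G.E
      map_add' := fun a a' => by rw [map_add, LinearMap.lTensor_add]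
      map_smul' := fun s b => by
        refine TensorProduct.ext' fun x y => ?_
        change x ⊗ₜ[KK k] (G'.r c (s • b) y) = s • (x ⊗ₜ[KK k] (G'.r c b y))
        rw [map_smul, LinearMap.smul_apply, ← IsScalarTower.algebraMap_smul (KK k) s,
          ← IsScalarTower.algebraMap_smul (KK k) s, TensorProduct.tmul_smul] }
  l_one := fun c v => by
    have h1 : G.l c (A.one c) = LinearMap.id := LinearMap.ext (G.l_one c)
    change (G.l c (A.one c)).rTensor G'.E v = v
    rw [h1, LinearMap.rTensor_id, LinearMap.id_apply]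
  r_one := fun c v => by
    have h1 : G'.r c (D.one c) = LinearMap.id := LinearMap.ext (G'.r_one c)
    change (G'.r c (D.one c)).lTensor G.E v = v
    rw [h1, LinearMap.lTensor_id, LinearMap.id_apply]
  l_mul := fun c a a' v => by
    have h1 : G.l c (A.mul c a a') = G.l c a ∘ₗ G.l c a' := LinearMap.ext (G.l_mul c a a')
    change (G.l c (A.mul c a a')).rTensor G'.E v =
      (G.l c a).rTensor G'.E ((G.l c a').rTensor G'.E v)
    rw [h1, LinearMap.rTensor_comp, LinearMap.comp_apply]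
  r_mul := fun c a a' v => by
    have h1 : G'.r c (D.mul c a a') = G'.r c a' ∘ₗ G'.r c a := LinearMap.ext (G'.r_mul c a a')
    change (G'.r c (D.mul c a a')).lTensor G.E v =
      (G'.r c a').lTensor G.E ((G'.r c a).lTensor G.E v)
    rw [h1, LinearMap.lTensor_comp, LinearMap.comp_apply]
  l_r := fun c a b v => by
    change (G.l c a).rTensor G'.E ((G'.r c b).lTensor G.E v) =
      (G'.r c b).lTensor G.E ((G.l c a).rTensor G'.E v)
    rw [← LinearMap.comp_apply, ← LinearMap.comp_apply, LinearMap.rTensor_comp_lTensor,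
      LinearMap.lTensor_comp_rTensor]
  smul_l := fun c s a v => by
    have h1 : G.l c (s • a) = (s : KK k) • G.l c a := LinearMap.ext (G.smul_l c s a)
    change (G.l c (s • a)).rTensor G'.E v = (s : KK k) • (G.l c a).rTensor G'.E v
    rw [h1, LinearMap.rTensor_smul, LinearMap.smul_apply]
  smul_r := fun c s a v => by
    have h1 : G'.r c (s • a) = (s : KK k) • G'.r c a := LinearMap.ext (G'.smul_r c s a)
    change (G'.r c (s • a)).lTensor G.E v = (s : KK k) • (G'.r c a).lTensor G.E v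
    rw [h1, LinearMap.lTensor_smul, LinearMap.smul_apply]
  res_l := fun {c d} h a v => by
    have h1 : G.l d (A.res h a) = G.l c a := LinearMap.ext (G.res_l h a)
    change (G.l d (A.res h a)).rTensor G'.E v = (G.l c a).rTensor G'.E v
    rw [h1]
  res_r := fun {c d} h a v => by
    have h1 : G'.r d (D.res h a) = G'.r c a := LinearMap.ext (G'.res_r h a)
    change (G'.r d (D.res h a)).lTensor G.E v = (G'.r c a).lTensor G.E v
    rw [h1]

theorem st_tw {G : Gen A B} {N : Lat k G.E} (h : G.St N) (d : ℤ) : G.St (N.tw d) := by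
  refine ⟨fun c a x hx => ?_, fun c b x hx => ?_⟩
  · intro g hg
    rw [← map_smul]
    exact h.l c a _ (hx g hg)
  · intro g hg
    rw [← map_smul]
    exact h.r c b _ (hx g hg)

theorem st_tens {G : Gen A B} {G' : Gen C D} {N : Lat k G.E} {N' : Lat k G'.E} (h : G.St N)
    (h' : G'.St N') : (G.tens G').St (N.tens N') :=
  ⟨fun c a _ hz => Gen_st_l N N' c (G.l c a) (h.l c a) hz,
    fun c b _ hz => Gen_st_r N N' c (G'.r c b) (h'.r c b) hz⟩

end Gen

end Pool.Agent.MP_6e5bed_ag_NS
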