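import Pool.Agent.Lib.MP_6e5bed_ag_NS.Defs

set_option autoImplicit false

/-!
# MP_6e5bed_ag, NC SURFACES: graded algebras over `k[x_0, x_1, x_2]`, degree zero parts of
localisations (final statement, part 1)
-/

noncomputable section

namespace Pool.Agent.MP_6e5bed_ag_NS

open MvPolynomial

universe u

variable {k Γ : Type u} [Field k] [Ring Γ] [Algebra k Γ] [Algebra (MvPolynomial (Fin 3) k) Γ]
  [IsScalarTower k (MvPolynomial (Fin 3) k) Γ]

/-- `Γ` is a graded algebra, and it is finitely generated over the central subalgebra generated by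
the elements `x_0, x_1, x_2` of degree one. -/
structure IsGrAlg (𝒢 : ℕ → Submodule k Γ) : Prop where
  int : DirectSum.IsInternal 𝒢
  one : 1 ∈ 𝒢 0
  mul : ∀ {m n : ℕ} {a b : Γ}, a ∈ 𝒢 m → b ∈ 𝒢 n → a * b ∈ 𝒢 (m + n)
  var : ∀ i, algebraMap (MvPolynomial (Fin 3) k) Γ (X i) ∈ 𝒢 1
  fin : Module.Finite (MvPolynomial (Fin 3) k) Γ

/-- The localisation of `Γ` at the multiplicative set generated by `s`. -/
abbrev Lz (Γ : Type u) [Ring Γ] [Algebra (MvPolynomial (Fin 3) k) Γ]
    (s : Set (MvPolynomial (Fin 3) k)) : Type u :=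
  LocalizedModule (Submonoid.closure s) Γ

instance Lz.alg (s : Set (MvPolynomial (Fin 3) k)) : Algebra k (Lz Γ s) :=
  Algebra.ofModule (fun r x y => by
    induction x, y using LocalizedModule.induction_on₂ with
    | h m m' s s' =>
      rw [LocalizedModule.smul'_mk, LocalizedModule.mk_mul_mk, LocalizedModule.mk_mul_mk,
        LocalizedModule.smul'_mk, smul_mul_assoc]) (fun r x y => by
    induction x, y using LocalizedModule.induction_on₂ with
    | h m m' s s' =>
      rw [LocalizedModule.smul'_mk, LocalizedModule.mk_mul_mk, LocalizedModule.mk_mul_mk,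
        LocalizedModule.smul'_mk, mul_smul_comm])

variable {𝒢 : ℕ → Submodule k Γ}

omit [IsScalarTower k (MvPolynomial (Fin 3) k) Γ] in
theorem GrA_pow (h : IsGrAlg 𝒢) (i : Fin 3) (e : ℕ) {n : ℕ} {a : Γ} (ha : a ∈ 𝒢 n) :
    (X i : MvPolynomial (Fin 3) k) ^ e • a ∈ 𝒢 (e + n) := by
  induction e with
  | zero =>
    rw [pow_zero, one_smul, Nat.zero_add]
    exact ha
  | succ e ih =>
    rw [pow_succ', mul_smul, Algebra.smul_def (X i : MvPolynomial (Fin 3) k)]
    have h1 := h.mul (h.var i) ih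
    have h2 : e + 1 + n = 1 + (e + n) := by omega
    rw [h2]
    exact h1

theorem GrA_C (c : k) {n : ℕ} {a : Γ} (ha : a ∈ 𝒢 n) :
    (C c : MvPolynomial (Fin 3) k) • a ∈ 𝒢 n := by
  have h1 : (C c : MvPolynomial (Fin 3) k) • a = c • a := by
    rw [← MvPolynomial.algebraMap_eq, algebraMap_smul]
  rw [h1]
  exact (𝒢 n).smul_mem c ha

theorem GrA_mon (h : IsGrAlg 𝒢) (d : Fin 3 →₀ ℕ) : ∀ (c : k) (n : ℕ) (a : Γ), a ∈ 𝒢 n →
    (monomial d c : MvPolynomial (Fin 3) k) • a ∈ 𝒢 (Finsupp.weight (1 : Fin 3 → ℕ) d + n) := by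
  induction d using Finsupp.induction_linear with
  | zero =>
    intro c n a ha
    rw [map_zero, Nat.zero_add]
    exact GrA_C c ha
  | add f g hf hg =>
    intro c n a ha
    have h1 : (monomial (f + g) c : MvPolynomial (Fin 3) k) = monomial f c * monomial g 1 := by
      rw [monomial_mul, mul_one]
    rw [h1, mul_smul, map_add, Nat.add_assoc]
    exact hf c _ _ (hg 1 n a ha)
  | single i e =>
    intro c n a ha
    rw [← C_mul_X_pow_eq_monomial, mul_smul, Finsupp.weight_single, Pi.one_apply, smul_eq_mul,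
      mul_one]
    exact GrA_C c (GrA_pow h i e ha)

/-- Homogeneous polynomials act with their degree. -/
theorem IsGrAlg.smul (h : IsGrAlg 𝒢) {m n : ℕ} {p : MvPolynomial (Fin 3) k}
    (hp : p.IsHomogeneous m) {a : Γ} (ha : a ∈ 𝒢 n) : p • a ∈ 𝒢 (m + n) := by
  rw [← support_sum_monomial_coeff p, Finset.sum_smul]
  refine (𝒢 (m + n)).sum_mem fun d hd => ?_
  have h1 := GrA_mon h d (coeff d p) n a ha
  rwa [hp (mem_support_iff.1 hd)] at h1

/-- `0` is homogeneous of every degree; the other elements of the multiplicative set generated by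
homogeneous polynomials are homogeneous of a unique degree. -/
theorem closure_hom {s : Set (MvPolynomial (Fin 3) k)} (hs : ∀ p ∈ s, p.IsHomogeneous 1)
    {p : MvPolynomial (Fin 3) k} (hp : p ∈ Submonoid.closure s) : ∃ n, p.IsHomogeneous n := by
  induction hp using Submonoid.closure_induction with
  | mem p hp => exact ⟨1, hs p hp⟩
  | one => exact ⟨0, isHomogeneous_one _ _⟩
  | mul p q _ _ hp hq =>
    obtain ⟨n, hn⟩ := hp
    obtain ⟨m, hm⟩ := hq
    exact ⟨n + m, hn.mul hm⟩

/-- The degree zero part of the localisation at the multiplicative set generated by `s`: the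
fractions `a / t` with `a` and `t` of the same degree. -/
def Dz (h : IsGrAlg 𝒢) (s : Set (MvPolynomial (Fin 3) k)) : Subalgebra k (Lz Γ s) where
  carrier := {z | ∃ (n : ℕ) (a : Γ) (t : Submonoid.closure s), a ∈ 𝒢 n ∧
    (t : MvPolynomial (Fin 3) k).IsHomogeneous n ∧ z = LocalizedModule.mk a t}
  mul_mem' := by
    rintro _ _ ⟨n, a, t, ha, ht, rfl⟩ ⟨m, b, u, hb, hu, rfl⟩
    refine ⟨n + m, a * b, t * u, h.mul ha hb, ?_, LocalizedModule.mk_mul_mk⟩
    rw [Submonoid.coe_mul]
    exact ht.mul hu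
  add_mem' := by
    rintro _ _ ⟨n, a, t, ha, ht, rfl⟩ ⟨m, b, u, hb, hu, rfl⟩
    refine ⟨n + m, u • a + t • b, t * u, (𝒢 (n + m)).add_mem ?_ ?_, ?_,
      LocalizedModule.mk_add_mk⟩
    · rw [Submonoid.smul_def, Nat.add_comm n m]
      exact h.smul hu ha
    · rw [Submonoid.smul_def]
      exact h.smul ht hb
    · rw [Submonoid.coe_mul]
      exact ht.mul hu
  algebraMap_mem' := by
    intro r
    refine ⟨0, r • 1, 1, (𝒢 0).smul_mem r h.one, ?_, ?_⟩
    · rw [Submonoid.coe_one]
      exact isHomogeneous_one _ _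
    · rw [Algebra.algebraMap_eq_smul_one, OreLocalization.one_def]
      exact LocalizedModule.smul'_mk r 1 1

omit [Algebra k Γ] [IsScalarTower k (MvPolynomial (Fin 3) k) Γ] in
theorem GrA_wd {s t : Set (MvPolynomial (Fin 3) k)} (h : s ⊆ t) :
    ∀ p p' : Γ × Submonoid.closure s, p ≈ p' →
      (LocalizedModule.mk p.1 ⟨p.2.1, Submonoid.closure_mono h p.2.2⟩ : Lz Γ t) =
        LocalizedModule.mk p'.1 ⟨p'.2.1, Submonoid.closure_mono h p'.2.2⟩ := by
  rintro ⟨m, p⟩ ⟨m', p'⟩ ⟨u, hu⟩
  rw [LocalizedModule.mk_eq]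
  exact ⟨⟨u.1, Submonoid.closure_mono h u.2⟩, hu⟩

/-- the map of localisations -/
def Lz.map {s t : Set (MvPolynomial (Fin 3) k)} (h : s ⊆ t) : Lz Γ s →ₐ[k] Lz Γ t where
  toFun := fun z => LocalizedModule.liftOn z (fun p => LocalizedModule.mk p.1
    ⟨p.2.1, Submonoid.closure_mono h p.2.2⟩) (by
      exact GrA_wd h)
  map_one' := by
    rw [OreLocalization.one_def]
    refine (LocalizedModule.liftOn_mk (GrA_wd (Γ := Γ) h) 1 1).trans ?_
    exact OreLocalization.one_def.symm
  map_mul' := by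
    intro x y
    induction x, y using LocalizedModule.induction_on₂ with
    | h m m' p p' =>
      rw [LocalizedModule.mk_mul_mk, LocalizedModule.liftOn_mk, LocalizedModule.liftOn_mk,
        LocalizedModule.liftOn_mk, LocalizedModule.mk_mul_mk]
      rfl
  map_zero' := by
    rw [← LocalizedModule.zero_mk (R := MvPolynomial (Fin 3) k) (S := Submonoid.closure s)
      (M := Γ) 1, LocalizedModule.liftOn_mk, LocalizedModule.zero_mk]
  map_add' := by
    intro x y
    induction x, y using LocalizedModule.induction_on₂ with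
    | h m m' p p' =>
      rw [LocalizedModule.mk_add_mk, LocalizedModule.liftOn_mk, LocalizedModule.liftOn_mk,
        LocalizedModule.liftOn_mk, LocalizedModule.mk_add_mk]
      rfl
  commutes' := by
    intro r
    rw [Algebra.algebraMap_eq_smul_one, Algebra.algebraMap_eq_smul_one, OreLocalization.one_def,
      OreLocalization.one_def]
    have h1 := LocalizedModule.smul'_mk r (1 : Γ) (1 : Submonoid.closure s)
    have h2 := LocalizedModule.smul'_mk r (1 : Γ) (1 : Submonoid.closure t)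
    rw [LocalizedModule.mk] at h1 h2
    rw [h1, h2]
    exact LocalizedModule.liftOn_mk (GrA_wd (Γ := Γ) h) _ _

theorem Lz.map_mk {s t : Set (MvPolynomial (Fin 3) k)} (h : s ⊆ t) (a : Γ)
    (p : Submonoid.closure s) : Lz.map (Γ := Γ) h (LocalizedModule.mk a p) =
      LocalizedModule.mk a ⟨p.1, Submonoid.closure_mono h p.2⟩ := by
  show LocalizedModule.liftOn (LocalizedModule.mk a p) (fun p => LocalizedModule.mk p.1
    ⟨p.2.1, Submonoid.closure_mono h p.2.2⟩) (GrA_wd h) = _
  rw [LocalizedModule.liftOn_mk]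

/-- the map of degree zero parts -/
def Dz.map (h : IsGrAlg 𝒢) {s t : Set (MvPolynomial (Fin 3) k)} (hst : s ⊆ t) :
    Dz h s →ₐ[k] Dz h t :=
  ((Lz.map hst).comp (Dz h s).val).codRestrict (Dz h t) (by
    rintro ⟨_, n, a, p, ha, hp, rfl⟩
    exact ⟨n, a, ⟨p.1, Submonoid.closure_mono hst p.2⟩, ha, hp, Lz.map_mk hst a p⟩)

end Pool.Agent.MP_6e5bed_ag_NS
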