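import Pool.Agent.Lib.MP_6e5bed_ag_NS.GrA

set_option autoImplicit false

/-!
# MP_6e5bed_ag, NC SURFACES: base change of graded algebras
-/

noncomputable section

namespace Pool.Agent.MP_6e5bed_ag_NS

open MvPolynomial
open scoped TensorProduct

universe u

variable {k : Type u} [Field k] (K : Type u) [Field K] [Algebra k K]
  (Γ : Type u) [Ring Γ] [Algebra k Γ] [Algebra (MvPolynomial (Fin 3) k) Γ]
  [IsScalarTower k (MvPolynomial (Fin 3) k) Γ]

/-- the base change `K ⊗ Γ` -/
def GK (k : Type u) [Field k] (K : Type u) [Field K] [Algebra k K] (Γ : Type u) [Ring Γ]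
    [Algebra k Γ] : Type u := K ⊗[k] Γ

instance : Ring (GK k K Γ) := inferInstanceAs (Ring (K ⊗[k] Γ))

instance : Algebra K (GK k K Γ) := inferInstanceAs (Algebra K (K ⊗[k] Γ))

instance : Algebra k (GK k K Γ) := inferInstanceAs (Algebra k (K ⊗[k] Γ))

instance : IsScalarTower k K (GK k K Γ) := inferInstanceAs (IsScalarTower k K (K ⊗[k] Γ))

/-- `a ↦ 1 ⊗ a` -/
def GK.inc : Γ →ₐ[k] GK k K Γ := Algebra.TensorProduct.includeRight

/-- the variables are central -/
theorem GK.comm (i : Fin 3) (z : GK k K Γ) :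
    GK.inc K Γ (algebraMap (MvPolynomial (Fin 3) k) Γ (X i)) * z =
      z * GK.inc K Γ (algebraMap (MvPolynomial (Fin 3) k) Γ (X i)) := by
  have key : ∀ (x0 : Γ), (∀ b, x0 * b = b * x0) → ∀ w : K ⊗[k] Γ,
      ((1 : K) ⊗ₜ[k] x0 : K ⊗[k] Γ) * w = w * ((1 : K) ⊗ₜ[k] x0) := by
    intro x0 hx w
    induction w using TensorProduct.induction_on with
    | zero => rw [mul_zero, zero_mul]
    | tmul a b =>
      rw [Algebra.TensorProduct.tmul_mul_tmul, Algebra.TensorProduct.tmul_mul_tmul, one_mul,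
        mul_one, hx]
    | add x y hx hy => rw [mul_add, add_mul, hx, hy]
  exact key _ (fun b => Algebra.commutes _ _) z

/-- The structure map `K[x_0, x_1, x_2] → K ⊗ Γ`. -/
theorem GK.exists_map : ∃ θ : MvPolynomial (Fin 3) K →ₐ[K] GK k K Γ,
    (∀ p z, θ p * z = z * θ p) ∧
      ∀ i, θ (X i) = GK.inc K Γ (algebraMap (MvPolynomial (Fin 3) k) Γ (X i)) := by
  refine ⟨(Subalgebra.center K (GK k K Γ)).val.comp
    (aeval (fun i => (⟨GK.inc K Γ (algebraMap (MvPolynomial (Fin 3) k) Γ (X i)),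
      Subalgebra.mem_center_iff.2 fun z => (GK.comm K Γ i z).symm⟩ :
        Subalgebra.center K (GK k K Γ)))), fun p z => ?_, fun i => ?_⟩
  · exact (Subalgebra.mem_center_iff.1 (Subtype.prop
      (aeval (fun i => (⟨GK.inc K Γ (algebraMap (MvPolynomial (Fin 3) k) Γ (X i)),
      Subalgebra.mem_center_iff.2 fun z => (GK.comm K Γ i z).symm⟩ :
        Subalgebra.center K (GK k K Γ))) p)) z).symm
  · rw [AlgHom.comp_apply, aeval_X]
    rfl

instance : Algebra (MvPolynomial (Fin 3) K) (GK k K Γ) :=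
  (GK.exists_map K Γ).choose.toRingHom.toAlgebra' (GK.exists_map K Γ).choose_spec.1

instance : IsScalarTower K (MvPolynomial (Fin 3) K) (GK k K Γ) :=
  ⟨fun s p z => by
    have h1 : (s • p) • z = (GK.exists_map K Γ).choose (s • p) * z := rfl
    have h2 : p • z = (GK.exists_map K Γ).choose p * z := rfl
    rw [h1, h2, map_smul, smul_mul_assoc]⟩

theorem GK.algebraMap_X (i : Fin 3) : algebraMap (MvPolynomial (Fin 3) K) (GK k K Γ) (X i) =
    GK.inc K Γ (algebraMap (MvPolynomial (Fin 3) k) Γ (X i)) :=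
  (GK.exists_map K Γ).choose_spec.2 i

theorem GK.algebraMap_map (p : MvPolynomial (Fin 3) k) :
    algebraMap (MvPolynomial (Fin 3) K) (GK k K Γ) (MvPolynomial.map (algebraMap k K) p) =
      GK.inc K Γ (algebraMap (MvPolynomial (Fin 3) k) Γ p) := by
  induction p using MvPolynomial.induction_on with
  | C a =>
    rw [MvPolynomial.map_C]
    have h1 : algebraMap (MvPolynomial (Fin 3) K) (GK k K Γ) (C (algebraMap k K a)) =
        algebraMap K (GK k K Γ) (algebraMap k K a) :=
      (GK.exists_map K Γ).choose.commutes (algebraMap k K a)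
    have h2 : algebraMap (MvPolynomial (Fin 3) k) Γ (C a) = algebraMap k Γ a := by
      rw [IsScalarTower.algebraMap_apply k (MvPolynomial (Fin 3) k) Γ]
      rfl
    rw [h1, h2, AlgHom.commutes, ← IsScalarTower.algebraMap_apply]
  | add p q hp hq => rw [map_add, map_add, map_add, map_add, hp, hq]
  | mul_X p i hp =>
    rw [map_mul, map_mul, map_mul, map_mul, hp, MvPolynomial.map_X, GK.algebraMap_X]

variable {Γ} {𝒢 : ℕ → Submodule k Γ}

instance (s : Set (MvPolynomial (Fin 3) K)) : Algebra k (Lz (GK k K Γ) s) :=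
  Algebra.compHom _ (algebraMap k K)

instance (s : Set (MvPolynomial (Fin 3) K)) : IsScalarTower k K (Lz (GK k K Γ) s) :=
  IsScalarTower.of_algebraMap_eq (fun _ => rfl)

/-- the grading of `K ⊗ Γ` -/
def GK.gr (𝒢 : ℕ → Submodule k Γ) (n : ℕ) : Submodule K (GK k K Γ) :=
  (𝒢 n).baseChange K

end Pool.Agent.MP_6e5bed_ag_NS
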