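import Pool.Agent.Lib.MP_6e5bed_ag_NS.TorA

set_option autoImplicit false

/-!
# MP_6e5bed_ag, NC SURFACES: homogeneous polynomials and functions on charts
-/

noncomputable section

namespace Pool.Agent.MP_6e5bed_ag_NS

open MvPolynomial

universe u

variable {k : Type u} [Field k]

/-- a linear form as a polynomial -/
def lin (ℓ : Fin 3 → k) : MvPolynomial (Fin 3) k := ∑ i, C (ℓ i) * X i

/-- the linear forms of a chart -/
def linS (c : Ch k) : Set (MvPolynomial (Fin 3) k) := {p | ∃ ℓ ∈ c.1, p = lin ℓ.1}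

theorem linS_mono {c d : Ch k} (h : c ≤ d) : linS c ⊆ linS d :=
  fun _ ⟨ℓ, hl, e⟩ => ⟨ℓ, h hl, e⟩

private theorem GrP_mul (P Q : MvPolynomial (Fin 3) k) : ev (P * Q) = ev P * ev Q := by
  unfold ev
  rw [map_mul]

private theorem GrP_add (P Q : MvPolynomial (Fin 3) k) : ev (P + Q) = ev P + ev Q := by
  unfold ev
  rw [map_add]

private theorem GrP_one : ev (1 : MvPolynomial (Fin 3) k) = 1 := by
  unfold ev
  rw [map_one]

theorem lin_hom (ℓ : Fin 3 → k) : (lin ℓ).IsHomogeneous 1 := by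
  refine MvPolynomial.IsHomogeneous.sum _ _ _ fun j _ => ?_
  have h1 := (MvPolynomial.isHomogeneous_C (Fin 3) (ℓ j)).mul
    (MvPolynomial.isHomogeneous_X k j)
  rwa [zero_add] at h1

theorem ev_lin (ℓ : Fin 3 → k) : ev (lin ℓ) = lam k ℓ := by
  unfold ev lam lin
  rw [map_sum]
  refine Finset.sum_congr rfl fun j _ => ?_
  rw [map_mul, MvPolynomial.aeval_C, MvPolynomial.aeval_X, Algebra.smul_def]

theorem lin_xx (i : Fin 3) : lin (xx k i).1 = X i := by
  have h0 : (xx k i).1 = Pi.single i 1 := rfl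
  unfold lin
  rw [h0, Finset.sum_eq_single i]
  · rw [Pi.single_eq_same, C_1, one_mul]
  · intro j _ hj
    rw [Pi.single_eq_of_ne hj, C_0, zero_mul]
  · intro h
    exact absurd (Finset.mem_univ i) h

theorem linS_ne {c : Ch k} {p : MvPolynomial (Fin 3) k} (hp : p ∈ Submonoid.closure (linS c)) :
    ev p ≠ 0 := by
  induction hp using Submonoid.closure_induction with
  | mem x hx =>
    obtain ⟨ℓ, _, rfl⟩ := hx
    rw [ev_lin]
    exact lam_ne_zero ℓ
  | one =>
    rw [GrP_one]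
    exact one_ne_zero
  | mul x y _ _ hx hy =>
    rw [GrP_mul]
    exact mul_ne_zero hx hy

/-- The functions on a chart are the fractions `P / t`. -/
theorem exists_frac {c : Ch k} {r : KK k} (hr : r ∈ RR k c) :
    ∃ (n : ℕ) (P t : MvPolynomial (Fin 3) k), P.IsHomogeneous n ∧ t.IsHomogeneous n ∧
      t ∈ Submonoid.closure (linS c) ∧ r = ev P / ev t := by
  induction hr using Algebra.adjoin_induction with
  | mem x hx =>
    obtain ⟨ℓ, g, hg, rfl⟩ := hx
    exact ⟨1, lin ℓ, lin g.1, lin_hom ℓ, lin_hom g.1, Submonoid.subset_closure ⟨g, hg, rfl⟩,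
      by rw [ev_lin, ev_lin]⟩
  | algebraMap a =>
    refine ⟨0, MvPolynomial.C a, 1, MvPolynomial.isHomogeneous_C _ _,
      MvPolynomial.isHomogeneous_one _ _, Submonoid.one_mem _, ?_⟩
    rw [GrP_one, div_one]
    unfold ev
    rw [MvPolynomial.aeval_C]
  | add x y _ _ hx hy =>
    obtain ⟨n, P, t, hP, ht, htc, rfl⟩ := hx
    obtain ⟨n', Q, t', hQ, ht', htc', rfl⟩ := hy
    refine ⟨n + n', P * t' + t * Q, t * t', (hP.mul ht').add (ht.mul hQ), ht.mul ht',
      Submonoid.mul_mem _ htc htc', ?_⟩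
    rw [GrP_add, GrP_mul, GrP_mul, GrP_mul, div_add_div _ _ (linS_ne htc) (linS_ne htc')]
  | mul x y _ _ hx hy =>
    obtain ⟨n, P, t, hP, ht, htc, rfl⟩ := hx
    obtain ⟨n', Q, t', hQ, ht', htc', rfl⟩ := hy
    refine ⟨n + n', P * Q, t * t', hP.mul hQ, ht.mul ht', Submonoid.mul_mem _ htc htc', ?_⟩
    rw [GrP_mul, GrP_mul, div_mul_div_comm]

private theorem GrP_pow {c : Ch k} {g : LF k} (hg : g ∈ c.1) {t : MvPolynomial (Fin 3) k}
    (ht : t ∈ Submonoid.closure (linS c)) :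
    ∃ m : ℕ, t.IsHomogeneous m ∧ lam k g.1 ^ m / ev t ∈ RR k c := by
  have _ := hg
  induction ht using Submonoid.closure_induction with
  | mem x hx =>
    obtain ⟨ℓ, hl, rfl⟩ := hx
    refine ⟨1, lin_hom _, ?_⟩
    rw [ev_lin, pow_one]
    exact lam_mem g.1 hl
  | one =>
    refine ⟨0, MvPolynomial.isHomogeneous_one _ _, ?_⟩
    rw [GrP_one, pow_zero, div_one]
    exact (RR k c).one_mem
  | mul x y _ _ hx hy =>
    obtain ⟨m, h1, h2⟩ := hx
    obtain ⟨m', h3, h4⟩ := hy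
    refine ⟨m + m', h1.mul h3, ?_⟩
    rw [GrP_mul, pow_add, ← div_mul_div_comm]
    exact (RR k c).mul_mem h2 h4

theorem frac_mem {c : Ch k} {n : ℕ} {P t : MvPolynomial (Fin 3) k} (hP : P.IsHomogeneous n)
    (ht : t.IsHomogeneous n) (hc : t ∈ Submonoid.closure (linS c)) : ev P / ev t ∈ RR k c := by
  obtain ⟨g, hg⟩ := c.2.1
  obtain ⟨m, hm, hmem⟩ := GrP_pow hg hc
  have ht0 : t ≠ 0 := by
    rintro rfl
    apply linS_ne hc
    unfold ev
    rw [map_zero]
  have hnm : n = m := ht.inj_right hm ht0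
  subst hnm
  have h1 := (RR k c).mul_mem (ev_mem hP hg) hmem
  have hl : lam k g.1 ^ n ≠ 0 := pow_ne_zero _ (lam_ne_zero g)
  rwa [div_mul_div_cancel₀ hl] at h1

/-- Homogeneous polynomials are determined by their values. -/
theorem ev_inj {n : ℕ} {P Q : MvPolynomial (Fin 3) k} (hP : P.IsHomogeneous n)
    (hQ : Q.IsHomogeneous n) (h : ev P = ev Q) : P = Q := by
  by_contra hne
  have h1 : P - Q ≠ 0 := sub_ne_zero.2 hne
  apply ev_ne_zero (hP.sub hQ) h1
  unfold ev at h ⊢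
  rw [map_sub, h, sub_self]

end Pool.Agent.MP_6e5bed_ag_NS
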