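import Pool.Agent.Lib.MP_6e5bed_ag_NS.GrA
import Pool.Agent.Lib.MP_6e5bed_ag_NS.GrP

set_option autoImplicit false

/-!
# MP_6e5bed_ag, NC SURFACES: functions act on the degree zero parts of localisations
-/

noncomputable section

namespace Pool.Agent.MP_6e5bed_ag_NS

open MvPolynomial

universe u

variable {k : Type u} [Field k]
  {Γ : Type u} [Ring Γ] [Algebra k Γ] [Algebra (MvPolynomial (Fin 3) k) Γ]
  [IsScalarTower k (MvPolynomial (Fin 3) k) Γ] {𝒢 : ℕ → Submodule k Γ}

private theorem GrT_ev_mul (P Q : MvPolynomial (Fin 3) k) : ev (P * Q) = ev P * ev Q := by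
  unfold ev
  exact map_mul _ _ _

private theorem GrT_ev_add (P Q : MvPolynomial (Fin 3) k) : ev (P + Q) = ev P + ev Q := by
  unfold ev
  exact map_add _ _ _

private theorem GrT_ev_one : ev (1 : MvPolynomial (Fin 3) k) = 1 := by
  unfold ev
  exact map_one _

private theorem GrT_ev_C (a : k) : ev (C a : MvPolynomial (Fin 3) k) = algebraMap k (KK k) a := by
  unfold ev
  exact MvPolynomial.aeval_C _ _

omit [Algebra k Γ] [IsScalarTower k (MvPolynomial (Fin 3) k) Γ] in
/-- the fraction is well defined -/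
private theorem GrT_wd (c : Ch k) {n n' : ℕ} {P t P' t' : MvPolynomial (Fin 3) k}
    (hP : P.IsHomogeneous n) (ht : t.IsHomogeneous n) (hc : t ∈ Submonoid.closure (linS c))
    (hP' : P'.IsHomogeneous n') (ht' : t'.IsHomogeneous n')
    (hc' : t' ∈ Submonoid.closure (linS c)) (he : ev P / ev t = ev P' / ev t') :
    (LocalizedModule.mk (algebraMap _ Γ P) ⟨t, hc⟩ : Lz Γ (linS c)) =
      LocalizedModule.mk (algebraMap _ Γ P') ⟨t', hc'⟩ := by
  have h1 : t' * P = t * P' := by
    refine ev_inj (n := n' + n) (ht'.mul hP) ?_ ?_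
    · rw [add_comm]
      exact ht.mul hP'
    · rw [GrT_ev_mul, GrT_ev_mul]
      rw [div_eq_div_iff (linS_ne hc) (linS_ne hc')] at he
      rw [mul_comm, he, mul_comm]
  rw [LocalizedModule.mk_eq]
  refine ⟨1, ?_⟩
  rw [one_smul, one_smul, Submonoid.smul_def, Submonoid.smul_def, Algebra.smul_def,
    Algebra.smul_def, ← map_mul, ← map_mul, h1]

/-- the underlying function -/
private def GrT_f (Γ : Type u) [Ring Γ] [Algebra (MvPolynomial (Fin 3) k) Γ] (c : Ch k)
    (r : RR k c) : Lz Γ (linS c) :=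
  LocalizedModule.mk (algebraMap _ Γ (exists_frac r.2).choose_spec.choose)
    ⟨(exists_frac r.2).choose_spec.choose_spec.choose,
      (exists_frac r.2).choose_spec.choose_spec.choose_spec.2.2.1⟩

omit [Algebra k Γ] [IsScalarTower k (MvPolynomial (Fin 3) k) Γ] in
private theorem GrT_f_spec (c : Ch k) (r : RR k c) {n : ℕ} {P t : MvPolynomial (Fin 3) k}
    (hP : P.IsHomogeneous n) (ht : t.IsHomogeneous n) (hc : t ∈ Submonoid.closure (linS c))
    (he : (r : KK k) = ev P / ev t) :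
    GrT_f Γ c r = LocalizedModule.mk (algebraMap _ Γ P) ⟨t, hc⟩ := by
  have h1 := (exists_frac r.2).choose_spec.choose_spec.choose_spec
  exact GrT_wd c h1.1 h1.2.1 h1.2.2.1 hP ht hc (h1.2.2.2.symm.trans he)

private theorem GrT_mem (h : IsGrAlg 𝒢) {n : ℕ} {P : MvPolynomial (Fin 3) k}
    (hP : P.IsHomogeneous n) : algebraMap _ Γ P ∈ 𝒢 n := by
  have h1 := h.smul hP h.one
  rwa [Algebra.smul_def, mul_one, add_zero] at h1

private theorem GrT_f_mem (h : IsGrAlg 𝒢) (c : Ch k) (r : RR k c) :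
    GrT_f Γ c r ∈ Dz h (linS c) := by
  have h1 := (exists_frac r.2).choose_spec.choose_spec.choose_spec
  exact ⟨_, _, _, GrT_mem h h1.1, h1.2.1, rfl⟩

omit [Algebra k Γ] [IsScalarTower k (MvPolynomial (Fin 3) k) Γ] in
private theorem GrT_one_def (s : Set (MvPolynomial (Fin 3) k)) :
    (1 : Lz Γ s) = LocalizedModule.mk 1 1 := OreLocalization.one_def

omit [Algebra k Γ] [IsScalarTower k (MvPolynomial (Fin 3) k) Γ] in
private theorem GrT_one (c : Ch k) : GrT_f Γ c 1 = 1 := by
  rw [GrT_f_spec c 1 (isHomogeneous_one (Fin 3) k) (isHomogeneous_one (Fin 3) k)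
    (one_mem _) (by rw [GrT_ev_one, div_one]; rfl), map_one, GrT_one_def]
  rfl

omit [Algebra k Γ] [IsScalarTower k (MvPolynomial (Fin 3) k) Γ] in
private theorem GrT_mul (c : Ch k) (r r' : RR k c) :
    GrT_f Γ c (r * r') = GrT_f Γ c r * GrT_f Γ c r' := by
  obtain ⟨n, P, t, hP, ht, hc, he⟩ := exists_frac r.2
  obtain ⟨n', P', t', hP', ht', hc', he'⟩ := exists_frac r'.2
  rw [GrT_f_spec c r hP ht hc he, GrT_f_spec c r' hP' ht' hc' he',
    GrT_f_spec c (r * r') (hP.mul hP') (ht.mul ht') (mul_mem hc hc') (by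
      rw [GrT_ev_mul, GrT_ev_mul, mul_div_mul_comm, ← he, ← he']
      rfl), LocalizedModule.mk_mul_mk, map_mul]
  rfl

omit [Algebra k Γ] [IsScalarTower k (MvPolynomial (Fin 3) k) Γ] in
private theorem GrT_add (c : Ch k) (r r' : RR k c) :
    GrT_f Γ c (r + r') = GrT_f Γ c r + GrT_f Γ c r' := by
  obtain ⟨n, P, t, hP, ht, hc, he⟩ := exists_frac r.2
  obtain ⟨n', P', t', hP', ht', hc', he'⟩ := exists_frac r'.2
  have h1 : (t' * P + t * P').IsHomogeneous (n + n') := by
    refine MvPolynomial.IsHomogeneous.add ?_ (ht.mul hP')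
    rw [add_comm]
    exact ht'.mul hP
  rw [GrT_f_spec c r hP ht hc he, GrT_f_spec c r' hP' ht' hc' he',
    GrT_f_spec c (r + r') h1 (ht.mul ht') (mul_mem hc hc') (by
      have e1 := linS_ne hc
      have e2 := linS_ne hc'
      have e3 : ((r + r' : RR k c) : KK k) = (r : KK k) + (r' : KK k) := rfl
      rw [GrT_ev_mul, GrT_ev_add, GrT_ev_mul, GrT_ev_mul, e3, he, he']
      field_simp), LocalizedModule.mk_add_mk, map_add, map_mul, map_mul]
  rw [Submonoid.smul_def, Submonoid.smul_def, Algebra.smul_def, Algebra.smul_def]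
  rfl

private theorem GrT_alg (c : Ch k) (a : k) :
    GrT_f Γ c (algebraMap k (RR k c) a) = algebraMap k (Lz Γ (linS c)) a := by
  rw [GrT_f_spec c _ (isHomogeneous_C (Fin 3) a) (isHomogeneous_one (Fin 3) k)
    (one_mem _) (by rw [GrT_ev_one, div_one, GrT_ev_C]; rfl)]
  rw [Algebra.algebraMap_eq_smul_one (A := Lz Γ (linS c)) a,
    GrT_one_def, LocalizedModule.smul'_mk]
  congr 1
  rw [← Algebra.algebraMap_eq_smul_one, IsScalarTower.algebraMap_apply k
    (MvPolynomial (Fin 3) k) Γ a]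
  rfl

/-- the algebra homomorphism into the localisation -/
private def GrT_hom (Γ : Type u) [Ring Γ] [Algebra k Γ] [Algebra (MvPolynomial (Fin 3) k) Γ]
    [IsScalarTower k (MvPolynomial (Fin 3) k) Γ] (c : Ch k) : RR k c →ₐ[k] Lz Γ (linS c) where
  toFun := GrT_f Γ c
  map_one' := GrT_one c
  map_mul' := GrT_mul c
  map_zero' := by
    have h1 := GrT_add (Γ := Γ) c 0 0
    rw [add_zero] at h1
    exact left_eq_add.1 h1
  map_add' := GrT_add c
  commutes' := GrT_alg c

/-- The functions on a chart map to the degree zero part: `P / t` to `P 1 / t`. -/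
theorem exists_th (h : IsGrAlg 𝒢) (c : Ch k) : ∃ θ : RR k c →ₐ[k] Dz h (linS c),
    (∀ (r : RR k c) (n : ℕ) (P t : MvPolynomial (Fin 3) k) (_ : P.IsHomogeneous n)
      (_ : t.IsHomogeneous n) (ht : t ∈ Submonoid.closure (linS c)), (r : KK k) = ev P / ev t →
        (θ r : Lz Γ (linS c)) = LocalizedModule.mk (algebraMap _ Γ P) ⟨t, ht⟩) ∧
    ∀ r z, θ r * z = z * θ r := by
  refine ⟨(GrT_hom Γ c).codRestrict (Dz h (linS c)) (fun r => GrT_f_mem h c r), ?_, ?_⟩
  · intro r n P t hP ht hc he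
    exact GrT_f_spec c r hP ht hc he
  · rintro r ⟨z, hz⟩
    obtain ⟨m, a, t', ha, ht', rfl⟩ := hz
    obtain ⟨n, P, t, hP, ht, hc, he⟩ := exists_frac r.2
    refine Subtype.ext ?_
    change GrT_f Γ c r * LocalizedModule.mk a t' = LocalizedModule.mk a t' * GrT_f Γ c r
    rw [GrT_f_spec c r hP ht hc he, LocalizedModule.mk_mul_mk, LocalizedModule.mk_mul_mk,
      Algebra.commutes, mul_comm t']

/-- the structure map -/
def th (h : IsGrAlg 𝒢) (c : Ch k) : RR k c →ₐ[k] Dz h (linS c) := (exists_th h c).choose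

theorem th_comm (h : IsGrAlg 𝒢) (c : Ch k) (r : RR k c) (z : Dz h (linS c)) :
    th h c r * z = z * th h c r := (exists_th h c).choose_spec.2 r z

theorem th_spec (h : IsGrAlg 𝒢) (c : Ch k) (r : RR k c) (n : ℕ)
    (P t : MvPolynomial (Fin 3) k) (hP : P.IsHomogeneous n) (ht : t.IsHomogeneous n)
    (hc : t ∈ Submonoid.closure (linS c)) (hr : (r : KK k) = ev P / ev t) :
    (th h c r : Lz Γ (linS c)) = LocalizedModule.mk (algebraMap _ Γ P) ⟨t, hc⟩ :=
  (exists_th h c).choose_spec.1 r n P t hP ht hc hr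

end Pool.Agent.MP_6e5bed_ag_NS
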