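import Pool.Agent.Lib.MP_6e5bed_ag_NS.Tw

/-!
# MP_6e5bed_ag, NC SURFACES: exactness of the Hilbert-Burch complex (section 5a)
-/

set_option autoImplicit false

noncomputable section

namespace Pool.Agent.MP_6e5bed_ag_NS

open scoped TensorProduct

universe u

variable {k : Type u} [Field k]

/-- a sequence which is determined by its large terms -/
private theorem hba_zero {X : Type u} [AddCommGroup X] [Module k X] (u : X →ₗ[k] X) (φ : ℤ → X)
    (N : ℤ) (h1 : ∀ s, φ (s - 1) = u (φ s)) (h2 : ∀ s, N < s → φ s = 0) (s : ℤ) : φ s = 0 := by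
  have key : ∀ n : ℕ, φ (N + 1 - n) = 0 := by
    intro n
    induction n with
    | zero => exact h2 _ (by simp)
    | succ n ih =>
      have e : N + 1 - ((n + 1 : ℕ) : ℤ) = (N + 1 - n) - 1 := by push_cast; ring
      rw [e, h1, ih, map_zero]
  rcases lt_or_ge N s with h | h
  · exact h2 s h
  · have h3 := key (N + 1 - s).toNat
    have e : N + 1 - ((N + 1 - s).toNat : ℤ) = s := by omega
    rwa [e] at h3

/-- the quotient by `η_p`, in coordinates -/
private theorem hba_core {X : Type u} [AddCommGroup X] [Module k X] (u v : X →ₗ[k] X)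
    (huv : ∀ x, u (v x) = v (u x)) (f g : ℤ → ℤ → X) (N : ℤ)
    (hf : ∀ s t, N < s → f s t = 0) (hg : ∀ s t, N < s → g s t = 0)
    (hf' : ∀ s t, N < t → f s t = 0)
    (H : ∀ s t, f s (t - 1) - v (f s t) = g (s - 1) t - u (g s t)) :
    ∃ h : ℤ → ℤ → X, (∀ s t, h (s - 1) t - u (h s t) = f s t) ∧
      (∀ s t, h s (t - 1) - v (h s t) = g s t) ∧
      (∀ s t, h s t ≠ 0 → ∃ n : ℕ, f (s + n + 1) t ≠ 0) ∧
      (∀ s t, h s t ≠ 0 → ∃ t', g s t' ≠ 0) := by
  obtain ⟨h, hh⟩ : ∃ h : ℤ → ℤ → X, ∀ s t, h s t =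
      ∑ n ∈ Finset.range (N - s).toNat, (u ^ n) (f (s + n + 1) t) := ⟨_, fun _ _ => rfl⟩
  have h3 : ∀ s t, h s t ≠ 0 → ∃ n : ℕ, f (s + n + 1) t ≠ 0 := by
    intro s t h0
    by_contra hcon
    push Not at hcon
    apply h0
    rw [hh]
    refine Finset.sum_eq_zero fun n _ => ?_
    rw [hcon n, map_zero]
  have hN : ∀ s t, N ≤ s → h s t = 0 := by
    intro s t hs
    rw [hh]
    have e : (N - s).toNat = 0 := by omega
    rw [e, Finset.range_zero, Finset.sum_empty]
  have h1 : ∀ s t, h (s - 1) t - u (h s t) = f s t := by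
    intro s t
    rcases lt_or_ge N s with hs | hs
    · rw [hN (s - 1) t (by omega), hN s t (by omega), hf s t hs, map_zero, sub_zero]
    · rw [hh (s - 1) t]
      have e : (N - (s - 1)).toNat = (N - s).toNat + 1 := by omega
      rw [e, Finset.sum_range_succ']
      have e1 : ∑ n ∈ Finset.range (N - s).toNat, (u ^ (n + 1)) (f (s - 1 + ((n + 1 : ℕ) : ℤ) + 1) t)
          = u (h s t) := by
        rw [hh s t, map_sum]
        refine Finset.sum_congr rfl fun n _ => ?_
        have e2 : s - 1 + ((n + 1 : ℕ) : ℤ) + 1 = s + n + 1 := by push_cast; ring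
        rw [e2, pow_succ', Module.End.mul_apply]
      have e3 : s - 1 + ((0 : ℕ) : ℤ) + 1 = s := by simp
      rw [e1, e3, pow_zero, Module.End.one_apply]
      abel
  have h2 : ∀ s t, h s (t - 1) - v (h s t) = g s t := by
    intro s t
    have key := hba_zero u (fun s => h s (t - 1) - v (h s t) - g s t) N ?_ ?_ s
    · exact sub_eq_zero.1 key
    · intro s
      have a1 : h (s - 1) (t - 1) = f s (t - 1) + u (h s (t - 1)) := by
        rw [← h1 s (t - 1)]; abel
      have a2 : h (s - 1) t = f s t + u (h s t) := by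
        rw [← h1 s t]; abel
      have a3 : g (s - 1) t = f s (t - 1) - v (f s t) + u (g s t) := by
        rw [H s t]; abel
      simp only [a1, a2, a3, map_add, map_sub, huv]
      abel
    · intro s hs
      simp only [hN s _ hs.le, hg s t hs, map_zero, sub_zero]
  refine ⟨h, h1, h2, h3, ?_⟩
  intro s t h0
  by_contra hcon
  push Not at hcon
  apply h0
  refine hba_zero v (fun t => h s t) N (fun t => ?_) (fun t ht => ?_) t
  · exact sub_eq_zero.1 ((h2 s t).trans (hcon t))
  · by_contra h4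
    obtain ⟨n, hn⟩ := h3 s t h4
    exact hn (hf' _ _ ht)

section hba

variable {X : Type u} [AddCommGroup X] [Module k X] {b : Set (Fin 3)}

/-- the coefficients at the exponents with `e p = s`, `e q = t` -/
private def hbaE (k : Type u) [Field k] (X : Type u) [AddCommGroup X] [Module k X] (b : Set (Fin 3)) (d : ℤ)
    (p q : Fin 3) (s t : ℤ) : X ⊗[k] (Exb b d →₀ k) →ₗ[k] X :=
  (TensorProduct.rid k X).toLinearMap ∘ₗ LinearMap.lTensor X
    (Finsupp.linearCombination k (fun e : Exb b d => if e.1 p = s ∧ e.1 q = t then (1 : k) else 0))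

private theorem hbaE_tmul {d : ℤ} (p q : Fin 3) (s t : ℤ) (x : X) (e : Exb b d) (r : k) :
    hbaE k X b d p q s t (x ⊗ₜ[k] Finsupp.single e r) =
      if e.1 p = s ∧ e.1 q = t then r • x else 0 := by
  simp only [hbaE, LinearMap.comp_apply, LinearMap.lTensor_tmul,
    Finsupp.linearCombination_single, LinearEquiv.coe_coe, TensorProduct.rid_tmul]
  split_ifs <;> simp

private theorem hba_ext {d : ℤ} {Z : Type u} [AddCommGroup Z] [Module k Z]
    {F G : X ⊗[k] (Exb b d →₀ k) →ₗ[k] Z}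
    (h : ∀ (x : X) (e : Exb b d) (r : k), F (x ⊗ₜ[k] Finsupp.single e r) =
      G (x ⊗ₜ[k] Finsupp.single e r)) (z : X ⊗[k] (Exb b d →₀ k)) : F z = G z := by
  have hFG : F = G := by
    refine TensorProduct.ext' fun x y => ?_
    induction y using Finsupp.induction_linear with
    | zero => rw [TensorProduct.tmul_zero, map_zero, map_zero]
    | add y y' hy hy' => rw [TensorProduct.tmul_add, map_add, map_add, hy, hy']
    | single e r => exact h x e r
  rw [hFG]

private theorem hbaE_map {d d' : ℤ} (h : d + 1 = d') (p q : Fin 3) (s t : ℤ) (j : Fin 3)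
    (u : X →ₗ[k] X) (z : X ⊗[k] (Exb b d →₀ k)) :
    hbaE k X b d' p q s t (TensorProduct.map u (Finsupp.lmapDomain k k (Exb.sh h j)) z) =
      u (hbaE k X b d p q (s - if p = j then 1 else 0) (t - if q = j then 1 else 0) z) := by
  have key := hba_ext (F := hbaE k X b d' p q s t ∘ₗ
      TensorProduct.map u (Finsupp.lmapDomain k k (Exb.sh h j)))
    (G := u ∘ₗ hbaE k X b d p q (s - if p = j then 1 else 0) (t - if q = j then 1 else 0)) ?_ z
  · exact key
  · intro x e r
    simp only [LinearMap.comp_apply, TensorProduct.map_tmul, Finsupp.lmapDomain_apply,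
      Finsupp.mapDomain_single, hbaE_tmul]
    have e1 : ((Exb.sh h j e).1 p = s ∧ (Exb.sh h j e).1 q = t) ↔
        (e.1 p = s - (if p = j then 1 else 0) ∧ e.1 q = t - if q = j then 1 else 0) := by
      change (e.1 p + (if p = j then 1 else 0) = s ∧ e.1 q + (if q = j then 1 else 0) = t) ↔ _
      rw [eq_sub_iff_add_eq, eq_sub_iff_add_eq]
    by_cases h1 : (Exb.sh h j e).1 p = s ∧ (Exb.sh h j e).1 q = t
    · rw [if_pos h1, if_pos (e1.1 h1), map_smul]
    · rw [if_neg h1, if_neg (fun h2 => h1 (e1.2 h2)), map_zero]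

private theorem hbaE_rT {d : ℤ} (p q : Fin 3) (s t : ℤ) (u : X →ₗ[k] X)
    (z : X ⊗[k] (Exb b d →₀ k)) :
    hbaE k X b d p q s t (LinearMap.rTensor (Exb b d →₀ k) u z) = u (hbaE k X b d p q s t z) := by
  have key := hba_ext (F := hbaE k X b d p q s t ∘ₗ LinearMap.rTensor (Exb b d →₀ k) u)
    (G := u ∘ₗ hbaE k X b d p q s t) ?_ z
  · exact key
  · intro x e r
    simp only [LinearMap.comp_apply, LinearMap.rTensor_tmul, hbaE_tmul]
    split_ifs
    · rw [map_smul]
    · rw [map_zero]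

private theorem hbaE_lT {d d' : ℤ} (h : d + 1 = d') (p q : Fin 3) (s t : ℤ) (j : Fin 3)
    (z : X ⊗[k] (Exb b d →₀ k)) :
    hbaE k X b d' p q s t (LinearMap.lTensor X (Finsupp.lmapDomain k k (Exb.sh h j)) z) =
      hbaE k X b d p q (s - if p = j then 1 else 0) (t - if q = j then 1 else 0) z :=
  hbaE_map h p q s t j LinearMap.id z

private theorem hba_region {d : ℤ} {p q : Fin 3} {s t : ℤ} {z : X ⊗[k] (Exb b d →₀ k)}
    (h : hbaE k X b d p q s t z ≠ 0) : ∃ e : Exb b d, e.1 p = s ∧ e.1 q = t := by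
  by_contra hcon
  push Not at hcon
  apply h
  have key := hba_ext (F := hbaE k X b d p q s t) (G := 0) ?_ z
  · rw [key, LinearMap.zero_apply]
  · intro x e r
    rw [hbaE_tmul, if_neg (fun h1 => hcon e h1.1 h1.2), LinearMap.zero_apply]

private theorem hba_eq {d : ℤ} {p q a : Fin 3} (hs : ∀ e : Fin 3 → ℤ, ∑ i, e i = e a + e p + e q)
    (hc : ∀ i, i = a ∨ i = p ∨ i = q) {e e' : Exb b d} (h1 : e.1 p = e'.1 p)
    (h2 : e.1 q = e'.1 q) : e = e' := by
  have h3 := e.2.1
  have h4 := e'.2.1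
  rw [hs] at h3 h4
  refine Subtype.ext (funext fun i => ?_)
  rcases hc i with rfl | rfl | rfl
  · linarith
  · exact h1
  · exact h2

open scoped Classical in
private theorem hba_coeff {d : ℤ} {p q a : Fin 3}
    (hs : ∀ e : Fin 3 → ℤ, ∑ i, e i = e a + e p + e q)
    (hc : ∀ i, i = a ∨ i = p ∨ i = q) (z : X ⊗[k] (Exb b d →₀ k)) (e : Exb b d) :
    hbaE k X b d p q (e.1 p) (e.1 q) z = TensorProduct.finsuppScalarRight k k X (Exb b d) z e := by
  have key := hba_ext (F := hbaE k X b d p q (e.1 p) (e.1 q))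
    (G := Finsupp.lapply e ∘ₗ (TensorProduct.finsuppScalarRight k k X (Exb b d)).toLinearMap) ?_ z
  · exact key
  · intro x e' r
    rw [hbaE_tmul]
    simp only [LinearMap.comp_apply, LinearEquiv.coe_coe, Finsupp.lapply_apply,
      TensorProduct.finsuppScalarRight_apply_tmul_apply]
    by_cases h : e' = e
    · subst h
      rw [if_pos ⟨rfl, rfl⟩, Finsupp.single_eq_same]
    · rw [if_neg (fun h1 => h (hba_eq hs hc h1.1 h1.2)), Finsupp.single_eq_of_ne' h, zero_smul]

private theorem hba_inj {d : ℤ} {p q a : Fin 3}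
    (hs : ∀ e : Fin 3 → ℤ, ∑ i, e i = e a + e p + e q)
    (hc : ∀ i, i = a ∨ i = p ∨ i = q) {z z' : X ⊗[k] (Exb b d →₀ k)}
    (h : ∀ s t, hbaE k X b d p q s t z = hbaE k X b d p q s t z') : z = z' := by
  classical
  refine (TensorProduct.finsuppScalarRight k k X (Exb b d)).injective (Finsupp.ext fun e => ?_)
  rw [← hba_coeff hs hc, ← hba_coeff hs hc, h]

private theorem hba_finite {d : ℤ} {p q a : Fin 3}
    (hs : ∀ e : Fin 3 → ℤ, ∑ i, e i = e a + e p + e q)
    (hc : ∀ i, i = a ∨ i = p ∨ i = q) (z : X ⊗[k] (Exb b d →₀ k)) :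
    {x : ℤ × ℤ | hbaE k X b d p q x.1 x.2 z ≠ 0}.Finite := by
  classical
  refine ((TensorProduct.finsuppScalarRight k k X (Exb b d) z).support.finite_toSet.image
    (fun e : Exb b d => (e.1 p, e.1 q))).subset ?_
  rintro ⟨s, t⟩ h
  obtain ⟨e, h1, h2⟩ := hba_region h
  subst h1
  subst h2
  refine ⟨e, ?_, rfl⟩
  rw [Finset.mem_coe, Finsupp.mem_support_iff, ← hba_coeff hs hc]
  exact h

private theorem hba_surj {d : ℤ} {p q a : Fin 3}
    (hs : ∀ e : Fin 3 → ℤ, ∑ i, e i = e a + e p + e q)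
    (hc : ∀ i, i = a ∨ i = p ∨ i = q) (f : ℤ → ℤ → X)
    (hf : {x : ℤ × ℤ | f x.1 x.2 ≠ 0}.Finite)
    (hr : ∀ s t, f s t ≠ 0 → ∃ e : Exb b d, e.1 p = s ∧ e.1 q = t) :
    ∃ z : X ⊗[k] (Exb b d →₀ k), ∀ s t, hbaE k X b d p q s t z = f s t := by
  classical
  have hfin : {e : Exb b d | f (e.1 p) (e.1 q) ≠ 0}.Finite := by
    refine Set.Finite.of_finite_image (f := fun e : Exb b d => (e.1 p, e.1 q))
      (hf.subset ?_) ?_
    · rintro _ ⟨e, he, rfl⟩
      exact he
    · intro e _ e' _ h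
      exact hba_eq hs hc (congrArg Prod.fst h) (congrArg Prod.snd h)
  refine ⟨(TensorProduct.finsuppScalarRight k k X (Exb b d)).symm
    (Finsupp.ofSupportFinite (fun e : Exb b d => f (e.1 p) (e.1 q)) hfin), fun s t => ?_⟩
  by_cases h : ∃ e : Exb b d, e.1 p = s ∧ e.1 q = t
  · obtain ⟨e, rfl, rfl⟩ := h
    rw [hba_coeff hs hc, LinearEquiv.apply_symm_apply]
    rfl
  · have h1 : f s t = 0 := by
      by_contra h2
      exact h (hr s t h2)
    rw [h1]
    by_contra h2
    exact h (hba_region h2)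

private theorem hba_bdd {A : Set (ℤ × ℤ)} (hA : A.Finite) :
    ∃ N : ℤ, ∀ s t, (s, t) ∈ A → s ≤ N ∧ t ≤ N := by
  obtain ⟨N1, h1⟩ := (hA.image Prod.fst).bddAbove
  obtain ⟨N2, h2⟩ := (hA.image Prod.snd).bddAbove
  exact ⟨max N1 N2, fun s t h => ⟨(h1 ⟨_, h, rfl⟩).trans (le_max_left _ _),
    (h2 ⟨_, h, rfl⟩).trans (le_max_right _ _)⟩⟩

private theorem hba_q {d d' : ℤ} (h : d + 1 = d') {p q a : Fin 3}
    (hs : ∀ e : Fin 3 → ℤ, ∑ i, e i = e a + e p + e q)
    (hc : ∀ i, i = a ∨ i = p ∨ i = q) (hpq : p ≠ q) (hpa : p ≠ a) (hqa : q ≠ a)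
    (u v : X →ₗ[k] X) (huv : ∀ x, u (v x) = v (u x)) (c c' : X ⊗[k] (Exb b d' →₀ k))
    (H : ∀ s t, hbaE k X b d' p q s (t - 1) c - v (hbaE k X b d' p q s t c) =
      hbaE k X b d' p q (s - 1) t c' - u (hbaE k X b d' p q s t c')) :
    ∃ z : X ⊗[k] (Exb b d →₀ k),
      (∀ s t, hbaE k X b d p q (s - 1) t z - u (hbaE k X b d p q s t z) = hbaE k X b d' p q s t c) ∧
      (∀ s t, hbaE k X b d p q s (t - 1) z - v (hbaE k X b d p q s t z) =
        hbaE k X b d' p q s t c') := by
  have hcf := hba_finite hs hc c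
  have hcf' := hba_finite hs hc c'
  obtain ⟨N, hN⟩ := hba_bdd hcf
  obtain ⟨N', hN'⟩ := hba_bdd hcf'
  obtain ⟨g, h1, h2, h3, h4⟩ := hba_core u v huv (fun s t => hbaE k X b d' p q s t c)
    (fun s t => hbaE k X b d' p q s t c') (max N N')
    (fun s t hst => by
      by_contra h0
      have := (hN s t h0).1
      have := le_max_left N N'
      omega)
    (fun s t hst => by
      by_contra h0
      have := (hN' s t h0).1
      have := le_max_right N N'
      omega)
    (fun s t hst => by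
      by_contra h0
      have := (hN s t h0).2
      have := le_max_left N N'
      omega) H
  have hfin : {x : ℤ × ℤ | g x.1 x.2 ≠ 0}.Finite := by
    refine ((hcf'.image Prod.fst).prod (hcf.image Prod.snd)).subset ?_
    rintro ⟨s, t⟩ h0
    obtain ⟨n, hn⟩ := h3 s t h0
    obtain ⟨t', ht'⟩ := h4 s t h0
    exact ⟨⟨(s, t'), ht', rfl⟩, ⟨(s + n + 1, t), hn, rfl⟩⟩
  have hreg : ∀ s t, g s t ≠ 0 → ∃ e : Exb b d, e.1 p = s ∧ e.1 q = t := by
    intro s t h0
    obtain ⟨n, hn⟩ := h3 s t h0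
    obtain ⟨t', ht'⟩ := h4 s t h0
    obtain ⟨e, he1, he2⟩ := hba_region hn
    obtain ⟨e', he1', -⟩ := hba_region ht'
    have hsum := e.2.1
    rw [hs] at hsum
    refine ⟨⟨fun i => if i = p then s else if i = q then t else d - s - t, ?_, ?_⟩, ?_, ?_⟩
    · rw [hs]
      simp only [if_true, if_neg hpa.symm, if_neg hqa.symm, if_neg hpq.symm]
      ring
    · intro i hi
      change 0 ≤ if i = p then s else if i = q then t else d - s - t
      rcases hc i with rfl | rfl | rfl
      · rw [if_neg hpa.symm, if_neg hqa.symm]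
        have := e.2.2 i hi
        omega
      · rw [if_pos rfl]
        have := e'.2.2 i hi
        omega
      · rw [if_neg hpq.symm, if_pos rfl]
        have := e.2.2 i hi
        omega
    · change (if p = p then s else if p = q then t else d - s - t) = s
      rw [if_pos rfl]
    · change (if q = p then s else if q = q then t else d - s - t) = t
      rw [if_neg hpq.symm, if_pos rfl]
  obtain ⟨z, hz⟩ := hba_surj (k := k) hs hc g hfin hreg
  refine ⟨z, fun s t => ?_, fun s t => ?_⟩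
  · rw [hz, hz]
    exact h1 s t
  · rw [hz, hz]
    exact h2 s t

private theorem hba_uniq {d : ℤ} {p q a : Fin 3}
    (hs : ∀ e : Fin 3 → ℤ, ∑ i, e i = e a + e p + e q)
    (hc : ∀ i, i = a ∨ i = p ∨ i = q) (u : X →ₗ[k] X) (z : X ⊗[k] (Exb b d →₀ k))
    (h : ∀ s t, hbaE k X b d p q (s - 1) t z - u (hbaE k X b d p q s t z) = 0) : z = 0 := by
  obtain ⟨N, hN⟩ := hba_bdd (hba_finite hs hc z)
  refine hba_inj hs hc fun s t => ?_
  rw [map_zero]
  refine hba_zero u (fun s => hbaE k X b d p q s t z) N (fun s => sub_eq_zero.1 (h s t))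
    (fun s hst => ?_) s
  by_contra h0
  have := (hN s t h0).1
  omega

/-- the general argument, injectivity -/
private theorem hba_mainA (w : Fin 3 → X →ₗ[k] X) {p q a : Fin 3} (hα : w a = LinearMap.id)
    (hs : ∀ e : Fin 3 → ℤ, ∑ i, e i = e a + e p + e q)
    (hc : ∀ i, i = a ∨ i = p ∨ i = q) (hpq : p ≠ q) (hpa : p ≠ a) (hqa : q ≠ a)
    (hdeg : (-2 : ℤ) + 1 = -1) (x : X ⊗[k] (Exb b (-1) →₀ k)) (y : X ⊗[k] (Exb b (-2) →₀ k))
    (H : ∀ j, LinearMap.rTensor (Exb b (-1) →₀ k) (w j) x +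
      LinearMap.lTensor X (Finsupp.lmapDomain k k (Exb.sh hdeg j)) y = 0) : x = 0 ∧ y = 0 := by
  have hE : ∀ (j : Fin 3) (s t : ℤ), w j (hbaE k X b (-1) p q s t x) +
      hbaE k X b (-2) p q (s - if p = j then 1 else 0) (t - if q = j then 1 else 0) y = 0 := by
    intro j s t
    have e1 := congrArg (hbaE k X b (-1) p q s t) (H j)
    rwa [map_add, hbaE_rT, hbaE_lT, map_zero] at e1
  have ha : ∀ s t, hbaE k X b (-1) p q s t x = - hbaE k X b (-2) p q s t y := by
    intro s t
    have h1 := hE a s t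
    rw [if_neg hpa, if_neg hqa, sub_zero, sub_zero, hα, LinearMap.id_apply] at h1
    exact eq_neg_of_add_eq_zero_left h1
  have hy : y = 0 := by
    refine hba_uniq hs hc (w p) y fun s t => ?_
    have h1 := hE p s t
    rw [if_pos rfl, if_neg hpq.symm, sub_zero, ha, map_neg] at h1
    rw [← h1]
    abel
  have hx : x = 0 := by
    refine hba_inj hs hc fun s t => ?_
    rw [ha, hy, map_zero, map_zero, neg_zero]
  exact ⟨hx, hy⟩

/-- the general argument, exactness -/
private theorem hba_mainB (w : Fin 3 → X →ₗ[k] X)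
    (hw : ∀ i j x, w i (w j x) = w j (w i x)) {p q a : Fin 3} (hα : w a = LinearMap.id)
    (hs : ∀ e : Fin 3 → ℤ, ∑ i, e i = e a + e p + e q)
    (hc : ∀ i, i = a ∨ i = p ∨ i = q) (hpq : p ≠ q) (hpa : p ≠ a) (hqa : q ≠ a)
    (hdeg : (-2 : ℤ) + 1 = -1) (c : Fin 3 → X ⊗[k] (Exb b (-1) →₀ k))
    (hD : ∀ s t, (hbaE k X b (-1) p q s (t - 1) (c p) -
          w p (hbaE k X b (-1) p q s (t - 1) (c a))) -
        w q (hbaE k X b (-1) p q s t (c p) - w p (hbaE k X b (-1) p q s t (c a))) =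
        (hbaE k X b (-1) p q (s - 1) t (c q) - w q (hbaE k X b (-1) p q (s - 1) t (c a))) -
        w p (hbaE k X b (-1) p q s t (c q) - w q (hbaE k X b (-1) p q s t (c a)))) :
    ∃ (x : X ⊗[k] (Exb b (-1) →₀ k)) (y : X ⊗[k] (Exb b (-2) →₀ k)),
      ∀ j, LinearMap.rTensor (Exb b (-1) →₀ k) (w j) x +
      LinearMap.lTensor X (Finsupp.lmapDomain k k (Exb.sh hdeg j)) y = c j := by
  have hqp : q ≠ p := hpq.symm
  have e0 : ∀ (s t : ℤ) (j : Fin 3), hbaE k X b (-1) p q s t
      (c j - LinearMap.rTensor (Exb b (-1) →₀ k) (w j) (c a)) =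
      hbaE k X b (-1) p q s t (c j) - w j (hbaE k X b (-1) p q s t (c a)) := by
    intro s t j
    rw [map_sub, hbaE_rT]
  obtain ⟨z, hz1, hz2⟩ := hba_q hdeg hs hc hpq hpa hqa (w p) (w q) (hw p q)
    (c p - LinearMap.rTensor (Exb b (-1) →₀ k) (w p) (c a))
    (c q - LinearMap.rTensor (Exb b (-1) →₀ k) (w q) (c a)) (fun s t => by
      rw [e0, e0, e0, e0]
      exact hD s t)
  refine ⟨c a - LinearMap.lTensor X (Finsupp.lmapDomain k k (Exb.sh hdeg a)) z, z, fun j => ?_⟩
  refine hba_inj hs hc fun s t => ?_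
  rw [map_add, hbaE_rT, hbaE_lT, map_sub, hbaE_lT, if_neg hpa, if_neg hqa, sub_zero, sub_zero]
  rcases hc j with rfl | rfl | rfl
  · rw [hα, LinearMap.id_apply, if_neg hpa, if_neg hqa, sub_zero, sub_zero]
    abel
  · have h1 := hz1 s t
    rw [map_sub, hbaE_rT] at h1
    rw [if_pos rfl, if_neg hqp, sub_zero, map_sub]
    have h2 : hbaE k X b (-1) j q s t (c j) = hbaE k X b (-2) j q (s - 1) t z -
        w j (hbaE k X b (-2) j q s t z) + w j (hbaE k X b (-1) j q s t (c a)) := by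
      rw [h1]; abel
    rw [h2]
    abel
  · have h1 := hz2 s t
    rw [map_sub, hbaE_rT] at h1
    rw [if_neg hpq, if_pos rfl, sub_zero, map_sub]
    have h2 : hbaE k X b (-1) p j s t (c j) = hbaE k X b (-2) p j s (t - 1) z -
        w j (hbaE k X b (-2) p j s t z) + w j (hbaE k X b (-1) p j s t (c a)) := by
      rw [h1]; abel
    rw [h2]
    abel

/-- the general argument -/
private theorem hba_main (w : Fin 3 → X →ₗ[k] X)
    (hw : ∀ i j x, w i (w j x) = w j (w i x)) {p q a : Fin 3} (hα : w a = LinearMap.id)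
    (hs : ∀ e : Fin 3 → ℤ, ∑ i, e i = e a + e p + e q)
    (hc : ∀ i, i = a ∨ i = p ∨ i = q) (hpq : p ≠ q) (hpa : p ≠ a) (hqa : q ≠ a)
    (hD : ∀ c : Fin 3 → X ⊗[k] (Exb b (-1) →₀ k), hb1 (Tw.con w hw) (Tw.pol k b) c = 0 →
      ∀ s t, (hbaE k X b (-1) p q s (t - 1) (c p) -
          w p (hbaE k X b (-1) p q s (t - 1) (c a))) -
        w q (hbaE k X b (-1) p q s t (c p) - w p (hbaE k X b (-1) p q s t (c a))) =
        (hbaE k X b (-1) p q (s - 1) t (c q) - w q (hbaE k X b (-1) p q (s - 1) t (c a))) -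
        w p (hbaE k X b (-1) p q s t (c q) - w q (hbaE k X b (-1) p q s t (c a)))) :
    EX (Tw.con w hw) (Tw.pol k b) := by
  have hdeg : (-2 : ℤ) + 1 = -1 := by norm_num
  refine ⟨(injective_iff_map_eq_zero (hb2 (Tw.con w hw) (Tw.pol k b))).2 ?_, ?_⟩
  · intro z hz
    obtain ⟨x, y⟩ := z
    have h1 := hba_mainA w hα hs hc hpq hpa hqa hdeg x y (fun j => congrFun hz j)
    exact Prod.ext h1.1 h1.2
  · intro c hcz
    obtain ⟨x, y, h1⟩ := hba_mainB w hw hα hs hc hpq hpa hqa hdeg c (hD c hcz)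
    exact ⟨(x, y), funext h1⟩

end hba

/-- Section 5a. Identify `X ⊗ (Exb b d →₀ k)` with `Exb b d →₀ X`; the map `y_j` shifts the
exponents by the unit vector `j`, and `x_j` is `w j` on the coefficients. Write
`η_j = y_j - w_j y_α` for `j ≠ α`, and `{0, 1, 2} = {α, p, q}`.
(i) `η_p` is injective: if `η_p c = 0` then `c (e) = w_p (c (e + ε_p - ε_α))`, iterate until the
exponent leaves the finite support.
(ii) If `η_q c = η_p c'` then there is `c''` with `c = η_p c''` and `c' = η_q c''`: multiply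
with a power of `y_p` (invertible if `p ∈ b`) so that only exponents `e_p ≥ 0` occur; divide by
`y_p - w_p y_α`, monic in `y_p`: `c = η_p c'' + r` with `r` free of `y_p`; then
`η_q r = η_p (c' - η_q c'')` is free of `y_p`, so `c' = η_q c''` (top degree in `y_p`) and
`η_q r = 0`, `r = 0`.
(iii) `hb2 (α', β) = 0`: the component `α` gives `α' = - y_α β`, the others `η_j β = 0`, so
`β = 0`. `hb1 c = 0`: subtract `hb2 (c_α, 0)`, so that `c_α = 0`; then `η_q c_p = η_p c_q` (up to
sign), so `c_p = η_p γ`, `c_q = η_q γ` and `c = hb2 (- y_α γ, γ)`. -/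
theorem ex_con_pol {X : Type u} [AddCommGroup X] [Module k X] (w : Fin 3 → X →ₗ[k] X)
    (hw : ∀ i j x, w i (w j x) = w j (w i x)) (α : Fin 3) (hα : w α = LinearMap.id)
    (b : Set (Fin 3)) : EX (Tw.con w hw) (Tw.pol k b) := by
  have h01 : (0 : ℤ) = -1 + 1 := by norm_num
  have hone : ∀ (p q : Fin 3) (c : Fin 3 → X ⊗[k] (Exb b (-1) →₀ k)),
      hb1 (Tw.con w hw) (Tw.pol k b) c = 0 → ∀ s t,
      (w 1 (hbaE k X b (-1) p q (s - if p = 2 then 1 else 0) (t - if q = 2 then 1 else 0) (c 0)) -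
        w 2 (hbaE k X b (-1) p q (s - if p = 1 then 1 else 0) (t - if q = 1 then 1 else 0) (c 0))) -
      (w 0 (hbaE k X b (-1) p q (s - if p = 2 then 1 else 0) (t - if q = 2 then 1 else 0) (c 1)) -
        w 2 (hbaE k X b (-1) p q (s - if p = 0 then 1 else 0) (t - if q = 0 then 1 else 0) (c 1))) +
      (w 0 (hbaE k X b (-1) p q (s - if p = 1 then 1 else 0) (t - if q = 1 then 1 else 0) (c 2)) -
        w 1 (hbaE k X b (-1) p q (s - if p = 0 then 1 else 0) (t - if q = 0 then 1 else 0) (c 2)))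
      = 0 := by
    intro p q c hcz s t
    have e1 : (TensorProduct.map (w 1) (Finsupp.lmapDomain k k (Exb.sh h01.symm 2)) (c 0) -
          TensorProduct.map (w 2) (Finsupp.lmapDomain k k (Exb.sh h01.symm 1)) (c 0)) -
        (TensorProduct.map (w 0) (Finsupp.lmapDomain k k (Exb.sh h01.symm 2)) (c 1) -
          TensorProduct.map (w 2) (Finsupp.lmapDomain k k (Exb.sh h01.symm 0)) (c 1)) +
        (TensorProduct.map (w 0) (Finsupp.lmapDomain k k (Exb.sh h01.symm 1)) (c 2) -
          TensorProduct.map (w 1) (Finsupp.lmapDomain k k (Exb.sh h01.symm 0)) (c 2)) =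
        (0 : X ⊗[k] (Exb b 0 →₀ k)) := hcz
    have e2 := congrArg (hbaE k X b 0 p q s t) e1
    simpa only [map_add, map_sub, map_zero, hbaE_map] using e2
  have hfin : α = 0 ∨ α = 1 ∨ α = 2 := by omega
  rcases hfin with rfl | rfl | rfl
  · refine hba_main (p := 1) (q := 2) (a := 0) w hw hα (fun e => by rw [Fin.sum_univ_three])
      (by decide) (by decide) (by decide) (by decide) (fun c hcz s t => ?_)
    have e1 := hone 1 2 c hcz s t
    simp only [hα, LinearMap.id_apply, reduceIte, Fin.isValue, Fin.reduceEq, sub_zero] at e1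
    rw [← sub_eq_zero, ← neg_eq_zero, ← e1, map_sub, map_sub, hw 1 2]
    abel
  · refine hba_main (p := 0) (q := 2) (a := 1) w hw hα
      (fun e => by rw [Fin.sum_univ_three]; ring)
      (by decide) (by decide) (by decide) (by decide) (fun c hcz s t => ?_)
    have e1 := hone 0 2 c hcz s t
    simp only [hα, LinearMap.id_apply, reduceIte, Fin.isValue, Fin.reduceEq, sub_zero] at e1
    rw [← sub_eq_zero, ← e1, map_sub, map_sub, hw 0 2]
    abel
  · refine hba_main (p := 0) (q := 1) (a := 2) w hw hα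
      (fun e => by rw [Fin.sum_univ_three]; ring)
      (by decide) (by decide) (by decide) (by decide) (fun c hcz s t => ?_)
    have e1 := hone 0 1 c hcz s t
    simp only [hα, LinearMap.id_apply, reduceIte, Fin.isValue, Fin.reduceEq, sub_zero] at e1
    rw [← sub_eq_zero, ← neg_eq_zero, ← e1, map_sub, map_sub, hw 0 1]
    abel

end Pool.Agent.MP_6e5bed_ag_NS
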