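import Pool.Agent.Lib.MP_6e5bed_ag_NS.Tw

/-!
# MP_6e5bed_ag, NC SURFACES: formal properties of the Hilbert-Burch complex (section 5b)
-/

set_option autoImplicit false

noncomputable section

namespace Pool.Agent.MP_6e5bed_ag_NS

open scoped TensorProduct

universe u

variable {k : Type u} [Field k]

/-! ### naturality -/

private theorem HBb_rT {X X' Y Y' : Tw k} (f : TwHom X X') (g : Y.X1 →ₗ[k] Y'.X1) (j : Fin 3)
    (t : X.X2 ⊗[k] Y.X1) : LinearMap.rTensor Y'.X1 (X'.x2 j) (TensorProduct.map f.f2 g t) =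
      TensorProduct.map f.f1 g (LinearMap.rTensor Y.X1 (X.x2 j) t) := by
  induction t using TensorProduct.induction_on with
  | zero => simp only [map_zero]
  | tmul a b =>
    rw [TensorProduct.map_tmul, LinearMap.rTensor_tmul, LinearMap.rTensor_tmul,
      TensorProduct.map_tmul, f.h2]
  | add s t hs ht => simp only [map_add, hs, ht]

private theorem HBb_lT {X X' Y Y' : Tw k} (f : X.X1 →ₗ[k] X'.X1) (g : TwHom Y Y') (j : Fin 3)
    (t : X.X1 ⊗[k] Y.X2) : LinearMap.lTensor X'.X1 (Y'.x2 j) (TensorProduct.map f g.f2 t) =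
      TensorProduct.map f g.f1 (LinearMap.lTensor X.X1 (Y.x2 j) t) := by
  induction t using TensorProduct.induction_on with
  | zero => simp only [map_zero]
  | tmul a b =>
    rw [TensorProduct.map_tmul, LinearMap.lTensor_tmul, LinearMap.lTensor_tmul,
      TensorProduct.map_tmul, g.h2]
  | add s t hs ht => simp only [map_add, hs, ht]

private theorem HBb_nat2 {X X' Y Y' : Tw k} (f : TwHom X X') (g : TwHom Y Y')
    (α : X.X2 ⊗[k] Y.X1) (β : X.X1 ⊗[k] Y.X2) (j : Fin 3) :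
    hb2 X' Y' (TensorProduct.map f.f2 g.f1 α, TensorProduct.map f.f1 g.f2 β) j =
      TensorProduct.map f.f1 g.f1 (hb2 X Y (α, β) j) := by
  rw [hb2_apply, hb2_apply, map_add, HBb_rT, HBb_lT]

private theorem HBb_mnr {X X' Y Y' : Tw k} (f : TwHom X X') (g : TwHom Y Y') (i j : Fin 3)
    (t : X.X1 ⊗[k] Y.X1) : mnr X' Y' i j (TensorProduct.map f.f1 g.f1 t) =
      TensorProduct.map f.f0 g.f0 (mnr X Y i j t) := by
  induction t using TensorProduct.induction_on with
  | zero => simp only [map_zero]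
  | tmul a b =>
    unfold mnr
    rw [LinearMap.sub_apply, LinearMap.sub_apply, map_sub]
    simp only [TensorProduct.map_tmul, f.h1, g.h1]
  | add s t hs ht => simp only [map_add, hs, ht]

private theorem HBb_nat1 {X X' Y Y' : Tw k} (f : TwHom X X') (g : TwHom Y Y')
    (c : Fin 3 → X.X1 ⊗[k] Y.X1) :
    hb1 X' Y' (fun j => TensorProduct.map f.f1 g.f1 (c j)) =
      TensorProduct.map f.f0 g.f0 (hb1 X Y c) := by
  rw [hb1_apply, hb1_apply, HBb_mnr, HBb_mnr, HBb_mnr, map_add, map_sub]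

private def HBb_id (X : Tw k) : TwHom X X where
  f0 := LinearMap.id
  f1 := LinearMap.id
  f2 := LinearMap.id
  h1 := fun _ _ => rfl
  h2 := fun _ _ => rfl

private def HBb_to {X Y : Tw k} (f : TwIso X Y) : TwHom X Y where
  f0 := f.f0
  f1 := f.f1
  f2 := f.f2
  h1 := f.h1
  h2 := f.h2

private def HBb_inv {X Y : Tw k} (f : TwIso X Y) : TwHom Y X where
  f0 := f.f0.symm
  f1 := f.f1.symm
  f2 := f.f2.symm
  h1 := fun j x => by
    obtain ⟨y, rfl⟩ := f.f1.surjective x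
    change f.f0.symm (Y.x1 j (f.f1 y)) = X.x1 j (f.f1.symm (f.f1 y))
    rw [← f.h1, LinearEquiv.symm_apply_apply, LinearEquiv.symm_apply_apply]
  h2 := fun j x => by
    obtain ⟨y, rfl⟩ := f.f2.surjective x
    change f.f1.symm (Y.x2 j (f.f2 y)) = X.x2 j (f.f2.symm (f.f2 y))
    rw [← f.h2, LinearEquiv.symm_apply_apply, LinearEquiv.symm_apply_apply]

/-- the sum of the compositions of maps of tensor products -/
private theorem HBb_sum {I : Type} (S : Finset I) {A B : Type u} [AddCommGroup A] [Module k A]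
    [AddCommGroup B] [Module k B] {A' B' : I → Type u} [∀ i, AddCommGroup (A' i)]
    [∀ i, Module k (A' i)] [∀ i, AddCommGroup (B' i)] [∀ i, Module k (B' i)]
    (p : ∀ i, A →ₗ[k] A' i) (e : ∀ i, A' i →ₗ[k] A) (q : ∀ i, B →ₗ[k] B' i)
    (f : ∀ i, B' i →ₗ[k] B)
    (h : ∀ a b, ∑ i ∈ S, e i (p i a) ⊗ₜ[k] f i (q i b) = a ⊗ₜ[k] b) (t : A ⊗[k] B) :
    ∑ i ∈ S, TensorProduct.map (e i) (f i) (TensorProduct.map (p i) (q i) t) = t := by
  induction t using TensorProduct.induction_on with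
  | zero => simp only [map_zero, Finset.sum_const_zero]
  | tmul a b => simpa only [TensorProduct.map_tmul] using h a b
  | add s t hs ht => simp only [map_add, Finset.sum_add_distrib, hs, ht]

/-- decompositions -/
private theorem HBb_dec {I : Type} [Fintype I] {X' Y' : Tw k} {X Y : I → Tw k}
    (p : ∀ i, TwHom X' (X i)) (e : ∀ i, TwHom (X i) X') (q : ∀ i, TwHom Y' (Y i))
    (f : ∀ i, TwHom (Y i) Y')
    (h21 : ∀ a b, ∑ i, (e i).f2 ((p i).f2 a) ⊗ₜ[k] (f i).f1 ((q i).f1 b) = a ⊗ₜ[k] b)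
    (h12 : ∀ a b, ∑ i, (e i).f1 ((p i).f1 a) ⊗ₜ[k] (f i).f2 ((q i).f2 b) = a ⊗ₜ[k] b)
    (h11 : ∀ a b, ∑ i, (e i).f1 ((p i).f1 a) ⊗ₜ[k] (f i).f1 ((q i).f1 b) = a ⊗ₜ[k] b)
    (h : ∀ i, EX (X i) (Y i)) : EX X' Y' := by
  constructor
  · rw [injective_iff_map_eq_zero]
    rintro ⟨α, β⟩ hz
    have h1 : ∀ i, hb2 (X i) (Y i) (TensorProduct.map (p i).f2 (q i).f1 α,
        TensorProduct.map (p i).f1 (q i).f2 β) = 0 := by
      intro i
      funext j
      rw [HBb_nat2, hz]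
      exact map_zero _
    have h2 : ∀ i, TensorProduct.map (p i).f2 (q i).f1 α = 0 ∧
        TensorProduct.map (p i).f1 (q i).f2 β = 0 := by
      intro i
      have h3 := (h i).1 ((h1 i).trans (map_zero _).symm)
      exact ⟨congrArg Prod.fst h3, congrArg Prod.snd h3⟩
    have h4 := HBb_sum Finset.univ (fun i => (p i).f2) (fun i => (e i).f2) (fun i => (q i).f1)
      (fun i => (f i).f1) h21 α
    have h5 := HBb_sum Finset.univ (fun i => (p i).f1) (fun i => (e i).f1) (fun i => (q i).f2)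
      (fun i => (f i).f2) h12 β
    rw [← h4, ← h5]
    refine Prod.ext ?_ ?_
    · exact Finset.sum_eq_zero fun i _ => by rw [(h2 i).1, map_zero]
    · exact Finset.sum_eq_zero fun i _ => by rw [(h2 i).2, map_zero]
  · intro c hc
    have h1 : ∀ i, ∃ z, hb2 (X i) (Y i) z = fun j => TensorProduct.map (p i).f1 (q i).f1 (c j) := by
      intro i
      apply (h i).2
      rw [HBb_nat1, hc, map_zero]
    choose z hz using h1
    refine ⟨(∑ i, TensorProduct.map (e i).f2 (f i).f1 (z i).1,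
      ∑ i, TensorProduct.map (e i).f1 (f i).f2 (z i).2), ?_⟩
    funext j
    have h2 : ((∑ i, TensorProduct.map (e i).f2 (f i).f1 (z i).1,
        ∑ i, TensorProduct.map (e i).f1 (f i).f2 (z i).2) :
        (X'.X2 ⊗[k] Y'.X1) × (X'.X1 ⊗[k] Y'.X2)) =
        ∑ i, (TensorProduct.map (e i).f2 (f i).f1 (z i).1,
          TensorProduct.map (e i).f1 (f i).f2 (z i).2) := by
      refine Prod.ext ?_ ?_
      · rw [Prod.fst_sum]
      · rw [Prod.snd_sum]
    rw [h2, map_sum, Finset.sum_apply]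
    have h3 : ∀ i, hb2 X' Y' (TensorProduct.map (e i).f2 (f i).f1 (z i).1,
          TensorProduct.map (e i).f1 (f i).f2 (z i).2) j =
        TensorProduct.map (e i).f1 (f i).f1 (TensorProduct.map (p i).f1 (q i).f1 (c j)) := by
      intro i
      rw [HBb_nat2]
      congr 1
      exact congrFun (hz i) j
    rw [Finset.sum_congr rfl fun i _ => h3 i]
    exact HBb_sum Finset.univ (fun i => (p i).f1) (fun i => (e i).f1) (fun i => (q i).f1)
      (fun i => (f i).f1) h11 (c j)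

/-- retracts -/
private theorem HBb_retr {X X' Y Y' : Tw k} (p : TwHom X' X) (e : TwHom X X') (q : TwHom Y' Y)
    (f : TwHom Y Y') (h1 : ∀ a, e.f1 (p.f1 a) = a) (h2 : ∀ a, e.f2 (p.f2 a) = a)
    (h3 : ∀ a, f.f1 (q.f1 a) = a) (h4 : ∀ a, f.f2 (q.f2 a) = a) (h : EX X Y) : EX X' Y' :=
  HBb_dec (I := Unit) (X := fun _ => X) (Y := fun _ => Y) (fun _ => p) (fun _ => e) (fun _ => q)
    (fun _ => f) (fun a b => by simp [h2, h3]) (fun a b => by simp [h1, h4])
    (fun a b => by simp [h1, h3]) (fun _ => h)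

theorem EX.iso {X X' Y Y' : Tw k} (f : TwIso X X') (g : TwIso Y Y') (h : EX X Y) : EX X' Y' :=
  HBb_retr (HBb_inv f) (HBb_to f) (HBb_inv g) (HBb_to g)
    (fun a => f.f1.apply_symm_apply a) (fun a => f.f2.apply_symm_apply a)
    (fun a => g.f1.apply_symm_apply a) (fun a => g.f2.apply_symm_apply a) h

/-- finite powers -/
def Tw.pow (n : ℕ) (Y : Tw k) : Tw k where
  X0 := Fin n → Y.X0
  X1 := Fin n → Y.X1
  X2 := Fin n → Y.X2
  x1 := fun j => LinearMap.pi fun i => Y.x1 j ∘ₗ LinearMap.proj i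
  x2 := fun j => LinearMap.pi fun i => Y.x2 j ∘ₗ LinearMap.proj i
  comm := fun i j x => funext fun l => Y.comm i j (x l)

/-- products -/
def Tw.prod (X Y : Tw k) : Tw k where
  X0 := X.X0 × Y.X0
  X1 := X.X1 × Y.X1
  X2 := X.X2 × Y.X2
  x1 := fun j => LinearMap.prodMap (X.x1 j) (Y.x1 j)
  x2 := fun j => LinearMap.prodMap (X.x2 j) (Y.x2 j)
  comm := fun i j x => Prod.ext (X.comm i j x.1) (Y.comm i j x.2)

private def HBb_pr (n : ℕ) (Y : Tw k) (i : Fin n) : TwHom (Tw.pow n Y) Y where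
  f0 := LinearMap.proj i
  f1 := LinearMap.proj i
  f2 := LinearMap.proj i
  h1 := fun _ _ => rfl
  h2 := fun _ _ => rfl

private def HBb_in (n : ℕ) (Y : Tw k) (i : Fin n) : TwHom Y (Tw.pow n Y) where
  f0 := LinearMap.single k (fun _ : Fin n => Y.X0) i
  f1 := LinearMap.single k (fun _ : Fin n => Y.X1) i
  f2 := LinearMap.single k (fun _ : Fin n => Y.X2) i
  h1 := fun j x => by
    funext l
    change (Pi.single i (Y.x1 j x) : Fin n → Y.X0) l =
      Y.x1 j ((Pi.single i x : Fin n → Y.X1) l)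
    by_cases h : l = i
    · subst h
      rw [Pi.single_eq_same, Pi.single_eq_same]
    · rw [Pi.single_eq_of_ne h, Pi.single_eq_of_ne h, map_zero]
  h2 := fun j x => by
    funext l
    change (Pi.single i (Y.x2 j x) : Fin n → Y.X1) l =
      Y.x2 j ((Pi.single i x : Fin n → Y.X2) l)
    by_cases h : l = i
    · subst h
      rw [Pi.single_eq_same, Pi.single_eq_same]
    · rw [Pi.single_eq_of_ne h, Pi.single_eq_of_ne h, map_zero]

private theorem HBb_single {n : ℕ} {A B : Type u} [AddCommGroup A] [Module k A]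
    [AddCommGroup B] [Module k B] (a : A) (b : Fin n → B) :
    ∑ i, a ⊗ₜ[k] (LinearMap.single k (fun _ : Fin n => B) i (b i)) = a ⊗ₜ[k] b := by
  rw [← TensorProduct.tmul_sum]
  congr 1
  exact LinearMap.sum_single_apply _ b

theorem EX.pow {X Y : Tw k} (h : EX X Y) (n : ℕ) : EX X (Tw.pow n Y) :=
  HBb_dec (I := Fin n) (X := fun _ => X) (Y := fun _ => Y) (fun _ => HBb_id X)
    (fun _ => HBb_id X) (fun i => HBb_pr n Y i) (fun i => HBb_in n Y i)
    (fun a b => HBb_single a b) (fun a b => HBb_single a b) (fun a b => HBb_single a b)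
    (fun _ => h)

/-- the kernel of a morphism -/
def Tw.ker {Y Y' : Tw k} (f : TwHom Y Y') : Tw k where
  X0 := LinearMap.ker f.f0
  X1 := LinearMap.ker f.f1
  X2 := LinearMap.ker f.f2
  x1 := fun j => (Y.x1 j ∘ₗ (LinearMap.ker f.f1).subtype).codRestrict (LinearMap.ker f.f0)
    (fun x => by
      rw [LinearMap.mem_ker, LinearMap.comp_apply, f.h1]
      rw [show f.f1 ((LinearMap.ker f.f1).subtype x) = 0 from x.2, map_zero])
  x2 := fun j => (Y.x2 j ∘ₗ (LinearMap.ker f.f2).subtype).codRestrict (LinearMap.ker f.f1)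
    (fun x => by
      rw [LinearMap.mem_ker, LinearMap.comp_apply, f.h2]
      rw [show f.f2 ((LinearMap.ker f.f2).subtype x) = 0 from x.2, map_zero])
  comm := fun i j x => Subtype.ext (Y.comm i j x.1)

private def HBb_kin {Y Y' : Tw k} (f : TwHom Y Y') : TwHom (Tw.ker f) Y where
  f0 := (LinearMap.ker f.f0).subtype
  f1 := (LinearMap.ker f.f1).subtype
  f2 := (LinearMap.ker f.f2).subtype
  h1 := fun _ _ => rfl
  h2 := fun _ _ => rfl

private theorem HBb_inj {A B : Type u} [AddCommGroup A] [Module k A] [AddCommGroup B]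
    [Module k B] (S : Submodule k B) :
    Function.Injective (TensorProduct.map (LinearMap.id : A →ₗ[k] A) S.subtype) :=
  Module.Flat.lTensor_preserves_injective_linearMap S.subtype S.subtype_injective

private theorem HBb_comp {A B B' : Type u} [AddCommGroup A] [Module k A] [AddCommGroup B]
    [Module k B] [AddCommGroup B'] [Module k B'] (f : B →ₗ[k] B')
    (t : A ⊗[k] LinearMap.ker f) : TensorProduct.map (LinearMap.id : A →ₗ[k] A) f
      (TensorProduct.map (LinearMap.id : A →ₗ[k] A) (LinearMap.ker f).subtype t) = 0 := by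
  induction t using TensorProduct.induction_on with
  | zero => simp only [map_zero]
  | tmul a b =>
    rw [TensorProduct.map_tmul, TensorProduct.map_tmul]
    rw [show f ((LinearMap.ker f).subtype b) = 0 from b.2, TensorProduct.tmul_zero]
  | add s t hs ht => simp only [map_add, hs, ht, add_zero]

private theorem HBb_ex {A B B' : Type u} [AddCommGroup A] [Module k A] [AddCommGroup B]
    [Module k B] [AddCommGroup B'] [Module k B'] (f : B →ₗ[k] B') (t : A ⊗[k] B)
    (h : TensorProduct.map (LinearMap.id : A →ₗ[k] A) f t = 0) :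
    ∃ z, TensorProduct.map (LinearMap.id : A →ₗ[k] A) (LinearMap.ker f).subtype z = t := by
  have h1 : Function.Exact (LinearMap.ker f).subtype f := LinearMap.exact_subtype_ker_map f
  have h2 := Module.Flat.lTensor_exact A h1
  exact (h2 t).1 h

/-- Dimension shift: `hb1 c = 0` for `c` with values in the kernel gives `c = hb2 (α, β)` over
`Y`; then `hb2 (f α, f β) = f c = 0`, so `f α = 0`, `f β = 0`, and `α`, `β` come from
`X ⊗ ker f` (which is the kernel of `X ⊗ f`, `k` is a field). -/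
theorem EX.ker {X Y Y' : Tw k} (f : TwHom Y Y') (h : EX X Y)
    (h' : Function.Injective (hb2 X Y')) : EX X (Tw.ker f) := by
  have i1 : Function.Injective (TensorProduct.map (HBb_id X).f1 (HBb_kin f).f1) :=
    HBb_inj (LinearMap.ker f.f1)
  have i2 : Function.Injective (TensorProduct.map (HBb_id X).f2 (HBb_kin f).f1) :=
    HBb_inj (LinearMap.ker f.f1)
  have i3 : Function.Injective (TensorProduct.map (HBb_id X).f1 (HBb_kin f).f2) :=
    HBb_inj (LinearMap.ker f.f2)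
  have i0 : Function.Injective (TensorProduct.map (HBb_id X).f0 (HBb_kin f).f0) :=
    HBb_inj (LinearMap.ker f.f0)
  constructor
  · rw [injective_iff_map_eq_zero]
    rintro ⟨α, β⟩ hz
    have h1 : hb2 X Y (TensorProduct.map (HBb_id X).f2 (HBb_kin f).f1 α,
        TensorProduct.map (HBb_id X).f1 (HBb_kin f).f2 β) = 0 := by
      funext j
      rw [HBb_nat2, hz]
      exact map_zero _
    have h3 := h.1 (h1.trans (map_zero _).symm)
    have h4 : TensorProduct.map (HBb_id X).f2 (HBb_kin f).f1 α = 0 := congrArg Prod.fst h3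
    have h5 : TensorProduct.map (HBb_id X).f1 (HBb_kin f).f2 β = 0 := congrArg Prod.snd h3
    exact Prod.ext (i2 (h4.trans (map_zero _).symm)) (i3 (h5.trans (map_zero _).symm))
  · intro c hc
    have h1 : hb1 X Y (fun j => TensorProduct.map (HBb_id X).f1 (HBb_kin f).f1 (c j)) = 0 := by
      rw [HBb_nat1, hc, map_zero]
    obtain ⟨⟨α, β⟩, hz⟩ := h.2 _ h1
    have h2 : hb2 X Y' (TensorProduct.map (HBb_id X).f2 f.f1 α,
        TensorProduct.map (HBb_id X).f1 f.f2 β) = 0 := by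
      funext j
      rw [HBb_nat2 (HBb_id X) f, hz]
      change TensorProduct.map (HBb_id X).f1 f.f1
        (TensorProduct.map (HBb_id X).f1 (HBb_kin f).f1 (c j)) = 0
      exact HBb_comp f.f1 (c j)
    have h3 := h' (h2.trans (map_zero _).symm)
    obtain ⟨α', hα⟩ := HBb_ex f.f1 α (congrArg Prod.fst h3)
    obtain ⟨β', hβ⟩ := HBb_ex f.f2 β (congrArg Prod.snd h3)
    refine ⟨(α', β'), ?_⟩
    funext j
    apply i1
    rw [← HBb_nat2]
    have h4 : TensorProduct.map (HBb_id X).f2 (HBb_kin f).f1 α' = α := hα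
    have h5 : TensorProduct.map (HBb_id X).f1 (HBb_kin f).f2 β' = β := hβ
    rw [h4, h5, hz]

/-- `EX`, and `q` is the cokernel of `hb1`. -/
def HBe (X Y : Tw k) {Z : Type u} [AddCommGroup Z] [Module k Z]
    (q : X.X0 ⊗[k] Y.X0 →ₗ[k] Z) : Prop :=
  EX X Y ∧ Function.Surjective q ∧ (∀ z, q (hb1 X Y z) = 0) ∧
    ∀ t, q t = 0 → ∃ z, hb1 X Y z = t

/-- decompositions into two terms -/
private theorem HBb_two {X' Y' Xa Ya Xb Yb : Tw k} {Z Z' : Type u} [AddCommGroup Z] [Module k Z]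
    [AddCommGroup Z'] [Module k Z'] (pa : TwHom X' Xa) (ea : TwHom Xa X') (qa : TwHom Y' Ya)
    (fa : TwHom Ya Y') (pb : TwHom X' Xb) (eb : TwHom Xb X') (qb : TwHom Y' Yb)
    (fb : TwHom Yb Y')
    (h21 : ∀ a b, ea.f2 (pa.f2 a) ⊗ₜ[k] fa.f1 (qa.f1 b) + eb.f2 (pb.f2 a) ⊗ₜ[k] fb.f1 (qb.f1 b) =
      a ⊗ₜ[k] b)
    (h12 : ∀ a b, ea.f1 (pa.f1 a) ⊗ₜ[k] fa.f2 (qa.f2 b) + eb.f1 (pb.f1 a) ⊗ₜ[k] fb.f2 (qb.f2 b) =
      a ⊗ₜ[k] b)
    (h11 : ∀ a b, ea.f1 (pa.f1 a) ⊗ₜ[k] fa.f1 (qa.f1 b) + eb.f1 (pb.f1 a) ⊗ₜ[k] fb.f1 (qb.f1 b) =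
      a ⊗ₜ[k] b)
    (h00 : ∀ a b, ea.f0 (pa.f0 a) ⊗ₜ[k] fa.f0 (qa.f0 b) + eb.f0 (pb.f0 a) ⊗ₜ[k] fb.f0 (qb.f0 b) =
      a ⊗ₜ[k] b)
    {q : Xa.X0 ⊗[k] Ya.X0 →ₗ[k] Z} {q' : Xb.X0 ⊗[k] Yb.X0 →ₗ[k] Z'}
    (ha : HBe Xa Ya q) (hb : HBe Xb Yb q') (Q : X'.X0 ⊗[k] Y'.X0 →ₗ[k] Z × Z')
    (hQ : ∀ t, Q t = (q (TensorProduct.map pa.f0 qa.f0 t), q' (TensorProduct.map pb.f0 qb.f0 t)))
    (hQa : ∀ t, Q (TensorProduct.map ea.f0 fa.f0 t) = (q t, 0))
    (hQb : ∀ t, Q (TensorProduct.map eb.f0 fb.f0 t) = (0, q' t)) : HBe X' Y' Q := by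
  have hs : ∀ {A B A1 B1 A2 B2 : Type u} [AddCommGroup A] [Module k A] [AddCommGroup B]
      [Module k B] [AddCommGroup A1] [Module k A1] [AddCommGroup B1] [Module k B1]
      [AddCommGroup A2] [Module k A2] [AddCommGroup B2] [Module k B2] (p : A →ₗ[k] A1)
      (e : A1 →ₗ[k] A) (q : B →ₗ[k] B1) (f : B1 →ₗ[k] B) (p' : A →ₗ[k] A2)
      (e' : A2 →ₗ[k] A) (q' : B →ₗ[k] B2) (f' : B2 →ₗ[k] B)
      (_ : ∀ a b, e (p a) ⊗ₜ[k] f (q b) + e' (p' a) ⊗ₜ[k] f' (q' b) = a ⊗ₜ[k] b)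
      (t : A ⊗[k] B), TensorProduct.map e f (TensorProduct.map p q t) +
        TensorProduct.map e' f' (TensorProduct.map p' q' t) = t := by
    intro A B A1 B1 A2 B2 _ _ _ _ _ _ _ _ _ _ _ _ p e q f p' e' q' f' h t
    induction t using TensorProduct.induction_on with
    | zero => simp only [map_zero, add_zero]
    | tmul a b => simpa only [TensorProduct.map_tmul] using h a b
    | add s t hs ht =>
      simp only [map_add]
      rw [add_add_add_comm, hs, ht]
  refine ⟨⟨?_, ?_⟩, ?_, ?_, ?_⟩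
  · rw [injective_iff_map_eq_zero]
    rintro ⟨α, β⟩ hz
    have h1 : hb2 Xa Ya (TensorProduct.map pa.f2 qa.f1 α, TensorProduct.map pa.f1 qa.f2 β) = 0 := by
      funext j
      rw [HBb_nat2, hz]
      exact map_zero _
    have h2 : hb2 Xb Yb (TensorProduct.map pb.f2 qb.f1 α, TensorProduct.map pb.f1 qb.f2 β) = 0 := by
      funext j
      rw [HBb_nat2, hz]
      exact map_zero _
    have h3 := ha.1.1 (h1.trans (map_zero _).symm)
    have h4 := hb.1.1 (h2.trans (map_zero _).symm)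
    have h5 : TensorProduct.map pa.f2 qa.f1 α = 0 := congrArg Prod.fst h3
    have h6 : TensorProduct.map pa.f1 qa.f2 β = 0 := congrArg Prod.snd h3
    have h7 : TensorProduct.map pb.f2 qb.f1 α = 0 := congrArg Prod.fst h4
    have h8 : TensorProduct.map pb.f1 qb.f2 β = 0 := congrArg Prod.snd h4
    refine Prod.ext ?_ ?_
    · change α = 0
      rw [← hs _ _ _ _ _ _ _ _ h21 α, h5, h7, map_zero, map_zero, add_zero]
    · change β = 0
      rw [← hs _ _ _ _ _ _ _ _ h12 β, h6, h8, map_zero, map_zero, add_zero]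
  · intro c hc
    have h1 : hb1 Xa Ya (fun j => TensorProduct.map pa.f1 qa.f1 (c j)) = 0 := by
      rw [HBb_nat1, hc, map_zero]
    have h2 : hb1 Xb Yb (fun j => TensorProduct.map pb.f1 qb.f1 (c j)) = 0 := by
      rw [HBb_nat1, hc, map_zero]
    obtain ⟨⟨α, β⟩, h3⟩ := ha.1.2 _ h1
    obtain ⟨⟨α', β'⟩, h4⟩ := hb.1.2 _ h2
    refine ⟨(TensorProduct.map ea.f2 fa.f1 α, TensorProduct.map ea.f1 fa.f2 β) +
      (TensorProduct.map eb.f2 fb.f1 α', TensorProduct.map eb.f1 fb.f2 β'), ?_⟩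
    funext j
    rw [map_add, Pi.add_apply, HBb_nat2, HBb_nat2, h3, h4]
    exact hs _ _ _ _ _ _ _ _ h11 (c j)
  · rintro ⟨z, z'⟩
    obtain ⟨t, ht⟩ := ha.2.1 z
    obtain ⟨t', ht'⟩ := hb.2.1 z'
    refine ⟨TensorProduct.map ea.f0 fa.f0 t + TensorProduct.map eb.f0 fb.f0 t', ?_⟩
    rw [map_add, hQa, hQb, ht, ht', Prod.mk_add_mk, add_zero, zero_add]
  · intro z
    rw [hQ, ← HBb_nat1, ← HBb_nat1, ha.2.2.1, hb.2.2.1]
    rfl
  · intro t ht
    rw [hQ] at ht
    obtain ⟨z, hz⟩ := ha.2.2.2 _ (congrArg Prod.fst ht)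
    obtain ⟨z', hz'⟩ := hb.2.2.2 _ (congrArg Prod.snd ht)
    refine ⟨(fun j => TensorProduct.map ea.f1 fa.f1 (z j)) +
      (fun j => TensorProduct.map eb.f1 fb.f1 (z' j)), ?_⟩
    rw [map_add, HBb_nat1, HBb_nat1, hz, hz']
    exact hs _ _ _ _ _ _ _ _ h00 t

private def HBb_fst (X Y : Tw k) : TwHom (Tw.prod X Y) X where
  f0 := LinearMap.fst k X.X0 Y.X0
  f1 := LinearMap.fst k X.X1 Y.X1
  f2 := LinearMap.fst k X.X2 Y.X2
  h1 := fun _ _ => rfl
  h2 := fun _ _ => rfl

private def HBb_snd (X Y : Tw k) : TwHom (Tw.prod X Y) Y where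
  f0 := LinearMap.snd k X.X0 Y.X0
  f1 := LinearMap.snd k X.X1 Y.X1
  f2 := LinearMap.snd k X.X2 Y.X2
  h1 := fun _ _ => rfl
  h2 := fun _ _ => rfl

private def HBb_inl (X Y : Tw k) : TwHom X (Tw.prod X Y) where
  f0 := LinearMap.inl k X.X0 Y.X0
  f1 := LinearMap.inl k X.X1 Y.X1
  f2 := LinearMap.inl k X.X2 Y.X2
  h1 := fun j _ => Prod.ext rfl (map_zero (Y.x1 j)).symm
  h2 := fun j _ => Prod.ext rfl (map_zero (Y.x2 j)).symm

private def HBb_inr (X Y : Tw k) : TwHom Y (Tw.prod X Y) where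
  f0 := LinearMap.inr k X.X0 Y.X0
  f1 := LinearMap.inr k X.X1 Y.X1
  f2 := LinearMap.inr k X.X2 Y.X2
  h1 := fun j _ => Prod.ext (map_zero (X.x1 j)).symm rfl
  h2 := fun j _ => Prod.ext (map_zero (X.x2 j)).symm rfl

private theorem HBb_pl {A A' B : Type u} [AddCommGroup A] [Module k A] [AddCommGroup A']
    [Module k A'] [AddCommGroup B] [Module k B] (a : A × A') (b : B) :
    (LinearMap.inl k A A' (LinearMap.fst k A A' a)) ⊗ₜ[k] b +
      (LinearMap.inr k A A' (LinearMap.snd k A A' a)) ⊗ₜ[k] b = a ⊗ₜ[k] b := by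
  rw [← TensorProduct.add_tmul]
  congr 1
  simp

private theorem HBb_plr {A A' B : Type u} [AddCommGroup A] [Module k A] [AddCommGroup A']
    [Module k A'] [AddCommGroup B] [Module k B] (b : B) (a : A × A') :
    b ⊗ₜ[k] (LinearMap.inl k A A' (LinearMap.fst k A A' a)) +
      b ⊗ₜ[k] (LinearMap.inr k A A' (LinearMap.snd k A A' a)) = b ⊗ₜ[k] a := by
  rw [← TensorProduct.tmul_add]
  congr 1
  simp

/-- the first factor is a product -/
theorem HBe.prod_left {X X' Y : Tw k} {Z Z' : Type u} [AddCommGroup Z] [Module k Z]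
    [AddCommGroup Z'] [Module k Z'] {q : X.X0 ⊗[k] Y.X0 →ₗ[k] Z}
    {q' : X'.X0 ⊗[k] Y.X0 →ₗ[k] Z'} (h : HBe X Y q) (h' : HBe X' Y q')
    (Q : (Tw.prod X X').X0 ⊗[k] Y.X0 →ₗ[k] Z × Z')
    (hQ : ∀ (x : X.X0) (x' : X'.X0) (y : Y.X0),
      Q ((show (Tw.prod X X').X0 from (x, x')) ⊗ₜ y) = (q (x ⊗ₜ y), q' (x' ⊗ₜ y))) :
    HBe (Tw.prod X X') Y Q := by
  refine HBb_two (HBb_fst X X') (HBb_inl X X') (HBb_id Y) (HBb_id Y) (HBb_snd X X')
    (HBb_inr X X') (HBb_id Y) (HBb_id Y) (fun a b => HBb_pl a b) (fun a b => HBb_pl a b)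
    (fun a b => HBb_pl a b) (fun a b => HBb_pl a b) h h' Q ?_ ?_ ?_
  · intro t
    induction t using TensorProduct.induction_on with
    | zero => simp only [map_zero]; rfl
    | tmul a b => exact hQ a.1 a.2 b
    | add s t hs ht => simp only [map_add, hs, ht, Prod.mk_add_mk]
  · intro t
    induction t using TensorProduct.induction_on with
    | zero => simp only [map_zero]; rfl
    | tmul a b =>
      refine (hQ a 0 b).trans ?_
      rw [TensorProduct.zero_tmul, map_zero]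
    | add s t hs ht => simp only [map_add, hs, ht, Prod.mk_add_mk, add_zero]
  · intro t
    induction t using TensorProduct.induction_on with
    | zero => simp only [map_zero]; rfl
    | tmul a b =>
      refine (hQ 0 a b).trans ?_
      rw [TensorProduct.zero_tmul, map_zero]
    | add s t hs ht => simp only [map_add, hs, ht, Prod.mk_add_mk, add_zero]

/-- the second factor is a product -/
theorem HBe.prod_right {X Y Y' : Tw k} {Z Z' : Type u} [AddCommGroup Z] [Module k Z]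
    [AddCommGroup Z'] [Module k Z'] {q : X.X0 ⊗[k] Y.X0 →ₗ[k] Z}
    {q' : X.X0 ⊗[k] Y'.X0 →ₗ[k] Z'} (h : HBe X Y q) (h' : HBe X Y' q')
    (Q : X.X0 ⊗[k] (Tw.prod Y Y').X0 →ₗ[k] Z × Z')
    (hQ : ∀ (x : X.X0) (y : Y.X0) (y' : Y'.X0),
      Q (x ⊗ₜ (show (Tw.prod Y Y').X0 from (y, y'))) = (q (x ⊗ₜ y), q' (x ⊗ₜ y'))) :
    HBe X (Tw.prod Y Y') Q := by
  refine HBb_two (HBb_id X) (HBb_id X) (HBb_fst Y Y') (HBb_inl Y Y') (HBb_id X) (HBb_id X)
    (HBb_snd Y Y') (HBb_inr Y Y') (fun a b => HBb_plr a b) (fun a b => HBb_plr a b)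
    (fun a b => HBb_plr a b) (fun a b => HBb_plr a b) h h' Q ?_ ?_ ?_
  · intro t
    induction t using TensorProduct.induction_on with
    | zero => simp only [map_zero]; rfl
    | tmul a b => exact hQ a b.1 b.2
    | add s t hs ht => simp only [map_add, hs, ht, Prod.mk_add_mk]
  · intro t
    induction t using TensorProduct.induction_on with
    | zero => simp only [map_zero]; rfl
    | tmul a b =>
      refine (hQ a b 0).trans ?_
      rw [TensorProduct.tmul_zero, map_zero]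
    | add s t hs ht => simp only [map_add, hs, ht, Prod.mk_add_mk, add_zero]
  · intro t
    induction t using TensorProduct.induction_on with
    | zero => simp only [map_zero]; rfl
    | tmul a b =>
      refine (hQ a 0 b).trans ?_
      rw [TensorProduct.tmul_zero, map_zero]
    | add s t hs ht => simp only [map_add, hs, ht, Prod.mk_add_mk, add_zero]

theorem HBe.iso {X X' Y Y' : Tw k} {Z Z' : Type u} [AddCommGroup Z] [Module k Z]
    [AddCommGroup Z'] [Module k Z'] {q : X.X0 ⊗[k] Y.X0 →ₗ[k] Z}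
    {q' : X'.X0 ⊗[k] Y'.X0 →ₗ[k] Z'} (f : TwIso X X') (g : TwIso Y Y') (e : Z ≃ₗ[k] Z')
    (he : ∀ x y, q' (f.f0 x ⊗ₜ g.f0 y) = e (q (x ⊗ₜ y))) (h : HBe X Y q) : HBe X' Y' q' := by
  have he' : ∀ t, q' (TensorProduct.map (HBb_to f).f0 (HBb_to g).f0 t) = e (q t) := by
    intro t
    induction t using TensorProduct.induction_on with
    | zero => simp only [map_zero]
    | tmul a b => exact he a b
    | add s t hs ht => simp only [map_add, hs, ht]
  have hb0 : ∀ t, TensorProduct.map (HBb_to f).f0 (HBb_to g).f0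
      (TensorProduct.map (HBb_inv f).f0 (HBb_inv g).f0 t) = t := by
    intro t
    induction t using TensorProduct.induction_on with
    | zero => simp only [map_zero]
    | tmul a b =>
      rw [TensorProduct.map_tmul, TensorProduct.map_tmul]
      change f.f0 (f.f0.symm a) ⊗ₜ[k] g.f0 (g.f0.symm b) = a ⊗ₜ[k] b
      rw [LinearEquiv.apply_symm_apply, LinearEquiv.apply_symm_apply]
    | add s t hs ht => simp only [map_add, hs, ht]
  have hb1' : ∀ t, TensorProduct.map (HBb_to f).f1 (HBb_to g).f1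
      (TensorProduct.map (HBb_inv f).f1 (HBb_inv g).f1 t) = t := by
    intro t
    induction t using TensorProduct.induction_on with
    | zero => simp only [map_zero]
    | tmul a b =>
      rw [TensorProduct.map_tmul, TensorProduct.map_tmul]
      change f.f1 (f.f1.symm a) ⊗ₜ[k] g.f1 (g.f1.symm b) = a ⊗ₜ[k] b
      rw [LinearEquiv.apply_symm_apply, LinearEquiv.apply_symm_apply]
    | add s t hs ht => simp only [map_add, hs, ht]
  refine ⟨EX.iso f g h.1, ?_, ?_, ?_⟩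
  · intro z'
    obtain ⟨t, ht⟩ := h.2.1 (e.symm z')
    refine ⟨TensorProduct.map (HBb_to f).f0 (HBb_to g).f0 t, ?_⟩
    rw [he', ht, LinearEquiv.apply_symm_apply]
  · intro z
    have h1 : z = fun j => TensorProduct.map (HBb_to f).f1 (HBb_to g).f1
        (TensorProduct.map (HBb_inv f).f1 (HBb_inv g).f1 (z j)) := by
      funext j
      rw [hb1']
    rw [h1, HBb_nat1, he', h.2.2.1, map_zero]
  · intro t ht
    rw [← hb0 t, he'] at ht
    have h1 := (LinearEquiv.map_eq_zero_iff e).1 ht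
    obtain ⟨z, hz⟩ := h.2.2.2 _ h1
    refine ⟨fun j => TensorProduct.map (HBb_to f).f1 (HBb_to g).f1 (z j), ?_⟩
    rw [HBb_nat1, hz, hb0]

/-- zero spaces -/
theorem HBe.zero {X Y : Tw k} {Z : Type u} [AddCommGroup Z] [Module k Z]
    (q : X.X0 ⊗[k] Y.X0 →ₗ[k] Z) (hZ : Subsingleton Z)
    (h : (Subsingleton X.X0 ∧ Subsingleton X.X1 ∧ Subsingleton X.X2) ∨
      (Subsingleton Y.X0 ∧ Subsingleton Y.X1 ∧ Subsingleton Y.X2)) : HBe X Y q := by
  have key : Subsingleton (X.X0 ⊗[k] Y.X0) ∧ Subsingleton (X.X1 ⊗[k] Y.X1) ∧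
      Subsingleton (X.X2 ⊗[k] Y.X1) ∧ Subsingleton (X.X1 ⊗[k] Y.X2) := by
    rcases h with ⟨h0, h1, h2⟩ | ⟨h0, h1, h2⟩
    · exact ⟨inferInstance, inferInstance, inferInstance, inferInstance⟩
    · exact ⟨inferInstance, inferInstance, inferInstance, inferInstance⟩
  obtain ⟨k00, k11, k21, k12⟩ := key
  refine ⟨⟨?_, ?_⟩, ?_, ?_, ?_⟩
  · exact Function.injective_of_subsingleton _
  · exact fun c _ => ⟨0, Subsingleton.elim _ _⟩
  · exact fun z => ⟨0, Subsingleton.elim _ _⟩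
  · exact fun z => Subsingleton.elim _ _
  · exact fun t _ => ⟨0, Subsingleton.elim _ _⟩

end Pool.Agent.MP_6e5bed_ag_NS
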