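import Pool.Agent.Lib.MP_6e5bed_ag_NS.Gen

set_option autoImplicit false
set_option linter.unusedSectionVars false

/-!
# MP_6e5bed_ag, NC SURFACES: morphisms between the sheaves of lattices
-/

noncomputable section

namespace Pool.Agent.MP_6e5bed_ag_NS

open Pool.Agent.MP_6e5bed_ag_NC

universe u

variable {k : Type u} [Field k] {E : Type u} [AddCommGroup E] [Module k E] [Module (KK k) E]
  [IsScalarTower k (KK k) E] {E' : Type u} [AddCommGroup E'] [Module k E'] [Module (KK k) E']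
  [IsScalarTower k (KK k) E']

theorem kk_ksmul (φ : E →ₗ[KK k] E') (s : k) (x : E) : φ (s • x) = s • φ x := by
  rw [← algebraMap_smul (KK k) s x, ← algebraMap_smul (KK k) s (φ x)]
  exact map_smul φ _ _

theorem kk_rsmul (φ : E →ₗ[KK k] E') {c : Ch k} (s : RR k c) (x : E) :
    φ (s • x) = s • φ x := by
  rw [Subalgebra.smul_def, Subalgebra.smul_def]
  exact map_smul φ _ _

/-- on a chart -/
def latF (N : Lat k E) (N' : Lat k E') (φ : E →ₗ[KK k] E')
    (h : ∀ c, ∀ x ∈ N.N c, φ x ∈ N'.N c) (c : Ch k) : N.N c →ₗ[k] N'.N c where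
  toFun := fun x => ⟨φ x.1, h c x.1 x.2⟩
  map_add' := fun x y => Subtype.ext (map_add φ x.1 y.1)
  map_smul' := fun s x => Subtype.ext (kk_ksmul φ s x.1)

theorem latF_coe (N : Lat k E) (N' : Lat k E') (φ : E →ₗ[KK k] E')
    (h : ∀ c, ∀ x ∈ N.N c, φ x ∈ N'.N c) (c : Ch k) (x : N.N c) :
    (latF N N' φ h c x : E') = φ x.1 := rfl

theorem res_coe (N : Lat k E) {c e : Ch k} (h : c ≤ e) (x : N.N c) :
    (N.N e).subtype (N.sh.res h x) = x.1 := rfl

/-- A `K`-linear map which maps `N` to `N'` on every chart, as a morphism of sheaves. -/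
def latH (N : Lat k E) (N' : Lat k E') (φ : E →ₗ[KK k] E')
    (h : ∀ c, ∀ x ∈ N.N c, φ x ∈ N'.N c) : ShH N.sh N'.sh where
  f := latF N N' φ h
  smul := fun c s x => Subtype.ext (kk_rsmul φ s x.1)
  nat := fun {_ d} hc x => Subtype.ext ((res_coe N' hc _).trans ((latF_coe N N' φ h _ x).trans
    ((congrArg φ (res_coe N hc x).symm).trans (latF_coe N N' φ h d (N.sh.res hc x)).symm)))

variable {A B : ASh k}

/-- For stable lattices: a morphism of generic bimodules. -/
def genH {G G' : Gen A B} {N : Lat k G.E} {N' : Lat k G'.E} (hN : G.St N) (hN' : G'.St N')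
    (φ : G.E →ₗ[KK k] G'.E) (h : ∀ c, ∀ x ∈ N.N c, φ x ∈ N'.N c)
    (hl : ∀ c a x, φ (G.l c a x) = G'.l c a (φ x))
    (hr : ∀ c b x, φ (G.r c b x) = G'.r c b (φ x)) : BSH (G.sh N hN) (G'.sh N' hN') where
  toShH := latH N N' φ h
  l := fun c a x => Subtype.ext (hl c a x.1)
  r := fun c b x => Subtype.ext (hr c b x.1)

end Pool.Agent.MP_6e5bed_ag_NS
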