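import Pool.Agent.Lib.MP_6e5bed_ag_NS.Gen

set_option autoImplicit false

/-!
# MP_6e5bed_ag, NC SURFACES: the reflexive hull of a lattice (section 4c)
-/

noncomputable section

namespace Pool.Agent.MP_6e5bed_ag_NS

universe u

variable {k : Type u} [Field k] {E : Type u} [AddCommGroup E] [Module k E] [Module (KK k) E]
  [IsScalarTower k (KK k) E]

/-- On every chart `N` is the kernel of a matrix over `R_c`: there are an embedding
`ι : E → K ^ n` and a matrix `ψ` over `R_c` such that the image of `ι` is the kernel of `ψ`, and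
`N c` is the set of all `x` with `ι x ∈ R_c ^ n`. -/
def IsRefl (N : Lat k E) : Prop := ∀ c : Ch k, ∃ (n m : ℕ) (ι : E →ₗ[KK k] (Fin n → KK k))
  (ψ : Fin m → Fin n → KK k), (∀ i j, ψ i j ∈ RR k c) ∧ Function.Injective ι ∧
    (∀ y : Fin n → KK k, (∃ x, ι x = y) ↔ ∀ i, ∑ j, ψ i j * y j = 0) ∧
    ∀ x, x ∈ N.N c ↔ ∀ j, ι x j ∈ RR k c

/-- functionals which are integral on the lattice -/
private abbrev ReflD (N : Lat k E) (c : Ch k) (ψ : E →ₗ[KK k] KK k) : Prop :=
  ∀ y ∈ N.N c, ψ y ∈ RR k c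

private theorem Refl_fin (N : Lat k E) (c : Ch k) : ∃ (m : ℕ) (y : Fin m → E),
    (∀ i, y i ∈ N.N c) ∧ (∀ x ∈ N.N c, ∃ a : Fin m → RR k c, ∑ i, (a i : KK k) • y i = x) ∧
      Submodule.span (KK k) (Set.range y) = ⊤ := by
  obtain ⟨m, y, hy⟩ := Submodule.fg_iff_exists_fin_generating_family.1 (N.fg c)
  have h2 : ∀ x ∈ N.N c, ∃ a : Fin m → RR k c, ∑ i, (a i : KK k) • y i = x := by
    intro x hx
    rw [← hy, Submodule.mem_span_range_iff_exists_fun] at hx
    obtain ⟨a, ha⟩ := hx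
    exact ⟨a, ha⟩
  refine ⟨m, y, fun i => ?_, h2, ?_⟩
  · rw [← hy]
    exact Submodule.subset_span ⟨i, rfl⟩
  · rw [eq_top_iff, ← N.span c, Submodule.span_le]
    intro x hx
    obtain ⟨a, rfl⟩ := h2 x hx
    exact Submodule.sum_mem _ fun i _ => Submodule.smul_mem _ _ (Submodule.subset_span ⟨i, rfl⟩)

private theorem Refl_den (c : Ch k) {ι : Type} [Fintype ι] (z : ι → KK k) :
    ∃ s ∈ RR k c, s ≠ 0 ∧ ∀ i, s * z i ∈ RR k c := by
  classical
  choose a ha b hb hb0 hab using fun i => RR_frac c (z i)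
  refine ⟨∏ i, b i, (RR k c).prod_mem fun i _ => hb i,
    Finset.prod_ne_zero_iff.2 fun i _ => hb0 i, fun i => ?_⟩
  have h1 : (∏ j, b j) * z i = (∏ j ∈ Finset.univ.erase i, b j) * a i := by
    rw [← Finset.mul_prod_erase _ _ (Finset.mem_univ i), ← hab i]
    ring
  rw [h1]
  exact (RR k c).mul_mem ((RR k c).prod_mem fun i _ => hb i) (ha i)

private theorem Refl_pow {c d : Ch k} (h : c ≤ d) {g : LF k} (hg : g ∈ c.1) (ℓ : LF k)
    (hd : d ≤ c.ins ℓ) {ι : Type} [Fintype ι] (z : ι → KK k) (hz : ∀ i, z i ∈ RR k d) :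
    ∃ n : ℕ, ∀ i, (lam k ℓ.1 / lam k g.1) ^ n * z i ∈ RR k c := by
  choose n hn using fun i => RR_loc h hg ℓ hd (hz i)
  refine ⟨∑ i, n i, fun i => ?_⟩
  have h1 : n i ≤ ∑ i, n i :=
    Finset.single_le_sum (fun _ _ => Nat.zero_le _) (Finset.mem_univ i)
  obtain ⟨e, he⟩ := Nat.exists_eq_add_of_le h1
  have h2 : (lam k ℓ.1 / lam k g.1) ^ (∑ i, n i) * z i =
      (lam k ℓ.1 / lam k g.1) ^ e * ((lam k ℓ.1 / lam k g.1) ^ n i * z i) := by
    rw [he, pow_add]
    ring
  rw [h2]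
  exact (RR k c).mul_mem ((RR k c).pow_mem (lam_mem _ hg) e) (hn i)

private theorem Refl_gen (N : Lat k E) (c : Ch k) : ∃ (n : ℕ) (φ : Fin n → E →ₗ[KK k] KK k),
    (∀ j, ReflD N c (φ j)) ∧
      ∀ ψ, ReflD N c ψ → ∃ a : Fin n → RR k c, ψ = ∑ j, (a j : KK k) • φ j := by
  obtain ⟨m, y, hy, hgen, htop⟩ := Refl_fin N c
  have := RR_noeth c
  let M : Submodule (RR k c) (Fin m → RR k c) :=
    { carrier := {r | ∃ ψ : E →ₗ[KK k] KK k, ReflD N c ψ ∧ ∀ i, ψ (y i) = (r i : KK k)}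
      add_mem' := by
        rintro r r' ⟨ψ, h1, h2⟩ ⟨ψ', h1', h2'⟩
        exact ⟨ψ + ψ', fun x hx => (RR k c).add_mem (h1 x hx) (h1' x hx), fun i => by
          rw [LinearMap.add_apply, h2, h2']
          rfl⟩
      zero_mem' := ⟨0, fun x hx => (RR k c).zero_mem, fun i => rfl⟩
      smul_mem' := by
        rintro s r ⟨ψ, h1, h2⟩
        exact ⟨(s : KK k) • ψ, fun x hx => (RR k c).mul_mem s.2 (h1 x hx), fun i => by
          rw [LinearMap.smul_apply, h2]
          rfl⟩ }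
  obtain ⟨n, r, hr⟩ := Submodule.fg_iff_exists_fin_generating_family.1
    (IsNoetherian.noetherian M)
  have hrM : ∀ j, r j ∈ M := fun j => by
    rw [← hr]
    exact Submodule.subset_span ⟨j, rfl⟩
  choose φ hφ1 hφ2 using hrM
  refine ⟨n, φ, hφ1, fun ψ hψ => ?_⟩
  have hψM : (fun i => (⟨ψ (y i), hψ _ (hy i)⟩ : RR k c)) ∈ M := ⟨ψ, hψ, fun i => rfl⟩
  rw [← hr, Submodule.mem_span_range_iff_exists_fun] at hψM
  obtain ⟨a, ha⟩ := hψM
  refine ⟨a, LinearMap.ext_on htop ?_⟩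
  rintro _ ⟨i, rfl⟩
  have h1 : (((∑ j, a j • r j) i : RR k c) : KK k) = ψ (y i) := by rw [ha]
  rw [← h1, Finset.sum_apply, AddSubmonoidClass.coe_finsetSum, LinearMap.sum_apply]
  refine Finset.sum_congr rfl fun j _ => ?_
  rw [LinearMap.smul_apply, hφ2]
  rfl

/-- the functionals of the chart separate points -/
private theorem Refl_sep (N : Lat k E) (c : Ch k) {x : E}
    (hx : ∀ ψ : E →ₗ[KK k] KK k, ReflD N c ψ → ψ x = 0) : x = 0 := by
  obtain ⟨m, y, hy, hgen, htop⟩ := Refl_fin N c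
  rw [← Module.forall_dual_apply_eq_zero_iff (KK k) x]
  intro ψ
  obtain ⟨s, hs, hs0, h1⟩ := Refl_den c fun i => ψ (y i)
  have h2 : ReflD N c (s • ψ) := by
    intro z hz
    obtain ⟨a, rfl⟩ := hgen z hz
    rw [map_sum]
    refine (RR k c).sum_mem fun i _ => ?_
    rw [map_smul, LinearMap.smul_apply]
    exact (RR k c).mul_mem (a i).2 (h1 i)
  have h3 := hx _ h2
  rw [LinearMap.smul_apply, smul_eq_mul] at h3
  exact (mul_eq_zero.1 h3).resolve_left hs0

/-- the hull on a chart -/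
private def ReflH (N : Lat k E) (c : Ch k) : Submodule (RR k c) E where
  carrier := {x | ∀ ψ : E →ₗ[KK k] KK k, ReflD N c ψ → ψ x ∈ RR k c}
  add_mem' := fun {x y} hx hy ψ hψ => by
    rw [map_add]
    exact (RR k c).add_mem (hx ψ hψ) (hy ψ hψ)
  zero_mem' := fun ψ _ => by
    rw [map_zero]
    exact (RR k c).zero_mem
  smul_mem' := fun r x hx ψ hψ => by
    rw [Subalgebra.smul_def, map_smul]
    exact (RR k c).mul_mem r.2 (hx ψ hψ)

private theorem ReflH_iff {N : Lat k E} {c : Ch k} {n : ℕ} {φ : Fin n → E →ₗ[KK k] KK k}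
    (hφ : ∀ j, ReflD N c (φ j))
    (hgen : ∀ ψ, ReflD N c ψ → ∃ a : Fin n → RR k c, ψ = ∑ j, (a j : KK k) • φ j) {x : E} :
    x ∈ ReflH N c ↔ ∀ j, φ j x ∈ RR k c := by
  constructor
  · intro hx j
    exact hx (φ j) (hφ j)
  · intro hx ψ hψ
    obtain ⟨a, rfl⟩ := hgen ψ hψ
    rw [LinearMap.sum_apply]
    exact (RR k c).sum_mem fun j _ => (RR k c).mul_mem (a j).2 (hx j)

private theorem Refl_inv {c d : Ch k} (h : c ≤ d) {g : LF k} (_ : g ∈ c.1) {ℓ : LF k}
    (hd : d ≤ c.ins ℓ) : d = c ∨ lam k g.1 / lam k ℓ.1 ∈ RR k d := by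
  by_cases hℓ : ℓ ∈ d.1
  · exact Or.inr (lam_mem _ hℓ)
  · left
    refine Subtype.ext (Set.Subset.antisymm (fun x hx => ?_) h)
    rcases hd hx with h1 | h1
    · exact absurd (h1 ▸ hx) hℓ
    · exact h1

private theorem Refl_cancel (g ℓ : LF k) (n : ℕ) (z : KK k) :
    (lam k g.1 / lam k ℓ.1) ^ n * ((lam k ℓ.1 / lam k g.1) ^ n * z) = z := by
  have h1 := lam_ne_zero g
  have h2 := lam_ne_zero ℓ
  have h3 : lam k g.1 / lam k ℓ.1 * (lam k ℓ.1 / lam k g.1) = 1 := by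
    field_simp
  rw [← mul_assoc, ← mul_pow, h3, one_pow, one_mul]

/-- restriction to a smaller chart, one step -/
private theorem ReflH_step (N : Lat k E) {c d : Ch k} (h : c ≤ d) {g : LF k} (hg : g ∈ c.1)
    (ℓ : LF k) (hd : d ≤ c.ins ℓ) {x : E} (hx : x ∈ ReflH N c) : x ∈ ReflH N d := by
  rcases Refl_inv h hg hd with h1 | h1
  · subst h1
    exact hx
  · intro ψ hψ
    obtain ⟨m, y, hy, hgen, -⟩ := Refl_fin N c
    obtain ⟨n, hn⟩ := Refl_pow h hg ℓ hd (fun i => ψ (y i)) fun i => hψ _ (N.mono h (hy i))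
    have h2 : ReflD N c ((lam k ℓ.1 / lam k g.1) ^ n • ψ) := by
      intro z hz
      obtain ⟨a, rfl⟩ := hgen z hz
      rw [map_sum]
      refine (RR k c).sum_mem fun i _ => ?_
      rw [map_smul, LinearMap.smul_apply]
      exact (RR k c).mul_mem (a i).2 (hn i)
    have h3 := hx _ h2
    rw [LinearMap.smul_apply, smul_eq_mul] at h3
    rw [← Refl_cancel g ℓ n (ψ x)]
    exact (RR k d).mul_mem ((RR k d).pow_mem h1 n) (RR_mono h h3)

private theorem ReflH_mono (N : Lat k E) {c : Ch k} {s : Set (LF k)} (hs : s.Finite) :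
    ∀ d : Ch k, d.1 = s ∪ c.1 → ∀ x ∈ ReflH N c, x ∈ ReflH N d := by
  induction s, hs using Set.Finite.induction_on with
  | empty =>
    intro d hd x hx
    rw [Set.empty_union] at hd
    have h1 : d = c := Subtype.ext hd
    subst h1
    exact hx
  | @insert ℓ s _ hs ih =>
    intro d hd x hx
    obtain ⟨g, hg⟩ := c.2.1
    let e : Ch k := ⟨s ∪ c.1, ⟨g, Or.inr hg⟩, hs.union c.2.2⟩
    have hed : e ≤ d := by
      change s ∪ c.1 ⊆ d.1
      rw [hd]
      exact Set.union_subset_union_left _ (Set.subset_insert ℓ s)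
    have hde : d ≤ e.ins ℓ := by
      change d.1 ⊆ insert ℓ (s ∪ c.1)
      rw [hd, Set.insert_union]
    exact ReflH_step N hed (Or.inr hg : g ∈ e.1) ℓ hde (ih e rfl x hx)

private theorem ReflH_loc (N : Lat k E) {c d : Ch k} (h : c ≤ d) {g : LF k} (hg : g ∈ c.1)
    (ℓ : LF k) (hd : d ≤ c.ins ℓ) {x : E} (hx : x ∈ ReflH N d) :
    ∃ n : ℕ, (lam k ℓ.1 / lam k g.1) ^ n • x ∈ ReflH N c := by
  obtain ⟨n, φ, hφ, hgen⟩ := Refl_gen N c
  have h1 : ∀ j, φ j x ∈ RR k d := by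
    intro j
    refine hx (φ j) fun y hy => ?_
    obtain ⟨m, hm⟩ := N.loc h hg ℓ hd hy
    have h2 := hφ j _ hm
    rw [map_smul, smul_eq_mul] at h2
    rcases Refl_inv h hg hd with h3 | h3
    · subst h3
      exact hφ j y hy
    · rw [← Refl_cancel g ℓ m (φ j y)]
      exact (RR k d).mul_mem ((RR k d).pow_mem h3 m) (RR_mono h h2)
  obtain ⟨e, he⟩ := Refl_pow h hg ℓ hd (fun j => φ j x) h1
  refine ⟨e, (ReflH_iff hφ hgen).2 fun j => ?_⟩
  rw [map_smul]
  exact he j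

private theorem ReflH_le (N : Lat k E) {c : Ch k} {x : E} (hx : x ∈ N.N c) : x ∈ ReflH N c :=
  fun _ hψ => hψ x hx

private theorem ReflH_fg (N : Lat k E) (c : Ch k) : (ReflH N c).FG := by
  obtain ⟨n, φ, hφ, hgen⟩ := Refl_gen N c
  have := RR_noeth c
  let f : ReflH N c →ₗ[RR k c] (Fin n → RR k c) :=
    { toFun := fun x j => ⟨φ j x.1, x.2 (φ j) (hφ j)⟩
      map_add' := fun x y => by
        funext j
        exact Subtype.ext (map_add (φ j) x.1 y.1)
      map_smul' := fun r x => by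
        funext j
        refine Subtype.ext ?_
        change φ j ((r : KK k) • x.1) = (r : KK k) * φ j x.1
        rw [map_smul, smul_eq_mul] }
  have hf : Function.Injective f := by
    intro x y hxy
    have h1 : ∀ j, φ j (x.1 - y.1) = 0 := by
      intro j
      have h2 := congrArg Subtype.val (congrFun hxy j)
      change φ j x.1 = φ j y.1 at h2
      rw [map_sub, h2, sub_self]
    refine Subtype.ext (sub_eq_zero.1 (Refl_sep N c fun ψ hψ => ?_))
    obtain ⟨a, rfl⟩ := hgen ψ hψ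
    rw [LinearMap.sum_apply]
    refine Finset.sum_eq_zero fun j _ => ?_
    rw [LinearMap.smul_apply, h1, smul_zero]
  have h1 : Module.Finite (RR k c) (ReflH N c) := Module.Finite.of_injective f hf
  exact Module.Finite.iff_fg.1 h1

private def ReflL (N : Lat k E) : Lat k E where
  N := ReflH N
  mono := fun {c d} h {x} hx =>
    ReflH_mono N (s := d.1) d.2.2 d (Set.union_eq_left.2 h).symm x hx
  loc := fun {c d} h {g} hg ℓ hd {x} hx => ReflH_loc N h hg ℓ hd hx
  fg := ReflH_fg N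
  span := fun c => by
    rw [eq_top_iff, ← N.span c]
    exact Submodule.span_mono fun x hx => ReflH_le N hx

/-- a subspace of `K ^ n` is the kernel of a matrix over `R_c` -/
private theorem Refl_mat (c : Ch k) {n : ℕ} (W : Submodule (KK k) (Fin n → KK k)) :
    ∃ (m : ℕ) (ψ : Fin m → Fin n → KK k), (∀ i j, ψ i j ∈ RR k c) ∧
      ∀ y : Fin n → KK k, y ∈ W ↔ ∀ i, ∑ j, ψ i j * y j = 0 := by
  classical
  obtain ⟨m, b⟩ : ∃ m : ℕ, Nonempty (Module.Basis (Fin m) (KK k) ((Fin n → KK k) ⧸ W)) :=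
    ⟨_, ⟨Module.finBasis (KK k) ((Fin n → KK k) ⧸ W)⟩⟩
  obtain ⟨b⟩ := b
  let f : (Fin n → KK k) →ₗ[KK k] (Fin m → KK k) := b.equivFun.toLinearMap ∘ₗ W.mkQ
  have hf : ∀ y, y ∈ W ↔ ∀ i, f y i = 0 := by
    intro y
    constructor
    · intro hy i
      have h1 : W.mkQ y = 0 := (Submodule.Quotient.mk_eq_zero W).2 hy
      change b.equivFun (W.mkQ y) i = 0
      rw [h1, map_zero]
      rfl
    · intro hy
      have h1 : b.equivFun (W.mkQ y) = 0 := funext hy
      rw [LinearEquiv.map_eq_zero_iff] at h1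
      exact (Submodule.Quotient.mk_eq_zero W).1 h1
  obtain ⟨s, hs, hs0, h1⟩ := Refl_den c
    (fun p : Fin m × Fin n => f (Pi.single p.2 1) p.1)
  have h2 : ∀ y i, f y i = ∑ j, f (Pi.single j 1) i * y j := by
    intro y i
    have h3 : y = ∑ j, y j • (Pi.single j (1 : KK k) : Fin n → KK k) := by
      funext l
      rw [Finset.sum_apply, Finset.sum_eq_single l]
      · rw [Pi.smul_apply, Pi.single_eq_same, smul_eq_mul, mul_one]
      · intro j _ hj
        rw [Pi.smul_apply, Pi.single_eq_of_ne hj.symm, smul_zero]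
      · intro h
        exact absurd (Finset.mem_univ l) h
    conv_lhs => rw [h3]
    rw [map_sum, Finset.sum_apply]
    refine Finset.sum_congr rfl fun j _ => ?_
    rw [map_smul, Pi.smul_apply, smul_eq_mul, mul_comm]
  refine ⟨m, fun i j => s * f (Pi.single j 1) i, fun i j => h1 (i, j), fun y => ?_⟩
  rw [hf]
  refine forall_congr' fun i => ?_
  have h3 : ∑ j, s * f (Pi.single j 1) i * y j = s * f y i := by
    rw [h2 y i, Finset.mul_sum]
    exact Finset.sum_congr rfl fun j _ => by ring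
  rw [h3, mul_eq_zero]
  exact ⟨Or.inr, fun h => h.resolve_left hs0⟩

/-- The reflexive hull `{x : φ(x) ∈ R_c for all φ ∈ E* with φ(N c) ⊆ R_c}`. It is a lattice (finitely
generated: it embeds in `R_c ^ n` by `n` functionals which generate the finitely generated
module of all such `φ`, `R_c` is noetherian), contains `N`, is stable under all endomorphisms which
preserve `N` on the chart, and is a kernel: `ι = (φ_1, ..., φ_n)`, its image is the kernel of a
matrix over `K`, clear denominators. Localisation: a functional on the chart `c ∪ ℓ`, multiplied with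
a power of `ℓ / g`, is one on the chart `c`. -/
theorem exists_refl [FiniteDimensional (KK k) E] (N : Lat k E) :
    ∃ N' : Lat k E, IsRefl N' ∧ Lat.le N N' ∧ ∀ (c : Ch k) (φ : E →ₗ[KK k] E),
      (∀ x ∈ N.N c, φ x ∈ N.N c) → ∀ x ∈ N'.N c, φ x ∈ N'.N c := by
  refine ⟨ReflL N, fun c => ?_, fun c x hx => ReflH_le N hx, ?_⟩
  · obtain ⟨n, φ, hφ, hgen⟩ := Refl_gen N c
    obtain ⟨m, ψ, hψ, h1⟩ := Refl_mat c (LinearMap.range (LinearMap.pi φ))
    refine ⟨n, m, LinearMap.pi φ, ψ, hψ, ?_, fun y => ?_, fun x => ReflH_iff hφ hgen⟩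
    · rw [← LinearMap.ker_eq_bot, LinearMap.ker_eq_bot']
      intro x hx
      refine Refl_sep N c fun ψ hψ => ?_
      obtain ⟨a, rfl⟩ := hgen ψ hψ
      rw [LinearMap.sum_apply]
      refine Finset.sum_eq_zero fun j _ => ?_
      have h2 : φ j x = 0 := congrFun hx j
      rw [LinearMap.smul_apply, h2, smul_zero]
    · rw [← h1 y]
      rfl
  · intro c φ hφ x hx ψ hψ
    exact hx (ψ ∘ₗ φ) fun y hy => hψ _ (hφ y hy)

end Pool.Agent.MP_6e5bed_ag_NS
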