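import Pool.Agent.Lib.MP_6e5bed_ag_NS.HBa
import Pool.Agent.Lib.MP_6e5bed_ag_NS.HBb
import Pool.Agent.Lib.MP_6e5bed_ag_NS.LatH
import Pool.Agent.Lib.MP_6e5bed_ag_NS.OO
import Pool.Agent.Lib.MP_6e5bed_ag_NS.Refl

set_option autoImplicit false

/-!
# MP_6e5bed_ag, NC SURFACES: the Hilbert-Burch complex of two lattices on charts (section 5b, 5c)
-/

noncomputable section

namespace Pool.Agent.MP_6e5bed_ag_NS

open Pool.Agent.MP_6e5bed_ag_NC
open scoped TensorProduct

universe u

variable {k : Type u} [Field k] {E : Type u} [AddCommGroup E] [Module k E] [Module (KK k) E]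
  [IsScalarTower k (KK k) E]

/-- multiplication by `x_j` from `N(d)` to `N(d')`, `d' = d + 1` -/
def xmul (N : Lat k E) {d d' : ℤ} (h : d + 1 = d') (j : Fin 3) :
    ShH (N.tw d).sh (N.tw d').sh :=
  latH (N.tw d) (N.tw d') (LinearMap.lsmul (KK k) E (uu k j)) (fun _ _ hx => N.tw_mul h j hx)

theorem xmul_coe (N : Lat k E) {d d' : ℤ} (h : d + 1 = d') (j : Fin 3) (c : Ch k)
    (x : (N.tw d).N c) : ((N.tw d').N c).subtype ((xmul N h j).f c x) = uu k j • x.1 := rfl

/-- `N(-2) → N(-1) → N(0)` on a chart -/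
def twL (N : Lat k E) (c : Ch k) : Tw k where
  X0 := (N.tw 0).N c
  X1 := (N.tw (-1)).N c
  X2 := (N.tw (-2)).N c
  x1 := fun j => (xmul N (by norm_num) j).f c
  x2 := fun j => (xmul N (by norm_num) j).f c
  comm := fun i j x => Subtype.ext (smul_comm (uu k i) (uu k j) x.1)

/-- `E / N(-2) → E / N(-1) → E / N(0)` on a chart -/
def twQ (N : Lat k E) (c : Ch k) : Tw k where
  X0 := E ⧸ ((N.tw 0).N c).restrictScalars k
  X1 := E ⧸ ((N.tw (-1)).N c).restrictScalars k
  X2 := E ⧸ ((N.tw (-2)).N c).restrictScalars k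
  x1 := fun j => Submodule.mapQ _ _ (LinearMap.lsmul (KK k) E (uu k j) |>.restrictScalars k)
    (fun x hx => N.tw_mul (by norm_num) j hx)
  x2 := fun j => Submodule.mapQ _ _ (LinearMap.lsmul (KK k) E (uu k j) |>.restrictScalars k)
    (fun x hx => N.tw_mul (by norm_num) j hx)
  comm := fun i j x => by
    obtain ⟨x, rfl⟩ := Submodule.mkQ_surjective _ x
    exact congrArg (Submodule.mkQ _) (smul_comm (uu k i) (uu k j) x)

/-- `E = E = E` -/
def twE (E : Type u) [AddCommGroup E] [Module k E] [Module (KK k) E]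
    [IsScalarTower k (KK k) E] : Tw k where
  X0 := E
  X1 := E
  X2 := E
  x1 := fun j => LinearMap.lsmul (KK k) E (uu k j) |>.restrictScalars k
  x2 := fun j => LinearMap.lsmul (KK k) E (uu k j) |>.restrictScalars k
  comm := fun i j x => smul_comm (uu k i) (uu k j) x

end Pool.Agent.MP_6e5bed_ag_NS
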