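import Pool.Agent.Lib.MP_6e5bed_ag_NS.HBc

set_option autoImplicit false

/-!
# MP_6e5bed_ag, NC SURFACES: twists on a chart are constant (section 5b)
-/

noncomputable section

namespace Pool.Agent.MP_6e5bed_ag_NS

open Pool.Agent.MP_6e5bed_ag_NC
open scoped TensorProduct

universe u

variable {k : Type u} [Field k] {E : Type u} [AddCommGroup E] [Module k E] [Module (KK k) E]
  [IsScalarTower k (KK k) E]

private theorem HBcA_lam_xx (i : Fin 3) : lam k (xx k i).1 = uu k i := by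
  unfold lam xx
  rw [Finset.sum_eq_single i]
  · change (Pi.single i 1 : Fin 3 → k) i • uu k i = uu k i
    rw [Pi.single_eq_same, one_smul]
  · intro j _ hj
    change (Pi.single i 1 : Fin 3 → k) j • uu k j = 0
    rw [Pi.single_eq_of_ne hj, zero_smul]
  · intro h
    exact absurd (Finset.mem_univ i) h

private theorem HBcA_uu_ne (i : Fin 3) : uu k i ≠ 0 := by
  rw [← HBcA_lam_xx]
  exact lam_ne_zero _

private theorem HBcA_quo {c : Ch k} {α : Fin 3} (hα : xx k α ∈ c.1) (j : Fin 3) :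
    uu k j / uu k α ∈ RR k c := by
  have h := lam_mem (xx k j).1 hα
  rwa [HBcA_lam_xx, HBcA_lam_xx] at h

private theorem HBcA_mem (N : Lat k E) {c : Ch k} {α : Fin 3} (hα : xx k α ∈ c.1) (d : ℤ)
    (x : E) : uu k α ^ d • x ∈ (N.tw d).N c ↔ x ∈ N.N c := by
  rw [N.mem_tw d hα, HBcA_lam_xx, smul_smul, ← zpow_add₀ (HBcA_uu_ne α), neg_add_cancel,
    zpow_zero, one_smul]

/-- multiplication with a function, `k`-linear -/
private def HBcA_m (E : Type u) [AddCommGroup E] [Module k E] [Module (KK k) E]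
    [IsScalarTower k (KK k) E] (r : KK k) : E →ₗ[k] E :=
  (LinearMap.lsmul (KK k) E r).restrictScalars k

private theorem HBcA_m_apply (r : KK k) (x : E) : HBcA_m (k := k) E r x = r • x := rfl

/-- multiplication with a power of `u_α` -/
private def HBcA_e (E : Type u) [AddCommGroup E] [Module k E] [Module (KK k) E]
    [IsScalarTower k (KK k) E] (α : Fin 3) (d : ℤ) : E ≃ₗ[k] E :=
  LinearEquiv.ofLinearMap (HBcA_m (k := k) E (uu k α ^ d)) (HBcA_m (k := k) E (uu k α ^ (-d)))
    (LinearMap.ext fun x => by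
      rw [LinearMap.comp_apply, HBcA_m_apply, HBcA_m_apply, smul_smul,
        ← zpow_add₀ (HBcA_uu_ne α), add_neg_cancel, zpow_zero, one_smul]
      rfl)
    (LinearMap.ext fun x => by
      rw [LinearMap.comp_apply, HBcA_m_apply, HBcA_m_apply, smul_smul,
        ← zpow_add₀ (HBcA_uu_ne α), neg_add_cancel, zpow_zero, one_smul]
      rfl)

private theorem HBcA_e_apply (α : Fin 3) (d : ℤ) (x : E) :
    HBcA_e (k := k) E α d x = uu k α ^ d • x := rfl

omit [Module k E] [IsScalarTower k (KK k) E] in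
private theorem HBcA_id (α : Fin 3) (x : E) : (uu k α / uu k α) • x = x := by
  rw [div_self (HBcA_uu_ne α), one_smul]

omit [Module k E] [IsScalarTower k (KK k) E] in
private theorem HBcA_comp (α j : Fin 3) {d d' : ℤ} (h : d + 1 = d') (x : E) :
    uu k α ^ d' • (uu k j / uu k α) • x = uu k j • uu k α ^ d • x := by
  rw [smul_smul, smul_smul, ← h, zpow_add₀ (HBcA_uu_ne α), zpow_one]
  congr 1
  have h1 := HBcA_uu_ne (k := k) α
  field_simp

omit [Module k E] [IsScalarTower k (KK k) E] in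
private theorem HBcA_comm (α i j : Fin 3) (x : E) :
    (uu k i / uu k α) • (uu k j / uu k α) • x = (uu k j / uu k α) • (uu k i / uu k α) • x :=
  smul_comm _ _ _

/-- the operators on the lattice -/
private def HBcA_w (N : Lat k E) {c : Ch k} {α : Fin 3} (hα : xx k α ∈ c.1) (j : Fin 3) :
    N.N c →ₗ[k] N.N c where
  toFun := fun x => ⟨(uu k j / uu k α) • x.1,
    (N.N c).smul_mem (⟨uu k j / uu k α, HBcA_quo hα j⟩ : RR k c) x.2⟩
  map_add' := fun x y => Subtype.ext (smul_add (uu k j / uu k α) x.1 y.1)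
  map_smul' := fun s x => Subtype.ext (smul_comm (uu k j / uu k α) s x.1)

/-- the isomorphisms for the lattice -/
private def HBcA_N (N : Lat k E) {c : Ch k} {α : Fin 3} (hα : xx k α ∈ c.1) (d : ℤ) :
    N.N c ≃ₗ[k] (N.tw d).N c where
  toFun := fun x => ⟨uu k α ^ d • x.1, (HBcA_mem N hα d x.1).2 x.2⟩
  invFun := fun x => ⟨uu k α ^ (-d) • x.1, by
    rw [← HBcA_mem N hα d, smul_smul, ← zpow_add₀ (HBcA_uu_ne α), add_neg_cancel, zpow_zero,
      one_smul]
    exact x.2⟩
  map_add' := fun x y => Subtype.ext (smul_add (uu k α ^ d) x.1 y.1)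
  map_smul' := fun s x => Subtype.ext (smul_comm (uu k α ^ d) s x.1)
  left_inv := fun x => Subtype.ext (by
    change uu k α ^ (-d) • uu k α ^ d • x.1 = x.1
    rw [smul_smul, ← zpow_add₀ (HBcA_uu_ne α), neg_add_cancel, zpow_zero, one_smul])
  right_inv := fun x => Subtype.ext (by
    change uu k α ^ d • uu k α ^ (-d) • x.1 = x.1
    rw [smul_smul, ← zpow_add₀ (HBcA_uu_ne α), add_neg_cancel, zpow_zero, one_smul])

/-- On a chart contained in a coordinate chart, these are constant: the multiplication with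
`u_α ^ i` (`x_α ∈ c`) is an isomorphism to `Tw.con w` with `w j = u_j / u_α`, `w α = id`. -/
theorem twL_con (N : Lat k E) (c : Ch k) {α : Fin 3} (hα : xx k α ∈ c.1) :
    ∃ (w : Fin 3 → N.N c →ₗ[k] N.N c) (hw : ∀ i j x, w i (w j x) = w j (w i x)),
      w α = LinearMap.id ∧ Nonempty (TwIso (Tw.con w hw) (twL N c)) := by
  refine ⟨fun j => HBcA_w N hα j, fun i j x => Subtype.ext (HBcA_comm α i j x.1),
    LinearMap.ext fun x => Subtype.ext (HBcA_id α x.1), ⟨⟨HBcA_N N hα 0, HBcA_N N hα (-1),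
      HBcA_N N hα (-2), fun j x => ?_, fun j x => ?_⟩⟩⟩
  · exact Subtype.ext (HBcA_comp α j (by norm_num) (Subtype.val (p := (· ∈ N.N c)) x))
  · exact Subtype.ext (HBcA_comp α j (by norm_num) (Subtype.val (p := (· ∈ N.N c)) x))

private theorem HBcA_map (N : Lat k E) {c : Ch k} {α : Fin 3} (hα : xx k α ∈ c.1) (d : ℤ) :
    ((N.N c).restrictScalars k).map (HBcA_e (k := k) E α d : E →ₗ[k] E) =
      ((N.tw d).N c).restrictScalars k := by
  ext x
  constructor
  · rintro ⟨y, hy, rfl⟩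
    exact (HBcA_mem N hα d y).2 hy
  · intro hx
    refine ⟨(HBcA_e (k := k) E α d).symm x, ?_, (HBcA_e (k := k) E α d).apply_symm_apply x⟩
    refine (HBcA_mem N hα d _).1 ?_
    have h1 : uu k α ^ d • (HBcA_e (k := k) E α d).symm x = x := (HBcA_e (k := k) E α d).apply_symm_apply x
    rw [h1]
    exact hx

/-- the isomorphisms for the quotients -/
private def HBcA_Q (N : Lat k E) {c : Ch k} {α : Fin 3} (hα : xx k α ∈ c.1) (d : ℤ) :
    (E ⧸ (N.N c).restrictScalars k) ≃ₗ[k] (E ⧸ ((N.tw d).N c).restrictScalars k) :=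
  Submodule.Quotient.equiv _ _ (HBcA_e (k := k) E α d) (HBcA_map N hα d)

private theorem HBcA_Q_mk (N : Lat k E) {c : Ch k} {α : Fin 3} (hα : xx k α ∈ c.1) (d : ℤ)
    (x : E) : HBcA_Q N hα d (Submodule.mkQ _ x) = Submodule.mkQ _ (uu k α ^ d • x) := rfl

/-- the operators on the quotient -/
private def HBcA_wQ (N : Lat k E) {c : Ch k} {α : Fin 3} (hα : xx k α ∈ c.1) (j : Fin 3) :
    (E ⧸ (N.N c).restrictScalars k) →ₗ[k] (E ⧸ (N.N c).restrictScalars k) :=
  Submodule.mapQ _ _ (HBcA_m (k := k) E (uu k j / uu k α)) fun _ hx =>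
    (N.N c).smul_mem (⟨uu k j / uu k α, HBcA_quo hα j⟩ : RR k c) hx

private theorem HBcA_wQ_mk (N : Lat k E) {c : Ch k} {α : Fin 3} (hα : xx k α ∈ c.1)
    (j : Fin 3) (x : E) : HBcA_wQ N hα j (Submodule.mkQ _ x) =
      Submodule.mkQ _ ((uu k j / uu k α) • x) := rfl

theorem twQ_con (N : Lat k E) (c : Ch k) {α : Fin 3} (hα : xx k α ∈ c.1) :
    ∃ (w : Fin 3 → (E ⧸ (N.N c).restrictScalars k) →ₗ[k] (E ⧸ (N.N c).restrictScalars k))
      (hw : ∀ i j x, w i (w j x) = w j (w i x)),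
      w α = LinearMap.id ∧ Nonempty (TwIso (Tw.con w hw) (twQ N c)) := by
  refine ⟨fun j => HBcA_wQ N hα j, fun i j x => ?_, LinearMap.ext fun x => ?_,
    ⟨⟨HBcA_Q N hα 0, HBcA_Q N hα (-1), HBcA_Q N hα (-2), fun j x => ?_, fun j x => ?_⟩⟩⟩
  · obtain ⟨x, rfl⟩ := Submodule.mkQ_surjective _ x
    exact congrArg (Submodule.mkQ _) (HBcA_comm α i j x)
  · obtain ⟨x, rfl⟩ := Submodule.mkQ_surjective _ x
    exact congrArg (Submodule.mkQ _) (HBcA_id α x)
  · obtain ⟨x, rfl⟩ := Submodule.mkQ_surjective ((N.N c).restrictScalars k) x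
    exact congrArg (Submodule.mkQ (((N.tw 0).N c).restrictScalars k))
      (HBcA_comp α j (by norm_num) x)
  · obtain ⟨x, rfl⟩ := Submodule.mkQ_surjective ((N.N c).restrictScalars k) x
    exact congrArg (Submodule.mkQ (((N.tw (-1)).N c).restrictScalars k))
      (HBcA_comp α j (by norm_num) x)

theorem twE_con (E : Type u) [AddCommGroup E] [Module k E] [Module (KK k) E]
    [IsScalarTower k (KK k) E] (α : Fin 3) :
    ∃ (w : Fin 3 → E →ₗ[k] E) (hw : ∀ i j x, w i (w j x) = w j (w i x)),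
      w α = LinearMap.id ∧ Nonempty (TwIso (Tw.con w hw) (twE E)) :=
  ⟨fun j => HBcA_m (k := k) E (uu k j / uu k α), fun i j x => HBcA_comm α i j x,
    LinearMap.ext fun x => HBcA_id α x, ⟨⟨HBcA_e (k := k) E α 0, HBcA_e (k := k) E α (-1),
      HBcA_e (k := k) E α (-2), fun j x => HBcA_comp (E := E) α j (d := -1) (d' := 0)
        (by norm_num) x,
      fun j x => HBcA_comp (E := E) α j (d := -2) (d' := -1) (by norm_num) x⟩⟩⟩

end Pool.Agent.MP_6e5bed_ag_NS
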