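import Pool.Agent.Lib.MP_6e5bed_ag_NS.HBc

set_option autoImplicit false

/-!
# MP_6e5bed_ag, NC SURFACES: the twists of the structure sheaf on a chart
-/

noncomputable section

namespace Pool.Agent.MP_6e5bed_ag_NS

open Pool.Agent.MP_6e5bed_ag_NC
open scoped TensorProduct

universe u

variable {k : Type u} [Field k]

private theorem HBcB_lam_xx (i : Fin 3) : lam k (xx k i).1 = uu k i := by
  unfold lam xx
  rw [Finset.sum_eq_single i]
  · change (Pi.single i 1 : Fin 3 → k) i • uu k i = uu k i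
    rw [Pi.single_eq_same, one_smul]
  · intro j _ hj
    change (Pi.single i 1 : Fin 3 → k) j • uu k j = 0
    rw [Pi.single_eq_of_ne hj, zero_smul]
  · intro h
    exact absurd (Finset.mem_univ i) h

private theorem HBcB_uu_ne (i : Fin 3) : uu k i ≠ 0 := by
  rw [← HBcB_lam_xx]
  exact lam_ne_zero _

private theorem HBcB_mon {b : Set (Fin 3)} {d d' : ℤ} (h : d + 1 = d') (j : Fin 3)
    (e : Exb b d) : (mon (e.sh h j).1 : KK k) = uu k j * mon e.1 := by
  have h1 : (mon (e.sh h j).1 : KK k) =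
      ∏ i, (uu k i ^ e.1 i * if i = j then uu k j else 1) := by
    unfold mon
    refine Finset.prod_congr rfl fun i _ => ?_
    change uu k i ^ (e.1 i + if i = j then 1 else 0) = _
    rw [zpow_add₀ (HBcB_uu_ne i)]
    split_ifs with hi
    · rw [zpow_one, hi]
    · rw [zpow_zero]
  rw [h1, Finset.prod_mul_distrib, Finset.prod_ite_eq' Finset.univ j,
    if_pos (Finset.mem_univ j), mul_comm]
  rfl

private theorem HBcB_coe {d : ℤ} {c : Ch k} (x : Exb (cset c) d →₀ k) :
    (((OL k).tw d).N c).subtype (((monH (k := k) d).f c).f x) =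
      x.sum fun e r => r • (mon e.1 : KK k) := by
  change ((Finsupp.lift (((OL k).tw d).N c) k (Exb (cset c) d)
    (fun e => ⟨mon e.1, mon_mem e⟩) x : ((OL k).tw d).N c) : KK k) = _
  rw [Finsupp.lift_apply, Finsupp.sum, AddSubmonoidClass.coe_finsetSum]
  rfl

private theorem HBcB_sum {b : Set (Fin 3)} {d d' : ℤ} (h : d + 1 = d') (j : Fin 3)
    (x : Exb b d →₀ k) :
    (Finsupp.mapDomain (Exb.sh h j) x).sum (fun e r => r • (mon e.1 : KK k)) =
      uu k j • x.sum fun e r => r • (mon e.1 : KK k) := by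
  rw [Finsupp.sum_mapDomain_index (h := fun (e : Exb b d') (r : k) => r • (mon e.1 : KK k))
    (fun _ => zero_smul _ _) (fun _ _ _ => add_smul _ _ _), Finsupp.smul_sum]
  refine Finsupp.sum_congr fun e _ => ?_
  rw [HBcB_mon, smul_eq_mul, mul_smul_comm]

private def HBcB_f (c : Ch k) (hc : c.1 ⊆ Set.range (xx k)) (d : ℤ) :
    (Exb (cset c) d →₀ k) ≃ₗ[k] ((OL k).tw d).N c :=
  LinearEquiv.ofBijective ((monH (k := k) d).f c).f (monH_bij d c hc)

private theorem HBcB_nat (c : Ch k) (hc : c.1 ⊆ Set.range (xx k)) {d d' : ℤ}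
    (h : d + 1 = d') (j : Fin 3) (x : Exb (cset c) d →₀ k) :
    HBcB_f c hc d' (Finsupp.mapDomain (Exb.sh h j) x) =
      (xmul (OL k) h j).f c (HBcB_f c hc d x) := by
  refine Subtype.ext ?_
  refine (HBcB_coe (Finsupp.mapDomain (Exb.sh h j) x)).trans ?_
  rw [HBcB_sum]
  refine Eq.trans ?_ (xmul_coe (OL k) h j c (HBcB_f c hc d x)).symm
  exact congrArg (fun y => uu k j • y) (HBcB_coe x).symm

/-- `O(-2) → O(-1) → O` is `Tw.pol` on the intersections of the coordinate charts (monomials,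
`monH_bij`). -/
theorem twL_pol (c : Ch k) (hc : c.1 ⊆ Set.range (xx k)) :
    Nonempty (TwIso (Tw.pol k (cset c)) (twL (OL k) c)) :=
  ⟨{ f0 := HBcB_f c hc 0
     f1 := HBcB_f c hc (-1)
     f2 := HBcB_f c hc (-2)
     h1 := fun j x => HBcB_nat c hc (by norm_num) j x
     h2 := fun j x => HBcB_nat c hc (by norm_num) j x }⟩

end Pool.Agent.MP_6e5bed_ag_NS
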