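import Pool.Agent.Lib.MP_6e5bed_ag_NS.HBcB

set_option autoImplicit false

/-!
# MP_6e5bed_ag, NC SURFACES: reflexive lattices in the Hilbert-Burch complex
-/

noncomputable section

namespace Pool.Agent.MP_6e5bed_ag_NS

open Pool.Agent.MP_6e5bed_ag_NC
open scoped TensorProduct

universe u

variable {k : Type u} [Field k] {E : Type u} [AddCommGroup E] [Module k E] [Module (KK k) E]
  [IsScalarTower k (KK k) E]

/-- the matrix on the sections of `O(d)` -/
private def HBcC_f {n m : ℕ} {c : Ch k} (ψ : Fin m → Fin n → RR k c) (d : ℤ) :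
    (Fin n → ((OL k).tw d).N c) →ₗ[k] (Fin m → ((OL k).tw d).N c) where
  toFun := fun y i => ∑ j, ψ i j • y j
  map_add' := fun y y' => funext fun i => by
    change ∑ j, ψ i j • (y j + y' j) = ∑ j, ψ i j • y j + ∑ j, ψ i j • y' j
    rw [← Finset.sum_add_distrib]
    exact Finset.sum_congr rfl fun j _ => smul_add _ _ _
  map_smul' := fun s y => funext fun i => by
    change ∑ j, ψ i j • (s • y j) = s • ∑ j, ψ i j • y j
    rw [Finset.smul_sum]
    exact Finset.sum_congr rfl fun j _ =>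
      Subtype.ext (smul_comm (ψ i j : KK k) s (y j : KK k))

private theorem HBcC_f_coe {n m : ℕ} {c : Ch k} (ψ : Fin m → Fin n → RR k c) (d : ℤ)
    (y : Fin n → ((OL k).tw d).N c) (i : Fin m) :
    ((HBcC_f ψ d y i : ((OL k).tw d).N c) : KK k) = ∑ j, (ψ i j : KK k) * (y j : KK k) := by
  change ((∑ j, ψ i j • y j : ((OL k).tw d).N c) : KK k) = _
  rw [AddSubmonoidClass.coe_finsetSum]
  rfl

private theorem HBcC_f_nat {n m : ℕ} {c : Ch k} (ψ : Fin m → Fin n → RR k c) {d d' : ℤ}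
    (l : Fin 3) (y : Fin n → ((OL k).tw d).N c) (Y : Fin n → ((OL k).tw d').N c)
    (hY : ∀ j, (Y j : KK k) = uu k l • (y j : KK k)) (i : Fin m) :
    ((HBcC_f ψ d' Y i : ((OL k).tw d').N c) : KK k) = uu k l •
      ((HBcC_f ψ d y i : ((OL k).tw d).N c) : KK k) := by
  rw [HBcC_f_coe, HBcC_f_coe, Finset.smul_sum]
  refine Finset.sum_congr rfl fun j _ => ?_
  rw [hY, smul_eq_mul, smul_eq_mul]
  ring

/-- the morphism given by the matrix -/
private def HBcC_F {n m : ℕ} {c : Ch k} (ψ : Fin m → Fin n → RR k c) :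
    TwHom (Tw.pow n (twL (OL k) c)) (Tw.pow m (twL (OL k) c)) where
  f0 := HBcC_f ψ 0
  f1 := HBcC_f ψ (-1)
  f2 := HBcC_f ψ (-2)
  h1 := fun l y => funext fun i => Subtype.ext (HBcC_f_nat ψ l y _ (fun _ => rfl) i)
  h2 := fun l y => funext fun i => Subtype.ext (HBcC_f_nat ψ l y _ (fun _ => rfl) i)

private theorem HBcC_mem {N : Lat k E} {n : ℕ} {c : Ch k} {ι : E →ₗ[KK k] (Fin n → KK k)}
    (h : ∀ x, x ∈ N.N c ↔ ∀ j, ι x j ∈ RR k c) (d : ℤ) (x : E) :
    x ∈ (N.tw d).N c ↔ ∀ j, ι x j ∈ ((OL k).tw d).N c := by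
  obtain ⟨g, hg⟩ := c.2.1
  rw [N.mem_tw d hg, h]
  refine forall_congr' fun j => ?_
  rw [(OL k).mem_tw d hg, map_smul]
  rfl

/-- the embedding of the lattice -/
private def HBcC_e {N : Lat k E} {n m : ℕ} {c : Ch k} {ι : E →ₗ[KK k] (Fin n → KK k)}
    (ψ : Fin m → Fin n → RR k c) (h : ∀ x, x ∈ N.N c ↔ ∀ j, ι x j ∈ RR k c)
    (hk : ∀ x i, ∑ j, (ψ i j : KK k) * ι x j = 0) (d : ℤ) :
    (N.tw d).N c →ₗ[k] LinearMap.ker (HBcC_f ψ d) where
  toFun := fun x => ⟨fun j => ⟨ι x.1 j, (HBcC_mem h d x.1).1 x.2 j⟩, by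
    rw [LinearMap.mem_ker]
    funext i
    refine Subtype.ext ?_
    rw [HBcC_f_coe]
    exact hk x.1 i⟩
  map_add' := fun x y => Subtype.ext (funext fun j => Subtype.ext
    (congrFun (map_add ι x.1 y.1) j))
  map_smul' := fun s x => Subtype.ext (funext fun j => Subtype.ext
    (congrFun (kk_ksmul ι s x.1) j))

private theorem HBcC_e_bij {N : Lat k E} {n m : ℕ} {c : Ch k} {ι : E →ₗ[KK k] (Fin n → KK k)}
    (ψ : Fin m → Fin n → RR k c) (h : ∀ x, x ∈ N.N c ↔ ∀ j, ι x j ∈ RR k c)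
    (hk : ∀ x i, ∑ j, (ψ i j : KK k) * ι x j = 0) (hι : Function.Injective ι)
    (hs : ∀ y : Fin n → KK k, (∀ i, ∑ j, (ψ i j : KK k) * y j = 0) → ∃ x, ι x = y) (d : ℤ) :
    Function.Bijective (HBcC_e (N := N) ψ h hk d) := by
  constructor
  · intro x y hxy
    refine Subtype.ext (hι (funext fun j => ?_))
    exact congrArg (fun z : LinearMap.ker (HBcC_f ψ d) => ((z.1 j : ((OL k).tw d).N c) : KK k))
      hxy
  · intro z
    obtain ⟨x, hx⟩ := hs (fun j => (z.1 j : KK k)) fun i => by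
      rw [← HBcC_f_coe ψ d z.1 i]
      have h1 : HBcC_f ψ d z.1 = 0 := z.2
      rw [h1]
      rfl
    refine ⟨⟨x, (HBcC_mem h d x).2 fun j => ?_⟩, Subtype.ext (funext fun j => Subtype.ext
      (congrFun hx j))⟩
    rw [hx]
    exact (z.1 j).2

/-- A reflexive lattice is a kernel: there are a morphism `f` from a power of `O(-2) → O(-1) → O`
to another one, and an isomorphism of its kernel with `N(-2) → N(-1) → N`. -/
theorem twL_ker (N : Lat k E) (hN : IsRefl N) (c : Ch k) :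
    ∃ (n m : ℕ) (f : TwHom (Tw.pow n (twL (OL k) c)) (Tw.pow m (twL (OL k) c))),
      Nonempty (TwIso (Tw.ker f) (twL N c)) := by
  obtain ⟨n, m, ι, ψ', hψ, hι, hex, h⟩ := hN c
  obtain ⟨ψ, hψ'⟩ : ∃ ψ : Fin m → Fin n → RR k c, ∀ i j, (ψ i j : KK k) = ψ' i j :=
    ⟨fun i j => ⟨ψ' i j, hψ i j⟩, fun _ _ => rfl⟩
  have hk : ∀ x i, ∑ j, (ψ i j : KK k) * ι x j = 0 := by
    intro x i
    have h1 := (hex (ι x)).1 ⟨x, rfl⟩ i
    simp only [hψ']
    exact h1
  have hs : ∀ y : Fin n → KK k, (∀ i, ∑ j, (ψ i j : KK k) * y j = 0) → ∃ x, ι x = y := by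
    intro y hy
    refine (hex y).2 fun i => ?_
    have h1 := hy i
    simp only [hψ'] at h1
    exact h1
  have hnat : ∀ {d d' : ℤ} (l : Fin 3) (x : (N.tw d).N c) (x' : (N.tw d').N c)
      (_ : x'.1 = uu k l • x.1) (j : Fin n),
      (((HBcC_e (N := N) ψ h hk d' x').1 j : ((OL k).tw d').N c) : KK k) =
      uu k l • (((HBcC_e (N := N) ψ h hk d x).1 j : ((OL k).tw d).N c) : KK k) := by
    intro d d' l x x' hx j
    change ι x'.1 j = uu k l • ι x.1 j
    rw [hx, map_smul]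
    rfl
  let e0 := LinearEquiv.ofBijective _ (HBcC_e_bij (N := N) ψ h hk hι hs 0)
  let e1 := LinearEquiv.ofBijective _ (HBcC_e_bij (N := N) ψ h hk hι hs (-1))
  let e2 := LinearEquiv.ofBijective _ (HBcC_e_bij (N := N) ψ h hk hι hs (-2))
  refine ⟨n, m, HBcC_F ψ, ⟨⟨e0.symm, e1.symm, e2.symm, fun l x => ?_, fun l x => ?_⟩⟩⟩
  · obtain ⟨y, rfl⟩ := e1.surjective x
    refine (LinearEquiv.symm_apply_eq e0).2 (Eq.trans ?_
      (congrArg (fun z => e0 (((twL N c).x1 l) z)) (e1.symm_apply_apply y).symm))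
    exact Subtype.ext (funext fun j => Subtype.ext (hnat l y _ rfl j).symm)
  · obtain ⟨y, rfl⟩ := e2.surjective x
    refine (LinearEquiv.symm_apply_eq e1).2 (Eq.trans ?_
      (congrArg (fun z => e1 (((twL N c).x2 l) z)) (e2.symm_apply_apply y).symm))
    exact Subtype.ext (funext fun j => Subtype.ext (hnat l y _ rfl j).symm)

private def HBcC_refl (X : Tw k) : TwIso X X where
  f0 := LinearEquiv.refl k X.X0
  f1 := LinearEquiv.refl k X.X1
  f2 := LinearEquiv.refl k X.X2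
  h1 := fun _ _ => rfl
  h2 := fun _ _ => rfl

/-- Section 5b: `X` constant with `w α = id`, `N` reflexive. From `ex_con_pol`, `EX.iso`, `EX.pow`,
`EX.ker`, `twL_pol`, `twL_ker`. -/
theorem ex_con {X : Type u} [AddCommGroup X] [Module k X] (w : Fin 3 → X →ₗ[k] X)
    (hw : ∀ i j x, w i (w j x) = w j (w i x)) (α : Fin 3) (hα : w α = LinearMap.id)
    (N : Lat k E) (hN : IsRefl N) (c : Ch k) (hc : c.1 ⊆ Set.range (xx k)) :
    EX (Tw.con w hw) (twL N c) := by
  obtain ⟨n, m, f, ⟨e⟩⟩ := twL_ker N hN c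
  obtain ⟨e'⟩ := twL_pol (k := k) c hc
  have h1 := EX.iso (HBcC_refl (Tw.con w hw)) e' (ex_con_pol w hw α hα (cset c))
  exact EX.iso (HBcC_refl (Tw.con w hw)) e (EX.ker f (h1.pow n) (h1.pow m).1)

end Pool.Agent.MP_6e5bed_ag_NS
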