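import Pool.Agent.Lib.MP_6e5bed_ag_NS.HBc

set_option autoImplicit false

/-!
# MP_6e5bed_ag, NC SURFACES: the kernel of `E ⊗_k N' → E ⊗_K E'` (section 5c)
-/

noncomputable section

namespace Pool.Agent.MP_6e5bed_ag_NS

open Pool.Agent.MP_6e5bed_ag_NC
open scoped TensorProduct

universe u

variable {k : Type u} [Field k] {E : Type u} [AddCommGroup E] [Module k E] [Module (KK k) E]
  [IsScalarTower k (KK k) E] {E' : Type u} [AddCommGroup E'] [Module k E'] [Module (KK k) E']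
  [IsScalarTower k (KK k) E']

/-- `E ⊗_k E' → E ⊗_K E'` -/
def kT (k : Type u) [Field k] (E E' : Type u) [AddCommGroup E] [Module k E] [Module (KK k) E]
    [IsScalarTower k (KK k) E] [AddCommGroup E'] [Module k E'] [Module (KK k) E']
    [IsScalarTower k (KK k) E'] : E ⊗[k] E' →ₗ[k] E ⊗[KK k] E' :=
  TensorProduct.lift (LinearMap.mk₂ k (fun x y => x ⊗ₜ[KK k] y)
    (fun x x' y => TensorProduct.add_tmul x x' y)
    (fun s x y => (TensorProduct.smul_tmul' s x y).symm)
    (fun x y y' => TensorProduct.tmul_add x y y')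
    (fun s x y => by
      rw [← algebraMap_smul (KK k) s y, TensorProduct.tmul_smul, algebraMap_smul]))

theorem kT_tmul (x : E) (y : E') : kT k E E' (x ⊗ₜ[k] y) = x ⊗ₜ[KK k] y := rfl

private theorem HBd_lam (j : Fin 3) : lam k (xx k j).1 = uu k j := by
  have h : ∀ i, (xx k j).1 i = (Pi.single j 1 : Fin 3 → k) i := fun _ => rfl
  unfold lam
  rw [Finset.sum_eq_single j]
  · rw [h, Pi.single_eq_same, one_smul]
  · intro i _ hi
    rw [h, Pi.single_eq_of_ne hi, zero_smul]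
  · intro h
    exact absurd (Finset.mem_univ j) h

private theorem HBd_uu (j : Fin 3) : uu k j ≠ 0 := by
  rw [← HBd_lam]
  exact lam_ne_zero (xx k j)

private theorem HBd_den {ι : Type*} (b : Ch k) (S : Finset ι) (c : ι → KK k) :
    ∃ r ∈ RR k b, r ≠ 0 ∧ ∀ i ∈ S, r * c i ∈ RR k b := by
  classical
  induction S using Finset.induction_on with
  | empty => exact ⟨1, one_mem _, one_ne_zero, fun i hi => absurd hi (Finset.notMem_empty i)⟩
  | insert a S ha ih =>
    obtain ⟨r, hr, hr0, hrS⟩ := ih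
    obtain ⟨x, hx, y, hy, hy0, hxy⟩ := RR_frac b (c a)
    refine ⟨y * r, mul_mem hy hr, mul_ne_zero hy0 hr0, fun i hi => ?_⟩
    rcases Finset.mem_insert.1 hi with rfl | hi
    · have h1 : y * r * c i = r * x := by rw [← hxy]; ring
      rw [h1]
      exact mul_mem hr hx
    · rw [mul_assoc]
      exact mul_mem hy (hrS i hi)

section core

variable (b : Ch k) (N0 : Submodule (RR k b) E') (W : Submodule k (E ⊗[k] N0))

private theorem HBd_adj (hb : b.1 ⊆ Set.range (xx k))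
    (hW : ∀ (i j : Fin 3), xx k j ∈ b.1 → ∀ (e : E) (y y' : N0),
      (y' : E') = (uu k i / uu k j) • (y : E') →
        ((uu k i / uu k j) • e) ⊗ₜ[k] y - e ⊗ₜ[k] y' ∈ W)
    {r : KK k} (hr : r ∈ RR k b) (e : E) (y y' : N0) (hy : (y' : E') = r • (y : E')) :
    (r • e) ⊗ₜ[k] y - e ⊗ₜ[k] y' ∈ W := by
  have hsm : ∀ {r : KK k} (_ : r ∈ RR k b) (y : N0), ∃ y' : N0, (y' : E') = r • (y : E') := by
    intro r hr y
    exact ⟨(⟨r, hr⟩ : RR k b) • y, rfl⟩
  revert e y y'
  unfold RR at hr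
  induction hr using Algebra.adjoin_induction with
  | mem r hr =>
    obtain ⟨ℓ, g, hg, rfl⟩ := hr
    obtain ⟨j, rfl⟩ := hb hg
    intro e y y' hy
    rw [HBd_lam] at hy ⊢
    have hq : ∀ i, uu k i / uu k j ∈ RR k b := by
      intro i
      have h1 := lam_mem (k := k) (xx k i).1 hg
      rwa [HBd_lam, HBd_lam] at h1
    choose z hz using fun i => hsm (hq i) y
    have e1 : lam k ℓ / uu k j = ∑ i, ℓ i • (uu k i / uu k j) := by
      unfold lam
      rw [Finset.sum_div]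
      exact Finset.sum_congr rfl fun i _ => smul_div_assoc _ _ _
    have e2 : (lam k ℓ / uu k j) • e = ∑ i, ℓ i • ((uu k i / uu k j) • e) := by
      rw [e1, Finset.sum_smul]
      exact Finset.sum_congr rfl fun i _ => smul_assoc _ _ _
    have e3 : y' = ∑ i, ℓ i • z i := by
      refine Subtype.ext ?_
      rw [hy, e1, Finset.sum_smul]
      have h1 : ((∑ i, ℓ i • z i : N0) : E') = ∑ i, ((ℓ i • z i : N0) : E') :=
        map_sum N0.subtype (fun i => ℓ i • z i) Finset.univ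
      rw [h1]
      refine Finset.sum_congr rfl fun i _ => ?_
      rw [smul_assoc, ← hz i]
      rfl
    rw [e2, e3, TensorProduct.sum_tmul, TensorProduct.tmul_sum, ← Finset.sum_sub_distrib]
    refine Submodule.sum_mem _ fun i _ => ?_
    rw [← TensorProduct.smul_tmul', TensorProduct.tmul_smul, ← smul_sub]
    exact Submodule.smul_mem _ _ (hW i j hg e y (z i) (hz i))
  | algebraMap s =>
    intro e y y' hy
    have e1 : y' = s • y := by
      refine Subtype.ext ?_
      rw [hy, algebraMap_smul]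
      rfl
    rw [e1, algebraMap_smul, TensorProduct.tmul_smul, TensorProduct.smul_tmul', sub_self]
    exact Submodule.zero_mem _
  | add r s hr hs ih1 ih2 =>
    intro e y y' hy
    obtain ⟨y1, hy1⟩ := hsm hr y
    obtain ⟨y2, hy2⟩ := hsm hs y
    have e1 : y' = y1 + y2 := by
      refine Subtype.ext ?_
      rw [hy, add_smul, ← hy1, ← hy2]
      rfl
    have e2 : ((r + s) • e) ⊗ₜ[k] y - e ⊗ₜ[k] y' =
        ((r • e) ⊗ₜ[k] y - e ⊗ₜ[k] y1) + ((s • e) ⊗ₜ[k] y - e ⊗ₜ[k] y2) := by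
      rw [e1, add_smul, TensorProduct.add_tmul, TensorProduct.tmul_add]
      abel
    rw [e2]
    exact Submodule.add_mem _ (ih1 e y y1 hy1) (ih2 e y y2 hy2)
  | mul r s hr hs ih1 ih2 =>
    intro e y y' hy
    obtain ⟨y1, hy1⟩ := hsm hr y
    have e1 : (y' : E') = s • (y1 : E') := by
      rw [hy, hy1, mul_comm, mul_smul]
    have e2 : ((r * s) • e) ⊗ₜ[k] y - e ⊗ₜ[k] y' =
        ((r • (s • e)) ⊗ₜ[k] y - (s • e) ⊗ₜ[k] y1) + ((s • e) ⊗ₜ[k] y1 - e ⊗ₜ[k] y') := by
      rw [mul_smul]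
      abel
    rw [e2]
    exact Submodule.add_mem _ (ih1 (s • e) y y1 hy1) (ih2 e y1 y' e1)

private theorem HBd_core (hb : b.1 ⊆ Set.range (xx k))
    (hsp : Submodule.span (KK k) (N0 : Set E') = ⊤)
    (hW : ∀ (i j : Fin 3), xx k j ∈ b.1 → ∀ (e : E) (y y' : N0),
      (y' : E') = (uu k i / uu k j) • (y : E') →
        ((uu k i / uu k j) • e) ⊗ₜ[k] y - e ⊗ₜ[k] y' ∈ W)
    (t : E ⊗[k] N0)
    (ht : kT k E E' (LinearMap.lTensor E (N0.subtype.restrictScalars k) t) = 0) : t ∈ W := by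
  classical
  have hadj := fun {r : KK k} (hr : r ∈ RR k b) => HBd_adj b N0 W hb hW hr
  have hsm : ∀ {r : KK k} (_ : r ∈ RR k b) (y : N0), ∃ y' : N0, (y' : E') = r • (y : E') := by
    intro r hr y
    exact ⟨(⟨r, hr⟩ : RR k b) • y, rfl⟩
  obtain ⟨B, hB1, hB2, hB3⟩ := exists_linearIndependent (KK k) (N0 : Set E')
  rw [hsp] at hB2
  obtain ⟨β, hβ⟩ : ∃ β : Module.Basis B (KK k) E', ∀ i, β i = (i : E') :=
    ⟨Module.Basis.mk hB3 (by rw [Subtype.range_coe, hB2]), fun i => Module.Basis.mk_apply _ _ i⟩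
  obtain ⟨β', hβ'⟩ : ∃ β' : B → N0, ∀ i, (β' i : E') = β i :=
    ⟨fun i => ⟨(i : E'), hB1 i.2⟩, fun i => (hβ i).symm⟩
  obtain ⟨Ψ, hΨ⟩ : ∃ Ψ : (B →₀ E) →ₗ[k] E ⊗[k] N0, ∀ f : B →₀ E,
      Ψ f = f.sum fun i m => m ⊗ₜ[k] β' i :=
    ⟨Finsupp.lsum k fun i => (TensorProduct.mk k E N0).flip (β' i), fun f => by
      rw [Finsupp.lsum_apply]
      rfl⟩
  have key : ∀ t : E ⊗[k] N0, t - Ψ (TensorProduct.equivFinsuppOfBasisRight β
      (kT k E E' (LinearMap.lTensor E (N0.subtype.restrictScalars k) t))) ∈ W := by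
    intro t
    induction t using TensorProduct.induction_on with
    | zero => simp
    | add x y hx hy =>
      have e1 : ∀ x y : E ⊗[k] N0, x + y - Ψ (TensorProduct.equivFinsuppOfBasisRight β
          (kT k E E' (LinearMap.lTensor E (N0.subtype.restrictScalars k) (x + y)))) =
          (x - Ψ (TensorProduct.equivFinsuppOfBasisRight β
          (kT k E E' (LinearMap.lTensor E (N0.subtype.restrictScalars k) x)))) +
          (y - Ψ (TensorProduct.equivFinsuppOfBasisRight β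
          (kT k E E' (LinearMap.lTensor E (N0.subtype.restrictScalars k) y)))) := by
        intro x y
        rw [map_add, map_add, map_add, map_add]
        abel
      rw [e1]
      exact Submodule.add_mem _ hx hy
    | tmul e y =>
      obtain ⟨r, hr, hr0, hrS⟩ := HBd_den b (β.repr (y : E')).support
        (fun i => β.repr (y : E') i)
      have e1 : Ψ (TensorProduct.equivFinsuppOfBasisRight β
          (kT k E E' (LinearMap.lTensor E (N0.subtype.restrictScalars k) (e ⊗ₜ[k] y)))) =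
          ∑ i ∈ (β.repr (y : E')).support, (β.repr (y : E') i • e) ⊗ₜ[k] β' i := by
        rw [LinearMap.lTensor_tmul, kT_tmul]
        refine (congrArg Ψ (TensorProduct.equivFinsuppOfBasisRight_apply_tmul β e
          (y : E'))).trans ?_
        rw [hΨ]
        exact Finsupp.sum_mapRange_index (h := fun i m => m ⊗ₜ[k] β' i)
          (fun i => TensorProduct.zero_tmul _ _)
      rw [e1]
      -- the elements
      obtain ⟨e', he'⟩ : ∃ e' : E, e' = r⁻¹ • e := ⟨_, rfl⟩
      have hre : r • e' = e := by rw [he', smul_inv_smul₀ hr0]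
      obtain ⟨y1, hy1⟩ := hsm hr y
      have hz : ∀ i : B, ∃ z : N0, i ∈ (β.repr (y : E')).support →
          (z : E') = (r * β.repr (y : E') i) • (β' i : E') := by
        intro i
        by_cases hi : i ∈ (β.repr (y : E')).support
        · obtain ⟨z, hz⟩ := hsm (hrS i hi) (β' i)
          exact ⟨z, fun _ => hz⟩
        · exact ⟨0, fun h => absurd h hi⟩
      choose z hz using hz
      have e2 : y1 = ∑ i ∈ (β.repr (y : E')).support, z i := by
        refine Subtype.ext ?_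
        have h1 : ((∑ i ∈ (β.repr (y : E')).support, z i : N0) : E') =
            ∑ i ∈ (β.repr (y : E')).support, (z i : E') := map_sum N0.subtype _ _
        rw [h1, hy1]
        have h2 := β.linearCombination_repr (y : E')
        conv_lhs => rw [← h2]
        rw [Finsupp.linearCombination_apply, Finsupp.sum, Finset.smul_sum]
        refine Finset.sum_congr rfl fun i hi => ?_
        rw [hz i hi, hβ', mul_smul]
      have e3 : ∀ i ∈ (β.repr (y : E')).support, (β.repr (y : E') i • e) =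
          (r * β.repr (y : E') i) • e' := by
        intro i _
        rw [mul_comm, mul_smul, hre]
      have e4 : e ⊗ₜ[k] y - ∑ i ∈ (β.repr (y : E')).support,
          (β.repr (y : E') i • e) ⊗ₜ[k] β' i = ((r • e') ⊗ₜ[k] y - e' ⊗ₜ[k] y1) -
          ∑ i ∈ (β.repr (y : E')).support,
            (((r * β.repr (y : E') i) • e') ⊗ₜ[k] β' i - e' ⊗ₜ[k] z i) := by
        rw [Finset.sum_sub_distrib, ← TensorProduct.tmul_sum, ← e2, hre,
          Finset.sum_congr rfl fun i hi => by rw [e3 i hi]]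
        abel
      rw [e4]
      refine Submodule.sub_mem _ (hadj hr e' y y1 hy1) (Submodule.sum_mem _ fun i hi => ?_)
      exact hadj (hrS i hi) e' (β' i) (z i) (hz i hi)
  have h1 := key t
  rw [ht, map_zero, map_zero, sub_zero] at h1
  exact h1

end core

private theorem HBd_mnr (X Y : Tw k) (i j : Fin 3) (z : X.X1 ⊗[k] Y.X1) :
    mnr X Y i j z ∈ LinearMap.range (hb1 X Y) := by
  have hneg : ∀ i j, mnr X Y j i z = - mnr X Y i j z := by
    intro i j
    unfold mnr
    rw [LinearMap.sub_apply, LinearMap.sub_apply]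
    abel
  have h00 : ∀ i, mnr X Y i i z = 0 := by
    intro i
    unfold mnr
    rw [LinearMap.sub_apply, sub_self]
  have h12 : mnr X Y 1 2 z ∈ LinearMap.range (hb1 X Y) := by
    refine ⟨![z, 0, 0], ?_⟩
    rw [hb1_apply]
    simp
  have h02 : mnr X Y 0 2 z ∈ LinearMap.range (hb1 X Y) := by
    refine ⟨![0, -z, 0], ?_⟩
    rw [hb1_apply]
    simp
  have h01 : mnr X Y 0 1 z ∈ LinearMap.range (hb1 X Y) := by
    refine ⟨![0, 0, z], ?_⟩
    rw [hb1_apply]
    simp
  have hc : ∀ i : Fin 3, i = 0 ∨ i = 1 ∨ i = 2 := by decide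
  rcases hc i with rfl | rfl | rfl <;> rcases hc j with rfl | rfl | rfl
  · rw [h00]; exact Submodule.zero_mem _
  · exact h01
  · exact h02
  · rw [hneg 0 1]; exact Submodule.neg_mem _ h01
  · rw [h00]; exact Submodule.zero_mem _
  · exact h12
  · rw [hneg 0 2]; exact Submodule.neg_mem _ h02
  · rw [hneg 1 2]; exact Submodule.neg_mem _ h12
  · rw [h00]; exact Submodule.zero_mem _

/-- The kernel of `E ⊗_k N'(0)_b → E ⊗_K E'` is contained in the image of `hb1`. PROOF. Let `W` be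
the image of `hb1 : (E ⊗ N'(-1)) ^ 3 → E ⊗ N'(0)`. For `x_j ∈ b`, `y' = u_j⁻¹ y ∈ N'(-1)` and
`e' = u_j⁻¹ e`: `(u_i / u_j) e ⊗ y - e ⊗ (u_i / u_j) y = u_i e' ⊗ u_j y' - u_j e' ⊗ u_i y'` is a
value of the minor `i, j`, so it is in `W`; by induction (`Algebra.adjoin_induction`; linear forms
are combinations of coordinates) `r e ⊗ y - e ⊗ r y ∈ W` for all `r ∈ R_b`. Choose a `K`-basis
`y_1, ..., y_n` of `E'` in `N'_b` (`N'.span`). For `y ∈ N'_b` there is a nonzero `r ∈ R_b` with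
`r y = ∑ r_i y_i`, `r_i ∈ R_b` (`RR_frac`), and
`e ⊗ y ≡ (r⁻¹ e) ⊗ r y = ∑ (r⁻¹ e) ⊗ r_i y_i ≡ ∑ (r_i / r) e ⊗ y_i` modulo `W`. So every element is
congruent to some `∑ e_i ⊗ y_i`, and if its image `∑ e_i ⊗_K y_i` is zero then all `e_i` are. -/
theorem ker_twE (E : Type u) [AddCommGroup E] [Module k E] [Module (KK k) E]
    [IsScalarTower k (KK k) E] (N' : Lat k E') (b : Ch k) (hb : b.1 ⊆ Set.range (xx k))
    (t : (twE E).X0 ⊗[k] (twL N' b).X0)
    (ht : kT k E E' (LinearMap.lTensor E (((N'.tw 0).N b).subtype.restrictScalars k) t) = 0) :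
    ∃ w, hb1 (twE E) (twL N' b) w = t := by
  obtain ⟨W, hWm, hW⟩ : ∃ W : Submodule k (E ⊗[k] (N'.tw 0).N b),
      (∀ t, t ∈ W → ∃ w, hb1 (twE E) (twL N' b) w = t) ∧
      ∀ (i j : Fin 3) (z : E ⊗[k] (N'.tw (-1)).N b), mnr (twE E) (twL N' b) i j z ∈ W :=
    ⟨LinearMap.range (hb1 (twE E) (twL N' b)), fun t ht => ht,
      fun i j z => HBd_mnr (twE E) (twL N' b) i j z⟩
  have key : t ∈ W := by
    refine HBd_core b ((N'.tw 0).N b) W hb ((N'.tw 0).span b) ?_ t ht
    intro i j hj e y y' hy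
    have hu := HBd_uu (k := k) j
    have hmem : (uu k j)⁻¹ • (y : E') ∈ (N'.tw (-1)).N b := by
      rw [N'.mem_tw (-1) hj, HBd_lam, neg_neg, zpow_one, smul_inv_smul₀ hu]
      exact (N'.tw_zero b y).1 y.2
    have h1 := hW i j (((uu k j)⁻¹ • e : E) ⊗ₜ[k] (⟨(uu k j)⁻¹ • (y : E'), hmem⟩ :
      (N'.tw (-1)).N b))
    have e1 : uu k i • ((uu k j)⁻¹ • e) = (uu k i / uu k j) • e := by
      rw [smul_smul, div_eq_mul_inv]
    have e2 : uu k j • ((uu k j)⁻¹ • e) = e := smul_inv_smul₀ hu e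
    have e3 : (xmul N' (by norm_num) j).f b (⟨(uu k j)⁻¹ • (y : E'), hmem⟩ :
        (N'.tw (-1)).N b) = y := Subtype.ext (smul_inv_smul₀ hu (y : E'))
    have e4 : (xmul N' (by norm_num) i).f b (⟨(uu k j)⁻¹ • (y : E'), hmem⟩ :
        (N'.tw (-1)).N b) = y' := by
      refine Subtype.ext ?_
      rw [hy, div_eq_mul_inv, mul_smul]
      rfl
    have e5 : mnr (twE E) (twL N' b) i j (((uu k j)⁻¹ • e : E) ⊗ₜ[k]
        (⟨(uu k j)⁻¹ • (y : E'), hmem⟩ : (N'.tw (-1)).N b)) =
        (uu k i • ((uu k j)⁻¹ • e) : E) ⊗ₜ[k] ((xmul N' (by norm_num) j).f b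
          (⟨(uu k j)⁻¹ • (y : E'), hmem⟩ : (N'.tw (-1)).N b) : (N'.tw 0).N b) -
        (uu k j • ((uu k j)⁻¹ • e) : E) ⊗ₜ[k] ((xmul N' (by norm_num) i).f b
          (⟨(uu k j)⁻¹ • (y : E'), hmem⟩ : (N'.tw (-1)).N b) : (N'.tw 0).N b) := rfl
    rw [e1, e2, e3, e4] at e5
    exact (congrArg (fun z => z ∈ W) e5).mp h1
  exact hWm t key

end Pool.Agent.MP_6e5bed_ag_NS
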