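import Pool.Agent.Lib.MP_6e5bed_ag_NS.Dia
import Pool.Agent.Lib.MP_6e5bed_ag_NS.HBb

set_option autoImplicit false
set_option linter.unusedVariables false

/-!
# MP_6e5bed_ag, NC SURFACES: the Hilbert-Burch complex of Čech complexes (section 5d)
-/

noncomputable section

namespace Pool.Agent.MP_6e5bed_ag_NS

open Pool.Agent.MP_6e5bed_ag_NC
open scoped TensorProduct

universe u

variable {k : Type u} [Field k]

/-- `V(-2) → V(-1) → V` with the multiplications by the coordinates -/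
structure TPC (k : Type u) [Field k] where
  X0 : PC k
  X1 : PC k
  X2 : PC k
  x1 : Fin 3 → PCH X1 X0
  x2 : Fin 3 → PCH X2 X1
  comm : ∀ i j c x, ((x1 i).f c).f (((x2 j).f c).f x) = ((x1 j).f c).f (((x2 i).f c).f x)

/-- on a chart -/
def TPC.ch (T : TPC k) (c : Ch k) : Tw k where
  X0 := (T.X0.X c).V
  X1 := (T.X1.X c).V
  X2 := (T.X2.X c).V
  x1 := fun j => ((T.x1 j).f c).f
  x2 := fun j => ((T.x2 j).f c).f
  comm := fun i j x => T.comm i j c x

theorem cH_comm {V V' V'' : PC k} (f g : PCH V V') (f' g' : PCH V' V'')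
    (h : ∀ c x, (f'.f c).f ((f.f c).f x) = (g'.f c).f ((g.f c).f x)) :
    ∀ (L : List (LF k)) (c : FS k) x, ((cH f' L).g c).f (((cH f L).g c).f x) =
      ((cH g' L).g c).f (((cH g L).g c).f x)
  | [], c, x => rfl
  | l :: L, c, x => by
    obtain ⟨⟨x0, x1⟩, ξ⟩ := x
    exact Prod.ext (Prod.ext (cH_comm f g f' g' h L c x0) (h _ x1)) (cH_comm f g f' g' h L _ ξ)

/-- the Čech complexes -/
def TPC.tot (T : TPC k) (L : List (LF k)) (c : FS k) : Tw k where
  X0 := ((cC T.X0 L).X c).V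
  X1 := ((cC T.X1 L).X c).V
  X2 := ((cC T.X2 L).X c).V
  x1 := fun j => ((cH (T.x1 j) L).g c).f
  x2 := fun j => ((cH (T.x2 j) L).g c).f
  comm := fun i j x => cH_comm _ _ _ _ (T.comm i j) L c x

/-- the pairing of the charts `c` and `b` with values in the chart `d` -/
def chP {V V' V'' : PC k} (p : PP V V' V'') {c b d : Ch k} (hc : c ≤ d) (hb : b ≤ d) :
    (V.X c).V ⊗[k] (V'.X b).V →ₗ[k] (V''.X d).V :=
  TensorProduct.lift ((((p.p d).m).compl₂ (V'.ρ hb).f) ∘ₗ (V.ρ hc).f)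

theorem chP_tmul {V V' V'' : PC k} (p : PP V V' V'') {c b d : Ch k} (hc : c ≤ d) (hb : b ≤ d)
    (x : (V.X c).V) (y : (V'.X b).V) : chP p hc hb (x ⊗ₜ y) =
      (p.p d).m ((V.ρ hc).f x) ((V'.ρ hb).f y) := rfl

/-- the pairing of the Čech complex at `c` and the chart `b` with values in the Čech complex
at `d` -/
def lfP {V V' V'' : PC k} (p : PP V V' V'') (L : List (LF k)) {c d : FS k} {b : Ch k}
    (hc : c ≤ d) (hb : b.fs ≤ d) :
    ((cC V L).X c).V ⊗[k] (V'.X b).V →ₗ[k] ((cC V'' L).X d).V :=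
  TensorProduct.lift ((((cP p L).q d).m.compl₂ (((cC V' L).ρ hb).f ∘ₗ ((cC V' L).a b).f)) ∘ₗ
    ((cC V L).ρ hc).f)

theorem lfP_tmul {V V' V'' : PC k} (p : PP V V' V'') (L : List (LF k)) {c d : FS k} {b : Ch k}
    (hc : c ≤ d) (hb : b.fs ≤ d) (x : ((cC V L).X c).V) (y : (V'.X b).V) :
    lfP p L hc hb (x ⊗ₜ y) = ((cP p L).q d).m (((cC V L).ρ hc).f x)
      (((cC V' L).ρ hb).f (((cC V' L).a b).f y)) := rfl

/-- the pairing of the Čech complexes at `∅` and at `c` with values in the double Čech complex -/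
def rtP {V V' V'' : PC k} (p : PP V V' V'') (L L' : List (LF k)) (c : FS k) :
    ((cC V L).X (FS.e k)).V ⊗[k] ((cC V' L').X c).V →ₗ[k]
      ((cC (cC V'' L).pc L').X c).V :=
  TensorProduct.lift ((cR (prC p L) L').q c).m

/-- The chart level hypothesis: for all charts `c`, `b`, `d = c ∪ b` in the set `S` of linear
forms. -/
def HBch (T T' : TPC k) {Q : PC k} (p : PP T.X0 T'.X0 Q) (S : Set (LF k)) : Prop :=
  ∀ (c b d : Ch k) (hc : c ≤ d) (hb : b ≤ d), d.1 ⊆ c.1 ∪ b.1 → d.1 ⊆ S →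
    HBe (T.ch c) (T'.ch b) (chP p hc hb)

/-- two pairings side by side, the first factor is a product -/
private def hbtL {X X' Y : Tw k} {Z Z' : Type u} [AddCommGroup Z] [Module k Z]
    [AddCommGroup Z'] [Module k Z'] (q : X.X0 ⊗[k] Y.X0 →ₗ[k] Z)
    (q' : X'.X0 ⊗[k] Y.X0 →ₗ[k] Z') : (Tw.prod X X').X0 ⊗[k] Y.X0 →ₗ[k] Z × Z' :=
  LinearMap.prod (q ∘ₗ LinearMap.rTensor Y.X0 (LinearMap.fst k X.X0 X'.X0))
    (q' ∘ₗ LinearMap.rTensor Y.X0 (LinearMap.snd k X.X0 X'.X0))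

private theorem hbtL_tmul {X X' Y : Tw k} {Z Z' : Type u} [AddCommGroup Z] [Module k Z]
    [AddCommGroup Z'] [Module k Z'] (q : X.X0 ⊗[k] Y.X0 →ₗ[k] Z)
    (q' : X'.X0 ⊗[k] Y.X0 →ₗ[k] Z') (x : X.X0) (x' : X'.X0) (y : Y.X0) :
    hbtL q q' ((show (Tw.prod X X').X0 from (x, x')) ⊗ₜ y) = (q (x ⊗ₜ y), q' (x' ⊗ₜ y)) := rfl

/-- two pairings side by side, the second factor is a product -/
private def hbtR {X Y Y' : Tw k} {Z Z' : Type u} [AddCommGroup Z] [Module k Z]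
    [AddCommGroup Z'] [Module k Z'] (q : X.X0 ⊗[k] Y.X0 →ₗ[k] Z)
    (q' : X.X0 ⊗[k] Y'.X0 →ₗ[k] Z') : X.X0 ⊗[k] (Tw.prod Y Y').X0 →ₗ[k] Z × Z' :=
  LinearMap.prod (q ∘ₗ LinearMap.lTensor X.X0 (LinearMap.fst k Y.X0 Y'.X0))
    (q' ∘ₗ LinearMap.lTensor X.X0 (LinearMap.snd k Y.X0 Y'.X0))

private theorem hbtR_tmul {X Y Y' : Tw k} {Z Z' : Type u} [AddCommGroup Z] [Module k Z]
    [AddCommGroup Z'] [Module k Z'] (q : X.X0 ⊗[k] Y.X0 →ₗ[k] Z)
    (q' : X.X0 ⊗[k] Y'.X0 →ₗ[k] Z') (x : X.X0) (y : Y.X0) (y' : Y'.X0) :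
    hbtR q q' (x ⊗ₜ (show (Tw.prod Y Y').X0 from (y, y'))) = (q (x ⊗ₜ y), q' (x ⊗ₜ y')) := rfl

private theorem hbt_l {V V' V'' : PC k} (p : PP V V' V'') (l : LF k) (L : List (LF k))
    {c d : FS k} {b : Ch k} (hc : c ≤ d) (hb : b.fs ≤ d) (hbd : b ≤ d.ins l)
    (x0 : ((cC V L).X c).V) (x1 : (V.X (c.ins l)).V) (ξ : ((cC V L).X (c.ins l).fs).V)
    (y : (V'.X b).V) :
    lfP p (l :: L) hc hb ((show ((cC V (l :: L)).X c).V from ((x0, x1), ξ)) ⊗ₜ y) =
      ((lfP p L hc hb (x0 ⊗ₜ y), chP p (ins_mono hc l) hbd (x1 ⊗ₜ y)),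
        lfP p L (c := (c.ins l).fs) (d := (d.ins l).fs) (ins_mono hc l) hbd (ξ ⊗ₜ y)) := by
  refine Prod.ext (Prod.ext rfl ?_) ?_
  · change (p.p (d.ins l)).m ((V.ρ (ins_mono hc l)).f x1)
      ((V'.ρ _).f ((V'.ρ _).f y)) = (p.p (d.ins l)).m ((V.ρ _).f x1)
        ((V'.ρ _).f y)
    rw [V'.ρ_ρ]
  · change ((cP p L).q _).m (((cC V L).ρ _).f (((cC V L).X d).dg.s
        (((cC V L).ρ hc).f x0))) (((cC V' L).ρ _).f 0) +
      ((cP p L).q _).m (((cC V L).ρ _).f ξ)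
        (((cC V' L).a _).f ((V'.ρ _).f ((V'.ρ _).f y))) =
      ((cP p L).q _).m (((cC V L).ρ _).f ξ)
        (((cC V' L).ρ _).f (((cC V' L).a _).f y))
    rw [map_zero, map_zero, zero_add, V'.ρ_ρ, (cC V' L).a_ρ]

private theorem hbt_r {V V' V'' : PC k} (p : PP V V' V'') (L : List (LF k)) (b : Ch k)
    (x : ((cC V L).X (FS.e k)).V) (y : (V'.X b).V) :
    ((prC p L).p b).m x y = lfP p L (Set.empty_subset b.1 : FS.e k ≤ b.fs) (le_refl b.fs)
      (x ⊗ₜ y) := by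
  change ((cP p L).q _).m (((cC V L).ρ _).f x) (((cC V' L).a _).f y) =
    ((cP p L).q _).m (((cC V L).ρ _).f x)
      (((cC V' L).ρ _).f (((cC V' L).a _).f y))
  rw [(cC V' L).ρ_id]

private theorem hbt_nil (T : TPC k) (c : FS k) : Subsingleton (T.tot [] c).X0 ∧
    Subsingleton (T.tot [] c).X1 ∧ Subsingleton (T.tot [] c).X2 :=
  ⟨(inferInstance : Subsingleton PUnit.{u + 1}), (inferInstance : Subsingleton PUnit.{u + 1}),
    (inferInstance : Subsingleton PUnit.{u + 1})⟩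

private theorem hbt_cons (T : TPC k) (l : LF k) (L : List (LF k)) (c : FS k) :
    T.tot (l :: L) c = Tw.prod (Tw.prod (T.tot L c) (T.ch (c.ins l))) (T.tot L (c.ins l).fs) :=
  rfl

/-- Left step. By induction on `L` with `HBe.prod_left`, `HBe.iso`, `HBe.zero`:
`(cC V (l :: L)).X c = ((cC V L).X c × V (c ∪ l)) × (cC V L).X (c ∪ l)`, and the components of the
cup product with `a y`, `y` in `V' b`, are `(x0 a(y), x1 y, ξ a(y))` (the term `r0(s x0) * 0`
vanishes). -/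
theorem hb_left {T T' : TPC k} {Q : PC k} {p : PP T.X0 T'.X0 Q} {S : Set (LF k)}
    (h : HBch T T' p S) : ∀ (L : List (LF k)) (c d : FS k) (b : Ch k) (hc : c ≤ d)
      (hb : b.fs ≤ d), d.1 ⊆ c.1 ∪ b.1 → d.1 ⊆ S → (∀ l ∈ L, l ∈ S) →
        HBe (T.tot L c) (T'.ch b) (lfP p L hc hb) := by
  intro L
  induction L with
  | nil =>
    intro c d b hc hb _ _ _
    exact HBe.zero _ (inferInstance : Subsingleton PUnit.{u + 1}) (Or.inl (hbt_nil T c))
  | cons l L ih =>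
    intro c d b hc hb hd hS hL
    have hlS : l ∈ S := hL l List.mem_cons_self
    have hLS : ∀ m ∈ L, m ∈ S := fun m hm => hL m (List.mem_cons_of_mem _ hm)
    have hbd : b ≤ d.ins l := le_trans (α := Set (LF k)) (b := d.1) hb (le_ins d l)
    have hdu : (d.ins l).1 ⊆ (c.ins l).1 ∪ b.1 := by
      intro z hz
      rcases hz with hz | hz
      · exact Or.inl (Or.inl hz)
      · rcases hd hz with h1 | h1
        · exact Or.inl (Or.inr h1)
        · exact Or.inr h1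
    have hdS : (d.ins l).1 ⊆ S := Set.insert_subset hlS hS
    have h0 := ih c d b hc hb hd hS hLS
    have h1 := h (c.ins l) b (d.ins l) (ins_mono hc l) hbd hdu hdS
    have h2 := ih (c.ins l).fs (d.ins l).fs b (ins_mono hc l) hbd hdu hdS hLS
    have h3 := HBe.prod_left h0 h1 (hbtL (lfP p L hc hb) (chP p (ins_mono hc l) hbd))
      (fun x x' y => hbtL_tmul _ _ x x' y)
    refine HBe.prod_left h3 h2 (lfP p (l :: L) hc hb) (fun x ξ y => ?_)
    obtain ⟨x0, x1⟩ := x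
    exact hbt_l p l L hc hb hbd x0 x1 ξ y

/-- the identity -/
private def hbtI (X : Tw k) : TwIso X X where
  f0 := LinearEquiv.refl k _
  f1 := LinearEquiv.refl k _
  f2 := LinearEquiv.refl k _
  h1 := fun _ _ => rfl
  h2 := fun _ _ => rfl

/-- the sign involution as an equivalence -/
private def hbtE {V : Type u} [AddCommGroup V] [Module k V] (X : Dg k V) : V ≃ₗ[k] V :=
  LinearEquiv.ofInvolutive X.s X.s_s

/-- the sign involution -/
private def hbtS (T : TPC k) (L : List (LF k)) (c : FS k) : TwIso (T.tot L c) (T.tot L c) where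
  f0 := hbtE ((cC T.X0 L).X c).dg
  f1 := hbtE ((cC T.X1 L).X c).dg
  f2 := hbtE ((cC T.X2 L).X c).dg
  h1 := fun j x => ((cH (T.x1 j) L).g c).s x
  h2 := fun j x => ((cH (T.x2 j) L).g c).s x

/-- Right step. By induction on `L'` with `HBe.prod_right`, `HBe.iso`, `HBe.zero`:
the components of `x (y0, y1, υ)` are `(x y0, x y1, (s x) υ)`; for `y1 ∈ V' b` the pairing is
`lfP` with `c = ∅`, `d = b.fs`; for the third component use the automorphism `s ⊗ 1` of
`T.tot L ∅` (`HBe.iso`), it commutes with the maps `x_j`. -/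
theorem hb_right {T T' : TPC k} {Q : PC k} {p : PP T.X0 T'.X0 Q} {S : Set (LF k)}
    (h : HBch T T' p S) (L : List (LF k)) (hL : ∀ l ∈ L, l ∈ S) :
    ∀ (L' : List (LF k)) (c : FS k), c.1 ⊆ S → (∀ l ∈ L', l ∈ S) →
      HBe (T.tot L (FS.e k)) (T'.tot L' c) (rtP p L L' c) := by
  intro L'
  induction L' with
  | nil =>
    intro c _ _
    exact HBe.zero _ (inferInstance : Subsingleton PUnit.{u + 1}) (Or.inr (hbt_nil T' c))
  | cons l L' ih =>
    intro c hS hL'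
    have hlS : l ∈ S := hL' l List.mem_cons_self
    have hLS : ∀ m ∈ L', m ∈ S := fun m hm => hL' m (List.mem_cons_of_mem _ hm)
    have hdS : (c.ins l).1 ⊆ S := Set.insert_subset hlS hS
    have h0 := ih c hS hLS
    have h1 := hb_left h L (FS.e k) (c.ins l).fs (c.ins l)
      (Set.empty_subset (c.ins l).1 : FS.e k ≤ (c.ins l).fs) (le_refl (c.ins l).fs)
      (Set.subset_union_right) hdS hL
    have h2 := ih (c.ins l).fs hdS hLS
    have h3 := HBe.iso (hbtS T L (FS.e k)) (hbtI (T'.tot L' (c.ins l).fs))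
      (LinearEquiv.refl k _) (q := rtP p L L' (c.ins l).fs) (q' := rtP p L L' (c.ins l).fs ∘ₗ
        LinearMap.rTensor _ ((cC T.X0 L).X (FS.e k)).dg.s) (fun x y =>
          congrArg (fun z => (rtP p L L' (c.ins l).fs) (z ⊗ₜ[k] y))
            (((cC T.X0 L).X (FS.e k)).dg.s_s x)) h2
    have h4 := HBe.prod_right h0 h1 (hbtR (rtP p L L' c) (lfP p L
      (Set.empty_subset (c.ins l).1 : FS.e k ≤ (c.ins l).fs) (le_refl (c.ins l).fs)))
      (fun x y y' => hbtR_tmul _ _ x y y')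
    refine HBe.prod_right h4 h3 (rtP p L (l :: L') c) (fun x y υ => ?_)
    obtain ⟨y0, y1⟩ := y
    exact Prod.ext (Prod.ext rfl (hbt_r p L (c.ins l) x y1)) rfl

end Pool.Agent.MP_6e5bed_ag_NS
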