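import Pool.Agent.Lib.MP_6e5bed_ag_NS.HBcA
import Pool.Agent.Lib.MP_6e5bed_ag_NS.HBcC
import Pool.Agent.Lib.MP_6e5bed_ag_NS.HBd
import Pool.Agent.Lib.MP_6e5bed_ag_NS.HBt

set_option autoImplicit false

/-!
# MP_6e5bed_ag, NC SURFACES: the Hilbert-Burch resolution of a product of lattices on charts
(section 5c)
-/

noncomputable section

namespace Pool.Agent.MP_6e5bed_ag_NS

open Pool.Agent.MP_6e5bed_ag_NC
open scoped TensorProduct

universe u

variable {k : Type u} [Field k] {E : Type u} [AddCommGroup E] [Module k E] [Module (KK k) E]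
  [IsScalarTower k (KK k) E] {E' : Type u} [AddCommGroup E'] [Module k E'] [Module (KK k) E']
  [IsScalarTower k (KK k) E']

/-- the sheaves `N(-2) → N(-1) → N(0)` -/
def latT (N : Lat k E) : TPC k where
  X0 := (N.tw 0).sh.pc
  X1 := (N.tw (-1)).sh.pc
  X2 := (N.tw (-2)).sh.pc
  x1 := fun j => (xmul N (by norm_num) j).pch
  x2 := fun j => (xmul N (by norm_num) j).pch
  comm := fun i j _ x => Subtype.ext (smul_comm (uu k i) (uu k j) x.1)

/-- a bilinear map as a pairing of complexes in degree zero -/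
def concP {V W Z : Type u} [AddCommGroup V] [Module k V] [AddCommGroup W] [Module k W]
    [AddCommGroup Z] [Module k Z] (m : V →ₗ[k] W →ₗ[k] Z) :
    CPr (Cx.conc k V) (Cx.conc k W) (Cx.conc k Z) where
  m := m
  deg := fun {i j x y} hx hy => by
    rcases Dg.conc_cases hx with rfl | rfl
    · rw [zero_add]
      exact conc_map (m x) hy
    · have h1 : m (0 : V) y = 0 := LinearMap.map_zero₂ m y
      exact (congrArg ((Cx.conc k Z).dg.IsDeg (i + j)) h1).mpr (Dg.IsDeg.zero _)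
  d := fun x y => by
    have h1 : m (0 : V) y = 0 := LinearMap.map_zero₂ m y
    have h2 : m ((Dg.conc k V).s x) (0 : W) = 0 := map_zero _
    change (0 : Z) = m (0 : V) y + m ((Dg.conc k V).s x) (0 : W)
    exact (zero_add (0 : Z)).symm.trans (congrArg₂ (· + ·) h1.symm h2.symm)

/-- the multiplication on a chart -/
def latM (N : Lat k E) (N' : Lat k E') (c : Ch k) :
    (N.tw 0).N c →ₗ[k] (N'.tw 0).N c →ₗ[k] (N.tens N').N c :=
  LinearMap.mk₂ k (fun x y => ⟨x.1 ⊗ₜ[KK k] y.1, Submodule.subset_span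
      ⟨x.1, (N.tw_zero c x.1).1 x.2, y.1, (N'.tw_zero c y.1).1 y.2, rfl⟩⟩)
    (fun x x' y => Subtype.ext (TensorProduct.add_tmul x.1 x'.1 y.1))
    (fun s x y => Subtype.ext (TensorProduct.smul_tmul' s x.1 y.1).symm)
    (fun x y y' => Subtype.ext (TensorProduct.tmul_add x.1 y.1 y'.1))
    (fun s x y => Subtype.ext (by
      change x.1 ⊗ₜ[KK k] (s • y.1) = s • (x.1 ⊗ₜ[KK k] y.1)
      rw [← algebraMap_smul (KK k) s y.1, TensorProduct.tmul_smul, algebraMap_smul]))

/-- the multiplication `N(0) ⊗ N'(0) → N N'` -/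
def latP (N : Lat k E) (N' : Lat k E') :
    PP (N.tw 0).sh.pc (N'.tw 0).sh.pc (N.tens N').sh.pc where
  p := fun c => concP (latM N N' c)
  nat := fun _ _ _ => Subtype.ext rfl

/-! ### naturality (copies of the private lemmas of HBb) -/

private theorem HBf_rT {X X' Y Y' : Tw k} (f : TwHom X X') (g : Y.X1 →ₗ[k] Y'.X1) (j : Fin 3)
    (t : X.X2 ⊗[k] Y.X1) : LinearMap.rTensor Y'.X1 (X'.x2 j) (TensorProduct.map f.f2 g t) =
      TensorProduct.map f.f1 g (LinearMap.rTensor Y.X1 (X.x2 j) t) := by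
  induction t using TensorProduct.induction_on with
  | zero => simp only [map_zero]
  | tmul a b =>
    rw [TensorProduct.map_tmul, LinearMap.rTensor_tmul, LinearMap.rTensor_tmul,
      TensorProduct.map_tmul, f.h2]
  | add s t hs ht => simp only [map_add, hs, ht]

private theorem HBf_lT {X X' Y Y' : Tw k} (f : X.X1 →ₗ[k] X'.X1) (g : TwHom Y Y') (j : Fin 3)
    (t : X.X1 ⊗[k] Y.X2) : LinearMap.lTensor X'.X1 (Y'.x2 j) (TensorProduct.map f g.f2 t) =
      TensorProduct.map f g.f1 (LinearMap.lTensor X.X1 (Y.x2 j) t) := by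
  induction t using TensorProduct.induction_on with
  | zero => simp only [map_zero]
  | tmul a b =>
    rw [TensorProduct.map_tmul, LinearMap.lTensor_tmul, LinearMap.lTensor_tmul,
      TensorProduct.map_tmul, g.h2]
  | add s t hs ht => simp only [map_add, hs, ht]

private theorem HBf_nat2 {X X' Y Y' : Tw k} (f : TwHom X X') (g : TwHom Y Y')
    (α : X.X2 ⊗[k] Y.X1) (β : X.X1 ⊗[k] Y.X2) (j : Fin 3) :
    hb2 X' Y' (TensorProduct.map f.f2 g.f1 α, TensorProduct.map f.f1 g.f2 β) j =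
      TensorProduct.map f.f1 g.f1 (hb2 X Y (α, β) j) := by
  rw [hb2_apply, hb2_apply, map_add, HBf_rT, HBf_lT]

private theorem HBf_mnr {X X' Y Y' : Tw k} (f : TwHom X X') (g : TwHom Y Y') (i j : Fin 3)
    (t : X.X1 ⊗[k] Y.X1) : mnr X' Y' i j (TensorProduct.map f.f1 g.f1 t) =
      TensorProduct.map f.f0 g.f0 (mnr X Y i j t) := by
  induction t using TensorProduct.induction_on with
  | zero => simp only [map_zero]
  | tmul a b =>
    unfold mnr
    rw [LinearMap.sub_apply, LinearMap.sub_apply, map_sub]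
    simp only [TensorProduct.map_tmul, f.h1, g.h1]
  | add s t hs ht => simp only [map_add, hs, ht]

private theorem HBf_nat1 {X X' Y Y' : Tw k} (f : TwHom X X') (g : TwHom Y Y')
    (c : Fin 3 → X.X1 ⊗[k] Y.X1) :
    hb1 X' Y' (fun j => TensorProduct.map f.f1 g.f1 (c j)) =
      TensorProduct.map f.f0 g.f0 (hb1 X Y c) := by
  rw [hb1_apply, hb1_apply, HBf_mnr, HBf_mnr, HBf_mnr, map_add, map_sub]

private def HBf_id (X : Tw k) : TwHom X X where
  f0 := LinearMap.id
  f1 := LinearMap.id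
  f2 := LinearMap.id
  h1 := fun _ _ => rfl
  h2 := fun _ _ => rfl

private def HBf_refl (X : Tw k) : TwIso X X where
  f0 := LinearEquiv.refl k X.X0
  f1 := LinearEquiv.refl k X.X1
  f2 := LinearEquiv.refl k X.X2
  h1 := fun _ _ => rfl
  h2 := fun _ _ => rfl

private theorem HBf_dα (X Y : Tw k) (i j l : Fin 3) (t : X.X2 ⊗[k] Y.X1) :
    mnr X Y i j (LinearMap.rTensor Y.X1 (X.x2 l) t) =
      TensorProduct.map (X.x1 i ∘ₗ X.x2 l) (Y.x1 j) t -
        TensorProduct.map (X.x1 j ∘ₗ X.x2 l) (Y.x1 i) t := by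
  induction t using TensorProduct.induction_on with
  | zero => simp only [map_zero, sub_zero]
  | tmul a b =>
    unfold mnr
    rw [LinearMap.rTensor_tmul, LinearMap.sub_apply]
    simp only [TensorProduct.map_tmul, LinearMap.comp_apply]
  | add s t hs ht =>
    simp only [map_add, hs, ht]
    abel

private theorem HBf_dβ (X Y : Tw k) (i j l : Fin 3) (t : X.X1 ⊗[k] Y.X2) :
    mnr X Y i j (LinearMap.lTensor X.X1 (Y.x2 l) t) =
      TensorProduct.map (X.x1 i) (Y.x1 j ∘ₗ Y.x2 l) t -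
        TensorProduct.map (X.x1 j) (Y.x1 i ∘ₗ Y.x2 l) t := by
  induction t using TensorProduct.induction_on with
  | zero => simp only [map_zero, sub_zero]
  | tmul a b =>
    unfold mnr
    rw [LinearMap.lTensor_tmul, LinearMap.sub_apply]
    simp only [TensorProduct.map_tmul, LinearMap.comp_apply]
  | add s t hs ht =>
    simp only [map_add, hs, ht]
    abel

private theorem HBf_comm (X : Tw k) (i j : Fin 3) :
    X.x1 i ∘ₗ X.x2 j = X.x1 j ∘ₗ X.x2 i := LinearMap.ext fun x => X.comm i j x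

private theorem HBf_d (X Y : Tw k) (z : (X.X2 ⊗[k] Y.X1) × (X.X1 ⊗[k] Y.X2)) :
    hb1 X Y (hb2 X Y z) = 0 := by
  obtain ⟨α, β⟩ := z
  rw [hb1_apply, hb2_apply, hb2_apply, hb2_apply]
  simp only [map_add, HBf_dα, HBf_dβ]
  rw [HBf_comm X 1 0, HBf_comm X 2 0, HBf_comm X 2 1, HBf_comm Y 1 0, HBf_comm Y 2 0,
    HBf_comm Y 2 1]
  abel

/-! ### the inclusion and the projection -/

private def HBf_in (N : Lat k E) (c : Ch k) : TwHom (twL N c) (twE E) where
  f0 := ((N.tw 0).N c).subtype.restrictScalars k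
  f1 := ((N.tw (-1)).N c).subtype.restrictScalars k
  f2 := ((N.tw (-2)).N c).subtype.restrictScalars k
  h1 := fun _ _ => rfl
  h2 := fun _ _ => rfl

private def HBf_pr (N : Lat k E) (c : Ch k) : TwHom (twE E) (twQ N c) where
  f0 := (((N.tw 0).N c).restrictScalars k).mkQ
  f1 := (((N.tw (-1)).N c).restrictScalars k).mkQ
  f2 := (((N.tw (-2)).N c).restrictScalars k).mkQ
  h1 := fun _ _ => rfl
  h2 := fun _ _ => rfl

private theorem HBf_exact (N : Lat k E) (d : ℤ) (c : Ch k) :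
    Function.Exact (((N.tw d).N c).subtype.restrictScalars k)
      (((N.tw d).N c).restrictScalars k).mkQ := by
  intro x
  constructor
  · intro h
    have h1 : x ∈ ((N.tw d).N c).restrictScalars k := (Submodule.Quotient.mk_eq_zero _).1 h
    exact ⟨⟨x, h1⟩, rfl⟩
  · rintro ⟨y, rfl⟩
    exact (Submodule.Quotient.mk_eq_zero _).2 y.2

/-- the pairing, as an element of the tensor product -/
private theorem HBf_q (N : Lat k E) (N' : Lat k E') {c b d : Ch k} (hc : c ≤ d) (hb : b ≤ d)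
    (t : (twL N c).X0 ⊗[k] (twL N' b).X0) :
    ((show (N.tens N').N d from (chP (latP N N') hc hb) t) : E ⊗[KK k] E') =
      kT k E E' (LinearMap.lTensor E (((N'.tw 0).N b).subtype.restrictScalars k)
        (TensorProduct.map (HBf_in N c).f0 (HBf_id (twL N' b)).f0 t)) := by
  induction t using TensorProduct.induction_on with
  | zero =>
    simp only [map_zero]
    rfl
  | tmul x y => rfl
  | add s t hs ht =>
    refine (congrArg Subtype.val (map_add (chP (latP N N') hc hb) s t)).trans ?_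
    refine (congrArg₂ (· + ·) hs ht).trans ?_
    exact ((congrArg (fun z => kT k E E' (LinearMap.lTensor E
      (((N'.tw 0).N b).subtype.restrictScalars k) z))
        (map_add (TensorProduct.map (HBf_in N c).f0 (HBf_id (twL N' b)).f0) s t)).trans
      ((congrArg (kT k E E') (map_add (LinearMap.lTensor E
        (((N'.tw 0).N b).subtype.restrictScalars k)) _ _)).trans
          (map_add (kT k E E') _ _))).symm

private theorem HBf_mn (N : Lat k E) (N' : Lat k E') {c b d : Ch k} (hc : c ≤ d) (hb : b ≤ d)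
    (i j : Fin 3) (t : (twL N c).X1 ⊗[k] (twL N' b).X1) :
    (chP (latP N N') hc hb) (mnr (twL N c) (twL N' b) i j t) = 0 := by
  induction t using TensorProduct.induction_on with
  | zero =>
    rw [map_zero]
    exact map_zero _
  | tmul x y =>
    unfold mnr
    rw [LinearMap.sub_apply]
    refine (map_sub (chP (latP N N') hc hb) _ _).trans (sub_eq_zero.2 (Subtype.ext ?_))
    change (uu k i • x.1) ⊗ₜ[KK k] (uu k j • y.1) = (uu k j • x.1) ⊗ₜ[KK k] (uu k i • y.1)
    rw [TensorProduct.smul_tmul_smul, TensorProduct.smul_tmul_smul, mul_comm]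
  | add s t hs ht =>
    rw [map_add]
    refine (map_add (chP (latP N N') hc hb) _ _).trans ?_
    rw [hs, ht, add_zero]

private theorem HBf_surj (N : Lat k E) (N' : Lat k E') {c b d : Ch k} (hc : c ≤ d) (hb : b ≤ d)
    (hd : d.1 ⊆ c.1 ∪ b.1) : Function.Surjective (chP (latP N N') hc hb) := by
  intro z
  have hz := (N.mem_tens N' hc hb hd z.1).1 z.2
  have key : ∀ w ∈ Submodule.span k {z : E ⊗[KK k] E' | ∃ x ∈ N.N c, ∃ y ∈ N'.N b,
      z = x ⊗ₜ[KK k] y}, ∃ t : (twL N c).X0 ⊗[k] (twL N' b).X0,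
      ((show (N.tens N').N d from (chP (latP N N') hc hb) t) : E ⊗[KK k] E') = w := by
    intro w hw
    induction hw using Submodule.span_induction with
    | mem w hw =>
      obtain ⟨x, hx, y, hy, rfl⟩ := hw
      exact ⟨(show (twL N c).X0 from ⟨x, (N.tw_zero c x).2 hx⟩) ⊗ₜ[k]
        (show (twL N' b).X0 from ⟨y, (N'.tw_zero b y).2 hy⟩), rfl⟩
    | zero => exact ⟨0, congrArg Subtype.val (map_zero (chP (latP N N') hc hb))⟩
    | add w w' _ _ hw hw' =>
      obtain ⟨t, rfl⟩ := hw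
      obtain ⟨t', rfl⟩ := hw'
      exact ⟨t + t', congrArg Subtype.val (map_add (chP (latP N N') hc hb) t t')⟩
    | smul s w _ hw =>
      obtain ⟨t, rfl⟩ := hw
      exact ⟨s • t, congrArg Subtype.val (map_smul (chP (latP N N') hc hb) s t)⟩
  obtain ⟨t, ht⟩ := key z.1 hz
  exact ⟨t, Subtype.ext ht⟩

private theorem HBf_ker (N : Lat k E) (N' : Lat k E') (hN' : IsRefl N') {c b d : Ch k}
    (hc : c ≤ d) (hb : b ≤ d) {α : Fin 3} (hα : xx k α ∈ c.1)
    (hbr : b.1 ⊆ Set.range (xx k)) (t : (twL N c).X0 ⊗[k] (twL N' b).X0)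
    (ht : (chP (latP N N') hc hb) t = 0) : ∃ z, hb1 (twL N c) (twL N' b) z = t := by
  have h1 : kT k E E' (LinearMap.lTensor E (((N'.tw 0).N b).subtype.restrictScalars k)
      (TensorProduct.map (HBf_in N c).f0 (HBf_id (twL N' b)).f0 t)) = 0 := by
    rw [← HBf_q N N' hc hb t, ht]
    rfl
  obtain ⟨w', hw'⟩ := ker_twE E N' b hbr _ h1
  obtain ⟨w0, hw0, hα0, ⟨e⟩⟩ := twQ_con N c hα
  have hQ : EX (twQ N c) (twL N' b) :=
    EX.iso e (HBf_refl _) (ex_con w0 hw0 α hα0 N' hN' b hbr)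
  have e0 : ∀ s : (twL N c).X0 ⊗[k] (twL N' b).X0,
      TensorProduct.map (HBf_pr N c).f0 (HBf_id (twL N' b)).f0
        (TensorProduct.map (HBf_in N c).f0 (HBf_id (twL N' b)).f0 s) = 0 := fun s =>
    (rTensor_exact (twL N' b).X0 (HBf_exact N 0 c) (Submodule.mkQ_surjective _)).apply_apply_eq_zero s
  have h2 : hb1 (twQ N c) (twL N' b)
      (fun j => TensorProduct.map (HBf_pr N c).f1 (HBf_id (twL N' b)).f1 (w' j)) = 0 := by
    rw [HBf_nat1, hw', e0]
  obtain ⟨⟨α2, β2⟩, h3⟩ := hQ.2 _ h2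
  obtain ⟨α1, hα1⟩ : ∃ α1, TensorProduct.map (HBf_pr N c).f2 (HBf_id (twL N' b)).f1 α1 = α2 :=
    LinearMap.rTensor_surjective (twL N' b).X1 (g := (HBf_pr N c).f2)
      (Submodule.mkQ_surjective _) α2
  obtain ⟨β1, hβ1⟩ : ∃ β1, TensorProduct.map (HBf_pr N c).f1 (HBf_id (twL N' b)).f2 β1 = β2 :=
    LinearMap.rTensor_surjective (twL N' b).X2 (g := (HBf_pr N c).f1)
      (Submodule.mkQ_surjective _) β2
  have h4 : ∀ j, ∃ w, TensorProduct.map (HBf_in N c).f1 (HBf_id (twL N' b)).f1 w =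
      w' j - hb2 (twE E) (twL N' b) (α1, β1) j := by
    intro j
    refine ((rTensor_exact (twL N' b).X1 (HBf_exact N (-1) c) (Submodule.mkQ_surjective _))
      (w' j - hb2 (twE E) (twL N' b) (α1, β1) j)).1 ?_
    change TensorProduct.map (HBf_pr N c).f1 (HBf_id (twL N' b)).f1
      (w' j - hb2 (twE E) (twL N' b) (α1, β1) j) = 0
    rw [map_sub, ← HBf_nat2, hα1, hβ1, h3, sub_self]
  choose w hw using h4
  refine ⟨w, ?_⟩
  have inj : Function.Injective
      (TensorProduct.map (HBf_in N c).f0 (HBf_id (twL N' b)).f0) :=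
    Module.Flat.rTensor_preserves_injective_linearMap (M := (twL N' b).X0) (HBf_in N c).f0
      (Subtype.val_injective)
  apply inj
  rw [← HBf_nat1]
  have h5 : (fun j => TensorProduct.map (HBf_in N c).f1 (HBf_id (twL N' b)).f1 (w j)) =
      w' - hb2 (twE E) (twL N' b) (α1, β1) := funext hw
  rw [h5, map_sub, HBf_d, sub_zero, hw']

/-- The chart level hypothesis of `hb_right`. PROOF. Let `X = twL N c`, `Y = twL N' b`; there is
`α` with `x_α ∈ c`. (1) `EX X Y`: `twL_con`, `ex_con`, `EX.iso`. (2) Surjectivity: `Lat.mem_tens`.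
(3) The minors map to `u_i x ⊗_K u_j y - u_j x ⊗_K u_i y = 0`. (4) The kernel: the sequences
`0 → N(i)_c → E → E / N(i)_c → 0` stay exact after tensoring with `Y_i` over the field `k`. Let
`t ∈ X_0 ⊗ Y_0` with `chP t = 0`. By `ker_twE` its image in `E ⊗ Y_0` is `hb1 w'`,
`w' ∈ (E ⊗ Y_1) ^ 3`. The image of `w'` in `(E / N(-1)_c ⊗ Y_1) ^ 3` is killed by `hb1`, so it is
`hb2 z''` (`twQ_con`, `ex_con`, `EX.iso`: `EX (twQ N c) Y`); lift `z''` to
`z' ∈ (E ⊗ Y_1) × (E ⊗ Y_2)`. Then `w' - hb2 z'` comes from `w ∈ (X_1 ⊗ Y_1) ^ 3`, and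
`hb1 w = t` (`hb1 (hb2 z') = 0`, injectivity of `X_0 ⊗ Y_0 → E ⊗ Y_0`). -/
theorem hb_lat (N : Lat k E) (N' : Lat k E') (hN' : IsRefl N') :
    HBch (latT N) (latT N') (latP N N') (Set.range (xx k)) := by
  intro c b d hc hb hd hS
  obtain ⟨g, hg⟩ := c.2.1
  obtain ⟨α, rfl⟩ := hS (hc hg)
  have hbr : b.1 ⊆ Set.range (xx k) := fun x hx => hS (hb hx)
  obtain ⟨w0, hw0, hα0, ⟨e⟩⟩ := twL_con N c hg
  have h1 : EX (twL N c) (twL N' b) :=
    EX.iso e (HBf_refl _) (ex_con w0 hw0 α hα0 N' hN' b hbr)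
  refine ⟨h1, HBf_surj N N' hc hb hd, fun z => ?_, fun t ht => ?_⟩
  · refine (congrArg (chP (latP N N') hc hb) (hb1_apply (twL N c) (twL N' b) z)).trans ?_
    refine (map_add (chP (latP N N') hc hb) _ _).trans ?_
    rw [HBf_mn N N' hc hb 0 1 (z 2), add_zero]
    refine (map_sub (chP (latP N N') hc hb) _ _).trans ?_
    rw [HBf_mn N N' hc hb 1 2 (z 0), HBf_mn N N' hc hb 0 2 (z 1), sub_zero]
  · exact HBf_ker N N' hN' hc hb hg hbr t ht

end Pool.Agent.MP_6e5bed_ag_NS
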