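import Pool.Agent.Lib.MP_6e5bed_ag_NS.Sh
import Pool.Agent.Lib.MP_6e5bed_ag_NS.QiB

set_option autoImplicit false

/-!
# MP_6e5bed_ag, NC SURFACES: the Čech complex of a sheaf on a chart (section 2b)

PROOF. Multiplication with elements of `R_c` is defined on `(cC M.pc L).X c'` for
`c ⊆ c'` by recursion on `L` (`(r x0, r x1, r ξ)`); it commutes with `d`, `ρ`, `a`. Let
`r = quo l`. By induction on `L`: for `z` in `(cC M.pc L).X (c' ∪ l)` there are `n` and `y` with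
`ρ y = r ^ n z`, and if `ρ y = 0` for `y` in `(cC M.pc L).X c'` then `r ^ n y = 0` for some `n`
(componentwise this is `M.surj`, `M.inj`).

If `l ∈ L` and `l ∈ c`, then `(cC V L).a c` is a quasi-isomorphism (`Loc_mem`). So the cohomology
of the cone of `(cC M.pc L).a c` vanishes after restriction to `c ∪ l`, `l ∈ L`; hence each
element of it is killed by a power of every `quo l`, `l ∈ L`, and therefore by `1`.
-/

noncomputable section

namespace Pool.Agent.MP_6e5bed_ag_NS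

open Pool.Agent.MP_6e5bed_ag_NC

universe u

variable {k : Type u} [Field k]

/-! ### a linear form of the list which is invertible on the chart -/

private def Loc_pr1 {X0 X1 X01 : Cx k} (r0 : CHom X0 X01) (r1 : CHom X1 X01) :
    CHom (co r0 r1) X1 where
  f := LinearMap.snd k X0.V X1.V ∘ₗ LinearMap.fst k (X0.V × X1.V) X01.V
  deg := fun {i x} h => by
    obtain ⟨⟨x0, x1⟩, ξ⟩ := x
    exact (co_deg.1 h).2.1
  d := fun x => by
    obtain ⟨⟨x0, x1⟩, ξ⟩ := x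
    exact (congrArg (fun z => z.1.2) (co_d (r0 := r0) (r1 := r1) x0 x1 ξ)).symm

private theorem Loc_pr1_qi {X0 X1 X01 : Cx k} {r0 : CHom X0 X01} (r1 : CHom X1 X01)
    (h : Function.Bijective r0.f) : (Loc_pr1 r0 r1).QI := by
  refine CHom.QI.of_surj ?_ ?_
  · intro x1
    exact ⟨co.mk r0 r1 0 x1 0, rfl⟩
  · rintro ⟨⟨x0, x1⟩, ξ⟩ hx hd
    have hx1 : x1 = 0 := hx
    subst hx1
    have e := (co_d (r0 := r0) (r1 := r1) x0 0 ξ).symm.trans hd
    have e1 : X0.dg.d x0 = 0 := congrArg (fun z => z.1.1) e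
    have e2 : r1.f 0 - r0.f x0 - X01.dg.d ξ = 0 := congrArg (fun z => z.2) e
    obtain ⟨w, rfl⟩ := h.2 ξ
    refine ⟨co.mk r0 r1 (-w) 0 0, rfl, ?_⟩
    refine (co_d (r0 := r0) (r1 := r1) (-w) 0 0).trans ?_
    have e3 : X0.dg.d (-w) = x0 := by
      apply h.1
      rw [map_neg, map_neg, ← r0.d]
      rw [map_zero, zero_sub] at e2
      rw [sub_eq_zero] at e2
      rw [← e2, neg_neg]
    refine Prod.ext (Prod.ext e3 (map_zero X1.dg.d)) ?_
    change r1.f 0 - r0.f (-w) - X01.dg.d 0 = r0.f w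
    rw [map_zero, map_zero, map_neg, zero_sub, neg_neg, sub_zero]

private theorem Loc_bij {V : PC k} {c d : Ch k} (h : c ≤ d) (h' : d ≤ c) :
    Function.Bijective (V.ρ h).f := by
  refine ⟨fun x y hxy => ?_, fun x => ⟨(V.ρ h').f x, ?_⟩⟩
  · have e := congrArg (V.ρ h').f hxy
    rw [V.ρ_ρ, V.ρ_ρ, V.ρ_id, V.ρ_id] at e
    exact e
  · rw [V.ρ_ρ, V.ρ_id]

private theorem Loc_bij' {V : PC k} {W : WC V} {c d : FS k} (h : c ≤ d) (h' : d ≤ c) :
    Function.Bijective (W.ρ h).f := by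
  refine ⟨fun x y hxy => ?_, fun x => ⟨(W.ρ h').f x, ?_⟩⟩
  · have e := congrArg (W.ρ h').f hxy
    rw [W.ρ_ρ, W.ρ_ρ, W.ρ_id, W.ρ_id] at e
    exact e
  · rw [W.ρ_ρ, W.ρ_id]

private theorem Loc_mem (V : PC k) (l : LF k) : ∀ (L : List (LF k)), l ∈ L → ∀ c : Ch k,
    l ∈ c.1 → ((cC V L).a c).QI
  | [], h, _, _ => absurd h (List.not_mem_nil)
  | l' :: L, h, c, hl => by
    by_cases e : l ∈ L
    · have q1 := Loc_mem V l L e c hl
      have q2 := Loc_mem V l L e (c.fs.ins l') (Set.mem_insert_of_mem _ hl)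
      exact CHom.QI.of_right (g := co.pr0 ((cC V L).ρ (le_ins c.fs l')) ((cC V L).a (c.fs.ins l')))
        (fun x => rfl) (co_pr0_qi _ q2) q1
    · have e1 : l = l' := (List.mem_cons.1 h).resolve_right e
      subst e1
      have h1 : c.fs.ins l ≤ c := Set.insert_subset hl (le_refl _)
      exact CHom.QI.of_right
        (g := Loc_pr1 ((cC V L).ρ (le_ins c.fs l)) ((cC V L).a (c.fs.ins l)))
        (h := V.ρ (le_ins' c l)) (fun x => rfl) (Loc_pr1_qi _ (Loc_bij' _ h1))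
        (CHom.QI.of_bij (Loc_bij _ h1))

/-! ### the action of the functions -/

private theorem Loc_rinc {c d e : Ch k} (h : c ≤ d) (h' : d ≤ e) (r : RR k c) :
    rinc h' (rinc h r) = rinc (h.trans h') r := by
  unfold rinc
  rw [Subalgebra.inclusion_inclusion]

private theorem Loc_quo {c d : Ch k} (h : c ≤ d) {g : LF k} (hg : g ∈ c.1) (l : LF k) :
    rinc h (quo l.1 hg) = quo l.1 (h hg) := by
  apply Subtype.ext
  unfold rinc quo
  rw [Subalgebra.coe_inclusion]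

/-- multiplication on the sections over a smaller chart -/
private def Loc_m (M : Shf k) {c : Ch k} (d : Ch k) (h : c ≤ d) (r : RR k c) :
    M.M d →ₗ[k] M.M d := Algebra.lsmul k k (M.M d) (rinc h r)

private theorem Loc_m_apply (M : Shf k) {c : Ch k} (d : Ch k) (h : c ≤ d) (r : RR k c)
    (x : M.M d) : Loc_m M d h r x = rinc h r • x := rfl

private theorem Loc_m_add (M : Shf k) {c : Ch k} (d : Ch k) (h : c ≤ d) (r s : RR k c)
    (x : M.M d) : Loc_m M d h (r + s) x = Loc_m M d h r x + Loc_m M d h s x := by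
  rw [Loc_m_apply, Loc_m_apply, Loc_m_apply, map_add, add_smul]

private theorem Loc_m_mul (M : Shf k) {c : Ch k} (d : Ch k) (h : c ≤ d) (r s : RR k c)
    (x : M.M d) : Loc_m M d h (r * s) x = Loc_m M d h r (Loc_m M d h s x) := by
  rw [Loc_m_apply, Loc_m_apply, Loc_m_apply, map_mul, mul_smul]

private theorem Loc_m_one (M : Shf k) {c : Ch k} (d : Ch k) (h : c ≤ d)
    (x : M.M d) : Loc_m M d h (1 : RR k c) x = x := by
  rw [Loc_m_apply, map_one, one_smul]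

private theorem Loc_m_res (M : Shf k) {c : Ch k} (d e : Ch k) (h : c ≤ d) (h' : d ≤ e)
    (r : RR k c) (x : M.M d) :
    M.res h' (Loc_m M d h r x) = Loc_m M e (h.trans h') r (M.res h' x) := by
  rw [Loc_m_apply, M.res_smul, Loc_m_apply, Loc_rinc]

private theorem Loc_m_surj (M : Shf k) {c : Ch k} (d e : Ch k) (h : c ≤ d) (h' : d ≤ e)
    {g : LF k} (hg : g ∈ c.1) (l : LF k) (hd : e ≤ d.ins l) (z : M.M e) :
    ∃ n : ℕ, ∀ N, n ≤ N → ∃ y : M.M d,
      M.res h' y = Loc_m M e (h.trans h') (quo l.1 hg ^ N) z := by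
  obtain ⟨n, y, hy⟩ := M.surj h' (h hg) l hd z
  refine ⟨n, fun N hN => ?_⟩
  obtain ⟨m, rfl⟩ := Nat.exists_eq_add_of_le' hN
  refine ⟨Loc_m M d h (quo l.1 hg ^ m) y, ?_⟩
  rw [pow_add, Loc_m_mul, Loc_m_res, hy, Loc_m_apply M _ _ (quo l.1 hg ^ n), map_pow, Loc_quo]

private theorem Loc_m_inj (M : Shf k) {c : Ch k} (d e : Ch k) (h : c ≤ d) (h' : d ≤ e)
    {g : LF k} (hg : g ∈ c.1) (l : LF k) (hd : e ≤ d.ins l) (y : M.M d)
    (hy : M.res h' y = 0) : ∃ n : ℕ, ∀ N, n ≤ N → Loc_m M d h (quo l.1 hg ^ N) y = 0 := by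
  obtain ⟨n, hn⟩ := M.inj h' (h hg) l hd y hy
  refine ⟨n, fun N hN => ?_⟩
  obtain ⟨m, rfl⟩ := Nat.exists_eq_add_of_le' hN
  have e3 : Loc_m M d h (quo l.1 hg ^ n) y = 0 := by
    rw [Loc_m_apply, map_pow, Loc_quo]
    exact hn
  rw [pow_add, Loc_m_mul, e3, map_zero]

private structure Loc_G (M : Shf k) (W : WC M.pc) (c : Ch k) where
  act : ∀ (c' : FS k), c.fs ≤ c' → RR k c → ((W.X c').V →ₗ[k] (W.X c').V)
  act_add : ∀ (c' : FS k) (h : c.fs ≤ c') (r s : RR k c) (x : (W.X c').V),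
    act c' h (r + s) x = act c' h r x + act c' h s x
  act_mul : ∀ (c' : FS k) (h : c.fs ≤ c') (r s : RR k c) (x : (W.X c').V),
    act c' h (r * s) x = act c' h r (act c' h s x)
  act_one : ∀ (c' : FS k) (h : c.fs ≤ c') (x : (W.X c').V), act c' h 1 x = x
  act_d : ∀ (c' : FS k) (h : c.fs ≤ c') (r : RR k c) (x : (W.X c').V),
    (W.X c').dg.d (act c' h r x) = act c' h r ((W.X c').dg.d x)
  act_ρ : ∀ (c' d' : FS k) (h : c.fs ≤ c') (h' : c' ≤ d') (r : RR k c) (x : (W.X c').V),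
    (W.ρ h').f (act c' h r x) = act d' (h.trans h') r ((W.ρ h').f x)
  act_a : ∀ (c' : Ch k) (h : c ≤ c') (r : RR k c) (x : M.M c'),
    (W.a c').f (Loc_m M c' h r x) = act c'.fs (fs_mono h) r ((W.a c').f x)
  surj : ∀ (c' d' : FS k) (h : c.fs ≤ c') (h' : c' ≤ d') (g : LF k) (hg : g ∈ c.1) (l : LF k),
    d' ≤ (c'.ins l).fs → ∀ z : (W.X d').V, ∃ (n : ℕ) (y : (W.X c').V),
      (W.ρ h').f y = act d' (h.trans h') (quo l.1 hg ^ n) z
  inj : ∀ (c' d' : FS k) (h : c.fs ≤ c') (h' : c' ≤ d') (g : LF k) (hg : g ∈ c.1) (l : LF k),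
    d' ≤ (c'.ins l).fs → ∀ y : (W.X c').V, (W.ρ h').f y = 0 → ∃ n : ℕ,
      act c' h (quo l.1 hg ^ n) y = 0

private def Loc_G.nil (M : Shf k) (c : Ch k) : Loc_G M (WC.nil M.pc) c where
  act := fun _ _ _ => 0
  act_add := fun _ _ _ _ _ => rfl
  act_mul := fun _ _ _ _ _ => rfl
  act_one := fun _ _ _ => rfl
  act_d := fun _ _ _ _ => rfl
  act_ρ := fun _ _ _ _ _ _ => rfl
  act_a := fun _ _ _ _ => rfl
  surj := fun _ _ _ _ _ _ _ _ _ => ⟨0, 0, rfl⟩
  inj := fun _ _ _ _ _ _ _ _ _ _ => ⟨0, rfl⟩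

private theorem Loc_le {c : Ch k} {c' : FS k} (h : c.fs ≤ c') (l' : LF k) : c ≤ c'.ins l' :=
  h.trans (le_ins c' l')

private def Loc_act {M : Shf k} {W : WC M.pc} {c : Ch k} (G : Loc_G M W c) (l' : LF k)
    (c' : FS k) (h : c.fs ≤ c') (r : RR k c) :
    ((W.cons l').X c').V →ₗ[k] ((W.cons l').X c').V :=
  LinearMap.prodMap (LinearMap.prodMap (G.act c' h r)
    (Loc_m M (c'.ins l') (Loc_le h l') r))
    (G.act (c'.ins l').fs (h.trans (le_ins c' l')) r)

private theorem Loc_act_mk {M : Shf k} {W : WC M.pc} {c : Ch k} (G : Loc_G M W c) (l' : LF k)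
    (c' : FS k) (h : c.fs ≤ c') (r : RR k c) (x0 : (W.X c').V) (x1 : M.M (c'.ins l'))
    (ξ : (W.X (c'.ins l').fs).V) :
    Loc_act G l' c' h r (co.mk (W.ρ (le_ins c' l')) (W.a (c'.ins l')) x0 x1 ξ) =
      co.mk (W.ρ (le_ins c' l')) (W.a (c'.ins l')) (G.act c' h r x0)
        (Loc_m M (c'.ins l') (Loc_le h l') r x1)
        (G.act (c'.ins l').fs (h.trans (le_ins c' l')) r ξ) := rfl

private theorem Loc_cons_d {M : Shf k} {W : WC M.pc} {c : Ch k} (G : Loc_G M W c) (l' : LF k)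
    (c' : FS k) (h : c.fs ≤ c') (r : RR k c) (x : ((W.cons l').X c').V) :
    ((W.cons l').X c').dg.d (Loc_act G l' c' h r x) =
      Loc_act G l' c' h r (((W.cons l').X c').dg.d x) := by
  obtain ⟨⟨x0, x1⟩, ξ⟩ := x
  have e1 := co_d (r0 := W.ρ (le_ins c' l')) (r1 := W.a (c'.ins l')) x0 x1 ξ
  refine (co_d (r0 := W.ρ (le_ins c' l')) (r1 := W.a (c'.ins l')) (G.act c' h r x0)
    (Loc_m M (c'.ins l') (Loc_le h l') r x1)
    (G.act (c'.ins l').fs (h.trans (le_ins c' l')) r ξ)).trans ?_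
  refine Eq.trans ?_ (congrArg (Loc_act G l' c' h r) e1.symm)
  refine Prod.ext (Prod.ext (G.act_d _ _ _ _) ?_) ?_
  · exact (map_zero (Loc_m M (c'.ins l') (Loc_le h l') r)).symm
  · have e2 := G.act_d (c'.ins l').fs (h.trans (le_ins c' l')) r ξ
    have e3 := G.act_ρ c' (c'.ins l').fs h (le_ins c' l') r x0
    have e4 : (W.a (c'.ins l')).f (Loc_m M (c'.ins l') (Loc_le h l') r x1) =
        G.act (c'.ins l').fs (h.trans (le_ins c' l')) r ((W.a (c'.ins l')).f x1) :=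
      G.act_a (c'.ins l') (Loc_le h l') r x1
    have e5 : (W.a (c'.ins l')).f (Loc_m M (c'.ins l') (Loc_le h l') r x1) -
        (W.ρ (le_ins c' l')).f (G.act c' h r x0) -
        (W.X (c'.ins l').fs).dg.d (G.act (c'.ins l').fs (h.trans (le_ins c' l')) r ξ) =
        G.act (c'.ins l').fs (h.trans (le_ins c' l')) r ((W.a (c'.ins l')).f x1 -
          (W.ρ (le_ins c' l')).f x0 - (W.X (c'.ins l').fs).dg.d ξ) := by
      rw [e2, e3, e4, map_sub, map_sub]
    exact e5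

private theorem Loc_max {M : Shf k} {W : WC M.pc} {c : Ch k} (G : Loc_G M W c) {c' d' : FS k}
    (h : c.fs ≤ c') (h' : c' ≤ d') (r : RR k c) {n N : ℕ} (hN : n ≤ N) {z : (W.X d').V}
    (H : ∃ y : (W.X c').V, (W.ρ h').f y = G.act d' (h.trans h') (r ^ n) z) :
    ∃ y : (W.X c').V, (W.ρ h').f y = G.act d' (h.trans h') (r ^ N) z := by
  obtain ⟨y, hy⟩ := H
  obtain ⟨m, rfl⟩ := Nat.exists_eq_add_of_le' hN
  refine ⟨G.act c' h (r ^ m) y, ?_⟩
  rw [G.act_ρ, hy, ← G.act_mul, ← pow_add]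

private theorem Loc_max0 {M : Shf k} {W : WC M.pc} {c : Ch k} (G : Loc_G M W c) {c' : FS k}
    (h : c.fs ≤ c') (r : RR k c) {n N : ℕ} (hN : n ≤ N) {z : (W.X c').V}
    (H : G.act c' h (r ^ n) z = 0) : G.act c' h (r ^ N) z = 0 := by
  obtain ⟨m, rfl⟩ := Nat.exists_eq_add_of_le' hN
  rw [pow_add, G.act_mul, H, map_zero]

private theorem Loc_cons_ins {c' d' : FS k} {l l' : LF k} (hd : d' ≤ (c'.ins l).fs) :
    d'.ins l' ≤ (c'.ins l').fs.ins l :=
  Set.insert_subset (Set.mem_insert_of_mem _ (Set.mem_insert _ _))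
    (fun _ hx => (hd hx).elim (fun e => Or.inl e) (fun e => Or.inr (Or.inr e)))

private theorem Loc_cons_ins' {c' d' : FS k} {l l' : LF k} (hd : d' ≤ (c'.ins l).fs) :
    d'.ins l' ≤ Ch.ins (c'.ins l') l :=
  Set.insert_subset (Set.mem_insert_of_mem _ (Set.mem_insert _ _))
    (fun _ hx => (hd hx).elim (fun e => Or.inl e) (fun e => Or.inr (Or.inr e)))

private theorem Loc_cons_surj {M : Shf k} {W : WC M.pc} {c : Ch k} (G : Loc_G M W c)
    (l' : LF k) (c' d' : FS k) (h : c.fs ≤ c') (h' : c' ≤ d') (g : LF k) (hg : g ∈ c.1)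
    (l : LF k) (hd : d' ≤ (c'.ins l).fs) (z : ((W.cons l').X d').V) :
    ∃ (n : ℕ) (y : ((W.cons l').X c').V),
      ((W.cons l').ρ h').f y = Loc_act G l' d' (h.trans h') (quo l.1 hg ^ n) z := by
  obtain ⟨⟨z0, z1⟩, ζ⟩ := z
  obtain ⟨n0, H0⟩ := G.surj c' d' h h' g hg l hd z0
  obtain ⟨n1, H1⟩ := Loc_m_surj M (c'.ins l') (d'.ins l') (Loc_le h l') (ins_mono h' l') hg l
    (Loc_cons_ins' hd) z1
  obtain ⟨n2, H2⟩ := G.surj (c'.ins l').fs (d'.ins l').fs (h.trans (le_ins c' l'))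
    (fs_mono (ins_mono h' l')) g hg l (Loc_cons_ins hd) ζ
  set N := n0 + n1 + n2 with hN
  obtain ⟨y0, e0⟩ := Loc_max G h h' (quo l.1 hg) (N := N) (by omega) H0
  obtain ⟨y2, e2⟩ := Loc_max G (h.trans (le_ins c' l')) (fs_mono (ins_mono h' l'))
    (quo l.1 hg) (N := N) (by omega) H2
  obtain ⟨y1, e1⟩ := H1 N (by omega)
  exact ⟨N, co.mk (W.ρ (le_ins c' l')) (W.a (c'.ins l')) y0 y1 y2,
    Prod.ext (Prod.ext e0 e1) e2⟩

private theorem Loc_cons_inj {M : Shf k} {W : WC M.pc} {c : Ch k} (G : Loc_G M W c)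
    (l' : LF k) (c' d' : FS k) (h : c.fs ≤ c') (h' : c' ≤ d') (g : LF k) (hg : g ∈ c.1)
    (l : LF k) (hd : d' ≤ (c'.ins l).fs) (y : ((W.cons l').X c').V)
    (hy : ((W.cons l').ρ h').f y = 0) :
    ∃ n : ℕ, Loc_act G l' c' h (quo l.1 hg ^ n) y = 0 := by
  obtain ⟨⟨y0, y1⟩, υ⟩ := y
  have hy0 : (W.ρ h').f y0 = 0 := congrArg (fun z => z.1.1) hy
  have hy1 : M.res (ins_mono h' l') y1 = 0 := congrArg (fun z => z.1.2) hy
  have hy2 : (W.ρ (fs_mono (ins_mono h' l'))).f υ = 0 := congrArg (fun z => z.2) hy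
  obtain ⟨n0, H0⟩ := G.inj c' d' h h' g hg l hd y0 hy0
  obtain ⟨n1, H1⟩ := Loc_m_inj M (c'.ins l') (d'.ins l') (Loc_le h l') (ins_mono h' l') hg l
    (Loc_cons_ins' hd) y1 hy1
  obtain ⟨n2, H2⟩ := G.inj (c'.ins l').fs (d'.ins l').fs (h.trans (le_ins c' l'))
    (fs_mono (ins_mono h' l')) g hg l (Loc_cons_ins hd) υ hy2
  set N := n0 + n1 + n2 with hN
  have e0 := Loc_max0 G h (quo l.1 hg) (N := N) (by omega) H0
  have e2 := Loc_max0 G (h.trans (le_ins c' l')) (quo l.1 hg) (N := N) (by omega) H2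
  have e1 := H1 N (by omega)
  exact ⟨N, Prod.ext (Prod.ext e0 e1) e2⟩

private theorem Loc_cons_add {M : Shf k} {W : WC M.pc} {c : Ch k} (G : Loc_G M W c) (l' : LF k)
    (c' : FS k) (h : c.fs ≤ c') (r s : RR k c) (x : ((W.cons l').X c').V) :
    Loc_act G l' c' h (r + s) x = Loc_act G l' c' h r x + Loc_act G l' c' h s x := by
  obtain ⟨⟨x0, x1⟩, ξ⟩ := x
  exact Prod.ext (Prod.ext (G.act_add _ _ _ _ _) (Loc_m_add M _ _ _ _ _))
    (G.act_add _ _ _ _ _)

private theorem Loc_cons_mul {M : Shf k} {W : WC M.pc} {c : Ch k} (G : Loc_G M W c) (l' : LF k)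
    (c' : FS k) (h : c.fs ≤ c') (r s : RR k c) (x : ((W.cons l').X c').V) :
    Loc_act G l' c' h (r * s) x = Loc_act G l' c' h r (Loc_act G l' c' h s x) := by
  obtain ⟨⟨x0, x1⟩, ξ⟩ := x
  exact Prod.ext (Prod.ext (G.act_mul _ _ _ _ _) (Loc_m_mul M _ _ _ _ _))
    (G.act_mul _ _ _ _ _)

private theorem Loc_cons_one {M : Shf k} {W : WC M.pc} {c : Ch k} (G : Loc_G M W c) (l' : LF k)
    (c' : FS k) (h : c.fs ≤ c') (x : ((W.cons l').X c').V) :
    Loc_act G l' c' h 1 x = x := by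
  obtain ⟨⟨x0, x1⟩, ξ⟩ := x
  exact Prod.ext (Prod.ext (G.act_one _ _ _) (Loc_m_one M _ _ _)) (G.act_one _ _ _)

private theorem Loc_cons_ρ {M : Shf k} {W : WC M.pc} {c : Ch k} (G : Loc_G M W c) (l' : LF k)
    (c' d' : FS k) (h : c.fs ≤ c') (h' : c' ≤ d') (r : RR k c) (x : ((W.cons l').X c').V) :
    ((W.cons l').ρ h').f (Loc_act G l' c' h r x) =
      Loc_act G l' d' (h.trans h') r (((W.cons l').ρ h').f x) := by
  obtain ⟨⟨x0, x1⟩, ξ⟩ := x
  exact Prod.ext (Prod.ext (G.act_ρ _ _ _ _ _ _) (Loc_m_res M _ _ (Loc_le h l')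
    (ins_mono h' l') r x1)) (G.act_ρ _ _ _ _ _ _)

private theorem Loc_cons_a {M : Shf k} {W : WC M.pc} {c : Ch k} (G : Loc_G M W c) (l' : LF k)
    (c' : Ch k) (h : c ≤ c') (r : RR k c) (x : M.M c') :
    ((W.cons l').a c').f (Loc_m M c' h r x) =
      Loc_act G l' c'.fs (fs_mono h) r (((W.cons l').a c').f x) := by
  refine Prod.ext (Prod.ext (G.act_a _ _ _ _) (Loc_m_res M _ _ h (le_ins' c' l') r x)) ?_
  exact (map_zero (G.act (c'.fs.ins l').fs
      ((fs_mono h).trans (le_ins c'.fs l')) r)).symm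

private def Loc_G.cons {M : Shf k} {W : WC M.pc} {c : Ch k} (G : Loc_G M W c) (l' : LF k) :
    Loc_G M (W.cons l') c where
  act := Loc_act G l'
  act_add := Loc_cons_add G l'
  act_mul := Loc_cons_mul G l'
  act_one := Loc_cons_one G l'
  act_d := Loc_cons_d G l'
  act_ρ := Loc_cons_ρ G l'
  act_a := Loc_cons_a G l'
  surj := Loc_cons_surj G l'
  inj := Loc_cons_inj G l'

private def Loc_good (M : Shf k) (c : Ch k) : ∀ L : List (LF k), Loc_G M (cC M.pc L) c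
  | [] => Loc_G.nil M c
  | l' :: L => (Loc_good M c L).cons l'


/-- The Čech complex of a sheaf with respect to linear forms which generate the unit ideal of a
chart is quasi-isomorphic to the module of sections. -/
theorem aug_qi (M : Shf k) (L : List (LF k)) (c : Ch k) {g : LF k} (hg : g ∈ c.1)
    (hL : Ideal.span {r : RR k c | ∃ l ∈ L, r = quo l.1 hg} = ⊤) : ((cC M.pc L).a c).QI := by
  have G := Loc_good M c L
  have Q : ∀ l ∈ L, ((cC M.pc L).a (c.ins l)).QI := fun l hl => Loc_mem M.pc l L hl (c.ins l)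
    (Set.mem_insert l c.1)
  generalize cC M.pc L = W at G Q ⊢
  have top : ∀ I : Ideal (RR k c), (∀ l ∈ L, ∃ n : ℕ, quo l.1 hg ^ n ∈ I) → (1 : RR k c) ∈ I := by
    intro I hI
    have h1 : I.radical = ⊤ := by
      rw [eq_top_iff, ← hL, Ideal.span_le]
      rintro r ⟨l, hl, rfl⟩
      exact hI l hl
    rw [Ideal.radical_eq_top.1 h1]
    exact Submodule.mem_top
  have hcl : ∀ l : LF k, c ≤ c.ins l := fun l => Set.subset_insert l c.1
  have key : ∀ x : M.M c, (∀ l ∈ L, M.res (hcl l) x = 0) → x = 0 := by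
    intro x hx
    have h1 := top (LinearMap.ker (LinearMap.toSpanSingleton (RR k c) (M.M c) x))
      (fun l hl => M.inj (hcl l) hg l le_rfl x (hx l hl))
    have h2 : (1 : RR k c) • x = 0 := h1
    rwa [one_smul] at h2
  refine ⟨?_, ?_⟩
  · intro x _ hy
    obtain ⟨y, hy⟩ := hy
    refine ⟨0, ?_⟩
    have hx : x = 0 := key x fun l hl => by
      have e1 := W.a_ρ (hcl l) x
      rw [← hy, ← (W.ρ (fs_mono (hcl l))).d] at e1
      obtain ⟨z, hz⟩ := (Q l hl).1 ((M.pc.ρ (hcl l)).f x) rfl ⟨_, e1⟩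
      exact hz.symm
    rw [hx]
    exact map_zero _
  · intro y hy
    let I : Ideal (RR k c) :=
      { carrier := {s | ∃ (x : M.M c) (z : (W.X c.fs).V),
          G.act c.fs le_rfl s y = (W.a c).f x + (W.X c.fs).dg.d z}
        add_mem' := by
          rintro s s' ⟨x, z, e⟩ ⟨x', z', e'⟩
          refine ⟨x + x', z + z', ?_⟩
          have e2 : (W.a c).f (x + x') = (W.a c).f x + (W.a c).f x' := map_add _ _ _
          rw [G.act_add, e, e', e2, map_add]
          abel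
        zero_mem' := by
          refine ⟨0, 0, ?_⟩
          have e2 : (W.a c).f (0 : M.M c) = 0 := map_zero _
          have e3 := G.act_add c.fs le_rfl 0 0 y
          rw [add_zero] at e3
          rw [e2, map_zero, add_zero]
          exact left_eq_add.1 e3
        smul_mem' := by
          rintro s s' ⟨x, z, e⟩
          refine ⟨Loc_m M c le_rfl s x, G.act c.fs le_rfl s z, ?_⟩
          rw [smul_eq_mul, G.act_mul, e, map_add, G.act_a, G.act_d] }
    have h1 : (1 : RR k c) ∈ I := by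
      apply top I
      intro l hl
      have hd : (W.X (c.ins l).fs).dg.d ((W.ρ (fs_mono (hcl l))).f y) = 0 := by
        rw [(W.ρ (fs_mono (hcl l))).d, hy, map_zero]
      obtain ⟨x', z', hz'⟩ : ∃ (x' : M.M (c.ins l)) (z' : (W.X (c.ins l).fs).V),
          (W.X (c.ins l).fs).dg.d z' =
            (W.ρ (fs_mono (hcl l))).f y - (W.a (c.ins l)).f x' := by
        obtain ⟨x', _, z', hz'⟩ := (Q l hl).2 _ hd
        exact ⟨x', z', hz'⟩
      obtain ⟨n1, H1⟩ := Loc_m_surj M c (c.ins l) le_rfl (hcl l) hg l le_rfl x'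
      obtain ⟨n2, H2⟩ := G.surj c.fs (c.ins l).fs le_rfl (fs_mono (hcl l)) g hg l le_rfl z'
      obtain ⟨x1, e1⟩ := H1 (n1 + n2) (by omega)
      obtain ⟨z1, e2⟩ := Loc_max G le_rfl (fs_mono (hcl l)) (quo l.1 hg) (N := n1 + n2)
        (by omega) H2
      have e3 : (W.ρ (fs_mono (hcl l))).f (G.act c.fs le_rfl (quo l.1 hg ^ (n1 + n2)) y -
          (W.a c).f x1 - (W.X c.fs).dg.d z1) = 0 := by
        have e4 : (W.ρ (fs_mono (hcl l))).f ((W.a c).f x1) =
            (W.a (c.ins l)).f (M.res (hcl l) x1) := W.a_ρ (hcl l) x1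
        rw [map_sub, map_sub, G.act_ρ, e4, e1, ← (W.ρ (fs_mono (hcl l))).d, e2, G.act_a,
          G.act_d, hz', map_sub]
        abel
      obtain ⟨n3, e5⟩ := G.inj c.fs (c.ins l).fs le_rfl (fs_mono (hcl l)) g hg l le_rfl _ e3
      refine ⟨n3 + (n1 + n2), Loc_m M c le_rfl (quo l.1 hg ^ n3) x1,
        G.act c.fs le_rfl (quo l.1 hg ^ n3) z1, ?_⟩
      rw [map_sub, map_sub, sub_sub, sub_eq_zero] at e5
      rw [pow_add, G.act_mul, e5, G.act_a, G.act_d]
    obtain ⟨x, z, e⟩ := h1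
    rw [G.act_one] at e
    refine ⟨x, rfl, z, ?_⟩
    rw [e, add_sub_cancel_left]

end Pool.Agent.MP_6e5bed_ag_NS
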