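import Pool.Agent.Lib.MP_6e5bed_ag_NS.HBf
import Pool.Agent.Lib.MP_6e5bed_ag_NS.CupB
import Pool.Agent.Lib.MP_6e5bed_ag_NS.Loc

set_option autoImplicit false

/-!
# MP_6e5bed_ag, NC SURFACES: the class of a product of stable lattices
(section 5e)
-/

noncomputable section

namespace Pool.Agent.MP_6e5bed_ag_NS

open Pool.Agent.MP_6e5bed_ag_NC
open scoped TensorProduct

universe u

variable {k : Type u} [Field k]

/-- The Čech complex with respect to the coordinates computes the sections on charts. -/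
theorem aug_FF (M : Shf k) (c : Ch k) : ((cC M.pc (FF k)).a c).QI := by
  obtain ⟨g, hg⟩ := c.2.1
  exact aug_qi M (FF k) c hg (span_coord (FF k) (fun i => by
    fin_cases i
    · exact List.mem_cons_of_mem _ (List.mem_cons_of_mem _ List.mem_cons_self)
    · exact List.mem_cons_of_mem _ List.mem_cons_self
    · exact List.mem_cons_self) c hg)

/-- multiplication by `x_j` on the twists of a stable lattice -/
def gmul {A B : ASh k} (G : Gen A B) {N : Lat k G.E} (h : G.St N) {d d' : ℤ} (e : d + 1 = d')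
    (j : Fin 3) : BSH (G.sh (N.tw d) (Gen.st_tw h d)) (G.sh (N.tw d') (Gen.st_tw h d')) :=
  genH _ _ (LinearMap.lsmul (KK k) G.E (uu k j)) (fun _ _ hx => N.tw_mul e j hx)
    (fun c a x => (map_smul (G.l c a) (uu k j) x).symm)
    (fun c b x => (map_smul (G.r c b) (uu k j) x).symm)

/-- the twists `N(-2) → N(-1) → N(0)` of a stable lattice -/
def genT {A B : ASh k} (G : Gen A B) {N : Lat k G.E} (h : G.St N) : TPB A.pa B.pa where
  N0 := (G.sh (N.tw 0) (Gen.st_tw h 0)).pb
  N1 := (G.sh (N.tw (-1)) (Gen.st_tw h (-1))).pb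
  N2 := (G.sh (N.tw (-2)) (Gen.st_tw h (-2))).pb
  x1 := fun j => (gmul G h (by norm_num) j).pbh
  x2 := fun j => (gmul G h (by norm_num) j).pbh
  comm := fun i j _ x => Subtype.ext (smul_comm (uu k i) (uu k j) x.1)

/-- the multiplication -/
def genP {A B C D : ASh k} (G : Gen A B) (G' : Gen C D) {N : Lat k G.E} {N' : Lat k G'.E}
    (h : G.St N) (h' : G'.St N') : PP (genT G h).N0.pc (genT G' h').N0.pc
      ((G.tens G').sh (N.tens N') (Gen.st_tens h h')).pb.pc := latP N N'

theorem genP_l {A B C D : ASh k} (G : Gen A B) (G' : Gen C D) {N : Lat k G.E} {N' : Lat k G'.E}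
    (h : G.St N) (h' : G'.St N') (c : Ch k) (a : A.M c) (x : (N.tw 0).N c) (y : (N'.tw 0).N c) :
    ((genP G G' h h').p c).m (((genT G h).N0.M c).l a x) y =
      (((G.tens G').sh (N.tens N') (Gen.st_tens h h')).pb.M c).l a
        (((genP G G' h h').p c).m x y) := Subtype.ext rfl

theorem genP_r {A B C D : ASh k} (G : Gen A B) (G' : Gen C D) {N : Lat k G.E} {N' : Lat k G'.E}
    (h : G.St N) (h' : G'.St N') (c : Ch k) (a : D.M c) (x : (N.tw 0).N c) (y : (N'.tw 0).N c) :
    ((genP G G' h h').p c).m x (((genT G' h').N0.M c).r a y) =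
      (((G.tens G').sh (N.tens N') (Gen.st_tens h h')).pb.M c).r a
        (((genP G G' h h').p c).m x y) := Subtype.ext rfl

theorem gen_hb {A B C D : ASh k} (G : Gen A B) (G' : Gen C D) {N : Lat k G.E} {N' : Lat k G'.E}
    (h : G.St N) (h' : G'.St N') (hr : IsRefl N') :
    HBch (genT G h).tpc (genT G' h').tpc (genP G G' h h') (Set.range (xx k)) := hb_lat N N' hr

theorem FF_mem (l : LF k) (hl : l ∈ FF k) : l ∈ Set.range (xx k) := by
  simp only [FF, List.mem_cons, List.not_mem_nil, or_false] at hl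
  rcases hl with rfl | rfl | rfl
  · exact ⟨2, rfl⟩
  · exact ⟨1, rfl⟩
  · exact ⟨0, rfl⟩

theorem genT_fc {A B : ASh k} (G : Gen A B) {N : Lat k G.E} (h : G.St N)
    (hf : (CC N.sh).dg.FinCoh) : (cB (G.sh N h).pb (FF k) (FS.e k)).dg.FinCoh := hf

/-- `N` a stable lattice, `N'` a reflexive stable lattice: the class of the Čech bimodule of the
product lattice factors through good dg algebras. -/
theorem cup_lat {Good : DGA k → Prop} (hG : Good (base k)) {A : ASh k} (hT : Smooth (TT A))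
    {G G' : Gen A A} {N : Lat k G.E} {N' : Lat k G'.E} (h : G.St N) (h' : G'.St N')
    (hr : IsRefl N') (hf : ∀ d, (CC (N.tw d).sh).dg.FinCoh)
    (hf' : ∀ d, (CC (N'.tw d).sh).dg.FinCoh) :
    ∃ hh : HasRes (BB ((G.tens G').sh (N.tens N') (Gen.st_tens h h'))),
      rcls _ hh ∈ JS Good (TT A) :=
  cup_mem hG (FF k) hT (genT G h) (genT G' h')
    ((G.tens G').sh (N.tens N') (Gen.st_tens h h')).pb (genP G G' h h')
    (fun c a x y => genP_l G G' h h' c a x y) (fun c a x y => genP_r G G' h h' c a x y)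
    (gen_hb G G' h h' hr) FF_mem (fun c => aug_FF (N.tens N').sh c)
    (genT_fc G _ (hf 0)) (genT_fc G _ (hf (-1))) (genT_fc G _ (hf (-2)))
    (genT_fc G' _ (hf' 0)) (genT_fc G' _ (hf' (-1))) (genT_fc G' _ (hf' (-2)))

end Pool.Agent.MP_6e5bed_ag_NS
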