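import Pool.Agent.Lib.MP_6e5bed_ag_NS.Defs

set_option autoImplicit false

/-!
# MP_6e5bed_ag, NC SURFACES: the coordinate rings of the charts (section 2a)
-/

noncomputable section

namespace Pool.Agent.MP_6e5bed_ag_NS

universe u

variable {k : Type u} [Field k]

private theorem Lam_eq (ℓ : Fin 3 → k) : lam k ℓ = algebraMap (MvPolynomial (Fin 2) k) (KK k)
    (MvPolynomial.C (ℓ 0) + MvPolynomial.C (ℓ 1) * MvPolynomial.X 0 +
      MvPolynomial.C (ℓ 2) * MvPolynomial.X 1) := by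
  have h : ∀ (a : k) (q : MvPolynomial (Fin 2) k),
      a • algebraMap (MvPolynomial (Fin 2) k) (KK k) q =
      algebraMap (MvPolynomial (Fin 2) k) (KK k) (MvPolynomial.C a * q) := by
    intro a q
    rw [← MvPolynomial.smul_eq_C_mul]
    exact (map_smul (IsScalarTower.toAlgHom k (MvPolynomial (Fin 2) k) (KK k)) a q).symm
  unfold lam
  rw [Fin.sum_univ_three, map_add, map_add, ← h, ← h]
  have h0 : ℓ 0 • uu k 0 = algebraMap (MvPolynomial (Fin 2) k) (KK k) (MvPolynomial.C (ℓ 0)) := by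
    have h1 := h (ℓ 0) 1
    rw [map_one, mul_one] at h1
    exact h1
  rw [h0]
  rfl

private theorem Lam_xx (i : Fin 3) : lam k (xx k i).1 = uu k i := by
  unfold lam xx
  rw [Finset.sum_eq_single i]
  · change (Pi.single i 1 : Fin 3 → k) i • uu k i = uu k i
    rw [Pi.single_eq_same, one_smul]
  · intro j _ hj
    change (Pi.single i 1 : Fin 3 → k) j • uu k j = 0
    rw [Pi.single_eq_of_ne hj, zero_smul]
  · intro h
    exact absurd (Finset.mem_univ i) h

/-- `1, u, v` are linearly independent over `k` (monomials of polynomials). -/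
theorem lam_ne_zero (ℓ : LF k) : lam k ℓ.1 ≠ 0 := by
  intro h
  rw [Lam_eq] at h
  have h1 : MvPolynomial.C (ℓ.1 0) + MvPolynomial.C (ℓ.1 1) * MvPolynomial.X 0 +
      MvPolynomial.C (ℓ.1 2) * MvPolynomial.X 1 = (0 : MvPolynomial (Fin 2) k) := by
    apply IsFractionRing.injective (MvPolynomial (Fin 2) k) (KK k)
    rw [h, map_zero]
  have h2 : ∀ a b : k, ℓ.1 0 + ℓ.1 1 * a + ℓ.1 2 * b = 0 := by
    intro a b
    have h3 := congrArg (MvPolynomial.eval (![a, b] : Fin 2 → k)) h1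
    simpa using h3
  have e0 : ℓ.1 0 = 0 := by simpa using h2 0 0
  have e1 : ℓ.1 1 = 0 := by
    have := h2 1 0
    rw [e0] at this
    simpa using this
  have e2 : ℓ.1 2 = 0 := by
    have := h2 0 1
    rw [e0] at this
    simpa using this
  apply ℓ.2
  funext i
  fin_cases i
  · exact e0
  · exact e1
  · exact e2

theorem lam_mem {c : Ch k} (ℓ : Fin 3 → k) {g : LF k} (hg : g ∈ c.1) :
    lam k ℓ / lam k g.1 ∈ RR k c := Algebra.subset_adjoin ⟨ℓ, g, hg, rfl⟩

/-- `ℓ / ℓ'` and `ℓ' / ℓ` for `ℓ, ℓ' ∈ c` are inverse units. -/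
theorem quo_mul_quo {c : Ch k} {g g' : LF k} (hg : g ∈ c.1) (hg' : g' ∈ c.1) :
    quo g.1 hg' * quo g'.1 hg = 1 := by
  apply Subtype.ext
  change lam k g.1 / lam k g'.1 * (lam k g'.1 / lam k g.1) = 1
  have h1 := lam_ne_zero g
  have h2 := lam_ne_zero g'
  field_simp

/-- `∑ g_i (x_i / g) = 1`, so the quotients `x_i / g` generate the unit ideal. -/
theorem span_coord (L : List (LF k)) (hL : ∀ i, xx k i ∈ L) (c : Ch k) {g : LF k}
    (hg : g ∈ c.1) : Ideal.span {r : RR k c | ∃ l ∈ L, r = quo l.1 hg} = ⊤ := by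
  rw [Ideal.eq_top_iff_one]
  have h1 : (1 : RR k c) = ∑ i, algebraMap k (RR k c) (g.1 i) * quo (xx k i).1 hg := by
    apply Subtype.ext
    rw [AddSubmonoidClass.coe_finsetSum]
    have h2 : ∀ i, ((algebraMap k (RR k c) (g.1 i) * quo (xx k i).1 hg : RR k c) : KK k) =
        g.1 i • uu k i / lam k g.1 := by
      intro i
      change algebraMap k (KK k) (g.1 i) * (lam k (xx k i).1 / lam k g.1) = _
      rw [Lam_xx, Algebra.smul_def, mul_div_assoc]
    rw [Finset.sum_congr rfl fun i _ => h2 i, ← Finset.sum_div]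
    exact (div_self (lam_ne_zero g)).symm
  rw [h1]
  refine Ideal.sum_mem _ fun i _ => Ideal.mul_mem_left _ _ (Ideal.subset_span ?_)
  exact ⟨xx k i, hL i, rfl⟩

end Pool.Agent.MP_6e5bed_ag_NS
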