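import Pool.Agent.Lib.MP_6e5bed_ag_NS.Gen
import Pool.Agent.Lib.MP_6e5bed_ag_CV.LemA

set_option autoImplicit false

/-!
# MP_6e5bed_ag, NC SURFACES: simple bimodules with centre `K` (Lemma S)
-/

noncomputable section

namespace Pool.Agent.MP_6e5bed_ag_NS

open Pool.Agent.MP_6e5bed_ag_NC
open scoped TensorProduct

universe u

/-- A finite-dimensional algebra acting faithfully on an isotypic module is simple. -/
private theorem lemS_one (K : Type u) [Field K] (E : Type u) [AddCommGroup E] [Module K E]
    [FiniteDimensional K E] (hn : Nontrivial E) (T : Type u) [Ring T] [Algebra K T]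
    (Φ : T →ₐ[K] Module.End K E) (hinj : Function.Injective Φ) (C : Set (Module.End K E))
    (hC : ∀ q ∈ C, ∀ t, Φ t * q = q * Φ t)
    (hs : ∀ U : Submodule K E, (∀ t, ∀ x ∈ U, Φ t x ∈ U) → (∀ q ∈ C, ∀ x ∈ U, q x ∈ U) →
      U = ⊥ ∨ U = ⊤) : IsSimpleRing T := by
  let _ : Module T E := Module.compHom E (Φ : T →+* Module.End K E)
  have hsm : ∀ (t : T) (x : E), t • x = Φ t x := fun _ _ => rfl
  have : IsScalarTower K T E := ⟨fun s t x => by
    rw [hsm, hsm, map_smul]
    rfl⟩
  have : IsArtinian T E := isArtinian_of_tower K inferInstance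
  obtain ⟨S, hS⟩ := IsAtomic.exists_atom (Submodule T E)
  have : IsSimpleModule T S := isSimpleModule_iff_isAtom.2 hS
  have htop : isotypicComponent T E S = ⊤ := by
    have h1 := hs ((isotypicComponent T E S).restrictScalars K)
      (fun t x hx => (isotypicComponent T E S).smul_mem t hx) (fun q hq x hx => by
        let f : E →ₗ[T] E :=
          { toFun := q
            map_add' := map_add q
            map_smul' := fun t x => by
              rw [RingHom.id_apply, hsm, hsm]
              exact (LinearMap.congr_fun (hC q hq t) x).symm }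
        exact LinearMap.le_comap_isotypicComponent S f hx)
    rcases h1 with h | h
    · exfalso
      have h2 := (bot_lt_isotypicComponent (M := E) S).ne'
      apply h2
      rw [eq_bot_iff]
      intro x hx
      have h3 : x ∈ (isotypicComponent T E S).restrictScalars K := hx
      rw [h] at h3
      exact h3
    · rw [eq_top_iff]
      intro x _
      have h3 : x ∈ (isotypicComponent T E S).restrictScalars K := by
        rw [h]
        exact Submodule.mem_top
      exact h3
  have hiso : IsIsotypicOfType T E S := IsIsotypicOfType.of_isotypicComponent_eq_top htop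
  have : IsSemisimpleModule T E := by
    have e : E ≃ₗ[T] isotypicComponent T E S :=
      (Submodule.topEquiv (R := T) (M := E)).symm.trans (LinearEquiv.ofEq _ _ htop.symm)
    exact IsSemisimpleModule.congr e
  let b := Module.Basis.ofVectorSpace K E
  have : Finite (Module.Basis.ofVectorSpaceIndex K E) := Module.Finite.finite_basis b
  let g : T →ₗ[T] (Module.Basis.ofVectorSpaceIndex K E → E) :=
    { toFun := fun t i => Φ t (b i)
      map_add' := fun t t' => by
        funext i
        rw [map_add]
        rfl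
      map_smul' := fun t t' => by
        funext i
        rw [smul_eq_mul, map_mul]
        rfl }
  have hg : Function.Injective g := by
    rw [injective_iff_map_eq_zero]
    intro t ht
    have h1 : Φ t = 0 := by
      refine b.ext fun i => ?_
      have := congrFun ht i
      exact this
    exact (injective_iff_map_eq_zero Φ).1 hinj t h1
  have : IsSemisimpleRing T := IsSemisimpleModule.of_injective g hg
  have hself : IsIsotypicOfType T T S := by
    intro I hI
    have := hI
    have hI0 : I ≠ ⊥ := (isSimpleModule_iff_isAtom.1 hI).1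
    obtain ⟨a, ha, ha0⟩ := Submodule.exists_mem_ne_zero_of_ne_bot hI0
    have h1 : ∃ x : E, Φ a x ≠ 0 := by
      by_contra hcon
      push Not at hcon
      apply ha0
      apply (injective_iff_map_eq_zero Φ).1 hinj a
      exact LinearMap.ext hcon
    obtain ⟨x, hx⟩ := h1
    let f : I →ₗ[T] E := (LinearMap.toSpanSingleton T E x).comp I.subtype
    have hf0 : f ≠ 0 := by
      intro h0
      apply hx
      have := LinearMap.congr_fun h0 ⟨a, ha⟩
      exact this
    have hf := LinearMap.injective_of_ne_zero hf0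
    have e1 := LinearEquiv.ofInjective f hf
    have : IsSimpleModule T (LinearMap.range f) := IsSimpleModule.congr e1.symm
    exact ⟨e1.trans (hiso (LinearMap.range f)).some⟩
  have hnt : Nontrivial T := by
    by_contra hcon
    rw [not_nontrivial_iff_subsingleton] at hcon
    obtain ⟨x, hx⟩ := exists_ne (0 : E)
    apply hx
    have h1 : (1 : T) • x = (0 : T) • x := by rw [Subsingleton.elim (1 : T) 0]
    rwa [one_smul, zero_smul] at h1
  exact (isSimpleRing_isArtinianRing_iff.2 ⟨inferInstance, hself.isIsotypic, hnt⟩).1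

/-- Modules over a simple algebra. -/
private theorem lemS_pow (K : Type u) [Field K] (T : Type u) [Ring T] [Algebra K T]
    [FiniteDimensional K T] [IsSimpleRing T] (E W : Type u) [AddCommGroup E] [Module K E]
    [AddCommGroup W] [Module K W] [FiniteDimensional K W] (hn : Nontrivial E)
    (hW : Nontrivial W) (Φ : T →ₐ[K] Module.End K E) (Ψ : T →ₐ[K] Module.End K W)
    (hs : ∀ U : Submodule K E, (∀ t, ∀ x ∈ U, Φ t x ∈ U) → U = ⊥ ∨ U = ⊤) :
    ∃ (n : ℕ) (e : W ≃ₗ[K] (Fin n → E)), 0 < n ∧ ∀ t z i, e (Ψ t z) i = Φ t (e z i) := by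
  let _ : Module T E := Module.compHom E (Φ : T →+* Module.End K E)
  let _ : Module T W := Module.compHom W (Ψ : T →+* Module.End K W)
  have hsm : ∀ (t : T) (x : E), t • x = Φ t x := fun _ _ => rfl
  have hsm' : ∀ (t : T) (x : W), t • x = Ψ t x := fun _ _ => rfl
  have : IsScalarTower K T E := ⟨fun s t x => by
    rw [hsm, hsm, map_smul]
    rfl⟩
  have : IsScalarTower K T W := ⟨fun s t x => by
    rw [hsm', hsm', map_smul]
    rfl⟩
  have : IsArtinianRing T := isArtinian_of_tower K inferInstance
  have : Module.Finite T W := Module.Finite.of_restrictScalars_finite K T W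
  have : IsSimpleModule T E := by
    rw [isSimpleModule_iff]
    refine { exists_pair_ne := ⟨⊥, ⊤, bot_ne_top⟩, eq_bot_or_eq_top := fun U => ?_ }
    rcases hs (U.restrictScalars K) (fun t x hx => U.smul_mem t hx) with h | h
    · left
      rw [eq_bot_iff]
      intro x hx
      have h3 : x ∈ U.restrictScalars K := hx
      rw [h] at h3
      exact h3
    · right
      rw [eq_top_iff]
      intro x _
      have h3 : x ∈ U.restrictScalars K := by
        rw [h]
        exact Submodule.mem_top
      exact h3
  have hiso : IsIsotypicOfType T W E := by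
    intro m hm
    have := hm
    obtain ⟨I, ⟨e1⟩⟩ := IsSemisimpleRing.exists_linearEquiv_ideal_of_isSimpleModule T m
    obtain ⟨J, ⟨e2⟩⟩ := IsSemisimpleRing.exists_linearEquiv_ideal_of_isSimpleModule T E
    have : IsSimpleModule T I := IsSimpleModule.congr e1.symm
    have : IsSimpleModule T J := IsSimpleModule.congr e2.symm
    obtain ⟨e3⟩ := (IsSimpleRing.isIsotypic T T) J I
    exact ⟨e1.trans (e3.trans e2.symm)⟩
  obtain ⟨n, ⟨e⟩⟩ := hiso.linearEquiv_fun
  refine ⟨n, e.restrictScalars K, ?_, fun t z i => ?_⟩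
  · rcases Nat.eq_zero_or_pos n with h | h
    · subst h
      exact absurd e.toEquiv.subsingleton (not_subsingleton W)
    · exact h
  · have h1 := e.map_smul t z
    have h2 := congrFun h1 i
    exact h2

/-- Linear algebra over a field `K`: `E` finite-dimensional, `P`, `Q` commuting subalgebras of
`End_K E` (left and right multiplications), `E` simple over `Λ = P Q`, and the centre of `Λ` is `K`.
Then `E ⊗_K E` is a finite direct power of `E`. PROOF. `Λ` acts faithfully on a simple module, so it
is simple with centre `K`. `P` is semisimple (a nilpotent ideal `J` of `P` gives the nilpotent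
two-sided ideal `J Q` of `Λ`), its centre is contained in the centre of `Λ`; so `P` is central
simple, and so is `Q`. `P ⊗_K Q` is simple (`simple_tensor` of LemA), so `P ⊗_K Q → Λ` is an
isomorphism and `E ⊗_K E` (with `P` on the left factor and `Q` on the right factor) is a finitely
generated module over the simple artinian ring `P ⊗_K Q`, so it is isomorphic to `E ^ n`. -/
theorem powK (K : Type u) [Field K] (E : Type u) [AddCommGroup E] [Module K E]
    [FiniteDimensional K E] (P Q : Subalgebra K (Module.End K E))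
    (hc : ∀ p ∈ P, ∀ q ∈ Q, p * q = q * p) (hn : Nontrivial E)
    (hs : ∀ U : Submodule K E, (∀ p ∈ P, ∀ x ∈ U, p x ∈ U) → (∀ q ∈ Q, ∀ x ∈ U, q x ∈ U) →
      U = ⊥ ∨ U = ⊤)
    (hz : ∀ f ∈ P ⊔ Q, (∀ p ∈ P, f * p = p * f) → (∀ q ∈ Q, f * q = q * f) →
      ∃ s : K, f = s • 1) :
    ∃ (n : ℕ) (e : (E ⊗[K] E) ≃ₗ[K] (Fin n → E)), 0 < n ∧
      (∀ p ∈ P, ∀ z i, e (LinearMap.rTensor E p z) i = p (e z i)) ∧
      ∀ q ∈ Q, ∀ z i, e (LinearMap.lTensor E q z) i = q (e z i) := by
  have : IsSimpleRing P := by
    refine lemS_one K E hn P P.val Subtype.val_injective (Q : Set (Module.End K E)) ?_ ?_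
    · intro q hq t
      exact hc t.1 t.2 q hq
    · intro U h1 h2
      exact hs U (fun p hp x hx => h1 ⟨p, hp⟩ x hx) h2
  have : IsSimpleRing Q := by
    refine lemS_one K E hn Q Q.val Subtype.val_injective (P : Set (Module.End K E)) ?_ ?_
    · intro p hp t
      exact (hc p hp t.1 t.2).symm
    · intro U h1 h2
      exact hs U h2 (fun q hq x hx => h1 ⟨q, hq⟩ x hx)
  have hcen : Subalgebra.center K P = ⊥ := by
    rw [eq_bot_iff]
    intro z hzc
    rw [Subalgebra.mem_center_iff] at hzc
    obtain ⟨s, h1⟩ := hz z.1 (le_sup_left (a := P) (b := Q) z.2)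
      (fun p hp => (congrArg Subtype.val (hzc ⟨p, hp⟩)).symm) (fun q hq => hc z.1 z.2 q hq)
    rw [Algebra.mem_bot]
    refine ⟨s, Subtype.ext ?_⟩
    rw [h1, Algebra.algebraMap_eq_smul_one]
    rfl
  have : FiniteDimensional K P := FiniteDimensional.finiteDimensional_subalgebra P
  have : FiniteDimensional K Q := FiniteDimensional.finiteDimensional_subalgebra Q
  have : IsSimpleRing (P ⊗[K] Q) := simple_tensor K P Q hcen
  have hcm : ∀ (x : P) (y : Q), Commute (P.val x) (Q.val y) :=
    fun x y => hc x.1 x.2 y.1 y.2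
  let Φ : P ⊗[K] Q →ₐ[K] Module.End K E := Algebra.TensorProduct.lift P.val Q.val hcm
  have hΦ : ∀ (x : P) (y : Q), Φ (x ⊗ₜ[K] y) = x.1 * y.1 :=
    fun x y => Algebra.TensorProduct.lift_tmul P.val Q.val hcm x y
  let Ψ : P ⊗[K] Q →ₐ[K] Module.End K (E ⊗[K] E) :=
    (Module.endTensorEndAlgHom (R := K) (S := K) (A := K) (M := E) (N := E)).comp
      (Algebra.TensorProduct.map P.val Q.val)
  have hW : Nontrivial (E ⊗[K] E) := inferInstance
  obtain ⟨n, e, hn0, he⟩ := lemS_pow K (P ⊗[K] Q) E (E ⊗[K] E) hn hW Φ Ψ (fun U hU => by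
    refine hs U (fun p hp x hx => ?_) (fun q hq x hx => ?_)
    · have h1 := hU ((⟨p, hp⟩ : P) ⊗ₜ[K] (1 : Q)) x hx
      have h2 : Φ ((⟨p, hp⟩ : P) ⊗ₜ[K] (1 : Q)) = p := by
        rw [hΦ]
        exact mul_one p
      rwa [h2] at h1
    · have h1 := hU ((1 : P) ⊗ₜ[K] (⟨q, hq⟩ : Q)) x hx
      have h2 : Φ ((1 : P) ⊗ₜ[K] (⟨q, hq⟩ : Q)) = q := by
        rw [hΦ]
        exact one_mul q
      rwa [h2] at h1)
  refine ⟨n, e, hn0, fun p hp z i => ?_, fun q hq z i => ?_⟩
  · have h1 := he ((⟨p, hp⟩ : P) ⊗ₜ[K] (1 : Q)) z i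
    have h2 : Φ ((⟨p, hp⟩ : P) ⊗ₜ[K] (1 : Q)) = p := by
      rw [hΦ]
      exact mul_one p
    have h3 : Ψ ((⟨p, hp⟩ : P) ⊗ₜ[K] (1 : Q)) = LinearMap.rTensor E p := rfl
    rw [h2, h3] at h1
    exact h1
  · have h1 := he ((1 : P) ⊗ₜ[K] (⟨q, hq⟩ : Q)) z i
    have h2 : Φ ((1 : P) ⊗ₜ[K] (⟨q, hq⟩ : Q)) = q := by
      rw [hΦ]
      exact one_mul q
    have h3 : Ψ ((1 : P) ⊗ₜ[K] (⟨q, hq⟩ : Q)) = LinearMap.lTensor E q := rfl
    rw [h2, h3] at h1
    exact h1

variable {k : Type u} [Field k] {A B : ASh k}

/-- `G` has a filtration with `n` subquotients, all of them isomorphic to `G₀`. -/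
inductive Gen.Ser (G₀ : Gen A B) : Gen A B → ℕ → Prop
  | zero {G : Gen A B} : Subsingleton G.E → Gen.Ser G₀ G 0
  | step {G : Gen A B} {n : ℕ} (U : Submodule (KK k) G.E) (hU : G.Stab U) :
      Gen.Ser G₀ (G.sub U hU) n → Gen.Iso (G.quot U hU) G₀ → Gen.Ser G₀ G (n + 1)

/-- A bimodule isomorphic to a finite power of `G₀` has such a filtration. -/
theorem Gen.Ser.of_pow {G₀ G : Gen A B} (n : ℕ) (e : G.E ≃ₗ[KK k] (Fin n → G₀.E))
    (hl : ∀ c a z i, e (G.l c a z) i = G₀.l c a (e z i))
    (hr : ∀ c b z i, e (G.r c b z) i = G₀.r c b (e z i)) : Gen.Ser G₀ G n := by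
  induction n generalizing G with
  | zero => exact Gen.Ser.zero e.toEquiv.subsingleton
  | succ n ih =>
    let f : G.E →ₗ[KK k] G₀.E := (LinearMap.proj 0).comp e.toLinearMap
    have hf : ∀ x, f x = e x 0 := fun _ => rfl
    have hfs : Function.Surjective f := by
      intro y
      refine ⟨e.symm (fun _ => y), ?_⟩
      rw [hf, LinearEquiv.apply_symm_apply]
    have hU : G.Stab (LinearMap.ker f) := by
      refine ⟨fun c a x hx => ?_, fun c b x hx => ?_⟩
      · rw [LinearMap.mem_ker, hf] at hx ⊢
        rw [hl, hx, map_zero]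
      · rw [LinearMap.mem_ker, hf] at hx ⊢
        rw [hr, hx, map_zero]
    refine Gen.Ser.step (LinearMap.ker f) hU ?_ ?_
    · let e' : LinearMap.ker f ≃ₗ[KK k] (Fin n → G₀.E) :=
        { toFun := fun x i => e x.1 i.succ
          map_add' := fun x y => by
            funext i
            rw [Submodule.coe_add, map_add]
            rfl
          map_smul' := fun s x => by
            funext i
            rw [Submodule.coe_smul, map_smul]
            rfl
          invFun := fun v => ⟨e.symm (Fin.cons 0 v), by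
            rw [LinearMap.mem_ker, hf, LinearEquiv.apply_symm_apply]
            rfl⟩
          left_inv := fun x => by
            apply Subtype.ext
            have h1 : (Fin.cons 0 (fun i : Fin n => e x.1 i.succ) : Fin (n + 1) → G₀.E) =
                e x.1 := by
              funext i
              refine Fin.cases ?_ (fun i => ?_) i
              · have h2 := x.2
                rw [LinearMap.mem_ker, hf] at h2
                rw [h2]
                rfl
              · rfl
            show e.symm (Fin.cons 0 (fun i : Fin n => e x.1 i.succ)) = x.1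
            rw [h1, LinearEquiv.symm_apply_apply]
          right_inv := fun v => by
            funext i
            show e (e.symm (Fin.cons 0 v)) i.succ = v i
            rw [LinearEquiv.apply_symm_apply]
            rfl }
      refine ih (G := G.sub (LinearMap.ker f) hU) e' ?_ ?_
      · intro c a z i
        exact hl c a z.1 i.succ
      · intro c b z i
        exact hr c b z.1 i.succ
    · refine ⟨f.quotKerEquivOfSurjective hfs, fun c a x => ?_, fun c b x => ?_⟩
      · obtain ⟨y, rfl⟩ := (LinearMap.ker f).mkQ_surjective x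
        exact hl c a y 0
      · obtain ⟨y, rfl⟩ := (LinearMap.ker f).mkQ_surjective x
        exact hr c b y 0

/-- Lemma S for simple generic bimodules with centre `K`: `powK` with the subalgebras generated by
the left and by the right multiplications. -/
theorem Gen.ser_tens {G : Gen A B} (hs : G.Simple) (hc : G.Central) :
    ∃ n, 0 < n ∧ Gen.Ser G (G.tens G) n := by
  let P : Subalgebra (KK k) (Module.End (KK k) G.E) :=
    Algebra.adjoin (KK k) {f | ∃ c a, f = G.l c a}
  let Q : Subalgebra (KK k) (Module.End (KK k) G.E) :=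
    Algebra.adjoin (KK k) {f | ∃ c b, f = G.r c b}
  have hP : ∀ c a, (G.l c a : Module.End (KK k) G.E) ∈ P :=
    fun c a => Algebra.subset_adjoin ⟨c, a, rfl⟩
  have hQ : ∀ c b, (G.r c b : Module.End (KK k) G.E) ∈ Q :=
    fun c b => Algebra.subset_adjoin ⟨c, b, rfl⟩
  have hlr : ∀ c a c' b, (G.l c a : Module.End (KK k) G.E) * G.r c' b = G.r c' b * G.l c a := by
    intro c a c' b
    have h1 : c ≤ c.sup c' := fun x hx => Or.inl hx
    have h2 : c' ≤ c.sup c' := fun x hx => Or.inr hx
    refine LinearMap.ext fun x => ?_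
    show G.l c a (G.r c' b x) = G.r c' b (G.l c a x)
    rw [← G.res_l h1, ← G.res_l h1, ← G.res_r h2, ← G.res_r h2, G.l_r]
  have hcomm : ∀ p ∈ P, ∀ q ∈ Q, p * q = q * p := by
    intro p hp q hq
    induction hp using Algebra.adjoin_induction with
    | mem p hp =>
      obtain ⟨c, a, rfl⟩ := hp
      induction hq using Algebra.adjoin_induction with
      | mem q hq =>
        obtain ⟨c', b, rfl⟩ := hq
        exact hlr c a c' b
      | algebraMap s => exact (Algebra.commutes s _).symm
      | add x y _ _ hx hy => rw [mul_add, add_mul, hx, hy]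
      | mul x y _ _ hx hy => rw [← mul_assoc, hx, mul_assoc, hy, mul_assoc]
    | algebraMap s => exact Algebra.commutes s _
    | add x y _ _ hx hy => rw [mul_add, add_mul, hx, hy]
    | mul x y _ _ hx hy => rw [mul_assoc, hy, ← mul_assoc, hx, mul_assoc]
  have hLm : G.Lm = P ⊔ Q := Algebra.adjoin_union _ _
  obtain ⟨n, e, hn, h1, h2⟩ := powK (KK k) G.E P Q hcomm hs.1 (fun U hU1 hU2 => by
    exact hs.2 U ⟨fun c a x hx => hU1 _ (hP c a) x hx, fun c b x hx => hU2 _ (hQ c b) x hx⟩)
    (fun f hf hf1 hf2 => hc f (by rw [hLm]; exact hf) (fun c a => hf1 _ (hP c a))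
      (fun c b => hf2 _ (hQ c b)))
  refine ⟨n, hn, Gen.Ser.of_pow (G₀ := G) (G := G.tens G) n e ?_ ?_⟩
  · intro c a z i
    exact h1 _ (hP c a) z i
  · intro c b z i
    exact h2 _ (hQ c b) z i

end Pool.Agent.MP_6e5bed_ag_NS
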