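import Pool.Agent.Lib.MP_6e5bed_ag_NS.FinC
import Pool.Agent.Lib.MP_6e5bed_ag_NS.HBg
import Pool.Agent.Lib.MP_6e5bed_ag_NS.LemS

set_option autoImplicit false

/-!
# MP_6e5bed_ag, NC SURFACES: classes of generic bimodules, the main theorem (section 6)
-/

noncomputable section

namespace Pool.Agent.MP_6e5bed_ag_NS

open Pool.Agent.MP_6e5bed_ag_NC
open scoped TensorProduct

universe u

variable {k : Type u} [Field k] {A : ASh k}

/-- Exact sequences of sheaves of bimodules give exact sequences of Čech bimodules. -/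
theorem BSH.ses {A B : ASh k} {M' M M'' : BSh A B} {i : BSH M' M} {p : BSH M M''}
    (h : ShEx i.toShH p.toShH) : IsSes (BB M') (BB M) (BB M'') :=
  PBEx.ses (i := i.pbh) (p := p.pbh) h (FF k) (FS.e k)

/-- Isomorphic sheaves. -/
theorem BSH.bij {A B : ASh k} {M N : BSh A B} {i : BSH M N}
    (h : ∀ c, Function.Bijective (i.f c)) : QIso (i.pbh.gmap (FF k) (FS.e k)) :=
  ⟨i.pbh.gmap_dd (FF k) (FS.e k), CHom.QI.of_bij (f := (cH i.pbh.pch (FF k)).g (FS.e k))
    ⟨cH_inj i.pbh.pch (fun c => (h c).1) _ _, cH_surj i.pbh.pch (fun c => (h c).2) _ _⟩⟩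

/-- The classes of all coherent torsion bimodules are in `J`. -/
def TorsC (J : Submodule ℚ (K0Q (TT A) (TT A))) : Prop :=
  ∀ τ : BSh A A, τ.toShf.Coh → τ.toShf.Tors → ∃ h : HasRes (BB τ), rcls _ h ∈ J

/-- `c` is the class of `G` modulo `J`: of the Čech bimodules of all stable lattices; there is
one. -/
def IsC (J : Submodule ℚ (K0Q (TT A) (TT A))) (G : Gen A A) (c : K0Q (TT A) (TT A)) : Prop :=
  ∃ (N : Lat k G.E) (h : G.St N) (hr : HasRes (BB (G.sh N h))), rcls _ hr - c ∈ J

theorem isC_res [Infinite k] (hS : Smooth (TT A)) {G : Gen A A} {N : Lat k G.E} (h : G.St N) :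
    HasRes (BB (G.sh N h)) := HasRes.of_finCoh hS hS _ (genT_fc G h (fin_gen G N))

theorem isC_le {J : Submodule ℚ (K0Q (TT A) (TT A))} (hJ : TorsC J) {G : Gen A A}
    {N N' : Lat k G.E} (h : G.St N) (h' : G.St N') (hle : Lat.le N N')
    (hN : HasRes (BB (G.sh N h))) (hN' : HasRes (BB (G.sh N' h'))) :
    rcls _ hN' - rcls _ hN ∈ J := by
  obtain ⟨Q, i, p, hex, hc, ht⟩ := lat_quot h h' hle
  obtain ⟨hr, hm⟩ := hJ Q hc ht
  rw [(BSH.ses hex).rcls hN hN' hr, add_sub_cancel_left]
  exact hm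

/-- Stable lattices in the same bimodule have the same class modulo `J`. -/
theorem isC_two [Infinite k] (hS : Smooth (TT A)) {J : Submodule ℚ (K0Q (TT A) (TT A))}
    (hJ : TorsC J) {G : Gen A A} {N N' : Lat k G.E} (h : G.St N) (h' : G.St N')
    (hN : HasRes (BB (G.sh N h))) (hN' : HasRes (BB (G.sh N' h'))) :
    rcls _ hN - rcls _ hN' ∈ J := by
  obtain ⟨N'', h'', h1, h2⟩ := lat_inf h h'
  have hN'' := isC_res hS h''
  have h3 := J.sub_mem (isC_le hJ h'' h h1 hN'' hN) (isC_le hJ h'' h' h2 hN'' hN')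
  rwa [sub_sub_sub_cancel_right] at h3

theorem IsC.eq [Infinite k] (hS : Smooth (TT A)) {J : Submodule ℚ (K0Q (TT A) (TT A))}
    (hJ : TorsC J) {G : Gen A A} {c : K0Q (TT A) (TT A)} (hc : IsC J G c) {N : Lat k G.E}
    (h : G.St N) (hN : HasRes (BB (G.sh N h))) : rcls _ hN - c ∈ J := by
  obtain ⟨N', h', hN', hc'⟩ := hc
  have h3 := J.add_mem (isC_two hS hJ h h' hN hN') hc'
  rwa [sub_add_sub_cancel] at h3

theorem IsC.congr {J : Submodule ℚ (K0Q (TT A) (TT A))} {G : Gen A A}
    {c c' : K0Q (TT A) (TT A)} (hc : IsC J G c) (h : c - c' ∈ J) : IsC J G c' := by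
  obtain ⟨N, hs, hN, hm⟩ := hc
  refine ⟨N, hs, hN, ?_⟩
  have h3 := J.add_mem hm h
  rwa [sub_add_sub_cancel] at h3

theorem IsC.iso {J : Submodule ℚ (K0Q (TT A) (TT A))} {G G' : Gen A A}
    {c : K0Q (TT A) (TT A)} (hc : IsC J G c) (e : G.Iso G') : IsC J G' c := by
  obtain ⟨N, h, hN, hm⟩ := hc
  obtain ⟨N', h', i, hi⟩ := lat_iso e h
  have hq := BSH.bij hi
  have hN' : HasRes (BB (G'.sh N' h')) := hN.of_qiso _ hq
  refine ⟨N', h', hN', ?_⟩
  rwa [← rcls_qiso hN hN' _ hq]

theorem IsC.zero {J : Submodule ℚ (K0Q (TT A) (TT A))} {G : Gen A A} {N : Lat k G.E}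
    (h : G.St N) (hG : Subsingleton G.E) : IsC J G 0 := by
  have hs : Subsingleton ((cC (G.sh N h).pb.pc (FF k)).X (FS.e k)).V :=
    cC_sub (fun c => (inferInstance : Subsingleton (N.N c))) (FF k) (FS.e k)
  have ha : Acyc (BB (G.sh N h)) := fun x _ => ⟨x, Subsingleton.elim (α :=
    ((cC (G.sh N h).pb.pc (FF k)).X (FS.e k)).V) _ _⟩
  refine ⟨N, h, HasRes.of_acyc ha, ?_⟩
  rw [rcls_acyc ha, sub_zero]
  exact J.zero_mem

/-- The class is additive. -/
theorem IsC.add [Infinite k] (hS : Smooth (TT A)) {J : Submodule ℚ (K0Q (TT A) (TT A))}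
    (hJ : TorsC J) {G : Gen A A} {N : Lat k G.E} (h : G.St N) (U : Submodule (KK k) G.E)
    (hU : G.Stab U) {c c' : K0Q (TT A) (TT A)} (hc : IsC J (G.sub U hU) c)
    (hc' : IsC J (G.quot U hU) c') : IsC J G (c + c') := by
  obtain ⟨N', h', N'', h'', i, p, hex⟩ := lat_sub h U hU
  have r' := isC_res hS h'
  have r'' := isC_res hS h''
  have r := isC_res hS h
  refine ⟨N, h, r, ?_⟩
  rw [(BSH.ses hex).rcls r' r r'', add_sub_add_comm]
  exact J.add_mem (hc.eq hS hJ h' r') (hc'.eq hS hJ h'' r'')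

/-- The class of a bimodule with a filtration with `n` subquotients isomorphic to `G₀`. -/
theorem IsC.ser [Infinite k] (hS : Smooth (TT A)) {J : Submodule ℚ (K0Q (TT A) (TT A))}
    (hJ : TorsC J) {G₀ G : Gen A A} {n : ℕ} (h : Gen.Ser G₀ G n) {N : Lat k G.E}
    (hN : G.St N) {c : K0Q (TT A) (TT A)} (hc : IsC J G₀ c) : IsC J G ((n : ℚ) • c) := by
  induction h with
  | zero hG =>
    rw [Nat.cast_zero, zero_smul]
    exact IsC.zero hN hG
  | step U hU _ hi ih =>
    obtain ⟨N', h', N'', h'', -⟩ := lat_sub hN U hU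
    have h1 := ih h'
    have h2 : G₀.Iso (Gen.quot _ U hU) := by
      obtain ⟨f, fl, fr⟩ := hi
      refine ⟨f.symm, fun c a x => ?_, fun c b x => ?_⟩
      · rw [LinearEquiv.symm_apply_eq, fl, LinearEquiv.apply_symm_apply]
      · rw [LinearEquiv.symm_apply_eq, fr, LinearEquiv.apply_symm_apply]
    have h3 := IsC.add hS hJ hN U hU h1 (hc.iso h2)
    rw [Nat.cast_add, Nat.cast_one, add_smul, one_smul]
    exact h3

/-- The class of a simple generic bimodule with centre `K` is zero. -/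
theorem simple_zero [Infinite k] {Good : DGA k → Prop} (hG : Good (base k))
    (hS : Smooth (TT A)) (hJ : TorsC (JS Good (TT A))) {G : Gen A A} (hs : G.Simple)
    (hz : G.Central) {N : Lat k G.E} (hN : G.St N) : IsC (JS Good (TT A)) G 0 := by
  obtain ⟨N', hr, -, hφ⟩ := exists_refl N
  have hN' : G.St N' := ⟨fun c a x hx => hφ c (G.l c a) (fun y hy => hN.l c a y hy) x hx,
    fun c b x hx => hφ c (G.r c b) (fun y hy => hN.r c b y hy) x hx⟩
  obtain ⟨ht, hm⟩ := cup_lat hG hS hN' hN' hr (fun d => fin_gen G (N'.tw d))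
    (fun d => fin_gen G (N'.tw d))
  obtain ⟨n, hn, ser⟩ := Gen.ser_tens hs hz
  have res := isC_res hS hN
  have hc : IsC (JS Good (TT A)) G (rcls _ res) :=
    ⟨N, hN, res, by rw [sub_self]; exact Submodule.zero_mem _⟩
  have h2 := IsC.ser hS hJ ser (Gen.st_tens hN' hN') hc
  have h3 : (n : ℚ) • rcls _ res ∈ JS Good (TT A) := by
    have h4 := (JS Good (TT A)).sub_mem hm (h2.eq hS hJ (Gen.st_tens hN' hN') ht)
    rwa [sub_sub_cancel] at h4
  have h5 : rcls _ res ∈ JS Good (TT A) := by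
    have h6 := Submodule.smul_mem _ ((n : ℚ)⁻¹) h3
    rwa [inv_smul_smul₀ (Nat.cast_ne_zero.2 hn.ne')] at h6
  exact hc.congr (by rw [sub_zero]; exact h5)

/-- All generic bimodules with a stable lattice, if this holds for the simple ones. -/
theorem all_zero_of [Infinite k] (hS : Smooth (TT A)) {J : Submodule ℚ (K0Q (TT A) (TT A))}
    (hJ : TorsC J)
    (hz : ∀ G : Gen A A, G.Simple → ∀ N : Lat k G.E, G.St N → IsC J G 0) :
    ∀ (n : ℕ) (G : Gen A A), Module.finrank (KK k) G.E = n →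
      ∀ N : Lat k G.E, G.St N → IsC J G 0 := by
  intro n
  induction n using Nat.strong_induction_on with
  | _ n ih =>
    intro G hn N hN
    by_cases hs : G.Simple
    · exact hz G hs N hN
    by_cases h0 : Nontrivial G.E
    · obtain ⟨U, hU, hb, ht⟩ : ∃ U : Submodule (KK k) G.E, G.Stab U ∧ U ≠ ⊥ ∧ U ≠ ⊤ := by
        by_contra hcon
        push Not at hcon
        exact hs ⟨h0, fun U hU => by
          by_cases h1 : U = ⊥
          · exact Or.inl h1
          · exact Or.inr (hcon U hU h1)⟩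
      obtain ⟨N', h', N'', h'', -⟩ := lat_sub hN U hU
      have hsum := Submodule.finrank_quotient_add_finrank U
      have hlt : Module.finrank (KK k) U < n := hn ▸ Submodule.finrank_lt ht
      have hpos : 0 < Module.finrank (KK k) U := by
        have : Nontrivial U := (Submodule.nontrivial_iff_ne_bot).2 hb
        exact Module.finrank_pos
      have h1 := ih _ hlt (G.sub U hU) rfl N' h'
      have h2 := ih (Module.finrank (KK k) (G.E ⧸ U)) (by omega) (G.quot U hU) rfl N'' h''
      have h3 := IsC.add hS hJ hN U hU h1 h2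
      rwa [add_zero] at h3
    · exact IsC.zero hN (not_nontrivial_iff_subsingleton.1 h0)

/-- All generic bimodules with a stable lattice, if the simple ones have centre `K`. -/
theorem all_zero [Infinite k] {Good : DGA k → Prop} (hG : Good (base k))
    (hS : Smooth (TT A)) (hJ : TorsC (JS Good (TT A)))
    (hz : ∀ G : Gen A A, G.Simple → G.Central) : ∀ (n : ℕ) (G : Gen A A),
      Module.finrank (KK k) G.E = n → ∀ N : Lat k G.E, G.St N → IsC (JS Good (TT A)) G 0 :=
  all_zero_of hS hJ fun G hs _ hN => simple_zero hG hS hJ hs (hz G hs) hN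

/-- The class of a coherent bimodule, if the classes of the simple generic bimodules are zero. -/
theorem coh_zero_of [Infinite k] (hS : Smooth (TT A)) {J : Submodule ℚ (K0Q (TT A) (TT A))}
    (hJ : TorsC J)
    (hz : ∀ G : Gen A A, G.Simple → ∀ N : Lat k G.E, G.St N → IsC J G 0)
    (M : BSh A A) (hM : M.toShf.Coh) : ∃ h : HasRes (BB M), rcls _ h ∈ J := by
  obtain ⟨τ, G, N, h, i, p, hex, hc, ht⟩ := exists_dec M hM
  obtain ⟨hr, hm⟩ := hJ τ hc ht
  have hN := isC_res hS h
  have hm' : rcls _ hN ∈ J := by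
    have := (all_zero_of hS hJ hz _ G rfl N h).eq hS hJ h hN
    rwa [sub_zero] at this
  have hs := BSH.ses hex
  have hr' : HasRes (BB M) := hs.mid hr hN
  refine ⟨hr', ?_⟩
  rw [hs.rcls hr hr' hN]
  exact J.add_mem hm hm'

/-- The class of a coherent bimodule. -/
theorem coh_zero [Infinite k] {Good : DGA k → Prop} (hG : Good (base k))
    (hS : Smooth (TT A)) (hJ : TorsC (JS Good (TT A)))
    (hz : ∀ G : Gen A A, G.Simple → G.Central) (M : BSh A A) (hM : M.toShf.Coh) :
    ∃ h : HasRes (BB M), rcls _ h ∈ JS Good (TT A) :=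
  coh_zero_of hS hJ (fun G hs _ hN => simple_zero hG hS hJ hs (hz G hs) hN) M hM

/-- The main theorem with the hypothesis that the classes of the simple generic bimodules are
zero. -/
theorem one_mem_of [IsAlgClosed k] {Good : DGA k → Prop} (hG : Good (base k))
    (hW : ∀ W, IsCurve W → Smooth W ∧ Good W) (A : ASh k) (hA : A.toShf.Coh)
    (hS : Smooth (TT A)) (hz : ∀ G : Gen A A, G.Simple → ∀ N : Lat k G.E, G.St N →
      IsC (JS Good (TT A)) G 0) : K0Q.one hS ∈ JS Good (TT A) := by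
  have hp := proper_TT A hA
  have hJ : TorsC (JS Good (TT A)) := fun τ hc ht => tors_mem hG hW hS hp τ hc ht
  exact one_of_diag hS hp (coh_zero_of hS hJ hz A.diag hA)

/-- THE MAIN THEOREM. `k` algebraically closed, `A` a coherent sheaf of algebras on the projective
plane such that the dg algebra `RΓ(P², A)` is smooth and the simple bimodules over the generic
point have centre `K`: the identity of `RΓ(P², A)` factors through `k` and the dg algebras of
curves. -/
theorem one_mem_surf [IsAlgClosed k] {Good : DGA k → Prop} (hG : Good (base k))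
    (hW : ∀ W, IsCurve W → Smooth W ∧ Good W) (A : ASh k) (hA : A.toShf.Coh)
    (hS : Smooth (TT A)) (hz : ∀ G : Gen A A, G.Simple → G.Central) :
    K0Q.one hS ∈ JS Good (TT A) := by
  have hJ : TorsC (JS Good (TT A)) := fun τ hc ht =>
    tors_mem hG hW hS (proper_TT A hA) τ hc ht
  exact one_mem_of hG hW A hA hS fun G hs _ hN => simple_zero hG hS hJ hs (hz G hs) hN

end Pool.Agent.MP_6e5bed_ag_NS
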