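import Pool.Agent.Lib.MP_6e5bed_ag_NS.Cmp

set_option autoImplicit false

/-!
# MP_6e5bed_ag, NC SURFACES: the charts of two linear forms
-/

noncomputable section

namespace Pool.Agent.MP_6e5bed_ag_NS

universe u

variable {k : Type u} [Field k]

/-- multiplication with a function -/
def mulq (M : Shf k) (c : Ch k) (r : RR k c) : M.M c →ₗ[k] M.M c where
  toFun := fun m => r • m
  map_add' := fun m m' => smul_add r m m'
  map_smul' := fun s m => by
    rw [RingHom.id_apply]
    exact smul_comm r s m

theorem g_mem (g : LF k) : g ∈ (c1 g).1 := Set.mem_insert g ∅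

theorem g_mem2 (g h : LF k) : g ∈ (c2 g h).1 := Set.mem_insert g _

theorem h_mem2 (g h : LF k) : h ∈ (c2 g h).1 := Set.mem_insert_of_mem g (Set.mem_insert h ∅)

end Pool.Agent.MP_6e5bed_ag_NS
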