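import Pool.Agent.Lib.MP_6e5bed_ag_CV.MStepA
import Pool.Agent.Lib.MP_6e5bed_ag_CV.CornerB
import Pool.Agent.Lib.MP_6e5bed_ag_CV.LemC
import Pool.Agent.Lib.MP_6e5bed_ag_CV.BSpan
import Pool.Agent.Lib.MP_6e5bed_ag_CV.CohDec
import Pool.Agent.Lib.MP_6e5bed_ag_NS.RMStepA

set_option autoImplicit false
set_option linter.unusedSectionVars false

/-!
# The classes of lattice pairs factor through curves, relative version
(MP_6e5bed_ag, NC SURFACES)
-/

namespace Pool.Agent.MP_6e5bed_ag_NS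

open Pool.Agent.MP_6e5bed_ag_NC
open RatFunc LP
open scoped TensorProduct

universe u

variable {k : Type u} [Field k]

/-- The class of a simple bimodule is zero modulo classes which factor through `k` or a curve
(relative to a dg map `α : C → A.cech`, `C` smooth). -/
theorem rmain_simple [IsAlgClosed k] {Good : DGA k → Prop} (hG : Good (base k))
    (hW : ∀ W, IsCurve W → Smooth W ∧ Good W) {C : DGA k} (hC : Smooth C) {A : Cosp k}
    (α : DHom C A.cech) {G : GBi k A.A01 A.A01} (hG' : G.Simple) {N : LP k G.E}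
    (hN : Stable G N) : IsG α α (JS Good C) G 0 := by
  have hJ : TorsIn α α (JS Good C) := torsIn_JS hG hC α α
  obtain ⟨D, E, l, r, h, n, iso, hn, ser⟩ := G.lemmaS hG'
  obtain ⟨N₁, h₁, -⟩ := exists_iso iso hN
  have hl₁ : l.St (S := A) N₁ := ⟨h₁.l0, h₁.l1, h₁.l01⟩
  have hr₁ : r.St (S := A) N₁ := ⟨h₁.r0, h₁.r1, h₁.r01⟩
  obtain ⟨N', hB, hl', hr'⟩ := exists_bstable hl₁ hr₁
  obtain ⟨φ, hφ⟩ := exists_phi hl'
  obtain ⟨hs, hg⟩ := hW (endCosp N'.plus).cech ⟨D, E, N', hB, rfl⟩
  have h0 : IsG α α (JS Good C) (tensG l r) 0 :=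
    (rcls_corner hC α hr' hs hg φ).iso (corner_iso φ hφ)
  have res : HasRes (res α α (tri hN).bim) := hasRes_tri hC hC hN
  have hc : IsG α α (JS Good C) G (rcls _ res) :=
    ⟨N, hN, res, by rw [sub_self]; exact Submodule.zero_mem _⟩
  have h2 := IsG.ser hJ hC hC ser (stable_tens hl' hr') hc
  have h3 : (n : ℚ) • rcls _ res - 0 ∈ JS Good C := by
    obtain ⟨N₂, h₂, hN₂, hm⟩ := h2
    have h5 := (JS Good C).sub_mem (h0.eq hJ h₂ hN₂) hm
    rwa [sub_sub_sub_cancel_left] at h5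
  rw [sub_zero] at h3
  have h4 : rcls _ res ∈ JS Good C := by
    have h5 := Submodule.smul_mem _ ((n : ℚ)⁻¹) h3
    rwa [inv_smul_smul₀ (Nat.cast_ne_zero.2 hn.ne')] at h5
  exact hc.congr (by rw [sub_zero]; exact h4)

/-- The class of any bimodule with a stable lattice pair. -/
theorem rmain_all [IsAlgClosed k] {Good : DGA k → Prop} (hG : Good (base k))
    (hW : ∀ W, IsCurve W → Smooth W ∧ Good W) {C : DGA k} (hC : Smooth C) {A : Cosp k}
    (α : DHom C A.cech) (G : GBi k A.A01 A.A01) {N : LP k G.E} (hN : Stable G N) :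
    IsG α α (JS Good C) G 0 := by
  have hJ : TorsIn α α (JS Good C) := torsIn_JS hG hC α α
  have key : ∀ N : LP k G.E, Stable G N → IsG α α (JS Good C) G 0 := by
    refine GBi.ind (P := fun G => ∀ N : LP k G.E, Stable G N → IsG α α (JS Good C) G 0)
      ?_ ?_ ?_ G
    · intro G h _ _
      exact IsG.zero h
    · intro G h N hN
      exact rmain_simple hG hW hC α h hN
    · intro G U hU h1 h2 N hN
      obtain ⟨N', h', N'', h'', -⟩ := ses_sub hN U hU
      have h3 := IsG.add hJ hC hC U hU hN (h1 N' h') (h2 N'' h'')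
      rwa [add_zero] at h3
  exact key N hN

/-- The class of a coherent bimodule on a line, restricted along a dg map from a smooth dg
algebra. -/
theorem rcoh_mem [IsAlgClosed k] {Good : DGA k → Prop} (hG : Good (base k))
    (hW : ∀ W, IsCurve W → Smooth W ∧ Good W) {C : DGA k} (hC : Smooth C) {A : Cosp k}
    (α : DHom C A.cech) {M : Tri A A} {t0 : M.M0.M →ₗ[k] M.M0.M}
    {s1 : M.M1.M →ₗ[k] M.M1.M} {t01 s01 : M.M01.M →ₗ[k] M.M01.M} (h : IsCohTri M t0 s1 t01 s01) :
    ∃ h : HasRes (res α α M.bim), rcls _ h ∈ JS Good C := by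
  have hJ : TorsIn α α (JS Good C) := torsIn_JS hG hC α α
  obtain ⟨τ, G, N, hN, hτ, hses0⟩ := exists_dec h
  have hses := hses0.res α α
  obtain ⟨hr, hm⟩ := hJ τ hτ
  have hN' : HasRes (res α α (LP.tri hN).bim) := hasRes_tri hC hC hN
  have hm' : rcls _ hN' ∈ JS Good C := by
    have := (rmain_all hG hW hC α G hN).eq hJ hN hN'
    rwa [sub_zero] at this
  have hM : HasRes (res α α M.bim) := hses.mid hr hN'
  refine ⟨hM, ?_⟩
  rw [hses.rcls hr hM hN']
  exact (JS Good C).add_mem hm hm'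

end Pool.Agent.MP_6e5bed_ag_NS
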