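import Pool.Agent.Lib.MP_6e5bed_ag_CV.JSpan
import Pool.Agent.Lib.MP_6e5bed_ag_CV.Ses

set_option autoImplicit false

/-!
# MP_6e5bed_ag, NC SURFACES: classes and resolutions of length two (section 5e)
-/

noncomputable section

namespace Pool.Agent.MP_6e5bed_ag_NS

open Pool.Agent.MP_6e5bed_ag_NC

universe u

variable {k : Type u} [Field k] {A B : DGA k}

private theorem r3_shift (M : Bim A B) (h : HasRes M) :
    ∃ h' : HasRes (M.shift 1), rcls _ h' = - rcls M h := by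
  have h0 : Acyc (cone (GMap.id M) (LinearMap.ext GMap.dd_id)) := (contr_cone_id M).acyc
  have h1 := HasRes.of_acyc h0
  have h2 := (isCone_cone (GMap.id M) (LinearMap.ext GMap.dd_id)).isExt.isSes
  have h3 := h2.right h h1
  refine ⟨h3, ?_⟩
  have h4 := h2.rcls h h1 h3
  rw [rcls_acyc h0 h1] at h4
  exact (neg_eq_of_add_eq_zero_right h4.symm).symm

private theorem r3_cone {M N : Bim A B} (f : GMap 0 M N) (hf : f.dd = 0) (hM : HasRes M)
    (hN : HasRes N) : ∃ h : HasRes (cone f hf), rcls _ h = rcls N hN - rcls M hM := by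
  obtain ⟨h1, h2⟩ := r3_shift M hM
  have h3 := (isCone_cone f hf).isExt.isSes
  have h4 := h3.mid hN h1
  refine ⟨h4, ?_⟩
  rw [h3.rcls hN h4 h1, h2, sub_eq_add_neg]

section pairs

variable {M N : Bim A B} {φ : GMap 0 M N} {h : φ.dd = 0}

private def r3P (φ : GMap 0 M N) (h : φ.dd = 0) (x : M.M) (y : N.M) : (cone φ h).M :=
  ((x, y) : M.M × N.M)

private theorem r3P_ex (c : (cone φ h).M) : ∃ x y, c = r3P φ h x y := by
  change M.M × N.M at c
  obtain ⟨x, y⟩ := c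
  exact ⟨x, y, rfl⟩

private theorem r3P_inj {x x' : M.M} {y y' : N.M} (e : r3P φ h x y = r3P φ h x' y') :
    x = x' ∧ y = y' := by
  have e1 : ((x, y) : M.M × N.M) = (x', y') := e
  exact ⟨congrArg Prod.fst e1, congrArg Prod.snd e1⟩

private theorem r3P_zero : r3P φ h 0 0 = 0 := rfl

private theorem r3P_neg (x : M.M) (y : N.M) : - r3P φ h x y = r3P φ h (-x) (-y) := rfl

private theorem r3P_d (x : M.M) (y : N.M) :
    (cone φ h).dg.d (r3P φ h x y) = r3P φ h (- M.dg.d x) (φ.f x + N.dg.d y) := cone_d x y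

private theorem r3P_l (a : A.A) (x : M.M) (y : N.M) :
    (cone φ h).l a (r3P φ h x y) = r3P φ h (M.l (A.dg.sp 1 a) x) (N.l a y) := rfl

private theorem r3P_r (b : B.A) (x : M.M) (y : N.M) :
    (cone φ h).r b (r3P φ h x y) = r3P φ h (M.r b x) (N.r b y) := rfl

private theorem r3P_deg {i : ℤ} {x : M.M} {y : N.M} :
    (cone φ h).dg.IsDeg i (r3P φ h x y) ↔ M.dg.IsDeg (i + 1) x ∧ N.dg.IsDeg i y := cone_deg

end pairs

/-- The map of the cone of `f` to `P` given by `g` with `g f = 0`. -/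
private theorem r3_map {M N P : Bim A B} (f : GMap 0 M N) (hf : f.dd = 0) (g : GMap 0 N P)
    (hg : g.dd = 0) (hgf : ∀ x, g.f (f.f x) = 0) :
    ∃ q : GMap 0 (cone f hf) P, q.dd = 0 ∧ ∀ x y, q.f (r3P f hf x y) = g.f y := by
  obtain ⟨q, hq⟩ : ∃ q : GMap 0 (cone f hf) P, ∀ x y, q.f (r3P f hf x y) = g.f y := by
    refine ⟨⟨g.f ∘ₗ LinearMap.snd k M.M N.M, fun {j c} hc => ?_, fun a c => ?_,
      fun b c => ?_⟩, fun x y => rfl⟩
    · obtain ⟨x, y, rfl⟩ := r3P_ex c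
      exact g.deg (r3P_deg.1 hc).2
    · obtain ⟨x, y, rfl⟩ := r3P_ex c
      exact g.map_l a y
    · obtain ⟨x, y, rfl⟩ := r3P_ex c
      exact g.map_r b y
  refine ⟨q, ?_, hq⟩
  refine LinearMap.ext (fun c => ?_)
  obtain ⟨x, y, rfl⟩ := r3P_ex c
  rw [GMap.dd_apply, sg_zero, one_smul, LinearMap.zero_apply, r3P_d, hq, hq, map_add, hgf,
    zero_add, GMap.d_f_zero hg, sub_self]

/-- If `0 → K2 → K1 → K0` is exact and the induced map from `K0` modulo the image of `K1` to `Z`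
is a quasi-isomorphism, then the class of `Z` is the alternating sum.
PROOF. Let `I` be the image of `g1` (a sub-bimodule, `≅ K1/K2`) and `K0/I` the quotient bimodule
(grading and differential are induced). `0 → K2 → K1 → I → 0` and `0 → I → K0 → K0/I → 0` are exact,
`K0/I → Z` is a quasi-isomorphism. Use `IsSes.right`, `IsSes.rcls`, `HasRes.of_qiso`,
`rcls_qiso`. -/
theorem rcls_res3 {K2 K1 K0 Z : Bim A B} (g2 : GMap 0 K2 K1) (g1 : GMap 0 K1 K0)
    (g0 : GMap 0 K0 Z) (d2 : g2.dd = 0) (d1 : g1.dd = 0) (d0 : g0.dd = 0)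
    (h2 : Function.Injective g2.f) (h1 : ∀ x, g1.f x = 0 ↔ ∃ y, g2.f y = x)
    (h0 : ∀ x, g0.f (g1.f x) = 0)
    (hs : ∀ z, Z.dg.d z = 0 → ∃ t w, K0.dg.d t = g1.f w ∧ ∃ e, Z.dg.d e = z - g0.f t)
    (hi : ∀ t w z, K0.dg.d t = g1.f w → Z.dg.d z = g0.f t →
      ∃ y v, t - K0.dg.d y = g1.f v)
    (r2 : HasRes K2) (r1 : HasRes K1) (r0 : HasRes K0) :
    ∃ h : HasRes Z, rcls Z h = rcls K0 r0 - rcls K1 r1 + rcls K2 r2 := by
  have e2 : ∀ x, K1.dg.d (g2.f x) = g2.f (K2.dg.d x) := fun x => GMap.d_f_zero d2 x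
  have e1 : ∀ x, K0.dg.d (g1.f x) = g1.f (K1.dg.d x) := fun x => GMap.d_f_zero d1 x
  have e0 : ∀ x, Z.dg.d (g0.f x) = g0.f (K0.dg.d x) := fun x => GMap.d_f_zero d0 x
  obtain ⟨q, hq, hq'⟩ := r3_map g2 d2 g1 d1 (fun x => (h1 _).2 ⟨x, rfl⟩)
  obtain ⟨p, hp, hp'⟩ := r3_map q hq g0 d0 (fun c => by
    obtain ⟨x, y, rfl⟩ := r3P_ex c
    rw [hq', h0])
  obtain ⟨ha, ha'⟩ := r3_cone g2 d2 r2 r1
  obtain ⟨hb, hb'⟩ := r3_cone q hq ha r0
  have hqi : QIso p := by
    refine ⟨hp, ?_, ?_⟩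
    · rintro c hc ⟨z, hz⟩
      obtain ⟨c1, t, rfl⟩ := r3P_ex c
      obtain ⟨x, y, rfl⟩ := r3P_ex c1
      rw [r3P_d, r3P_d, hq', r3P_neg, ← r3P_zero] at hc
      obtain ⟨f1, f2⟩ := r3P_inj hc
      rw [← r3P_zero] at f1
      obtain ⟨f3, f4⟩ := r3P_inj f1
      rw [neg_neg] at f3
      rw [neg_eq_zero] at f4
      rw [hp'] at hz
      have f5 : K0.dg.d t = g1.f (-y) := by
        rw [map_neg]
        exact (neg_eq_of_add_eq_zero_right f2).symm
      obtain ⟨y0, v, hv⟩ := hi t (-y) z f5 hz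
      obtain ⟨x', hx'⟩ := (h1 (-(y + K1.dg.d v))).1 (by
        rw [map_neg, map_add, ← e1, ← hv, map_sub, K0.dg.d_d, sub_zero, f2, neg_zero])
      have f6 : K2.dg.d x' = x := by
        apply h2
        rw [← e2, hx', map_neg, map_add, K1.dg.d_d, add_zero]
        exact (neg_eq_of_add_eq_zero_left f4)
      refine ⟨r3P q hq (r3P g2 d2 x' v) y0, ?_⟩
      rw [r3P_d, r3P_d, hq', r3P_neg, neg_neg, f6, hx', ← hv, sub_add_cancel]
      congr 2
      abel
    · intro z hz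
      obtain ⟨t, w, htw, e, he⟩ := hs z hz
      obtain ⟨x, hx⟩ := (h1 (K1.dg.d w)).1 (by rw [← e1, ← htw, K0.dg.d_d])
      have f1 : K2.dg.d x = 0 := by
        apply h2
        rw [← e2, hx, K1.dg.d_d, map_zero]
      refine ⟨r3P q hq (r3P g2 d2 x (-w)) t, ?_, e, ?_⟩
      · rw [r3P_d, r3P_d, hq', f1, hx, map_neg, map_neg, htw, neg_zero, add_neg_cancel,
          neg_add_cancel, r3P_zero, neg_zero, r3P_zero]
      · rw [hp', he]
  refine ⟨hb.of_qiso p hqi, ?_⟩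
  rw [← rcls_qiso hb (hb.of_qiso p hqi) p hqi, hb', ha']
  abel

private theorem bs_deg {M N : Bim A B} {i : ℤ} {x : M.M} {y : N.M} :
    (M.dg.prod N.dg 0 (fun v => by simp) (fun _ => Dg.IsDeg.zero _)).IsDeg i (x, y) ↔
      M.dg.IsDeg i x ∧ N.dg.IsDeg i y := Dg.prod_deg

private theorem bs_d {M N : Bim A B} (x : M.M) (y : N.M) :
    (M.dg.prod N.dg 0 (fun v => by simp) (fun _ => Dg.IsDeg.zero _)).d (x, y) =
      (M.dg.d x, N.dg.d y) := by
  rw [Dg.prod_d, LinearMap.zero_apply, zero_add]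

private theorem bs_s {M N : Bim A B} (x : M.M) (y : N.M) :
    (M.dg.prod N.dg 0 (fun v => by simp) (fun _ => Dg.IsDeg.zero _)).s (x, y) =
      (M.dg.s x, N.dg.s y) := Dg.prod_s x y

/-- the direct sum of two bimodules -/
def bsum (M N : Bim A B) : Bim A B where
  M := M.M × N.M
  dg := M.dg.prod N.dg 0 (fun v => by simp) (fun _ => Dg.IsDeg.zero _)
  l := LinearMap.mk₂ k (fun a (x : M.M × N.M) => (M.l a x.1, N.l a x.2))
    (fun a a' x => by simp) (fun c a x => by simp) (fun a x x' => by simp)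
    (fun c a x => by simp)
  r := LinearMap.mk₂ k (fun a (x : M.M × N.M) => (M.r a x.1, N.r a x.2))
    (fun a a' x => by simp) (fun c a x => by simp) (fun a x x' => by simp)
    (fun c a x => by simp)
  l_one := fun ⟨x, y⟩ => by simp [M.l_one, N.l_one]
  r_one := fun ⟨x, y⟩ => by simp [M.r_one, N.r_one]
  l_mul := fun a a' ⟨x, y⟩ => by simp [M.l_mul, N.l_mul]
  r_mul := fun a a' ⟨x, y⟩ => by simp [M.r_mul, N.r_mul]
  l_r := fun a b ⟨x, y⟩ => by simp [M.l_r, N.l_r]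
  l_deg := by
    rintro i j a ⟨x, y⟩ ha hx
    rw [bs_deg] at hx
    exact bs_deg.2 ⟨M.l_deg ha hx.1, N.l_deg ha hx.2⟩
  r_deg := by
    rintro i j b ⟨x, y⟩ hx hb
    rw [bs_deg] at hx
    exact bs_deg.2 ⟨M.r_deg hx.1 hb, N.r_deg hx.2 hb⟩
  d_l := by
    rintro a ⟨x, y⟩
    simp only [LinearMap.mk₂_apply, bs_d, M.d_l, N.d_l, Prod.mk_add_mk]
  d_r := by
    rintro b ⟨x, y⟩
    simp only [LinearMap.mk₂_apply, bs_d, bs_s, M.d_r, N.d_r, Prod.mk_add_mk]

theorem bsum_ses (M N : Bim A B) : IsSes M (bsum M N) N := by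
  refine ⟨⟨LinearMap.inl k M.M N.M, fun {i x} hx => ?_, fun a x => ?_, fun b x => ?_⟩,
    ⟨LinearMap.snd k M.M N.M, fun {i c} hc => ?_, fun a c => ?_, fun b c => ?_⟩, ?_, ?_, ?_,
    ?_, ?_⟩
  · rw [add_zero]
    exact bs_deg.2 ⟨hx, Dg.IsDeg.zero _⟩
  · rw [Dg.sp_zero]
    change (M.l a x, (0 : N.M)) = (M.l a x, N.l a 0)
    rw [map_zero]
  · change (M.r b x, (0 : N.M)) = (M.r b x, N.r b 0)
    rw [map_zero]
  · obtain ⟨x, y⟩ := c
    rw [add_zero]
    exact (bs_deg.1 hc).2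
  · obtain ⟨x, y⟩ := c
    rw [Dg.sp_zero]
    rfl
  · obtain ⟨x, y⟩ := c
    rfl
  · refine LinearMap.ext (fun x => ?_)
    rw [GMap.dd_apply, sg_zero, one_smul, LinearMap.zero_apply, sub_eq_zero]
    change (bsum M N).dg.d (x, (0 : N.M)) = (M.dg.d x, (0 : N.M))
    refine (bs_d x 0).trans ?_
    rw [map_zero]
  · refine LinearMap.ext (fun c => ?_)
    obtain ⟨x, y⟩ := c
    rw [GMap.dd_apply, sg_zero, one_smul, LinearMap.zero_apply, sub_eq_zero]
    exact (congrArg Prod.snd (bs_d x y)).symm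
  · intro x y hxy
    exact congrArg Prod.fst hxy
  · intro y
    exact ⟨(0, y), rfl⟩
  · rintro ⟨x, y⟩
    constructor
    · intro h
      refine ⟨x, ?_⟩
      have h' : y = 0 := h
      rw [h']
      rfl
    · rintro ⟨z, hz⟩
      exact (congrArg Prod.snd hz).symm

/-- Over the base field the tensor product of bimodules is the tensor product over `k`. -/
theorem exists_tbe (M : Bim A (base k)) (N : Bim (base k) B) :
    ∃ e : (tb M N).M ≃ₗ[k] TensorProduct k M.M N.M, ∀ m n, e (tm m n) = m ⊗ₜ[k] n := by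
  have h1 : ∀ (b : (base k).A) (m : M.M), M.r b m = (show k from b) • m := by
    intro b m
    have e1 : b = (show k from b) • (base k).one := (mul_one (show k from b)).symm
    conv_lhs => rw [e1]
    rw [map_smul, LinearMap.smul_apply, M.r_one]
  have h2 : ∀ (b : (base k).A) (n : N.M), N.l b n = (show k from b) • n := by
    intro b n
    have e1 : b = (show k from b) • (base k).one := (mul_one (show k from b)).symm
    conv_lhs => rw [e1]
    rw [map_smul, LinearMap.smul_apply, N.l_one]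
  have h3 : rel M N = ⊥ := by
    rw [eq_bot_iff]
    intro x hx
    refine rel_ind M N (P := fun x => x ∈ (⊥ : Submodule k (TensorProduct k M.M N.M)))
      (Submodule.zero_mem _) (fun _ _ => Submodule.add_mem _) (fun m b n => ?_) hx
    rw [h1, h2, TensorProduct.smul_tmul, sub_self]
    exact Submodule.zero_mem _
  exact ⟨Submodule.quotEquivOfEqBot _ h3, fun m n => Submodule.quotEquivOfEqBot_apply_mk _ _ _⟩

end Pool.Agent.MP_6e5bed_ag_NS
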