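import Pool.Agent.Lib.MP_6e5bed_ag_SP.NCMot

set_option autoImplicit false

/-!
# Čech dg algebras with respect to three charts (MP_6e5bed_ag, NC SURFACES)
-/

namespace Pool.Agent.MP_6e5bed_ag_SP

universe u

/-- Čech cochains with values in `B`: components on the three charts, on the three double
intersections and on the triple intersection. -/
abbrev CoT (B : Set (Fin 3) → Type u) : Type u :=
  ((B {0} × B {1} × B {2}) × (B {0, 1} × B {0, 2} × B {1, 2})) × B Set.univ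

variable {k T : Type u} [CommRing k] [Ring T] [Algebra k T] {B : Set (Fin 3) → Type u}
  [∀ I, Ring (B I)] [∀ I, Algebra k (B I)] (r : ∀ {I J : Set (Fin 3)}, I ⊆ J → B I →ₐ[k] B J)

theorem s0_01 : ({0} : Set (Fin 3)) ⊆ {0, 1} := fun _ h => Or.inl h

theorem s1_01 : ({1} : Set (Fin 3)) ⊆ {0, 1} := fun _ h => Or.inr h

theorem s0_02 : ({0} : Set (Fin 3)) ⊆ {0, 2} := fun _ h => Or.inl h

theorem s2_02 : ({2} : Set (Fin 3)) ⊆ {0, 2} := fun _ h => Or.inr h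

theorem s1_12 : ({1} : Set (Fin 3)) ⊆ {1, 2} := fun _ h => Or.inl h

theorem s2_12 : ({2} : Set (Fin 3)) ⊆ {1, 2} := fun _ h => Or.inr h

theorem s_u (I : Set (Fin 3)) : I ⊆ Set.univ := fun _ _ => trivial

/-- The cup product of Čech cochains:
`(a b)_i = a_i b_i`, `(a b)_ij = a_i b_ij + a_ij b_j` and
`(a b)_012 = a_0 b_012 + a_01 b_12 + a_012 b_2`. -/
def cup3 (a b : CoT B) : CoT B :=
  (((a.1.1.1 * b.1.1.1, a.1.1.2.1 * b.1.1.2.1, a.1.1.2.2 * b.1.1.2.2),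
    (r s0_01 a.1.1.1 * b.1.2.1 + a.1.2.1 * r s1_01 b.1.1.2.1,
      r s0_02 a.1.1.1 * b.1.2.2.1 + a.1.2.2.1 * r s2_02 b.1.1.2.2,
      r s1_12 a.1.1.2.1 * b.1.2.2.2 + a.1.2.2.2 * r s2_12 b.1.1.2.2)),
    r (s_u _) a.1.1.1 * b.2 + r (s_u _) a.1.2.1 * r (s_u _) b.1.2.2.2 +
      a.2 * r (s_u _) b.1.1.2.2)

/-- The Čech differential: `(d a)_ij = a_j - a_i`, `(d a)_012 = a_12 - a_02 + a_01`. -/
def dif3 (a : CoT B) : CoT B :=
  (((0, 0, 0), (r s1_01 a.1.1.2.1 - r s0_01 a.1.1.1, r s2_02 a.1.1.2.2 - r s0_02 a.1.1.1,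
    r s2_12 a.1.1.2.2 - r s1_12 a.1.1.2.1)),
    r (s_u _) a.1.2.2.2 - r (s_u _) a.1.2.2.1 + r (s_u _) a.1.2.1)

/-- The dg algebra `X` is the Čech dg algebra of the sheaf of algebras with the sections `B I` on
the intersection of the charts `U_i`, `i ∈ I`, and the restrictions `r`. -/
structure IsCech3 (X : DG k T) (e : T ≃ₗ[k] CoT B) : Prop where
  one : e 1 = (((1, 1, 1), (0, 0, 0)), 0)
  mul : ∀ a b, e (a * b) = cup3 r (e a) (e b)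
  gr0 : ∀ a, a ∈ X.gr 0 ↔ (e a).1.2 = 0 ∧ (e a).2 = 0
  gr1 : ∀ a, a ∈ X.gr 1 ↔ (e a).1.1 = 0 ∧ (e a).2 = 0
  gr2 : ∀ a, a ∈ X.gr 2 ↔ (e a).1.1 = 0 ∧ (e a).1.2 = 0
  d : ∀ a, e (X.d a) = dif3 r (e a)

end Pool.Agent.MP_6e5bed_ag_SP
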