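import Pool.Agent.Lib.MP_6e5bed_ag_NS.StA
import Pool.Agent.Lib.MP_6e5bed_ag_NS.Sh

set_option autoImplicit false

/-!
# MP_6e5bed_ag, NC SURFACES: the Čech dg algebra `TT A` in components
-/

noncomputable section

namespace Pool.Agent.MP_6e5bed_ag_NS

open Pool.Agent.MP_6e5bed_ag_NC Pool.Agent.MP_6e5bed_ag_SP

universe u

variable {k : Type u} [Field k] {B : Set (Fin 3) → Type u} [∀ I, Ring (B I)]
  [∀ I, Algebra k (B I)]

/-- The dg algebra `T` is the Čech dg algebra of `B`, `r`. -/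
structure IsCechD (r : ∀ {I J : Set (Fin 3)}, I ⊆ J → B I →ₐ[k] B J) (T : DGA k)
    (E : T.A ≃ₗ[k] CoT B) : Prop where
  one : E T.one = (((1, 1, 1), (0, 0, 0)), 0)
  mul : ∀ a b, E (T.mul a b) = cup3 r (E a) (E b)
  gr0 : ∀ a, T.dg.IsDeg 0 a ↔ (E a).1.2 = 0 ∧ (E a).2 = 0
  gr1 : ∀ a, T.dg.IsDeg 1 a ↔ (E a).1.1 = 0 ∧ (E a).2 = 0
  gr2 : ∀ a, T.dg.IsDeg 2 a ↔ (E a).1.1 = 0 ∧ (E a).1.2 = 0
  gr : ∀ (n : ℤ) a, n ≠ 0 → n ≠ 1 → n ≠ 2 → T.dg.IsDeg n a → a = 0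
  d : ∀ a, E (T.dg.d a) = dif3 r (E a)

theorem co_mono {I J : Set (Fin 3)} (hI : I.Nonempty) (hJ : J.Nonempty) (h : I ⊆ J) :
    (Ch.co I hI : Ch k) ≤ Ch.co J hJ := Set.image_mono h

section StB

variable (A : ASh k)

/-! ### One linear form -/

private abbrev StB_X1 (c : FS k) : Cx k := (cC A.pa.pc [xx k 0]).X c

/-- The element with the component `v`. -/
private def StB_m1 (c : FS k) (v : A.R (c.ins (xx k 0))) : (StB_X1 A c).V :=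
  (((PUnit.unit, v), PUnit.unit) : (PUnit.{u + 1} × A.R (c.ins (xx k 0))) × PUnit.{u + 1})

private theorem StB_eta1 (c : FS k) (x : (StB_X1 A c).V) : ∃ v, x = StB_m1 A c v :=
  ⟨x.1.2, rfl⟩

private theorem StB_d1 (c : FS k) (v : A.R (c.ins (xx k 0))) :
    (StB_X1 A c).dg.d (StB_m1 A c v) = StB_m1 A c 0 :=
  co_d (r0 := (WC.nil A.pa.pc).ρ (le_ins c (xx k 0)))
    (r1 := (WC.nil A.pa.pc).a (c.ins (xx k 0))) PUnit.unit v PUnit.unit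

private theorem StB_s1 (c : FS k) (v : A.R (c.ins (xx k 0))) :
    (StB_X1 A c).dg.s (StB_m1 A c v) = StB_m1 A c v := by
  refine (co_s (r0 := (WC.nil A.pa.pc).ρ (le_ins c (xx k 0)))
    (r1 := (WC.nil A.pa.pc).a (c.ins (xx k 0))) PUnit.unit v PUnit.unit).trans ?_
  exact congrArg (StB_m1 A c) (Dg.conc_s (k := k) (V := A.R (c.ins (xx k 0))) v)

private theorem StB_mul1 (c : FS k) (v v' : A.R (c.ins (xx k 0))) :
    ((cP A.pa.pp [xx k 0]).q c).m (StB_m1 A c v) (StB_m1 A c v') = StB_m1 A c (v * v') := rfl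

private theorem StB_ρ1 {c d : FS k} (h : c ≤ d) (v : A.R (c.ins (xx k 0))) :
    ((cC A.pa.pc [xx k 0]).ρ h).f (StB_m1 A c v) =
      StB_m1 A d (A.rr (ins_mono h (xx k 0)) v) := rfl

private theorem StB_a1 (c : Ch k) (v : A.R c) :
    ((cC A.pa.pc [xx k 0]).a c).f v = StB_m1 A c.fs (A.rr (le_ins' c (xx k 0)) v) := rfl

private theorem StB_sub1 (c : FS k) (v v' : A.R (c.ins (xx k 0))) :
    StB_m1 A c v - StB_m1 A c v' = StB_m1 A c (v - v') := rfl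

private theorem StB_add1 (c : FS k) (v v' : A.R (c.ins (xx k 0))) :
    StB_m1 A c v + StB_m1 A c v' = StB_m1 A c (v + v') := rfl

private theorem StB_neg1 (c : FS k) (v : A.R (c.ins (xx k 0))) :
    - StB_m1 A c v = StB_m1 A c (- v) := rfl

private theorem StB_conc {R : Type u} [AddCommGroup R] [Module k R] (i : ℤ) (v : R) :
    (Dg.conc k R).IsDeg i v ↔ i = 0 ∨ v = 0 := by
  refine ⟨Dg.conc_cases, ?_⟩
  rintro (rfl | rfl)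
  · exact Dg.conc_deg v
  · exact Dg.IsDeg.zero _

private theorem StB_deg1 (c : FS k) (i : ℤ) (v : A.R (c.ins (xx k 0))) :
    (StB_X1 A c).dg.IsDeg i (StB_m1 A c v) ↔ i = 0 ∨ v = 0 := by
  refine (co_deg (r0 := (WC.nil A.pa.pc).ρ (le_ins c (xx k 0)))
    (r1 := (WC.nil A.pa.pc).a (c.ins (xx k 0))) (i := i) (x0 := PUnit.unit) (x1 := v)
    (ξ := PUnit.unit)).trans ?_
  refine Iff.trans ?_ (StB_conc (k := k) (R := A.R (c.ins (xx k 0))) i v)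
  exact ⟨fun h => h.2.1, fun h => ⟨Dg.IsDeg.zero _, h, Dg.IsDeg.zero _⟩⟩

/-! ### Two linear forms -/

private abbrev StB_X2 (c : FS k) : Cx k := (cC A.pa.pc [xx k 1, xx k 0]).X c

/-- The element with the components `v0`, `v1`, `v01`. -/
private def StB_m2 (c : FS k) (v0 : A.R (c.ins (xx k 0))) (v1 : A.R (c.ins (xx k 1)))
    (v01 : A.R ((c.ins (xx k 1)).fs.ins (xx k 0))) : (StB_X2 A c).V :=
  (((StB_m1 A c v0, v1), StB_m1 A (c.ins (xx k 1)).fs v01) :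
    ((StB_X1 A c).V × A.R (c.ins (xx k 1))) × (StB_X1 A (c.ins (xx k 1)).fs).V)

private theorem StB_eta2 (c : FS k) (x : (StB_X2 A c).V) :
    ∃ v0 v1 v01, x = StB_m2 A c v0 v1 v01 :=
  ⟨x.1.1.1.2, x.1.2, x.2.1.2, rfl⟩

private theorem StB_d2 (c : FS k) (v0 : A.R (c.ins (xx k 0))) (v1 : A.R (c.ins (xx k 1)))
    (v01 : A.R ((c.ins (xx k 1)).fs.ins (xx k 0))) :
    (StB_X2 A c).dg.d (StB_m2 A c v0 v1 v01) = StB_m2 A c 0 0
      (A.rr (le_ins' (c.ins (xx k 1)) (xx k 0)) v1 -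
        A.rr (ins_mono (le_ins c (xx k 1)) (xx k 0)) v0) := by
  refine (co_d (r0 := (cC A.pa.pc [xx k 0]).ρ (le_ins c (xx k 1)))
    (r1 := (cC A.pa.pc [xx k 0]).a (c.ins (xx k 1))) (StB_m1 A c v0) v1
    (StB_m1 A (c.ins (xx k 1)).fs v01)).trans ?_
  refine Prod.ext (Prod.ext (StB_d1 A c v0) rfl) ?_
  change ((cC A.pa.pc [xx k 0]).a (c.ins (xx k 1))).f v1 -
    ((cC A.pa.pc [xx k 0]).ρ (le_ins c (xx k 1))).f (StB_m1 A c v0) -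
    (StB_X1 A (c.ins (xx k 1)).fs).dg.d (StB_m1 A (c.ins (xx k 1)).fs v01) =
    StB_m1 A (c.ins (xx k 1)).fs (A.rr (le_ins' (c.ins (xx k 1)) (xx k 0)) v1 -
        A.rr (ins_mono (le_ins c (xx k 1)) (xx k 0)) v0)
  rw [StB_a1, StB_ρ1, StB_d1, StB_sub1, StB_sub1, sub_zero]

private theorem StB_s2 (c : FS k) (v0 : A.R (c.ins (xx k 0))) (v1 : A.R (c.ins (xx k 1)))
    (v01 : A.R ((c.ins (xx k 1)).fs.ins (xx k 0))) :
    (StB_X2 A c).dg.s (StB_m2 A c v0 v1 v01) = StB_m2 A c v0 v1 (- v01) := by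
  refine (co_s (r0 := (cC A.pa.pc [xx k 0]).ρ (le_ins c (xx k 1)))
    (r1 := (cC A.pa.pc [xx k 0]).a (c.ins (xx k 1))) (StB_m1 A c v0) v1
    (StB_m1 A (c.ins (xx k 1)).fs v01)).trans ?_
  refine Prod.ext (Prod.ext (StB_s1 A c v0) (Dg.conc_s (k := k) (V := A.R (c.ins (xx k 1))) v1))
    ?_
  change - (StB_X1 A (c.ins (xx k 1)).fs).dg.s (StB_m1 A (c.ins (xx k 1)).fs v01) =
    StB_m1 A (c.ins (xx k 1)).fs (- v01)
  rw [StB_s1, StB_neg1]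

private theorem StB_mul2 (c : FS k) (v0 v0' : A.R (c.ins (xx k 0))) (v1 v1' : A.R (c.ins (xx k 1)))
    (v01 v01' : A.R ((c.ins (xx k 1)).fs.ins (xx k 0))) :
    ((cP A.pa.pp [xx k 1, xx k 0]).q c).m (StB_m2 A c v0 v1 v01) (StB_m2 A c v0' v1' v01') =
      StB_m2 A c (v0 * v0') (v1 * v1')
        (A.rr (ins_mono (le_ins c (xx k 1)) (xx k 0)) v0 * v01' +
          v01 * A.rr (le_ins' (c.ins (xx k 1)) (xx k 0)) v1') := by
  refine Prod.ext (Prod.ext (StB_mul1 A c v0 v0') rfl) ?_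
  change ((cP A.pa.pp [xx k 0]).q _).m (((cC A.pa.pc [xx k 0]).ρ (le_ins c (xx k 1))).f
      ((StB_X1 A c).dg.s (StB_m1 A c v0))) (StB_m1 A (c.ins (xx k 1)).fs v01') +
    ((cP A.pa.pp [xx k 0]).q _).m (StB_m1 A (c.ins (xx k 1)).fs v01)
      (((cC A.pa.pc [xx k 0]).a (c.ins (xx k 1))).f v1') = StB_m1 A (c.ins (xx k 1)).fs _
  rw [StB_s1, StB_ρ1, StB_a1, StB_mul1, StB_mul1, StB_add1]

private theorem StB_ρ2 {c d : FS k} (h : c ≤ d) (v0 : A.R (c.ins (xx k 0)))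
    (v1 : A.R (c.ins (xx k 1))) (v01 : A.R ((c.ins (xx k 1)).fs.ins (xx k 0))) :
    ((cC A.pa.pc [xx k 1, xx k 0]).ρ h).f (StB_m2 A c v0 v1 v01) =
      StB_m2 A d (A.rr (ins_mono h (xx k 0)) v0) (A.rr (ins_mono h (xx k 1)) v1)
        (A.rr (ins_mono (fs_mono (ins_mono h (xx k 1))) (xx k 0)) v01) := rfl

private theorem StB_a2 (c : Ch k) (v : A.R c) :
    ((cC A.pa.pc [xx k 1, xx k 0]).a c).f v = StB_m2 A c.fs (A.rr (le_ins' c (xx k 0)) v)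
      (A.rr (le_ins' c (xx k 1)) v) 0 := rfl

private theorem StB_sub2 (c : FS k) (v0 v0' : A.R (c.ins (xx k 0)))
    (v1 v1' : A.R (c.ins (xx k 1))) (v01 v01' : A.R ((c.ins (xx k 1)).fs.ins (xx k 0))) :
    StB_m2 A c v0 v1 v01 - StB_m2 A c v0' v1' v01' =
      StB_m2 A c (v0 - v0') (v1 - v1') (v01 - v01') := rfl

private theorem StB_add2 (c : FS k) (v0 v0' : A.R (c.ins (xx k 0)))
    (v1 v1' : A.R (c.ins (xx k 1))) (v01 v01' : A.R ((c.ins (xx k 1)).fs.ins (xx k 0))) :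
    StB_m2 A c v0 v1 v01 + StB_m2 A c v0' v1' v01' =
      StB_m2 A c (v0 + v0') (v1 + v1') (v01 + v01') := rfl

private theorem StB_deg2 (c : FS k) (i : ℤ) (v0 : A.R (c.ins (xx k 0)))
    (v1 : A.R (c.ins (xx k 1))) (v01 : A.R ((c.ins (xx k 1)).fs.ins (xx k 0))) :
    (StB_X2 A c).dg.IsDeg i (StB_m2 A c v0 v1 v01) ↔
      (i = 0 ∨ v0 = 0) ∧ (i = 0 ∨ v1 = 0) ∧ (i + -1 = 0 ∨ v01 = 0) := by
  refine (co_deg (r0 := (cC A.pa.pc [xx k 0]).ρ (le_ins c (xx k 1)))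
    (r1 := (cC A.pa.pc [xx k 0]).a (c.ins (xx k 1))) (i := i) (x0 := StB_m1 A c v0) (x1 := v1)
    (ξ := StB_m1 A (c.ins (xx k 1)).fs v01)).trans ?_
  exact and_congr (StB_deg1 A c i v0)
    (and_congr (StB_conc (k := k) (R := A.R (c.ins (xx k 1))) i v1) (StB_deg1 A _ _ v01))

/-! ### Three linear forms -/

private abbrev StB_X3 (c : FS k) : Cx k := (cC A.pa.pc [xx k 2, xx k 1, xx k 0]).X c

/-- The element with the components `v0`, `v1`, `v01`, `v2`, `v02`, `v12`, `v012`. -/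
private def StB_m3 (c : FS k) (v0 : A.R (c.ins (xx k 0))) (v1 : A.R (c.ins (xx k 1)))
    (v01 : A.R ((c.ins (xx k 1)).fs.ins (xx k 0))) (v2 : A.R (c.ins (xx k 2)))
    (v02 : A.R ((c.ins (xx k 2)).fs.ins (xx k 0))) (v12 : A.R ((c.ins (xx k 2)).fs.ins (xx k 1)))
    (v012 : A.R (((c.ins (xx k 2)).fs.ins (xx k 1)).fs.ins (xx k 0))) : (StB_X3 A c).V :=
  (((StB_m2 A c v0 v1 v01, v2), StB_m2 A (c.ins (xx k 2)).fs v02 v12 v012) :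
    ((StB_X2 A c).V × A.R (c.ins (xx k 2))) × (StB_X2 A (c.ins (xx k 2)).fs).V)

private theorem StB_eta3 (c : FS k) (x : (StB_X3 A c).V) :
    ∃ v0 v1 v01 v2 v02 v12 v012, x = StB_m3 A c v0 v1 v01 v2 v02 v12 v012 :=
  ⟨x.1.1.1.1.1.2, x.1.1.1.2, x.1.1.2.1.2, x.1.2, x.2.1.1.1.2, x.2.1.2, x.2.2.1.2, rfl⟩

private theorem StB_d3 (c : FS k) (v0 : A.R (c.ins (xx k 0))) (v1 : A.R (c.ins (xx k 1)))
    (v01 : A.R ((c.ins (xx k 1)).fs.ins (xx k 0))) (v2 : A.R (c.ins (xx k 2)))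
    (v02 : A.R ((c.ins (xx k 2)).fs.ins (xx k 0))) (v12 : A.R ((c.ins (xx k 2)).fs.ins (xx k 1)))
    (v012 : A.R (((c.ins (xx k 2)).fs.ins (xx k 1)).fs.ins (xx k 0))) :
    (StB_X3 A c).dg.d (StB_m3 A c v0 v1 v01 v2 v02 v12 v012) = StB_m3 A c 0 0
      (A.rr (le_ins' (c.ins (xx k 1)) (xx k 0)) v1 -
        A.rr (ins_mono (le_ins c (xx k 1)) (xx k 0)) v0) 0
      (A.rr (le_ins' (c.ins (xx k 2)) (xx k 0)) v2 -
        A.rr (ins_mono (le_ins c (xx k 2)) (xx k 0)) v0)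
      (A.rr (le_ins' (c.ins (xx k 2)) (xx k 1)) v2 -
        A.rr (ins_mono (le_ins c (xx k 2)) (xx k 1)) v1)
      (0 - A.rr (ins_mono (fs_mono (ins_mono (le_ins c (xx k 2)) (xx k 1))) (xx k 0)) v01 -
        (A.rr (le_ins' ((c.ins (xx k 2)).fs.ins (xx k 1)) (xx k 0)) v12 -
          A.rr (ins_mono (le_ins (c.ins (xx k 2)).fs (xx k 1)) (xx k 0)) v02)) := by
  refine (co_d (r0 := (cC A.pa.pc [xx k 1, xx k 0]).ρ (le_ins c (xx k 2)))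
    (r1 := (cC A.pa.pc [xx k 1, xx k 0]).a (c.ins (xx k 2))) (StB_m2 A c v0 v1 v01) v2
    (StB_m2 A (c.ins (xx k 2)).fs v02 v12 v012)).trans ?_
  refine Prod.ext (Prod.ext (StB_d2 A c v0 v1 v01) rfl) ?_
  change ((cC A.pa.pc [xx k 1, xx k 0]).a (c.ins (xx k 2))).f v2 -
    ((cC A.pa.pc [xx k 1, xx k 0]).ρ (le_ins c (xx k 2))).f (StB_m2 A c v0 v1 v01) -
    (StB_X2 A (c.ins (xx k 2)).fs).dg.d (StB_m2 A (c.ins (xx k 2)).fs v02 v12 v012) =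
    StB_m2 A (c.ins (xx k 2)).fs _ _ _
  rw [StB_a2, StB_ρ2, StB_d2, StB_sub2, StB_sub2, sub_zero, sub_zero]

private theorem StB_mul3 (c : FS k) (v0 v0' : A.R (c.ins (xx k 0))) (v1 v1' : A.R (c.ins (xx k 1)))
    (v01 v01' : A.R ((c.ins (xx k 1)).fs.ins (xx k 0))) (v2 v2' : A.R (c.ins (xx k 2)))
    (v02 v02' : A.R ((c.ins (xx k 2)).fs.ins (xx k 0)))
    (v12 v12' : A.R ((c.ins (xx k 2)).fs.ins (xx k 1)))
    (v012 v012' : A.R (((c.ins (xx k 2)).fs.ins (xx k 1)).fs.ins (xx k 0))) :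
    ((cP A.pa.pp [xx k 2, xx k 1, xx k 0]).q c).m (StB_m3 A c v0 v1 v01 v2 v02 v12 v012)
        (StB_m3 A c v0' v1' v01' v2' v02' v12' v012') =
      StB_m3 A c (v0 * v0') (v1 * v1')
        (A.rr (ins_mono (le_ins c (xx k 1)) (xx k 0)) v0 * v01' +
          v01 * A.rr (le_ins' (c.ins (xx k 1)) (xx k 0)) v1')
        (v2 * v2')
        (A.rr (ins_mono (le_ins c (xx k 2)) (xx k 0)) v0 * v02' +
          v02 * A.rr (le_ins' (c.ins (xx k 2)) (xx k 0)) v2')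
        (A.rr (ins_mono (le_ins c (xx k 2)) (xx k 1)) v1 * v12' +
          v12 * A.rr (le_ins' (c.ins (xx k 2)) (xx k 1)) v2')
        (A.rr (ins_mono (le_ins (c.ins (xx k 2)).fs (xx k 1)) (xx k 0))
            (A.rr (ins_mono (le_ins c (xx k 2)) (xx k 0)) v0) * v012' +
          A.rr (ins_mono (fs_mono (ins_mono (le_ins c (xx k 2)) (xx k 1))) (xx k 0)) (- v01) *
            A.rr (le_ins' ((c.ins (xx k 2)).fs.ins (xx k 1)) (xx k 0)) v12' +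
          (A.rr (ins_mono (le_ins (c.ins (xx k 2)).fs (xx k 1)) (xx k 0)) v02 * 0 +
            v012 * A.rr (le_ins' ((c.ins (xx k 2)).fs.ins (xx k 1)) (xx k 0))
              (A.rr (le_ins' (c.ins (xx k 2)) (xx k 1)) v2'))) := by
  refine Prod.ext (Prod.ext (StB_mul2 A c v0 v0' v1 v1' v01 v01') rfl) ?_
  change ((cP A.pa.pp [xx k 1, xx k 0]).q _).m
      (((cC A.pa.pc [xx k 1, xx k 0]).ρ (le_ins c (xx k 2))).f
        ((StB_X2 A c).dg.s (StB_m2 A c v0 v1 v01)))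
        (StB_m2 A (c.ins (xx k 2)).fs v02' v12' v012') +
    ((cP A.pa.pp [xx k 1, xx k 0]).q _).m (StB_m2 A (c.ins (xx k 2)).fs v02 v12 v012)
      (((cC A.pa.pc [xx k 1, xx k 0]).a (c.ins (xx k 2))).f v2') =
    StB_m2 A (c.ins (xx k 2)).fs _ _ _
  rw [StB_s2, StB_ρ2, StB_a2, StB_mul2, StB_mul2, StB_add2]

private theorem StB_deg3 (c : FS k) (i : ℤ) (v0 : A.R (c.ins (xx k 0)))
    (v1 : A.R (c.ins (xx k 1))) (v01 : A.R ((c.ins (xx k 1)).fs.ins (xx k 0)))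
    (v2 : A.R (c.ins (xx k 2))) (v02 : A.R ((c.ins (xx k 2)).fs.ins (xx k 0)))
    (v12 : A.R ((c.ins (xx k 2)).fs.ins (xx k 1)))
    (v012 : A.R (((c.ins (xx k 2)).fs.ins (xx k 1)).fs.ins (xx k 0))) :
    (StB_X3 A c).dg.IsDeg i (StB_m3 A c v0 v1 v01 v2 v02 v12 v012) ↔
      ((i = 0 ∨ v0 = 0) ∧ (i = 0 ∨ v1 = 0) ∧ (i + -1 = 0 ∨ v01 = 0)) ∧ (i = 0 ∨ v2 = 0) ∧
      ((i + -1 = 0 ∨ v02 = 0) ∧ (i + -1 = 0 ∨ v12 = 0) ∧ (i + -1 + -1 = 0 ∨ v012 = 0)) := by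
  refine (co_deg (r0 := (cC A.pa.pc [xx k 1, xx k 0]).ρ (le_ins c (xx k 2)))
    (r1 := (cC A.pa.pc [xx k 1, xx k 0]).a (c.ins (xx k 2))) (i := i)
    (x0 := StB_m2 A c v0 v1 v01) (x1 := v2)
    (ξ := StB_m2 A (c.ins (xx k 2)).fs v02 v12 v012)).trans ?_
  exact and_congr (StB_deg2 A c i v0 v1 v01)
    (and_congr (StB_conc (k := k) (R := A.R (c.ins (xx k 2))) i v2)
      (StB_deg2 A _ _ v02 v12 v012))

private theorem StB_prop (i0 i1 i2 a b c d e f g : Prop) :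
    ((i0 ∨ a) ∧ (i0 ∨ b) ∧ (i1 ∨ c)) ∧ (i0 ∨ d) ∧ ((i1 ∨ e) ∧ (i1 ∨ f) ∧ (i2 ∨ g)) ↔
      (i0 ∨ a ∧ b ∧ d) ∧ (i1 ∨ c ∧ e ∧ f) ∧ (i2 ∨ g) := by
  tauto

/-! ### Transport to the charts of the coordinates -/

private def StB_tr {c d : Ch k} (h : c.1 = d.1) : A.R c ≃ₐ[k] A.R d :=
  AlgEquiv.ofAlgHom (A.rr (show c ≤ d from h.le)) (A.rr (show d ≤ c from h.ge))
    (AlgHom.ext fun x => (A.res_res _ _ x).trans (A.res_id _ x))
    (AlgHom.ext fun x => (A.res_res _ _ x).trans (A.res_id _ x))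

private def StB_ψ (φ : ∀ (I : Set (Fin 3)) (hI : I.Nonempty), B I ≃ₐ[k] A.R (Ch.co I hI))
    (I : Set (Fin 3)) (hI : I.Nonempty) (c : Ch k) (hc : c.1 = xx k '' I) : A.R c ≃ₐ[k] B I :=
  (StB_tr A (c := c) (d := Ch.co I hI) hc).trans (φ I hI).symm

private theorem StB_φψ (φ : ∀ (I : Set (Fin 3)) (hI : I.Nonempty), B I ≃ₐ[k] A.R (Ch.co I hI))
    (I : Set (Fin 3)) (hI : I.Nonempty) (c : Ch k) (hc : c.1 = xx k '' I) (x : A.R c) :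
    φ I hI (StB_ψ A φ I hI c hc x) = A.rr (show c ≤ Ch.co I hI from hc.le) x :=
  (φ I hI).apply_symm_apply _

private theorem StB_ψ_r (r : ∀ {I J : Set (Fin 3)}, I ⊆ J → B I →ₐ[k] B J)
    (φ : ∀ (I : Set (Fin 3)) (hI : I.Nonempty), B I ≃ₐ[k] A.R (Ch.co I hI))
    (hφ : ∀ (I J : Set (Fin 3)) (hI : I.Nonempty) (hJ : J.Nonempty) (h : I ⊆ J) (b : B I),
      φ J hJ (r h b) = A.rr (co_mono hI hJ h) (φ I hI b))
    {I J : Set (Fin 3)} (hI : I.Nonempty) (hJ : J.Nonempty) {c d : Ch k} (hc : c.1 = xx k '' I)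
    (hd : d.1 = xx k '' J) (h : I ⊆ J) (h' : c ≤ d) (x : A.R c) :
    r h (StB_ψ A φ I hI c hc x) = StB_ψ A φ J hJ d hd (A.rr h' x) := by
  apply (φ J hJ).injective
  rw [hφ I J hI hJ h, StB_φψ, StB_φψ]
  exact (A.res_res _ _ x).trans (A.res_res _ _ x).symm

private theorem StB_c0 (i : Fin 3) : ((FS.e k).ins (xx k i)).1 = xx k '' {i} := by
  rw [Set.image_singleton]
  exact insert_empty_eq _

private theorem StB_c1 (i j : Fin 3) : (((FS.e k).ins (xx k j)).fs.ins (xx k i)).1 =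
    xx k '' {i, j} := by
  rw [Set.image_pair]
  exact congrArg (insert (xx k i)) (insert_empty_eq _)

private theorem StB_c2 : ((((FS.e k).ins (xx k 2)).fs.ins (xx k 1)).fs.ins (xx k 0)).1 =
    xx k '' Set.univ := by
  have h : (Set.univ : Set (Fin 3)) = {0, 1, 2} := by
    ext i
    fin_cases i <;> simp
  rw [h, Set.image_insert_eq, Set.image_pair]
  exact congrArg (fun s => insert (xx k 0) (insert (xx k 1) s)) (insert_empty_eq _)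

private theorem StB_rr2 {c d e : Ch k} (h : c ≤ d) (h' : d ≤ e) (x : A.R c) :
    A.rr h' (A.rr h x) = A.rr (h.trans h') x := A.res_res h h' x

/-- The components. -/
private def StB_E (ψ0 : A.R ((FS.e k).ins (xx k 0)) ≃ₐ[k] B {0})
    (ψ1 : A.R ((FS.e k).ins (xx k 1)) ≃ₐ[k] B {1}) (ψ2 : A.R ((FS.e k).ins (xx k 2)) ≃ₐ[k] B {2})
    (ψ01 : A.R (((FS.e k).ins (xx k 1)).fs.ins (xx k 0)) ≃ₐ[k] B {0, 1})
    (ψ02 : A.R (((FS.e k).ins (xx k 2)).fs.ins (xx k 0)) ≃ₐ[k] B {0, 2})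
    (ψ12 : A.R (((FS.e k).ins (xx k 2)).fs.ins (xx k 1)) ≃ₐ[k] B {1, 2})
    (ψu : A.R ((((FS.e k).ins (xx k 2)).fs.ins (xx k 1)).fs.ins (xx k 0)) ≃ₐ[k] B Set.univ) :
    (StB_X3 A (FS.e k)).V ≃ₗ[k] CoT B where
  toFun := fun x => (((ψ0 x.1.1.1.1.1.2, ψ1 x.1.1.1.2, ψ2 x.1.2),
    (ψ01 x.1.1.2.1.2, ψ02 x.2.1.1.1.2, ψ12 x.2.1.2)), - ψu x.2.2.1.2)
  invFun := fun y => StB_m3 A (FS.e k) (ψ0.symm y.1.1.1) (ψ1.symm y.1.1.2.1)
    (ψ01.symm y.1.2.1) (ψ2.symm y.1.1.2.2) (ψ02.symm y.1.2.2.1) (ψ12.symm y.1.2.2.2)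
    (ψu.symm (- y.2))
  map_add' := fun x y => by
    refine Prod.ext (Prod.ext (Prod.ext (map_add ψ0 _ _) (Prod.ext (map_add ψ1 _ _)
      (map_add ψ2 _ _))) (Prod.ext (map_add ψ01 _ _) (Prod.ext (map_add ψ02 _ _)
      (map_add ψ12 _ _)))) ?_
    exact (congrArg Neg.neg (map_add ψu _ _)).trans (neg_add _ _)
  map_smul' := fun c x => by
    refine Prod.ext (Prod.ext (Prod.ext (map_smul ψ0 c _) (Prod.ext (map_smul ψ1 c _)
      (map_smul ψ2 c _))) (Prod.ext (map_smul ψ01 c _) (Prod.ext (map_smul ψ02 c _)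
      (map_smul ψ12 c _)))) ?_
    exact (congrArg Neg.neg (map_smul ψu c _)).trans (smul_neg c _).symm
  left_inv := fun x => by
    obtain ⟨v0, v1, v01, v2, v02, v12, v012, rfl⟩ := StB_eta3 A (FS.e k) x
    change StB_m3 A (FS.e k) (ψ0.symm (ψ0 v0)) (ψ1.symm (ψ1 v1)) (ψ01.symm (ψ01 v01))
      (ψ2.symm (ψ2 v2)) (ψ02.symm (ψ02 v02)) (ψ12.symm (ψ12 v12)) (ψu.symm (- - ψu v012)) = _
    rw [neg_neg, ψ0.symm_apply_apply, ψ1.symm_apply_apply, ψ2.symm_apply_apply,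
      ψ01.symm_apply_apply, ψ02.symm_apply_apply, ψ12.symm_apply_apply, ψu.symm_apply_apply]
  right_inv := fun y => by
    obtain ⟨⟨⟨y0, y1, y2⟩, ⟨y01, y02, y12⟩⟩, y012⟩ := y
    change (((ψ0 (ψ0.symm y0), ψ1 (ψ1.symm y1), ψ2 (ψ2.symm y2)),
      (ψ01 (ψ01.symm y01), ψ02 (ψ02.symm y02), ψ12 (ψ12.symm y12))),
      - ψu (ψu.symm (- y012))) = _
    rw [ψ0.apply_symm_apply, ψ1.apply_symm_apply, ψ2.apply_symm_apply,
      ψ01.apply_symm_apply, ψ02.apply_symm_apply, ψ12.apply_symm_apply, ψu.apply_symm_apply,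
      neg_neg]

end StB

/-- `TT A` in components. PROOF. `TT A = cA A.pa [x_2, x_1, x_0] ∅`, the cochain `(W, v_2, ξ)` has
`W` in the Čech complex of `x_1, x_0` and `ξ` in the one on the chart `x_2 ≠ 0` (shifted); the
components of `W` are `v_0`, `v_1` and `v_01`, those of `ξ` are `v_02`, `v_12` and `- v_012` (MINUS:
the differential and the product of `co` involve signs: the component of `d (x0, x1, ξ)` is
`r1 x1 - r0 x0 - d ξ` and that of the product is `ξ r1(y1) + r0(s x0) υ`). The charts in the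
recursion are equal as sets to the charts `Ch.co I`; use the restriction maps between equal
charts (`A.rr` in both directions, `A.res_id`, `A.res_res`). -/
theorem tt_cech (A : ASh k) (r : ∀ {I J : Set (Fin 3)}, I ⊆ J → B I →ₐ[k] B J)
    (φ : ∀ (I : Set (Fin 3)) (hI : I.Nonempty), B I ≃ₐ[k] A.R (Ch.co I hI))
    (hφ : ∀ (I J : Set (Fin 3)) (hI : I.Nonempty) (hJ : J.Nonempty) (h : I ⊆ J) (b : B I),
      φ J hJ (r h b) = A.rr (co_mono hI hJ h) (φ I hI b)) :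
    ∃ E : (TT A).A ≃ₗ[k] CoT B, IsCechD r (TT A) E := by
  have n0 : ∀ i : Fin 3, ({i} : Set (Fin 3)).Nonempty := fun i => Set.singleton_nonempty i
  have n1 : ∀ i j : Fin 3, ({i, j} : Set (Fin 3)).Nonempty := fun i j => ⟨i, Or.inl rfl⟩
  have nu : (Set.univ : Set (Fin 3)).Nonempty := Set.univ_nonempty
  obtain ⟨ψ0, h0⟩ : ∃ ψ, ψ = StB_ψ A φ {0} (n0 0) _ (StB_c0 0) := ⟨_, rfl⟩
  obtain ⟨ψ1, h1⟩ : ∃ ψ, ψ = StB_ψ A φ {1} (n0 1) _ (StB_c0 1) := ⟨_, rfl⟩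
  obtain ⟨ψ2, h2⟩ : ∃ ψ, ψ = StB_ψ A φ {2} (n0 2) _ (StB_c0 2) := ⟨_, rfl⟩
  obtain ⟨ψ01, h01⟩ : ∃ ψ, ψ = StB_ψ A φ {0, 1} (n1 0 1) _ (StB_c1 0 1) := ⟨_, rfl⟩
  obtain ⟨ψ02, h02⟩ : ∃ ψ, ψ = StB_ψ A φ {0, 2} (n1 0 2) _ (StB_c1 0 2) := ⟨_, rfl⟩
  obtain ⟨ψ12, h12⟩ : ∃ ψ, ψ = StB_ψ A φ {1, 2} (n1 1 2) _ (StB_c1 1 2) := ⟨_, rfl⟩
  obtain ⟨ψu, hu⟩ : ∃ ψ, ψ = StB_ψ A φ Set.univ nu _ StB_c2 := ⟨_, rfl⟩
  have e1 : ∀ x, r s0_01 (ψ0 x) = ψ01 (A.rr (ins_mono (le_ins (FS.e k) (xx k 1)) (xx k 0)) x) := by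
    intro x
    rw [h0, h01]
    exact StB_ψ_r A r φ hφ _ _ _ _ _ _ x
  have e2 : ∀ x, r s1_01 (ψ1 x) = ψ01 (A.rr (le_ins' ((FS.e k).ins (xx k 1)) (xx k 0)) x) := by
    intro x
    rw [h1, h01]
    exact StB_ψ_r A r φ hφ _ _ _ _ _ _ x
  have e3 : ∀ x, r s0_02 (ψ0 x) = ψ02 (A.rr (ins_mono (le_ins (FS.e k) (xx k 2)) (xx k 0)) x) := by
    intro x
    rw [h0, h02]
    exact StB_ψ_r A r φ hφ _ _ _ _ _ _ x
  have e4 : ∀ x, r s2_02 (ψ2 x) = ψ02 (A.rr (le_ins' ((FS.e k).ins (xx k 2)) (xx k 0)) x) := by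
    intro x
    rw [h2, h02]
    exact StB_ψ_r A r φ hφ _ _ _ _ _ _ x
  have e5 : ∀ x, r s1_12 (ψ1 x) = ψ12 (A.rr (ins_mono (le_ins (FS.e k) (xx k 2)) (xx k 1)) x) := by
    intro x
    rw [h1, h12]
    exact StB_ψ_r A r φ hφ _ _ _ _ _ _ x
  have e6 : ∀ x, r s2_12 (ψ2 x) = ψ12 (A.rr (le_ins' ((FS.e k).ins (xx k 2)) (xx k 1)) x) := by
    intro x
    rw [h2, h12]
    exact StB_ψ_r A r φ hφ _ _ _ _ _ _ x
  have e7 : ∀ x, r (s_u _) (ψ0 x) =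
      ψu (A.rr (ins_mono (le_ins ((FS.e k).ins (xx k 2)).fs (xx k 1)) (xx k 0))
        (A.rr (ins_mono (le_ins (FS.e k) (xx k 2)) (xx k 0)) x)) := by
    intro x
    rw [h0, hu, StB_rr2]
    exact StB_ψ_r A r φ hφ _ _ _ _ _ _ x
  have e8 : ∀ x, r (s_u _) (ψ01 x) =
      ψu (A.rr (ins_mono (fs_mono (ins_mono (le_ins (FS.e k) (xx k 2)) (xx k 1))) (xx k 0)) x) := by
    intro x
    rw [h01, hu]
    exact StB_ψ_r A r φ hφ _ _ _ _ _ _ x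
  have e9 : ∀ x, r (s_u _) (ψ12 x) =
      ψu (A.rr (le_ins' (((FS.e k).ins (xx k 2)).fs.ins (xx k 1)) (xx k 0)) x) := by
    intro x
    rw [h12, hu]
    exact StB_ψ_r A r φ hφ _ _ _ _ _ _ x
  have e10 : ∀ x, r (s_u _) (ψ02 x) =
      ψu (A.rr (ins_mono (le_ins ((FS.e k).ins (xx k 2)).fs (xx k 1)) (xx k 0)) x) := by
    intro x
    rw [h02, hu]
    exact StB_ψ_r A r φ hφ _ _ _ _ _ _ x
  have e11 : ∀ x, r (s_u _) (ψ2 x) =
      ψu (A.rr (le_ins' (((FS.e k).ins (xx k 2)).fs.ins (xx k 1)) (xx k 0))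
        (A.rr (le_ins' ((FS.e k).ins (xx k 2)) (xx k 1)) x)) := by
    intro x
    rw [h2, hu, StB_rr2]
    exact StB_ψ_r A r φ hφ _ _ _ _ _ _ x
  clear h0 h1 h2 h01 h02 h12 hu
  obtain ⟨E, hE⟩ : ∃ E : (StB_X3 A (FS.e k)).V ≃ₗ[k] CoT B,
      ∀ v0 v1 v01 v2 v02 v12 v012, E (StB_m3 A (FS.e k) v0 v1 v01 v2 v02 v12 v012) =
        (((ψ0 v0, ψ1 v1, ψ2 v2), (ψ01 v01, ψ02 v02, ψ12 v12)), - ψu v012) :=
    ⟨StB_E A ψ0 ψ1 ψ2 ψ01 ψ02 ψ12 ψu, fun _ _ _ _ _ _ _ => rfl⟩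
  have H1 : E (cU A.pa (FF k) (FS.e k)) = (((1, 1, 1), (0, 0, 0)), 0) := by
    refine (hE 1 1 0 1 0 0 0).trans ?_
    simp only [map_one, map_zero, neg_zero]
  have H2 : ∀ a b : (StB_X3 A (FS.e k)).V,
      E (((cP A.pa.pp [xx k 2, xx k 1, xx k 0]).q (FS.e k)).m a b) = cup3 r (E a) (E b) := by
    intro a b
    obtain ⟨v0, v1, v01, v2, v02, v12, v012, rfl⟩ := StB_eta3 A (FS.e k) a
    obtain ⟨w0, w1, w01, w2, w02, w12, w012, rfl⟩ := StB_eta3 A (FS.e k) b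
    rw [StB_mul3, hE, hE, hE]
    unfold cup3
    simp only [e1, e2, e3, e4, e5, e6, e7, e8, e9, e11, map_mul, map_add, map_neg,
      mul_zero, zero_add, neg_mul, mul_neg, neg_add, neg_neg]
  have H3 : ∀ (i : ℤ) (a : (StB_X3 A (FS.e k)).V), (StB_X3 A (FS.e k)).dg.IsDeg i a ↔
      (i = 0 ∨ (E a).1.1 = 0) ∧ (i = 1 ∨ (E a).1.2 = 0) ∧ (i = 2 ∨ (E a).2 = 0) := by
    intro i a
    obtain ⟨v0, v1, v01, v2, v02, v12, v012, rfl⟩ := StB_eta3 A (FS.e k) a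
    rw [StB_deg3, hE]
    have z : ∀ {I : Set (Fin 3)} {R : Type u} [Ring R] [Algebra k R] (ψ : R ≃ₐ[k] B I) (v : R),
        ψ v = 0 ↔ v = 0 := fun ψ v => map_eq_zero_iff ψ ψ.injective
    have i1 : i + -1 = 0 ↔ i = 1 := by omega
    have i2 : i + -1 + -1 = 0 ↔ i = 2 := by omega
    simp only [i1, i2, Prod.mk_eq_zero, neg_eq_zero, z]
    exact StB_prop _ _ _ _ _ _ _ _ _ _
  have H4 : ∀ a : (StB_X3 A (FS.e k)).V, E ((StB_X3 A (FS.e k)).dg.d a) = dif3 r (E a) := by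
    intro a
    obtain ⟨v0, v1, v01, v2, v02, v12, v012, rfl⟩ := StB_eta3 A (FS.e k) a
    rw [StB_d3, hE, hE]
    unfold dif3
    simp only [e1, e2, e3, e4, e5, e6, e8, e9, e10, map_sub, map_zero]
    refine Prod.ext rfl ?_
    change - (0 - _ - (_ - _)) = _ - _ + _
    abel
  have g0 : ∀ P Q R : Prop, (((0 : ℤ) = 0 ∨ P) ∧ ((0 : ℤ) = 1 ∨ Q) ∧ ((0 : ℤ) = 2 ∨ R)) ↔
      Q ∧ R := fun P Q R => ⟨fun h => ⟨h.2.1.resolve_left (by decide),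
        h.2.2.resolve_left (by decide)⟩, fun h => ⟨Or.inl rfl, Or.inr h.1, Or.inr h.2⟩⟩
  have g1 : ∀ P Q R : Prop, (((1 : ℤ) = 0 ∨ P) ∧ ((1 : ℤ) = 1 ∨ Q) ∧ ((1 : ℤ) = 2 ∨ R)) ↔
      P ∧ R := fun P Q R => ⟨fun h => ⟨h.1.resolve_left (by decide),
        h.2.2.resolve_left (by decide)⟩, fun h => ⟨Or.inr h.1, Or.inl rfl, Or.inr h.2⟩⟩
  have g2 : ∀ P Q R : Prop, (((2 : ℤ) = 0 ∨ P) ∧ ((2 : ℤ) = 1 ∨ Q) ∧ ((2 : ℤ) = 2 ∨ R)) ↔
      P ∧ Q := fun P Q R => ⟨fun h => ⟨h.1.resolve_left (by decide),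
        h.2.1.resolve_left (by decide)⟩, fun h => ⟨Or.inr h.1, Or.inr h.2, Or.inl rfl⟩⟩
  refine ⟨E, H1, H2, fun a => (H3 0 a).trans (g0 _ _ _), fun a => (H3 1 a).trans (g1 _ _ _),
    fun a => (H3 2 a).trans (g2 _ _ _), fun n a h0 h1 h2 h => ?_, H4⟩
  · have h3 := (H3 n a).1 h
    have h4 : E a = 0 := Prod.ext (Prod.ext (h3.1.resolve_left h0) (h3.2.1.resolve_left h1))
      (h3.2.2.resolve_left h2)
    exact (map_eq_zero_iff E E.injective).1 h4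

end Pool.Agent.MP_6e5bed_ag_NS
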