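import Pool.Agent.Lib.MP_6e5bed_ag_SP.NCMot

set_option autoImplicit false

/-!
# Graded algebras over `k[x_0, x_1, x_2]` and the dg algebras `RΓ(P², Γ~)` (MP_6e5bed_ag)
-/

namespace Pool.Agent.MP_6e5bed_ag_P2

open MvPolynomial Pool.Agent.MP_6e5bed_ag_SP

universe u

variable {k Γ : Type u} [Field k] [Ring Γ] [Algebra k Γ] [Algebra (MvPolynomial (Fin 3) k) Γ]

/-- `Γ` is a graded algebra, and it is a finitely generated module over the central subalgebra
generated by the elements `x_0, x_1, x_2` of degree one. -/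
structure IsGr (𝒢 : ℕ → Submodule k Γ) : Prop where
  int : DirectSum.IsInternal 𝒢
  one : 1 ∈ 𝒢 0
  mul : ∀ m n a b, a ∈ 𝒢 m → b ∈ 𝒢 n → a * b ∈ 𝒢 (m + n)
  var : ∀ i, algebraMap (MvPolynomial (Fin 3) k) Γ (X i) ∈ 𝒢 1
  fin : Module.Finite (MvPolynomial (Fin 3) k) Γ

/-- Every simple quotient `Q` of the generic algebra `Γ ⊗ k(u, v)` (`x_0 ↦ 1, x_1 ↦ u, x_2 ↦ v`) has
the centre `k(u, v)`. -/
def CenG (k Γ : Type u) [Field k] [Ring Γ] [Algebra (MvPolynomial (Fin 3) k) Γ] : Prop :=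
  ∀ (K Q : Type u) [Field K] [Algebra (MvPolynomial (Fin 2) k) K]
    [IsFractionRing (MvPolynomial (Fin 2) k) K] [Ring Q] [Algebra K Q] [IsSimpleRing Q]
    (π : Γ →+* Q), (∀ p : MvPolynomial (Fin 3) k, π (algebraMap _ Γ p) =
      algebraMap K Q (algebraMap (MvPolynomial (Fin 2) k) K (aeval ![1, X 0, X 1] p))) →
    Submodule.span K (Set.range π) = ⊤ →
    ∀ z : Q, (∀ x, z * x = x * z) → ∃ s : K, z = algebraMap K Q s

variable {B : Finset (Fin 3) → Type u} [∀ I, Ring (B I)] [∀ I, Algebra k (B I)]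

/-- The sections of the sheaf of algebras `Γ~` on the projective plane: for `I ⊆ {0, 1, 2}` the
algebra `B I` is the degree zero part of the localisation of `Γ` at the product `x_I` of the `x_i`
with `i ∈ I`, the element `q I n a` of `B I` is the fraction `a / x_I ^ n`, for `a` of degree
`n * |I|`, and the `r I J` are the restriction maps. -/
structure IsSec (𝒢 : ℕ → Submodule k Γ) (r : ∀ I J : Finset (Fin 3), I ⊆ J → B I →ₐ[k] B J)
    (q : ∀ I : Finset (Fin 3), ℕ → Γ → B I) : Prop where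
  add : ∀ I n a b, a ∈ 𝒢 (n * I.card) → b ∈ 𝒢 (n * I.card) → q I n (a + b) = q I n a + q I n b
  mul : ∀ I m n a b, a ∈ 𝒢 (m * I.card) → b ∈ 𝒢 (n * I.card) →
    q I (m + n) (a * b) = q I m a * q I n b
  const : ∀ I (c : k), q I 0 (algebraMap k Γ c) = algebraMap k (B I) c
  step : ∀ I n a, a ∈ 𝒢 (n * I.card) →
    q I (n + 1) ((∏ i ∈ I, X i : MvPolynomial (Fin 3) k) • a) = q I n a
  surj : ∀ I (b : B I), ∃ n, ∃ a ∈ 𝒢 (n * I.card), q I n a = b
  zero : ∀ I n a, a ∈ 𝒢 (n * I.card) → q I n a = 0 →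
    ∃ m : ℕ, (∏ i ∈ I, X i : MvPolynomial (Fin 3) k) ^ m • a = 0
  res : ∀ I J (h : I ⊆ J) n a, a ∈ 𝒢 (n * I.card) →
    r I J h (q I n a) = q J n ((∏ j ∈ J \ I, X j : MvPolynomial (Fin 3) k) ^ n • a)

/-- The dg algebra `X` is the Čech dg algebra of the sections `B` with the restriction maps `r`:
the elements are the families `(a_I)` with `a_I ∈ B I`, `a_∅ = 0`, where `a_I` has the degree
`|I| - 1`; the product is `(a b)_I = ∑ a_{j ∈ I, j ≤ i} b_{j ∈ I, i ≤ j}` and the differential is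
`(d a)_I = ∑ ± a_{I - i}`, the sums being over `i ∈ I` and the sign being `(-1)^n` if `i` is the
`n`-th element of `I` (starting with `n = 0`). -/
structure IsCech {T : Type u} [Ring T] [Algebra k T]
    (r : ∀ I J : Finset (Fin 3), I ⊆ J → B I →ₐ[k] B J) (X : DG k T)
    (e : T →ₗ[k] ∀ I, B I) : Prop where
  inj : Function.Injective e
  range : ∀ c : ∀ I, B I, (∃ a, e a = c) ↔ c ∅ = 0
  one : ∀ I, e 1 I = if I.card = 1 then 1 else 0
  mul : ∀ a b I, e (a * b) I = ∑ i ∈ I, r (I.filter (· ≤ i)) I (Finset.filter_subset _ _) (e a _) *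
    r (I.filter (i ≤ ·)) I (Finset.filter_subset _ _) (e b _)
  gr : ∀ (n : ℤ) a, a ∈ X.gr n ↔ ∀ I, e a I ≠ 0 → (I.card : ℤ) = n + 1
  d : ∀ a I, e (X.d a) I = ∑ i ∈ I, (-1 : ℤ) ^ (I.filter (· < i)).card •
    r (I.erase i) I (Finset.erase_subset i I) (e a _)

/-- The dg algebra `X` is `RΓ(P², Γ~)`, computed by the Čech complex of the three charts. -/
def IsRGam (𝒢 : ℕ → Submodule k Γ) {T : Type u} [Ring T] [Algebra k T] (X : DG k T) : Prop :=
  ∃ (B : Finset (Fin 3) → Type u) (_ : ∀ I, Ring (B I)) (_ : ∀ I, Algebra k (B I))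
    (r : ∀ I J : Finset (Fin 3), I ⊆ J → B I →ₐ[k] B J) (q : ∀ I : Finset (Fin 3), ℕ → Γ → B I)
    (e : T →ₗ[k] ∀ I, B I), IsSec 𝒢 r q ∧ IsCech r X e

end Pool.Agent.MP_6e5bed_ag_P2
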