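import Pool.Agent.Lib.MP_6e5bed_ag_NS.StP2
import Pool.Agent.Lib.MP_6e5bed_ag_NS.StA

set_option autoImplicit false

/-!
# MP_6e5bed_ag, NC SURFACES: Čech dg algebras in terms of finite sets of indices and in terms of
components
-/

noncomputable section

namespace Pool.Agent.MP_6e5bed_ag_P2

open Pool.Agent.MP_6e5bed_ag_SP

universe u

theorem all8 : ∀ I : Finset (Fin 3), I = ∅ ∨ I = {0} ∨ I = {1} ∨ I = {2} ∨ I = {0, 1} ∨
    I = {0, 2} ∨ I = {1, 2} ∨ I = {0, 1, 2} := by decide

theorem e0 {I : Finset (Fin 3)} (h : I = {0}) : ({0} : Set (Fin 3)) ⊆ ↑I := by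
  rw [h, Finset.coe_singleton]

theorem e1 {I : Finset (Fin 3)} (h : I = {1}) : ({1} : Set (Fin 3)) ⊆ ↑I := by
  rw [h, Finset.coe_singleton]

theorem e2 {I : Finset (Fin 3)} (h : I = {2}) : ({2} : Set (Fin 3)) ⊆ ↑I := by
  rw [h, Finset.coe_singleton]

theorem e01 {I : Finset (Fin 3)} (h : I = {0, 1}) : ({0, 1} : Set (Fin 3)) ⊆ ↑I := by
  rw [h, Finset.coe_insert, Finset.coe_singleton]

theorem e02 {I : Finset (Fin 3)} (h : I = {0, 2}) : ({0, 2} : Set (Fin 3)) ⊆ ↑I := by
  rw [h, Finset.coe_insert, Finset.coe_singleton]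

theorem e12 {I : Finset (Fin 3)} (h : I = {1, 2}) : ({1, 2} : Set (Fin 3)) ⊆ ↑I := by
  rw [h, Finset.coe_insert, Finset.coe_singleton]

theorem eu {I : Finset (Fin 3)} (h : I = {0, 1, 2}) : (Set.univ : Set (Fin 3)) ⊆ ↑I := by
  rw [h]
  intro x _
  fin_cases x <;> simp

variable {k : Type u} [CommRing k] {B : Set (Fin 3) → Type u} [∀ I, Ring (B I)]
  [∀ I, Algebra k (B I)]

section

variable (r : ∀ {I J : Set (Fin 3)}, I ⊆ J → B I →ₐ[k] B J)

/-- the component with the index `I` of a cochain -/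
def comp (b : CoT B) (I : Finset (Fin 3)) : B ↑I :=
  if h : I = {0} then r (e0 h) b.1.1.1
  else if h : I = {1} then r (e1 h) b.1.1.2.1
  else if h : I = {2} then r (e2 h) b.1.1.2.2
  else if h : I = {0, 1} then r (e01 h) b.1.2.1
  else if h : I = {0, 2} then r (e02 h) b.1.2.2.1
  else if h : I = {1, 2} then r (e12 h) b.1.2.2.2
  else if h : I = {0, 1, 2} then r (eu h) b.2
  else 0

variable (hrc : ∀ (I J K : Set (Fin 3)) (h1 : I ⊆ J) (h2 : J ⊆ K) (b : B I),
  r h2 (r h1 b) = r (h1.trans h2) b)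

include hrc

theorem c0 (b : CoT B) {J : Finset (Fin 3)} {S : Set (Fin 3)} (h : ↑J ⊆ S) (hJ : J = {0}) :
    r h (comp r b J) = r ((e0 hJ).trans h) b.1.1.1 := by
  subst hJ
  rw [comp, dif_pos rfl, hrc]

theorem c1 (b : CoT B) {J : Finset (Fin 3)} {S : Set (Fin 3)} (h : ↑J ⊆ S) (hJ : J = {1}) :
    r h (comp r b J) = r ((e1 hJ).trans h) b.1.1.2.1 := by
  subst hJ
  rw [comp, dif_neg (by decide), dif_pos rfl, hrc]

theorem c2 (b : CoT B) {J : Finset (Fin 3)} {S : Set (Fin 3)} (h : ↑J ⊆ S) (hJ : J = {2}) :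
    r h (comp r b J) = r ((e2 hJ).trans h) b.1.1.2.2 := by
  subst hJ
  rw [comp, dif_neg (by decide), dif_neg (by decide), dif_pos rfl, hrc]

theorem c01 (b : CoT B) {J : Finset (Fin 3)} {S : Set (Fin 3)} (h : ↑J ⊆ S) (hJ : J = {0, 1}) :
    r h (comp r b J) = r ((e01 hJ).trans h) b.1.2.1 := by
  subst hJ
  rw [comp, dif_neg (by decide), dif_neg (by decide), dif_neg (by decide), dif_pos rfl, hrc]

theorem c02 (b : CoT B) {J : Finset (Fin 3)} {S : Set (Fin 3)} (h : ↑J ⊆ S) (hJ : J = {0, 2}) :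
    r h (comp r b J) = r ((e02 hJ).trans h) b.1.2.2.1 := by
  subst hJ
  rw [comp, dif_neg (by decide), dif_neg (by decide), dif_neg (by decide), dif_neg (by decide),
    dif_pos rfl, hrc]

theorem c12 (b : CoT B) {J : Finset (Fin 3)} {S : Set (Fin 3)} (h : ↑J ⊆ S) (hJ : J = {1, 2}) :
    r h (comp r b J) = r ((e12 hJ).trans h) b.1.2.2.2 := by
  subst hJ
  rw [comp, dif_neg (by decide), dif_neg (by decide), dif_neg (by decide), dif_neg (by decide),
    dif_neg (by decide), dif_pos rfl, hrc]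

theorem cu (b : CoT B) {J : Finset (Fin 3)} {S : Set (Fin 3)} (h : ↑J ⊆ S)
    (hJ : J = {0, 1, 2}) : r h (comp r b J) = r ((eu hJ).trans h) b.2 := by
  subst hJ
  rw [comp, dif_neg (by decide), dif_neg (by decide), dif_neg (by decide), dif_neg (by decide),
    dif_neg (by decide), dif_neg (by decide), dif_pos rfl, hrc]

omit hrc in
theorem cn (b : CoT B) {J : Finset (Fin 3)} {S : Set (Fin 3)} (h : ↑J ⊆ S) (hJ : J = ∅) :
    r h (comp r b J) = 0 := by
  subst hJ
  rw [comp, dif_neg (by decide), dif_neg (by decide), dif_neg (by decide), dif_neg (by decide),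
    dif_neg (by decide), dif_neg (by decide), dif_neg (by decide), map_zero]

omit hrc in
theorem comp_empty (b : CoT B) : comp r b ∅ = 0 := by
  rw [comp, dif_neg (by decide), dif_neg (by decide), dif_neg (by decide), dif_neg (by decide),
    dif_neg (by decide), dif_neg (by decide), dif_neg (by decide)]

omit hrc in
theorem comp_add (a b : CoT B) (I : Finset (Fin 3)) :
    comp r (a + b) I = comp r a I + comp r b I := by
  unfold comp
  split_ifs
  · exact map_add _ _ _
  · exact map_add _ _ _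
  · exact map_add _ _ _
  · exact map_add _ _ _
  · exact map_add _ _ _
  · exact map_add _ _ _
  · exact map_add _ _ _
  · exact (add_zero _).symm

omit hrc in
theorem comp_smul (s : k) (b : CoT B) (I : Finset (Fin 3)) :
    comp r (s • b) I = s • comp r b I := by
  unfold comp
  split_ifs
  · exact map_smul _ _ _
  · exact map_smul _ _ _
  · exact map_smul _ _ _
  · exact map_smul _ _ _
  · exact map_smul _ _ _
  · exact map_smul _ _ _
  · exact map_smul _ _ _
  · exact (smul_zero _).symm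

/-- the components as a linear map -/
def compL : CoT B →ₗ[k] ∀ I : Finset (Fin 3), B ↑I where
  toFun := comp r
  map_add' := fun a b => funext fun I => comp_add r a b I
  map_smul' := fun s b => funext fun I => comp_smul r s b I

omit hrc in
theorem comp_0 (b : CoT B) : comp r b {0} = r (e0 rfl) b.1.1.1 := by
  rw [comp, dif_pos rfl]

omit hrc in
theorem comp_1 (b : CoT B) : comp r b {1} = r (e1 rfl) b.1.1.2.1 := by
  rw [comp, dif_neg (by decide), dif_pos rfl]

omit hrc in
theorem comp_2 (b : CoT B) : comp r b {2} = r (e2 rfl) b.1.1.2.2 := by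
  rw [comp, dif_neg (by decide), dif_neg (by decide), dif_pos rfl]

omit hrc in
theorem comp_01 (b : CoT B) : comp r b {0, 1} = r (e01 rfl) b.1.2.1 := by
  rw [comp, dif_neg (by decide), dif_neg (by decide), dif_neg (by decide), dif_pos rfl]

omit hrc in
theorem comp_02 (b : CoT B) : comp r b {0, 2} = r (e02 rfl) b.1.2.2.1 := by
  rw [comp, dif_neg (by decide), dif_neg (by decide), dif_neg (by decide), dif_neg (by decide),
    dif_pos rfl]

omit hrc in
theorem comp_12 (b : CoT B) : comp r b {1, 2} = r (e12 rfl) b.1.2.2.2 := by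
  rw [comp, dif_neg (by decide), dif_neg (by decide), dif_neg (by decide), dif_neg (by decide),
    dif_neg (by decide), dif_pos rfl]

omit hrc in
theorem comp_u (b : CoT B) : comp r b {0, 1, 2} = r (eu rfl) b.2 := by
  rw [comp, dif_neg (by decide), dif_neg (by decide), dif_neg (by decide), dif_neg (by decide),
    dif_neg (by decide), dif_neg (by decide), dif_pos rfl]

/-- The product in components. -/
theorem comp_cup (a b : CoT B) (I : Finset (Fin 3)) : comp r (cup3 r a b) I =
    ∑ i ∈ I, r (Finset.coe_subset.2 (Finset.filter_subset (· ≤ i) I)) (comp r a _) *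
      r (Finset.coe_subset.2 (Finset.filter_subset (i ≤ ·) I)) (comp r b _) := by
  rcases all8 I with rfl | rfl | rfl | rfl | rfl | rfl | rfl | rfl
  · rw [comp_empty, Finset.sum_empty]
  · rw [Finset.sum_singleton, comp_0,
      c0 r hrc a _ (by decide : ({0} : Finset (Fin 3)).filter (· ≤ 0) = {0}),
      c0 r hrc b _ (by decide : ({0} : Finset (Fin 3)).filter (0 ≤ ·) = {0}), ← map_mul]
    rfl
  · rw [Finset.sum_singleton, comp_1,
      c1 r hrc a _ (by decide : ({1} : Finset (Fin 3)).filter (· ≤ 1) = {1}),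
      c1 r hrc b _ (by decide : ({1} : Finset (Fin 3)).filter (1 ≤ ·) = {1}), ← map_mul]
    rfl
  · rw [Finset.sum_singleton, comp_2,
      c2 r hrc a _ (by decide : ({2} : Finset (Fin 3)).filter (· ≤ 2) = {2}),
      c2 r hrc b _ (by decide : ({2} : Finset (Fin 3)).filter (2 ≤ ·) = {2}), ← map_mul]
    rfl
  · rw [Finset.sum_pair (by decide), comp_01,
      c0 r hrc a _ (by decide : ({0, 1} : Finset (Fin 3)).filter (· ≤ 0) = {0}),
      c01 r hrc b _ (by decide : ({0, 1} : Finset (Fin 3)).filter (0 ≤ ·) = {0, 1}),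
      c01 r hrc a _ (by decide : ({0, 1} : Finset (Fin 3)).filter (· ≤ 1) = {0, 1}),
      c1 r hrc b _ (by decide : ({0, 1} : Finset (Fin 3)).filter (1 ≤ ·) = {1})]
    change r _ (r s0_01 a.1.1.1 * b.1.2.1 + a.1.2.1 * r s1_01 b.1.1.2.1) = _
    rw [map_add, map_mul, map_mul, hrc, hrc]
  · rw [Finset.sum_pair (by decide), comp_02,
      c0 r hrc a _ (by decide : ({0, 2} : Finset (Fin 3)).filter (· ≤ 0) = {0}),
      c02 r hrc b _ (by decide : ({0, 2} : Finset (Fin 3)).filter (0 ≤ ·) = {0, 2}),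
      c02 r hrc a _ (by decide : ({0, 2} : Finset (Fin 3)).filter (· ≤ 2) = {0, 2}),
      c2 r hrc b _ (by decide : ({0, 2} : Finset (Fin 3)).filter (2 ≤ ·) = {2})]
    change r _ (r s0_02 a.1.1.1 * b.1.2.2.1 + a.1.2.2.1 * r s2_02 b.1.1.2.2) = _
    rw [map_add, map_mul, map_mul, hrc, hrc]
  · rw [Finset.sum_pair (by decide), comp_12,
      c1 r hrc a _ (by decide : ({1, 2} : Finset (Fin 3)).filter (· ≤ 1) = {1}),
      c12 r hrc b _ (by decide : ({1, 2} : Finset (Fin 3)).filter (1 ≤ ·) = {1, 2}),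
      c12 r hrc a _ (by decide : ({1, 2} : Finset (Fin 3)).filter (· ≤ 2) = {1, 2}),
      c2 r hrc b _ (by decide : ({1, 2} : Finset (Fin 3)).filter (2 ≤ ·) = {2})]
    change r _ (r s1_12 a.1.1.2.1 * b.1.2.2.2 + a.1.2.2.2 * r s2_12 b.1.1.2.2) = _
    rw [map_add, map_mul, map_mul, hrc, hrc]
  · rw [Finset.sum_insert (by decide), Finset.sum_pair (by decide), comp_u,
      c0 r hrc a _ (by decide : ({0, 1, 2} : Finset (Fin 3)).filter (· ≤ 0) = {0}),
      cu r hrc b _ (by decide : ({0, 1, 2} : Finset (Fin 3)).filter (0 ≤ ·) = {0, 1, 2}),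
      c01 r hrc a _ (by decide : ({0, 1, 2} : Finset (Fin 3)).filter (· ≤ 1) = {0, 1}),
      c12 r hrc b _ (by decide : ({0, 1, 2} : Finset (Fin 3)).filter (1 ≤ ·) = {1, 2}),
      cu r hrc a _ (by decide : ({0, 1, 2} : Finset (Fin 3)).filter (· ≤ 2) = {0, 1, 2}),
      c2 r hrc b _ (by decide : ({0, 1, 2} : Finset (Fin 3)).filter (2 ≤ ·) = {2})]
    change r _ (r (s_u _) a.1.1.1 * b.2 + r (s_u _) a.1.2.1 * r (s_u _) b.1.2.2.2 +
      a.2 * r (s_u _) b.1.1.2.2) = _
    rw [map_add, map_add, map_mul, map_mul, map_mul, hrc, hrc, hrc, hrc, add_assoc]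

/-- The differential in components. -/
theorem comp_dif (a : CoT B) (I : Finset (Fin 3)) : comp r (dif3 r a) I =
    ∑ i ∈ I, (-1 : ℤ) ^ (I.filter (· < i)).card •
      r (Finset.coe_subset.2 (Finset.erase_subset i I)) (comp r a _) := by
  rcases all8 I with rfl | rfl | rfl | rfl | rfl | rfl | rfl | rfl
  · rw [comp_empty, Finset.sum_empty]
  · rw [Finset.sum_singleton, comp_0,
      cn r a _ (by decide : ({0} : Finset (Fin 3)).erase 0 = ∅), smul_zero]
    exact map_zero _
  · rw [Finset.sum_singleton, comp_1,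
      cn r a _ (by decide : ({1} : Finset (Fin 3)).erase 1 = ∅), smul_zero]
    exact map_zero _
  · rw [Finset.sum_singleton, comp_2,
      cn r a _ (by decide : ({2} : Finset (Fin 3)).erase 2 = ∅), smul_zero]
    exact map_zero _
  · rw [Finset.sum_pair (by decide), comp_01,
      c1 r hrc a _ (by decide : ({0, 1} : Finset (Fin 3)).erase 0 = {1}),
      c0 r hrc a _ (by decide : ({0, 1} : Finset (Fin 3)).erase 1 = {0}),
      (by decide : (({0, 1} : Finset (Fin 3)).filter (· < 0)).card = 0),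
      (by decide : (({0, 1} : Finset (Fin 3)).filter (· < 1)).card = 1),
      pow_zero, pow_one, one_smul, neg_smul, one_smul, ← sub_eq_add_neg]
    change r _ (r s1_01 a.1.1.2.1 - r s0_01 a.1.1.1) = _
    rw [map_sub, hrc, hrc]
  · rw [Finset.sum_pair (by decide), comp_02,
      c2 r hrc a _ (by decide : ({0, 2} : Finset (Fin 3)).erase 0 = {2}),
      c0 r hrc a _ (by decide : ({0, 2} : Finset (Fin 3)).erase 2 = {0}),
      (by decide : (({0, 2} : Finset (Fin 3)).filter (· < 0)).card = 0),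
      (by decide : (({0, 2} : Finset (Fin 3)).filter (· < 2)).card = 1),
      pow_zero, pow_one, one_smul, neg_smul, one_smul, ← sub_eq_add_neg]
    change r _ (r s2_02 a.1.1.2.2 - r s0_02 a.1.1.1) = _
    rw [map_sub, hrc, hrc]
  · rw [Finset.sum_pair (by decide), comp_12,
      c2 r hrc a _ (by decide : ({1, 2} : Finset (Fin 3)).erase 1 = {2}),
      c1 r hrc a _ (by decide : ({1, 2} : Finset (Fin 3)).erase 2 = {1}),
      (by decide : (({1, 2} : Finset (Fin 3)).filter (· < 1)).card = 0),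
      (by decide : (({1, 2} : Finset (Fin 3)).filter (· < 2)).card = 1),
      pow_zero, pow_one, one_smul, neg_smul, one_smul, ← sub_eq_add_neg]
    change r _ (r s2_12 a.1.1.2.2 - r s1_12 a.1.1.2.1) = _
    rw [map_sub, hrc, hrc]
  · rw [Finset.sum_insert (by decide), Finset.sum_pair (by decide), comp_u,
      c12 r hrc a _ (by decide : ({0, 1, 2} : Finset (Fin 3)).erase 0 = {1, 2}),
      c02 r hrc a _ (by decide : ({0, 1, 2} : Finset (Fin 3)).erase 1 = {0, 2}),
      c01 r hrc a _ (by decide : ({0, 1, 2} : Finset (Fin 3)).erase 2 = {0, 1}),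
      (by decide : (({0, 1, 2} : Finset (Fin 3)).filter (· < 0)).card = 0),
      (by decide : (({0, 1, 2} : Finset (Fin 3)).filter (· < 1)).card = 1),
      (by decide : (({0, 1, 2} : Finset (Fin 3)).filter (· < 2)).card = 2),
      pow_zero, pow_one, one_smul, neg_smul, one_smul, neg_one_sq, one_smul, ← add_assoc,
      ← sub_eq_add_neg]
    change r _ (r (s_u _) a.1.2.2.2 - r (s_u _) a.1.2.2.1 + r (s_u _) a.1.2.1) = _
    rw [map_add, map_sub, hrc, hrc, hrc]

omit hrc in
/-- The unit in components. -/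
theorem comp_one (I : Finset (Fin 3)) :
    comp r (((1, 1, 1), (0, 0, 0)), 0) I = if I.card = 1 then 1 else 0 := by
  rcases all8 I with rfl | rfl | rfl | rfl | rfl | rfl | rfl | rfl
  · rw [comp_empty, if_neg (by decide)]
  · rw [comp_0, if_pos (by decide)]
    exact map_one _
  · rw [comp_1, if_pos (by decide)]
    exact map_one _
  · rw [comp_2, if_pos (by decide)]
    exact map_one _
  · rw [comp_01, if_neg (by decide)]
    exact map_zero _
  · rw [comp_02, if_neg (by decide)]
    exact map_zero _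
  · rw [comp_12, if_neg (by decide)]
    exact map_zero _
  · rw [comp_u, if_neg (by decide)]
    exact map_zero _

end

end Pool.Agent.MP_6e5bed_ag_P2
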