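import Pool.Agent.Lib.MP_6e5bed_ag_NS.StP3
import Pool.Agent.Lib.MP_6e5bed_ag_NS.StC

set_option autoImplicit false

/-!
# MP_6e5bed_ag, NC SURFACES: the two descriptions of Čech dg algebras are equivalent
-/

noncomputable section

namespace Pool.Agent.MP_6e5bed_ag_P2

open Pool.Agent.MP_6e5bed_ag_SP Pool.Agent.MP_6e5bed_ag_NC

universe u

theorem f0 : ((({0} : Finset (Fin 3)) : Set (Fin 3))) ⊆ {0} := (Finset.coe_singleton 0).le

theorem f1 : ((({1} : Finset (Fin 3)) : Set (Fin 3))) ⊆ {1} := (Finset.coe_singleton 1).le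

theorem f2 : ((({2} : Finset (Fin 3)) : Set (Fin 3))) ⊆ {2} := (Finset.coe_singleton 2).le

theorem f01 : ((({0, 1} : Finset (Fin 3)) : Set (Fin 3))) ⊆ {0, 1} := by
  rw [Finset.coe_insert, Finset.coe_singleton]

theorem f02 : ((({0, 2} : Finset (Fin 3)) : Set (Fin 3))) ⊆ {0, 2} := by
  rw [Finset.coe_insert, Finset.coe_singleton]

theorem f12 : ((({1, 2} : Finset (Fin 3)) : Set (Fin 3))) ⊆ {1, 2} := by
  rw [Finset.coe_insert, Finset.coe_singleton]

variable {k : Type u} [CommRing k] {B : Set (Fin 3) → Type u} [∀ I, Ring (B I)]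
  [∀ I, Algebra k (B I)]

section

variable (r : ∀ {I J : Set (Fin 3)}, I ⊆ J → B I →ₐ[k] B J)

/-- the cochain with given components -/
def dec : (∀ I : Finset (Fin 3), B ↑I) →ₗ[k] CoT B where
  toFun := fun c => (((r f0 (c {0}), r f1 (c {1}), r f2 (c {2})),
    (r f01 (c {0, 1}), r f02 (c {0, 2}), r f12 (c {1, 2}))),
    r (Set.subset_univ _) (c {0, 1, 2}))
  map_add' := fun c c' => by
    refine Prod.ext (Prod.ext (Prod.ext ?_ (Prod.ext ?_ ?_)) (Prod.ext ?_ (Prod.ext ?_ ?_))) ?_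
    all_goals exact map_add _ _ _
  map_smul' := fun s c => by
    refine Prod.ext (Prod.ext (Prod.ext ?_ (Prod.ext ?_ ?_)) (Prod.ext ?_ (Prod.ext ?_ ?_))) ?_
    all_goals exact map_smul _ _ _

variable (hr0 : ∀ (I : Set (Fin 3)) (h : I ⊆ I) (b : B I), r h b = b)
  (hrc : ∀ (I J K : Set (Fin 3)) (h1 : I ⊆ J) (h2 : J ⊆ K) (b : B I),
    r h2 (r h1 b) = r (h1.trans h2) b)

include hr0 hrc

theorem comp_dec (c : ∀ I : Finset (Fin 3), B ↑I) (hc : c ∅ = 0) (I : Finset (Fin 3)) :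
    comp r (dec r c) I = c I := by
  rcases all8 I with rfl | rfl | rfl | rfl | rfl | rfl | rfl | rfl
  · rw [comp_empty, hc]
  · rw [comp_0]
    exact (hrc _ _ _ f0 (e0 rfl) _).trans (hr0 _ _ _)
  · rw [comp_1]
    exact (hrc _ _ _ f1 (e1 rfl) _).trans (hr0 _ _ _)
  · rw [comp_2]
    exact (hrc _ _ _ f2 (e2 rfl) _).trans (hr0 _ _ _)
  · rw [comp_01]
    exact (hrc _ _ _ f01 (e01 rfl) _).trans (hr0 _ _ _)
  · rw [comp_02]
    exact (hrc _ _ _ f02 (e02 rfl) _).trans (hr0 _ _ _)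
  · rw [comp_12]
    exact (hrc _ _ _ f12 (e12 rfl) _).trans (hr0 _ _ _)
  · rw [comp_u]
    exact (hrc _ _ _ (Set.subset_univ _) (eu rfl) _).trans (hr0 _ _ _)

theorem dec_comp (b : CoT B) : dec r (comp r b) = b := by
  refine Prod.ext (Prod.ext (Prod.ext ?_ (Prod.ext ?_ ?_)) (Prod.ext ?_ (Prod.ext ?_ ?_))) ?_
  · exact (c0 r hrc b f0 rfl).trans (hr0 _ _ _)
  · exact (c1 r hrc b f1 rfl).trans (hr0 _ _ _)
  · exact (c2 r hrc b f2 rfl).trans (hr0 _ _ _)
  · exact (c01 r hrc b f01 rfl).trans (hr0 _ _ _)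
  · exact (c02 r hrc b f02 rfl).trans (hr0 _ _ _)
  · exact (c12 r hrc b f12 rfl).trans (hr0 _ _ _)
  · exact (cu r hrc b (Set.subset_univ _) rfl).trans (hr0 _ _ _)

theorem comp_inj {b b' : CoT B} (h : comp r b = comp r b') : b = b' := by
  rw [← dec_comp r hr0 hrc b, h, dec_comp r hr0 hrc b']

omit hr0 hrc in
theorem comp_zero' (I : Finset (Fin 3)) : comp r (0 : CoT B) I = 0 :=
  congrFun (map_zero (compL r)) I

theorem comp_eq_zero {b : CoT B} (I : Finset (Fin 3)) (h : comp r b I = 0) :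
    (I = {0} → b.1.1.1 = 0) ∧ (I = {1} → b.1.1.2.1 = 0) ∧ (I = {2} → b.1.1.2.2 = 0) ∧
    (I = {0, 1} → b.1.2.1 = 0) ∧ (I = {0, 2} → b.1.2.2.1 = 0) ∧
    (I = {1, 2} → b.1.2.2.2 = 0) ∧ (I = {0, 1, 2} → b.2 = 0) := by
  refine ⟨?_, ?_, ?_, ?_, ?_, ?_, ?_⟩
  · rintro rfl
    have h1 := (c0 r hrc b f0 rfl).trans (hr0 _ _ _)
    rw [← h1, h, map_zero]
  · rintro rfl
    have h1 := (c1 r hrc b f1 rfl).trans (hr0 _ _ _)
    rw [← h1, h, map_zero]
  · rintro rfl
    have h1 := (c2 r hrc b f2 rfl).trans (hr0 _ _ _)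
    rw [← h1, h, map_zero]
  · rintro rfl
    have h1 := (c01 r hrc b f01 rfl).trans (hr0 _ _ _)
    rw [← h1, h, map_zero]
  · rintro rfl
    have h1 := (c02 r hrc b f02 rfl).trans (hr0 _ _ _)
    rw [← h1, h, map_zero]
  · rintro rfl
    have h1 := (c12 r hrc b f12 rfl).trans (hr0 _ _ _)
    rw [← h1, h, map_zero]
  · rintro rfl
    have h1 := (cu r hrc b (Set.subset_univ _) rfl).trans (hr0 _ _ _)
    rw [← h1, h, map_zero]

/-- the components of degree `n` -/
theorem comp_gr0 (b : CoT B) : (∀ I, comp r b I ≠ 0 → ((I.card : ℕ) : ℤ) = 0 + 1) ↔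
    b.1.2 = 0 ∧ b.2 = 0 := by
  constructor
  · intro h
    have key : ∀ I : Finset (Fin 3), ((I.card : ℕ) : ℤ) ≠ 0 + 1 → comp r b I = 0 := fun I hI => by
      by_contra hcon
      exact hI (h I hcon)
    refine ⟨Prod.ext ?_ (Prod.ext ?_ ?_), ?_⟩
    · exact (comp_eq_zero r hr0 hrc {0, 1} (key _ (by decide))).2.2.2.1 rfl
    · exact (comp_eq_zero r hr0 hrc {0, 2} (key _ (by decide))).2.2.2.2.1 rfl
    · exact (comp_eq_zero r hr0 hrc {1, 2} (key _ (by decide))).2.2.2.2.2.1 rfl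
    · exact (comp_eq_zero r hr0 hrc {0, 1, 2} (key _ (by decide))).2.2.2.2.2.2 rfl
  · rintro ⟨h1, h2⟩ I hI
    rcases all8 I with rfl | rfl | rfl | rfl | rfl | rfl | rfl | rfl
    · exact absurd (comp_empty r b) hI
    · decide
    · decide
    · decide
    · exact absurd (by rw [comp_01, h1]; exact map_zero _) hI
    · exact absurd (by rw [comp_02, h1]; exact map_zero _) hI
    · exact absurd (by rw [comp_12, h1]; exact map_zero _) hI
    · exact absurd (by rw [comp_u, h2]; exact map_zero _) hI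

theorem comp_gr1 (b : CoT B) : (∀ I, comp r b I ≠ 0 → ((I.card : ℕ) : ℤ) = 1 + 1) ↔
    b.1.1 = 0 ∧ b.2 = 0 := by
  constructor
  · intro h
    have key : ∀ I : Finset (Fin 3), ((I.card : ℕ) : ℤ) ≠ 1 + 1 → comp r b I = 0 := fun I hI => by
      by_contra hcon
      exact hI (h I hcon)
    refine ⟨Prod.ext ?_ (Prod.ext ?_ ?_), ?_⟩
    · exact (comp_eq_zero r hr0 hrc {0} (key _ (by decide))).1 rfl
    · exact (comp_eq_zero r hr0 hrc {1} (key _ (by decide))).2.1 rfl
    · exact (comp_eq_zero r hr0 hrc {2} (key _ (by decide))).2.2.1 rfl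
    · exact (comp_eq_zero r hr0 hrc {0, 1, 2} (key _ (by decide))).2.2.2.2.2.2 rfl
  · rintro ⟨h1, h2⟩ I hI
    rcases all8 I with rfl | rfl | rfl | rfl | rfl | rfl | rfl | rfl
    · exact absurd (comp_empty r b) hI
    · exact absurd (by rw [comp_0, h1]; exact map_zero _) hI
    · exact absurd (by rw [comp_1, h1]; exact map_zero _) hI
    · exact absurd (by rw [comp_2, h1]; exact map_zero _) hI
    · decide
    · decide
    · decide
    · exact absurd (by rw [comp_u, h2]; exact map_zero _) hI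

theorem comp_gr2 (b : CoT B) : (∀ I, comp r b I ≠ 0 → ((I.card : ℕ) : ℤ) = 2 + 1) ↔
    b.1.1 = 0 ∧ b.1.2 = 0 := by
  constructor
  · intro h
    have key : ∀ I : Finset (Fin 3), ((I.card : ℕ) : ℤ) ≠ 2 + 1 → comp r b I = 0 := fun I hI => by
      by_contra hcon
      exact hI (h I hcon)
    refine ⟨Prod.ext ?_ (Prod.ext ?_ ?_), Prod.ext ?_ (Prod.ext ?_ ?_)⟩
    · exact (comp_eq_zero r hr0 hrc {0} (key _ (by decide))).1 rfl
    · exact (comp_eq_zero r hr0 hrc {1} (key _ (by decide))).2.1 rfl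
    · exact (comp_eq_zero r hr0 hrc {2} (key _ (by decide))).2.2.1 rfl
    · exact (comp_eq_zero r hr0 hrc {0, 1} (key _ (by decide))).2.2.2.1 rfl
    · exact (comp_eq_zero r hr0 hrc {0, 2} (key _ (by decide))).2.2.2.2.1 rfl
    · exact (comp_eq_zero r hr0 hrc {1, 2} (key _ (by decide))).2.2.2.2.2.1 rfl
  · rintro ⟨h1, h2⟩ I hI
    rcases all8 I with rfl | rfl | rfl | rfl | rfl | rfl | rfl | rfl
    · exact absurd (comp_empty r b) hI
    · exact absurd (by rw [comp_0, h1]; exact map_zero _) hI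
    · exact absurd (by rw [comp_1, h1]; exact map_zero _) hI
    · exact absurd (by rw [comp_2, h1]; exact map_zero _) hI
    · exact absurd (by rw [comp_01, h2]; exact map_zero _) hI
    · exact absurd (by rw [comp_02, h2]; exact map_zero _) hI
    · exact absurd (by rw [comp_12, h2]; exact map_zero _) hI
    · decide

end

section

variable {k : Type u} [Field k] {B : Set (Fin 3) → Type u} [∀ I, Ring (B I)]
  [∀ I, Algebra k (B I)] (r : ∀ {I J : Set (Fin 3)}, I ⊆ J → B I →ₐ[k] B J)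
  (hr0 : ∀ (I : Set (Fin 3)) (h : I ⊆ I) (b : B I), r h b = b)
  (hrc : ∀ (I J K : Set (Fin 3)) (h1 : I ⊆ J) (h2 : J ⊆ K) (b : B I),
    r h2 (r h1 b) = r (h1.trans h2) b)
  {T : Type u} [Ring T] [Algebra k T] {X : DG k T}

/-- the restrictions for finite sets of indices -/
def rF (I J : Finset (Fin 3)) (h : I ⊆ J) : B ↑I →ₐ[k] B ↑J := r (Finset.coe_subset.2 h)

include hr0 hrc

/-- From finite sets of indices to components. -/
theorem IsCech.to3 {e : T →ₗ[k] ∀ I : Finset (Fin 3), B ↑I} (h : IsCech (rF r) X e) :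
    ∃ E : T ≃ₗ[k] CoT B, IsCech3 r X E := by
  have hz : ∀ t, e t ∅ = 0 := fun t => (h.range (e t)).1 ⟨t, rfl⟩
  have hc : ∀ t, comp r (dec r (e t)) = e t := fun t =>
    funext fun I => comp_dec r hr0 hrc (e t) (hz t) I
  have hb : Function.Bijective ((dec r) ∘ₗ e) := by
    constructor
    · intro t t' ht
      apply h.inj
      rw [← hc t, ← hc t']
      exact congrArg (comp r) ht
    · intro b
      obtain ⟨t, ht⟩ := (h.range (comp r b)).2 (comp_empty r b)
      refine ⟨t, ?_⟩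
      change dec r (e t) = b
      rw [ht, dec_comp r hr0 hrc]
  have hE : ∀ t, comp r (LinearEquiv.ofBijective ((dec r) ∘ₗ e) hb t) = e t := hc
  refine ⟨LinearEquiv.ofBijective ((dec r) ∘ₗ e) hb, ?_, fun a b => ?_, fun a => ?_, fun a => ?_,
    fun a => ?_, fun a => ?_⟩
  · apply comp_inj r hr0 hrc
    rw [hE]
    funext I
    rw [h.one, comp_one]
  · apply comp_inj r hr0 hrc
    rw [hE]
    funext I
    rw [h.mul, comp_cup r hrc, hE, hE]
    rfl
  · rw [h.gr, ← comp_gr0 r hr0 hrc, hE]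
  · rw [h.gr, ← comp_gr1 r hr0 hrc, hE]
  · rw [h.gr, ← comp_gr2 r hr0 hrc, hE]
  · apply comp_inj r hr0 hrc
    rw [hE]
    funext I
    rw [h.d, comp_dif r hrc, hE]
    rfl

omit hr0 hrc in
private theorem StP4_ne {V : Type u} [AddCommGroup V] [Module k V]
    (X : Pool.Agent.MP_6e5bed_ag_SP.Cx k V) {n : ℤ} (h0 : n ≠ 0) (h1 : n ≠ 1) (h2 : n ≠ 2)
    {v v0 v1 v2 : V} (hv : v ∈ X.gr n)
    (hv0 : v0 ∈ X.gr 0) (hv1 : v1 ∈ X.gr 1) (hv2 : v2 ∈ X.gr 2) (h : v = v0 + v1 + v2) :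
    v = 0 := by
  have e : X.toDg.ρ v = Finsupp.single n v := ((Cx.toDg_rep X).mem n v).1 hv
  have e0 : X.toDg.ρ v0 = Finsupp.single 0 v0 := ((Cx.toDg_rep X).mem 0 v0).1 hv0
  have e1 : X.toDg.ρ v1 = Finsupp.single 1 v1 := ((Cx.toDg_rep X).mem 1 v1).1 hv1
  have e2 : X.toDg.ρ v2 = Finsupp.single 2 v2 := ((Cx.toDg_rep X).mem 2 v2).1 hv2
  have h3 : X.toDg.ρ v = X.toDg.ρ v0 + X.toDg.ρ v1 + X.toDg.ρ v2 := by
    rw [← map_add, ← map_add, ← h]
  rw [e, e0, e1, e2] at h3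
  have h4 := DFunLike.congr_fun h3 n
  rw [Finsupp.add_apply, Finsupp.add_apply, Finsupp.single_eq_same,
    Finsupp.single_eq_of_ne h0, Finsupp.single_eq_of_ne h1, Finsupp.single_eq_of_ne h2,
    add_zero, add_zero] at h4
  exact h4

/-- From components to finite sets of indices. -/
theorem cech_of3 {E : T ≃ₗ[k] CoT B} (h : IsCech3 r X E) :
    ∃ e : T →ₗ[k] ∀ I : Finset (Fin 3), B ↑I, IsCech (rF r) X e := by
  have hE : ∀ t, (compL r ∘ₗ E.toLinearMap) t = comp r (E t) := fun t => rfl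
  have hd0 : ∀ v : T, E.symm (((E v).1.1, 0), 0) ∈ X.gr 0 := fun v => by
    rw [h.gr0, E.apply_symm_apply]
    exact ⟨rfl, rfl⟩
  have hd1 : ∀ v : T, E.symm ((0, (E v).1.2), 0) ∈ X.gr 1 := fun v => by
    rw [h.gr1, E.apply_symm_apply]
    exact ⟨rfl, rfl⟩
  have hd2 : ∀ v : T, E.symm ((0, 0), (E v).2) ∈ X.gr 2 := fun v => by
    rw [h.gr2, E.apply_symm_apply]
    exact ⟨rfl, rfl⟩
  have hsum : ∀ v : T, v = E.symm (((E v).1.1, 0), 0) + E.symm ((0, (E v).1.2), 0) +
      E.symm ((0, 0), (E v).2) := fun v => by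
    rw [← map_add, ← map_add]
    apply E.injective
    rw [E.apply_symm_apply]
    refine Prod.ext (Prod.ext ?_ ?_) ?_
    · change (E v).1.1 = (E v).1.1 + 0 + 0
      rw [add_zero, add_zero]
    · change (E v).1.2 = 0 + (E v).1.2 + 0
      rw [add_zero, zero_add]
    · change (E v).2 = 0 + 0 + (E v).2
      rw [add_zero, zero_add]
  refine ⟨compL r ∘ₗ E.toLinearMap, ?_, fun c => ?_, fun I => ?_, fun a b I => ?_, fun n a => ?_,
    fun a I => ?_⟩
  · intro t t' ht
    exact E.injective (comp_inj r hr0 hrc ht)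
  · constructor
    · rintro ⟨t, rfl⟩
      exact comp_empty r (E t)
    · intro hc
      refine ⟨E.symm (dec r c), ?_⟩
      rw [hE, E.apply_symm_apply]
      exact funext fun I => comp_dec r hr0 hrc c hc I
  · rw [hE, h.one, comp_one]
  · rw [hE, h.mul, comp_cup r hrc]
    rfl
  · rw [hE]
    by_cases h0 : n = 0
    · subst h0
      rw [comp_gr0 r hr0 hrc]
      exact h.gr0 a
    by_cases h1 : n = 1
    · subst h1
      rw [comp_gr1 r hr0 hrc]
      exact h.gr1 a
    by_cases h2 : n = 2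
    · subst h2
      rw [comp_gr2 r hr0 hrc]
      exact h.gr2 a
    constructor
    · intro ha I hI
      have h3 := StP4_ne X.toCx h0 h1 h2 ha (hd0 a) (hd1 a) (hd2 a) (hsum a)
      rw [h3, map_zero] at hI
      exact absurd (comp_zero' r I) hI
    · intro ha
      have h3 : ∀ I, comp r (E a) I = 0 := fun I => by
        by_contra hcon
        have h4 := ha I hcon
        have h5 : I.card ≤ 3 := (Finset.card_le_univ I).trans (by simp)
        have h6 : I ≠ ∅ := by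
          rintro rfl
          exact hcon (comp_empty r _)
        have h7 : 0 < I.card := Finset.card_pos.2 (Finset.nonempty_iff_ne_empty.2 h6)
        omega
      have h4 : a = 0 := by
        apply E.injective
        apply comp_inj r hr0 hrc
        rw [map_zero]
        funext I
        rw [h3, comp_zero']
      rw [h4]
      exact Submodule.zero_mem _
  · rw [hE, h.d, comp_dif r hrc]
    rfl

end

end Pool.Agent.MP_6e5bed_ag_P2
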