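import Pool.Agent.Lib.MP_6e5bed_ag_NS.StP2
import Pool.Agent.Lib.MP_6e5bed_ag_NS.GrA

set_option autoImplicit false

/-!
# MP_6e5bed_ag, NC SURFACES: the sections of `Γ~` are unique
-/

noncomputable section

namespace Pool.Agent.MP_6e5bed_ag_P2

open MvPolynomial Pool.Agent.MP_6e5bed_ag_SP Pool.Agent.MP_6e5bed_ag_NS

universe u

variable {k Γ : Type u} [Field k] [Ring Γ] [Algebra k Γ] [Algebra (MvPolynomial (Fin 3) k) Γ]
  [IsScalarTower k (MvPolynomial (Fin 3) k) Γ] {𝒢 : ℕ → Submodule k Γ}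

/-- the product of the coordinates -/
def xp (k : Type u) [Field k] (I : Finset (Fin 3)) : MvPolynomial (Fin 3) k := ∏ i ∈ I, X i

theorem xp_hom (I : Finset (Fin 3)) : (xp k I).IsHomogeneous I.card := by
  have h1 := IsHomogeneous.prod I (fun i => (X i : MvPolynomial (Fin 3) k)) (fun _ => 1)
    (fun i _ => isHomogeneous_X k i)
  rw [Finset.sum_const, smul_eq_mul, mul_one] at h1
  exact h1

theorem xp_pow (I : Finset (Fin 3)) (n : ℕ) : (xp k I ^ n).IsHomogeneous (n * I.card) := by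
  have h1 := (xp_hom (k := k) I).pow n
  rwa [Nat.mul_comm] at h1

theorem xp_mem (h : IsGrAlg 𝒢) {I : Finset (Fin 3)} {n m : ℕ} {a : Γ}
    (ha : a ∈ 𝒢 (n * I.card)) : xp k I ^ m • a ∈ 𝒢 ((n + m) * I.card) := by
  have h1 := h.smul (xp_pow I m) ha
  rwa [← Nat.add_mul, Nat.add_comm] at h1

variable {B B' : Finset (Fin 3) → Type u} [∀ I, Ring (B I)] [∀ I, Algebra k (B I)]
  [∀ I, Ring (B' I)] [∀ I, Algebra k (B' I)]
  {r : ∀ I J : Finset (Fin 3), I ⊆ J → B I →ₐ[k] B J} {q : ∀ I : Finset (Fin 3), ℕ → Γ → B I}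
  {r' : ∀ I J : Finset (Fin 3), I ⊆ J → B' I →ₐ[k] B' J}
  {q' : ∀ I : Finset (Fin 3), ℕ → Γ → B' I}

omit [IsScalarTower k (MvPolynomial (Fin 3) k) Γ] in
theorem IsSec.q_zero (hq : IsSec 𝒢 r q) (I : Finset (Fin 3)) (n : ℕ) : q I n 0 = 0 := by
  have h1 := hq.add I n 0 0 (Submodule.zero_mem _) (Submodule.zero_mem _)
  rw [add_zero] at h1
  exact left_eq_add.1 h1

omit [IsScalarTower k (MvPolynomial (Fin 3) k) Γ] in
theorem IsSec.q_sub (hq : IsSec 𝒢 r q) {I : Finset (Fin 3)} {n : ℕ} {a b : Γ}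
    (ha : a ∈ 𝒢 (n * I.card)) (hb : b ∈ 𝒢 (n * I.card)) :
    q I n (a - b) = q I n a - q I n b := by
  have h1 := hq.add I n (a - b) b (Submodule.sub_mem _ ha hb) hb
  rw [sub_add_cancel] at h1
  rw [h1, add_sub_cancel_right]

theorem IsSec.step_pow (h : IsGrAlg 𝒢) (hq : IsSec 𝒢 r q) {I : Finset (Fin 3)} {n : ℕ} (m : ℕ)
    {a : Γ} (ha : a ∈ 𝒢 (n * I.card)) : q I (n + m) (xp k I ^ m • a) = q I n a := by
  induction m with
  | zero => rw [pow_zero, one_smul, Nat.add_zero]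
  | succ m ih =>
    have h1 := hq.step I (n + m) (xp k I ^ m • a) (xp_mem h ha)
    rw [← ih, ← h1, pow_succ', mul_smul]
    rfl

theorem IsSec.eq_iff (h : IsGrAlg 𝒢) (hq : IsSec 𝒢 r q) {I : Finset (Fin 3)} {n m : ℕ}
    {a b : Γ} (ha : a ∈ 𝒢 (n * I.card)) (hb : b ∈ 𝒢 (m * I.card)) :
    q I n a = q I m b ↔ ∃ l : ℕ, xp k I ^ l • (xp k I ^ m • a - xp k I ^ n • b) = 0 := by
  have h1 := hq.step_pow h m ha
  have h2 := hq.step_pow h n hb
  have hm := xp_mem h (m := m) ha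
  have hn := xp_mem h (m := n) hb
  rw [Nat.add_comm m n] at h2 hn
  constructor
  · intro he
    have h3 := hq.q_sub hm hn
    rw [h1, h2, he, sub_self] at h3
    exact hq.zero I (n + m) _ (Submodule.sub_mem _ hm hn) h3
  · rintro ⟨l, hl⟩
    have h3 := hq.step_pow h l (Submodule.sub_mem _ hm hn)
    rw [hl, hq.q_zero, hq.q_sub hm hn, h1, h2] at h3
    exact (sub_eq_zero.1 h3.symm)

/-- the comparison map -/
def tr (hq : IsSec 𝒢 r q) (q' : ∀ I : Finset (Fin 3), ℕ → Γ → B' I) (I : Finset (Fin 3))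
    (b : B I) : B' I :=
  q' I (hq.surj I b).choose (hq.surj I b).choose_spec.choose

theorem tr_q (h : IsGrAlg 𝒢) (hq : IsSec 𝒢 r q) (hq' : IsSec 𝒢 r' q') {I : Finset (Fin 3)}
    {n : ℕ} {a : Γ} (ha : a ∈ 𝒢 (n * I.card)) : tr hq q' I (q I n a) = q' I n a := by
  obtain ⟨h1, h2⟩ := (hq.surj I (q I n a)).choose_spec.choose_spec
  exact (hq'.eq_iff h h1 ha).2 ((hq.eq_iff h h1 ha).1 h2)

/-- the comparison isomorphism -/
def trE (h : IsGrAlg 𝒢) (hq : IsSec 𝒢 r q) (hq' : IsSec 𝒢 r' q') (I : Finset (Fin 3)) :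
    B I ≃ₐ[k] B' I where
  toFun := tr hq q' I
  invFun := tr hq' q I
  left_inv := fun b => by
    obtain ⟨n, a, ha, rfl⟩ := hq.surj I b
    rw [tr_q h hq hq' ha, tr_q h hq' hq ha]
  right_inv := fun b => by
    obtain ⟨n, a, ha, rfl⟩ := hq'.surj I b
    rw [tr_q h hq' hq ha, tr_q h hq hq' ha]
  map_mul' := fun b c => by
    obtain ⟨n, a, ha, rfl⟩ := hq.surj I b
    obtain ⟨m, a', ha', rfl⟩ := hq.surj I c
    have h1 : a * a' ∈ 𝒢 ((n + m) * I.card) := by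
      rw [Nat.add_mul]
      exact h.mul ha ha'
    rw [← hq.mul I n m a a' ha ha', tr_q h hq hq' h1, tr_q h hq hq' ha, tr_q h hq hq' ha',
      hq'.mul I n m a a' ha ha']
  map_add' := fun b c => by
    obtain ⟨n, a, ha, rfl⟩ := hq.surj I b
    obtain ⟨m, a', ha', rfl⟩ := hq.surj I c
    have hm := xp_mem h (m := m) ha
    have hn := xp_mem h (m := n) ha'
    have e2 := hq.step_pow h n ha'
    have e4 := hq'.step_pow h n ha'
    rw [Nat.add_comm m n] at e2 e4 hn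
    rw [tr_q h hq hq' ha, tr_q h hq hq' ha', ← hq.step_pow h m ha, ← e2, ← hq.add _ _ _ _ hm hn,
      tr_q h hq hq' (Submodule.add_mem _ hm hn), hq'.add _ _ _ _ hm hn, hq'.step_pow h m ha, e4]
  commutes' := fun c => by
    have h1 : algebraMap k Γ c ∈ 𝒢 (0 * I.card) := by
      rw [Nat.zero_mul, Algebra.algebraMap_eq_smul_one]
      exact (𝒢 0).smul_mem c h.one
    rw [← hq.const, tr_q h hq hq' h1, hq'.const]

theorem trE_q (h : IsGrAlg 𝒢) (hq : IsSec 𝒢 r q) (hq' : IsSec 𝒢 r' q') {I : Finset (Fin 3)}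
    {n : ℕ} {a : Γ} (ha : a ∈ 𝒢 (n * I.card)) : trE h hq hq' I (q I n a) = q' I n a :=
  tr_q h hq hq' ha

theorem sdiff_mem (h : IsGrAlg 𝒢) {I J : Finset (Fin 3)} (hIJ : I ⊆ J) {n : ℕ} {a : Γ}
    (ha : a ∈ 𝒢 (n * I.card)) : xp k (J \ I) ^ n • a ∈ 𝒢 (n * J.card) := by
  have h1 := h.smul (xp_pow (J \ I) n) ha
  rwa [← Nat.mul_add, Finset.card_sdiff_add_card_eq_card hIJ] at h1

/-- The comparison isomorphisms commute with the restriction maps. -/
theorem trE_res (h : IsGrAlg 𝒢) (hq : IsSec 𝒢 r q) (hq' : IsSec 𝒢 r' q')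
    {I J : Finset (Fin 3)} (hIJ : I ⊆ J) (b : B I) :
    trE h hq hq' J (r I J hIJ b) = r' I J hIJ (trE h hq hq' I b) := by
  obtain ⟨n, a, ha, rfl⟩ := hq.surj I b
  rw [trE_q h hq hq' ha, hq.res I J hIJ n a ha, hq'.res I J hIJ n a ha]
  exact trE_q h hq hq' (sdiff_mem h hIJ ha)

omit [Algebra (MvPolynomial (Fin 3) k) Γ] [IsScalarTower k (MvPolynomial (Fin 3) k) Γ] in
/-- Transport of Čech dg algebras along isomorphisms. -/
theorem IsCech.map {T : Type u} [Ring T] [Algebra k T] {X : DG k T} {e : T →ₗ[k] ∀ I, B I}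
    (h : IsCech r X e) (ψ : ∀ I, B I ≃ₐ[k] B' I)
    (hψ : ∀ I J (hIJ : I ⊆ J) b, ψ J (r I J hIJ b) = r' I J hIJ (ψ I b)) :
    ∃ e' : T →ₗ[k] ∀ I, B' I, IsCech r' X e' := by
  refine ⟨LinearMap.pi fun I => (ψ I).toLinearMap ∘ₗ (LinearMap.proj I ∘ₗ e), ?_, fun c => ?_,
    fun I => ?_, fun a b I => ?_, fun n a => ?_, fun a I => ?_⟩
  · intro t t' ht
    apply h.inj
    funext I
    exact (ψ I).injective (congrFun ht I)
  · constructor
    · rintro ⟨t, rfl⟩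
      have h1 := (h.range (e t)).1 ⟨t, rfl⟩
      change ψ ∅ (e t ∅) = 0
      rw [h1, map_zero]
    · intro hc
      obtain ⟨t, ht⟩ := (h.range fun I => (ψ I).symm (c I)).2 (by rw [hc, map_zero])
      refine ⟨t, funext fun I => ?_⟩
      change ψ I (e t I) = c I
      rw [ht, AlgEquiv.apply_symm_apply]
  · change ψ I (e 1 I) = _
    rw [h.one]
    split_ifs
    · exact map_one _
    · exact map_zero _
  · change ψ I (e (a * b) I) = _
    rw [h.mul, map_sum]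
    refine Finset.sum_congr rfl fun i _ => ?_
    rw [map_mul, hψ, hψ]
    rfl
  · rw [h.gr]
    refine forall_congr' fun I => ?_
    have h1 : (e a I ≠ 0) ↔ (ψ I (e a I) ≠ 0) := (map_ne_zero_iff (ψ I) (ψ I).injective).symm
    exact imp_congr h1 Iff.rfl
  · change ψ I (e (X.d a) I) = _
    rw [h.d, map_sum]
    refine Finset.sum_congr rfl fun i _ => ?_
    rw [map_zsmul, hψ]
    rfl

end Pool.Agent.MP_6e5bed_ag_P2
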