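import Pool.Agent.Lib.MP_6e5bed_ag_NS.StP5
import Pool.Agent.Lib.MP_6e5bed_ag_NS.StP4
import Pool.Agent.Lib.MP_6e5bed_ag_NS.StE

set_option autoImplicit false

/-!
# MP_6e5bed_ag, NC SURFACES: the sections of `Γ~` as degree zero parts of localisations
-/

noncomputable section

namespace Pool.Agent.MP_6e5bed_ag_P2

open MvPolynomial Pool.Agent.MP_6e5bed_ag_SP Pool.Agent.MP_6e5bed_ag_NS
  Pool.Agent.MP_6e5bed_ag_NC

universe u

variable {k Γ : Type u} [Field k] [Ring Γ] [Algebra k Γ] [Algebra (MvPolynomial (Fin 3) k) Γ]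
  [IsScalarTower k (MvPolynomial (Fin 3) k) Γ] {𝒢 : ℕ → Submodule k Γ}

theorem xp_cl {I J : Finset (Fin 3)} (h : I ⊆ J) (n : ℕ) :
    xp k I ^ n ∈ Submonoid.closure ((X '' (↑J : Set (Fin 3)) : Set (MvPolynomial (Fin 3) k))) := by
  refine pow_mem (Submonoid.prod_mem _ fun i hi => ?_) n
  exact Submonoid.subset_closure ⟨i, h hi, rfl⟩

/-- `x_I ^ n` in the multiplicative set of `J` -/
def xc {I J : Finset (Fin 3)} (h : I ⊆ J) (n : ℕ) :
    Submonoid.closure ((X '' (↑J : Set (Fin 3)) : Set (MvPolynomial (Fin 3) k))) :=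
  ⟨xp k I ^ n, xp_cl h n⟩

theorem cl_dvd {I : Finset (Fin 3)} {u : MvPolynomial (Fin 3) k}
    (hu : u ∈ Submonoid.closure (X '' (↑I : Set (Fin 3)))) :
    ∃ (N : ℕ) (w : MvPolynomial (Fin 3) k), w ∈ Submonoid.closure (X '' (↑I : Set (Fin 3))) ∧
      w * u = xp k I ^ N := by
  induction hu using Submonoid.closure_induction with
  | mem u hu =>
    obtain ⟨i, hi, rfl⟩ := hu
    refine ⟨1, ∏ j ∈ I.erase i, X j, Submonoid.prod_mem _ fun j hj =>
      Submonoid.subset_closure ⟨j, Finset.mem_of_mem_erase hj, rfl⟩, ?_⟩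
    rw [pow_one, mul_comm]
    exact Finset.mul_prod_erase I (fun i => (X i : MvPolynomial (Fin 3) k)) hi
  | one => exact ⟨0, 1, one_mem _, by rw [pow_zero, mul_one]⟩
  | mul u v _ _ hu hv =>
    obtain ⟨N, w, hw, h1⟩ := hu
    obtain ⟨M, w', hw', h2⟩ := hv
    refine ⟨N + M, w * w', mul_mem hw hw', ?_⟩
    rw [pow_add, ← h1, ← h2, mul_mul_mul_comm]

theorem xp_ne (I : Finset (Fin 3)) (n : ℕ) : xp k I ^ n ≠ 0 :=
  pow_ne_zero n (Finset.prod_ne_zero_iff.2 fun i _ => X_ne_zero i)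

/-- the fraction `a / x_I ^ n` -/
def fr (h : IsGrAlg 𝒢) (I : Finset (Fin 3)) (n : ℕ) (a : Γ) : GB h ↑I := by
  classical
  exact if ha : a ∈ 𝒢 (n * I.card) then
    ⟨LocalizedModule.mk a (xc (subset_refl I) n), n * I.card, a, xc (subset_refl I) n, ha,
      xp_pow I n, rfl⟩ else 0

theorem fr_coe (h : IsGrAlg 𝒢) {I : Finset (Fin 3)} {n : ℕ} {a : Γ}
    (ha : a ∈ 𝒢 (n * I.card)) :
    (fr h I n a).1 = LocalizedModule.mk a (xc (subset_refl I) n) := by
  unfold fr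
  rw [dif_pos ha]

omit [Algebra k Γ] [IsScalarTower k (MvPolynomial (Fin 3) k) Γ] in
theorem mk_eq' {s : Set (MvPolynomial (Fin 3) k)} {a b : Γ} {p p' : Submonoid.closure s}
    (w : Submonoid.closure s) (h1 : (w : MvPolynomial (Fin 3) k) • a = b)
    (h2 : (w : MvPolynomial (Fin 3) k) * p = p') :
    (LocalizedModule.mk b p' : Lz Γ s) = LocalizedModule.mk a p := by
  have h3 := LocalizedModule.mk_cancel_common_left w p a
  rw [← h3, ← h1]
  congr 1
  exact Subtype.ext h2.symm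

theorem isSec_fr (h : IsGrAlg 𝒢) :
    IsSec 𝒢 (B := fun I : Finset (Fin 3) => GB h ↑I) (rF (grR h)) (fr h) := by
  constructor
  · intro I n a b ha hb
    refine Subtype.ext ?_
    change _ = (fr h I n a).1 + (fr h I n b).1
    rw [fr_coe h ((𝒢 _).add_mem ha hb), fr_coe h ha, fr_coe h hb, LocalizedModule.mk_add_mk]
    refine (mk_eq' (xc (subset_refl I) n) ?_ rfl).symm
    rw [smul_add]
    rfl
  · intro I m n a b ha hb
    refine Subtype.ext ?_
    change _ = (fr h I m a).1 * (fr h I n b).1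
    have hab : a * b ∈ 𝒢 ((m + n) * I.card) := by
      rw [Nat.add_mul]
      exact h.mul ha hb
    rw [fr_coe h hab, fr_coe h ha, fr_coe h hb, LocalizedModule.mk_mul_mk]
    congr 1
    exact Subtype.ext (pow_add _ _ _)
  · intro I c
    refine Subtype.ext ?_
    have h1 : algebraMap k Γ c ∈ 𝒢 (0 * I.card) := by
      rw [Nat.zero_mul, Algebra.algebraMap_eq_smul_one]
      exact (𝒢 0).smul_mem c h.one
    rw [fr_coe h h1]
    change _ = algebraMap k (Lz Γ _) c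
    rw [Algebra.algebraMap_eq_smul_one, Algebra.algebraMap_eq_smul_one, OreLocalization.one_def]
    have h2 := LocalizedModule.smul'_mk c (1 : Γ)
      (1 : Submonoid.closure (X '' (↑I : Set (Fin 3)) : Set (MvPolynomial (Fin 3) k)))
    rw [LocalizedModule.mk] at h2
    rw [h2]
    congr 1
  · intro I n a ha
    refine Subtype.ext ?_
    have h1 := xp_mem h (m := 1) ha
    rw [pow_one] at h1
    have h2 : (∏ i ∈ I, X i : MvPolynomial (Fin 3) k) • a ∈ 𝒢 ((n + 1) * I.card) := h1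
    rw [fr_coe h h2, fr_coe h ha]
    refine mk_eq' (xc (subset_refl I) 1) ?_ ?_
    · change xp k I ^ 1 • a = _
      rw [pow_one]
      rfl
    · change xp k I ^ 1 * xp k I ^ n = xp k I ^ (n + 1)
      rw [pow_one, pow_succ']
  · rintro I ⟨z, m, a, u, ha, hu, rfl⟩
    obtain ⟨N, w, hw, h1⟩ := cl_dvd u.2
    obtain ⟨m', hm'⟩ := closure_hom (k := k) (s := X '' (↑I : Set (Fin 3))) (by
      rintro _ ⟨i, _, rfl⟩
      exact isHomogeneous_X k i) hw
    have h2 : m' + m = N * I.card := by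
      refine IsHomogeneous.inj_right (hm'.mul hu) ?_ (h1 ▸ xp_ne I N)
      rw [h1]
      exact xp_pow I N
    have h3 : w • a ∈ 𝒢 (N * I.card) := by
      rw [← h2]
      exact h.smul hm' ha
    refine ⟨N, w • a, h3, Subtype.ext ?_⟩
    rw [fr_coe h h3]
    exact mk_eq' ⟨w, hw⟩ rfl h1
  · intro I n a ha h0
    have h1 : (fr h I n a).1 = 0 := congrArg Subtype.val h0
    rw [fr_coe h ha, ← LocalizedModule.zero_mk (R := MvPolynomial (Fin 3) k) (M := Γ) 1,
      LocalizedModule.mk_eq] at h1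
    obtain ⟨c, hc⟩ := h1
    rw [one_smul, smul_zero, smul_zero] at hc
    obtain ⟨N, w, hw, h2⟩ := cl_dvd c.2
    refine ⟨N, ?_⟩
    change xp k I ^ N • a = 0
    rw [← h2, mul_smul]
    have h3 : (c : MvPolynomial (Fin 3) k) • a = 0 := hc
    rw [h3, smul_zero]
  · intro I J hIJ n a ha
    have h1 := sdiff_mem h hIJ ha
    have h2 : (∏ j ∈ J \ I, X j : MvPolynomial (Fin 3) k) ^ n • a ∈ 𝒢 (n * J.card) := h1
    refine Subtype.ext ?_
    rw [fr_coe h h2]
    have h3 : (rF (grR h) I J hIJ (fr h I n a)).1 =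
        Lz.map (Set.image_mono (Finset.coe_subset.2 hIJ)) (fr h I n a).1 := rfl
    rw [h3, fr_coe h ha, Lz.map_mk]
    refine (mk_eq' (xc Finset.sdiff_subset n) rfl ?_).symm
    change xp k (J \ I) ^ n * xp k I ^ n = xp k J ^ n
    rw [← mul_pow]
    congr 1
    exact Finset.prod_sdiff hIJ

theorem grR_self (h : IsGrAlg 𝒢) (I : Set (Fin 3)) (hI : I ⊆ I) (b : GB h I) :
    grR h hI b = b := Dz.map_self h _ b

theorem grR_comp (h : IsGrAlg 𝒢) (I J K : Set (Fin 3)) (h1 : I ⊆ J) (h2 : J ⊆ K)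
    (b : GB h I) : grR h h2 (grR h h1 b) = grR h (h1.trans h2) b :=
  Dz.map_map h (Set.image_mono h1) (Set.image_mono h2) b

omit [IsScalarTower k (MvPolynomial (Fin 3) k) Γ] in
theorem IsGr.alg (h : IsGr 𝒢) : IsGrAlg 𝒢 :=
  ⟨h.int, h.one, fun ha hb => h.mul _ _ _ _ ha hb, h.var, h.fin⟩

/-- The dg algebras `RΓ(P², Γ~)` in components. -/
theorem IsRGam.to3 (h : IsGrAlg 𝒢) {T : Type u} [Ring T] [Algebra k T] {X : DG k T}
    (hX : IsRGam 𝒢 X) : ∃ E : T ≃ₗ[k] CoT (GB h), IsCech3 (grR h) X E := by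
  obtain ⟨B, _, _, r, q, e, hs, hc⟩ := hX
  obtain ⟨e', he'⟩ := hc.map (r' := rF (grR h)) (fun I => trE h hs (isSec_fr h) I)
    fun I J hIJ b => trE_res h hs (isSec_fr h) hIJ b
  exact IsCech.to3 (grR h) (grR_self h) (grR_comp h) he'

/-- `RΓ(P², Γ~)` exists. -/
theorem exists_rgam (h : IsGrAlg 𝒢) : ∃ (T : Type u) (_ : Ring T) (_ : Algebra k T)
    (X : DG k T), IsRGam 𝒢 X := by
  obtain ⟨E, hE⟩ := gr_cech h
  obtain ⟨e, he⟩ := cech3_of hE
  obtain ⟨e', he'⟩ := cech_of3 (grR h) (grR_self h) (grR_comp h) he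
  exact ⟨_, _, _, DG.of (TT (gsh h)), _, _, _, _, _, _, isSec_fr h, he'⟩

end Pool.Agent.MP_6e5bed_ag_P2
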