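import Pool.Agent.Lib.MP_6e5bed_ag_NS.StP6
import Pool.Agent.Lib.MP_6e5bed_ag_NS.FinalS

set_option autoImplicit false

/-!
# MP_6e5bed_ag, NC SURFACES: the final theorem in plain form
-/

noncomputable section

namespace Pool.Agent.MP_6e5bed_ag_P2

open CategoryTheory MonoidalCategory MvPolynomial Pool.Agent.MP_6e5bed_ag
  Pool.Agent.MP_6e5bed_ag_SP Pool.Agent.MP_6e5bed_ag_NS Pool.Agent.MP_6e5bed_ag_NC

universe u

variable {k Γ : Type u} [Field k] [Ring Γ] [Algebra k Γ] [Algebra (MvPolynomial (Fin 3) k) Γ]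
  [IsScalarTower k (MvPolynomial (Fin 3) k) Γ] {𝒢 : ℕ → Submodule k Γ}

theorem ev_eq (p : MvPolynomial (Fin 3) k) :
    algebraMap (MvPolynomial (Fin 2) k) (KK k) (aeval ![1, X 0, X 1] p) = ev p := by
  have h1 : ((Algebra.ofId (MvPolynomial (Fin 2) k) (KK k)).restrictScalars k).comp
      (aeval ![1, X 0, X 1] : MvPolynomial (Fin 3) k →ₐ[k] MvPolynomial (Fin 2) k) =
      aeval (uu k) := by
    ext i
    rw [AlgHom.comp_apply, aeval_X, aeval_X]
    change algebraMap (MvPolynomial (Fin 2) k) (KK k) _ = uu k i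
    fin_cases i
    · exact map_one _
    · rfl
    · rfl
  exact DFunLike.congr_fun h1 p

omit [Algebra k Γ] [IsScalarTower k (MvPolynomial (Fin 3) k) Γ] in
theorem CenG.toNS (h : CenG k Γ) : MP_6e5bed_ag_NS.CenG k Γ := by
  intro Q _ _ _ _ π hπ hs z hz
  obtain ⟨s, rfl⟩ := h (KK k) Q π (fun p => by rw [hπ, ev_eq]) hs z hz
  exact ⟨s, Algebra.algebraMap_eq_smul_one s⟩

/-- The final theorem, given the Kimura-finiteness of the motives of curves. -/
theorem kf_rgam (h : IsGr 𝒢) (hc : CenG k Γ) {T : Type u} [Ring T] [Algebra k T] {X : DG k T}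
    (hX : IsRGam 𝒢 X) (hs : SmPr X)
    {C : Type (u + 1)} [Category.{u + 1} C] [MonoidalCategory C]
    [SymmetricCategory C] [Preadditive C] [MonoidalPreadditive C] [Linear ℚ C] (H : NCMot k C)
    (K : Type u) [Field K] [Algebra k K] [IsAlgClosed K]
    (hC : ∀ W : SP K, IsCurve W.alg → KimuraFinite (U W)) : KimuraFinite (H.U X hs) := by
  obtain ⟨E, hE⟩ := hX.to3 h.alg
  exact stSB h.alg hc.toNS hE hs H K hC

end Pool.Agent.MP_6e5bed_ag_P2
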