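import Pool.Agent.Lib.MP_6e5bed_ag_NS.Sh
import Pool.Agent.Lib.MP_6e5bed_ag_NS.QiB

set_option autoImplicit false

/-!
# MP_6e5bed_ag, NC SURFACES: forgetting the tail of the list (section 2e)
-/

noncomputable section

namespace Pool.Agent.MP_6e5bed_ag_NS

open Pool.Agent.MP_6e5bed_ag_NC

universe u

variable {k : Type u} [Field k]

/-- The sequence `0 → V c → V (c ∪ g) ⊕ V (c ∪ h) → V (c ∪ {g, h}) → 0` is exact (componentwise in
every degree). -/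
def SQ (V : PC k) (g h : LF k) (c : Ch k) : Prop :=
  (∀ x, (V.ρ (le_ins' c g)).f x = 0 → (V.ρ (le_ins' c h)).f x = 0 → x = 0) ∧
  (∀ (y : (V.X (c.fs.ins g)).V) (z : (V.X (c.fs.ins h)).V),
    (V.ρ (ins_mono (le_ins c.fs h) g)).f y = (V.ρ (le_ins' (c.fs.ins h) g)).f z →
      ∃ x, (V.ρ (le_ins' c g)).f x = y ∧ (V.ρ (le_ins' c h)).f x = z) ∧
  ∀ w : (V.X ((c.fs.ins h).fs.ins g)).V, ∃ (y : (V.X (c.fs.ins g)).V)
    (z : (V.X (c.fs.ins h)).V), (V.ρ (le_ins' (c.fs.ins h) g)).f z -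
      (V.ρ (ins_mono (le_ins c.fs h) g)).f y = w

/-- The same for a presheaf on the finite sets of linear forms. -/
def WSQ {V : PC k} (W : WC V) (g h : LF k) (c : FS k) : Prop :=
  (∀ x, (W.ρ (le_ins c g)).f x = 0 → (W.ρ (le_ins c h)).f x = 0 → x = 0) ∧
  (∀ (y : (W.X (c.ins g).fs).V) (z : (W.X (c.ins h).fs).V),
    (W.ρ (fs_mono (ins_mono (le_ins c h) g))).f y = (W.ρ (le_ins (c.ins h).fs g)).f z →
      ∃ x, (W.ρ (le_ins c g)).f x = y ∧ (W.ρ (le_ins c h)).f x = z) ∧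
  ∀ w : (W.X ((c.ins h).fs.ins g).fs).V, ∃ (y : (W.X (c.ins g).fs).V)
    (z : (W.X (c.ins h).fs).V), (W.ρ (le_ins (c.ins h).fs g)).f z -
      (W.ρ (fs_mono (ins_mono (le_ins c h) g))).f y = w

/-- A square of complexes which is exact in every degree. -/
def Sq4 {X Xg Xh Xgh : Cx k} (a : CHom X Xg) (b : CHom X Xh) (p : CHom Xg Xgh)
    (q : CHom Xh Xgh) : Prop :=
  (∀ x, a.f x = 0 → b.f x = 0 → x = 0) ∧
  (∀ y z, p.f y = q.f z → ∃ x, a.f x = y ∧ b.f x = z) ∧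
  ∀ w, ∃ y z, q.f z - p.f y = w

theorem SQ.gen {V : PC k} {g h : LF k} {c : Ch k} (H : SQ V g h c) {cg ch cgh : Ch k}
    (hg : cg = c.fs.ins g) (hh : ch = c.fs.ins h) (hgh : cgh = (c.fs.ins h).fs.ins g)
    (i1 : c ≤ cg) (i2 : c ≤ ch) (i3 : cg ≤ cgh) (i4 : ch ≤ cgh) :
    Sq4 (V.ρ i1) (V.ρ i2) (V.ρ i3) (V.ρ i4) := by
  subst hg hh hgh
  exact H

theorem WSQ.gen {V : PC k} {W : WC V} {g h : LF k} {c : FS k} (H : WSQ W g h c)
    {cg ch cgh : FS k}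
    (hg : cg = (c.ins g).fs) (hh : ch = (c.ins h).fs) (hgh : cgh = ((c.ins h).fs.ins g).fs)
    (i1 : c ≤ cg) (i2 : c ≤ ch) (i3 : cg ≤ cgh) (i4 : ch ≤ cgh) :
    Sq4 (W.ρ i1) (W.ρ i2) (W.ρ i3) (W.ρ i4) := by
  subst hg hh hgh
  exact H

/-- By induction on `L`: the component `V (c ∪ l)` of `(cC V (l :: L)).X c` gives the sequence for
`V` at the chart `c ∪ l` (with the charts `(c ∪ g) ∪ l = (c ∪ l) ∪ g` as sets; use `V.ρ` along the
two inclusions, which are inverse to each other by `ρ_id`, `ρ_ρ`). -/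
theorem wsq_cC (V : PC k) (g h : LF k) : ∀ (L : List (LF k)) (c : FS k),
    (∀ d : Ch k, (∀ x ∈ d.1, x ∈ c.1 ∨ x ∈ L) → SQ V g h d) → WSQ (cC V L) g h c
  | [], c, _ => ⟨fun _ _ _ => rfl, fun _ _ _ => ⟨0, rfl, rfl⟩, fun _ => ⟨0, 0, rfl⟩⟩
  | l :: L, c, H => by
    have h0 : WSQ (cC V L) g h c := wsq_cC V g h L c (fun d hd => H d (fun x hx =>
      (hd x hx).imp id (fun h' => List.mem_cons_of_mem l h')))
    have h1 : WSQ (cC V L) g h (c.ins l).fs := wsq_cC V g h L (c.ins l).fs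
      (fun d hd => H d (fun x hx => by
        rcases hd x hx with h' | h'
        · rcases h' with rfl | h'
          · exact Or.inr List.mem_cons_self
          · exact Or.inl h'
        · exact Or.inr (List.mem_cons_of_mem l h')))
    have hv : SQ V g h (c.ins l) := H (c.ins l) (fun x hx => by
      rcases hx with rfl | hx
      · exact Or.inr List.mem_cons_self
      · exact Or.inl hx)
    have eg : (c.ins g).fs.ins l = (c.ins l).fs.ins g :=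
      Subtype.ext (Set.insert_comm l g c.1)
    have eh : (c.ins h).fs.ins l = (c.ins l).fs.ins h :=
      Subtype.ext (Set.insert_comm l h c.1)
    have egh : ((c.ins h).fs.ins g).fs.ins l = ((c.ins l).fs.ins h).fs.ins g :=
      Subtype.ext (by
        change insert l (insert g (insert h c.1)) = insert g (insert h (insert l c.1))
        rw [Set.insert_comm l g, Set.insert_comm l h])
    have A1 : Sq4 _ _ _ _ := hv.gen eg eh egh (ins_mono (le_ins c g) l)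
      (ins_mono (le_ins c h) l) (ins_mono (fs_mono (ins_mono (le_ins c h) g)) l)
      (ins_mono (le_ins (c.ins h).fs g) l)
    have A2 : Sq4 _ _ _ _ := h1.gen (congrArg Ch.fs eg) (congrArg Ch.fs eh)
      (congrArg Ch.fs egh) (fs_mono (ins_mono (le_ins c g) l))
      (fs_mono (ins_mono (le_ins c h) l))
      (fs_mono (ins_mono (fs_mono (ins_mono (le_ins c h) g)) l))
      (fs_mono (ins_mono (le_ins (c.ins h).fs g) l))
    refine ⟨?_, ?_, ?_⟩
    · rintro ⟨⟨x0, x1⟩, ξ⟩ ha hb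
      have a0 := congrArg (fun z => z.1.1) ha
      have a1 := congrArg (fun z => z.1.2) ha
      have a2 := congrArg (fun z => z.2) ha
      have b0 := congrArg (fun z => z.1.1) hb
      have b1 := congrArg (fun z => z.1.2) hb
      have b2 := congrArg (fun z => z.2) hb
      exact Prod.ext (Prod.ext (h0.1 x0 a0 b0) (A1.1 x1 a1 b1)) (A2.1 ξ a2 b2)
    · rintro ⟨⟨y0, y1⟩, υ⟩ ⟨⟨z0, z1⟩, ζ⟩ he
      have e0 := congrArg (fun z => z.1.1) he
      have e1 := congrArg (fun z => z.1.2) he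
      have e2 := congrArg (fun z => z.2) he
      obtain ⟨x0, p0, q0⟩ := h0.2.1 y0 z0 e0
      obtain ⟨x1, p1, q1⟩ := A1.2.1 y1 z1 e1
      obtain ⟨ξ, p2, q2⟩ := A2.2.1 υ ζ e2
      exact ⟨((x0, x1), ξ), Prod.ext (Prod.ext p0 p1) p2, Prod.ext (Prod.ext q0 q1) q2⟩
    · rintro ⟨⟨w0, w1⟩, ω⟩
      obtain ⟨y0, z0, e0⟩ := h0.2.2 w0
      obtain ⟨y1, z1, e1⟩ := A1.2.2 w1
      obtain ⟨υ, ζ, e2⟩ := A2.2.2 ω
      exact ⟨((y0, y1), υ), ((z0, z1), ζ), Prod.ext (Prod.ext e0 e1) e2⟩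

/-- The algebra of the kernel. -/
theorem sq4_ker {X Xg Xh Xgh : Cx k} {a : CHom X Xg} {b : CHom X Xh} {p : CHom Xg Xgh}
    {q : CHom Xh Xgh} (H : Sq4 a b p q) {w : X.V} {α : Xg.V} {β : Xh.V} {e : Xgh.V}
    (hα : a.f w + Xg.dg.d α = 0) (hβ : b.f w + Xh.dg.d β = 0)
    (he : p.f α + (- q.f β - Xgh.dg.d e) = 0) :
    ∃ w' α' β', X.dg.d w' = w ∧ - a.f w' - Xg.dg.d α' = α ∧ - b.f w' - Xh.dg.d β' = β ∧
      - p.f α' + q.f β' = e := by
  obtain ⟨y, z, hyz⟩ := H.2.2 e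
  have hd : Xgh.dg.d (q.f z) - Xgh.dg.d (p.f y) = Xgh.dg.d e := by rw [← map_sub, hyz]
  obtain ⟨w', h1, h2⟩ := H.2.1 (- α - Xg.dg.d y) (- β - Xh.dg.d z) (by
    rw [map_sub, map_sub, map_neg, map_neg, ← p.d, ← q.d]
    have h3 : p.f α = q.f β + Xgh.dg.d e := by
      rw [← sub_eq_zero]
      rw [← he]
      abel
    rw [h3, ← hd]
    abel)
  refine ⟨w', y, z, ?_, ?_, ?_, ?_⟩
  · rw [← sub_eq_zero]
    refine H.1 _ ?_ ?_
    · rw [map_sub, ← a.d, h1, map_sub, map_neg, Xg.dg.d_d, sub_zero, ← neg_eq_zero, ← hα]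
      abel
    · rw [map_sub, ← b.d, h2, map_sub, map_neg, Xh.dg.d_d, sub_zero, ← neg_eq_zero, ← hβ]
      abel
  · rw [h1]
    abel
  · rw [h2]
    abel
  · rw [← hyz]
    abel

theorem tail_ker (V : PC k) (g h : LF k) (L : List (LF k)) (W : WSQ (cC V L) g h (FS.e k))
    (w : ((cC V L).X (FS.e k)).V) (a : ((cC V L).X ((FS.e k).ins g).fs).V)
    (b : ((cC V L).X ((FS.e k).ins h).fs).V)
    (e : ((cC V L).X (((FS.e k).ins h).fs.ins g).fs).V)
    (hd : ((cC V (h :: g :: L)).X (FS.e k)).dg.d ((((w, 0), a), 0), ((b, 0), e)) = 0) :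
    ∃ w' a' b', ((cC V (h :: g :: L)).X (FS.e k)).dg.d ((((w', 0), a'), 0), ((b', 0), 0)) =
      ((((w, 0), a), 0), ((b, 0), e)) := by
  have E := (co_d (r0 := (cC V (g :: L)).ρ (le_ins (FS.e k) h))
    (r1 := (cC V (g :: L)).a ((FS.e k).ins h)) ((w, 0), a) 0 ((b, 0), e)).symm.trans hd
  have E0 : ((cC V (g :: L)).X (FS.e k)).dg.d ((w, 0), a) = 0 := congrArg (fun z => z.1.1) E
  have F0 := (co_d (r0 := (cC V L).ρ (le_ins (FS.e k) g))
    (r1 := (cC V L).a ((FS.e k).ins g)) w 0 a).symm.trans E0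
  have ea : ((cC V L).a ((FS.e k).ins g)).f 0 - ((cC V L).ρ (le_ins (FS.e k) g)).f w -
    ((cC V L).X ((FS.e k).ins g).fs).dg.d a = 0 := congrArg (fun z => z.2) F0
  have E2 : ((cC V (g :: L)).a ((FS.e k).ins h)).f 0 -
    ((cC V (g :: L)).ρ (le_ins (FS.e k) h)).f ((w, 0), a) -
    ((cC V (g :: L)).X ((FS.e k).ins h).fs).dg.d ((b, 0), e) = 0 := congrArg (fun z => z.2) E
  have F2 : ((cC V (g :: L)).X ((FS.e k).ins h).fs).dg.d ((b, 0), e) = co.mk _ _ _ _ _ :=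
    co_d (r0 := (cC V L).ρ (le_ins ((FS.e k).ins h).fs g))
    (r1 := (cC V L).a (((FS.e k).ins h).fs.ins g)) b 0 e
  rw [map_zero, zero_sub, neg_sub_left, neg_eq_zero, add_comm] at E2
  rw [F2] at E2
  have eb : ((cC V L).ρ (le_ins (FS.e k) h)).f w +
    ((cC V L).X ((FS.e k).ins h).fs).dg.d b = 0 := congrArg (fun z => z.1.1) E2
  have ee : ((cC V L).ρ (fs_mono (ins_mono (le_ins (FS.e k) h) g))).f a +
    (((cC V L).a (((FS.e k).ins h).fs.ins g)).f 0 -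
    ((cC V L).ρ (le_ins ((FS.e k).ins h).fs g)).f b -
    ((cC V L).X (((FS.e k).ins h).fs.ins g).fs).dg.d e) = 0 := congrArg (fun z => z.2) E2
  rw [map_zero, zero_sub] at ea ee
  have ea' : ((cC V L).ρ (le_ins (FS.e k) g)).f w +
    ((cC V L).X ((FS.e k).ins g).fs).dg.d a = 0 := by
    rw [← neg_eq_zero, ← ea]
    abel
  obtain ⟨w', a', b', h1, h2, h3, h4⟩ := sq4_ker W ea' eb ee
  refine ⟨w', a', b', ?_⟩
  refine (co_d (r0 := (cC V (g :: L)).ρ (le_ins (FS.e k) h))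
    (r1 := (cC V (g :: L)).a ((FS.e k).ins h)) ((w', 0), a') 0 ((b', 0), 0)).trans ?_
  have G0 : ((cC V (g :: L)).X (FS.e k)).dg.d ((w', 0), a') = ((w, 0), a) := by
    refine (co_d (r0 := (cC V L).ρ (le_ins (FS.e k) g))
      (r1 := (cC V L).a ((FS.e k).ins g)) w' 0 a').trans ?_
    refine Prod.ext (Prod.ext h1 (map_zero _)) ?_
    change ((cC V L).a ((FS.e k).ins g)).f 0 - ((cC V L).ρ (le_ins (FS.e k) g)).f w' -
      ((cC V L).X ((FS.e k).ins g).fs).dg.d a' = a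
    rw [map_zero, zero_sub]
    exact h2
  have G2 : ((cC V (g :: L)).a ((FS.e k).ins h)).f 0 -
      ((cC V (g :: L)).ρ (le_ins (FS.e k) h)).f ((w', 0), a') -
      ((cC V (g :: L)).X ((FS.e k).ins h).fs).dg.d ((b', 0), 0) = ((b, 0), e) := by
    have F3 : ((cC V (g :: L)).X ((FS.e k).ins h).fs).dg.d ((b', 0), 0) = co.mk _ _ _ _ _ :=
      co_d (r0 := (cC V L).ρ (le_ins ((FS.e k).ins h).fs g))
      (r1 := (cC V L).a (((FS.e k).ins h).fs.ins g)) b' 0 0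
    rw [map_zero, zero_sub, F3]
    refine Prod.ext (Prod.ext h3 ?_) ?_
    · change - (V.ρ _).f 0 - (V.X _).dg.d 0 = 0
      rw [map_zero, map_zero, neg_zero, sub_zero]
    · change - ((cC V L).ρ _).f a' - (((cC V L).a _).f 0 - ((cC V L).ρ _).f b' -
        ((cC V L).X _).dg.d 0) = e
      rw [map_zero, map_zero, ← h4]
      abel
  exact Prod.ext (Prod.ext G0 (map_zero _)) G2

/-- The kernel of `cC V (h :: g :: L) → cC V [h, g]` at the empty set is the total complex of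
`W ∅ → W g ⊕ W h → W {g, h}`, `W = cC V L`, acyclic by `wsq_cC`; the map is surjective. -/
theorem tail_qi (V : PC k) (g h : LF k) (L : List (LF k))
    (hs : ∀ d : Ch k, (∀ x ∈ d.1, x ∈ L) → SQ V g h d) :
    ((cT V L [h, g]).g (FS.e k)).QI := by
  have W := wsq_cC V g h L (FS.e k) (fun d hd => hs d (fun x hx => by
    rcases hd x hx with h' | h'
    · exact absurd h' (Set.notMem_empty x)
    · exact h'))
  refine CHom.QI.of_surj ?_ ?_
  · rintro ⟨⟨⟨⟨y00, y01⟩, y0ξ⟩, y1⟩, ⟨⟨η0, η1⟩, ηξ⟩⟩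
    exact ⟨((((0, y01), 0), y1), ((0, η1), 0)), rfl⟩
  · rintro ⟨⟨⟨⟨w, x01⟩, a⟩, x1⟩, ⟨⟨b, ξ1⟩, e⟩⟩ hf hd
    have hx01 : x01 = 0 := congrArg (fun z => z.1.1.1.2) hf
    have hx1 : x1 = 0 := congrArg (fun z => z.1.2) hf
    have hξ1 : ξ1 = 0 := congrArg (fun z => z.2.1.2) hf
    subst hx01 hx1 hξ1
    obtain ⟨w', a', b', h'⟩ := tail_ker V g h L W w a b e hd
    exact ⟨((((w', 0), a'), 0), ((b', 0), 0)), rfl, h'⟩

/-- The bimodule maps which forget the tail of the list. -/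
theorem cB_tl_qiso {A B : PA k} (M : PB A B) (g h : LF k) (L : List (LF k))
    (hs : ∀ d : Ch k, (∀ x ∈ d.1, x ∈ L) → SQ M.pc g h d) :
    QIso (cB.tl M [h, g] L (FS.e k)) :=
  ⟨cB.tl_dd M [h, g] L (FS.e k), tail_qi M.pc g h L hs⟩

end Pool.Agent.MP_6e5bed_ag_NS
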