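import Pool.Agent.Lib.MP_6e5bed_ag_NS.TorA

set_option autoImplicit false

/-!
# MP_6e5bed_ag, NC SURFACES: linear forms adapted to a polynomial (section 3b)
-/

noncomputable section

namespace Pool.Agent.MP_6e5bed_ag_NS

universe u

variable {k : Type u} [Field k]

private theorem TorB_ind_swap {a b d : Fin 3 → k} (h : LinearIndependent k ![a, b, d]) :
    LinearIndependent k ![b, a, d] := by
  have h1 := h.comp (Equiv.swap (0 : Fin 3) 1) (Equiv.injective _)
  have h2 : (![a, b, d] ∘ (Equiv.swap (0 : Fin 3) 1) : Fin 3 → Fin 3 → k) = ![b, a, d] := by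
    funext i
    fin_cases i
    · rfl
    · rfl
    · rfl
  rwa [h2] at h1

theorem PRel.symm {e : ℕ} {P : MvPolynomial (Fin 3) k} {g h ℓ : LF k} (H : PRel e P g h ℓ) :
    PRel e P h g ℓ := by
  obtain ⟨hi, a, ha, hm⟩ := H
  refine ⟨TorB_ind_swap hi, a, ha, Submodule.span_mono ?_ hm⟩
  rintro x ⟨i, i', j, h1, h2, rfl⟩
  exact ⟨i', i, j, by omega, h2, by ring⟩

/-- the span of the monomials of degree `e` other than `L ^ e` -/
private def TorB_M (G W L : KK k) (e : ℕ) : Submodule k (KK k) :=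
  Submodule.span k {x | ∃ i i' j : ℕ, i + i' + j = e ∧ j < e ∧ x = G ^ i * W ^ i' * L ^ j}

private theorem TorB_mul {G W L x y : KK k} {e e' : ℕ} (hx : x ∈ TorB_M G W L e)
    (hy : y ∈ TorB_M G W L e') : x * y ∈ TorB_M G W L (e + e') := by
  have h1 : TorB_M G W L e * TorB_M G W L e' ≤ TorB_M G W L (e + e') := by
    unfold TorB_M
    rw [Submodule.span_mul_span]
    refine Submodule.span_mono ?_
    rintro z ⟨x, ⟨i, i', j, h1, h2, rfl⟩, y, ⟨l, l', m, h3, h4, rfl⟩, rfl⟩
    refine ⟨i + l, i' + l', j + m, by omega, by omega, ?_⟩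
    change G ^ i * W ^ i' * L ^ j * (G ^ l * W ^ l' * L ^ m) = _
    ring
  exact h1 (Submodule.mul_mem_mul hx hy)

private theorem TorB_mulL {G W L x : KK k} {e e' : ℕ} (hx : x ∈ TorB_M G W L e) :
    x * L ^ e' ∈ TorB_M G W L (e + e') := by
  have h1 : TorB_M G W L e * Submodule.span k {L ^ e'} ≤ TorB_M G W L (e + e') := by
    unfold TorB_M
    rw [Submodule.span_mul_span]
    refine Submodule.span_mono ?_
    rintro z ⟨x, ⟨i, i', j, h1, h2, rfl⟩, y, rfl, rfl⟩
    refine ⟨i, i', j + e', by omega, by omega, ?_⟩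
    change G ^ i * W ^ i' * L ^ j * L ^ e' = _
    ring
  exact h1 (Submodule.mul_mem_mul hx (Submodule.mem_span_singleton_self _))

/-- `x` is `a L ^ e` plus other monomials of degree `e` -/
private def TorB_T (G W L : KK k) (e : ℕ) (x : KK k) (a : k) : Prop :=
  x - a • L ^ e ∈ TorB_M G W L e

private theorem TorB_Tmul {G W L x y : KK k} {e e' : ℕ} {a b : k} (hx : TorB_T G W L e x a)
    (hy : TorB_T G W L e' y b) : TorB_T G W L (e + e') (x * y) (a * b) := by
  unfold TorB_T at *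
  have h1 := TorB_mul hx hy
  have h2 := (TorB_M G W L (e + e')).smul_mem b (TorB_mulL (e' := e') hx)
  have h3 := TorB_mulL (e' := e) hy
  rw [add_comm e' e] at h3
  have h4 := (TorB_M G W L (e + e')).smul_mem a h3
  have h5 := Submodule.add_mem _ (Submodule.add_mem _ h1 h2) h4
  convert h5 using 1
  simp only [Algebra.smul_def, map_mul]
  ring

private theorem TorB_Tone {G W L : KK k} : TorB_T G W L 0 1 1 := by
  unfold TorB_T
  rw [pow_zero, one_smul, sub_self]
  exact Submodule.zero_mem _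

private theorem TorB_Tpow {G W L x : KK k} {a : k} (hx : TorB_T G W L 1 x a) (n : ℕ) :
    TorB_T G W L n (x ^ n) (a ^ n) := by
  induction n with
  | zero =>
    rw [pow_zero, pow_zero]
    exact TorB_Tone
  | succ n ih =>
    rw [pow_succ, pow_succ]
    exact TorB_Tmul ih hx

/-- PROOF. The polynomial `P x_0` is not zero and `k` is infinite: there is `p ∈ k ^ 3` with
`P(p) p_0 ≠ 0`. Choose a basis `g, h, ℓ` of the linear forms with `g(p) = h(p) = 0`, `ℓ(p) = 1`
(for example `ℓ = x_0 / p_0`, `g = x_1 - p_1 ℓ`, `h = x_2 - p_2 ℓ`). Write `x_i` as a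
combination of `g, h, ℓ` with the coefficient `p_i` at `ℓ` and substitute in `P`: the coefficient of
`ℓ ^ e` is `P(p)`. -/
theorem exists_gh [Infinite k] {e : ℕ} {P : MvPolynomial (Fin 3) k} (hP : P.IsHomogeneous e)
    (h0 : P ≠ 0) : ∃ g h ℓ : LF k, PRel e P g h ℓ := by
  obtain ⟨p, hp⟩ : ∃ p : Fin 3 → k, MvPolynomial.eval p (MvPolynomial.X 0 * P) ≠ 0 := by
    by_contra hcon
    push Not at hcon
    have h1 : (MvPolynomial.X 0 * P : MvPolynomial (Fin 3) k) = 0 := by
      refine MvPolynomial.funext fun p => ?_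
      rw [hcon p, map_zero]
    rcases mul_eq_zero.1 h1 with h2 | h2
    · exact MvPolynomial.X_ne_zero 0 h2
    · exact h0 h2
  rw [map_mul, MvPolynomial.eval_X] at hp
  have hp0 : p 0 ≠ 0 := left_ne_zero_of_mul hp
  have hpP : MvPolynomial.eval p P ≠ 0 := right_ne_zero_of_mul hp
  set g : Fin 3 → k := ![-(p 1 / p 0), 1, 0] with hg
  set h : Fin 3 → k := ![-(p 2 / p 0), 0, 1] with hh
  set ℓ : Fin 3 → k := ![1 / p 0, 0, 0] with hℓ
  have hind : LinearIndependent k ![g, h, ℓ] := by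
    rw [Fintype.linearIndependent_iff]
    intro f hf
    rw [Fin.sum_univ_three] at hf
    have h1 := congrFun hf 1
    have h2 := congrFun hf 2
    have h3 := congrFun hf 0
    simp [hg, hh, hℓ] at h1 h2 h3
    rw [h1, h2] at h3
    simp [hp0] at h3
    intro i
    fin_cases i
    · exact h1
    · exact h2
    · exact h3
  have hg0 : g ≠ 0 := hind.ne_zero 0
  have hh0 : h ≠ 0 := hind.ne_zero 1
  have hℓ0 : ℓ ≠ 0 := hind.ne_zero 2
  refine ⟨⟨g, hg0⟩, ⟨h, hh0⟩, ⟨ℓ, hℓ0⟩, hind, MvPolynomial.eval p P, hpP, ?_⟩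
  change TorB_T (lam k g) (lam k h) (lam k ℓ) e (ev P) (MvPolynomial.eval p P)
  have hlg : lam k g = -(p 1 / p 0) • uu k 0 + uu k 1 := by
    unfold lam
    rw [Fin.sum_univ_three]
    simp [hg]
  have hlh : lam k h = -(p 2 / p 0) • uu k 0 + uu k 2 := by
    unfold lam
    rw [Fin.sum_univ_three]
    simp [hh]
  have hlℓ : lam k ℓ = (1 / p 0) • uu k 0 := by
    unfold lam
    rw [Fin.sum_univ_three]
    simp [hℓ]
  have hT : ∀ i : Fin 3, TorB_T (lam k g) (lam k h) (lam k ℓ) 1 (uu k i) (p i) := by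
    intro i
    unfold TorB_T
    rw [pow_one]
    have hGm : lam k g ∈ TorB_M (lam k g) (lam k h) (lam k ℓ) 1 :=
      Submodule.subset_span ⟨1, 0, 0, by norm_num, by norm_num, by ring⟩
    have hHm : lam k h ∈ TorB_M (lam k g) (lam k h) (lam k ℓ) 1 :=
      Submodule.subset_span ⟨0, 1, 0, by norm_num, by norm_num, by ring⟩
    fin_cases i
    · have h1 : uu k 0 - p 0 • lam k ℓ = 0 := by
        rw [hlℓ, smul_smul, mul_one_div_cancel hp0, one_smul, sub_self]
      change uu k 0 - p 0 • lam k ℓ ∈ _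
      rw [h1]
      exact Submodule.zero_mem _
    · have h1 : uu k 1 - p 1 • lam k ℓ = lam k g := by
        rw [hlℓ, hlg, smul_smul, mul_one_div, neg_smul]
        abel
      change uu k 1 - p 1 • lam k ℓ ∈ _
      rw [h1]
      exact hGm
    · have h1 : uu k 2 - p 2 • lam k ℓ = lam k h := by
        rw [hlℓ, hlh, smul_smul, mul_one_div, neg_smul]
        abel
      change uu k 2 - p 2 • lam k ℓ ∈ _
      rw [h1]
      exact hHm
  have hTd : ∀ d : Fin 3 →₀ ℕ, TorB_T (lam k g) (lam k h) (lam k ℓ) (d 0 + d 1 + d 2)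
      (∏ i, uu k i ^ d i) (∏ i, p i ^ d i) := by
    intro d
    rw [Fin.prod_univ_three, Fin.prod_univ_three]
    exact TorB_Tmul (TorB_Tmul (TorB_Tpow (hT 0) _) (TorB_Tpow (hT 1) _)) (TorB_Tpow (hT 2) _)
  unfold TorB_T ev
  rw [MvPolynomial.aeval_def, MvPolynomial.eval₂_eq', MvPolynomial.eval_eq', Finset.sum_smul,
    ← Finset.sum_sub_distrib]
  refine Submodule.sum_mem _ fun d hd => ?_
  have hde : d 0 + d 1 + d 2 = e := by
    have h1 := hP (MvPolynomial.mem_support_iff.1 hd)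
    rw [Finsupp.weight_apply, Finsupp.sum_fintype _ _ (by simp), Fin.sum_univ_three] at h1
    simpa using h1
  have h2 := (TorB_M (lam k g) (lam k h) (lam k ℓ) _).smul_mem (P.coeff d) (hTd d)
  rw [hde] at h2
  convert h2 using 1
  rw [smul_sub, smul_smul, Algebra.smul_def (P.coeff d)]

end Pool.Agent.MP_6e5bed_ag_NS
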