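import Pool.Agent.Lib.MP_6e5bed_ag_NS.TorA
import Pool.Agent.Lib.MP_6e5bed_ag_NS.Mem

set_option autoImplicit false

/-!
# MP_6e5bed_ag, NC SURFACES: torsion sheaves are finite over a line (section 3b)
-/

noncomputable section

namespace Pool.Agent.MP_6e5bed_ag_NS

universe u

variable {k : Type u} [Field k]

private theorem TorC_comb {g h ℓ : LF k} (hli : LinearIndependent k ![g.1, h.1, ℓ.1])
    (w : Fin 3 → k) : ∃ a b c : k, w = a • g.1 + b • h.1 + c • ℓ.1 := by
  have hsp : Submodule.span k (Set.range ![g.1, h.1, ℓ.1]) = ⊤ :=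
    hli.span_eq_top_of_card_eq_finrank' (by simp)
  have hw : w ∈ Submodule.span k (Set.range ![g.1, h.1, ℓ.1]) := by
    rw [hsp]
    exact Submodule.mem_top
  obtain ⟨c, hc⟩ := (Submodule.mem_span_range_iff_exists_fun k).1 hw
  refine ⟨c 0, c 1, c 2, ?_⟩
  rw [← hc, Fin.sum_univ_three]
  rfl

private theorem TorC_lam (a b c : k) (x y z : Fin 3 → k) :
    lam k (a • x + b • y + c • z) = a • lam k x + b • lam k y + c • lam k z := by
  unfold lam
  rw [Finset.smul_sum, Finset.smul_sum, Finset.smul_sum, ← Finset.sum_add_distrib,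
    ← Finset.sum_add_distrib]
  refine Finset.sum_congr rfl fun i _ => ?_
  change (a * x i + b * y i + c * z i) • uu k i = _
  rw [add_smul, add_smul, mul_smul, mul_smul, mul_smul]

/-- the scalars which preserve a subspace -/
private theorem TorC_stable (M : Shf k) {g h ℓ : LF k}
    (hli : LinearIndependent k ![g.1, h.1, ℓ.1]) (N : Submodule k (M.M (c1 g)))
    (ht : ∀ m ∈ N, quo h.1 (g_mem g) • m ∈ N) (hs : ∀ m ∈ N, quo ℓ.1 (g_mem g) • m ∈ N)
    (r : RR k (c1 g)) : ∀ m ∈ N, r • m ∈ N := by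
  obtain ⟨x, hx⟩ := r
  unfold RR at hx
  induction hx using Algebra.adjoin_induction with
  | mem x hx =>
    intro m hm
    obtain ⟨w, g', hg', rfl⟩ := hx
    have hg2 : g' = g := by
      rcases hg' with h1 | h1
      · exact h1
      · exact absurd h1 (Set.notMem_empty _)
    subst hg2
    obtain ⟨a, b, c, hw⟩ := TorC_comb hli w
    have hr : (⟨lam k w / lam k g'.1, Algebra.subset_adjoin ⟨w, g', hg', rfl⟩⟩ :
        RR k (c1 g')) = a • (1 : RR k (c1 g')) + b • quo h.1 (g_mem g') +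
          c • quo ℓ.1 (g_mem g') := by
      apply Subtype.ext
      change lam k w / lam k g'.1 = a • (1 : KK k) + b • (lam k h.1 / lam k g'.1) +
        c • (lam k ℓ.1 / lam k g'.1)
      rw [hw, TorC_lam, add_div, add_div, smul_div_assoc, smul_div_assoc, smul_div_assoc,
        div_self (lam_ne_zero g')]
    change (⟨lam k w / lam k g'.1, Algebra.subset_adjoin ⟨w, g', hg', rfl⟩⟩ :
        RR k (c1 g')) • m ∈ N
    rw [hr, add_smul, add_smul, smul_assoc, smul_assoc, smul_assoc, one_smul]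
    exact N.add_mem (N.add_mem (N.smul_mem a hm) (N.smul_mem b (ht m hm)))
      (N.smul_mem c (hs m hm))
  | algebraMap a =>
    intro m hm
    have hr : (⟨algebraMap k (KK k) a, Subalgebra.algebraMap_mem _ a⟩ : RR k (c1 g)) =
        a • (1 : RR k (c1 g)) := by
      apply Subtype.ext
      change algebraMap k (KK k) a = a • (1 : KK k)
      rw [Algebra.smul_def, mul_one]
    change (⟨algebraMap k (KK k) a, Subalgebra.algebraMap_mem _ a⟩ : RR k (c1 g)) • m ∈ N
    rw [hr, smul_assoc, one_smul]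
    exact N.smul_mem a hm
  | add x y hx hy h1 h2 =>
    intro m hm
    have hr : (⟨x + y, Subalgebra.add_mem _ hx hy⟩ : RR k (c1 g)) =
        (⟨x, hx⟩ : RR k (c1 g)) + (⟨y, hy⟩ : RR k (c1 g)) := rfl
    change (⟨x + y, Subalgebra.add_mem _ hx hy⟩ : RR k (c1 g)) • m ∈ N
    rw [hr, add_smul]
    exact N.add_mem (h1 m hm) (h2 m hm)
  | mul x y hx hy h1 h2 =>
    intro m hm
    have hr : (⟨x * y, Subalgebra.mul_mem _ hx hy⟩ : RR k (c1 g)) =
        (⟨x, hx⟩ : RR k (c1 g)) * (⟨y, hy⟩ : RR k (c1 g)) := rfl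
    change (⟨x * y, Subalgebra.mul_mem _ hx hy⟩ : RR k (c1 g)) • m ∈ N
    rw [hr, mul_smul]
    exact h1 _ (h2 m hm)

/-- `M` on the chart `g ≠ 0` is finitely generated over `k[t]`, `t = h / g`. PROOF.
`R_g = k[t, s]` with `s = ℓ / g` (all quotients of linear forms by `g` are combinations of
`1, t, s`). Dividing the relation by `g ^ e`: `a s ^ e` is congruent to a combination of
`t ^ i s ^ j`, `j < e`, modulo `P / g ^ e`, which kills `M`. So the submodule spanned over `k` by
the `t ^ i s ^ j y`, `j < e`, `y` in a finite set of generators of `M`, is stable under `t` and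
`s`. -/
theorem tor_fin (M : Shf k) (hc : M.Coh) {e : ℕ} {P : MvPolynomial (Fin 3) k}
    (hP : P.IsHomogeneous e) (hk : Kills M e P) {g h ℓ : LF k} (H : PRel e P g h ℓ) :
    ∃ F : Finset (M.M (c1 g)), ∀ m, m ∈ Submodule.span k
      {x | ∃ y ∈ F, ∃ n : ℕ, x = quo h.1 (g_mem g) ^ n • y} := by
  classical
  obtain ⟨hli, a, ha, hsp⟩ := H
  obtain ⟨F0, hF0⟩ := (hc (c1 g)).fg_top
  set t : RR k (c1 g) := quo h.1 (g_mem g) with ht
  set s : RR k (c1 g) := quo ℓ.1 (g_mem g) with hs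
  set F : Finset (M.M (c1 g)) :=
    (Finset.range e ×ˢ F0).image (fun p => s ^ p.1 • p.2) with hF
  refine ⟨F, ?_⟩
  set N : Submodule k (M.M (c1 g)) :=
    Submodule.span k {x | ∃ y ∈ F, ∃ n : ℕ, x = t ^ n • y} with hN
  have hmem : ∀ (n j : ℕ) (y : M.M (c1 g)), y ∈ F0 → j < e → t ^ n • s ^ j • y ∈ N := by
    intro n j y hy hj
    refine Submodule.subset_span ⟨s ^ j • y, ?_, n, rfl⟩
    exact Finset.mem_image.2 ⟨(j, y), Finset.mem_product.2 ⟨Finset.mem_range.2 hj, hy⟩, rfl⟩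
  have hsub : ∀ N' : Submodule k (M.M (c1 g)),
      (∀ (n j : ℕ) (y : M.M (c1 g)), y ∈ F0 → j < e → t ^ n • s ^ j • y ∈ N') → N ≤ N' := by
    intro N' h'
    refine Submodule.span_le.2 ?_
    rintro x ⟨y, hy, n, rfl⟩
    obtain ⟨⟨j, y'⟩, hj, rfl⟩ := Finset.mem_image.1 hy
    obtain ⟨h1, h2⟩ := Finset.mem_product.1 hj
    exact h' n j y' h2 (Finset.mem_range.1 h1)
  have hpres : ∀ r : RR k (c1 g),
      (∀ (n j : ℕ) (y : M.M (c1 g)), y ∈ F0 → j < e → r • t ^ n • s ^ j • y ∈ N) →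
      ∀ m ∈ N, r • m ∈ N := by
    intro r h' m hm
    exact hsub (N.comap (mulq M (c1 g) r)) h' hm
  have htN : ∀ m ∈ N, t • m ∈ N := by
    refine hpres t fun n j y hy hj => ?_
    rw [← mul_smul, ← pow_succ']
    exact hmem (n + 1) j y hy hj
  have htn : ∀ (n : ℕ), ∀ m ∈ N, t ^ n • m ∈ N := by
    intro n
    induction n with
    | zero =>
      intro m hm
      rw [pow_zero, one_smul]
      exact hm
    | succ n ih =>
      intro m hm
      rw [pow_succ', mul_smul]
      exact htN _ (ih m hm)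
  -- the relation
  obtain ⟨q, hq⟩ : ∃ q : RR k (c1 g), (q : KK k) = ev P / lam k g.1 ^ e :=
    ⟨⟨_, ev_mem hP (g_mem g)⟩, rfl⟩
  have hq0 : ∀ m : M.M (c1 g), q • m = 0 := hk (c1 g) g (g_mem g) q hq
  have hg0 := lam_ne_zero g
  have hrel : ∃ r : RR k (c1 g), (r : KK k) = (ev P - a • lam k ℓ.1 ^ e) / lam k g.1 ^ e ∧
      ∀ y ∈ F0, r • y ∈ N := by
    refine Submodule.span_induction
      (p := fun x _ => ∃ r : RR k (c1 g), (r : KK k) = x / lam k g.1 ^ e ∧
        ∀ y ∈ F0, r • y ∈ N) ?_ ?_ ?_ ?_ hsp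
    · rintro x ⟨i, i', j, hij, hj, rfl⟩
      refine ⟨t ^ i' * s ^ j, ?_, fun y hy => ?_⟩
      · change (lam k h.1 / lam k g.1) ^ i' * (lam k ℓ.1 / lam k g.1) ^ j =
          lam k g.1 ^ i * lam k h.1 ^ i' * lam k ℓ.1 ^ j / lam k g.1 ^ e
        rw [← hij, pow_add, pow_add, div_pow, div_pow]
        field_simp
      · rw [mul_smul]
        exact hmem i' j y hy hj
    · refine ⟨0, ?_, fun y _ => ?_⟩
      · rw [zero_div]
        rfl
      · rw [zero_smul]
        exact N.zero_mem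
    · rintro x y _ _ ⟨r, hr, hr'⟩ ⟨r2, hr2, hr2'⟩
      refine ⟨r + r2, ?_, fun z hz => ?_⟩
      · rw [add_div, ← hr, ← hr2]
        rfl
      · rw [add_smul]
        exact N.add_mem (hr' z hz) (hr2' z hz)
    · rintro b x _ ⟨r, hr, hr'⟩
      refine ⟨b • r, ?_, fun z hz => ?_⟩
      · rw [smul_div_assoc, ← hr]
        rfl
      · rw [smul_assoc]
        exact N.smul_mem b (hr' z hz)
  obtain ⟨r, hr, hrN⟩ := hrel
  have hre : r = q - a • s ^ e := by
    apply Subtype.ext
    change (r : KK k) = (q : KK k) - a • (lam k ℓ.1 / lam k g.1) ^ e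
    rw [hr, hq, sub_div, smul_div_assoc, div_pow]
  have hse : ∀ y ∈ F0, s ^ e • y ∈ N := by
    intro y hy
    have h1 := hrN y hy
    rw [hre, sub_smul, hq0, zero_sub, smul_assoc] at h1
    have h2 := N.smul_mem (-a⁻¹) h1
    rw [smul_neg, neg_smul, neg_neg, smul_smul, inv_mul_cancel₀ ha, one_smul] at h2
    exact h2
  have hsN : ∀ m ∈ N, s • m ∈ N := by
    refine hpres s fun n j y hy hj => ?_
    have h1 : s • t ^ n • s ^ j • y = t ^ n • s ^ (j + 1) • y := by
      rw [← mul_smul, ← mul_smul, ← mul_smul]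
      congr 1
      ring
    rw [h1]
    rcases Nat.lt_or_ge (j + 1) e with h2 | h2
    · exact hmem n (j + 1) y hy h2
    · have h3 : j + 1 = e := by omega
      rw [h3]
      exact htn n _ (hse y hy)
  have hall := TorC_stable M hli N htN hsN
  have hF0N : ∀ y ∈ F0, y ∈ N := by
    intro y hy
    rcases Nat.eq_zero_or_pos e with h0 | h0
    · have h1 := hse y hy
      rw [h0, pow_zero, one_smul] at h1
      exact h1
    · have h1 := hmem 0 0 y hy h0
      rw [pow_zero, pow_zero, one_smul, one_smul] at h1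
      exact h1
  intro m
  have hm : m ∈ Submodule.span (RR k (c1 g)) (F0 : Set (M.M (c1 g))) := by
    rw [hF0]
    exact Submodule.mem_top
  refine Submodule.span_induction (p := fun x _ => x ∈ N) (fun x hx => hF0N x hx) N.zero_mem
    (fun x y _ _ hx hy => N.add_mem hx hy) (fun r x _ hx => hall r x hx) hm

end Pool.Agent.MP_6e5bed_ag_NS
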