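import Pool.Agent.Lib.MP_6e5bed_ag_NS.TorA
import Pool.Agent.Lib.MP_6e5bed_ag_NS.Tail

set_option autoImplicit false

/-!
# MP_6e5bed_ag, NC SURFACES: two charts which cover the support of a torsion sheaf (section 2c)
-/

noncomputable section

namespace Pool.Agent.MP_6e5bed_ag_NS

universe u

variable {k : Type u} [Field k]

private theorem TorD_abs {R M0 Mg Mh Mk : Type*} [CommRing R] [AddCommGroup M0] [Module R M0]
    [AddCommGroup Mg] [Module R Mg] [AddCommGroup Mh] [Module R Mh] [AddCommGroup Mk]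
    [Module R Mk] (a : M0 →ₗ[R] Mg) (b : M0 →ₗ[R] Mh) (p : Mg →ₗ[R] Mk) (q : Mh →ₗ[R] Mk)
    (hpq : ∀ x, p (a x) = q (b x)) (γ δ : R)
    (sa : ∀ m, ∃ (n : ℕ) (m' : M0), a m' = γ ^ n • m) (ia : ∀ m, a m = 0 → ∃ n : ℕ, γ ^ n • m = 0)
    (ua : ∀ m : Mg, γ • m = 0 → m = 0)
    (sb : ∀ m, ∃ (n : ℕ) (m' : M0), b m' = δ ^ n • m) (ib : ∀ m, b m = 0 → ∃ n : ℕ, δ ^ n • m = 0)
    (ub : ∀ m : Mh, δ • m = 0 → m = 0)
    (sq : ∀ w, ∃ (n : ℕ) (z : Mh), q z = γ ^ n • w) (sp : ∀ w, ∃ (n : ℕ) (y : Mg), p y = δ ^ n • w)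
    (ip : ∀ y, p y = 0 → ∃ n : ℕ, δ ^ n • y = 0)
    (H : ∀ n : ℕ, ∃ α β : R, (∀ m : M0, (α * γ ^ n + β * δ ^ n) • m = m) ∧
      (∀ m : Mg, (α * γ ^ n + β * δ ^ n) • m = m) ∧ (∀ m : Mh, (α * γ ^ n + β * δ ^ n) • m = m) ∧
      (∀ m : Mk, (α * γ ^ n + β * δ ^ n) • m = m)) :
    (∀ x, a x = 0 → b x = 0 → x = 0) ∧ (∀ y z, p y = q z → ∃ x, a x = y ∧ b x = z) ∧
      ∀ w, ∃ y z, q z - p y = w := by
  have ua' : ∀ (n : ℕ) (m : Mg), γ ^ n • m = 0 → m = 0 := by
    intro n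
    induction n with
    | zero => intro m hm; rwa [pow_zero, one_smul] at hm
    | succ n ih => intro m hm; rw [pow_succ, mul_smul] at hm; exact ua m (ih _ hm)
  have ub' : ∀ (n : ℕ) (m : Mh), δ ^ n • m = 0 → m = 0 := by
    intro n
    induction n with
    | zero => intro m hm; rwa [pow_zero, one_smul] at hm
    | succ n ih => intro m hm; rw [pow_succ, mul_smul] at hm; exact ub m (ih _ hm)
  refine ⟨?_, ?_, ?_⟩
  · intro x hax hbx
    obtain ⟨n, hn⟩ := ia x hax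
    obtain ⟨m, hm⟩ := ib x hbx
    obtain ⟨α, β, h0, -⟩ := H (n + m)
    have h1 : γ ^ (n + m) • x = 0 := by rw [pow_add, mul_comm, mul_smul, hn, smul_zero]
    have h2 : δ ^ (n + m) • x = 0 := by rw [pow_add, mul_smul, hm, smul_zero]
    rw [← h0 x, add_smul, mul_smul, mul_smul, h1, h2, smul_zero, smul_zero, add_zero]
  · intro y z hyz
    obtain ⟨n1, y1, hy1⟩ := sa y
    obtain ⟨n2, z1, hz1⟩ := sb z
    obtain ⟨n, y', z', hy', hz'⟩ : ∃ (n : ℕ) (y' z' : M0), a y' = γ ^ n • y ∧ b z' = δ ^ n • z := by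
      refine ⟨n1 + n2, γ ^ n2 • y1, δ ^ n1 • z1, ?_, ?_⟩
      · rw [map_smul, hy1, ← mul_smul, ← pow_add, add_comm]
      · rw [map_smul, hz1, ← mul_smul, ← pow_add]
    have hu : p (a (δ ^ n • y' - γ ^ n • z')) = 0 := by
      rw [map_sub, map_sub, map_smul, map_smul, hy', map_smul, map_smul, map_smul, hpq, hz',
        map_smul, hyz, ← mul_smul, ← mul_smul, mul_comm, sub_self]
    obtain ⟨m1, hm1⟩ := ip _ hu
    rw [← map_smul] at hm1
    obtain ⟨m2, hm2⟩ := ia _ hm1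
    have hN : (γ ^ (m1 + m2) * δ ^ (m1 + m2)) • (δ ^ n • y' - γ ^ n • z') = 0 := by
      have : γ ^ (m1 + m2) * δ ^ (m1 + m2) = (γ ^ m1 * δ ^ m2) * (γ ^ m2 * δ ^ m1) := by ring
      rw [this, mul_smul, mul_smul (γ ^ m2), hm2, smul_zero]
    obtain ⟨N, hN⟩ : ∃ N : ℕ, (γ ^ N * δ ^ N) • (δ ^ n • y' - γ ^ n • z') = 0 := ⟨_, hN⟩
    obtain ⟨α, β, -, hg, hh, -⟩ := H (n + N)
    have e1 : a (γ ^ N • y') = γ ^ (n + N) • y := by
      rw [map_smul, hy', ← mul_smul, ← pow_add, add_comm]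
    have e2 : b (δ ^ N • z') = δ ^ (n + N) • z := by
      rw [map_smul, hz', ← mul_smul, ← pow_add, add_comm]
    have e3 : δ ^ (n + N) • (γ ^ N • y') = γ ^ (n + N) • (δ ^ N • z') := by
      rw [smul_sub, sub_eq_zero, ← mul_smul, ← mul_smul] at hN
      rw [← mul_smul, ← mul_smul]
      have t1 : δ ^ (n + N) * γ ^ N = γ ^ N * δ ^ N * δ ^ n := by ring
      have t2 : γ ^ (n + N) * δ ^ N = γ ^ N * δ ^ N * γ ^ n := by ring
      rw [t1, t2]
      exact hN
    have e4 : a (δ ^ N • z') = δ ^ (n + N) • y := by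
      rw [← sub_eq_zero]
      apply ua' (n + N)
      rw [smul_sub, ← map_smul, ← e3, map_smul, e1, ← mul_smul, ← mul_smul, mul_comm, sub_self]
    have e5 : b (γ ^ N • y') = γ ^ (n + N) • z := by
      rw [← sub_eq_zero]
      apply ub' (n + N)
      rw [smul_sub, ← map_smul, e3, map_smul, e2, ← mul_smul, ← mul_smul, mul_comm, sub_self]
    refine ⟨α • (γ ^ N • y') + β • (δ ^ N • z'), ?_, ?_⟩
    · rw [map_add, map_smul, map_smul a β, e1, e4, ← mul_smul, ← mul_smul, ← add_smul]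
      exact hg y
    · rw [map_add, map_smul, map_smul b β, e5, e2, ← mul_smul, ← mul_smul, ← add_smul]
      exact hh z
  · intro w
    obtain ⟨n1, z1, hz1⟩ := sq w
    obtain ⟨n2, y1, hy1⟩ := sp w
    obtain ⟨α, β, -, -, -, hk⟩ := H (n1 + n2)
    refine ⟨- (β • (δ ^ n1 • y1)), α • (γ ^ n2 • z1), ?_⟩
    rw [map_neg, sub_neg_eq_add, map_smul, map_smul, map_smul, map_smul, hz1, hy1]
    have t1 : α • γ ^ n2 • γ ^ n1 • w = (α * γ ^ (n1 + n2)) • w := by
      rw [← mul_smul, ← mul_smul]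
      congr 1
      ring
    have t2 : β • δ ^ n1 • δ ^ n2 • w = (β * δ ^ (n1 + n2)) • w := by
      rw [← mul_smul, ← mul_smul]
      congr 1
      ring
    rw [t1, t2, ← add_smul]
    exact hk w

/-- the functions `g / c₀`, `h / c₀`, `P / c₀ ^ e` generate the unit ideal -/
private theorem TorD_top {e : ℕ} {P : MvPolynomial (Fin 3) k} (hP : P.IsHomogeneous e)
    {g h ℓ : LF k} (H : PRel e P g h ℓ) (c : Ch k) {c0 : LF k} (hc0 : c0 ∈ c.1) :
    Ideal.span {quo g.1 hc0, quo h.1 hc0, (⟨_, ev_mem hP hc0⟩ : RR k c)} = ⊤ := by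
  obtain ⟨hli, a, ha, hrel⟩ := H
  set γ : RR k c := quo g.1 hc0 with hγ
  set δ : RR k c := quo h.1 hc0 with hδ
  set ε : RR k c := quo ℓ.1 hc0 with hε
  set s : RR k c := ⟨_, ev_mem hP hc0⟩ with hs
  have hw := lam_ne_zero c0
  -- monomials
  have hmon : ∀ x ∈ Submodule.span k {x | ∃ i i' j : ℕ, i + i' + j = e ∧ j < e ∧
      x = lam k g.1 ^ i * lam k h.1 ^ i' * lam k ℓ.1 ^ j},
      ∃ r ∈ Ideal.span {γ, δ, s}, (r : KK k) = x / lam k c0.1 ^ e := by
    intro x hx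
    induction hx using Submodule.span_induction with
    | mem x hx =>
      obtain ⟨i, i', j, hij, hj, rfl⟩ := hx
      refine ⟨γ ^ i * δ ^ i' * ε ^ j, ?_, ?_⟩
      · rcases Nat.eq_zero_or_pos i with h0 | h0
        · have h1 : i' ≠ 0 := by omega
          obtain ⟨t, rfl⟩ := Nat.exists_eq_succ_of_ne_zero h1
          have : γ ^ i * δ ^ (t + 1) * ε ^ j = (γ ^ i * δ ^ t * ε ^ j) * δ := by ring
          rw [Nat.succ_eq_add_one, this]
          exact Ideal.mul_mem_left _ _ (Ideal.subset_span (by simp))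
        · obtain ⟨t, rfl⟩ := Nat.exists_eq_succ_of_ne_zero h0.ne'
          have : γ ^ (t + 1) * δ ^ i' * ε ^ j = (γ ^ t * δ ^ i' * ε ^ j) * γ := by ring
          rw [Nat.succ_eq_add_one, this]
          exact Ideal.mul_mem_left _ _ (Ideal.subset_span (by simp))
      · change (lam k g.1 / lam k c0.1) ^ i * (lam k h.1 / lam k c0.1) ^ i' *
          (lam k ℓ.1 / lam k c0.1) ^ j = _
        rw [← hij, pow_add, pow_add, div_pow, div_pow, div_pow]
        field_simp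
    | zero => exact ⟨0, zero_mem _, by simp⟩
    | add x y _ _ hx hy =>
      obtain ⟨r, hr, h1⟩ := hx
      obtain ⟨t, ht, h2⟩ := hy
      refine ⟨r + t, add_mem hr ht, ?_⟩
      rw [Subalgebra.coe_add, h1, h2, add_div]
    | smul b x _ hx =>
      obtain ⟨r, hr, h1⟩ := hx
      refine ⟨algebraMap k (RR k c) b * r, Ideal.mul_mem_left _ _ hr, ?_⟩
      rw [Subalgebra.coe_mul, h1, Algebra.smul_def, mul_div_assoc]
      rfl
  have heps : ε ^ e ∈ Ideal.span {γ, δ, s} := by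
    obtain ⟨r, hr, h1⟩ := hmon _ hrel
    have h2 : ε ^ e = algebraMap k (RR k c) a⁻¹ * (s - r) := by
      apply Subtype.ext
      change (lam k ℓ.1 / lam k c0.1) ^ e = algebraMap k (KK k) a⁻¹ *
        (ev P / lam k c0.1 ^ e - (r : KK k))
      rw [h1, ← sub_div, sub_sub_cancel, ← mul_div_assoc, ← Algebra.smul_def, smul_smul,
        inv_mul_cancel₀ ha, one_smul, div_pow]
    rw [h2]
    exact Ideal.mul_mem_left _ _ (sub_mem (Ideal.subset_span (by simp)) hr)
  -- the linear form c0 is a combination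
  have hbas : (⊤ : Submodule k (Fin 3 → k)) ≤ Submodule.span k (Set.range ![g.1, h.1, ℓ.1]) := by
    have h1 := hli.span_eq_top_of_card_eq_finrank' (by simp)
    rw [h1]
  have hone : ∃ x y z : k, c0.1 = x • g.1 + y • h.1 + z • ℓ.1 := by
    have h1 : c0.1 ∈ Submodule.span k (Set.range ![g.1, h.1, ℓ.1]) := hbas trivial
    rw [Submodule.mem_span_range_iff_exists_fun] at h1
    obtain ⟨f, hf⟩ := h1
    refine ⟨f 0, f 1, f 2, ?_⟩
    rw [← hf, Fin.sum_univ_three]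
    rfl
  obtain ⟨x, y, z, hxyz⟩ := hone
  have hlin : ∀ (a b : Fin 3 → k), lam k (a + b) = lam k a + lam k b := by
    intro a b
    simp [lam, add_smul, Finset.sum_add_distrib]
  have hlin2 : ∀ (t : k) (b : Fin 3 → k), lam k (t • b) = t • lam k b := by
    intro t b
    simp [lam, Finset.smul_sum, mul_smul]
  have h1 : (1 : RR k c) = algebraMap k (RR k c) x * γ + algebraMap k (RR k c) y * δ +
      algebraMap k (RR k c) z * ε := by
    apply Subtype.ext
    change (1 : KK k) = algebraMap k (KK k) x * (lam k g.1 / lam k c0.1) +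
      algebraMap k (KK k) y * (lam k h.1 / lam k c0.1) +
      algebraMap k (KK k) z * (lam k ℓ.1 / lam k c0.1)
    have h2 : lam k c0.1 = x • lam k g.1 + y • lam k h.1 + z • lam k ℓ.1 := by
      conv_lhs => rw [hxyz, hlin, hlin, hlin2, hlin2, hlin2]
    rw [← mul_div_assoc, ← mul_div_assoc, ← mul_div_assoc, ← add_div, ← add_div,
      ← Algebra.smul_def, ← Algebra.smul_def, ← Algebra.smul_def, ← h2, div_self hw]
  rw [← Ideal.radical_eq_top, Ideal.eq_top_iff_one, h1]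
  refine add_mem (add_mem (Ideal.mul_mem_left _ _ (Ideal.le_radical (Ideal.subset_span
    (by simp)))) (Ideal.mul_mem_left _ _ (Ideal.le_radical (Ideal.subset_span (by simp)))))
    (Ideal.mul_mem_left _ _ ⟨e, heps⟩)

private theorem TorD_unit (M : Shf k) {e : ℕ} {P : MvPolynomial (Fin 3) k}
    (hP : P.IsHomogeneous e) (hk : Kills M e P) {g h ℓ : LF k} (H : PRel e P g h ℓ) (c : Ch k)
    {c0 : LF k} (hc0 : c0 ∈ c.1) (n : ℕ) :
    ∃ α β : RR k c, ∀ {d : Ch k} (hd : c ≤ d) (m : M.M d),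
      rinc hd (α * quo g.1 hc0 ^ n + β * quo h.1 hc0 ^ n) • m = m := by
  have htop := TorD_top hP H c hc0
  have htop2 : Ideal.span {quo g.1 hc0 ^ n, quo h.1 hc0 ^ n,
      (⟨_, ev_mem hP hc0⟩ : RR k c)} = ⊤ := by
    rw [← Ideal.radical_eq_top, ← top_le_iff, ← htop, Ideal.span_le]
    rintro x (rfl | rfl | rfl)
    · exact ⟨n, Ideal.subset_span (by simp)⟩
    · exact ⟨n, Ideal.subset_span (by simp)⟩
    · exact Ideal.le_radical (Ideal.subset_span (by simp))
  have h1 : (1 : RR k c) ∈ Ideal.span {quo g.1 hc0 ^ n, quo h.1 hc0 ^ n,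
      (⟨_, ev_mem hP hc0⟩ : RR k c)} := by rw [htop2]; trivial
  rw [Ideal.mem_span_insert] at h1
  obtain ⟨α, z, hz, h1⟩ := h1
  rw [Ideal.mem_span_pair] at hz
  obtain ⟨β, σ, hz⟩ := hz
  refine ⟨α, β, fun {d} hd m => ?_⟩
  have h2 : α * quo g.1 hc0 ^ n + β * quo h.1 hc0 ^ n = 1 - σ * ⟨_, ev_mem hP hc0⟩ := by
    rw [h1, ← hz]
    ring
  rw [h2, map_sub, map_one, map_mul, sub_smul, one_smul, mul_smul,
    hk d c0 (hd hc0) _ (rinc_coe hd _) m, smul_zero, sub_zero]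

/-- restriction as a linear map over the functions on the chart -/
private def TorD_res0 (M : Shf k) {c d : Ch k} (hd : c ≤ d) :
    letI : Module (RR k c) (M.M d) := Module.compHom (M.M d) (rinc hd).toRingHom
    M.M c →ₗ[RR k c] M.M d :=
  letI : Module (RR k c) (M.M d) := Module.compHom (M.M d) (rinc hd).toRingHom
  { toFun := M.res hd
    map_add' := map_add _
    map_smul' := fun r m => M.res_smul hd r m }

/-- restriction as a linear map over the functions on a smaller chart -/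
private def TorD_res (M : Shf k) {c d d' : Ch k} (hd : c ≤ d) (hd' : c ≤ d') (h : d ≤ d') :
    letI : Module (RR k c) (M.M d) := Module.compHom (M.M d) (rinc hd).toRingHom
    letI : Module (RR k c) (M.M d') := Module.compHom (M.M d') (rinc hd').toRingHom
    M.M d →ₗ[RR k c] M.M d' :=
  letI : Module (RR k c) (M.M d) := Module.compHom (M.M d) (rinc hd).toRingHom
  letI : Module (RR k c) (M.M d') := Module.compHom (M.M d') (rinc hd').toRingHom
  { toFun := M.res h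
    map_add' := map_add _
    map_smul' := fun r m => by
      change M.res h (rinc hd r • m) = rinc hd' r • M.res h m
      have h1 : rinc h (rinc hd r) = rinc hd' r :=
        Subtype.ext (by rw [rinc_coe, rinc_coe, rinc_coe])
      rw [M.res_smul, h1] }

private theorem TorD_quo {c d : Ch k} (hd : c ≤ d) (l : LF k) {c0 : LF k} (hc0 : c0 ∈ c.1)
    (n : ℕ) : rinc hd (quo l.1 hc0 ^ n) = quo l.1 (hd hc0) ^ n := by
  have h1 : rinc hd (quo l.1 hc0) = quo l.1 (hd hc0) := Subtype.ext (by rw [rinc_coe]; rfl)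
  rw [map_pow, h1]

private theorem TorD_self (M : Shf k) {c : Ch k} (hd : c ≤ c) (r : RR k c) (m : M.M c) :
    rinc hd r • m = r • m := by
  have h1 : rinc hd r = r := Subtype.ext (rinc_coe hd r)
  rw [h1]

private theorem TorD_inj (M : Shf k) {c d : Ch k} (hd : c ≤ d) {l : LF k} (hl : l ∈ d.1)
    {c0 : LF k} (hc0 : c0 ∈ c.1) (m : M.M d) (h : rinc hd (quo l.1 hc0) • m = 0) : m = 0 := by
  have h1 := TorD_quo hd l hc0 1
  rw [pow_one, pow_one] at h1
  rw [h1] at h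
  have h2 := quo_mul_quo (c := d) (hd hc0) hl
  have h3 : quo c0.1 hl • (quo l.1 (hd hc0) • m) = m := by
    rw [← mul_smul, h2, one_smul]
  rw [← h3, h, smul_zero]

/-- PROOF. Let `c₀ ∈ c`, `γ = g / c₀`, `δ = h / c₀`, `ε = ℓ / c₀`, `s = P / c₀ ^ e`, elements of
`R_c`. `(γ, δ, ε)` is the unit ideal (`1 = c₀ / c₀` is a combination of `γ, δ, ε`), and by the
relation `a ε ^ e` is in `(γ, δ, s)`; so `(γ, δ, s)` and `(γ ^ n, δ ^ n, s)` are the unit ideal
for all `n`. Because `s` kills `M` on all charts: for every `n` there are `α, β ∈ R_c` with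
`α γ ^ n + β δ ^ n = 1` on `M c` (and on the larger charts). Now the usual argument:
injectivity: `γ ^ n x = δ ^ n x = 0` by `M.inj`. Exactness in the middle: `y`, `z` with the same
restriction; `γ ^ n y` and `δ ^ n z` come from `y', z' ∈ M c` (`M.surj`); after enlarging `n`
(`M.inj`) `δ ^ n y' = γ ^ n z'`, and `x = α y' + β z'`.
Surjectivity: `γ ^ n w` comes from `z ∈ M (c ∪ h)`, `δ ^ n w` from `y ∈ M (c ∪ g)`,
`w = α γ ^ n w + β δ ^ n w`. -/
theorem tor_sq (M : Shf k) {e : ℕ} {P : MvPolynomial (Fin 3) k} (hP : P.IsHomogeneous e)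
    (hk : Kills M e P) {g h ℓ : LF k} (H : PRel e P g h ℓ) (c : Ch k) : SQ M.pc g h c := by
  obtain ⟨c0, hc0⟩ := c.2.1
  have i0 : c ≤ c := le_refl c
  have ig : c ≤ c.fs.ins g := le_ins' c g
  have ih : c ≤ c.fs.ins h := le_ins' c h
  have igk : c.fs.ins g ≤ (c.fs.ins h).fs.ins g := ins_mono (le_ins c.fs h) g
  have ihk : c.fs.ins h ≤ (c.fs.ins h).fs.ins g := le_ins' (c.fs.ins h) g
  have ik : c ≤ (c.fs.ins h).fs.ins g := ig.trans igk
  have hgg : g ∈ (c.fs.ins g).1 := Set.mem_insert _ _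
  have hhh : h ∈ (c.fs.ins h).1 := Set.mem_insert _ _
  have ikg : (c.fs.ins h).fs.ins g ≤ (c.fs.ins g).ins h := by
    change insert g (insert h c.1) ⊆ insert h (insert g c.1)
    rw [Set.insert_comm]
  let mg : Module (RR k c) (M.M (c.fs.ins g)) :=
    Module.compHom (M.M (c.fs.ins g)) (rinc ig).toRingHom
  let mh : Module (RR k c) (M.M (c.fs.ins h)) :=
    Module.compHom (M.M (c.fs.ins h)) (rinc ih).toRingHom
  let mk : Module (RR k c) (M.M ((c.fs.ins h).fs.ins g)) :=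
    Module.compHom (M.M ((c.fs.ins h).fs.ins g)) (rinc ik).toRingHom
  refine TorD_abs (TorD_res0 M ig) (TorD_res0 M ih) (TorD_res M ig ik igk)
    (TorD_res M ih ik ihk) ?_ (quo g.1 hc0) (quo h.1 hc0) ?_ ?_ ?_ ?_ ?_ ?_ ?_ ?_ ?_ ?_
  · intro x
    change M.res igk (M.res ig x) = M.res ihk (M.res ih x)
    rw [M.res_res, M.res_res]
  · intro m
    obtain ⟨n, m', hm⟩ := M.surj ig hc0 g (le_refl _) m
    refine ⟨n, m', ?_⟩
    change M.res ig m' = rinc ig (quo g.1 hc0 ^ n) • m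
    rw [TorD_quo, hm]
  · intro m hm
    obtain ⟨n, hn⟩ := M.inj ig hc0 g (le_refl _) m hm
    refine ⟨n, ?_⟩
    exact hn
  · intro m hm
    exact TorD_inj M ig hgg hc0 m hm
  · intro m
    obtain ⟨n, m', hm⟩ := M.surj ih hc0 h (le_refl _) m
    refine ⟨n, m', ?_⟩
    change M.res ih m' = rinc ih (quo h.1 hc0 ^ n) • m
    rw [TorD_quo, hm]
  · intro m hm
    obtain ⟨n, hn⟩ := M.inj ih hc0 h (le_refl _) m hm
    refine ⟨n, ?_⟩
    exact hn
  · intro m hm
    exact TorD_inj M ih hhh hc0 m hm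
  · intro w
    obtain ⟨n, z, hz⟩ := M.surj ihk (ih hc0) g (le_refl _) w
    refine ⟨n, z, ?_⟩
    change M.res ihk z = rinc ik (quo g.1 hc0 ^ n) • w
    rw [TorD_quo, hz]
  · intro w
    obtain ⟨n, y, hy⟩ := M.surj igk (ig hc0) h ikg w
    refine ⟨n, y, ?_⟩
    change M.res igk y = rinc ik (quo h.1 hc0 ^ n) • w
    rw [TorD_quo, hy]
  · intro y hy
    obtain ⟨n, hn⟩ := M.inj igk (ig hc0) h ikg y hy
    refine ⟨n, ?_⟩
    change rinc ig (quo h.1 hc0 ^ n) • y = 0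
    rw [TorD_quo, hn]
  · intro n
    obtain ⟨α, β, hab⟩ := TorD_unit M hP hk H c hc0 n
    exact ⟨α, β, fun m => (TorD_self M i0 _ m).symm.trans (hab i0 m), fun m => hab ig m, fun m => hab ih m, fun m => hab ik m⟩

end Pool.Agent.MP_6e5bed_ag_NS
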