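import Pool.Agent.Lib.MP_6e5bed_ag_NS.Mem
import Pool.Agent.Lib.MP_6e5bed_ag_NS.Lam
import Pool.Agent.Lib.MP_6e5bed_ag_CV.Coh

set_option autoImplicit false

/-!
# MP_6e5bed_ag, NC SURFACES: bimodules finite over a line are coherent bimodules on the line
-/

noncomputable section

namespace Pool.Agent.MP_6e5bed_ag_NS

open Pool.Agent.MP_6e5bed_ag_NC

universe u

variable {k : Type u} [Field k] {A B : ASh k}

private theorem TorE_l (M : BSh A B) (c : Ch k) (s : RR k c) (a : A.M c) (m : M.M c) :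
    s • M.l c a m = M.l c a (s • m) := by
  have h1 : s • m = M.l c (s • A.one c) m := by rw [M.smul_l, M.l_one]
  rw [h1, ← M.l_mul, A.mul_smul, A.mul_one, M.smul_l]

private theorem TorE_r (M : BSh A B) (c : Ch k) (s : RR k c) (b : B.M c) (m : M.M c) :
    s • M.r c b m = M.r c b (s • m) := by
  have h1 : s • m = M.r c (s • B.one c) m := by rw [M.smul_r, M.r_one]
  rw [h1, ← M.r_mul, B.smul_mul, B.one_mul, M.smul_r]

private theorem TorE_pow (M : Shf k) (c : Ch k) (s : RR k c) (n : ℕ) (m : M.M c) :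
    (mulq M c s ^ n) m = s ^ n • m := by
  induction n generalizing m with
  | zero =>
    rw [pow_zero, pow_zero, one_smul]
    rfl
  | succ n ih =>
    rw [pow_succ, Module.End.mul_apply, ih, pow_succ, ← smul_smul]
    rfl

private theorem TorE_res (M : Shf k) {c d : Ch k} (hcd : c ≤ d) (ℓ : Fin 3 → k) {g : LF k}
    (hg : g ∈ c.1) (hg' : g ∈ d.1) (m : M.M c) :
    M.res hcd (quo ℓ hg • m) = quo ℓ hg' • M.res hcd m := by
  rw [M.res_smul]
  have h1 : rinc hcd (quo ℓ hg) = quo ℓ hg' := by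
    refine Subtype.ext ?_
    rw [rinc_coe]
    rfl
  rw [h1]

private theorem TorE_one {c : Ch k} {g h : LF k} (hg : g ∈ c.1) (hh : h ∈ c.1) :
    quo h.1 hg * quo g.1 hh = 1 := by
  have h1 : lam k g.1 ≠ 0 := lam_ne_zero g
  have h2 : lam k h.1 ≠ 0 := lam_ne_zero h
  refine Subtype.ext ?_
  change lam k h.1 / lam k g.1 * (lam k g.1 / lam k h.1) = 1
  field_simp

private theorem TorE_inv (M : Shf k) {c : Ch k} {g h : LF k} (hg : g ∈ c.1) (hh : h ∈ c.1)
    (m : M.M c) : quo h.1 hg • quo g.1 hh • m = m := by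
  rw [smul_smul, TorE_one, one_smul]

/-- `M` on `g ≠ 0` is finitely generated over `k[h / g]`, on `h ≠ 0` over `k[g / h]`; then it is a
coherent bimodule on the line with the coordinate `t = h / g`. The localisation properties are
`M.surj`, `M.inj`; functions act in the same way on both sides (`smul_l`, `l (r • m) = r • l m`
from `smul_l`, `l_mul` with the central elements `r • 1`). -/
theorem tri_coh (M : BSh A B) (g h : LF k)
    (f0 : ∃ F : Finset (M.M (c1 g)), ∀ m, m ∈ Submodule.span k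
      {x | ∃ y ∈ F, ∃ n : ℕ, x = quo h.1 (g_mem g) ^ n • y})
    (f1 : ∃ F : Finset (M.M (c1 h)), ∀ m, m ∈ Submodule.span k
      {x | ∃ y ∈ F, ∃ n : ℕ, x = quo g.1 (g_mem h) ^ n • y}) :
    IsCohTri (tri M g h) (mulq M.toShf (c1 g) (quo h.1 (g_mem g)))
      (mulq M.toShf (c1 h) (quo g.1 (g_mem h)))
      (mulq M.toShf (c2 g h) (quo h.1 (g_mem2 g h)))
      (mulq M.toShf (c2 g h) (quo g.1 (h_mem2 g h))) := by
  have hd0 : c2 g h ≤ (c1 g).ins h := by
    intro x hx
    rcases hx with hx | hx | hx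
    · exact Or.inr (Or.inl hx)
    · exact Or.inl hx
    · exact absurd hx (Set.notMem_empty x)
  have hd1 : c2 g h ≤ (c1 h).ins g := by
    intro x hx
    rcases hx with hx | hx | hx
    · exact Or.inl hx
    · exact Or.inr (Or.inl hx)
    · exact absurd hx (Set.notMem_empty x)
  refine ⟨fun a m => TorE_l M _ _ a m, fun b m => TorE_r M _ _ b m, fun a m => TorE_l M _ _ a m,
    fun b m => TorE_r M _ _ b m, fun a m => TorE_l M _ _ a m, fun b m => TorE_r M _ _ b m,
    fun m => ?_, fun m => ?_, fun m => ?_, fun m => ?_, fun m => ?_, fun m => ?_, fun m hm => ?_,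
    fun m hm => ?_, ?_, ?_⟩
  · exact TorE_inv M.toShf (g_mem2 g h) (h_mem2 g h) m
  · exact TorE_inv M.toShf (h_mem2 g h) (g_mem2 g h) m
  · exact TorE_res M.toShf (c1_le g h) h.1 (g_mem g) (g_mem2 g h) m
  · exact TorE_res M.toShf (c1_le' g h) g.1 (g_mem h) (h_mem2 g h) m
  · obtain ⟨n, m', hm⟩ := M.surj (c1_le g h) (g_mem g) h hd0 m
    exact ⟨n, m', (TorE_pow M.toShf _ _ n m).trans hm.symm⟩
  · obtain ⟨n, m', hm⟩ := M.surj (c1_le' g h) (g_mem h) g hd1 m
    exact ⟨n, m', (TorE_pow M.toShf _ _ n m).trans hm.symm⟩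
  · obtain ⟨n, hn⟩ := M.inj (c1_le g h) (g_mem g) h hd0 m hm
    exact ⟨n, (TorE_pow M.toShf _ _ n m).trans hn⟩
  · obtain ⟨n, hn⟩ := M.inj (c1_le' g h) (g_mem h) g hd1 m hm
    exact ⟨n, (TorE_pow M.toShf _ _ n m).trans hn⟩
  · obtain ⟨F, hF⟩ := f0
    refine ⟨F, fun a => Submodule.span_mono ?_ (hF a)⟩
    rintro x ⟨y, hy, n, rfl⟩
    exact ⟨y, hy, n, (TorE_pow M.toShf _ _ n y).symm⟩
  · obtain ⟨F, hF⟩ := f1
    refine ⟨F, fun a => Submodule.span_mono ?_ (hF a)⟩
    rintro x ⟨y, hy, n, rfl⟩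
    exact ⟨y, hy, n, (TorE_pow M.toShf _ _ n y).symm⟩

end Pool.Agent.MP_6e5bed_ag_NS
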