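import Pool.Agent.Lib.MP_6e5bed_ag_NS.BaseC
import Pool.Agent.Lib.MP_6e5bed_ag_NS.TorB
import Pool.Agent.Lib.MP_6e5bed_ag_NS.TorC
import Pool.Agent.Lib.MP_6e5bed_ag_NS.TorD
import Pool.Agent.Lib.MP_6e5bed_ag_NS.TorE
import Pool.Agent.Lib.MP_6e5bed_ag_NS.RMStepB
import Pool.Agent.Lib.MP_6e5bed_ag_NS.Loc

set_option autoImplicit false

/-!
# MP_6e5bed_ag, NC SURFACES: the classes of torsion bimodules (section 3)
-/

noncomputable section

namespace Pool.Agent.MP_6e5bed_ag_NS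

open Pool.Agent.MP_6e5bed_ag_NC

universe u

variable {k : Type u} [Field k]

/-- The Čech complex with respect to a list which contains the coordinates computes the sections on
charts. -/
theorem aug_list (M : Shf k) (L : List (LF k)) (hL : ∀ i, xx k i ∈ L) (c : Ch k) :
    ((cC M.pc L).a c).QI := by
  obtain ⟨g, hg⟩ := c.2.1
  exact aug_qi M L c hg (span_coord L hL c hg)

theorem FF_has (i : Fin 3) : xx k i ∈ FF k := by
  fin_cases i
  · exact List.mem_cons_of_mem _ (List.mem_cons_of_mem _ List.mem_cons_self)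
  · exact List.mem_cons_of_mem _ List.mem_cons_self
  · exact List.mem_cons_self

/-- the Čech algebra with two additional charts -/
def TT2 (A : ASh k) (g h : LF k) : DGA k := cA A.pa (h :: g :: FF k) (FS.e k)

/-- forgetting the two additional charts -/
def r2 (A : ASh k) (g h : LF k) : DHom (TT2 A g h) (TT A) :=
  (cA.pr A.pa h (g :: FF k) (FS.e k)).comp (cA.pr A.pa g (FF k) (FS.e k))

theorem DQI.comp {T T' T'' : DGA k} {r : DHom T T'} {r' : DHom T' T''} (h : DQI r)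
    (h' : DQI r') : DQI (r.comp r') := by
  obtain ⟨h1, h2⟩ := h
  obtain ⟨h1', h2'⟩ := h'
  refine ⟨fun x hx hy => ?_, fun z hz => ?_⟩
  · exact h1 x hx (h1' (r.f x) (by rw [r.d, hx, map_zero]) hy)
  · obtain ⟨y, hy, w, hw⟩ := h2' z hz
    obtain ⟨x, hx, v, hv⟩ := h2 y hy
    refine ⟨x, hx, w + r'.f v, ?_⟩
    change T''.dg.d (w + r'.f v) = z - r'.f (r.f x)
    rw [map_add, hw, r'.d, hv, map_sub]
    abel

theorem pr_dqi (A : ASh k) (l : LF k) (L : List (LF k)) (hL : ∀ i, xx k i ∈ L) :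
    DQI (cA.pr A.pa l L (FS.e k)) := by
  have h := co_pr0_qi ((cC A.pa.pc L).ρ (le_ins (FS.e k) l)) (aug_list A.toShf L hL _)
  exact h

theorem pr_qi (M : Shf k) (l : LF k) (L : List (LF k)) (hL : ∀ i, xx k i ∈ L) :
    (((cC M.pc L).pr l).g (FS.e k)).QI :=
  co_pr0_qi ((cC M.pc L).ρ (le_ins (FS.e k) l)) (aug_list M L hL _)

theorem r2_dqi (A : ASh k) (g h : LF k) : DQI (r2 A g h) :=
  (pr_dqi A h (g :: FF k) (fun i => List.mem_cons_of_mem _ (FF_has i))).comp
    (pr_dqi A g (FF k) FF_has)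

variable {A : ASh k}

/-- the Čech bimodule with two additional charts -/
def BB2 (M : BSh A A) (g h : LF k) : Bim (TT2 A g h) (TT2 A g h) :=
  cB M.pb (h :: g :: FF k) (FS.e k)

/-- the map which forgets the additional charts -/
def b2 (M : BSh A A) (g h : LF k) :
    GMap 0 (BB2 M g h) (res (r2 A g h) (r2 A g h) (BB M)) :=
  (cB.pr M.pb h (g :: FF k) (FS.e k)).comp (GMap.res _ _ (cB.pr M.pb g (FF k) (FS.e k)))
    (add_zero 0)

theorem b2_qiso (M : BSh A A) (g h : LF k) : QIso (b2 M g h) := by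
  have h1 : QIso (cB.pr M.pb h (g :: FF k) (FS.e k)) := cB_pr_qiso M.pb h (g :: FF k) (FS.e k)
    (aug_list M.toShf (g :: FF k) (fun i => List.mem_cons_of_mem _ (FF_has i)) _)
  have h2 : QIso (cB.pr M.pb g (FF k) (FS.e k)) := cB_pr_qiso M.pb g (FF k) (FS.e k)
    (aug_list M.toShf (FF k) FF_has _)
  have h3 : QIso (GMap.res (cA.pr A.pa h (g :: FF k) (FS.e k))
      (cA.pr A.pa h (g :: FF k) (FS.e k)) (cB.pr M.pb g (FF k) (FS.e k))) := h2
  exact h1.comp h3

/-- the dg map to the Čech algebra of the line -/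
def a2 (A : ASh k) (g h : LF k) : DHom (TT2 A g h) (cosp A g h).cech :=
  (cA.tl A.pa [h, g] (FF k) (FS.e k)).comp (cmpH A g h)

/-- Torsion bimodules with a good pair of lines. -/
theorem tors_gh [IsAlgClosed k] {Good : DGA k → Prop} (hG : Good (base k))
    (hW : ∀ W, IsCurve W → Smooth W ∧ Good W) (hT : Smooth (TT A)) (hp : Proper (TT A))
    (M : BSh A A) (hM : M.toShf.Coh) {e : ℕ} {P : MvPolynomial (Fin 3) k}
    (hP : P.IsHomogeneous e) (hk : Kills M.toShf e P) {g h ℓ : LF k} (H : PRel e P g h ℓ) :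
    ∃ h : HasRes (BB M), rcls _ h ∈ JS Good (TT A) := by
  have hS : Smooth (TT2 A g h) := bc_smooth (r2 A g h) (r2_dqi A g h) hT
  have hc := tri_coh M g h (tor_fin M.toShf hM hP hk H) (tor_fin M.toShf hM hP hk H.symm)
  obtain ⟨c1, m1⟩ := rcoh_mem hG hW hS (a2 A g h) hc
  have ht : QIso (cB.tl M.pb [h, g] (FF k) (FS.e k)) :=
    cB_tl_qiso M.pb g h (FF k) (fun d _ => tor_sq M.toShf hP hk H d)
  have hi : BIso (res (cA.tl A.pa [h, g] (FF k) (FS.e k)) (cA.tl A.pa [h, g] (FF k) (FS.e k))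
      (cB M.pb [h, g] (FS.e k))) (res (a2 A g h) (a2 A g h) (tri M g h).bim) :=
    biso_res _ _ (cmp_tri M g h)
  have c2 : HasRes (res (cA.tl A.pa [h, g] (FF k) (FS.e k))
      (cA.tl A.pa [h, g] (FF k) (FS.e k)) (cB M.pb [h, g] (FS.e k))) := c1.iso hi.symm
  have c3 : HasRes (BB2 M g h) := c2.of_qiso' _ ht
  have c4 : HasRes (res (r2 A g h) (r2 A g h) (BB M)) := c3.of_qiso (b2 M g h) (b2_qiso M g h)
  have e1 : rcls _ c3 = rcls _ c4 := rcls_qiso c3 c4 (b2 M g h) (b2_qiso M g h)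
  have e2 : rcls _ c3 = rcls _ c1 := (rcls_qiso c3 c2 _ ht).trans (rcls_iso hi c2 c1)
  have m4 : rcls _ c4 ∈ JS Good (TT2 A g h) := by
    rw [← e1, e2]
    exact m1
  exact bc_mem (r2 A g h) (r2_dqi A g h) hT hp c4 m4

/-- The class of a coherent torsion bimodule factors through `k` and curves. -/
theorem tors_mem [IsAlgClosed k] {Good : DGA k → Prop} (hG : Good (base k))
    (hW : ∀ W, IsCurve W → Smooth W ∧ Good W) (hT : Smooth (TT A)) (hp : Proper (TT A))
    (M : BSh A A) (hM : M.toShf.Coh) (ht : M.toShf.Tors) :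
    ∃ h : HasRes (BB M), rcls _ h ∈ JS Good (TT A) := by
  obtain ⟨e, P, hP, h0, hk⟩ := exists_ann M.toShf hM ht
  obtain ⟨g, h, ℓ, H⟩ := exists_gh hP h0
  exact tors_gh hG hW hT hp M hM hP hk H

/-- Coherent torsion bimodules have finite-dimensional cohomology. -/
theorem tors_finCoh [Infinite k] {A B : ASh k} (M : BSh A B) (hM : M.toShf.Coh)
    (ht : M.toShf.Tors) : (CC M.toShf).dg.FinCoh := by
  obtain ⟨e, P, hP, h0, hk⟩ := exists_ann M.toShf hM ht
  obtain ⟨g, h, ℓ, H⟩ := exists_gh hP h0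
  have hc := finCoh_coh (tri_coh M g h (tor_fin M.toShf hM hP hk H)
    (tor_fin M.toShf hM hP hk H.symm))
  obtain ⟨φ, ψ, q0, q1, q2⟩ := cmp_tri M g h
  have f1 : (cB M.pb [h, g] (FS.e k)).dg.FinCoh := (QIso.finCoh φ (qiso_of_inv q0 q1 q2)).2 hc
  have f2 : ((cC M.toShf.pc [h, g]).X (FS.e k)).dg.FinCoh := f1
  have f3 : ((cC M.toShf.pc (h :: g :: FF k)).X (FS.e k)).dg.FinCoh :=
    (CHom.QI.finCoh (tail_qi M.toShf.pc g h (FF k)
      (fun d _ => tor_sq M.toShf hP hk H d))).2 f2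
  have f4 : ((cC M.toShf.pc (g :: FF k)).X (FS.e k)).dg.FinCoh :=
    (CHom.QI.finCoh (pr_qi M.toShf h (g :: FF k)
      (fun i => List.mem_cons_of_mem _ (FF_has i)))).1 f3
  exact (CHom.QI.finCoh (pr_qi M.toShf g (FF k) FF_has)).1 f4

end Pool.Agent.MP_6e5bed_ag_NS
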