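import Pool.Agent.Lib.MP_6e5bed_ag_NS.Cx
import Pool.Agent.Lib.MP_6e5bed_ag_NS.Defs

set_option autoImplicit false
set_option linter.unusedVariables false

/-!
# MP_6e5bed_ag, NC SURFACES: Čech complexes

`PC` is a presheaf of complexes on the charts. `WC V` is a presheaf of complexes `X` on the finite
(possibly empty) sets of linear forms, with a map `V → X` on the charts. For a linear form `l` the
next one is `c ↦ (X c → X (c ∪ l) ← V (c ∪ l))` (`WC.cons`), and `cC V L` is the Čech complex with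
respect to the list `L` of linear forms: `(cC V L).X c` is the Čech complex of `V` on the
intersection of `c` with the union of the charts `l ≠ 0`, `l ∈ L`.
-/

noncomputable section

namespace Pool.Agent.MP_6e5bed_ag_NS

open Pool.Agent.MP_6e5bed_ag_NC

universe u

variable {k : Type u} [Field k]

/-- the finite sets of linear forms -/
abbrev FS (k : Type u) [Field k] : Type u := {c : Set (LF k) // c.Finite}

/-- a chart as a finite set -/
def Ch.fs (c : Ch k) : FS k := ⟨c.1, c.2.2⟩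

/-- the empty set -/
def FS.e (k : Type u) [Field k] : FS k := ⟨∅, Set.finite_empty⟩

/-- the intersection with the chart `l ≠ 0` -/
def FS.ins (c : FS k) (l : LF k) : Ch k := ⟨insert l c.1, Set.insert_nonempty l c.1, c.2.insert l⟩

theorem fs_mono {c d : Ch k} (h : c ≤ d) : c.fs ≤ d.fs := h

theorem le_ins (c : FS k) (l : LF k) : c ≤ (c.ins l).fs := Set.subset_insert l c.1

theorem le_ins' (c : Ch k) (l : LF k) : c ≤ c.fs.ins l := Set.subset_insert l c.1

theorem ins_mono {c d : FS k} (h : c ≤ d) (l : LF k) : c.ins l ≤ d.ins l :=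
  Set.insert_subset_insert h

theorem ins_ins (c : FS k) (l : LF k) : (c.ins l).fs.ins l ≤ c.ins l :=
  Set.insert_subset (Set.mem_insert l c.1) le_rfl

/-- Presheaves of complexes on the charts. -/
structure PC (k : Type u) [Field k] where
  X : Ch k → Cx k
  ρ : ∀ {c d : Ch k}, c ≤ d → CHom (X c) (X d)
  ρ_id : ∀ {c : Ch k} (h : c ≤ c) x, (ρ h).f x = x
  ρ_ρ : ∀ {c d e : Ch k} (h : c ≤ d) (h' : d ≤ e) x,
    (ρ h').f ((ρ h).f x) = (ρ (h.trans h')).f x

/-- Presheaves of complexes on the finite sets of linear forms, under `V`. -/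
structure WC (V : PC k) where
  X : FS k → Cx k
  ρ : ∀ {c d : FS k}, c ≤ d → CHom (X c) (X d)
  ρ_id : ∀ {c : FS k} (h : c ≤ c) x, (ρ h).f x = x
  ρ_ρ : ∀ {c d e : FS k} (h : c ≤ d) (h' : d ≤ e) x,
    (ρ h').f ((ρ h).f x) = (ρ (h.trans h')).f x
  a : ∀ c : Ch k, CHom (V.X c) (X c.fs)
  a_ρ : ∀ {c d : Ch k} (h : c ≤ d) x, (ρ (fs_mono h)).f ((a c).f x) = (a d).f ((V.ρ h).f x)

/-- the zero map to the zero complex -/
def toZero (X : Cx k) : CHom X (Cx.zero k) where
  f := 0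
  deg := fun _ => Dg.IsDeg.zero _
  d := fun _ => rfl

/-- The zero presheaf. -/
def WC.nil (V : PC k) : WC V where
  X := fun _ => Cx.zero k
  ρ := fun _ => CHom.id _
  ρ_id := fun _ _ => rfl
  ρ_ρ := fun _ _ _ => rfl
  a := fun c => toZero (V.X c)
  a_ρ := fun _ _ => rfl

/-- The step of the recursion. -/
def WC.cons {V : PC k} (W : WC V) (l : LF k) : WC V where
  X := fun c => co (W.ρ (le_ins c l)) (W.a (c.ins l))
  ρ := fun {c d} h => co.map _ _ _ _ (W.ρ h) (V.ρ (ins_mono h l)) (W.ρ (fs_mono (ins_mono h l)))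
    (fun x => by rw [W.ρ_ρ, W.ρ_ρ]) (fun x => (W.a_ρ _ x).symm)
  ρ_id := fun {c} h x => by
    obtain ⟨⟨x0, x1⟩, ξ⟩ := x
    exact Prod.ext (Prod.ext (W.ρ_id _ x0) (V.ρ_id _ x1)) (W.ρ_id _ ξ)
  ρ_ρ := fun {c d e} h h' x => by
    obtain ⟨⟨x0, x1⟩, ξ⟩ := x
    exact Prod.ext (Prod.ext (W.ρ_ρ _ _ x0) (V.ρ_ρ _ _ x1)) (W.ρ_ρ _ _ ξ)
  a := fun c => co.aug _ _ (W.a c) (V.ρ (le_ins' c l)) (fun x => W.a_ρ (le_ins' c l) x)
  a_ρ := fun {c d} h x => by
    refine Prod.ext (Prod.ext (W.a_ρ h x) ?_) ?_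
    · exact (V.ρ_ρ _ _ x).trans (V.ρ_ρ _ _ x).symm
    · exact map_zero (W.ρ (fs_mono (ins_mono (fs_mono h) l))).f

/-- The Čech complexes of `V` with respect to a list of linear forms. -/
def cC (V : PC k) : List (LF k) → WC V
  | [] => WC.nil V
  | l :: L => (cC V L).cons l

/-- Morphisms of presheaves of complexes. -/
structure PCH (V V' : PC k) where
  f : ∀ c, CHom (V.X c) (V'.X c)
  nat : ∀ {c d : Ch k} (h : c ≤ d) x, (V'.ρ h).f ((f c).f x) = (f d).f ((V.ρ h).f x)

/-- the identity -/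
def PCH.id (V : PC k) : PCH V V where
  f := fun _ => CHom.id _
  nat := fun _ _ => rfl

/-- the composition -/
def PCH.comp {V V' V'' : PC k} (f : PCH V V') (g : PCH V' V'') : PCH V V'' where
  f := fun c => (f.f c).comp (g.f c)
  nat := fun {c d} h x => by
    change (V''.ρ h).f ((g.f c).f ((f.f c).f x)) = (g.f d).f ((f.f d).f ((V.ρ h).f x))
    rw [g.nat, f.nat]

/-- Morphisms over a morphism of presheaves of complexes. -/
structure WCH {V V' : PC k} (f : PCH V V') (W : WC V) (W' : WC V') where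
  g : ∀ c, CHom (W.X c) (W'.X c)
  nat : ∀ {c d : FS k} (h : c ≤ d) x, (W'.ρ h).f ((g c).f x) = (g d).f ((W.ρ h).f x)
  a : ∀ (c : Ch k) x, (g c.fs).f ((W.a c).f x) = (W'.a c).f ((f.f c).f x)

/-- the morphism to the zero presheaf -/
def WCH.toNil {V V' : PC k} (f : PCH V V') (W : WC V) : WCH f W (WC.nil V') where
  g := fun c => toZero _
  nat := fun _ _ => rfl
  a := fun _ _ => rfl

/-- The step of the recursion. -/
def WCH.cons {V V' : PC k} {f : PCH V V'} {W : WC V} {W' : WC V'} (g : WCH f W W') (l : LF k) :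
    WCH f (W.cons l) (W'.cons l) where
  g := fun c => co.map _ _ _ _ (g.g c) (f.f (c.ins l)) (g.g (c.ins l).fs)
    (fun x => g.nat _ x) (fun x => (g.a _ x).symm)
  nat := fun {c d} h x => by
    obtain ⟨⟨x0, x1⟩, ξ⟩ := x
    exact Prod.ext (Prod.ext (g.nat _ x0) (f.nat _ x1)) (g.nat _ ξ)
  a := fun c x => Prod.ext (Prod.ext (g.a c x) (f.nat _ x).symm)
    (map_zero (g.g (c.fs.ins l).fs).f)

/-- A morphism of presheaves of complexes induces a morphism of the Čech complexes. -/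
def cH {V V' : PC k} (f : PCH V V') : ∀ L : List (LF k), WCH f (cC V L) (cC V' L)
  | [] => WCH.toNil f _
  | l :: L => (cH f L).cons l

/-- The projection which forgets the tail of the list. -/
def cT (V : PC k) (L : List (LF k)) : ∀ L' : List (LF k),
    WCH (PCH.id V) (cC V (L' ++ L)) (cC V L')
  | [] => WCH.toNil _ _
  | l :: L' => (cT V L L').cons l

/-- The projection which forgets the head of the list. -/
def WC.pr {V : PC k} (W : WC V) (l : LF k) : WCH (PCH.id V) (W.cons l) W where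
  g := fun c => co.pr0 _ _
  nat := fun {c d} h x => rfl
  a := fun c x => rfl

/-- Pairings of presheaves of complexes. -/
structure PP (V V' V'' : PC k) where
  p : ∀ c, CPr (V.X c) (V'.X c) (V''.X c)
  nat : ∀ {c d : Ch k} (h : c ≤ d) x y,
    (V''.ρ h).f ((p c).m x y) = (p d).m ((V.ρ h).f x) ((V'.ρ h).f y)

/-- Pairings over a pairing of presheaves of complexes. -/
structure WP {V V' V'' : PC k} (p : PP V V' V'') (W : WC V) (W' : WC V') (W'' : WC V'') where
  q : ∀ c, CPr (W.X c) (W'.X c) (W''.X c)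
  nat : ∀ {c d : FS k} (h : c ≤ d) x y,
    (W''.ρ h).f ((q c).m x y) = (q d).m ((W.ρ h).f x) ((W'.ρ h).f y)
  a : ∀ (c : Ch k) x y, (W''.a c).f ((p.p c).m x y) = (q c.fs).m ((W.a c).f x) ((W'.a c).f y)

/-- the zero pairing -/
def zPr (X Y : Cx k) : CPr X Y (Cx.zero k) where
  m := 0
  deg := fun _ _ => Dg.IsDeg.zero _
  d := fun _ _ => rfl

/-- the zero pairing -/
def WP.nil {V V' V'' : PC k} (p : PP V V' V'') : WP p (WC.nil V) (WC.nil V') (WC.nil V'') where
  q := fun c => zPr _ _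
  nat := fun _ _ _ => rfl
  a := fun _ _ _ => rfl

/-- The step of the recursion. -/
def WP.cons {V V' V'' : PC k} {p : PP V V' V''} {W : WC V} {W' : WC V'} {W'' : WC V''}
    (q : WP p W W' W'') (l : LF k) : WP p (W.cons l) (W'.cons l) (W''.cons l) where
  q := fun c => co.pair _ _ _ _ _ _ (q.q c) (p.p (c.ins l)) (q.q (c.ins l).fs)
    (fun x y => q.nat _ x y) (fun x y => q.a _ x y)
  nat := fun {c d} h x y => by
    obtain ⟨⟨x0, x1⟩, ξ⟩ := x
    obtain ⟨⟨y0, y1⟩, υ⟩ := y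
    refine Prod.ext (Prod.ext (q.nat _ x0 y0) (p.nat _ x1 y1)) ?_
    change (W''.ρ _).f ((q.q _).m ((W.ρ _).f ((W.X c).dg.s x0)) υ +
      (q.q _).m ξ ((W'.a _).f y1)) =
      (q.q _).m ((W.ρ _).f ((W.X d).dg.s ((W.ρ h).f x0))) ((W'.ρ _).f υ) +
      (q.q _).m ((W.ρ _).f ξ) ((W'.a _).f ((V'.ρ _).f y1))
    rw [map_add, q.nat, q.nat, (W.ρ h).s, W.ρ_ρ, W.ρ_ρ, W'.a_ρ]
  a := fun c x y => by
    refine Prod.ext (Prod.ext (q.a c x y) (p.nat _ x y)) ?_
    change (0 : (W''.X _).V) = (q.q _).m ((W.ρ _).f ((W.X _).dg.s ((W.a c).f x))) 0 +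
      (q.q _).m 0 ((W'.a _).f ((V'.ρ _).f y))
    rw [map_zero, map_zero, LinearMap.zero_apply, add_zero]

/-- Cup products. -/
def cP {V V' V'' : PC k} (p : PP V V' V'') : ∀ L : List (LF k),
    WP p (cC V L) (cC V' L) (cC V'' L)
  | [] => WP.nil p
  | l :: L => (cP p L).cons l

end Pool.Agent.MP_6e5bed_ag_NS
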